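import Pool.Agent.P.MP_6c8efb_pr.SLE.USc

/-! A bounded holomorphic function on a domain close to the upper half plane, with boundary values
on the three sides of the triangle, is close to the conformal map onto the triangle. -/

open Complex Set Filter Topology Metric
open scoped Real

namespace Pool.Agent.P.MP_6c8efb_pr.SLE

/-- `U` is `1 / n`-close to the upper half plane in the ball of radius `n`, and `h` maps the parts
of the boundary of `U` left of `0`, between `0` and `1` and right of `1` into the three lines. -/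
structure Near (M n : ℝ) (U : Set ℂ) (h : ℂ → ℂ) : Prop where
  op : IsOpen U
  dc : DiffContOnCl ℂ h U
  bd : ∀ z ∈ U, ‖h z‖ ≤ M
  big : ∀ z : ℂ, ‖z‖ ≤ n → 1 / n ≤ z.im → z ∈ U
  low : ∀ z ∈ U, ‖z‖ ≤ n → -(1 / n) < z.im
  left : ∀ z ∈ frontier U, ‖z‖ ≤ n → z.re ≤ -(1 / n) → (h z / om).im = 0
  mid : ∀ z ∈ frontier U, ‖z‖ ≤ n → 1 / n ≤ z.re → z.re ≤ 1 - 1 / n → (h z).im = 0
  right : ∀ z ∈ frontier U, ‖z‖ ≤ n → 1 + 1 / n ≤ z.re → ((h z - 1) * om).im = 0

theorem isOpen_H : IsOpen {z : ℂ | 0 < z.im} := isOpen_lt continuous_const continuous_im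

theorem maxp_H {E : ℂ → ℂ} {C : ℝ} (hE : DifferentiableOn ℂ E {z | 0 < z.im})
    (h1 : ∀ x : ℝ, ∀ᶠ z in 𝓝[{z | 0 < z.im}] (x : ℂ), ‖E z‖ ≤ C)
    (h2 : ∃ R, ∀ z : ℂ, 0 < z.im → R ≤ ‖z‖ → ‖E z‖ ≤ C) {z : ℂ} (hz : 0 < z.im) : ‖E z‖ ≤ C := by
  obtain ⟨R, hR⟩ := h2
  set U := {z : ℂ | 0 < z.im} ∩ (fun z => ‖E z‖) ⁻¹' Ioi C
  have ho : IsOpen U := hE.continuousOn.norm.isOpen_inter_preimage isOpen_H isOpen_Ioi
  have hc : closure U ⊆ {z | 0 < z.im} := fun w hw => by
    have h3 : 0 ≤ w.im := closure_minimal (fun _ h => le_of_lt h.1)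
      (isClosed_le continuous_const continuous_im) hw
    refine h3.lt_of_ne fun h4 => ?_
    have h5 := h1 w.re
    rw [show (w.re : ℂ) = w from Complex.ext (by simp) (by simpa using h4),
      eventually_nhdsWithin_iff] at h5
    obtain ⟨v, h6, h7⟩ := ((mem_closure_iff_frequently.1 hw).and_eventually h5).exists
    exact absurd (h7 h6.1) (not_le.2 h6.2)
  by_contra h
  refine h (norm_le_of_forall_mem_frontier_norm_le (U := U)
    (isBounded_ball.subset (t := ball 0 R) fun w hw => ?_) (hE.mono hc).diffContOnCl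
    (fun w hw => ?_) (subset_closure ⟨hz, not_le.1 h⟩))
  · exact mem_ball_zero_iff.2 (not_le.1 fun h => absurd (hR w hw.1 h) (not_le.2 hw.2))
  · rw [ho.frontier_eq] at hw
    exact not_lt.1 fun h => hw.2 ⟨hc hw.1, h⟩

theorem lind_H {G : ℂ → ℂ} {M : ℝ} (hG : DifferentiableOn ℂ G {z | 0 < z.im})
    (hb : ∀ z : ℂ, 0 < z.im → ‖G z‖ ≤ M) (hl : ∀ x : ℝ, x ≠ 0 → x ≠ 1 →
      Tendsto (fun z => (G z).im) (𝓝[{z | 0 < z.im}] x) (𝓝 0)) {z : ℂ} (hz : 0 < z.im) :
    (G z).im ≤ 0 := by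
  set k : ℂ → ℂ := fun z => z * (z - 1) / (z + I) ^ 3 with hk
  have h0 : ∀ w : ℂ, 0 ≤ w.im → 1 ≤ ‖w + I‖ ∧ ‖w‖ ≤ ‖w + I‖ := fun w hw => by
    refine ⟨le_trans (by simpa using hw) (im_le_norm (w + I)), ?_⟩
    rw [← sq_le_sq₀ (norm_nonneg _) (norm_nonneg _), Complex.sq_norm, Complex.sq_norm,
      normSq_apply, normSq_apply]
    simp only [add_re, add_im, I_re, I_im]
    nlinarith
  have hne : ∀ w : ℂ, 0 ≤ w.im → (w + I) ^ 3 ≠ 0 := fun w hw =>
    pow_ne_zero _ (norm_pos_iff.1 (by linarith [(h0 w hw).1]))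
  have h1 : ∀ w : ℂ, 0 ≤ w.im → ‖k w‖ * ‖w + I‖ ≤ 2 := fun w hw => by
    obtain ⟨h2, h3⟩ := h0 w hw
    have h4 : ‖w - 1‖ ≤ 2 * ‖w + I‖ := (norm_sub_le _ _).trans (by rw [norm_one]; linarith)
    rw [hk, norm_div, norm_mul, norm_pow, div_mul_eq_mul_div, div_le_iff₀ (by positivity)]
    calc _ ≤ ‖w + I‖ * (2 * ‖w + I‖) * ‖w + I‖ := by gcongr
      _ = _ := by ring
  have hn : ∀ (n : ℕ) (w : ℂ), ‖exp (-I * n * G w) * k w‖ = Real.exp (n * (G w).im) * ‖k w‖ :=
    fun n w => by simp [norm_exp]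
  have hM : ∀ (n : ℕ) (w : ℂ), 0 < w.im → Real.exp (n * (G w).im) ≤ Real.exp (n * M) :=
    fun n w hw => by gcongr; exact (im_le_norm _).trans (hb w hw)
  have key : ∀ n : ℕ, Real.exp (n * (G z).im) * ‖k z‖ ≤ 4 := fun n => by
    rw [← hn]
    refine maxp_H (E := fun w => exp (-I * n * G w) * k w) ((hG.const_mul _).cexp.mul
      (DifferentiableOn.div (by fun_prop) (by fun_prop) fun w hw => hne w (le_of_lt hw)))
      (fun x => ?_) ⟨Real.exp (n * M), fun w hw hR => ?_⟩ hz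
    · simp only [hn]
      by_cases hx : x = 0 ∨ x = 1
      · have h2 : ContinuousAt (fun w => Real.exp (n * M) * ‖k w‖) x := continuousAt_const.mul
          (ContinuousAt.div (f := fun z : ℂ => z * (z - 1)) (g := fun z : ℂ => (z + I) ^ 3)
            (by fun_prop) (by fun_prop) (hne x (by simp))).norm
        have h3 : Real.exp (n * M) * ‖k x‖ < 4 := by rcases hx with rfl | rfl <;> simp [hk]
        filter_upwards [nhdsWithin_le_nhds (h2.eventually_lt continuousAt_const h3),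
          self_mem_nhdsWithin] with w h4 hw
        exact (mul_le_mul_of_nonneg_right (hM n w hw) (norm_nonneg _)).trans h4.le
      · have h2 := ((hl x (not_or.1 hx).1 (not_or.1 hx).2).const_mul (n : ℝ)).rexp
        filter_upwards [h2.eventually_lt_const (show _ < (2 : ℝ) by simp), self_mem_nhdsWithin]
          with w h4 hw
        nlinarith [h1 w (le_of_lt hw), (h0 w (le_of_lt hw)).1, norm_nonneg (k w)]
    · rw [hn]
      nlinarith [h1 w hw.le, (h0 w hw.le).2, norm_nonneg (k w), hM n w hw]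
  by_contra h
  have hk0 : 0 < ‖k z‖ := norm_pos_iff.2 (div_ne_zero (mul_ne_zero (by rintro rfl; simp at hz)
    (sub_ne_zero.2 (by rintro rfl; simp at hz))) (hne z hz.le))
  obtain ⟨n, h2⟩ := exists_nat_gt (4 / ‖k z‖ / (G z).im)
  rw [div_lt_iff₀ (not_le.1 h), div_lt_iff₀ hk0] at h2
  nlinarith [key n, Real.add_one_le_exp (n * (G z).im)]

theorem cube_lim {d : ℂ → ℂ} {l : Filter ℂ} {M : ℝ} (hb : ∀ᶠ z in l, ‖d z‖ ≤ M)
    (h : Tendsto (fun z => (d z).im) l (𝓝 0)) : Tendsto (fun z => (d z ^ 3).im) l (𝓝 0) := by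
  have := h.abs.const_mul (4 * M ^ 2)
  rw [abs_zero, mul_zero] at this
  refine squeeze_zero_norm' (hb.mono fun z hz => ?_) this
  have h1 : (d z).re ^ 2 + (d z).im ^ 2 ≤ M ^ 2 := by
    have := pow_le_pow_left₀ (norm_nonneg _) hz 2
    rwa [Complex.sq_norm, normSq_apply, ← pow_two, ← pow_two] at this
  rw [show (d z ^ 3).im = (3 * (d z).re ^ 2 - (d z).im ^ 2) * (d z).im by simp [pow_succ]; ring,
    Real.norm_eq_abs, abs_mul]
  gcongr
  rw [abs_le]
  constructor <;> nlinarith [sq_nonneg (d z).re, sq_nonneg (d z).im]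

theorem neBot_H (x : ℝ) : (𝓝[{z : ℂ | 0 < z.im}] (x : ℂ)).NeBot :=
  mem_closure_iff_nhdsWithin_neBot.1 (by rw [closure_setOfPred_lt_im]; simp)

/-- uniqueness of the bounded solution -/
theorem sc_unique {h : ℂ → ℂ} {M : ℝ} (hd : DifferentiableOn ℂ h {z | 0 < z.im})
    (hb : ∀ z : ℂ, 0 < z.im → ‖h z‖ ≤ M)
    (h1 : ∀ x : ℝ, x < 0 → Tendsto (fun z => (h z / om).im) (𝓝[{z | 0 < z.im}] x) (𝓝 0))
    (h2 : ∀ x : ℝ, 0 < x → x < 1 → Tendsto (fun z => (h z).im) (𝓝[{z | 0 < z.im}] x) (𝓝 0))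
    (h3 : ∀ x : ℝ, 1 < x → Tendsto (fun z => ((h z - 1) * om).im) (𝓝[{z | 0 < z.im}] x) (𝓝 0))
    {z : ℂ} (hz : 0 < z.im) : h z = sc z := by
  set d := fun z => h z - sc z with hdd
  set M' := M + (1 + 2 * π / scB)
  have dd : DifferentiableOn ℂ d {z | 0 < z.im} :=
    hd.sub fun w hw => (sc_diff (Or.inl (ne_of_gt hw))).differentiableWithinAt
  have db : ∀ w : ℂ, 0 < w.im → ‖d w‖ ≤ M' := fun w hw =>
    (norm_sub_le _ _).trans (add_le_add (hb w hw) (sc_bound hw.ne'))
  have d1 : ∀ x : ℝ, x < 0 → Tendsto (fun z => (d z / om).im) (𝓝[{z | 0 < z.im}] x) (𝓝 0) :=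
    fun x hx => by simpa [hdd, sub_div] using (h1 x hx).sub (sc_left hx)
  have d2 : ∀ x : ℝ, 0 < x → x < 1 → Tendsto (fun z => (d z).im) (𝓝[{z | 0 < z.im}] x) (𝓝 0) :=
    fun x h0 hx => by
      have := (h2 x h0 hx).sub
        (((continuous_im.tendsto _).comp (sc_mid h0 hx)).mono_left nhdsWithin_le_nhds)
      simpa [hdd] using this
  have d3 : ∀ x : ℝ, 1 < x → Tendsto (fun z => (d z * om).im) (𝓝[{z | 0 < z.im}] x) (𝓝 0) :=
    fun x hx => by
      have := (h3 x hx).sub (sc_right hx)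
      simp only [← sub_im, ← sub_mul, sub_sub_sub_cancel_right, sub_zero] at this
      exact this
  have d4 : ∀ x : ℝ, x ≠ 0 → x ≠ 1 →
      Tendsto (fun z => (d z ^ 3).im) (𝓝[{z | 0 < z.im}] x) (𝓝 0) := fun x hx0 hx1 => by
    rcases hx0.lt_or_gt with h0 | h0
    · simpa [div_pow, om_cube, div_neg] using (cube_lim (M := M') (eventually_nhdsWithin_of_forall
        fun w hw => by rw [norm_div, norm_om, div_one]; exact db w hw) (d1 x h0)).neg
    rcases hx1.lt_or_gt with h4 | h4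
    · exact cube_lim (eventually_nhdsWithin_of_forall db) (d2 x h0 h4)
    · simpa [mul_pow, om_cube] using (cube_lim (M := M') (eventually_nhdsWithin_of_forall
        fun w hw => by rw [norm_mul, norm_om, mul_one]; exact db w hw) (d3 x h4)).neg
  have b3 : ∀ w : ℂ, 0 < w.im → ‖d w ^ 3‖ ≤ M' ^ 3 := fun w hw => by
    rw [norm_pow]; exact pow_le_pow_left₀ (norm_nonneg _) (db w hw) 3
  have hcon : IsConnected {z : ℂ | 0 < z.im} := (convex_halfSpace_im_gt 0).isConnected ⟨z, hz⟩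
  obtain ⟨c, hc⟩ := ((dd.pow 3).analyticOnNhd isOpen_H).eq_const_of_im_eq_const (c₀ := 0)
    (fun w hw => le_antisymm (lind_H (dd.pow 3) b3 d4 hw) (by
      simpa using lind_H (dd.pow 3).neg (by simpa using b3)
        (fun x h0 h1 => by simpa using (d4 x h0 h1).neg) hw)) isOpen_H hcon
  have h5 : ∀ w ∈ {z : ℂ | 0 < z.im}, d w = d z := fun w hw =>
    hcon.isPreconnected.constant_of_mapsTo (T := {t : ℂ | t ^ 3 = c}) (by
      refine Set.Finite.isDiscrete ?_
      simpa using (Polynomial.nthRoots 3 c).toFinset.finite_toSet.subset fun t ht => by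
        simpa [Polynomial.mem_nthRoots] using ht) dd.continuousOn (fun x hx => by simpa using hc x hx)
      hw hz
  have h6 : (d z).im = 0 := by
    have := neBot_H (1 / 2)
    exact tendsto_nhds_unique (tendsto_const_nhds.congr' (eventually_nhdsWithin_of_forall
      fun w hw => by rw [h5 w hw])) (d2 (1 / 2) (by norm_num) (by norm_num))
  have h7 : (d z * om).im = 0 := by
    have := neBot_H 2
    exact tendsto_nhds_unique (tendsto_const_nhds.congr' (eventually_nhdsWithin_of_forall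
      fun w hw => by rw [h5 w hw])) (d3 2 (by norm_num))
  rw [mul_im, h6, zero_mul, add_zero, mul_eq_zero] at h7
  exact sub_eq_zero.1 (Complex.ext (h7.resolve_right om_im) h6)

/-- the barrier estimate in a rectangle -/
theorem barrier {U : Set ℂ} {g : ℂ → ℂ} {M r s x : ℝ} (hU : IsOpen U) (hg : DiffContOnCl ℂ g U)
    (hb : ∀ z ∈ U, ‖g z‖ ≤ M) (hr : 0 < r)
    (hlow : ∀ z ∈ U, |z.re - x| ≤ r → -s ≤ z.im → z.im ≤ r - s → -s < z.im)
    (hf : ∀ z ∈ frontier U, |z.re - x| ≤ r → -s ≤ z.im → z.im ≤ r - s → (g z).im = 0)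
    {z : ℂ} (hz : z ∈ U) (h1 : |z.re - x| < r) (h2 : -s < z.im) (h3 : z.im < r - s) :
    (g z).im ≤ M * ((z.re - x) ^ 2 / r ^ 2 + 2 * (z.im + s) / r) := by
  have hM : 0 ≤ M := (norm_nonneg _).trans (hb z hz)
  set R : Set ℂ := {z | |z.re - x| < r ∧ -s < z.im ∧ z.im < r - s}
  have hre : Continuous fun z : ℂ => |z.re - x| := by fun_prop
  have hR : IsOpen R := (isOpen_lt hre continuous_const).inter
    ((isOpen_lt continuous_const continuous_im).inter (isOpen_lt continuous_im continuous_const))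
  have hn : ∀ w : ℂ, ‖exp (-I * g w - M * ((w - x + s * I) ^ 2 / r ^ 2 - 2 * I * (w - x + s * I) / r))‖
      = Real.exp ((g w).im - M * (((w.re - x) ^ 2 - (w.im + s) ^ 2) / r ^ 2 +
        2 * (w.im + s) / r)) := fun w => by
    rw [norm_exp, ← ofReal_pow]
    simp only [sub_re, re_ofReal_mul, div_ofReal_re]
    simp [pow_two, neg_div]
  have h4 := norm_le_of_forall_mem_frontier_norm_le (U := U ∩ R) (C := 1) (f := fun w =>
    exp (-I * g w - M * ((w - x + s * I) ^ 2 / r ^ 2 - 2 * I * (w - x + s * I) / r)))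
    (isBounded_closedBall.subset (t := closedBall 0 (|x| + |s| + 2 * r)) fun w hw => ?_)
    (differentiable_exp.comp_diffContOnCl (((hg.mono inter_subset_left).const_smul (-I)).sub
      (Differentiable.diffContOnCl (by fun_prop)))) (fun w hw => ?_)
    (subset_closure ⟨hz, h1, h2, h3⟩)
  · rw [hn, Real.exp_le_one_iff, sub_nonpos] at h4
    refine h4.trans ?_
    gcongr
    nlinarith [sq_nonneg (z.im + s)]
  · refine mem_closedBall_zero_iff.2 ((norm_le_abs_re_add_abs_im w).trans ?_)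
    have h5 := abs_lt.1 hw.2.1
    have : |w.re| ≤ |x| + r := abs_le.2 ⟨by linarith [neg_abs_le x], by linarith [le_abs_self x]⟩
    have : |w.im| ≤ |s| + r :=
      abs_le.2 ⟨by linarith [le_abs_self s, hw.2.2.1], by linarith [neg_abs_le s, hw.2.2.2]⟩
    linarith
  · rw [(hU.inter hR).frontier_eq] at hw
    obtain ⟨c1, c2, c3⟩ : |w.re - x| ≤ r ∧ -s ≤ w.im ∧ w.im ≤ r - s := closure_minimal
      (t := {z : ℂ | |z.re - x| ≤ r ∧ -s ≤ z.im ∧ z.im ≤ r - s})
      (fun v hv => ⟨hv.2.1.le, hv.2.2.1.le, hv.2.2.2.le⟩)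
      ((isClosed_le hre continuous_const).inter ((isClosed_le continuous_const
        continuous_im).inter (isClosed_le continuous_im continuous_const))) hw.1
    have e : ((w.re - x) ^ 2 - (w.im + s) ^ 2) / r ^ 2 + 2 * (w.im + s) / r =
        ((w.re - x) ^ 2 + (w.im + s) * (2 * r - (w.im + s))) / r ^ 2 := by field_simp; ring
    rw [hn, Real.exp_le_one_iff, sub_nonpos, e]
    by_cases hwU : w ∈ U
    · refine ((im_le_norm _).trans (hb w hwU)).trans (le_mul_of_one_le_right hM ?_)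
      rw [one_le_div (by positivity)]
      have c4 := hlow w hwU c1 c2 c3
      rcases c1.eq_or_lt with c5 | c5
      · rw [← sq_abs (w.re - x), c5]
        nlinarith
      · have : w.im + s = r := by
          linarith [not_lt.1 fun h => hw.2 ⟨hwU, c5, c4, h⟩]
        rw [this]
        nlinarith [sq_nonneg (w.re - x)]
    · rw [hf w (hU.frontier_eq ▸ ⟨closure_mono inter_subset_left hw.1, hwU⟩) c1 c2 c3]
      have : 0 ≤ (w.im + s) * (2 * r - (w.im + s)) := mul_nonneg (by linarith) (by linarith)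
      positivity

theorem Near.mono {M n n' : ℝ} {U : Set ℂ} {h : ℂ → ℂ} (H : Near M n' U h) (h0 : 0 < n)
    (hn : n ≤ n') : Near M n U h :=
  have e := one_div_le_one_div_of_le h0 hn
  ⟨H.op, H.dc, H.bd, fun z a b => H.big z (a.trans hn) (e.trans b),
    fun z a b => by linarith [H.low z a (b.trans hn)],
    fun z a b c => H.left z a (b.trans hn) (by linarith),
    fun z a b c d => H.mid z a (b.trans hn) (by linarith) (by linarith),
    fun z a b c => H.right z a (b.trans hn) (by linarith)⟩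

theorem blim {l : Filter ℕ} [l.NeBot] (hl : l ≤ atTop) {M x r : ℝ} {U : ℕ → Set ℂ}
    {h : ℕ → ℂ → ℂ} {g : ℂ → ℂ} (H : ∀ n : ℕ, Near M (n + 1) (U n) (h n)) (hr : 0 < r)
    (hg : ∀ w : ℂ, 0 < w.im → Tendsto (fun n => h n w) l (𝓝 (g w))) (a c : ℂ)
    (hf : ∀ n : ℕ, 1 / ((n : ℝ) + 1) ≤ r → ∀ z ∈ frontier (U n), ‖z‖ ≤ n + 1 → |z.re - x| ≤ r →
      (a * h n z + c).im = 0) :
    Tendsto (fun z => (a * g z + c).im) (𝓝[{z | 0 < z.im}] x) (𝓝 0) := by
  have hs := (tendsto_one_div_add_atTop_nhds_zero_nat (𝕜 := ℝ)).mono_left hl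
  have hN := (tendsto_atTop_add_const_right _ (1 : ℝ) tendsto_natCast_atTop_atTop).mono_left hl
  have key : ∀ t : ℂ, t.im = 0 → ‖t‖ = 1 → ∀ z : ℂ, 0 < z.im → |z.re - x| < r → z.im < r →
      (t * (a * g z + c)).im ≤ (‖a‖ * M + ‖c‖) * ((z.re - x) ^ 2 / r ^ 2 + 2 * (z.im + 0) / r) := by
    intro t ht ht1 z hz h1 h2
    refine le_of_tendsto_of_tendsto ((continuous_im.tendsto _).comp
      ((((hg z hz).const_mul a).add_const c).const_mul t))
      (((((hs.const_add z.im).const_mul 2).div_const r).const_add _).const_mul _) ?_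
    filter_upwards [hs.eventually_lt_const (lt_min (lt_min hr hz) (sub_pos.2 h2)),
      hN.eventually_ge_atTop (|x| + 2 * r)] with n h3 h4
    simp only [lt_min_iff] at h3
    have h5 : 0 < 1 / ((n : ℝ) + 1) := by positivity
    have h6 : ∀ w : ℂ, |w.re - x| ≤ r → -(1 / ((n : ℝ) + 1)) ≤ w.im → w.im ≤ r - 1 / ((n : ℝ) + 1) →
        ‖w‖ ≤ n + 1 := fun w c1 c2 c3 => by
      have c4 := abs_le.1 c1
      have : |w.re| ≤ |x| + r := abs_le.2 ⟨by linarith [neg_abs_le x], by linarith [le_abs_self x]⟩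
      have : |w.im| ≤ r := abs_le.2 ⟨by linarith, by linarith⟩
      linarith [norm_le_abs_re_add_abs_im w]
    refine barrier (g := fun w => t * (a * h n w + c)) (H n).op
      ((((H n).dc.const_smul a).add_const c).const_smul t) (fun w hw => ?_) hr
      (fun w hw c1 c2 c3 => (H n).low w hw (h6 w c1 c2 c3)) (fun w hw c1 c2 c3 => ?_)
      ((H n).big z (h6 z h1.le (by linarith) (by linarith)) h3.1.2.le) h1 (by linarith)
      (by linarith)
    · rw [norm_mul, ht1, one_mul]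
      refine (norm_add_le _ _).trans ?_
      rw [norm_mul]
      gcongr
      exact (H n).bd w hw
    · rw [mul_im, hf n h3.1.1.le w hw (h6 w c1 c2 c3) c1, ht]
      simp
  have hc : Tendsto (fun z : ℂ => (‖a‖ * M + ‖c‖) * ((z.re - x) ^ 2 / r ^ 2 + 2 * (z.im + 0) / r))
      (𝓝 x) (𝓝 0) := Continuous.tendsto' (by fun_prop) _ _ (by simp)
  refine squeeze_zero_norm' ?_ (hc.mono_left nhdsWithin_le_nhds)
  have e1 : ∀ᶠ z : ℂ in 𝓝 x, |z.re - x| < r :=
    (Continuous.tendsto' (by fun_prop) _ 0 (by simp)).eventually_lt_const hr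
  have e2 : ∀ᶠ z : ℂ in 𝓝 x, z.im < r :=
    (continuous_im.tendsto' _ 0 (by simp)).eventually_lt_const hr
  filter_upwards [nhdsWithin_le_nhds e1, nhdsWithin_le_nhds e2, self_mem_nhdsWithin] with z h1 h2 hz
  have h3 := key 1 (by simp) (by simp) z hz h1 h2
  have h4 := key (-1) (by simp) (by simp) z hz h1 h2
  rw [one_mul] at h3
  rw [neg_one_mul, neg_im] at h4
  exact abs_le.2 ⟨by linarith, h3⟩

/-- identification of the limit, in uniform form -/
theorem ident (M : ℝ) {ε ρ : ℝ} (hε : 0 < ε) (hρ : 0 < ρ) : ∃ n : ℝ, 0 < n ∧ ∀ U h, Near M n U h →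
    ∀ z : ℂ, ‖z‖ ≤ 1 / ρ → ρ ≤ z.im → ‖h z - sc z‖ ≤ ε := by
  by_contra hc
  simp only [not_exists, not_and, not_forall, not_le, exists_prop] at hc
  choose U h H z hz1 hz2 hz3 using fun n : ℕ => hc (n + 1) (by positivity)
  set l := hyperfilter ℕ
  have hl : (l : Filter ℕ) ≤ atTop := Nat.hyperfilter_le_atTop
  have hs := (tendsto_one_div_add_atTop_nhds_zero_nat (𝕜 := ℝ)).mono_left hl
  have hN := (tendsto_atTop_add_const_right _ (1 : ℝ) tendsto_natCast_atTop_atTop).mono_left hl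
  have hb : ∀ w : ℂ, 0 < w.im → ∀ᶠ n in l, ball w (w.im / 2) ⊆ U n := fun w hw => by
    filter_upwards [hs.eventually_lt_const (half_pos hw), hN.eventually_ge_atTop (‖w‖ + w.im / 2)]
      with n h1 h2 v hv
    rw [mem_ball, dist_eq_norm] at hv
    refine (H n).big v (by linarith [norm_sub_norm_le v w]) ?_
    have := (abs_le.1 ((abs_im_le_norm (v - w)).trans hv.le)).1
    rw [sub_im] at this
    linarith
  have hbH : ∀ w : ℂ, ∀ v ∈ ball w (w.im / 2), 0 < v.im := fun w v hv => by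
    have h1 := pos_of_mem_ball hv
    rw [mem_ball, dist_eq_norm] at hv
    have := (abs_le.1 ((abs_im_le_norm (v - w)).trans hv.le)).1
    rw [sub_im] at this
    linarith
  have hex : ∀ w : ℂ, ∃ c : ℂ, 0 < w.im → ‖c‖ ≤ M ∧ Tendsto (fun n => h n w) l (𝓝 c) := fun w => by
    by_cases hw : 0 < w.im
    · obtain ⟨c, h1, h2⟩ := (isCompact_closedBall (0 : ℂ) M).ultrafilter_le_nhds
        (l.map fun n => h n w) (le_principal_iff.2 ((hb w hw).mono fun n hn =>
          mem_closedBall_zero_iff.2 ((H n).bd w (hn (mem_ball_self (half_pos hw))))))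
      exact ⟨c, fun _ => ⟨mem_closedBall_zero_iff.1 h1, h2⟩⟩
    · exact ⟨0, fun h => absurd h hw⟩
  choose g hg using hex
  have hL : ∀ w : ℂ, 0 < w.im → ∀ᶠ n in l, ∀ v ∈ ball w (w.im / 2),
      dist (h n v) (h n w) ≤ (M + M) / (w.im / 2) * dist v w := fun w hw => by
    filter_upwards [hb w hw] with n hn v hv
    refine dist_le_div_mul_dist_of_mapsTo_ball ((H n).dc.differentiableOn.mono hn)
      (fun u hu => ?_) hv
    exact mem_closedBall_iff_norm.2 ((norm_sub_le _ _).trans (add_le_add ((H n).bd u (hn hu))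
      ((H n).bd w (hn (mem_ball_self (half_pos hw))))))
  have hU : TendstoLocallyUniformlyOn h g l {z | 0 < z.im} := by
    refine Metric.tendstoLocallyUniformlyOn_iff.2 fun δ hδ w hw => ?_
    have h1 : ∀ᶠ v in 𝓝 w, (M + M) / (w.im / 2) * dist v w < δ / 3 :=
      (Continuous.tendsto' (by fun_prop) _ 0 (by simp)).eventually_lt_const (by positivity)
    refine ⟨_, nhdsWithin_le_nhds (h1.and (ball_mem_nhds w (half_pos hw))), ?_⟩
    filter_upwards [hL w hw, Metric.tendsto_nhds.1 (hg w hw).2 (δ / 3) (by positivity)]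
      with n h2 h3 v hv
    have h4 := le_of_tendsto ((hg v (hbH w v hv.2)).2.dist (hg w hw).2)
      ((hL w hw).mono fun n hn => hn v hv.2)
    have h5 := h2 v hv.2
    have h6 := dist_triangle4 (g v) (g w) (h n w) (h n v)
    rw [dist_comm (g w), dist_comm (h n w) (h n v)] at h6
    linarith [hv.1]
  have hd : DifferentiableOn ℂ g {z | 0 < z.im} := fun w hw =>
    (((hU.mono (hbH w)).differentiableOn ((hb w hw).mono fun n hn =>
      (H n).dc.differentiableOn.mono hn) isOpen_ball).differentiableAt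
        (ball_mem_nhds w (half_pos hw))).differentiableWithinAt
  have hgs : ∀ w : ℂ, 0 < w.im → g w = sc w := fun w hw => by
    refine sc_unique hd (fun v hv => (hg v hv).1) (fun x hx => ?_) (fun x h0 h1 => ?_)
      (fun x hx => ?_) hw
    · simpa [div_eq_inv_mul] using blim hl H (r := -x / 2) (x := x) (by linarith)
        (fun v hv => (hg v hv).2) om⁻¹ 0 fun n h1 v hv h2 h3 => by
          simpa [div_eq_inv_mul] using (H n).left v hv h2 (by linarith [(abs_le.1 h3).2])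
    · simpa using blim hl H (r := min x (1 - x) / 2) (x := x) (half_pos (lt_min h0 (by linarith)))
        (fun v hv => (hg v hv).2) 1 0 fun n h1 v hv h2 h3 => by
          simpa using (H n).mid v hv h2 (by linarith [(abs_le.1 h3).1, min_le_left x (1 - x)])
            (by linarith [(abs_le.1 h3).2, min_le_right x (1 - x)])
    · have e : ∀ t : ℂ, (t - 1) * om = om * t + -om := fun t => by ring
      simp only [e]
      exact blim hl H (r := (x - 1) / 2) (x := x) (by linarith)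
        (fun v hv => (hg v hv).2) om (-om) fun n h1 v hv h2 h3 => by
          rw [← e]
          exact (H n).right v hv h2 (by linarith [(abs_le.1 h3).1])
  obtain ⟨w, hw, hzw⟩ := ((isCompact_closedBall (0 : ℂ) (1 / ρ)).inter_right
    (isClosed_le continuous_const continuous_im : IsClosed {z : ℂ | ρ ≤ z.im})).ultrafilter_le_nhds
      (l.map z) (le_principal_iff.2 (mem_map.2 (univ_mem' fun n =>
        ⟨mem_closedBall_zero_iff.2 (hz1 n), hz2 n⟩)))
  have hw0 : 0 < w.im := hρ.trans_le hw.2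
  have h1 := (hU.tendsto_comp (hd.continuousOn w hw0) hw0 (tendsto_nhdsWithin_iff.2
    ⟨hzw, Eventually.of_forall fun n => hρ.trans_le (hz2 n)⟩)).sub
      ((sc_diff (Or.inl hw0.ne')).continuousAt.tendsto.comp hzw)
  rw [hgs w hw0, sub_self] at h1
  exact absurd (ge_of_tendsto' (tendsto_zero_iff_norm_tendsto_zero.1 h1) fun n => (hz3 n).le)
    (not_le.2 hε)

/-- the values just above the middle side give Cardy's function -/
theorem ident_cardy (M : ℝ) {ε a : ℝ} (hε : 0 < ε) (ha : 0 < a) : ∃ r > 0, ∀ ρ : ℝ, 0 < ρ → ρ ≤ r →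
    ∃ n : ℝ, 0 < n ∧ ∀ U h, Near M n U h → ∀ x ∈ Icc a (1 - a),
      ‖h (x + ρ * I) - cardy x‖ ≤ ε := by
  have hK : IsCompact (Icc a (1 - a) ×ℂ Icc (0 : ℝ) (1 / 2)) := isCompact_Icc.reProdIm isCompact_Icc
  have hc : ContinuousOn sc (Icc a (1 - a) ×ℂ Icc (0 : ℝ) (1 / 2)) := fun z hz =>
    (sc_diff (Or.inr ⟨by linarith [hz.1.1], by linarith [hz.1.2]⟩)).continuousAt.continuousWithinAt
  obtain ⟨δ, hδ, h1⟩ := Metric.uniformContinuousOn_iff_le.1
    (hK.uniformContinuousOn_of_continuous hc) (ε / 2) (half_pos hε)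
  refine ⟨min δ (1 / 2), by positivity, fun ρ h0 hρ => ?_⟩
  obtain ⟨h2, h3⟩ := le_min_iff.1 hρ
  obtain ⟨n, hn, h4⟩ := ident M (half_pos hε) h0
  refine ⟨n, hn, fun U h H x hx => ?_⟩
  have h5 := h4 U h H (x + ρ * I) ((norm_le_abs_re_add_abs_im _).trans (by
    have : 2 ≤ 1 / ρ := by rw [le_div_iff₀ h0]; linarith
    simp only [add_re, add_im, ofReal_re, ofReal_im, re_ofReal_mul, im_ofReal_mul, I_re, I_im]
    rw [abs_of_nonneg (by linarith [hx.1]), abs_of_nonneg (by linarith)]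
    linarith [hx.2])) (by simp)
  have h6 := h1 (x + ρ * I) ⟨by simpa using hx, by simpa using ⟨h0.le, by linarith⟩⟩ x
    ⟨by simpa using hx, by simp⟩ (by simpa [abs_of_pos h0] using h2)
  rw [sc_real (by linarith [hx.1]) (by linarith [hx.2]), dist_eq_norm] at h6
  linarith [norm_sub_le_norm_sub_add_norm_sub (h (x + ρ * I)) (sc (x + ρ * I)) (cardy x)]

end Pool.Agent.P.MP_6c8efb_pr.SLE
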