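import Pool.Agent.P.MP_6c8efb_pr.SLE.Defs
import Pool.Agent.P.MP_6c8efb_pr.SLE.UId

/-! The statements exchanged between the blocks. -/

open Set Filter Topology MeasureTheory Metric
open scoped NNReal

namespace Pool.Agent.P.MP_6c8efb_pr.SLE

/-! ### Lattice statements (block T) -/

def S_FP : Prop := ∀ ω, FP (fp ω)

def S_UNB : Prop := ∀ (R : ℕ) (ω : Cfg) (M : ℤ), ∃ k, M ≤ (fp (tr R ω) k).2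

/-- a long excursion at a low height is unlikely -/
def S_T0 : Prop := ∃ C c : ℝ, 0 < c ∧ ∀ (R : ℕ) (h l : ℤ), 1 ≤ h →
  Q {ω | ∃ k, l ≤ |(fp (tr R ω) k).1| ∧ ∀ j ≤ k, (fp (tr R ω) j).2 ≤ h} ≤
    C * Real.exp (-c * l / h)

/-- `N` steps of size `m` inside the box of radius `R` -/
def Steps (q : ℕ → V) (R m : ℤ) (N : ℕ) : Prop := ∃ k : ℕ → ℕ, Monotone k ∧
  (∀ j ≤ k N, nm 0 (q j) ≤ R) ∧ ∀ i < N, m ≤ nm (q (k i)) (q (k (i + 1)))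

def S_T1 : Prop := ∀ (A : ℕ) (ε : ℝ), 0 < ε → ∃ (N : ℕ) (m₀ : ℤ), ∀ m : ℤ, m₀ ≤ m →
  Q {ω | Steps (fp ω) (A * m) m N} ≤ ε

/-- at time `t` the path is at distance `m` of a ball of radius `r` which, together with the
path up to an earlier time `k`, cuts it from infinity -/
def Gate (q : ℕ → V) (R m r : ℤ) : Prop := ∃ (k t : ℕ) (z : V) (d : Fin 4), k ≤ t ∧
  (∀ j ≤ t, nm 0 (q j) ≤ R) ∧ m ≤ nm z (q t) ∧ 0 ≤ (fc (q t) d).2 ∧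
  {c | CC q k {y | r < nm z y ∧ 0 ≤ y.2} (fc (q t) d) c}.Finite

def S_GATE : Prop := ∀ (A : ℕ) (ε : ℝ), 0 < ε → ∃ B m₀ : ℤ, 0 < B ∧ ∀ m r : ℤ, m₀ ≤ m → 0 ≤ r →
  B * r ≤ m → Q {ω | Gate (fp ω) (A * m) m r} ≤ ε

/-- near `Z` there is no cell on the left of the path; the cells of the bottom row are in `J` -/
def NoL (q : ℕ → V) (k : ℕ) (z : V) (Z : Set V) (ρ : ℤ) (J : Set ℤ) : Prop :=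
  ∀ c₀ ∈ Z, ∀ c, CC q k (Bx z ρ) c₀ c → c ∉ Lft q k ∧ (c.2 = 0 → c.1 ∈ J)

/-- near `Z` there is no cell on the right of the path; the cells of the bottom row are in `J` -/
def NoR (q : ℕ → V) (k : ℕ) (z : V) (Z : Set V) (ρ : ℤ) (J : Set ℤ) : Prop :=
  ∀ c₀ ∈ Z, ∀ c, CC q k (Bx z ρ) c₀ c → c ∉ Rgt q k ∧ (c.2 = 0 → c.1 ∈ J)

/-- a small set chosen at a stopping time, close to one side only, is unlikely to be visited -/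
def S_FLAT : Prop := ∃ C c : ℝ, 0 < c ∧ ∀ (S : ℕ → Cfg → Prop) (z : ℕ → Cfg → V)
  (Z : ℕ → Cfg → Set V) (r ρ : ℤ), Adapted S → Adapted z → Adapted Z →
  (∀ ω k k', S k ω → S k' ω → k = k') → 1 ≤ r → r ≤ ρ →
  Q {ω | ∃ k, S k ω ∧ 1 ≤ k ∧ Z k ω ⊆ Bx (z k ω) r ∧
    (NoL (fp ω) k (z k ω) (Z k ω) ρ (Ici 0) ∨ NoR (fp ω) k (z k ω) (Z k ω) ρ (Iio 0)) ∧
    ∃ j, k ≤ j ∧ ∃ d, fc (fp ω j) d ∈ Z k ω} ≤ C * ((r : ℝ) / ρ) ^ c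

/-- uniform transience -/
def S_TRANS : Prop := ∃ C c : ℝ, 0 < c ∧ ∀ r ρ : ℤ, 1 ≤ r → r ≤ ρ →
  Q {ω | ∃ j k, j ≤ k ∧ ρ ≤ nm 0 (fp ω j) ∧ nm 0 (fp ω k) ≤ r} ≤ C * ((r : ℝ) / ρ) ^ c

def S_DISJ : Prop := ∀ a b M M' : ℤ, Disjoint (EvA a b M) (EvB a b M')

/-- an open path from `[b, ∞)` which reaches one of the small crosscuts near the left side
extends to a crossing -/
def S_EXTA : Prop := ∃ C c : ℝ, 0 < c ∧ ∀ (ξ : Cfg) (k : ℕ) (a b M R r ρ : ℤ) (ι : Type)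
  (z : ι → V) (Z : ι → Set V), 1 ≤ r → r ≤ ρ → (∀ j ≤ k + 1, nm 0 (fp ξ j) ≤ R) → R ≤ a → R ≤ b →
  (∀ i, Z i ⊆ Bx (z i) r) →
  (∀ i, ∀ c ∈ Z i, ∃ c', CC (fp ξ) (k + 1) (Z i) c c' ∧ (c' ∈ Lft (fp ξ) (k + 1) ∨ c'.2 = 0)) →
  (∀ i, NoR (fp ξ) (k + 1) (z i) (Z i) ρ (Ico (-2 * a) 0)) →
  Q {ω | (∃ (x y : V) (i : ι), y.2 = 0 ∧ b ≤ y.1 ∧ cv x ∈ Z i ∧
      Conn (fr (mg ξ k ω)) (Bx 0 M) y x) ∧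
    mg ξ k ω ∉ EvA a b (M + ρ + R + 10)} ≤ C * ((r : ℝ) / ρ) ^ c

/-- the dual statement -/
def S_EXTB : Prop := ∃ C c : ℝ, 0 < c ∧ ∀ (ξ : Cfg) (k : ℕ) (a b M R r ρ : ℤ) (ι : Type)
  (z : ι → V) (Z : ι → Set V), 1 ≤ r → r ≤ ρ → (∀ j ≤ k + 1, nm 0 (fp ξ j) ≤ R) → R ≤ a → R ≤ b →
  (∀ i, Z i ⊆ Bx (z i) r) →
  (∀ i, ∀ c ∈ Z i, ∃ c', CC (fp ξ) (k + 1) (Z i) c c' ∧ (c' ∈ Rgt (fp ξ) (k + 1) ∨ c'.2 = 0)) →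
  (∀ i, NoL (fp ξ) (k + 1) (z i) (Z i) ρ (Ico 0 (2 * b - 1))) →
  Q {ω | (∃ (x y : V) (i : ι), y.2 = 0 ∧ y.1 < -a ∧ cf x ∈ Z i ∧
      Conn (du (mg ξ k ω)) (Bx 0 M) y x) ∧
    mg ξ k ω ∉ EvB a b (M + ρ + R + 10)} ≤ C * ((r : ℝ) / ρ) ^ c

/-! ### Cells and conformal maps -/

def S_PC : Prop := ∀ (h : ℝ) (q : ℕ → V), 0 < h → FP q → L.Curve (pc h q) ∧ L.Poly (pc h q)

/-- from connected sets to chains of cells -/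
def S_DISC : Prop := ∀ (h : ℝ) (q : ℕ → V) (k : ℕ) (Z : Set ℂ), 0 < h → FP q → IsPreconnected Z →
  Z ⊆ L.HH \ L.hull (pc h q) k → ∀ c c', (Z ∩ sq h c).Nonempty → (Z ∩ sq h c').Nonempty →
  CC q k {y | (Z ∩ sq h y).Nonempty} c c'

/-- from chains of cells to connected sets -/
def S_CONT : Prop := ∀ (h : ℝ) (q : ℕ → V) (k : ℕ), 0 < h → FP q →
  (∀ c : V, 0 ≤ c.2 → (h : ℂ) * (cx c + ⟨1 / 2, 1 / 2⟩) ∈ sq h c ∩ (L.HH \ L.hull (pc h q) k)) ∧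
  ∀ (S : Set V) (c c' : V) (z z' : ℂ), (∀ y ∈ S, 0 ≤ y.2) → CC q k S c c' →
    z ∈ sq h c ∩ (L.HH \ L.hull (pc h q) k) → z' ∈ sq h c' ∩ (L.HH \ L.hull (pc h q) k) →
    ∃ Z, IsPreconnected Z ∧ z ∈ Z ∧ z' ∈ Z ∧ Z ⊆ L.HH \ L.hull (pc h q) k ∧
      Z ⊆ ⋃ y ∈ {y | CC q k S c y}, sq h y

/-- the cells on the left are mapped to the left of the driving point -/
def S_LR : Prop := ∀ R ε : ℝ, 0 < ε → ∃ h₀ : ℝ, 0 < h₀ ∧ ∀ (h : ℝ) (q : ℕ → V) (k : ℕ), 0 < h →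
  h ≤ h₀ → FP q → L.Simple (pc h q) → L.hull (pc h q) k ⊆ closedBall 0 R →
  ∀ (c : V) (z : ℂ), z ∈ sq h c ∩ (L.HH \ L.hull (pc h q) k) →
    (c ∈ Lft q k ∨ c.2 = 0 ∧ c.1 < 0 → (L.gt (pc h q) k z).re ≤ L.drv (pc h q) k + ε) ∧
    (c ∈ Rgt q k ∨ c.2 = 0 ∧ 0 ≤ c.1 → L.drv (pc h q) k - ε ≤ (L.gt (pc h q) k z).re)

/-! ### Uniform crossing formula (block U) -/

/-- the crossing formula for a fixed polyomino, in raw form -/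
def S_CARDY : Prop := ∃ (M : ℝ) (q : ℕ), 0 < q ∧ ∀ (P : Cardy.Dom) (i₁ i₂ i₃ : ℕ), 0 < i₁ → i₁ < i₂ →
  i₂ < i₃ → i₃ < P.n → P.Cvx 0 → P.Cvx i₂ → P.Cvx i₃ →
  ∀ ε : ℝ, 0 < ε → ∀ᶠ m : ℕ in atTop, ∃ P' : Cardy.Dom, P.Blow (q * m) P' ∧
    ∃ (f : ℂ → ℂ) (t : ℝ), ContinuousOn f P.cl ∧
    DifferentiableOn ℂ f (interior P.cl) ∧ (∀ z ∈ P.cl, ‖f z‖ ≤ M) ∧
    (∀ z ∈ seg P.c 0 i₂, (f z).im = 0) ∧ (∀ z ∈ seg P.c i₂ i₃, ((f z - 1) * om).im = 0) ∧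
    (∀ z ∈ seg P.c i₃ P.n, (f z / om).im = 0) ∧
    (∀ z ∈ seg P.c 0 i₁, (f z).re ≤ t) ∧ (∀ z ∈ seg P.c i₁ i₂, t ≤ (f z).re) ∧
    |TP P' 0 (q * m * i₁) (q * m * i₂) (q * m * i₃) - t| ≤ ε ∧
    |TP P' (q * m * i₁) (q * m * i₂) (q * m * i₃) (q * m * P.n) - (1 - t)| ≤ ε

/-- the points `φ ζ` with `ζ` close to the arc of the unit circle between two angles -/
def arcN (φ : ℂ → ℂ) (ν a b : ℝ) : Set ℂ :=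
  φ '' {ζ | ∃ θ ∈ Icc (a - ν) (b + ν), ‖ζ - Complex.exp (θ * Complex.I)‖ ≤ ν}

/-- approximation of a conformal disc by a polyomino -/
def S_POLY : Prop := ∀ (φ : ℂ → ℂ) (μ ν a₀ a₁ a₂ a₃ : ℝ), 0 < ν → 100 * ν ≤ μ → μ ≤ 1 →
  a₀ + 100 * ν ≤ a₁ → a₁ + 100 * ν ≤ a₂ → a₂ + 100 * ν ≤ a₃ → a₃ + 100 * ν ≤ a₀ + 2 * Real.pi →
  DifferentiableOn ℂ φ (ball 0 (1 + μ)) → InjOn φ (ball 0 (1 + μ)) →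
  (∀ ζ ∈ ball (0 : ℂ) (1 + μ / 2), ball (φ ζ) 10 ⊆ φ '' ball ζ ν) →
  ∃ (P : Cardy.Dom) (i₁ i₂ i₃ : ℕ), 0 < i₁ ∧ i₁ < i₂ ∧ i₂ < i₃ ∧ i₃ < P.n ∧
    P.Cvx 0 ∧ P.Cvx i₂ ∧ P.Cvx i₃ ∧
    φ '' ball 0 (1 - 20 * ν) ⊆ interior P.cl ∧ P.cl ⊆ φ '' ball 0 (1 + 20 * ν) ∧
    seg P.c 0 i₁ ⊆ arcN φ (20 * ν) a₀ a₁ ∧ seg P.c i₁ i₂ ⊆ arcN φ (20 * ν) a₁ a₂ ∧
    seg P.c i₂ i₃ ⊆ arcN φ (20 * ν) a₂ a₃ ∧ seg P.c i₃ P.n ⊆ arcN φ (20 * ν) a₃ (a₀ + 2 * Real.pi)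

/-- elementary properties of polyominoes -/
def S_REG : Prop := (∀ P : Cardy.Dom, IsCompact P.cl ∧ frontier (interior P.cl) ⊆ seg P.c 0 P.n ∧
    seg P.c 0 P.n ⊆ P.cl) ∧ (∀ B : ℝ, {P : Cardy.Dom | P.cl ⊆ closedBall 0 B}.Finite) ∧
  ∀ (P P' : Cardy.Dom) (m : ℕ), 0 < m → P.Blow m P' →
    (∀ t ∈ P'.D, ∀ z ∈ sq 1 t, z / m ∈ P.cl) ∧
    ∀ a a' i, a < a' → m * a ≤ i → i ≤ m * a' → cx (P'.c i) / m ∈ seg P.c a a'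

open Classical in
/-- from tiles to bonds -/
def S_TILE : Prop := (∀ (P : Cardy.Dom) (κ : ℤ) (a a' b b' : ℕ) (s : V),
    Q {ω | (fun t => tl ω (t + s)) ∈ P.Crs κ a a' b b'} = Arm.Pt (P.Crs κ a a' b b')) ∧
  ∀ (ω ω' : Cfg) (T S : Set V) (s p p' : V), Arm.TConn (fun t => tl ω (t + s)) T p p' →
    (∀ t ∈ T, ω' (te (t + s)) = ω (te (t + s))) →
    (((p + s).1 + (p + s).2) % 2 = 0 →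
      (∀ t ∈ T, ∀ x : V, cx x ∈ sq 1 t → ((x + s).1 + (x + s).2) % 2 = 0 → tv (x + s) ∈ S) →
      Conn (fun e => ω' e && decide (e ∈ (fun t => te (t + s)) '' T)) S (tv (p + s)) (tv (p' + s))) ∧
    (((p + s).1 + (p + s).2) % 2 = 1 →
      (∀ t ∈ T, ∀ x : V, cx x ∈ sq 1 t → ((x + s).1 + (x + s).2) % 2 = 1 → tf (x + s) ∈ S) →
      Conn (du fun e => ω' e || decide (e ∉ (fun t => te (t + s)) '' T)) S (tf (p + s))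
        (tf (p' + s)))

/-- a cell which touches the path is next to a cell on the left or on the right of the path -/
def S_END : Prop := ∀ (h : ℝ) (q : ℕ → V) (k : ℕ) (c : V), 0 < h → FP q →
  (sq h c ∩ L.hull (pc h q) k).Nonempty → ∃ c', (c' ∈ Lft q k ∨ c' ∈ Rgt q k) ∧ nm c c' ≤ 1 ∧
    0 ≤ c'.2 ∧ CC q k {c, c'} c c'

/-- the data seen by the crossing formula: a hull inside the ball of radius `r` -/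
structure Small (K : Set ℂ) (g f : ℂ → ℂ) (a w r : ℝ) : Prop where
  hyd : L.Hyd K g f a
  sym : L.Sym K g f
  sub : K ⊆ closedBall 0 r
  abs : |w| ≤ r

/-- a polyomino of mesh `s (1 + i)` inside the slit domain, longer on the side of `[2 l, ∞)` -/
def S_U1A : Prop := ∃ c₀ : ℝ, 0 < c₀ ∧ ∀ l ε : ℝ, 0 < l → 0 < ε → ∃ κ : ℝ, 0 < κ ∧ ∀ s₀ : ℝ, 0 < s₀ →
  ∃ (μ B η : ℝ) (q : ℕ), 0 < μ ∧ 0 < η ∧ 0 < q ∧ ∀ᶠ m : ℕ in atTop, ∀ s ∈ Icc (η / 2) η,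
  ∀ (K : Set ℂ) (g f : ℂ → ℂ) (a w : ℝ), Small K g f a w (c₀ * l) →
  ∃ (P P' : Cardy.Dom) (i₁ i₂ i₃ : ℕ), P.Blow (q * m) P' ∧ 0 < i₁ ∧ i₂ < i₃ ∧
    cardy ((w - (g (-l)).re) / ((g (2 * l)).re - (g (-l)).re)) - ε ≤
      TP P' 0 (q * m * i₁) (q * m * i₂) (q * m * i₃) ∧
    (∀ z ∈ P.cl, ∀ y : ℂ, ‖y - s * (1 + Complex.I) * z‖ ≤ μ →
      y ∈ L.Dsym K ∧ ‖y‖ ≤ B ∧ (y.im ≤ μ → 2 * l + μ ≤ y.re)) ∧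
    (∀ z ∈ seg P.c 0 i₁, ∀ y : ℂ, ‖y - s * (1 + Complex.I) * z‖ ≤ μ →
      0 < y.im ∧ (g (-l)).re + κ ≤ (g y).re ∧ (g y).re ≤ w - κ ∧ (g y).im ≤ s₀) ∧
    ∀ z ∈ seg P.c i₂ i₃, ∀ y : ℂ, ‖y - s * (1 + Complex.I) * z‖ ≤ μ → y.im < 0

/-- a polyomino of mesh `s (1 + i)` inside the slit domain, longer on the side of `(-∞, -l]` -/
def S_U1B : Prop := ∃ c₀ : ℝ, 0 < c₀ ∧ ∀ l ε : ℝ, 0 < l → 0 < ε → ∃ κ : ℝ, 0 < κ ∧ ∀ s₀ : ℝ, 0 < s₀ →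
  ∃ (μ B η : ℝ) (q : ℕ), 0 < μ ∧ 0 < η ∧ 0 < q ∧ ∀ᶠ m : ℕ in atTop, ∀ s ∈ Icc (η / 2) η,
  ∀ (K : Set ℂ) (g f : ℂ → ℂ) (a w : ℝ), Small K g f a w (c₀ * l) →
  ∃ (P P' : Cardy.Dom) (i₁ i₂ i₃ : ℕ), P.Blow (q * m) P' ∧ i₁ < i₂ ∧ i₃ < P.n ∧
    1 - cardy ((w - (g (-l)).re) / ((g (2 * l)).re - (g (-l)).re)) - ε ≤
      TP P' (q * m * i₁) (q * m * i₂) (q * m * i₃) (q * m * P.n) ∧
    (∀ z ∈ P.cl, ∀ y : ℂ, ‖y - s * (1 + Complex.I) * z‖ ≤ μ →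
      y ∈ L.Dsym K ∧ ‖y‖ ≤ B ∧ (y.im ≤ μ → y.re ≤ -l - μ)) ∧
    (∀ z ∈ seg P.c i₁ i₂, ∀ y : ℂ, ‖y - s * (1 + Complex.I) * z‖ ≤ μ →
      0 < y.im ∧ w + κ ≤ (g y).re ∧ (g y).re ≤ (g (2 * l)).re - κ ∧ (g y).im ≤ s₀) ∧
    ∀ z ∈ seg P.c i₃ P.n, ∀ y : ℂ, ‖y - s * (1 + Complex.I) * z‖ ≤ μ → y.im < 0

/-- identification of the limit of the crossing probabilities -/
def S_IDM : Prop := ∀ M ε a : ℝ, 0 < ε → 0 < a → ∃ n : ℝ, 0 < n ∧ ∀ (U : Set ℂ) (h : ℂ → ℂ)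
  (x t : ℝ), Near M n U h → x ∈ Icc a (1 - a) →
  (∀ z ∈ frontier U, ‖z‖ ≤ n → 1 / n ≤ z.re → z.re ≤ x - 1 / n → (h z).re ≤ t) →
  (∀ z ∈ frontier U, ‖z‖ ≤ n → x + 1 / n ≤ z.re → z.re ≤ 1 - 1 / n → t ≤ (h z).re) →
  |t - cardy x| ≤ ε

/-- the cross ratio seen after `k` steps -/
noncomputable def lam (η : ℝ≥0 → ℂ) (k : ℝ≥0) (l : ℝ) : ℝ :=
  (L.drv η k - (L.gt η k (-l)).re) / ((L.gt η k (2 * l)).re - (L.gt η k (-l)).re)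

/-- the crossing formula, uniformly over the slit domains -/
def S_UNIF : Prop := ∃ c₀ : ℝ, 0 < c₀ ∧ ∀ l ε : ℝ, 0 < l → 0 < ε → ∀ᶠ δ in 𝓝[>] (0 : ℝ),
  ∃ A : Set Cfg, MP_6c8efb_pr.Loc A ∧ ∀ (ξ : Cfg) (k : ℕ), L.Simple (pc (δ / 2) (fp ξ)) →
    L.hull (pc (δ / 2) (fp ξ)) (k + 1 : ℕ) ⊆ closedBall 0 (c₀ * l) →
    |cond A ξ k - cardy (lam (pc (δ / 2) (fp ξ)) (k + 1 : ℕ) l)| ≤ ε

/-! ### Inputs of block M -/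

/-- the time change is the capacity parametrisation -/
def S_CAP : Prop := ∀ (δ : ℝ) (ω : Cfg), 0 < δ → L.Simple (eta δ ω) ∧ L.CapPar (Cv δ ω) ∧
  ∀ t, Dv δ ω t = L.drv (Cv δ ω) t ∧ Dv δ ω t = L.drv (eta δ ω) (tau δ ω t) ∧
    L.ct (eta δ ω) (tau δ ω t) = 2 * t

/-- truncation, locality and measurability -/
def S_BAS : Prop :=
  (∀ (ω ω' : Cfg) (k : ℕ), (∀ e ∈ expl ω k, ω' e = ω e) → ∀ j ≤ k + 1, fp ω' j = fp ω j) ∧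
  (∀ (ω ω' : Cfg) (k : ℕ), (∀ j ≤ k + 1, fp ω' j = fp ω j) → expl ω' k = expl ω k ∧
    ∀ e ∈ expl ω k, bc ω' e = bc ω e) ∧
  (∀ (R : ℕ) (ω : Cfg) (k : ℕ), (∀ j ≤ k, nm 0 (fp (tr R ω) j) ≤ R) ∨ (∀ j ≤ k, nm 0 (fp ω j) ≤ R) →
    (∀ j ≤ k + 1, fp (tr R ω) j = fp ω j) ∧ ∀ e ∈ expl ω k, tr R ω e = ω e) ∧
  (∀ δ, LocF (eta δ) ∧ LocF (tau δ) ∧ LocF (Cv δ) ∧ LocF (Dv δ)) ∧
  (∀ (δ : ℝ) (ω ω' : Cfg) (k : ℕ) (t : ℝ≥0), 0 < δ →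
    (∀ j ≤ k, fp (tr ⌈1 / δ ^ 2⌉₊ ω') j = fp (tr ⌈1 / δ ^ 2⌉₊ ω) j) → tau δ ω t ≤ k →
    tau δ ω' t = tau δ ω t ∧ Cv δ ω' t = Cv δ ω t ∧ Dv δ ω' t = Dv δ ω t) ∧
  (∀ (δ : ℝ) (ω : Cfg) (t : ℝ≥0), 0 ≤ δ → dist (curve δ ω t) (pc (δ / 2) (fp ω) t) ≤ 2 * δ) ∧
  ∀ [MeasurableSpace PC] [BorelSpace PC] (δ : ℝ),
    Measurable (curve δ) ∧ Measurable fun ω => repar (curve δ ω) (tau δ ω)

/-- exponential tail of the radius -/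
def S_RAD : Prop := ∀ T : ℝ≥0, ∃ C c : ℝ, 0 < c ∧ ∀ᶠ δ in 𝓝[>] (0 : ℝ), ∀ r : ℝ,
  crit {ω | ∃ t ≤ T, r < ‖Cv δ ω t‖} ≤ ENNReal.ofReal (C * Real.exp (-c * r))

def S_TIGHT : Prop := TightOsc crit (𝓝[>] (0 : ℝ)) Cv ∧ TightOsc crit (𝓝[>] (0 : ℝ)) Dv

def S_APPROX : Prop := Approx crit (𝓝[>] (0 : ℝ)) Dv cardy

/-! ### The theorem -/

def S_MAIN : Prop := ∀ [MeasurableSpace C(ℝ≥0, ℂ)] [BorelSpace C(ℝ≥0, ℂ)],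
  ∃ (Ω : Type) (_ : MeasurableSpace Ω) (P : Measure Ω) (_ : IsProbabilityMeasure P)
    (B : ℝ≥0 → Ω → ℝ) (Γ : Ω → C(ℝ≥0, ℂ)), ProbabilityTheory.IsBrownianReal B P ∧ Measurable Γ ∧
    (∀ᵐ ω ∂P, IsTrace (Γ ω) fun t => √6 * B t ω) ∧
    (∃ (φ : ℝ → Cfg → ℝ≥0 ≃o ℝ≥0) (_ : IsProbabilityMeasure crit),
      TendstoInDistribution (fun δ ω => repar (curve δ ω) (φ δ ω)) (𝓝[>] 0) Γ (fun _ => crit) P) ∧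
    ∀ F : C(ℝ≥0, ℂ) → ℝ, Measurable F → (∃ M, ∀ γ, |F γ| ≤ M) →
      (∀ γ, ∀ ε > 0, ∃ r > 0, ∀ η, cdist γ η < r → |F γ - F η| < ε) →
      Tendsto (fun δ => ∫ ω, F (curve δ ω) ∂crit) (𝓝[>] 0) (𝓝 (∫ ω, F (Γ ω) ∂P))

end Pool.Agent.P.MP_6c8efb_pr.SLE
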