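import Pool.Agent.P.MP_6c8efb_pr.SLE.ApxC

/-! The approximate martingale. -/

open Set Filter Topology MeasureTheory Metric
open scoped NNReal

namespace Pool.Agent.P.MP_6c8efb_pr.SLE.Apx

/-- the filtration of the truncated exploration -/
noncomputable def kap (δ : ℝ) (k : ℕ) (ω : Cfg) : Finset E × Finset E :=
  key (tr ⌈1 / δ ^ 2⌉₊ ω) k

/-- the step during which the capacity time `s` is reached -/
noncomputable def stp (δ : ℝ) (s : ℝ≥0) (ω : Cfg) : ℕ := ⌊tau δ ω s⌋₊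

theorem lt_stp (δ : ℝ) (s : ℝ≥0) (ω : Cfg) : tau δ ω s < (stp δ s ω + 1 : ℕ) := by
  simpa only [stp, Nat.cast_add, Nat.cast_one] using Nat.lt_floor_add_one (tau δ ω s)

theorem eta_agree {δ : ℝ} {k : ℕ} {ω ω' : Cfg} (h : kap δ k ω' = kap δ k ω) {t : ℝ≥0}
    (ht : t ≤ (k + 1 : ℕ)) : eta δ ω' t = eta δ ω t := pc_agree _ (fp_agree h) ht

theorem tau_agree (hK : S_CAP) {δ : ℝ} (hδ : 0 < δ) {k : ℕ} {ω ω' : Cfg}
    (h : kap δ k ω' = kap δ k ω) {s : ℝ≥0} (hs : tau δ ω s ≤ (k + 1 : ℕ)) :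
    tau δ ω' s = tau δ ω s := by
  have h1 : L.hull (eta δ ω') (tau δ ω s) = L.hull (eta δ ω) (tau δ ω s) :=
    image_congr fun v hv => eta_agree h (hv.2.trans hs)
  have h2 := ((hK δ ω' hδ).2.2 ((tau δ ω').symm (tau δ ω s))).2.2
  have h3 := ((hK δ ω hδ).2.2 s).2.2
  rw [OrderIso.apply_symm_apply, L.ct, h1] at h2
  rw [L.ct, h2] at h3
  have h4 : (tau δ ω').symm (tau δ ω s) = s := NNReal.eq (by linarith)
  rw [← (tau δ ω').apply_symm_apply (tau δ ω s), h4]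

theorem stp_stop (hK : S_CAP) {δ : ℝ} (hδ : 0 < δ) (s : ℝ≥0) (ω ω' : Cfg)
    (h : kap δ (stp δ s ω) ω' = kap δ (stp δ s ω) ω) : stp δ s ω' = stp δ s ω := by
  rw [stp, tau_agree hK hδ h (lt_stp δ s ω).le, stp]

theorem Dv_agree (hK : S_CAP) (hC : L.S_Cont) {δ : ℝ} (hδ : 0 < δ) {t : ℝ≥0} {ω ω' : Cfg}
    (h : stop (kap δ) (stp δ t) ω' = stop (kap δ) (stp δ t) ω) {v : ℝ≥0} (hv : v ≤ t) :
    Dv δ ω' v = Dv δ ω v := by
  have h1 : ω' ∈ stop (kap δ) (stp δ t) ⁻¹' {stop (kap δ) (stp δ t) ω} := h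
  rw [stop_fib (stp_stop hK hδ t)] at h1
  have h2 : tau δ ω v ≤ (stp δ t ω + 1 : ℕ) := ((tau δ ω).monotone hv).trans (lt_stp δ t ω).le
  rw [((hK δ ω' hδ).2.2 v).2.1, ((hK δ ω hδ).2.2 v).2.1, tau_agree hK hδ h1 h2]
  exact hC.2 _ _ (hK δ ω' hδ).1 (hK δ ω hδ).1 _ (fun w hw => eta_agree h1 hw) _ h2

/-- the radius of a curve up to time `T` -/
noncomputable def rd (T : ℝ≥0) (γ : PC) : ℝ := sSup ((fun t => ‖γ t‖) '' Iic T)

theorem le_rd (γ : PC) {t T : ℝ≥0} (h : t ≤ T) : ‖γ t‖ ≤ rd T γ :=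
  le_csSup ((L.isCompact_Iic' T).image γ.continuous.norm).bddAbove ⟨t, h, rfl⟩

theorem lt_rd {γ : PC} {T : ℝ≥0} {r : ℝ} (h : r < rd T γ) : ∃ t ≤ T, r < ‖γ t‖ := by
  obtain ⟨_, ⟨t, ht, rfl⟩, h1⟩ := exists_lt_of_lt_csSup (nonempty_Iic.image _) h
  exact ⟨t, ht, h1⟩

theorem rd_nonneg (T : ℝ≥0) (γ : PC) : 0 ≤ rd T γ := (norm_nonneg _).trans (le_rd γ zero_le)

theorem locF_Cv (δ : ℝ) : LocF (Cv δ) :=
  (locF_tr ⌈1 / δ ^ 2⌉₊).comp fun ξ => repar (pc (δ / 2) (fp ξ))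
    (Classical.epsilon fun φ : ℝ≥0 ≃o ℝ≥0 => L.CapPar (repar (pc (δ / 2) (fp ξ)) φ))

theorem eta_bound (hF : S_FP) {δ : ℝ} (hδ : 0 < δ) (hδ2 : δ ≤ 2) (ω : Cfg) {s T : ℝ≥0}
    (hs : s ≤ T) {v : ℝ≥0} (hv : v ≤ (stp δ s ω + 1 : ℕ)) :
    ‖eta δ ω v‖ ≤ rd T (Cv δ ω) + 1 := by
  rcases le_total v (tau δ ω s) with h | h
  · have := le_rd (Cv δ ω) (((tau δ ω).symm_apply_le.2 h).trans hs)
    rw [Cv_apply, OrderIso.apply_symm_apply] at this
    linarith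
  · have h1 : ‖eta δ ω v - eta δ ω (tau δ ω s)‖ ≤ δ / 2 :=
      pc_near (by positivity) (hF _) (stp δ s ω) (floor_mem _)
        ⟨(floor_mem _).1.trans h, by exact_mod_cast hv⟩
    have h2 := norm_sub_norm_le (eta δ ω v) (eta δ ω (tau δ ω s))
    have h3 := le_rd (Cv δ ω) hs
    rw [Cv_apply] at h3
    linarith

theorem approx (hF : S_FP) (hK : S_CAP) (hR : S_RAD) (hU : S_UNIF) (h1 : L.S_L1s) (h2 : L.S_Tip)
    (h3 : L.S_Step) (hC : L.S_Cont) : S_APPROX := by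
  have : IsProbabilityMeasure crit := inferInstanceAs (IsProbabilityMeasure (PM fun _ => hf))
  intro T
  obtain ⟨C₁, c₁, hc₁, hR⟩ := hR T
  obtain ⟨c₀, hc₀, hU⟩ := hU
  set C := max (max 48 (1 / c₀)) (C₁ * Real.exp c₁) with hCd
  have hC1 : 48 ≤ C := (le_max_left _ _).trans (le_max_left _ _)
  have hC2 : 1 / c₀ ≤ C := (le_max_right _ _).trans (le_max_left _ _)
  refine ⟨C, c₁ / 13, by positivity, fun l ε s t hl hε hst htT => ?_⟩
  have hl0 : 0 < l := by linarith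
  obtain ⟨ρ₀, hρ₀, hρl, hom⟩ := L.om_small hl0 (lt_min (by positivity : 0 < ε / 13) one_pos)
  have hlim : 0 < min (min 1 ρ₀) (1 / (l + 2)) := by positivity
  filter_upwards [hR, hU l ε hl0 hε, Ioc_mem_nhdsGT hlim] with δ hR ⟨A, hA, hU⟩ hδ
  have hδ0 := hδ.1
  have hδ1 : δ ≤ 1 := hδ.2.trans ((min_le_left _ _).trans (min_le_left _ _))
  have hδ2 : δ ≤ ρ₀ := hδ.2.trans ((min_le_left _ _).trans (min_le_right _ _))
  have hδ3 : δ * (l + 2) ≤ 1 := (le_div_iff₀ (by positivity)).1 (hδ.2.trans (min_le_right _ _))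
  have hm : ∀ v x, MeasurableSet (stop (kap δ) (stp δ v) ⁻¹' {x}) := fun v =>
    stop_meas (key_meas _) (stp_stop hK hδ0 v)
  have hN : ∀ v, Measurable (cp crit (stop (kap δ) (stp δ v)) A) := fun v =>
    measurable_of_fib (hm v) fun _ _ => cp_congr _ _ _
  refine ⟨fun ω => 13 * (rd T (Cv δ ω) + 1), cp crit (stop (kap δ) (stp δ s)) A,
    cp crit (stop (kap δ) (stp δ t)) A,
    ((locF_Cv δ).comp fun γ => 13 * (rd T γ + 1)).measurable.aemeasurable,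
    (hN s).aemeasurable, (hN t).aemeasurable, fun r => ?_, fun ψ hψ => ?_,
    ae_of_all _ fun ω => ⟨fun v hv => ?_, cp_abs _ _ _ _, cp_abs _ _ _ _, fun hL => ?_⟩⟩
  · refine (measure_mono fun ω h => ?_).trans ((hR (r / 13 - 1)).trans
      (ENNReal.ofReal_le_ofReal ?_))
    · exact lt_rd (by simp only [mem_ofPred_eq] at h; linarith)
    · rw [show -c₁ * (r / 13 - 1) = c₁ + -(c₁ / 13) * r by ring, Real.exp_add, ← mul_assoc]
      exact mul_le_mul_of_nonneg_right (le_max_right _ _) (Real.exp_pos _).le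
  · obtain ⟨M, hM⟩ := hψ.2.1
    have e : ∀ v, s ≤ v → ∫ ω, ψ (Dv δ ω) * cp crit (stop (kap δ) (stp δ v)) A ω ∂crit =
        ∫ ω in A, ψ (Dv δ ω) ∂crit := fun v hv =>
      int_cp crit (hm v) (fun ω ω' h => hψ.2.2 _ _ fun w hw =>
        Dv_agree hK hC hδ0 h (hw.trans hv)) fun ω => hM _
    rw [e s le_rfl, e t hst]
  · rw [((hK δ ω hδ0).2.2 v).1]
    have := rd_nonneg T (Cv δ ω)
    exact (hC.1 _ (hK δ ω hδ0).2.1.toSimple).2.2.2.2.2.2.2.1 v _ (by linarith) fun w hw =>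
      (le_rd _ (hw.trans hv)).trans (by linarith)
  · have h0 := rd_nonneg T (Cv δ ω)
    have hr1 : 4 * (rd T (Cv δ ω) + 1) ≤ l := by nlinarith
    have hr2 : rd T (Cv δ ω) + 1 ≤ c₀ * l := by
      have : 1 ≤ c₀ * C := by rwa [div_le_iff₀ hc₀, mul_comm] at hC2
      nlinarith
    have key : ∀ v ≤ T, NearF cardy C l ε (13 * (rd T (Cv δ ω) + 1)) v (Dv δ ω v)
        (cp crit (stop (kap δ) (stp δ v)) A ω) := by
      intro v hv
      have hb := fun w => eta_bound hF hδ0 (by linarith) ω hv (v := w)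
      rw [((hK δ ω hδ0).2.2 v).2.1]
      refine near h1 h2 h3 hC (hK δ ω hδ0).1 (lt_stp δ v ω).le (by linarith) hb hr1 hl hρ₀ hρl
        (fun w hw => ?_) (by linarith [min_le_left (ε / 13) 1]) (hom.trans (min_le_right _ _))
        ((hK δ ω hδ0).2.2 v).2.2 hC1 (by linarith) ?_
      · refine (pc_near (by positivity) (hF _) (stp δ v ω) (floor_mem _)
          ⟨(floor_mem _).1.trans hw.1, by exact_mod_cast hw.2⟩).trans (by linarith)
      · rw [show cp crit (stop (kap δ) (stp δ v)) A ω = cond A (tr ⌈1 / δ ^ 2⌉₊ ω) (stp δ v ω) from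
          cp_eq (stp_stop hK hδ0 v) hA (expl_box (by positivity : 0 < δ / 2)
            (fun j hj => hb j (by exact_mod_cast hj.trans (Nat.le_succ _))) ?_)]
        · exact hU _ _ (hK δ ω hδ0).1 ((L.hull_subset_ball hb).trans
            (closedBall_subset_closedBall hr2))
        · refine le_trans ?_ (Nat.le_ceil _)
          rw [mul_div_cancel₀ _ two_ne_zero, div_add' _ _ _ hδ0.ne', div_le_div_iff₀ hδ0
            (by positivity)]
          nlinarith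
    exact ⟨key s (hst.trans htT), key t htT⟩

end Pool.Agent.P.MP_6c8efb_pr.SLE.Apx
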