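import Pool.Agent.P.MP_6c8efb_pr.SLE.LBasic

/-!
Block L of the SLE project: the statements.
-/

namespace Pool.Agent.P.MP_6c8efb_pr.SLE.L

open Set Filter Topology Metric Complex MeasureTheory
open scoped NNReal ComplexConjugate

/-! ### Topology of slit domains -/

/-- A homotopy pushing `X` into `Y` inside `Y` transports logarithms and connectedness. -/
def S_Htpy : Prop := ∀ (X Y : Set ℂ) (h : ℝ × ℂ → ℂ), Y ⊆ X →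
  ContinuousOn h (Icc (0 : ℝ) 1 ×ˢ X) → (∀ u ∈ X, h (1, u) ∈ Y) →
  (∀ σ ∈ Icc (0 : ℝ) 1, ∀ u ∈ Y, h (σ, u) ∈ Y) → (∀ u ∈ Y, h (0, u) = u) →
  (CLog X → CLog Y) ∧ (IsPreconnected X → IsPreconnected Y)

/-- Adding a segment to the removed set. -/
def S_Slit : Prop := ∀ (S : Set ℂ) (p d : ℂ) (c l τ : ℝ), Bornology.IsBounded S → IsClosed S →
  (0 : ℂ) ∈ S → p ∈ S → d ≠ 0 → 0 < c → 1 < l → 0 ≤ τ → τ ≤ 1 → Disjoint (Cone p d c l) S →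
  CLog (Om S) → IsPreconnected (Om S) →
  CLog (Om (S ∪ segment ℝ p (p + τ * d))) ∧ IsPreconnected (Om (S ∪ segment ℝ p (p + τ * d)))

/-- Thin triangles around the edges of a polygonal curve. -/
def S_Cone : Prop := ∀ η : ℝ≥0 → ℂ, Curve η → Poly η → ∀ k : ℕ, ∃ c l : ℝ, 0 < c ∧ 1 < l ∧
  Cone (η k) (η (k + 1) - η k) c l ⊆ HH \ η '' Iic (k : ℝ≥0)

/-- The slit domain of a polygonal curve is radial near the tip. -/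
def S_Rad : Prop := ∀ η : ℝ≥0 → ℂ, Curve η → Poly η → ∀ t, Rad (HH \ hull η t) (η t)

/-- The doubled slit domains of a polygonal curve. -/
def S_PolyL : Prop := ∀ η : ℝ≥0 → ℂ, Curve η → Poly η → ∀ t,
  CLog (Om (dbl η t)) ∧ IsPreconnected (Om (dbl η t))

/-! ### The Riemann mapping theorem -/

/-- Montel theorem, along an ultrafilter and along a subsequence. -/
def S_Mont : Prop := ∀ (U : Set ℂ) (F : ℕ → ℂ → ℂ) (M : ℝ), IsOpen U →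
  (∀ n, DifferentiableOn ℂ (F n) U) → (∀ n, ∀ z ∈ U, ‖F n z‖ ≤ M) →
  (∀ 𝒰 : Ultrafilter ℕ, ∃ f : ℂ → ℂ, DifferentiableOn ℂ f U ∧
    TendstoLocallyUniformlyOn F f 𝒰 U) ∧
  ∃ (φ : ℕ → ℕ) (f : ℂ → ℂ), StrictMono φ ∧ DifferentiableOn ℂ f U ∧
    TendstoLocallyUniformlyOn (fun n => F (φ n)) f atTop U

/-- Hurwitz theorem. -/
def S_Hurw : Prop := ∀ (U : Set ℂ) (F : ℕ → ℂ → ℂ) (f : ℂ → ℂ) (l : Filter ℕ), l.NeBot →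
  IsOpen U → IsPreconnected U → (∀ n, DifferentiableOn ℂ (F n) U) → (∀ n, InjOn (F n) U) →
  TendstoLocallyUniformlyOn F f l U → InjOn f U ∨ ∃ c, ∀ z ∈ U, f z = c

/-- First step: an injective map into the disc. -/
def S_Rm1 : Prop := ∀ (U : Set ℂ) (z₀ : ℂ), IsOpen U → U ≠ univ → CLog U → z₀ ∈ U →
  ∃ ψ : ℂ → ℂ, DifferentiableOn ℂ ψ U ∧ InjOn ψ U ∧ MapsTo ψ U (ball 0 1) ∧ ψ z₀ = 0

/-- Second step: a map that is not onto can be improved. -/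
def S_Rm2 : Prop := ∀ (U : Set ℂ) (z₀ : ℂ) (ψ : ℂ → ℂ), IsOpen U → CLog U → z₀ ∈ U →
  DifferentiableOn ℂ ψ U → InjOn ψ U → MapsTo ψ U (ball 0 1) → ψ z₀ = 0 →
  ¬ SurjOn ψ U (ball 0 1) →
  ∃ χ : ℂ → ℂ, DifferentiableOn ℂ χ U ∧ InjOn χ U ∧ MapsTo χ U (ball 0 1) ∧ χ z₀ = 0 ∧
    ‖deriv ψ z₀‖ < ‖deriv χ z₀‖

/-- The Riemann mapping theorem. -/
def S_Rmt : Prop := ∀ (U : Set ℂ) (z₀ : ℂ), IsOpen U → IsPreconnected U → U ≠ univ → CLog U →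
  z₀ ∈ U → ∃ (ψ : ℂ → ℂ) (l : ℝ), DifferentiableOn ℂ ψ U ∧ BijOn ψ U (ball 0 1) ∧ ψ z₀ = 0 ∧
    0 < l ∧ deriv ψ z₀ = l

/-- The Riemann map of a symmetric domain is symmetric and preserves the half-planes. -/
def S_Dsy : Prop := ∀ (U : Set ℂ) (ψ : ℂ → ℂ) (l : ℝ), IsOpen U → (0 : ℂ) ∈ U →
  (∀ u ∈ U, conj u ∈ U) → DifferentiableOn ℂ ψ U → BijOn ψ U (ball 0 1) → ψ 0 = 0 → 0 < l →
  deriv ψ 0 = l → (∀ u ∈ U, ψ (conj u) = conj (ψ u)) ∧ ∀ u ∈ U, ((ψ u).im < 0 ↔ u.im < 0)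

/-- From the Riemann map of the doubled domain to the mapping-out function. -/
def S_Jou : Prop := ∀ (S : Set ℂ) (ψ : ℂ → ℂ) (l : ℝ), IsCompact S → (0 : ℂ) ∈ S →
  (∀ z ∈ S, conj z ∈ S) → DifferentiableOn ℂ ψ (Om S) → BijOn ψ (Om S) (ball 0 1) → ψ 0 = 0 →
  0 < l → deriv ψ 0 = l → (∀ u ∈ Om S, ψ (conj u) = conj (ψ u)) →
  (∀ u ∈ Om S, ((ψ u).im < 0 ↔ u.im < 0)) → ∃ g f a, Hyd (S ∩ HH) g f a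

/-! ### Estimates for one hull -/

/-- Maximum principle for the imaginary part, with boundary limits. -/
def S_Maxp : Prop := ∀ (U : Set ℂ) (h : ℂ → ℂ) (m : ℝ), IsOpen U → DifferentiableOn ℂ h U →
  (∀ b ∈ frontier U, ∀ ε : ℝ, 0 < ε → ∀ᶠ z in 𝓝[U] b, (h z).im ≤ m + ε) →
  (∀ ε : ℝ, 0 < ε → ∃ R : ℝ, ∀ z ∈ U, R ≤ ‖z‖ → (h z).im ≤ m + ε) → ∀ z ∈ U, (h z).im ≤ m

/-- Boundary behaviour. -/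
def S_Prop : Prop := ∀ K g f a, Hyd K g f a →
  (∀ ε M : ℝ, 0 < ε → ∃ δ : ℝ, 0 < δ ∧ ∀ z ∈ HH \ K, ‖z‖ ≤ M → ∀ b ∉ HH \ K, ‖z - b‖ ≤ δ →
    (g z).im ≤ ε) ∧
  (∀ ε M : ℝ, 0 < ε → ∃ δ : ℝ, 0 < δ ∧ ∀ w ∈ HH, ‖w‖ ≤ M → w.im ≤ δ →
    ∃ b ∉ HH \ K, ‖f w - b‖ ≤ ε) ∧
  (∀ R : ℝ, ∃ M : ℝ, ∀ w ∈ HH, M ≤ ‖w‖ → R ≤ ‖f w‖) ∧
  (∀ M : ℝ, ∃ R : ℝ, ∀ w ∈ HH, ‖w‖ ≤ M → ‖f w‖ ≤ R) ∧
  (∀ w ∈ HH, w.im ≤ (f w).im) ∧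
  (∀ h : ℝ, 0 ≤ h → (∀ z ∈ K, z.im ≤ h) → ∀ w ∈ HH, (f w).im ≤ w.im + h)

/-- A continuous function that is holomorphic off the real line is holomorphic. -/
def S_Mor : Prop := ∀ (V : Set ℂ) (F : ℂ → ℂ), IsOpen V → ContinuousOn F V →
  DifferentiableOn ℂ F {z ∈ V | z.im ≠ 0} → DifferentiableOn ℂ F V

/-- Near a real point away from the hull the map is Lipschitz. -/
def S_Lip : Prop := ∀ K g f a, Hyd K g f a → ∀ x : ℝ, (x : ℂ) ∉ closure K →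
  ∃ (ρ : ℝ) (C : ℝ≥0), 0 < ρ ∧ ball (x : ℂ) ρ ∩ HH ⊆ HH \ K ∧
    LipschitzOnWith C g (ball (x : ℂ) ρ ∩ HH) ∧ ∀ z ∈ ball (x : ℂ) ρ ∩ HH, (g z).im ≤ C * z.im

/-- Schwarz reflection. -/
def S_Refl : Prop := ∀ K g f a, Hyd K g f a → ∃ G F, Hyd K G F a ∧ Sym K G F ∧
  EqOn G g (HH \ K) ∧ EqOn F f HH

/-- The expansion at infinity, for the reflected map. -/
def S_L1s : Prop := ∀ K g f a, Hyd K g f a → Sym K g f → ∀ x r : ℝ, 0 < r →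
  K ⊆ closedBall (x : ℂ) r → 0 ≤ a ∧ (∀ h : ℝ, 0 ≤ h → (∀ z ∈ K, z.im ≤ h) → a ≤ 4 * r * h) ∧
  ∀ z : ℂ, 4 * r ≤ ‖z - x‖ → ‖g z - z - a / (z - x)‖ ≤ 12 * r * a / ‖z - x‖ ^ 2

/-- The displacement bound, for the reflected map. -/
def S_L2s : Prop := ∀ K g f a, Hyd K g f a → Sym K g f → ∀ x r : ℝ, 0 < r →
  K ⊆ closedBall (x : ℂ) r → ∀ z ∈ Dsym K, ‖g z - z‖ ≤ 12 * r

/-- The same estimates without reflection, and rigidity. -/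
def S_L1 : Prop := ∀ K g f a, Hyd K g f a → (∀ x r : ℝ, 0 < r → K ⊆ closedBall (x : ℂ) r →
  0 ≤ a ∧ (∀ h : ℝ, 0 ≤ h → (∀ z ∈ K, z.im ≤ h) → a ≤ 4 * r * h) ∧
  (∀ z ∈ HH, 4 * r ≤ ‖z - x‖ → ‖g z - z - a / (z - x)‖ ≤ 12 * r * a / ‖z - x‖ ^ 2) ∧
  ∀ z ∈ HH \ K, ‖g z - z‖ ≤ 12 * r) ∧
  (a = 0 → K = ∅) ∧ (K = ∅ → a = 0 ∧ ∀ z ∈ HH, g z = z)

/-- Composition of mapping-out functions. -/
def S_Comp : Prop := ∀ K₁ g₁ f₁ a₁ K₂ g₂ f₂ a₂, Hyd K₁ g₁ f₁ a₁ → Hyd K₂ g₂ f₂ a₂ → K₁ ⊆ K₂ →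
  Hyd (g₁ '' (K₂ \ K₁)) (g₂ ∘ f₁) (g₁ ∘ f₂) (a₂ - a₁) ∧
  HH \ g₁ '' (K₂ \ K₁) = g₁ '' (HH \ K₂)

/-- The length-area inequality, for two maps at once. -/
def S_La : Prop := ∀ (F₁ F₂ : ℂ → ℂ) (U₁ U₂ : Set ℂ) (c : ℂ) (s₀ s₁ M : ℝ), IsOpen U₁ →
  IsOpen U₂ → DifferentiableOn ℂ F₁ U₁ → DifferentiableOn ℂ F₂ U₂ → InjOn F₁ U₁ → InjOn F₂ U₂ →
  0 < s₀ → s₀ < s₁ → 0 < M → (∀ z ∈ U₁, ‖z - c‖ < s₁ → ‖F₁ z‖ ≤ M) →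
  (∀ z ∈ U₂, ‖z - c‖ < s₁ → ‖F₂ z‖ ≤ M) → ∃ s ∈ Ioo s₀ s₁,
    clen F₁ U₁ c s ≤ ENNReal.ofReal (7 * M / √(Real.log (s₁ / s₀))) ∧
    clen F₂ U₂ c s ≤ ENNReal.ofReal (7 * M / √(Real.log (s₁ / s₀)))

/-- Consequences of a length bound. -/
def S_Cl : Prop := ∀ (F : ℂ → ℂ) (U : Set ℂ) (c : ℂ) (s : ℝ), IsOpen U →
  DifferentiableOn ℂ F U → 0 < s →
  volume (re '' (F '' (U ∩ sphere c s))) ≤ clen F U c s ∧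
  volume (im '' (F '' (U ∩ sphere c s))) ≤ clen F U c s ∧
  ∀ α β : ℝ, -Real.pi < α → α ≤ β → β < Real.pi →
    (∀ θ ∈ Icc α β, c + s * cexp (θ * I) ∈ U) →
    ENNReal.ofReal ‖F (c + s * cexp (β * I)) - F (c + s * cexp (α * I))‖ ≤ clen F U c s

/-- Wolff lemma for the mapping-out function. -/
def S_Wg : Prop := ∀ K g f a, Hyd K g f a → ∀ (R ρ : ℝ) (z₀ : ℂ), K ⊆ closedBall 0 R →
  ‖z₀‖ ≤ R → 0 < ρ → ρ < R →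
  (∀ Z : Set ℂ, Z ⊆ HH \ K → Z ⊆ closedBall z₀ ρ → IsPreconnected Z →
    ∀ z ∈ Z, ∀ z' ∈ Z, ‖g z - g z'‖ ≤ om R ρ) ∧
  ∀ z ∈ HH \ K, z ∈ closedBall z₀ ρ → (∃ b ∈ closedBall z₀ ρ, b ∉ HH \ K) → (g z).im ≤ om R ρ

/-- Wolff lemma for the inverse maps of two hulls: short images of semicircles. -/
def S_Wf : Prop := ∀ K₁ g₁ f₁ a₁ K₂ g₂ f₂ a₂, Hyd K₁ g₁ f₁ a₁ → Hyd K₂ g₂ f₂ a₂ →
  ∀ (R x s₀ s₁ : ℝ), K₁ ⊆ closedBall 0 R → K₂ ⊆ closedBall 0 R → 0 < R → 0 < s₀ → s₀ < s₁ →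
  ∃ s ∈ Ioo s₀ s₁, ∀ w ∈ HH, ∀ w' ∈ HH, ‖w - x‖ = s → ‖w' - x‖ = s →
    ‖f₁ w - f₁ w'‖ ≤ 7 * (|x| + s₁ + 12 * R) / √(Real.log (s₁ / s₀)) ∧
    ‖f₂ w - f₂ w'‖ ≤ 7 * (|x| + s₁ + 12 * R) / √(Real.log (s₁ / s₀))

/-! ### The chain of a simple curve -/

/-- The image of the tip. -/
def S_Tip : Prop := ∀ η : ℝ≥0 → ℂ, Simple η →
  (∀ s, Tendsto (fun u => gt η s (η u)) (𝓝[>] s) (𝓝 (drv η s : ℂ))) ∧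
  (∀ (s t : ℝ≥0) (R ρ : ℝ), (∀ u ≤ t, ‖η u‖ ≤ R) → 0 < ρ → ρ < R →
    (∀ u ∈ Icc s t, ‖η u - η s‖ ≤ ρ) → ∀ u ∈ Ioc s t, ‖gt η s (η u) - drv η s‖ ≤ om R ρ) ∧
  ∀ (T : ℝ≥0) (ε : ℝ), 0 < ε → ∃ δ : ℝ, 0 < δ ∧ ∀ s u : ℝ≥0, s < u → u ≤ T → (u : ℝ) - s ≤ δ →
    ‖gt η s (η u) - drv η s‖ ≤ ε

/-- One step of the chain. -/
def S_Step : Prop := ∀ η : ℝ≥0 → ℂ, Simple η → ∀ (s t : ℝ≥0) (x r : ℝ), s ≤ t → 0 < r →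
  (∀ u ∈ Ioc s t, ‖gt η s (η u) - x‖ ≤ r) →
  0 ≤ ct η t - ct η s ∧ (s < t → ct η s < ct η t) ∧
  (∀ h : ℝ, 0 ≤ h → (∀ u ∈ Ioc s t, (gt η s (η u)).im ≤ h) → ct η t - ct η s ≤ 4 * r * h) ∧
  (s < t → |drv η t - x| ≤ 13 * r) ∧
  ∀ z ∈ HH \ hull η t, ‖gt η t z - gt η s z‖ ≤ 12 * r ∧ (4 * r ≤ ‖gt η s z - x‖ →
    ‖gt η t z - gt η s z - (ct η t - ct η s : ℝ) / (gt η s z - x)‖ ≤
      12 * r * (ct η t - ct η s) / ‖gt η s z - x‖ ^ 2)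

/-- Continuity in time, monotonicity of the capacity, locality. -/
def S_Cont : Prop := (∀ η : ℝ≥0 → ℂ, Simple η → Continuous (ct η) ∧ StrictMono (ct η) ∧
  ct η 0 = 0 ∧ (∀ z ∈ HH, gt η 0 z = z) ∧ Continuous (drv η) ∧ drv η 0 = 0 ∧
  (∀ t, ∀ z ∈ HH \ hull η t, ContinuousOn (fun s => gt η s z) (Iic t)) ∧
  (∀ (t : ℝ≥0) (R : ℝ), 0 < R → (∀ u ≤ t, ‖η u‖ ≤ R) → |drv η t| ≤ 13 * R) ∧
  ∀ (s t : ℝ≥0) (R ρ : ℝ), s ≤ t → (∀ u ≤ t, ‖η u‖ ≤ R) → 0 < ρ → ρ < R →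
    (∀ u ∈ Icc s t, ‖η u - η s‖ ≤ ρ) → |drv η t - drv η s| ≤ 13 * om R ρ) ∧
  ∀ η η' : ℝ≥0 → ℂ, Simple η → Simple η' → ∀ T, (∀ u ≤ T, η u = η' u) →
    ∀ u ≤ T, drv η u = drv η' u

/-- The height of the image of a piece of the curve. -/
def S_Hgt : Prop := ∀ η : ℝ≥0 → ℂ, Simple η → ∀ s u : ℝ≥0, s < u →
  (gt η s (η u)).im ^ 2 ≤ 2 * (ct η u - ct η s)

/-- The capacity parametrisation. -/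
def S_Clock : Prop := (∀ η : ℝ≥0 → ℂ, Simple η → ∀ φ : ℝ≥0 ≃o ℝ≥0, Simple (η ∘ φ) ∧
    (∀ t, hull (η ∘ φ) t = hull η (φ t)) ∧ ∀ t, drv (η ∘ φ) t = drv η (φ t)) ∧
  ∀ η : ℝ≥0 → ℂ, Simple η → (∀ h : ℝ, ∃ t, h ≤ (η t).im) →
    ∃ φ : ℝ≥0 ≃o ℝ≥0, CapPar (η ∘ φ) ∧ ∀ t, ct η (φ t) = 2 * t

/-- The Loewner equation. -/
def S_Ode : Prop := ∀ η : ℝ≥0 → ℂ, CapPar η → ∀ t, ∀ z ∈ HH \ hull η t,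
  Sol (drv η) t fun s => gt η s.toNNReal z

/-- The inverse map tends to the tip at the driving point. -/
def S_Tipf : Prop := ∀ η : ℝ≥0 → ℂ, Simple η → ∀ t, Rad (HH \ hull η t) (η t) →
  ∀ ε : ℝ, 0 < ε → ∃ s : ℝ, 0 < s ∧ ∀ w ∈ HH, ‖w - drv η t‖ < s → ‖ft η t w - η t‖ < ε

/-! ### The Loewner flow -/

/-- Existence and stability for the truncated equation. -/
def S_Flow : Prop := ∀ (κ : ℂ) (c T : ℝ), ‖κ‖ ≤ 2 → 0 < c → 0 ≤ T →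
  (∀ W : ℝ → ℝ, Continuous W → ∀ z : ℂ, ∃ G : ℝ → ℂ, G 0 = z ∧ TSol κ c W T G) ∧
  ∀ (W W' : ℝ → ℝ) (G G' : ℝ → ℂ) (δ : ℝ), TSol κ c W T G → TSol κ c W' T G' →
    (∀ s ∈ Icc 0 T, |W s - W' s| ≤ δ) → ∀ s ∈ Icc 0 T,
      ‖G s - G' s‖ ≤ (‖G 0 - G' 0‖ + δ) * Real.exp (2 * T / c ^ 2)

/-- Forward properties of the flow. -/
def S_Fwd : Prop := ∀ (W : ℝ≥0 → ℝ) (t : ℝ≥0), Continuous W →
  (∀ z ∈ HH, Alive W t z ↔ ∃ G, G 0 = z ∧ Sol W t G) ∧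
  (∀ G G', Sol W t G → Sol W t G' → G 0 = G' 0 → ∀ s ∈ Icc (0 : ℝ) t, G s = G' s) ∧
  (∀ G, Sol W t G → ∀ ε : ℝ, 0 < ε → ∃ δ : ℝ, 0 < δ ∧ ∀ (W' : ℝ≥0 → ℝ) (z' : ℂ), Continuous W' →
    (∀ u ≤ t, |W u - W' u| ≤ δ) → ‖z' - G 0‖ ≤ δ →
    ∃ G', G' 0 = z' ∧ Sol W' t G' ∧ ∀ s ∈ Icc (0 : ℝ) t, ‖G' s - G s‖ ≤ ε) ∧
  ∀ (z : ℂ) (c : ℝ), 0 < c → (∀ δ : ℝ, 0 < δ → ∃ (W' : ℝ≥0 → ℝ) (G' : ℝ → ℂ),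
    (∀ u ≤ t, |W u - W' u| ≤ δ) ∧ Sol W' t G' ∧ G' 0 = z ∧ ∀ s ∈ Icc (0 : ℝ) t, c ≤ (G' s).im) →
    ∃ G, G 0 = z ∧ Sol W t G

/-- Backward properties of the flow. -/
def S_Bwd : Prop := ∀ (W : ℝ≥0 → ℝ) (t : ℝ≥0), Continuous W →
  (∀ G, Sol W t G → (∀ s ∈ Icc (0 : ℝ) t, (G t).im ≤ (G s).im) ∧
    ‖G t - G 0‖ ≤ 2 * t / (G t).im) ∧
  (∀ w ∈ HH, ∃ G, G t = w ∧ Sol W t G) ∧
  (∀ G, Sol W t G → ∀ ε : ℝ, 0 < ε → ∃ δ : ℝ, 0 < δ ∧ ∀ (W' : ℝ≥0 → ℝ) (G' : ℝ → ℂ),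
    Continuous W' → (∀ u ≤ t, |W u - W' u| ≤ δ) → Sol W' t G' → ‖G' t - G t‖ ≤ δ →
    ‖G' 0 - G 0‖ ≤ ε) ∧
  ∀ G, Sol W t G → ∃ Z : Set ℂ, IsPreconnected Z ∧ ¬ Bornology.IsBounded Z ∧ G 0 ∈ Z ∧
    ∀ z ∈ Z, ∃ G', G' 0 = z ∧ Sol W t G'

/-- A simple curve in the capacity parametrisation generates its Loewner chain. -/
def S_Trace : Prop := ∀ η : ℝ≥0 → ℂ, CapPar η → IsTrace η (drv η)

/-- Limits of discrete pairs are traces. -/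
def S_Closed : Prop := ∀ p ∈ closure Good, IsTrace p.2 p.1

/-- In the limit the hulls still grow. -/
def S_Ne : Prop := ∀ p ∈ closure Good, ∀ t u : ℝ≥0, t < u →
  ∃ z ∈ HH, Alive p.1 t z ∧ ¬ Alive p.1 u z

/-- The driving function determines the curve. -/
def S_Un0 : Prop := ∀ (γ γ' : ℝ≥0 → ℂ) (W : ℝ≥0 → ℝ), Continuous γ → Continuous γ' →
  IsTrace γ W → IsTrace γ' W → (∀ t u : ℝ≥0, t < u → ∃ z ∈ HH, Alive W t z ∧ ¬ Alive W u z) →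
  γ = γ'

/-- Existence of the chain for polygonal curves. -/
def S_Exist : Prop := ∀ η : ℝ≥0 → ℂ, Curve η → Poly η → Simple η

/-- Uniqueness on the closure. -/
def S_Uniq : Prop := InjOn Prod.fst (closure Good)

end Pool.Agent.P.MP_6c8efb_pr.SLE.L
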