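import Pool.Agent.P.MP_6c8efb_pr.Defs

/-! Definitions used by the statement of the convergence of the exploration path. -/

open Set Filter Topology
open scoped NNReal

namespace Pool.Agent.P.MP_6c8efb_pr.SLE

/-- the point where the exploration stands: at distance one quarter from the vertex `c.1` in both
coordinates, to the right of the edge in direction `c.2` -/
noncomputable def pos (c : V × Fin 4) : ℂ :=
  ⟨c.1.1 + ((u c.2).1 + (u (c.2 - 1)).1) / 4, c.1.2 + ((u c.2).2 + (u (c.2 - 1)).2) / 4⟩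

/-- the polygonal line through the points `p 0, p 1, ...`, at the integer times -/
noncomputable def interp (p : ℕ → ℂ) (t : ℝ) : ℂ :=
  p ⌊t⌋₊ + ((t - ⌊t⌋₊ : ℝ) : ℂ) * (p (⌊t⌋₊ + 1) - p ⌊t⌋₊)

theorem interp_of_mem (p : ℕ → ℂ) (k : ℕ) {t : ℝ} (h : t ∈ Icc (k : ℝ) (k + 1)) :
    interp p t = p k + ((t - k : ℝ) : ℂ) * (p (k + 1) - p k) := by
  rcases h.2.lt_or_eq with h2 | h2
  · rw [interp, (Nat.floor_eq_iff ((Nat.cast_nonneg k).trans h.1)).2 ⟨h.1, h2⟩]
  · have : ⌊t⌋₊ = k + 1 := by rw [h2]; exact_mod_cast Nat.floor_natCast (R := ℝ) (k + 1)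
    rw [interp, this, h2]
    push_cast
    ring

theorem continuous_interp (p : ℕ → ℂ) : Continuous fun t : ℝ≥0 => interp p t := by
  refine LocallyFinite.continuous (f := fun k : ℕ => {t : ℝ≥0 | (t : ℝ) ∈ Icc (k : ℝ) (k + 1)})
    (fun t => ⟨Iio (t + 1), Iio_mem_nhds (lt_add_one t), (finite_Iic ⌈(t : ℝ) + 1⌉₊).subset ?_⟩)
    (eq_univ_of_forall fun t => mem_iUnion.2
      ⟨⌊(t : ℝ)⌋₊, Nat.floor_le t.2, (Nat.lt_floor_add_one _).le⟩)
    (fun k => isClosed_Icc.preimage NNReal.continuous_coe) fun k => ?_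
  · rintro k ⟨s, h1, h2⟩
    have h3 : (s : ℝ) < t + 1 := by exact_mod_cast h2
    exact_mod_cast (h1.1.trans h3.le).trans (Nat.le_ceil _)
  · exact ContinuousOn.congr (f := fun t : ℝ≥0 => p k + (((t : ℝ) - k : ℝ) : ℂ) * (p (k + 1) - p k))
      (by fun_prop) fun t ht => interp_of_mem p k ht

/-- the exploration path in the lattice of mesh `δ`, as a continuous curve -/
noncomputable def curve (δ : ℝ) (ω : Cfg) : C(ℝ≥0, ℂ) :=
  ⟨fun t => interp (fun k => δ * pos (path ω k)) t, continuous_interp _⟩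

/-- the curve `γ` after the change of time `φ` -/
noncomputable def repar (γ : C(ℝ≥0, ℂ)) (φ : ℝ≥0 ≃o ℝ≥0) : C(ℝ≥0, ℂ) :=
  γ.comp ⟨φ, φ.continuous⟩

/-- the solution of the Loewner equation driven by `W` and started at `z` exists up to time `t` -/
def Alive (W : ℝ≥0 → ℝ) (t : ℝ≥0) (z : ℂ) : Prop :=
  ∃ G : ℝ → ℂ, G 0 = z ∧ ∀ s ∈ Icc (0 : ℝ) t, G s ≠ W s.toNNReal ∧
    HasDerivWithinAt G (2 / (G s - W s.toNNReal)) (Icc (0 : ℝ) t) s

/-- the curve `γ` generates the Loewner chain driven by `W`: the points of the upper half plane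
still alive at time `t` form the unbounded component of the complement of the curve up to `t` -/
def IsTrace (γ : ℝ≥0 → ℂ) (W : ℝ≥0 → ℝ) : Prop :=
  γ 0 = W 0 ∧ (∀ t, 0 ≤ (γ t).im) ∧ ∀ (t : ℝ≥0) (z : ℂ), 0 < z.im →
    (Alive W t z ↔ ¬ Bornology.IsBounded (connectedComponentIn ({w | 0 < w.im} \ γ '' Iic t) z))

/-- the chordal distance on the Riemann sphere -/
noncomputable def chord (z w : ℂ) : ℝ := ‖z - w‖ / (√(1 + ‖z‖ ^ 2) * √(1 + ‖w‖ ^ 2))

/-- the uniform chordal distance of two curves modulo reparametrisation -/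
noncomputable def cdist (γ η : C(ℝ≥0, ℂ)) : ℝ :=
  ⨅ φ : ℝ≥0 ≃o ℝ≥0, ⨆ t, chord (γ (φ t)) (η t)

end Pool.Agent.P.MP_6c8efb_pr.SLE
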