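import Pool.Agent.P.MP_6c8efb_pr.SLE.MMart
import Pool.Agent.P.MP_6c8efb_pr.SLE.Stmt

/-! Perturbation of the limit in law, and convergence for the distance modulo reparametrisation. -/

open MeasureTheory Filter Topology Set
open scoped NNReal BoundedContinuousFunction

namespace Pool.Agent.P.MP_6c8efb_pr.SLE

/-- a random path is measurable as soon as its values are -/
theorem measurable_path {Ω E : Type} [MeasurableSpace Ω] [MetricSpace E] [CompleteSpace E]
    [SecondCountableTopology E] [MeasurableSpace E] [BorelSpace E] [MeasurableSpace C(ℝ≥0, E)]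
    [BorelSpace C(ℝ≥0, E)] {X : Ω → C(ℝ≥0, E)} (h : ∀ t, Measurable fun ω => X ω t) :
    Measurable X := by
  have hc : Continuous fun (w : C(ℝ≥0, E)) (n : ℕ) => w (TopologicalSpace.denseSeq ℝ≥0 n) :=
    continuous_pi fun n => continuous_eval_const _
  refine (hc.measurableEmbedding fun w w' hw => ContinuousMap.coe_injective
    ((TopologicalSpace.denseRange_denseSeq ℝ≥0).equalizer w.continuous w'.continuous
      hw)).measurable_comp_iff.1 (measurable_pi_lambda _ fun n => h _)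

/-- convergence for the distance modulo reparametrisation, from uniform transience -/
def S_B : Prop := ∀ (ι Ω Ω' : Type) [MeasurableSpace Ω] [MeasurableSpace Ω']
  [MeasurableSpace PC] [BorelSpace PC] (P : Measure Ω) [IsProbabilityMeasure P] (ν : Measure Ω')
  [IsProbabilityMeasure ν] (l : Filter ι) [l.IsCountablyGenerated] (X Y : ι → Ω → PC)
  (Γ : Ω' → PC), TendstoInDistribution X l Γ (fun _ => P) ν →
  (∀ r ε : ℝ, 0 < ε → ∃ T : ℝ≥0, ∀ᶠ δ in l, P {ω | ∃ t, T ≤ t ∧ ‖X δ ω t‖ ≤ r} ≤ ENNReal.ofReal ε) →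
  (∀ δ ω, cdist (X δ ω) (Y δ ω) = 0) → ∀ F : PC → ℝ, Measurable F → (∃ K, ∀ γ, |F γ| ≤ K) →
  (∀ (γ : PC) (ε : ℝ), 0 < ε → ∃ θ, 0 < θ ∧ ∀ γ', cdist γ' γ < θ → |F γ' - F γ| < ε) →
  Tendsto (fun δ => ∫ ω, F (Y δ ω) ∂P) l (𝓝 (∫ ω, F (Γ ω) ∂ν))

namespace SlutA

theorem port {ι Ω Ω' E E' : Type} [MeasurableSpace Ω] [MeasurableSpace Ω'] [TopologicalSpace E]
    [MeasurableSpace E] [OpensMeasurableSpace E] [HasOuterApproxClosed E] [TopologicalSpace E']
    [MeasurableSpace E'] [OpensMeasurableSpace E'] {P : Measure Ω} [IsProbabilityMeasure P]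
    {ν : Measure Ω'} [IsProbabilityMeasure ν] {l : Filter ι} [l.IsCountablyGenerated]
    {X : ι → Ω → E} {Γ : Ω' → E} (h : TendstoInDistribution X l Γ (fun _ => P) ν) {V : ι → Ω → E'}
    {V' : Ω' → E'} (hV : ∀ δ, AEMeasurable (V δ) P) (hV' : AEMeasurable V' ν)
    (H : ∀ G, IsClosed G → ∀ ε : ℝ≥0, 0 < ε → ∃ C : ℕ → Set E,
      (∀ m, ∀ᶠ δ in l, P {ω | V δ ω ∈ G ∧ X δ ω ∉ C m} ≤ ε) ∧
      ∀ ω, (∀ m, ∃ k, m ≤ k ∧ Γ ω ∈ closure (C k)) → V' ω ∈ G) :
    TendstoInDistribution V l V' (fun _ => P) ν := by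
  refine ⟨hV, hV', tendsto_of_forall_isClosed_limsup_le' fun G hG => ?_⟩
  refine ENNReal.le_of_forall_pos_le_add fun ε hε _ => ?_
  obtain ⟨C, h1, h2⟩ := H G hG ε hε
  have := Measure.isProbabilityMeasure_map h.aemeasurable_limit
  set D : ℕ → Set E := fun m => ⋃ k, ⋃ (_ : m ≤ k), closure (C k) with hD
  have mD : ∀ m, MeasurableSet (D m) := fun m =>
    .iUnion fun k => .iUnion fun _ => isClosed_closure.measurableSet
  have h3 := tendsto_measure_iInter_atTop (μ := ν.map Γ) (fun m => (mD m).nullMeasurableSet)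
    (fun a b hab => iUnion_mono fun k => iUnion_subset fun hk =>
      subset_iUnion (fun _ : a ≤ k => closure (C k)) (hab.trans hk)) ⟨0, measure_ne_top _ _⟩
  have h4 : ν.map Γ (⋂ m, D m) ≤ ν.map V' G := by
    rw [Measure.map_apply_of_aemeasurable h.aemeasurable_limit (.iInter mD),
      Measure.map_apply_of_aemeasurable hV' hG.measurableSet]
    exact measure_mono fun ω hω => h2 ω fun m => by simpa [hD] using mem_iInter.1 hω m
  refine le_trans (ge_of_tendsto' (h3.add_const (ε : ENNReal)) fun m => ?_) (add_le_add_left h4 _)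
  have h5 := ProbabilityMeasure.limsup_measure_closed_le_of_tendsto h.tendsto
    (isClosed_closure (s := C m))
  refine le_trans ?_ (add_le_add_left (h5.trans (measure_mono
    (subset_iUnion₂ (s := fun k (_ : m ≤ k) => closure (C k)) m le_rfl))) _)
  rcases l.eq_or_neBot with rfl | _
  · simp
  rw [← limsup_add_const _ _ _ (by isBoundedDefault) (by isBoundedDefault)]
  refine limsup_le_limsup ((h1 m).mono fun δ hδ => ?_)
  simp only [ProbabilityMeasure.coe_mk]
  rw [Measure.map_apply_of_aemeasurable (hV δ) hG.measurableSet,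
    Measure.map_apply_of_aemeasurable (h.forall_aemeasurable δ) isClosed_closure.measurableSet]
  refine le_trans (measure_mono fun ω hω => ?_) ((measure_union_le _ _).trans (add_le_add_right hδ _))
  by_cases hc : X δ ω ∈ C m
  · exact Or.inl (subset_closure hc)
  · exact Or.inr ⟨hω, hc⟩

theorem near {γ : PC} {C : Set PC} (h : γ ∈ closure C) (T : ℝ≥0) {θ : ℝ} (hθ : 0 < θ) :
    ∃ γ' ∈ C, ∀ t ≤ T, dist (γ t) (γ' t) < θ := by
  have := Metric.tendstoUniformlyOn_iff.1
    (ContinuousMap.tendsto_iff_forall_isCompact_tendstoUniformlyOn.1 (tendsto_id (x := 𝓝 γ))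
      (Icc 0 T) isCompact_Icc) θ hθ
  obtain ⟨γ', h1, h2⟩ := mem_closure_iff_nhds.1 h _ this
  exact ⟨γ', h2, fun t ht => h1 t ⟨zero_le, ht⟩⟩

theorem one_le (z : ℂ) : 1 ≤ √(1 + ‖z‖ ^ 2) := Real.one_le_sqrt.2 (by linarith [sq_nonneg ‖z‖])

theorem norm_le (z : ℂ) : ‖z‖ ≤ √(1 + ‖z‖ ^ 2) := Real.le_sqrt_of_sq_le (by linarith)

theorem chord_nonneg (z w : ℂ) : 0 ≤ chord z w := by unfold chord; positivity

theorem chord_le (z w : ℂ) : chord z w ≤ dist z w :=
  (div_le_self (norm_nonneg _) (one_le_mul_of_one_le_of_one_le (one_le z) (one_le w))).trans_eq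
    (dist_eq_norm z w).symm

theorem chord_far {z w : ℂ} {r : ℝ} (hr : 0 < r) (hz : r ≤ ‖z‖) (hw : r ≤ ‖w‖) :
    chord z w ≤ 2 / r := by
  have h1 := norm_le z
  have h2 := norm_le w
  rw [chord, div_le_div_iff₀ (mul_pos (by linarith) (by linarith)) hr]
  have := norm_sub_le z w
  nlinarith [mul_le_mul h1 (hw.trans h2) hr.le (by linarith),
    mul_le_mul h2 (hz.trans h1) hr.le (by linarith)]

theorem cdist_le {γ η : PC} (φ : ℝ≥0 ≃o ℝ≥0) {θ : ℝ} (h : ∀ t, chord (γ (φ t)) (η t) ≤ θ) :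
    cdist γ η ≤ θ :=
  (ciInf_le ⟨0, by rintro _ ⟨ψ, rfl⟩; exact Real.iSup_nonneg fun t => chord_nonneg _ _⟩ φ).trans
    (ciSup_le h)

end SlutA

theorem cdist_nonneg (γ η : PC) : 0 ≤ cdist γ η :=
  Real.iInf_nonneg fun _ => Real.iSup_nonneg fun _ => SlutA.chord_nonneg _ _

theorem cdist_repar (γ : PC) (φ : ℝ≥0 ≃o ℝ≥0) : cdist (repar γ φ) γ = 0 :=
  (SlutA.cdist_le φ.symm fun t => by simp [repar, chord]).antisymm (cdist_nonneg _ _)

theorem cdist_comm (γ η : PC) : cdist γ η = cdist η γ := by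
  refine Function.Surjective.iInf_congr OrderIso.symm (fun φ => ⟨φ.symm, rfl⟩) fun φ => ?_
  refine (φ.surjective.iSup_congr φ fun t => ?_).symm
  rw [φ.symm_apply_apply, chord, chord, norm_sub_rev, mul_comm]

open SlutA in
theorem s_Slut : S_Slut := by
  intro ι Ω Ω' _ _ _ _ P _ ν _ l _ X Y Γ h hY hXY
  refine port h hY h.aemeasurable_limit fun G hG ε hε =>
    ⟨fun m => {γ | ∃ γ' ∈ G, ∀ t ≤ (m : ℝ≥0), dist (γ t) (γ' t) ≤ 1 / (m + 1)}, fun m => ?_,
      fun ω hω => ?_⟩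
  · filter_upwards [hXY m (min ε (1 / (m + 1))) (lt_min hε (by positivity))] with δ hδ
    refine le_trans (measure_mono fun ω hω => ?_) (hδ.trans ((ENNReal.ofReal_le_ofReal
      (min_le_left _ _)).trans_eq ENNReal.ofReal_coe_nnreal))
    by_contra hc
    exact hω.2 ⟨_, hω.1, fun t ht => (not_lt.1 fun h' => hc ⟨t, ht, h'⟩).trans (min_le_right _ _)⟩
  · have : ∀ m : ℕ, ∃ γ ∈ G, ∀ t ≤ (m : ℝ≥0), dist (Γ ω t) (γ t) ≤ 2 * (1 / (m + 1)) := fun m => by
      obtain ⟨k, hk, h1⟩ := hω m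
      obtain ⟨γ, ⟨γ', h2, h3⟩, h4⟩ := near h1 m (θ := 1 / (m + 1)) (by positivity)
      refine ⟨γ', h2, fun t ht => (dist_triangle _ (γ t) _).trans ?_⟩
      have h5 : (1 : ℝ) / (k + 1) ≤ 1 / (m + 1) := by gcongr
      linarith [h4 t ht, h3 t (ht.trans (by exact_mod_cast hk))]
    choose γ h1 h2 using this
    refine hG.mem_of_tendsto (ContinuousMap.tendsto_iff_forall_isCompact_tendstoUniformlyOn.2
      fun K hK => Metric.tendstoUniformlyOn_iff.2 fun θ hθ => ?_) (.of_forall h1 : ∀ᶠ m in atTop, _)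
    obtain ⟨T, hT⟩ := hK.bddAbove
    have h3 := (tendsto_one_div_add_atTop_nhds_zero_nat (𝕜 := ℝ)).const_mul 2
    rw [mul_zero] at h3
    filter_upwards [h3.eventually_lt_const hθ, tendsto_natCast_atTop_atTop.eventually_ge_atTop T]
      with m h4 h5 t ht using (h2 m t ((hT ht).trans h5)).trans_lt h4

open SlutA in
theorem s_B : S_B := by
  intro ι Ω Ω' _ _ _ _ P _ ν _ l _ X Y Γ h hT hXY F hF ⟨K, hK⟩ hc
  have e : ∀ δ ω, F (Y δ ω) = F (X δ ω) := fun δ ω => by
    refine (eq_of_forall_dist_le fun ε hε => ?_).symm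
    obtain ⟨θ, hθ, h1⟩ := hc (Y δ ω) ε hε
    exact (h1 _ ((hXY δ ω).trans_lt hθ)).le
  have h1 : TendstoInDistribution (fun δ ω => F (X δ ω)) l (fun ω => F (Γ ω)) (fun _ => P) ν := by
    refine port h (fun δ => hF.comp_aemeasurable (h.forall_aemeasurable δ))
      (hF.comp_aemeasurable h.aemeasurable_limit) fun G hG ε hε => ?_
    choose T hT using fun m : ℕ => hT (m + 1) ε hε
    refine ⟨fun m => {γ | F γ ∈ G ∧ ∀ t, T m ≤ t → (m : ℝ) + 1 ≤ ‖γ t‖}, fun m => ?_, fun ω hω => ?_⟩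
    · filter_upwards [hT m] with δ hδ
      refine le_trans (measure_mono fun ω hω => ?_) (hδ.trans_eq ENNReal.ofReal_coe_nnreal)
      by_contra hc
      exact hω.2 ⟨hω.1, fun t ht => (not_le.1 fun h' => hc ⟨t, ht, h'⟩).le⟩
    · refine hG.closure_subset (Metric.mem_closure_iff.2 fun ε hε => ?_)
      obtain ⟨θ, hθ, h2⟩ := hc (Γ ω) ε hε
      obtain ⟨m, hm⟩ := exists_nat_gt (4 / θ)
      obtain ⟨k, hk, h3⟩ := hω m
      obtain ⟨γ, h4, h5⟩ := near h3 (T k) (half_pos hθ)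
      have h6 : ∀ t, T k ≤ t → (k : ℝ) + 1 ≤ ‖Γ ω t‖ := fun t ht =>
        closure_minimal (t := {γ : PC | (k : ℝ) + 1 ≤ ‖γ t‖}) (fun γ h => h.2 t ht)
          (isClosed_le continuous_const (continuous_eval_const t).norm) h3
      refine ⟨F γ, h4.1, ?_⟩
      rw [dist_comm]
      refine h2 γ ((cdist_le (.refl _) fun t => ?_).trans_lt (half_lt_self hθ))
      rcases le_total t (T k) with ht | ht
      · exact (chord_le _ _).trans (dist_comm (γ t) _ ▸ (h5 t ht).le)
      · refine (chord_far (by positivity) (h4.2 t ht) (h6 t ht)).trans ?_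
        have h7 : (m : ℝ) ≤ k := by exact_mod_cast hk
        rw [div_lt_iff₀ hθ] at hm
        rw [div_le_div_iff₀ (by positivity) two_pos]
        nlinarith
  have h2 := ProbabilityMeasure.tendsto_iff_forall_integral_tendsto.1 h1.tendsto
    (MartA.clamp id continuous_id K)
  have e2 : ∀ γ, MartA.clamp id continuous_id K (F γ) = F γ := fun γ =>
    (sub_eq_zero.1 (abs_nonpos_iff.1 (MartA.clamp_sub continuous_id le_rfl
      ((hK γ).trans_eq (add_zero K).symm)))).symm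
  simp only [ProbabilityMeasure.coe_mk] at h2
  rw [integral_map h1.aemeasurable_limit (BoundedContinuousFunction.continuous _).aestronglyMeasurable]
    at h2
  simp only [integral_map (h1.forall_aemeasurable _)
    (BoundedContinuousFunction.continuous _).aestronglyMeasurable, e2] at h2
  simpa only [e] using h2

end Pool.Agent.P.MP_6c8efb_pr.SLE
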