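import Pool.Agent.P.MP_6c8efb_pr.SLE.Iface
import Pool.Agent.P.MP_6c8efb_pr.SLE.LIface
import Pool.Agent.P.MP_6c8efb_pr.SLE.MSlut

/-! The capacity time change; truncation, locality and measurability. -/

open Set Filter Topology MeasureTheory
open scoped NNReal

namespace Pool.Agent.P.MP_6c8efb_pr.SLE

namespace GB

theorem path_succ (ω : Cfg) (j : ℕ) : path ω (j + 1) = step (bc ω) (path ω j) :=
  Function.iterate_succ_apply' _ _ _

theorem mem_expl {ω : Cfg} {k : ℕ} {e : E} : e ∈ expl ω k ↔ ∃ j < k, ed (path ω j) = e := by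
  simp [expl]

theorem path_agree {ω ω' : Cfg} {k : ℕ} (h : ∀ e ∈ expl ω k, ω' e = ω e) :
    ∀ j ≤ k, path ω' j = path ω j := by
  intro j hj
  induction j with
  | zero => rfl
  | succ j ih =>
    rw [path_succ, path_succ, ih (by omega)]
    refine step_congr ?_
    simp only [bc, h _ (mem_expl.2 ⟨j, hj, rfl⟩)]

theorem fp_agree {ω ω' : Cfg} {k : ℕ} (h : ∀ j ≤ k, path ω' j = path ω j) :
    ∀ j ≤ k + 1, fp ω' j = fp ω j := by
  intro j hj
  cases j with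
  | zero => rfl
  | succ j => simp only [fp, h j (by omega)]

theorem expl_agree {ω ω' : Cfg} {k : ℕ} (h : ∀ j ≤ k, path ω' j = path ω j) :
    expl ω' k = expl ω k :=
  Finset.image_congr fun j hj => by
    simp only [h j (Finset.mem_range.1 hj).le]

theorem fv_inj : Function.Injective fv := by
  rintro ⟨⟨x, y⟩, d⟩ ⟨⟨x', y'⟩, d'⟩ h
  rcases cases4 d with rfl | rfl | rfl | rfl <;> rcases cases4 d' with rfl | rfl | rfl | rfl <;>
    simp [fv] at h ⊢ <;> omega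

theorem bit_of_step {ω ω' : Cfg} {c : D} (h : step ω' c = step ω c) : ω' (ed c) = ω (ed c) := by
  by_cases h1 : ω (ed c) = true <;> by_cases h2 : ω' (ed c) = true
  · rw [h1, h2]
  · rw [step_open h1, step_closed h2] at h
    exact absurd (rot_inj h).symm (opp_ne c)
  · rw [step_closed h1, step_open h2] at h
    exact absurd (rot_inj h) (opp_ne c)
  · rw [Bool.eq_false_iff.2 h1, Bool.eq_false_iff.2 h2]

theorem path_pos (ω : Cfg) (k : ℕ) : 0 ≤ (path ω k).1.2 := by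
  induction k with
  | zero => exact le_rfl
  | succ k ih =>
    rw [path_succ]
    generalize path ω k = x at ih
    by_cases b : bc ω (ed x) = true
    · rw [step_open b]
      have := bc_pos b
      rcases cases4 x.2 with e | e | e | e <;> simp [e, ed, rot, opp] at this ⊢ <;> omega
    · rw [step_closed b]; exact ih

theorem nm_expl {ω : Cfg} {k : ℕ} {R : ℤ} (h : ∀ j ≤ k, nm 0 (fp ω j) ≤ R) :
    ∀ e ∈ expl ω k, nm 0 e.1 ≤ R := by
  intro e he
  obtain ⟨j, hj, rfl⟩ := mem_expl.1 he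
  have h1 := h (j + 1) hj
  have h2 := path_pos ω j
  simp only [fp] at h1
  generalize path ω j = c at h1 h2
  obtain ⟨⟨a, b⟩, d⟩ := c
  simp only [nm, abs_eq_max_neg] at h1 ⊢
  rcases cases4 d with rfl | rfl | rfl | rfl <;> simp [ed, fv] at h1 h2 ⊢ <;> omega

theorem locF_tr (R : ℕ) : LocF (tr R) := by
  refine ⟨Rc (-R) R (-R) R ×ˢ univ, (Rc_finite ..).prod (toFinite _),
    fun ω ω' h => funext fun e => ?_⟩
  by_cases he : nm 0 e.1 ≤ R
  · simp only [tr, he, if_true]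
    refine h e ⟨?_, trivial⟩
    simp only [nm, abs_eq_max_neg] at he
    simp [mem_Rc] at he ⊢
    omega
  · simp only [tr, he, if_false]

theorem locF_expl (k : ℕ) : ∃ S : Set E, S.Finite ∧ ∀ ω, ∀ e ∈ expl ω k, e ∈ S := by
  induction k with
  | zero => exact ⟨∅, finite_empty, fun ω e he => by simp [expl] at he⟩
  | succ k ih =>
    obtain ⟨S, hS, h⟩ := ih
    have hl : LocF fun ω => ed (path ω k) := ⟨S, hS, fun ω' ω hω => by
      simp only [path_agree (fun e he => hω e (h ω e he)) k le_rfl]⟩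
    refine ⟨_, hS.union hl.finite_range, fun ω e he => ?_⟩
    obtain ⟨j, hj, rfl⟩ := mem_expl.1 he
    rcases (Nat.lt_succ_iff.1 hj).lt_or_eq with h1 | rfl
    · exact Or.inl (h ω _ (mem_expl.2 ⟨j, h1, rfl⟩))
    · exact Or.inr ⟨ω, rfl⟩

theorem interp_agree {p p' : ℕ → ℂ} {k : ℕ} (h : ∀ j ≤ k, p' j = p j) {t : ℝ} (h0 : 0 ≤ t)
    (ht : t ≤ k) : interp p' t = interp p t := by
  rcases ht.lt_or_eq with h1 | rfl
  · have : ⌊t⌋₊ < k := (Nat.floor_lt h0).2 h1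
    rw [interp, interp, h _ this.le, h _ this]
  · simp [interp, h k le_rfl]

theorem interp_dist {p p' : ℕ → ℂ} {r : ℝ} (h : ∀ j, ‖p j - p' j‖ ≤ r) {t : ℝ} (h0 : 0 ≤ t) :
    dist (interp p t) (interp p' t) ≤ r := by
  have h1 : 0 ≤ t - ⌊t⌋₊ := sub_nonneg.2 (Nat.floor_le h0)
  have h2 : 0 ≤ 1 - (t - ⌊t⌋₊) := by linarith [Nat.lt_floor_add_one t]
  have e : interp p t - interp p' t = ((1 - (t - ⌊t⌋₊) : ℝ) : ℂ) * (p ⌊t⌋₊ - p' ⌊t⌋₊) +
      ((t - ⌊t⌋₊ : ℝ) : ℂ) * (p (⌊t⌋₊ + 1) - p' (⌊t⌋₊ + 1)) := by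
    simp only [interp]; push_cast; ring
  rw [dist_eq_norm, e]
  refine (norm_add_le _ _).trans ?_
  rw [norm_mul, norm_mul, Complex.norm_real, Complex.norm_real, Real.norm_of_nonneg h1,
    Real.norm_of_nonneg h2]
  nlinarith [mul_le_mul_of_nonneg_left (h ⌊t⌋₊) h2, mul_le_mul_of_nonneg_left (h (⌊t⌋₊ + 1)) h1]

theorem cx_fv (c : D) : cx (fv c) = 2 * pos c + ⟨-1 / 2, 3 / 2⟩ := by
  obtain ⟨⟨a, b⟩, d⟩ := c
  rcases cases4 d with rfl | rfl | rfl | rfl <;> apply Complex.ext <;> simp [cx, fv, pos] <;> ring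

theorem pos_near (hF : S_FP) (ω : Cfg) (k : ℕ) : ‖2 * pos (path ω k) - cx (fp ω k)‖ ≤ 3 := by
  obtain ⟨d, hd⟩ := (hF ω).stp k
  have h1 : cx (fp ω (k + 1)) = 2 * pos (path ω k) + ⟨-1 / 2, 3 / 2⟩ := cx_fv _
  have h2 : 2 * pos (path ω k) - cx (fp ω k) = cx (u d) - ⟨-1 / 2, 3 / 2⟩ := by
    rw [← sub_eq_iff_eq_add, hd] at h1
    rw [← h1]
    apply Complex.ext <;> simp [cx] <;> ring
  rw [h2]
  refine (Complex.norm_le_abs_re_add_abs_im _).trans ?_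
  rcases cases4 d with rfl | rfl | rfl | rfl <;> simp [cx] <;> norm_num [abs_of_nonneg, abs_of_neg]

theorem locF_curve (δ : ℝ) {s : Cfg → ℝ≥0} (hs : LocF s) : LocF fun ω => curve δ ω (s ω) := by
  obtain ⟨K, hK⟩ := hs.finite_range.bddAbove
  obtain ⟨S, hS, h⟩ := locF_expl ⌈(K : ℝ)⌉₊
  obtain ⟨T, hT, h'⟩ := hs
  refine ⟨_, hS.union hT, fun ω' ω hω => ?_⟩
  have e : s ω' = s ω := h' fun i hi => hω i (Or.inr hi)
  have h1 := path_agree fun e he => hω e (Or.inl (h ω e he))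
  simp only [e]
  exact interp_agree (p := fun j => δ * pos (path ω j)) (p' := fun j => δ * pos (path ω' j))
    (k := ⌈(K : ℝ)⌉₊) (fun j hj => by simp only [h1 j hj]) (s ω).2
    (le_trans (by exact_mod_cast hK ⟨ω, rfl⟩) (Nat.le_ceil _))

end GB

open GB

theorem t_CAP (hF : S_FP) (hU : S_UNB) (hP : S_PC) (hE : L.S_Exist) (hK : L.S_Clock)
    (hC : L.S_Cont) : S_CAP := by
  intro δ ω hδ
  have h1 := hP (δ / 2) _ (half_pos hδ) (hF (tr ⌈1 / δ ^ 2⌉₊ ω))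
  have hs : L.Simple (eta δ ω) := hE _ h1.1 h1.2
  have hh : ∀ h : ℝ, ∃ t, h ≤ (eta δ ω t).im := fun h => by
    obtain ⟨k, hk⟩ := hU ⌈1 / δ ^ 2⌉₊ ω ⌈h / (δ / 2)⌉
    refine ⟨k, ?_⟩
    have e : (eta δ ω k).im = δ / 2 * (fp (tr ⌈1 / δ ^ 2⌉₊ ω) k).2 := by
      simp [eta, pc, interp, cx]
    have h2 : h / (δ / 2) ≤ (fp (tr ⌈1 / δ ^ 2⌉₊ ω) k).2 :=
      (Int.le_ceil _).trans (by exact_mod_cast hk)
    rw [e, mul_comm]
    exact (div_le_iff₀ (half_pos hδ)).1 h2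
  obtain ⟨φ, hφ, -⟩ := hK.2 _ hs hh
  have hc : L.CapPar (Cv δ ω) :=
    Classical.epsilon_spec (p := fun φ : ℝ≥0 ≃o ℝ≥0 => L.CapPar (repar (eta δ ω) φ)) ⟨φ, hφ⟩
  obtain ⟨-, h3, h4⟩ := hK.1 _ hs (tau δ ω)
  refine ⟨hs, hc, fun t => ?_⟩
  have h5 : Dv δ ω t = L.drv (Cv δ ω) t :=
    ContinuousMap.mkD_apply_of_continuous (hC.1 _ hc.toSimple).2.2.2.2.1
  refine ⟨h5, h5.trans (h4 t), ?_⟩
  rw [← hc.clock t, L.ct, L.ct, ← h3 t]
  rfl

theorem t_BAS (hF : S_FP) (hK : S_CAP) (hC : L.S_Cont) : S_BAS := by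
  have hη : ∀ δ, LocF (eta δ) := fun δ => (locF_tr _).comp fun ξ => pc (δ / 2) (fp ξ)
  have hτ : ∀ δ, LocF (tau δ) := fun δ => (hη δ).comp fun η =>
    Classical.epsilon fun φ : ℝ≥0 ≃o ℝ≥0 => L.CapPar (repar η φ)
  have hγ : ∀ δ, LocF (Cv δ) := fun δ => (hη δ).comp₂ (hτ δ) repar
  refine ⟨fun ω ω' k h => fp_agree (path_agree h), fun ω ω' k h => ?_, fun R ω k h => ?_,
    fun δ => ⟨hη δ, hτ δ, hγ δ, (hγ δ).comp fun γ => ContinuousMap.mkD (L.drv γ) (0 : PR)⟩,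
    fun δ ω ω' k t hδ h ht => ?_, fun δ ω t hδ => ?_, fun δ => ⟨?_, ?_⟩⟩
  · have h1 : ∀ j ≤ k, path ω' j = path ω j := fun j hj => fv_inj (h (j + 1) (by omega))
    refine ⟨expl_agree h1, fun e he => ?_⟩
    obtain ⟨j, hj, rfl⟩ := mem_expl.1 he
    refine bit_of_step ?_
    rw [← path_succ, ← h1 (j + 1) hj, path_succ, h1 j hj.le]
  · have h1 : ∀ e ∈ expl ω k, tr R ω e = ω e := by
      rcases h with h | h
      · have h2 : ∀ e ∈ expl (tr R ω) k, ω e = tr R ω e := fun e he => by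
          simp only [tr, nm_expl h e he, if_true]
        rw [expl_agree (path_agree h2)]
        exact fun e he => (h2 e he).symm
      · exact fun e he => by simp only [tr, nm_expl h e he, if_true]
    exact ⟨fp_agree (path_agree h1), h1⟩
  · obtain ⟨s1, -, c1⟩ := hK δ ω hδ
    obtain ⟨s2, -, c2⟩ := hK δ ω' hδ
    have e1 : ∀ v ≤ (k : ℝ≥0), eta δ ω' v = eta δ ω v := fun v hv =>
      interp_agree (p := fun j => ((δ / 2 : ℝ) : ℂ) * cx (fp (tr ⌈1 / δ ^ 2⌉₊ ω) j))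
        (p' := fun j => ((δ / 2 : ℝ) : ℂ) * cx (fp (tr ⌈1 / δ ^ 2⌉₊ ω') j))
        (k := k) (fun j hj => by simp only [h j hj]) v.2 (by exact_mod_cast hv)
    have e2 : L.hull (eta δ ω') (tau δ ω t) = L.hull (eta δ ω) (tau δ ω t) :=
      image_congr fun v hv => e1 v (hv.2.trans ht)
    have e3 : tau δ ω' t = tau δ ω t := (hC.1 _ s2).2.1.injective (by
      rw [(c2 t).2.2, L.ct, e2, ← (c1 t).2.2, L.ct])
    refine ⟨e3, ?_, ?_⟩
    · change eta δ ω' (tau δ ω' t) = eta δ ω (tau δ ω t)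
      rw [e3, e1 _ ht]
    · rw [(c1 t).2.1, (c2 t).2.1, e3]
      exact hC.2 _ _ s2 s1 k e1 _ ht
  · refine interp_dist (fun j => ?_) t.2
    have e : (δ : ℂ) * pos (path ω j) - ((δ / 2 : ℝ) : ℂ) * cx (fp ω j) =
        ((δ / 2 : ℝ) : ℂ) * (2 * pos (path ω j) - cx (fp ω j)) := by push_cast; ring
    rw [e, norm_mul, Complex.norm_real, Real.norm_of_nonneg (by positivity)]
    nlinarith [pos_near hF ω j]
  · exact measurable_path fun t => (locF_curve δ (locF_const t)).measurable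
  · exact measurable_path fun t => (locF_curve δ ((hτ δ).comp fun φ => φ t)).measurable

end Pool.Agent.P.MP_6c8efb_pr.SLE
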