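import Mathlib

/-! Elementary conditional probabilities on countable partitions, and stopped partitions. -/

open MeasureTheory Set Filter

namespace Pool.Agent.P.MP_6c8efb_pr.SLE.Apx

variable {Ω K : Type} [MeasurableSpace Ω]

/-- the conditional probability of `A` given the value of `κ` -/
noncomputable def cp (P : Measure Ω) (κ : Ω → K) (A : Set Ω) (ω : Ω) : ℝ :=
  P.real (A ∩ κ ⁻¹' {κ ω}) / P.real (κ ⁻¹' {κ ω})

theorem meas_of_fib [Countable K] {κ : Ω → K} (hκ : ∀ x, MeasurableSet (κ ⁻¹' {x})) {S : Set Ω}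
    (hS : ∀ ω ω', κ ω = κ ω' → ω ∈ S → ω' ∈ S) : MeasurableSet S := by
  have : S = ⋃ x ∈ κ '' S, κ ⁻¹' {x} := by
    ext ω
    simp only [mem_iUnion, mem_image, mem_preimage, mem_singleton_iff, exists_prop]
    constructor
    · intro h; exact ⟨κ ω, ⟨ω, h, rfl⟩, rfl⟩
    · rintro ⟨x, ⟨ω', h, rfl⟩, h2⟩; exact hS ω' ω h2.symm h
  rw [this]
  exact MeasurableSet.biUnion (to_countable _) fun x _ => hκ x

theorem measurable_of_fib [Countable K] {κ : Ω → K} (hκ : ∀ x, MeasurableSet (κ ⁻¹' {x}))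
    {X : Type} [MeasurableSpace X] {h : Ω → X} (hh : ∀ ω ω', κ ω = κ ω' → h ω = h ω') :
    Measurable h := fun S _ =>
  meas_of_fib hκ fun ω ω' e hm => by simpa only [mem_preimage, ← hh ω ω' e] using hm

theorem cp_nonneg (P : Measure Ω) (κ : Ω → K) (A : Set Ω) (ω : Ω) : 0 ≤ cp P κ A ω :=
  div_nonneg measureReal_nonneg measureReal_nonneg

theorem cp_le (P : Measure Ω) [IsFiniteMeasure P] (κ : Ω → K) (A : Set Ω) (ω : Ω) :
    cp P κ A ω ≤ 1 :=
  div_le_one_of_le₀ (measureReal_mono inter_subset_right) measureReal_nonneg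

theorem cp_abs (P : Measure Ω) [IsFiniteMeasure P] (κ : Ω → K) (A : Set Ω) (ω : Ω) :
    |cp P κ A ω| ≤ 1 := by
  rw [abs_of_nonneg (cp_nonneg P κ A ω)]; exact cp_le P κ A ω

theorem cp_congr (P : Measure Ω) (κ : Ω → K) (A : Set Ω) {ω ω' : Ω} (h : κ ω = κ ω') :
    cp P κ A ω = cp P κ A ω' := by simp only [cp, h]

theorem ae_pos [Countable K] (P : Measure Ω) [IsFiniteMeasure P] (κ : Ω → K) :
    ∀ᵐ ω ∂P, 0 < P.real (κ ⁻¹' {κ ω}) := by
  have : {ω | ¬ 0 < P.real (κ ⁻¹' {κ ω})} ⊆ ⋃ x ∈ {x | P (κ ⁻¹' {x}) = 0}, κ ⁻¹' {x} := by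
    intro ω h
    simp only [mem_ofPred_eq, not_lt] at h
    have h0 : P.real (κ ⁻¹' {κ ω}) = 0 := le_antisymm h measureReal_nonneg
    rw [measureReal_eq_zero_iff] at h0
    simp only [mem_iUnion, mem_ofPred_eq, exists_prop]
    exact ⟨κ ω, h0, rfl⟩
  refine measure_mono_null this ?_
  exact (measure_biUnion_null_iff (to_countable _)).2 fun x hx => hx

theorem int_cp [Countable K] (P : Measure Ω) [IsFiniteMeasure P] {κ : Ω → K}
    (hκ : ∀ x, MeasurableSet (κ ⁻¹' {x})) {A : Set Ω} {h : Ω → ℝ}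
    (hh : ∀ ω ω', κ ω = κ ω' → h ω = h ω') {M : ℝ} (hM : ∀ ω, ‖h ω‖ ≤ M) :
    ∫ ω, h ω * cp P κ A ω ∂P = ∫ ω in A, h ω ∂P := by
  have hm : Measurable h := measurable_of_fib hκ hh
  have hc : Measurable (cp P κ A) := measurable_of_fib hκ fun ω ω' e => cp_congr P κ A e
  have hi : Integrable h P := Integrable.of_bound hm.aestronglyMeasurable M (ae_of_all _ hM)
  have hi2 : Integrable (fun ω => h ω * cp P κ A ω) P := by
    refine Integrable.of_bound (hm.mul hc).aestronglyMeasurable M (ae_of_all _ fun ω => ?_)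
    rw [norm_mul]
    exact (mul_le_of_le_one_right (norm_nonneg _) (cp_abs P κ A ω)).trans (hM ω)
  have hd : Pairwise (Function.onFun Disjoint fun x => κ ⁻¹' {x}) := fun x y hxy =>
    Disjoint.preimage κ (disjoint_singleton.2 hxy)
  have hu : (⋃ x, κ ⁻¹' {x}) = univ := by ext ω; simp
  have s1 := hasSum_integral_iUnion (μ := P) hκ hd (f := fun ω => h ω * cp P κ A ω)
    hi2.integrableOn
  have s2 := hasSum_integral_iUnion (μ := P.restrict A) hκ hd (f := h)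
    hi.integrableOn.integrableOn
  rw [hu, Measure.restrict_univ] at s1 s2
  suffices e : ∀ x, ∫ ω in κ ⁻¹' {x}, h ω ∂P.restrict A =
      ∫ ω in κ ⁻¹' {x}, h ω * cp P κ A ω ∂P by
    simp only [e] at s2
    exact s1.unique s2
  intro x
  by_cases hx : ∃ ω, κ ω = x
  · obtain ⟨ω, rfl⟩ := hx
    rw [setIntegral_congr_fun (hκ _) (g := fun _ => h ω) fun ω' e => hh ω' ω e,
      setIntegral_congr_fun (hκ _) (f := fun ω => h ω * cp P κ A ω)
        (g := fun _ => h ω * cp P κ A ω) fun ω' e => by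
          simp only [hh ω' ω e, cp_congr P κ A e]]
    simp only [setIntegral_const, smul_eq_mul]
    rw [measureReal_restrict_apply (hκ _), inter_comm]
    by_cases h0 : P.real (κ ⁻¹' {κ ω}) = 0
    · have : P.real (A ∩ κ ⁻¹' {κ ω}) = 0 :=
        le_antisymm (h0 ▸ measureReal_mono inter_subset_right) measureReal_nonneg
      simp [h0, this]
    · simp only [cp]; field_simp
  · have : κ ⁻¹' {x} = ∅ := by
      ext ω; simp only [mem_preimage, mem_singleton_iff, mem_empty_iff_false, iff_false]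
      exact fun e => hx ⟨ω, e⟩
    simp [this]

/-- the value of the past at the stopping time `τ` -/
def stop (κ : ℕ → Ω → K) (τ : Ω → ℕ) (ω : Ω) : ℕ × K := (τ ω, κ (τ ω) ω)

omit [MeasurableSpace Ω] in
theorem stop_fib {κ : ℕ → Ω → K} {τ : Ω → ℕ}
    (hτ : ∀ ω ω', κ (τ ω) ω' = κ (τ ω) ω → τ ω' = τ ω) (ω : Ω) :
    stop κ τ ⁻¹' {stop κ τ ω} = κ (τ ω) ⁻¹' {κ (τ ω) ω} := by
  ext ω'
  simp only [stop, mem_preimage, mem_singleton_iff, Prod.mk.injEq]
  constructor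
  · rintro ⟨h1, h2⟩; rwa [h1] at h2
  · intro h; have := hτ ω ω' h; exact ⟨this, by rw [this]; exact h⟩

theorem stop_meas {κ : ℕ → Ω → K} {τ : Ω → ℕ} (hκ : ∀ k x, MeasurableSet (κ k ⁻¹' {x}))
    (hτ : ∀ ω ω', κ (τ ω) ω' = κ (τ ω) ω → τ ω' = τ ω) (x : ℕ × K) :
    MeasurableSet (stop κ τ ⁻¹' {x}) := by
  by_cases hx : ∃ ω, stop κ τ ω = x
  · obtain ⟨ω, rfl⟩ := hx
    rw [stop_fib hτ]; exact hκ _ _
  · have : stop κ τ ⁻¹' {x} = ∅ := by
      ext ω; simp only [mem_preimage, mem_singleton_iff, mem_empty_iff_false, iff_false]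
      exact fun e => hx ⟨ω, e⟩
    simp [this]

end Pool.Agent.P.MP_6c8efb_pr.SLE.Apx
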