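import Pool.Agent.P.MP_6c8efb_pr.SLE.Iface
import Pool.Agent.P.MP_6c8efb_pr.SLE.ApxA

/-! The filtration of the exploration and the conditional probabilities. -/

open Set Filter Topology MeasureTheory
open scoped NNReal

namespace Pool.Agent.P.MP_6c8efb_pr.SLE.Apx

/-- the edges seen by the first `k` steps, and the open ones among them -/
def key (ξ : Cfg) (k : ℕ) : Finset E × Finset E :=
  (expl ξ k, (expl ξ k).filter fun e => ξ e = true)

theorem path_succ (ω : Cfg) (j : ℕ) : path ω (j + 1) = step (bc ω) (path ω j) :=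
  Function.iterate_succ_apply' _ _ _

theorem mem_expl (ξ : Cfg) {j k : ℕ} (h : j < k) : ed (path ξ j) ∈ expl ξ k :=
  Finset.mem_image.2 ⟨j, Finset.mem_range.2 h, rfl⟩

theorem path_agree {ω ξ : Cfg} {k : ℕ} (h : ∀ e ∈ expl ξ k, ω e = ξ e) :
    ∀ j ≤ k, path ω j = path ξ j := by
  intro j
  induction j with
  | zero => intro _; rfl
  | succ j ih =>
    intro hj
    have h1 := h _ (mem_expl ξ (Nat.lt_of_succ_le hj))
    have h2 : bc ω (edge (path ξ j).1 (path ξ j).2) = bc ξ (edge (path ξ j).1 (path ξ j).2) := by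
      simp only [bc]
      rw [show ω (edge (path ξ j).1 (path ξ j).2) = ξ (edge (path ξ j).1 (path ξ j).2) from h1]
    rw [path_succ, path_succ, ih (Nat.le_of_succ_le hj), step, step, h2]

theorem expl_agree {ω ξ : Cfg} {k : ℕ} (h : ∀ e ∈ expl ξ k, ω e = ξ e) : expl ω k = expl ξ k :=
  Finset.image_congr fun j hj => by
    simp only [path_agree h j (Finset.mem_range.1 hj).le]

theorem key_eq_iff {ω ξ : Cfg} {k : ℕ} : key ω k = key ξ k ↔ ∀ e ∈ expl ξ k, ω e = ξ e := by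
  constructor
  · intro h e he
    have h1 : expl ω k = expl ξ k := congrArg Prod.fst h
    have h2 := Finset.ext_iff.1 (congrArg Prod.snd h) e
    simp only [key, Finset.mem_filter, h1, he, true_and] at h2
    exact Bool.eq_iff_iff.2 h2
  · intro h
    simp only [key, expl_agree h, Prod.mk.injEq, true_and]
    exact Finset.filter_congr fun e he => by rw [h e he]

theorem fp_agree {ω ξ : Cfg} {k : ℕ} (h : key ω k = key ξ k) : ∀ j ≤ k + 1, fp ω j = fp ξ j := by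
  intro j hj
  cases j with
  | zero => rfl
  | succ j => simp only [fp, path_agree (key_eq_iff.1 h) j (Nat.le_of_succ_le_succ hj)]

theorem pc_mem (h : ℝ) (q : ℕ → V) (k : ℕ) {t : ℝ≥0} (ht : (t : ℝ) ∈ Icc (k : ℝ) (k + 1)) :
    pc h q t = h * cx (q k) + ((t - k : ℝ) : ℂ) * (h * cx (q (k + 1)) - h * cx (q k)) :=
  interp_of_mem (fun k => (h : ℂ) * cx (q k)) k ht

theorem pc_nat (h : ℝ) (q : ℕ → V) (k : ℕ) : pc h q k = h * cx (q k) := by
  rw [pc_mem h q k (t := k) (by simp)]; simp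

theorem pc_agree (h : ℝ) {q q' : ℕ → V} {n : ℕ} (hq : ∀ j ≤ n + 1, q j = q' j) {t : ℝ≥0}
    (ht : t ≤ (n + 1 : ℕ)) : pc h q t = pc h q' t := by
  have ht' : (t : ℝ) ≤ n + 1 := by exact_mod_cast ht
  obtain ⟨k, hk, hm⟩ : ∃ k ≤ n, (t : ℝ) ∈ Icc (k : ℝ) (k + 1) := by
    rcases le_total (n : ℝ) t with h1 | h1
    · exact ⟨n, le_rfl, h1, ht'⟩
    · exact ⟨⌊(t : ℝ)⌋₊, Nat.floor_le_of_le h1, Nat.floor_le t.2, (Nat.lt_floor_add_one _).le⟩
  rw [pc_mem h q k hm, pc_mem h q' k hm, hq k (by omega), hq (k + 1) (by omega)]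

theorem norm_step (x : V) (d : Fin 4) : ‖cx (x + u d) - cx x‖ = 1 := by
  rcases cases4 d with rfl | rfl | rfl | rfl <;>
    simp [cx, u, Complex.norm_eq_sqrt_sq_add_sq]

theorem pc_near {h : ℝ} (hh : 0 ≤ h) {q : ℕ → V} (hq : FP q) (k : ℕ) {s t : ℝ≥0}
    (hs : (s : ℝ) ∈ Icc (k : ℝ) (k + 1)) (ht : (t : ℝ) ∈ Icc (k : ℝ) (k + 1)) :
    ‖pc h q t - pc h q s‖ ≤ h := by
  obtain ⟨d, hd⟩ := hq.stp k
  have e : pc h q t - pc h q s = ((t - s : ℝ) : ℂ) * (h * (cx (q (k + 1)) - cx (q k))) := by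
    rw [pc_mem h q k hs, pc_mem h q k ht]; push_cast; ring
  rw [e, norm_mul, norm_mul, hd, norm_step, Complex.norm_real, Complex.norm_real, Real.norm_eq_abs,
    Real.norm_eq_abs, abs_of_nonneg hh, mul_one]
  refine mul_le_of_le_one_left hh (abs_le.2 ⟨?_, ?_⟩) <;> linarith [hs.1, hs.2, ht.1, ht.2]

theorem locF_tr (R : ℕ) : LocF (tr R) := by
  refine ⟨{e | nm 0 e.1 ≤ R}, ((ball_finite 0 univ R).prod (toFinite (univ : Set Bool))).subset
    fun e he => ⟨⟨trivial, he⟩, trivial⟩, fun ω ω' h => funext fun e => ?_⟩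
  by_cases he : nm 0 e.1 ≤ R
  · simp only [tr, he, if_true]; exact h e he
  · simp only [tr, he, if_false]

theorem loc_mg {A : Set Cfg} (hA : MP_6c8efb_pr.Loc A) (ξ : Cfg) (k : ℕ) :
    MP_6c8efb_pr.Loc {ω | mg ξ k ω ∈ A} := by
  obtain ⟨S, hS, h⟩ := hA
  refine ⟨S, hS, fun ω ω' e => h fun i hi => ?_⟩
  simp only [mg, e i hi]

theorem dep_mg (A : Set Cfg) (ξ : Cfg) (k : ℕ) :
    Dep {ω | mg ξ k ω ∈ A} (expl ξ k : Set E)ᶜ := by
  intro ω ω' e h
  have : mg ξ k ω' = mg ξ k ω := funext fun i => by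
    by_cases hi : i ∈ expl ξ k
    · simp only [mg, hi, if_true]
    · simp only [mg, hi, if_false]; exact (e i hi).symm
  simpa only [mem_ofPred_eq, this] using h

/-- the merge lemma -/
theorem Q_merge {A : Set Cfg} (hA : MP_6c8efb_pr.Loc A) (ξ : Cfg) (k : ℕ) :
    Q (A ∩ {ω | ∀ e ∈ expl ξ k, ω e = ξ e}) = cond A ξ k * Q {ω | ∀ e ∈ expl ξ k, ω e = ξ e} := by
  rw [cond, ← Pr_inter_indep _ (loc_mg hA ξ k) (loc_cyl _ _) (dep_mg A ξ k)
    (dep_cyl (expl ξ k : Set E) ξ) disjoint_compl_left]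
  congr 1
  ext ω
  refine and_congr_left fun h => ?_
  have : mg ξ k ω = ω := funext fun i => by
    by_cases hi : i ∈ expl ξ k
    · simp only [mg, hi, if_true]; exact (h i hi).symm
    · simp only [mg, hi, if_false]
  simp only [mem_ofPred_eq, this]

theorem Q_cyl_pos (J : Finset E) (ξ : Cfg) : 0 < Q {ω | ∀ e ∈ J, ω e = ξ e} := by
  rw [Q, Pr_cyl]
  refine Finset.prod_pos fun i _ => ?_
  cases ξ i <;> norm_num [wt, hf]

theorem fib_eq {R k : ℕ} {ω : Cfg} (h : ∀ e ∈ expl (tr R ω) k, nm 0 e.1 ≤ R) :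
    (fun ω => key (tr R ω) k) ⁻¹' {key (tr R ω) k} =
      {ω' | ∀ e ∈ expl (tr R ω) k, ω' e = tr R ω e} := by
  ext ω'
  simp only [mem_preimage, mem_singleton_iff, key_eq_iff, mem_ofPred_eq]
  refine forall₂_congr fun e he => ?_
  rw [show tr R ω' e = ω' e by simp only [tr, h e he, if_true]]

theorem cp_eq {R : ℕ} {τ : Cfg → ℕ}
    (hτ : ∀ ω ω', key (tr R ω') (τ ω) = key (tr R ω) (τ ω) → τ ω' = τ ω) {A : Set Cfg}
    (hA : MP_6c8efb_pr.Loc A) {ω : Cfg} (h : ∀ e ∈ expl (tr R ω) (τ ω), nm 0 e.1 ≤ R) :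
    cp crit (stop (fun k ω => key (tr R ω) k) τ) A ω = cond A (tr R ω) (τ ω) := by
  rw [cp, stop_fib (κ := fun k ω => key (tr R ω) k) hτ, fib_eq h, crit_real, crit_real,
    Q_merge hA, mul_div_assoc, div_self (Q_cyl_pos _ _).ne', mul_one]

theorem key_meas (R k : ℕ) (x : Finset E × Finset E) :
    MeasurableSet ((fun ω => key (tr R ω) k) ⁻¹' {x}) :=
  (((locF_tr R).comp fun ξ => key ξ k).loc_eq x).measurableSet

theorem expl_box {h ρ : ℝ} (hh : 0 < h) {ξ : Cfg} {k R : ℕ}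
    (hρ : ∀ j ≤ k, ‖pc h (fp ξ) j‖ ≤ ρ) (hR : ρ / (2 * h) + 2 ≤ R) :
    ∀ e ∈ expl ξ k, nm 0 e.1 ≤ R := by
  intro e he
  obtain ⟨j, hj, rfl⟩ := Finset.mem_image.1 he
  have h1 := hρ (j + 1) (Finset.mem_range.1 hj)
  rw [pc_nat, norm_mul, Complex.norm_real, Real.norm_eq_abs, abs_of_pos hh] at h1
  have h2 : ‖cx (fp ξ (j + 1))‖ ≤ 2 * R - 4 := by
    have : ‖cx (fp ξ (j + 1))‖ ≤ ρ / h := by rw [le_div_iff₀ hh]; linarith
    have e : ρ / h = 2 * (ρ / (2 * h)) := by field_simp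
    linarith
  have h3 : |(fp ξ (j + 1)).1| ≤ 2 * R - 4 := by
    have := (Complex.abs_re_le_norm _).trans h2
    simp only [cx] at this
    exact_mod_cast this
  have h4 : |(fp ξ (j + 1)).2| ≤ 2 * R - 4 := by
    have := (Complex.abs_im_le_norm _).trans h2
    simp only [cx] at this
    exact_mod_cast this
  simp only [fp] at h3 h4
  generalize path ξ j = c at h3 h4
  obtain ⟨⟨a, b⟩, d⟩ := c
  rcases cases4 d with rfl | rfl | rfl | rfl <;>
    simp [fv, ed, edge, nm, abs_eq_max_neg] at h3 h4 ⊢ <;> omega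

end Pool.Agent.P.MP_6c8efb_pr.SLE.Apx
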