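import Pool.Agent.P.MP_6c8efb_pr.SLE.Stmt

/-! The space of curves modulo reparametrisation. -/

open MeasureTheory ProbabilityTheory
open scoped NNReal

namespace Pool.Agent.P.MP_6c8efb_pr.SLE

instance : IsProbabilityMeasure crit := by unfold crit; infer_instance

/-- the random curve `Γ` is a chordal SLE(6) trace: almost surely it generates the Loewner chain
driven by `√6` times a Brownian motion -/
def IsSLE6 [MeasurableSpace C(ℝ≥0, ℂ)] {Ω : Type} [MeasurableSpace Ω] (P : Measure Ω)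
    (Γ : Ω → C(ℝ≥0, ℂ)) : Prop :=
  AEMeasurable Γ P ∧ ∃ B : ℝ≥0 → Ω → ℝ, IsBrownianReal B P ∧
    ∀ᵐ ω ∂P, IsTrace (Γ ω) fun t => √6 * B t ω

/-- a curve, seen as a point of the space of curves modulo reparametrisation -/
structure Crv where
  val : C(ℝ≥0, ℂ)

namespace Crv

theorem chord_nonneg (z w : ℂ) : 0 ≤ chord z w := by unfold chord; positivity

theorem chord_le (z w : ℂ) : chord z w ≤ 2 := by
  have h : ∀ z : ℂ, 1 ≤ √(1 + ‖z‖ ^ 2) ∧ ‖z‖ ≤ √(1 + ‖z‖ ^ 2) := fun z =>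
    ⟨Real.one_le_sqrt.2 (by linarith [sq_nonneg ‖z‖]), Real.le_sqrt_of_sq_le (by linarith)⟩
  rw [chord, div_le_iff₀ (by positivity)]
  nlinarith [h z, h w, norm_sub_le z w, mul_nonneg (sub_nonneg.2 (h z).1) (sub_nonneg.2 (h w).1)]

theorem chord_triangle (x y z : ℂ) : chord x z ≤ chord x y + chord y z := by
  have h := EuclideanGeometry.mul_dist_le_mul_dist_add_mul_dist (V := WithLp 2 (ℂ × ℝ))
    (WithLp.toLp 2 (x, (0 : ℝ))) (WithLp.toLp 2 (y, 0)) (WithLp.toLp 2 (z, 0)) (WithLp.toLp 2 (0, 1))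
  simp only [WithLp.prod_dist_eq_of_L2, WithLp.toLp_fst, WithLp.toLp_snd, dist_self, dist_zero_right,
    dist_zero_left, norm_one, one_pow, zero_pow two_ne_zero, add_zero, Real.sqrt_sq dist_nonneg,
    add_comm _ (1 : ℝ)] at h
  simp only [dist_eq_norm] at h
  rw [chord, chord, chord, div_add_div _ _ (by positivity) (by positivity),
    div_le_div_iff₀ (by positivity) (by positivity)]
  calc _ = ‖x - z‖ * √(1 + ‖y‖ ^ 2) * (√(1 + ‖x‖ ^ 2) * √(1 + ‖y‖ ^ 2) * √(1 + ‖z‖ ^ 2)) := by ring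
    _ ≤ _ := mul_le_mul_of_nonneg_right h (by positivity)
    _ = _ := by ring

theorem cdist_le {γ η : C(ℝ≥0, ℂ)} (φ : ℝ≥0 ≃o ℝ≥0) {θ : ℝ}
    (h : ∀ t, chord (γ (φ t)) (η t) ≤ θ) : cdist γ η ≤ θ :=
  (ciInf_le ⟨0, by rintro _ ⟨ψ, rfl⟩; exact Real.iSup_nonneg fun t => chord_nonneg _ _⟩ φ).trans
    (ciSup_le h)

noncomputable instance : PseudoMetricSpace Crv where
  dist γ η := cdist γ.val η.val
  dist_self γ := (cdist_le (.refl _) fun t => by simp [chord]).antisymm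
    (Real.iInf_nonneg fun _ => Real.iSup_nonneg fun _ => chord_nonneg _ _)
  dist_comm γ η := by
    refine Function.Surjective.iInf_congr OrderIso.symm (fun φ => ⟨φ.symm, rfl⟩) fun φ => ?_
    refine (φ.surjective.iSup_congr φ fun t => ?_).symm
    rw [φ.symm_apply_apply, chord, chord, norm_sub_rev, mul_comm]
  dist_triangle γ η ζ := by
    have : Nonempty (ℝ≥0 ≃o ℝ≥0) := ⟨.refl _⟩
    refine le_ciInf_add_ciInf fun φ ψ => cdist_le (ψ.trans φ) fun t => ?_
    exact (chord_triangle _ (η.val (ψ t)) _).trans (add_le_add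
      (le_ciSup (f := fun t => chord (γ.val (φ t)) (η.val t))
        ⟨2, by rintro _ ⟨s, rfl⟩; exact chord_le _ _⟩ (ψ t))
      (le_ciSup (f := fun t => chord (η.val (ψ t)) (ζ.val t))
        ⟨2, by rintro _ ⟨s, rfl⟩; exact chord_le _ _⟩ t))

noncomputable instance : MeasurableSpace Crv := borel Crv

instance : BorelSpace Crv := ⟨rfl⟩

end Crv

end Pool.Agent.P.MP_6c8efb_pr.SLE
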