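import Pool.Agent.P.MP_6c8efb_pr.SLE.MSlut
import Pool.Agent.P.MP_6c8efb_pr.SLE.Stmt2
import Pool.Agent.P.MP_6c8efb_pr.SLE.Iface
import Pool.Agent.P.MP_6c8efb_pr.SLE.ApxB

/-! Convergence in law in the space of curves modulo reparametrisation. -/

open MeasureTheory Filter Topology Set
open scoped NNReal

namespace Pool.Agent.P.MP_6c8efb_pr.SLE

/-- convergence in law in the space of curves, from uniform transience -/
def S_B2 : Prop := ∀ (ι Ω Ω' : Type) [MeasurableSpace Ω] [MeasurableSpace Ω']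
  [MeasurableSpace PC] [BorelSpace PC] (P : Measure Ω) [IsProbabilityMeasure P] (ν : Measure Ω')
  [IsProbabilityMeasure ν] (l : Filter ι) [l.NeBot] [l.IsCountablyGenerated] (X Y : ι → Ω → PC)
  (Γ : Ω' → PC), TendstoInDistribution X l Γ (fun _ => P) ν →
  (∀ r ε : ℝ, 0 < ε → ∃ T : ℝ≥0, ∀ᶠ δ in l, P {ω | ∃ t, T ≤ t ∧ ‖X δ ω t‖ ≤ r} ≤ ENNReal.ofReal ε) →
  (∀ δ ω, cdist (X δ ω) (Y δ ω) = 0) → (∀ δ, AEMeasurable (fun ω => Crv.mk (Y δ ω)) P) →
  (∀ᵐ ω ∂ν, Tendsto (fun t => ‖Γ ω t‖) atTop atTop) ∧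
    TendstoInDistribution (fun δ ω => Crv.mk (Y δ ω)) l (fun ω => Crv.mk (Γ ω)) (fun _ => P) ν

namespace CrvA

/-- the curves that stay outside the disc of radius `r` after time `T` -/
def Out (r : ℝ) (T : ℝ≥0) : Set PC := {γ | ∀ t, T ≤ t → r ≤ ‖γ t‖}

theorem isClosed_out (r : ℝ) (T : ℝ≥0) : IsClosed (Out r T) := by
  simp only [Out, ofPred_forall]
  exact isClosed_iInter fun t => isClosed_iInter fun _ =>
    isClosed_le continuous_const (continuous_eval_const t).norm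

theorem trans_iff {γ : PC} : Tendsto (fun t => ‖γ t‖) atTop atTop ↔
    γ ∈ ⋂ r : ℕ, ⋃ T : ℕ, Out (r + 1) T := by
  simp only [mem_iInter, mem_iUnion, tendsto_atTop_atTop]
  refine ⟨fun h r => (h (r + 1)).elim fun T hT => ⟨⌈T⌉₊, fun t ht => hT t ((Nat.le_ceil T).trans ht)⟩,
    fun h r => (h ⌈r⌉₊).elim fun T hT => ⟨T, fun t ht => le_trans ?_ (hT t ht)⟩⟩
  linarith [Nat.le_ceil r]

theorem close {γ γ' : PC} {θ : ℝ} {k : ℕ} {T : ℝ≥0} (hk : 2 / ((k : ℝ) + 1) ≤ θ)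
    (h : γ ∈ Out (k + 1) T) (h' : γ' ∈ Out (k + 1) T) (hd : ∀ t ≤ T, dist (γ t) (γ' t) < θ) :
    dist (Crv.mk γ) (Crv.mk γ') ≤ θ :=
  SlutA.cdist_le (.refl _) fun t => (le_total t T).elim
    (fun ht => (SlutA.chord_le _ _).trans (hd t ht).le)
    fun ht => (SlutA.chord_far (by positivity) (h t ht) (h' t ht)).trans hk

theorem small {θ : ℝ} (hθ : 0 < θ) : ∃ m : ℕ, ∀ k : ℕ, m ≤ k → 2 / ((k : ℝ) + 1) ≤ θ := by
  obtain ⟨m, hm⟩ := exists_nat_gt (2 / θ)
  refine ⟨m, fun k hk => ?_⟩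
  have h7 : (m : ℝ) ≤ k := by exact_mod_cast hk
  rw [div_le_comm₀ (by positivity) hθ]
  linarith

variable [MeasurableSpace PC] [BorelSpace PC]

theorem meas_trans : MeasurableSet {γ : PC | Tendsto (fun t => ‖γ t‖) atTop atTop} := by
  simp only [trans_iff, ofPred_mem_eq]
  exact .iInter fun r => .iUnion fun T => (isClosed_out _ _).measurableSet

end CrvA

open CrvA in
/-- a random transient curve is a random point of the space of curves -/
theorem measurable_crv [MeasurableSpace PC] [BorelSpace PC] {Ω : Type} [MeasurableSpace Ω]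
    {Y : Ω → PC} (hY : Measurable Y) (ht : ∀ ω, Tendsto (fun t => ‖Y ω t‖) atTop atTop) :
    Measurable fun ω => Crv.mk (Y ω) := by
  refine measurable_of_isClosed fun G hG => ?_
  have : (fun ω => Crv.mk (Y ω)) ⁻¹' G = Y ⁻¹' ⋂ k : ℕ, ⋂ T : ℕ,
      ((Out (k + 1) T)ᶜ ∪ closure (Out (k + 1) T ∩ Crv.mk ⁻¹' G)) := by
    ext ω
    simp only [mem_preimage, mem_iInter, mem_union, mem_compl_iff, ← imp_iff_not_or]
    refine ⟨fun h k T hk => subset_closure ⟨hk, h⟩, fun h =>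
      hG.closure_subset (Metric.mem_closure_iff.2 fun ε hε => ?_)⟩
    obtain ⟨k, hk⟩ := small (half_pos hε)
    obtain ⟨T, hT⟩ := mem_iUnion.1 (mem_iInter.1 (trans_iff.1 (ht ω)) k)
    obtain ⟨γ, h1, h2⟩ := SlutA.near (h k T hT) T (half_pos hε)
    exact ⟨_, h1.2, (close (hk k le_rfl) hT h1.1 h2).trans_lt (half_lt_self hε)⟩
  rw [this]
  exact hY (.iInter fun k => .iInter fun T => (isClosed_out _ _).measurableSet.compl.union
    isClosed_closure.measurableSet)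

open CrvA in
theorem s_B2 : S_B2 := by
  intro ι Ω Ω' _ _ _ _ P _ ν _ l _ _ X Y Γ h hT hXY hY
  have hΓ := h.aemeasurable_limit
  have h1 : ∀ᵐ ω ∂ν, Tendsto (fun t => ‖Γ ω t‖) atTop atTop := by
    simp only [trans_iff, mem_iInter, ae_all_iff]
    intro r
    refine nonpos_iff_eq_zero.1 (ENNReal.le_of_forall_pos_le_add fun ε hε _ => ?_)
    obtain ⟨T, hT⟩ := hT (r + 1) ε hε
    have ho := (isClosed_out (r + 1) T).isOpen_compl
    have := ProbabilityMeasure.le_liminf_measure_open_of_tendsto h.tendsto ho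
    simp only [ProbabilityMeasure.coe_mk] at this
    rw [Measure.map_apply_of_aemeasurable hΓ ho.measurableSet] at this
    rw [zero_add]
    refine le_trans (measure_mono fun ω hω (h2 : Γ ω ∈ Out (r + 1) T) => hω (mem_iUnion.2
      ⟨⌈T⌉₊, fun t ht => h2 t ((Nat.le_ceil T).trans ht)⟩)) (this.trans (liminf_le_of_frequently_le'
        (hT.mono fun δ hδ => ?_).frequently))
    rw [Measure.map_apply_of_aemeasurable (h.forall_aemeasurable δ) ho.measurableSet]
    refine (measure_mono fun ω hω => ?_).trans (hδ.trans_eq ENNReal.ofReal_coe_nnreal)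
    by_contra hc
    exact hω fun t ht => (not_le.1 fun h' => hc ⟨t, ht, h'⟩).le
  classical
  have h2 : AEMeasurable (fun ω => Crv.mk (Γ ω)) ν := by
    set γ₀ : PC := ⟨fun t => (t : ℝ), by fun_prop⟩
    have t₀ : Tendsto (fun t => ‖γ₀ t‖) atTop atTop := by
      simpa [γ₀] using NNReal.tendsto_coe_atTop.2 tendsto_id
    refine ⟨_, measurable_crv (Y := fun ω => if Tendsto (fun t => ‖hΓ.mk Γ ω t‖) atTop atTop
      then hΓ.mk Γ ω else γ₀) (Measurable.ite (hΓ.measurable_mk meas_trans) hΓ.measurable_mk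
        measurable_const) fun ω => by split_ifs with h3 <;> assumption, ?_⟩
    filter_upwards [h1, hΓ.ae_eq_mk] with ω h3 h4
    rw [← h4, if_pos h3]
  refine ⟨h1, SlutA.port h hY h2 fun G hG ε hε => ?_⟩
  choose T hT using fun m : ℕ => hT (m + 1) ε hε
  refine ⟨fun m => Out (m + 1) (T m) ∩ Crv.mk ⁻¹' G, fun m => ?_, fun ω hω => ?_⟩
  · filter_upwards [hT m] with δ hδ
    refine le_trans (measure_mono fun ω hω => ?_) (hδ.trans_eq ENNReal.ofReal_coe_nnreal)
    by_contra hc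
    exact hω.2 ⟨fun t ht => (not_le.1 fun h' => hc ⟨t, ht, h'⟩).le, hG.closure_subset
      (Metric.mem_closure_iff.2 fun θ hθ => ⟨_, hω.1, (hXY δ ω).trans_lt hθ⟩)⟩
  · refine hG.closure_subset (Metric.mem_closure_iff.2 fun θ hθ => ?_)
    obtain ⟨m, hm⟩ := small (half_pos hθ)
    obtain ⟨k, hk, h3⟩ := hω m
    obtain ⟨γ, h4, h5⟩ := SlutA.near h3 (T k) (half_pos hθ)
    exact ⟨_, h4.2, (close (hm k hk) (closure_minimal inter_subset_left (isClosed_out _ _) h3) h4.1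
      h5).trans_lt (half_lt_self hθ)⟩

theorem curve_trans (hF : S_FP) (hB : S_BAS) {δ : ℝ} (hδ : δ ≠ 0) (ω : Cfg) :
    Tendsto (fun t => ‖curve δ ω t‖) atTop atTop := by
  have e : ∀ t, curve δ ω t = δ * curve 1 ω t := fun t => by
    simp only [curve, interp, ContinuousMap.coe_mk]; push_cast; ring
  have h1 : Tendsto (fun x : V => ‖cx x‖) cofinite atTop := tendsto_atTop.2 fun R =>
    ((finite_Icc (-⌈R⌉) ⌈R⌉).prod (finite_Icc (-⌈R⌉) ⌈R⌉)).subset fun x hx => by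
      have h2 : ‖cx x‖ ≤ ⌈R⌉ := (le_of_not_ge (show ¬R ≤ ‖cx x‖ from hx)).trans (Int.le_ceil R)
      have h3 : |(x.1 : ℝ)| ≤ ⌈R⌉ := (Complex.abs_re_le_norm (cx x)).trans h2
      have h4 : |(x.2 : ℝ)| ≤ ⌈R⌉ := (Complex.abs_im_le_norm (cx x)).trans h2
      exact ⟨abs_le.1 (by exact_mod_cast h3), abs_le.1 (by exact_mod_cast h4)⟩
  have h2 := (h1.comp (Nat.cofinite_eq_atTop ▸ (hF ω).inj.tendsto_cofinite)).comp
    (tendsto_nat_floor_atTop (α := ℝ≥0))
  simp only [e, norm_mul]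
  refine Tendsto.const_mul_atTop (norm_pos_iff.2 (Complex.ofReal_ne_zero.2 hδ))
    (tendsto_atTop_mono (fun t => ?_)
      (tendsto_atTop_add_const_right _ (-3) (h2.const_mul_atTop one_half_pos)))
  have h3 := hB.2.2.2.2.2.1 1 ω t zero_le_one
  have h4 := Apx.pc_near one_half_pos.le (hF ω) ⌊t⌋₊ (s := ⌊t⌋₊) (t := t) (by simp)
    ⟨by exact_mod_cast Nat.floor_le zero_le, by exact_mod_cast (Nat.lt_floor_add_one t).le⟩
  have h5 := norm_sub_norm_le (pc (1 / 2) (fp ω) t) (curve 1 ω t)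
  have h6 := norm_sub_norm_le (pc (1 / 2) (fp ω) ⌊t⌋₊) (pc (1 / 2) (fp ω) t)
  rw [dist_eq_norm'] at h3
  rw [norm_sub_rev _ (pc _ _ t), Apx.pc_nat, norm_mul, Complex.norm_real,
    Real.norm_of_nonneg one_half_pos.le, ← Apx.pc_nat] at h6
  simp only [Function.comp]
  linarith

theorem meas_curve (hF : S_FP) (hB : S_BAS) (δ : ℝ) : Measurable fun ω => Crv.mk (curve δ ω) := by
  rcases eq_or_ne δ 0 with rfl | hδ
  · have : ∀ ω, curve 0 ω = 0 := fun ω => by ext t; simp [curve, interp]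
    simp [this]
  · borelize PC
    exact measurable_crv (hB.2.2.2.2.2.2 δ).1 (curve_trans hF hB hδ)

end Pool.Agent.P.MP_6c8efb_pr.SLE
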