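import Pool.Agent.P.MP_6c8efb_pr.SLE.GMain
import Pool.Agent.P.MP_6c8efb_pr.SLE.MCrv

/-! The final assembly, for every version of the limit curve. -/

open Set Filter Topology MeasureTheory ProbabilityTheory
open scoped NNReal

namespace Pool.Agent.P.MP_6c8efb_pr.SLE

def S_MAIN2 : Prop := ∀ [MeasurableSpace C(ℝ≥0, ℂ)] [BorelSpace C(ℝ≥0, ℂ)],
  (∃ (Ω : Type) (_ : MeasurableSpace Ω) (P : Measure Ω) (_ : IsProbabilityMeasure P)
    (Γ : Ω → C(ℝ≥0, ℂ)), IsSLE6 P Γ) ∧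
  ∃ φ : ℝ → Cfg → ℝ≥0 ≃o ℝ≥0, ∀ (Ω : Type) [MeasurableSpace Ω] (P : Measure Ω)
    [IsProbabilityMeasure P] (Γ : Ω → C(ℝ≥0, ℂ)), IsSLE6 P Γ →
    (∀ᵐ ω ∂P, Tendsto (fun t => ‖Γ ω t‖) atTop atTop) ∧
    TendstoInDistribution (fun δ ω => repar (curve δ ω) (φ δ ω)) (𝓝[>] 0) Γ (fun _ => crit) P ∧
    TendstoInDistribution (fun δ ω => Crv.mk (curve δ ω)) (𝓝[>] 0) (fun ω => Crv.mk (Γ ω))
      (fun _ => crit) P

namespace Glu

theorem aem_path {Ω : Type} [MeasurableSpace Ω] [MeasurableSpace PR] [BorelSpace PR]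
    {P : Measure Ω} {X : Ω → PR} (h : ∀ t, AEMeasurable (fun ω => X ω t) P) : AEMeasurable X P := by
  have hc : Continuous fun (w : PR) (n : ℕ) => w (TopologicalSpace.denseSeq ℝ≥0 n) :=
    continuous_pi fun n => continuous_eval_const _
  refine (hc.measurableEmbedding fun w w' hw => ContinuousMap.coe_injective
    ((TopologicalSpace.denseRange_denseSeq ℝ≥0).equalizer w.continuous w'.continuous
      hw)).aemeasurable_comp_iff.1 (aemeasurable_pi_lambda _ fun n => h _)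

theorem bm_map {Ω : Type} [MeasurableSpace Ω] [MeasurableSpace PR] [BorelSpace PR]
    [MeasurableSpace PC] {P : Measure Ω} {V : Ω → PR × PC} (hV : AEMeasurable V P)
    {B : ℝ≥0 → Ω → ℝ} (hB : IsBrownianReal B P) {a : ℝ} (h : ∀ᵐ ω ∂P, ∀ t, a * (V ω).1 t = B t ω) :
    IsBrownianReal (fun t (p : PR × PC) => a * p.1 t) (P.map V) := by
  refine ⟨⟨fun I => ?_⟩, ae_of_all _ fun p => by fun_prop⟩
  have hm : Measurable fun p : PR × PC => I.restrict fun t => a * p.1 t :=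
    measurable_pi_lambda _ fun t =>
      ((LevyA.cont_ev t).measurable.comp measurable_fst).const_mul a
  refine ⟨hm.aemeasurable, ?_⟩
  rw [AEMeasurable.map_map_of_aemeasurable hm.aemeasurable hV, ← (hB.hasLaw I).map_eq]
  exact Measure.map_congr (h.mono fun ω hω => funext fun t => hω t)

/-- the law of the trace is unique -/
theorem law_eq (hCl : L.S_Closed) (hU : L.S_Uniq) (hN : L.S_Ne) (h0 : L.S_Un0)
    [MeasurableSpace PR] [BorelSpace PR] [MeasurableSpace PC] [BorelSpace PC]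
    {ν : Measure (PR × PC)} [IsProbabilityMeasure ν] (a1 : ∀ᵐ p ∂ν, p ∈ closure L.Good)
    (a2 : IsBrownianReal (fun t (p : PR × PC) => (√6)⁻¹ * p.1 t) ν) {Ω : Type} [MeasurableSpace Ω]
    {P : Measure Ω} [IsProbabilityMeasure P] {Γ : Ω → PC} (h : IsSLE6 P Γ) :
    ν.map Prod.snd = P.map Γ := by
  obtain ⟨hΓ, B, hB, hT⟩ := h
  set W : Ω → PR := fun ω => ContinuousMap.mkD (fun t => √6 * B t ω) 0 with hW
  have e : ∀ᵐ ω ∂P, ∀ t, W ω t = √6 * B t ω := hB.cont.mono fun ω hω t =>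
    ContinuousMap.mkD_apply_of_continuous (continuous_const.mul hω)
  have e' : ∀ᵐ ω ∂P, ∀ t, (√6)⁻¹ * W ω t = B t ω := e.mono fun ω hω t => by
    rw [hω, inv_mul_cancel_left₀ (by positivity)]
  have mW : AEMeasurable W P := aem_path fun t =>
    ((hB.aemeasurable t).const_mul _).congr (e.mono fun ω hω => (hω t).symm)
  have c0 : IsClosed {p : PR × PC | p.2 = 0} := isClosed_eq continuous_snd continuous_const
  have m1 : AEMeasurable (fun p : PR × PC => (p.1, (0 : PC))) ν := by fun_prop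
  have m2 : AEMeasurable (fun ω => (W ω, (0 : PC))) P := by fun_prop
  have := Measure.isProbabilityMeasure_map m1
  have h1 := MainA.uniq c0 (fun p hp p' hp' h => Prod.ext h (hp.trans hp'.symm)) (by positivity)
    ((ae_map_iff m1 c0.measurableSet).2 (ae_of_all _ fun _ => rfl))
    ((ae_map_iff m2 c0.measurableSet).2 (ae_of_all _ fun _ => rfl))
    (bm_map m1 a2 (ae_of_all _ fun _ _ => rfl)) (bm_map m2 hB e')
  have mS : MeasurableSet {p : PR × PC | p.1 ∈ Prod.fst '' closure L.Good} := measurable_fst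
    (isClosed_closure.measurableSet_image_of_continuousOn_injOn continuousOn_fst hU)
  have h2 := (ae_map_iff m1 mS).2 (a1.mono fun p hp => ⟨p, hp, rfl⟩)
  rw [h1, ae_map_iff m2 mS] at h2
  have h3 : ∀ᵐ ω ∂P, (W ω, Γ ω) ∈ closure L.Good := by
    filter_upwards [h2, e, hT] with ω ⟨p, hp, h4⟩ h5 h6
    have h7 : (fun t => √6 * B t ω) = p.1 := funext fun t => by rw [h4, h5]
    rw [h7] at h6
    rwa [← h4, ContinuousMap.coe_injective
      (h0 _ _ _ (Γ ω).continuous p.2.continuous h6 (hCl p hp) (hN p hp))]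
  rw [MainA.uniq isClosed_closure hU (by positivity) a1
    ((ae_map_iff (mW.prodMk hΓ) isClosed_closure.measurableSet).2 h3) a2
    (bm_map (mW.prodMk hΓ) hB e')]
  exact Measure.snd_map_prodMk₀ mW

end Glu

theorem main2 (hF : S_FP) (hT : S_TRANS) (hK : S_CAP) (hB : S_BAS) (hR : S_RAD) (hTi : S_TIGHT)
    (hA : S_APPROX) (h1 : L.S_L1s) (hC : L.S_Cont) (hCl : L.S_Closed) (hU : L.S_Uniq)
    (hN : L.S_Ne) (h0 : L.S_Un0) : S_MAIN2 := by
  intro _ _
  borelize PR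
  obtain ⟨ν, hν, a1, a2, a3⟩ := s_M ℝ Cfg crit (𝓝[>] 0) Dv Cv L.Good cardy
    (fun δ => (hB.2.2.2.1 δ).2.2.2.measurable.aemeasurable)
    (fun δ => (hB.2.2.2.1 δ).2.2.1.measurable.aemeasurable)
    (eventually_mem_nhdsWithin.mono fun δ hδ => ae_of_all _ fun ω => by
      obtain ⟨-, b1, b2⟩ := hK δ ω hδ
      exact ⟨(b2 0).1.trans (hC.1 _ b1.toSimple).2.2.2.2.2.1, b1.zero, b1, fun t => (b2 t).1⟩)
    hU hTi.2 hTi.1 Glu.isCardy hA
  have a4 := s_Slut ℝ Cfg _ crit ν (𝓝[>] 0) Cv (fun δ ω => repar (curve δ ω) (tau δ ω)) _ a3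
    (fun δ => (hB.2.2.2.2.2.2 δ).2.aemeasurable) (Glu.close hB hR)
  refine ⟨⟨PR × PC, inferInstance, ν, hν, Prod.snd, measurable_snd.aemeasurable, _, a2,
    a1.mono fun p hp => ?_⟩, tau, fun Ω _ P _ Γ h => ?_⟩
  · have e : (fun t => √6 * ((√6)⁻¹ * p.1 t)) = p.1 :=
      funext fun t => mul_inv_cancel_left₀ (by positivity) _
    rw [e]
    exact hCl p hp
  · have a5 : TendstoInDistribution (fun δ ω => repar (curve δ ω) (tau δ ω)) (𝓝[>] 0) Γ
        (fun _ => crit) P := ⟨a4.1, h.1, by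
      have := a4.tendsto
      simp only [Glu.law_eq hCl hU hN h0 a1 a2 h] at this
      exact this⟩
    have a6 := s_B2 ℝ Cfg _ crit P (𝓝[>] 0) _ curve _ a5 (Glu.trans hF hK hB hT h1)
      (fun δ ω => cdist_repar _ _) fun δ => (meas_curve hF hB δ).aemeasurable
    exact ⟨a6.1, a5, a6.2⟩

end Pool.Agent.P.MP_6c8efb_pr.SLE
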