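import Pool.Agent.P.MP_6c8efb_pr.SLE.LIface

/-!
Block L of the SLE project: backward properties of the Loewner flow.
-/

namespace Pool.Agent.P.MP_6c8efb_pr.SLE.L

open Set Filter Topology Metric Complex
open scoped NNReal ComplexConjugate

theorem bwd_him {G : ℝ → ℂ} {G' : ℂ} {S : Set ℝ} {s : ℝ} (h : HasDerivWithinAt G G' S s) :
    HasDerivWithinAt (fun x => (G x).im) G'.im S s :=
  imCLM.hasFDerivAt.comp_hasDerivWithinAt s h

theorem bwd_im_div (z : ℂ) (w : ℝ) : (2 / (z - w)).im = -(2 * z.im / normSq (z - w)) := by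
  rw [div_im]; simp

theorem bwd_one {W : ℝ≥0 → ℝ} {t : ℝ≥0} {G : ℝ → ℂ} (h : Sol W t G) :
    (∀ s ∈ Icc (0 : ℝ) t, (G t).im ≤ (G s).im) ∧ ‖G t - G 0‖ ≤ 2 * t / (G t).im := by
  have ht : (t : ℝ) ∈ Icc (0 : ℝ) t := ⟨t.2, le_rfl⟩
  have ha : AntitoneOn (fun x => (G x).im) (Icc (0 : ℝ) t) :=
    antitoneOn_of_hasDerivWithinAt_nonpos (convex_Icc _ _)
      (f' := fun s => (2 / (G s - W s.toNNReal)).im)
      (continuous_im.comp_continuousOn h.continuousOn)
      (fun s hs => (bwd_him (h s (interior_subset hs)).2).mono interior_subset)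
      (fun s hs => by
        have := (h s (interior_subset hs)).1
        simp only [bwd_im_div, neg_nonpos]
        exact div_nonneg (by linarith) (normSq_nonneg _))
  have h1 : ∀ s ∈ Icc (0 : ℝ) t, (G t).im ≤ (G s).im := fun s hs => ha hs ht hs.2
  refine ⟨h1, ?_⟩
  have hp := (h t ht).1
  have := norm_image_sub_le_of_norm_deriv_le_segment' (f := G) (C := 2 / (G t).im)
    (fun s hs => (h s hs).2) (fun s hs => by
      have h2 := h1 s (Ico_subset_Icc_self hs)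
      have h3 : (G s).im ≤ ‖G s - W s.toNNReal‖ := by
        simpa using (le_abs_self _).trans (abs_im_le_norm (G s - W s.toNNReal))
      rw [norm_div, Complex.norm_ofNat]
      exact div_le_div_of_nonneg_left (by norm_num) hp (h2.trans h3)) t ht
  calc _ ≤ _ := this
    _ = _ := by ring

theorem bwd_pj {c : ℝ} {x : ℂ} (h : c ≤ x.im) : pj c x = x := by
  rw [pj, max_eq_right (by linarith)]; simp

theorem bwd_pj_im (c : ℝ) (x : ℂ) : c ≤ (pj c x).im := by
  have := le_max_left (c - x.im) 0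
  simp only [pj, add_im, mul_im, ofReal_re, I_im, ofReal_im, I_re]
  linarith

theorem bwd_refl {t : ℝ} {G : ℝ → ℂ} {G' : ℂ} {s : ℝ}
    (h : HasDerivWithinAt G G' (Icc 0 t) (t - s)) :
    HasDerivWithinAt (fun x => G (t - x)) (-G') (Icc 0 t) s := by
  have h1 : HasDerivWithinAt (fun x : ℝ => t - x) (-1) (Icc 0 t) s :=
    ((hasDerivAt_id s).const_sub t).hasDerivWithinAt
  have := HasDerivWithinAt.scomp s h h1 (fun x hx => ⟨by linarith [hx.2], by linarith [hx.1]⟩)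
  simpa [Function.comp_def] using this

theorem bwd_rev {W : ℝ≥0 → ℝ} {t : ℝ≥0} {G : ℝ → ℂ} {c : ℝ} (h : Sol W t G)
    (hc : c ≤ (G t).im) :
    TSol (-2) c (fun s => W (t - s).toNNReal) t fun s => G (t - s) := by
  intro s hs
  have hs' : (t : ℝ) - s ∈ Icc (0 : ℝ) t := ⟨by linarith [hs.2], by linarith [hs.1]⟩
  have := bwd_refl (h _ hs').2
  rw [bwd_pj (hc.trans ((bwd_one h).1 _ hs')), neg_div]
  exact this

theorem bwd_two (hFlow : S_Flow) {W : ℝ≥0 → ℝ} (t : ℝ≥0) (hW : Continuous W) {w : ℂ}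
    (hw : w ∈ HH) : ∃ G, G t = w ∧ Sol W t G := by
  have hw' : 0 < w.im := hw
  obtain ⟨B, hB0, hB⟩ := (hFlow (-2) w.im t (by simp) hw' t.2).1
    (fun s => W (t - s).toNNReal)
    (hW.comp (continuous_real_toNNReal.comp (continuous_const.sub continuous_id))) w
  have hm : MonotoneOn (fun x => (B x).im) (Icc (0 : ℝ) t) :=
    monotoneOn_of_hasDerivWithinAt_nonneg (convex_Icc _ _)
      (f' := fun s => (-2 / (pj w.im (B s) - W (t - s).toNNReal)).im)
      (continuous_im.comp_continuousOn fun s hs => (hB s hs).continuousWithinAt)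
      (fun s hs => (bwd_him (hB s (interior_subset hs))).mono interior_subset)
      (fun s _ => by
        have := bwd_pj_im w.im (B s)
        simp only [neg_div, neg_im, bwd_im_div, neg_neg]
        exact div_nonneg (by linarith) (normSq_nonneg _))
  have h1 : ∀ s ∈ Icc (0 : ℝ) t, w.im ≤ (B s).im := fun s hs => by
    have := hm ⟨le_rfl, t.2⟩ hs hs.1
    simpa [hB0] using this
  refine ⟨fun s => B (t - s), by simpa using hB0, fun s hs => ?_⟩
  have hs' : (t : ℝ) - s ∈ Icc (0 : ℝ) t := ⟨by linarith [hs.2], by linarith [hs.1]⟩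
  refine ⟨hw'.trans_le (h1 _ hs'), ?_⟩
  have := bwd_refl (hB _ hs')
  rw [bwd_pj (h1 _ hs'), neg_div, neg_neg] at this
  simpa using this

theorem bwd_three (hFlow : S_Flow) {W : ℝ≥0 → ℝ} {t : ℝ≥0} {G : ℝ → ℂ} (h : Sol W t G) {ε : ℝ}
    (hε : 0 < ε) : ∃ δ : ℝ, 0 < δ ∧ ∀ (W' : ℝ≥0 → ℝ) (G' : ℝ → ℂ),
      (∀ u ≤ t, |W u - W' u| ≤ δ) → Sol W' t G' → ‖G' t - G t‖ ≤ δ → ‖G' 0 - G 0‖ ≤ ε := by
  have ht : (t : ℝ) ∈ Icc (0 : ℝ) t := ⟨t.2, le_rfl⟩
  have hp := (h t ht).1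
  obtain ⟨c, hc⟩ : ∃ c, c = (G t).im / 2 := ⟨_, rfl⟩
  have hc0 : 0 < c := by linarith
  obtain ⟨E, hE⟩ : ∃ E, E = Real.exp (2 * t / c ^ 2) := ⟨_, rfl⟩
  have hE0 : 0 < E := hE ▸ Real.exp_pos _
  refine ⟨min c (ε / (2 * E)), by positivity, fun W' G' hW h' hd => ?_⟩
  have h1 : c ≤ (G' t).im := by
    have h2 := (abs_im_le_norm (G' t - G t)).trans (hd.trans (min_le_left _ _))
    rw [sub_im] at h2
    linarith [(abs_le.1 h2).1]
  have := (hFlow (-2) c t (by simp) hc0 t.2).2 _ _ _ _ _ (bwd_rev h' h1)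
    (bwd_rev h (by linarith)) (fun s hs => by
      rw [abs_sub_comm]
      exact hW _ (toNNReal_le ⟨by linarith [hs.2], by linarith [hs.1]⟩)) t ht
  simp only [sub_self, sub_zero, ← hE] at this
  have h3 := min_le_right c (ε / (2 * E))
  calc _ ≤ _ := this
    _ ≤ (ε / (2 * E) + ε / (2 * E)) * E := by gcongr; exact hd.trans h3
    _ = ε := by field_simp; ring

theorem s_Bwd (hFlow : S_Flow) : S_Bwd := by
  intro W t hW
  refine ⟨fun G h => bwd_one h, fun w hw => bwd_two hFlow t hW hw, fun G h ε hε => ?_,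
    fun G h => ?_⟩
  · obtain ⟨δ, h1, h2⟩ := bwd_three hFlow h hε
    exact ⟨δ, h1, fun W' G' _ => h2 W' G'⟩
  have hp := (h t ⟨t.2, le_rfl⟩).1
  have key : ∀ y : ℝ, ∃ F : ℝ → ℂ, 0 ≤ y → F t = G t + y * I ∧ Sol W t F := fun y => by
    by_cases hy : 0 ≤ y
    · obtain ⟨F, hF⟩ := bwd_two hFlow t hW (w := G t + y * I) (by
        simp only [mem_HH, add_im, mul_im, ofReal_re, I_im, ofReal_im, I_re]; linarith)
      exact ⟨F, fun _ => hF⟩
    · exact ⟨G, fun h' => absurd h' hy⟩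
  choose F hF using key
  refine ⟨(fun y => F y 0) '' Ici 0, isPreconnected_Ici.image _ ?_, fun hb => ?_,
    ⟨0, self_mem_Ici, ?_⟩, ?_⟩
  · rw [Metric.continuousOn_iff]
    intro y hy ε hε
    obtain ⟨δ, h1, h2⟩ := bwd_three hFlow (hF y hy).2 (half_pos hε)
    refine ⟨δ, h1, fun x hx hd => ?_⟩
    rw [dist_eq_norm]
    refine (h2 W (F x) (fun u _ => by simpa using h1.le) (hF x hx).2 ?_).trans_lt (half_lt_self hε)
    rw [(hF x hx).1, (hF y hy).1, add_sub_add_left_eq_sub, ← sub_mul, norm_mul, norm_I, mul_one,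
      ← ofReal_sub, norm_real]
    exact hd.le
  · obtain ⟨R, hR, hs⟩ := hb.subset_closedBall_lt 0 0
    have h1 := hs ⟨R, hR.le, rfl⟩
    have h2 := (bwd_one (hF R hR.le).2).1 0 ⟨le_rfl, t.2⟩
    have h3 := (le_abs_self _).trans (abs_im_le_norm (F R 0))
    rw [(hF R hR.le).1] at h2
    simp only [add_im, mul_im, ofReal_re, I_im, ofReal_im, I_re, mem_closedBall,
      dist_zero_right] at h1 h2
    linarith
  · refine eq_of_sub_eq_zero (norm_le_zero_iff.1 (le_of_forall_pos_le_add fun ε hε => ?_))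
    obtain ⟨δ, h1, h2⟩ := bwd_three hFlow h hε
    rw [zero_add]
    exact h2 W (F 0) (fun u _ => by simpa using h1.le) (hF 0 le_rfl).2
      (by rw [(hF 0 le_rfl).1]; simpa using h1.le)
  · rintro _ ⟨y, hy, rfl⟩
    exact ⟨F y, rfl, (hF y hy).2⟩

end Pool.Agent.P.MP_6c8efb_pr.SLE.L
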