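import Pool.Agent.P.MP_6c8efb_pr.SLE.LIface

/-!
Consequences of a bound for the length of the image of a circle.
-/

namespace Pool.Agent.P.MP_6c8efb_pr.SLE.L

open Set Filter Topology Metric Complex MeasureTheory

theorem cl_hasDerivAt (c : ℂ) (s θ : ℝ) :
    HasDerivAt (fun θ : ℝ => c + s * cexp (θ * I)) (s * (cexp (θ * I) * I)) θ := by
  have h1 : HasDerivAt (fun θ : ℝ => (θ : ℂ) * I) I θ := by
    simpa using (Complex.ofRealCLM.hasDerivAt (x := θ)).mul_const I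
  exact (h1.cexp.const_mul (s : ℂ)).const_add c

theorem cl_open {U : Set ℂ} (hU : IsOpen U) (c : ℂ) (s : ℝ) :
    IsOpen {θ : ℝ | θ ∈ Ioo (-Real.pi) Real.pi ∧ c + s * cexp (θ * I) ∈ U} :=
  isOpen_Ioo.inter (hU.preimage (f := fun θ : ℝ => c + s * cexp (θ * I)) (by fun_prop))

theorem cl_deriv {F : ℂ → ℂ} {U : Set ℂ} (hU : IsOpen U) (hF : DifferentiableOn ℂ F U) (c : ℂ)
    (s : ℝ) (ℓ : ℂ →L[ℝ] ℝ) {θ : ℝ} (h : c + s * cexp (θ * I) ∈ U) :
    HasDerivAt (fun θ : ℝ => ℓ (F (c + s * cexp (θ * I))))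
      (ℓ (deriv F (c + s * cexp (θ * I)) * (s * (cexp (θ * I) * I)))) θ := by
  have h1 : HasDerivAt F (deriv F (c + s * cexp (θ * I))) (c + s * cexp (θ * I)) :=
    (hF.differentiableAt (hU.mem_nhds h)).hasDerivAt
  have h2 := (h1.hasFDerivAt.restrictScalars ℝ).comp_hasDerivAt θ (cl_hasDerivAt c s θ)
  have h3 := ℓ.hasFDerivAt.comp_hasDerivAt θ h2
  refine (h3.congr_deriv ?_ :)
  simp [mul_comm]

theorem cl_vol {F : ℂ → ℂ} {U : Set ℂ} (hU : IsOpen U) (hF : DifferentiableOn ℂ F U) (c : ℂ)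
    {s : ℝ} (hs : 0 < s) (ℓ : ℂ →L[ℝ] ℝ) (hℓ : ∀ w, |ℓ w| ≤ ‖w‖) :
    volume ((fun θ : ℝ => ℓ (F (c + s * cexp (θ * I)))) ''
      {θ : ℝ | θ ∈ Ioo (-Real.pi) Real.pi ∧ c + s * cexp (θ * I) ∈ U}) ≤ clen F U c s := by
  have h := addHaar_image_le_lintegral_abs_det_fderiv volume (cl_open hU c s).measurableSet
    (fun θ hθ => (cl_deriv hU hF c s ℓ hθ.2).hasDerivWithinAt.hasFDerivWithinAt)
  refine h.trans (lintegral_mono fun θ => ?_)
  simp only [ContinuousLinearMap.det_toSpanSingleton]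
  refine ENNReal.ofReal_le_ofReal ((hℓ _).trans (le_of_eq ?_))
  simp [Complex.norm_exp_ofReal_mul_I, abs_of_pos hs]

theorem cl_vol' {F : ℂ → ℂ} {U : Set ℂ} (hU : IsOpen U) (hF : DifferentiableOn ℂ F U) (c : ℂ)
    {s : ℝ} (hs : 0 < s) (ℓ : ℂ →L[ℝ] ℝ) (hℓ : ∀ w, |ℓ w| ≤ ‖w‖) :
    volume (ℓ '' (F '' (U ∩ sphere c s))) ≤ clen F U c s := by
  refine le_trans ?_ (cl_vol hU hF c hs ℓ hℓ)
  refine le_trans (measure_mono ?_) ((measure_union_le {ℓ (F (c - s))} _).trans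
    ((add_le_add_left Real.volume_singleton.le _).trans_eq (zero_add _)))
  rintro _ ⟨_, ⟨z, ⟨hzU, hz⟩, rfl⟩, rfl⟩
  rw [mem_sphere, dist_eq_norm] at hz
  have h1 : c + s * cexp ((arg (z - c) : ℝ) * I) = z := by
    rw [← hz, Complex.norm_mul_exp_arg_mul_I]; ring
  rcases (Complex.arg_le_pi (z - c)).eq_or_lt with h | h
  · left
    rw [h, Complex.exp_pi_mul_I] at h1
    rw [mem_singleton_iff, ← h1]
    congr 2
    ring
  · right
    exact ⟨arg (z - c), ⟨⟨Complex.neg_pi_lt_arg _, h⟩, by rw [h1]; exact hzU⟩, by simp only [h1]⟩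

theorem s_Cl : S_Cl := by
  intro F U c s hU hF hs
  refine ⟨cl_vol' hU hF c hs reCLM abs_re_le_norm, cl_vol' hU hF c hs imCLM abs_im_le_norm, ?_⟩
  intro α β hα hαβ hβ hin
  obtain ⟨ℓ, hℓ, hℓ'⟩ :=
    exists_dual_vector'' ℝ (F (c + s * cexp (β * I)) - F (c + s * cexp (α * I)))
  refine le_trans ?_ (cl_vol hU hF c hs ℓ fun w => ?_)
  · have hc : ContinuousOn (fun θ : ℝ => ℓ (F (c + s * cexp (θ * I)))) (Icc α β) := fun θ hθ =>
      (cl_deriv hU hF c s ℓ (hin θ hθ)).continuousAt.continuousWithinAt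
    have h1 := intermediate_value_Icc hαβ hc
    refine le_trans ?_ (measure_mono (h1.trans (image_mono fun θ hθ =>
      ⟨⟨hα.trans_le hθ.1, hθ.2.trans_lt hβ⟩, hin θ hθ⟩)))
    rw [Real.volume_Icc, ← map_sub, hℓ']
    simp
  · simpa using (ℓ.le_opNorm w).trans (mul_le_of_le_one_left (norm_nonneg w) hℓ)

end Pool.Agent.P.MP_6c8efb_pr.SLE.L
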