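import Pool.Agent.P.MP_6c8efb_pr.SLE.LIface

/-!
Block L of the SLE project: time changes and the capacity parametrisation.
-/

namespace Pool.Agent.P.MP_6c8efb_pr.SLE.L

open Set Filter Topology Metric Complex
open scoped NNReal ComplexConjugate

theorem clock_hull (η : ℝ≥0 → ℂ) (φ : ℝ≥0 ≃o ℝ≥0) (t : ℝ≥0) :
    hull (η ∘ φ) t = hull η (φ t) := by
  have h0 : φ 0 = 0 := φ.map_bot
  rw [hull, hull, image_comp, φ.image_Ioc, h0]

theorem clock_gt (η : ℝ≥0 → ℂ) (φ : ℝ≥0 ≃o ℝ≥0) (t : ℝ≥0) : gt (η ∘ φ) t = gt η (φ t) := by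
  rw [gt, gt, clock_hull]

theorem clock_ft (η : ℝ≥0 → ℂ) (φ : ℝ≥0 ≃o ℝ≥0) (t : ℝ≥0) : ft (η ∘ φ) t = ft η (φ t) := by
  rw [ft, ft, clock_hull]

theorem clock_ct (η : ℝ≥0 → ℂ) (φ : ℝ≥0 ≃o ℝ≥0) (t : ℝ≥0) : ct (η ∘ φ) t = ct η (φ t) := by
  rw [ct, ct, clock_hull]

theorem clock_simple {η : ℝ≥0 → ℂ} (h : Simple η) (φ : ℝ≥0 ≃o ℝ≥0) : Simple (η ∘ φ) where
  cont := h.cont.comp φ.continuous
  inj := h.inj.comp φ.injective
  zero := by
    have h0 : φ 0 = 0 := φ.map_bot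
    simp only [Function.comp_apply, h0, h.zero]
  pos := fun t ht => by
    have h0 : φ 0 = 0 := φ.map_bot
    exact h.pos (φ t) (h0 ▸ φ.strictMono ht)
  hyd := fun t => by rw [clock_hull, clock_gt, clock_ft, clock_ct]; exact h.hyd _
  sym := fun t => by rw [clock_hull, clock_gt, clock_ft]; exact h.sym _

theorem clock_drv (hTip : S_Tip) {η : ℝ≥0 → ℂ} (h : Simple η) (φ : ℝ≥0 ≃o ℝ≥0) (t : ℝ≥0) :
    drv (η ∘ φ) t = drv η (φ t) := by
  have h1 : Tendsto φ (𝓝[>] t) (𝓝[>] (φ t)) :=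
    tendsto_nhdsWithin_iff.2 ⟨(φ.continuous.tendsto t).mono_left nhdsWithin_le_nhds,
      eventually_nhdsWithin_of_forall fun u hu => φ.strictMono hu⟩
  have h2 := ((hTip η h).1 (φ t)).comp h1
  have h3 := (hTip _ (clock_simple h φ)).1 t
  rw [clock_gt] at h3
  exact_mod_cast tendsto_nhds_unique h3 h2

theorem s_Clock (hTip : S_Tip) (hCont : S_Cont) (hHgt : S_Hgt) : S_Clock := by
  refine ⟨fun η h φ => ⟨clock_simple h φ, clock_hull η φ, clock_drv hTip h φ⟩, fun η h hu => ?_⟩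
  obtain ⟨hc, hm, h0, hg, -⟩ := hCont.1 η h
  have hn : ∀ t, 0 ≤ ct η t := fun t => h0 ▸ hm.monotone (zero_le : 0 ≤ t)
  let ψ : ℝ≥0 → ℝ≥0 := fun t => ⟨ct η t / 2, by have := hn t; positivity⟩
  have hψ : ∀ t, (ψ t : ℝ) = ct η t / 2 := fun _ => rfl
  have hψm : StrictMono ψ := fun s t hst => by
    rw [← NNReal.coe_lt_coe, hψ, hψ]
    linarith [hm hst]
  have hψc : Continuous ψ := (hc.div_const 2).subtype_mk _
  have hψ0 : ψ 0 = 0 := by
    apply NNReal.eq; rw [hψ, h0]; simp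
  have hψs : Function.Surjective ψ := by
    intro y
    obtain ⟨u, hu⟩ := hu (2 * y + 1)
    have hy : (0 : ℝ) ≤ y := y.2
    have hu0 : 0 < u := by
      rcases eq_or_lt_of_le (zero_le : 0 ≤ u) with rfl | h1
      · rw [h.zero] at hu; simp at hu; linarith
      · exact h1
    have h1 := hHgt η h 0 u hu0
    rw [hg _ (h.pos u hu0), h0] at h1
    have h2 : y ≤ ψ u := by
      rw [← NNReal.coe_le_coe, hψ]
      nlinarith
    obtain ⟨t, -, ht⟩ := intermediate_value_Icc (zero_le : 0 ≤ u) hψc.continuousOn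
      ⟨hψ0.le.trans (zero_le : 0 ≤ y), h2⟩
    exact ⟨t, ht⟩
  have key : ∀ t, ct η ((hψm.orderIsoOfSurjective ψ hψs).symm t) = 2 * t := by
    intro t
    have h1 : ψ ((hψm.orderIsoOfSurjective ψ hψs).symm t) = t :=
      (hψm.orderIsoOfSurjective ψ hψs).apply_symm_apply t
    have h2 := hψ ((hψm.orderIsoOfSurjective ψ hψs).symm t)
    rw [h1] at h2
    linarith
  exact ⟨_, ⟨clock_simple h _, fun t => by rw [clock_ct]; exact key t⟩, key⟩

end Pool.Agent.P.MP_6c8efb_pr.SLE.L
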