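import Pool.Agent.P.MP_6c8efb_pr.SLE.LIface

/-!
Block L of the SLE project: limits of discrete pairs are traces.
-/

namespace Pool.Agent.P.MP_6c8efb_pr.SLE.L

open Set Filter Topology Metric Complex
open scoped NNReal ComplexConjugate

/-- A starting point of a solution is not on the limit curve. -/
theorem closed_avoid (hCont : S_Cont) (hFwd : S_Fwd) (hTrace : S_Trace)
    {p : C(ℝ≥0, ℝ) × C(ℝ≥0, ℂ)} (hp : p ∈ closure Good) {t : ℝ≥0} {G : ℝ → ℂ}
    (hG : Sol p.1 t G) : G 0 ∈ HH \ p.2 '' Iic t := by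
  have h0 : (0 : ℝ) ∈ Icc (0 : ℝ) t := ⟨le_rfl, t.2⟩
  refine ⟨(hG 0 h0).1, ?_⟩
  rintro ⟨u, hu, e⟩
  obtain ⟨δ, hδ, h⟩ := (hFwd p.1 t p.1.continuous).2.2.1 G hG 1 one_pos
  obtain ⟨η, hη, hc⟩ := approx hp t hδ
  have hW : Continuous (drv η) := (hCont.1 η hη.toSimple).2.2.2.2.1
  obtain ⟨G', g0, gs, -⟩ := h (drv η) (η u) hW (fun v hv => (hc v hv).1)
    (by rw [← e, norm_sub_rev]; exact (hc u hu).2)
  have hH : η u ∈ HH := by rw [← g0]; exact (gs 0 h0).1
  have hA : Alive (drv η) t (η u) := ((hFwd (drv η) t hW).1 _ hH).2 ⟨G', g0, gs⟩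
  have hU := ((hTrace η hη).2.2 t _ hH).1 hA
  rw [connectedComponentIn_eq_empty (fun h => h.2 ⟨u, hu, rfl⟩)] at hU
  exact hU Bornology.isBounded_empty

/-- The images of `y` under the approximating chains stay at a positive height. -/
def closed_P (γ : ℝ≥0 → ℂ) (t : ℝ≥0) (y : ℂ) : Prop :=
  ∃ c d : ℝ, 0 < c ∧ 0 < d ∧ ∀ η : ℝ≥0 → ℂ, CapPar η → (∀ u ≤ t, ‖γ u - η u‖ ≤ d) →
    y ∈ HH \ hull η t ∧ ∀ s ≤ t, c ≤ (gt η s y).im

theorem closed_local {γ : ℝ≥0 → ℂ} {t : ℝ≥0} {y₀ : ℂ} {e : ℝ} (he : 0 < e)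
    (hb : ball y₀ (7 * e) ⊆ HH \ γ '' Iic t) {y y' : ℂ} (hy : y ∈ ball y₀ (e / 2))
    (hy' : y' ∈ ball y₀ (e / 2)) (h : closed_P γ t y) : closed_P γ t y' := by
  obtain ⟨c, d, hc, hd, h⟩ := h
  rw [mem_ball, dist_eq_norm] at hy hy'
  have hn : ‖y' - y‖ < e := by
    have := norm_sub_le (y' - y₀) (y - y₀)
    rw [sub_sub_sub_cancel_right] at this
    linarith
  refine ⟨c / 2, min d e, by positivity, lt_min hd he, fun η hη hcl => ?_⟩
  have hs : ball y (5 * e) ⊆ HH \ hull η t := by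
    intro w hw
    rw [mem_ball, dist_eq_norm] at hw
    have h1 : ‖w - y₀‖ < 6 * e := by
      have := norm_add_le (w - y) (y - y₀)
      rw [sub_add_sub_cancel] at this
      linarith
    refine ⟨(hb (by rw [mem_ball, dist_eq_norm]; linarith)).1, ?_⟩
    rintro ⟨u, hu, rfl⟩
    have h2 := (hcl u hu.2).trans (min_le_right _ _)
    have h3 : γ u ∈ ball y₀ (7 * e) := by
      rw [mem_ball, dist_eq_norm]
      have := norm_add_le (γ u - η u) (η u - y₀)
      rw [sub_add_sub_cancel] at this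
      linarith
    exact (hb h3).2 ⟨u, hu.2, rfl⟩
  have hy5 : y' ∈ ball y (5 * e) := by rw [mem_ball, dist_eq_norm]; linarith
  refine ⟨hs hy5, fun s hst => ?_⟩
  have hs' := hs.trans (D_anti η hst)
  have h1 := harn_im ((hη.hyd s).dg.mono hs') (fun w hw => le_of_lt ((hη.hyd s).mg (hs' hw))) hy5
  have h2 := (h η hη fun u hu => (hcl u hu).trans (min_le_left _ _)).2 s hst
  have h3 : 2 * (gt η s y).im * ‖y' - y‖ / (5 * e - ‖y' - y‖) ≤ (gt η s y).im / 2 := by
    rw [div_le_div_iff₀ (by linarith) two_pos]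
    nlinarith [norm_nonneg (y' - y)]
  have h4 := (abs_le.1 ((abs_im_le_norm _).trans (h1.trans h3))).1
  rw [sub_im] at h4
  linarith

theorem closed_conn {γ : ℝ≥0 → ℂ} (hγ : Continuous γ) {t : ℝ≥0} {V : Set ℂ}
    (hV : IsPreconnected V) (hs : V ⊆ HH \ γ '' Iic t) {x y : ℂ} (hx : x ∈ V) (hy : y ∈ V)
    (h : closed_P γ t x) : closed_P γ t y := by
  have ho : IsOpen (HH \ γ '' Iic t) := isOpen_HH.sdiff ((isCompact_Iic' t).image hγ).isClosed
  refine hV.induction₂' (fun x y => closed_P γ t x → closed_P γ t y) (fun y₀ h0 => ?_)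
    (fun _ _ _ _ _ _ h1 h2 h3 => h2 (h1 h3)) hx hy h
  obtain ⟨r, hr, hb⟩ := Metric.isOpen_iff.1 ho y₀ (hs h0)
  have he : 0 < r / 7 := by positivity
  have hb' : ball y₀ (7 * (r / 7)) ⊆ HH \ γ '' Iic t := by
    rwa [mul_div_cancel₀ _ (by norm_num : (7 : ℝ) ≠ 0)]
  have h2 : 0 < r / 7 / 2 := by positivity
  filter_upwards [mem_nhdsWithin_of_mem_nhds (ball_mem_nhds y₀ h2)] with w hw
  exact ⟨closed_local he hb' (mem_ball_self h2) hw, closed_local he hb' hw (mem_ball_self h2)⟩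

theorem closed_far (hL1 : S_L1) {γ : ℝ≥0 → ℂ} {t : ℝ≥0} {R : ℝ} (hR : 0 < R)
    (hb : ∀ u ≤ t, ‖γ u‖ ≤ R) : closed_P γ t (((13 * (R + 1) : ℝ) : ℂ) * I) := by
  refine ⟨1, 1, one_pos, one_pos, fun η hη hcl => ?_⟩
  have h1 : ∀ u ≤ t, ‖η u‖ ≤ R + 1 := fun u hu => by
    have := norm_sub_le (γ u) (γ u - η u)
    rw [sub_sub_cancel] at this
    linarith [hb u hu, hcl u hu]
  have h2 : (((13 * (R + 1) : ℝ) : ℂ) * I) ∈ HH \ hull η t := by
    refine ⟨by simp only [mem_HH, im_ofReal_mul, I_im]; positivity, fun h => ?_⟩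
    have := hull_subset_ball h1 h
    rw [mem_closedBall_zero_iff, norm_mul, norm_real, norm_I, Real.norm_eq_abs,
      abs_of_pos (by positivity)] at this
    linarith
  refine ⟨h2, fun s hs => ?_⟩
  have h3 := ((hL1 _ _ _ _ (hη.hyd s)).1 0 (R + 1) (by positivity)
    (by simpa using (hull_mono η hs).trans (hull_subset_ball h1))).2.2.2 _ (D_anti η hs h2)
  have h4 := (abs_le.1 ((abs_im_le_norm _).trans h3)).1
  rw [sub_im, im_ofReal_mul, I_im] at h4
  linarith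

theorem s_Closed (hL1 : S_L1) (hCont : S_Cont) (hOde : S_Ode) (hFwd : S_Fwd) (hBwd : S_Bwd)
    (hTrace : S_Trace) : S_Closed := by
  intro p hp
  refine ⟨?_, fun t => ?_, fun t z hz => ⟨fun hA => ?_, fun hU => ?_⟩⟩
  · have h : ∀ δ : ℝ, 0 < δ → |p.1 0| ≤ δ ∧ ‖p.2 0‖ ≤ δ := fun δ hδ => by
      obtain ⟨η, hη, hc⟩ := approx hp 0 hδ
      have := hc 0 le_rfl
      rwa [(hCont.1 η hη.toSimple).2.2.2.2.2.1, hη.zero, sub_zero, sub_zero] at this
    have h1 : p.1 0 = 0 := abs_nonpos_iff.1 (le_of_forall_pos_le_add fun δ hδ => by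
      simpa using (h δ hδ).1)
    have h2 : p.2 0 = 0 := norm_le_zero_iff.1 (le_of_forall_pos_le_add fun δ hδ => by
      simpa using (h δ hδ).2)
    rw [h1, h2, ofReal_zero]
  · refine le_of_forall_pos_le_add fun δ hδ => ?_
    obtain ⟨η, hη, hc⟩ := approx hp t hδ
    have h1 := (abs_le.1 ((abs_im_le_norm _).trans (hc t le_rfl).2)).1
    rw [sub_im] at h1
    linarith [hη.toSimple.toCurve.im_nonneg t]
  · obtain ⟨G, rfl, hG⟩ := ((hFwd p.1 t p.1.continuous).1 z hz).1 hA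
    obtain ⟨Z, z1, z2, z3, z4⟩ := (hBwd p.1 t p.1.continuous).2.2.2 G hG
    refine fun h => z2 (h.subset (z1.subset_connectedComponentIn z3 fun y hy => ?_))
    obtain ⟨G', rfl, hG'⟩ := z4 y hy
    exact closed_avoid hCont hFwd hTrace hp hG'
  · obtain ⟨R, hR, hb⟩ := exists_bound p.2.continuous t
    have hzD : z ∈ HH \ p.2 '' Iic t := by
      by_contra h
      rw [connectedComponentIn_eq_empty h] at hU
      exact hU Bornology.isBounded_empty
    obtain ⟨w, hw, hwR⟩ : ∃ w ∈ connectedComponentIn (HH \ p.2 '' Iic t) z, R < ‖w‖ := by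
      by_contra h
      push Not at h
      exact hU ((isBounded_closedBall (x := (0 : ℂ)) (r := R)).subset fun w hw =>
        mem_closedBall_zero_iff.2 (h w hw))
    have hE : {w ∈ HH | R < ‖w - (0 : ℝ)‖} ⊆ HH \ p.2 '' Iic t := by
      rintro y ⟨h1, h2⟩
      refine ⟨h1, ?_⟩
      rintro ⟨u, hu, rfl⟩
      rw [ofReal_zero, sub_zero] at h2
      linarith [hb u hu]
    have hw1 : closed_P p.2 t w := by
      refine closed_conn p.2.continuous (preconn_ext 0 R) hE ⟨?_, ?_⟩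
        ⟨(connectedComponentIn_subset _ _ hw).1, by simpa using hwR⟩ (closed_far hL1 hR hb)
      · simp only [mem_HH, im_ofReal_mul, I_im]; positivity
      · rw [ofReal_zero, sub_zero, norm_mul, norm_real, norm_I, Real.norm_eq_abs,
          abs_of_pos (by positivity)]
        linarith
    obtain ⟨c, d, hc, hd, h⟩ := closed_conn p.2.continuous isPreconnected_connectedComponentIn
      (connectedComponentIn_subset _ _) hw (mem_connectedComponentIn hzD) hw1
    refine ((hFwd p.1 t p.1.continuous).1 z hz).2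
      ((hFwd p.1 t p.1.continuous).2.2.2 z c hc fun δ hδ => ?_)
    obtain ⟨η, hη, hcl⟩ := approx hp t (lt_min hδ hd)
    obtain ⟨h1, h2⟩ := h η hη fun u hu => (hcl u hu).2.trans (min_le_right _ _)
    refine ⟨drv η, fun s => gt η s.toNNReal z, fun u hu => (hcl u hu).1.trans (min_le_left _ _),
      hOde η hη t z h1, ?_, fun s hs => h2 _ (toNNReal_le hs)⟩
    simp only [Real.toNNReal_zero]
    exact (hCont.1 η hη.toSimple).2.2.2.1 z hz

end Pool.Agent.P.MP_6c8efb_pr.SLE.L
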