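import Pool.Agent.P.MP_6c8efb_pr.SLE.LIface

namespace Pool.Agent.P.MP_6c8efb_pr.SLE.L

open Set Filter Topology Metric Complex

theorem comp_mem {K₁ K₂ : Set ℂ} {g₁ f₁ g₂ f₂ : ℂ → ℂ} {a₁ a₂ : ℝ} (h1 : Hyd K₁ g₁ f₁ a₁)
    (h2 : Hyd K₂ g₂ f₂ a₂) (w : ℂ) :
    w ∈ HH \ g₁ '' (K₂ \ K₁) ↔ w ∈ HH ∧ f₁ w ∈ HH \ K₂ := by
  constructor
  · rintro ⟨hw, hn⟩
    refine ⟨hw, (h1.mf hw).1, fun hk => hn ⟨f₁ w, ⟨hk, (h1.mf hw).2⟩, h1.gf w hw⟩⟩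
  · rintro ⟨hw, hz⟩
    refine ⟨hw, ?_⟩
    rintro ⟨z, hz2, rfl⟩
    rw [h1.fg z ⟨h2.sub hz2.1, hz2.2⟩] at hz
    exact hz.2 hz2.1

theorem comp_est {z w u : ℂ} {a₁ a₂ e η : ℝ} (hz : z ≠ 0) (h1 : ‖z * (w - z) - a₁‖ ≤ η)
    (h2 : ‖z * (u - z) - a₂‖ ≤ η) (hη : η ≤ 1)
    (hR : (|a₁| + 1) * (|a₂ - a₁| + 2) ≤ e * ‖z‖ ^ 2) :
    ‖w * (u - w) - ((a₂ - a₁ : ℝ) : ℂ)‖ ≤ 2 * η + e := by
  set A := z * (u - z) - a₂ with hA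
  set B := z * (w - z) - a₁ with hB
  have e1 : w * (u - w) - ((a₂ - a₁ : ℝ) : ℂ) =
      (A - B) + ((a₁ : ℂ) + B) * (((a₂ - a₁ : ℝ) : ℂ) + (A - B)) / z ^ 2 := by
    rw [hA, hB]; push_cast; field_simp; ring
  have hAB : ‖A - B‖ ≤ 2 * η := (norm_sub_le _ _).trans (by linarith)
  have n1 : ‖(a₁ : ℂ) + B‖ ≤ |a₁| + 1 := (norm_add_le _ _).trans (by
    rw [Complex.norm_real, Real.norm_eq_abs]; linarith)
  have n2 : ‖((a₂ - a₁ : ℝ) : ℂ) + (A - B)‖ ≤ |a₂ - a₁| + 2 := (norm_add_le _ _).trans (by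
    rw [Complex.norm_real, Real.norm_eq_abs]; linarith)
  have hz2 : 0 < ‖z‖ ^ 2 := pow_pos (norm_pos_iff.2 hz) 2
  rw [e1]
  refine (norm_add_le _ _).trans (add_le_add hAB ?_)
  rw [norm_div, norm_mul, norm_pow, div_le_iff₀ hz2]
  exact (mul_le_mul n1 n2 (norm_nonneg _) (by positivity)).trans hR

theorem s_Comp (hProp : S_Prop) : S_Comp := by
  intro K₁ g₁ f₁ a₁ K₂ g₂ f₂ a₂ h1 h2 hK
  have hsub : HH \ K₂ ⊆ HH \ K₁ := sdiff_subset_sdiff_right hK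
  have hm := comp_mem h1 h2
  obtain ⟨-, -, p3, p4, -, -⟩ := hProp _ _ _ _ h1
  have hset : HH \ g₁ '' (K₂ \ K₁) = g₁ '' (HH \ K₂) := by
    ext w
    rw [hm]
    constructor
    · rintro ⟨hw, hz⟩
      exact ⟨f₁ w, hz, h1.gf w hw⟩
    · rintro ⟨z, hz, rfl⟩
      exact ⟨h1.mg (hsub hz), by rw [h1.fg z (hsub hz)]; exact hz⟩
  refine ⟨⟨?_, ?_, ?_, ?_, ?_, ?_, ?_, ?_, ?_, ?_, ?_⟩, hset⟩
  · rintro _ ⟨z, hz, rfl⟩
    exact h1.mg ⟨h2.sub hz.1, hz.2⟩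
  · obtain ⟨R, -, hR⟩ := h2.exists_radius
    obtain ⟨M, hM⟩ := h1.loc R
    refine (isBounded_closedBall (x := (0 : ℂ)) (r := M)).subset ?_
    rintro _ ⟨z, hz, rfl⟩
    simpa using hM z ⟨h2.sub hz.1, hz.2⟩ (by simpa using hR hz.1)
  · have : HH \ g₁ '' (K₂ \ K₁) = HH ∩ f₁ ⁻¹' (HH \ K₂) := by
      ext w; rw [hm]; rfl
    rw [this]
    exact h1.df.continuousOn.isOpen_inter_preimage isOpen_HH h2.opn
  · exact h2.dg.comp (h1.df.mono sdiff_subset) fun w hw => ((hm w).1 hw).2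
  · exact h1.dg.comp h2.df fun w hw => hsub (h2.mf hw)
  · exact fun w hw => h2.mg ((hm w).1 hw).2
  · intro w hw
    rw [hset]
    exact ⟨f₂ w, h2.mf hw, rfl⟩
  · intro w hw
    obtain ⟨hw1, hw2⟩ := (hm w).1 hw
    simp only [Function.comp]
    rw [h2.fg _ hw2, h1.gf _ hw1]
  · intro w hw
    simp only [Function.comp]
    rw [h1.fg _ (hsub (h2.mf hw)), h2.gf _ hw]
  · intro ε hε
    have hη : 0 < min (ε / 4) 1 := by positivity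
    obtain ⟨R₁, hR₁⟩ := h1.lim _ hη
    obtain ⟨R₂, hR₂⟩ := h2.lim _ hη
    set C := (|a₁| + 1) * (|a₂ - a₁| + 2) with hC
    have hC0 : 0 < C := by positivity
    obtain ⟨M, hM⟩ := p3 (max (max R₁ R₂) (max 1 (2 * C / ε)))
    refine ⟨M, fun w hw hMw => ?_⟩
    obtain ⟨hw1, hw2⟩ := (hm w).1 hw
    have hz := hM w hw1 hMw
    simp only [max_le_iff] at hz
    obtain ⟨⟨z1, z2⟩, z3, z4⟩ := hz
    have b1 := hR₁ _ (hsub hw2) z1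
    have b2 := hR₂ _ hw2 z2
    rw [h1.gf w hw1] at b1
    have hz0 : f₁ w ≠ 0 := by
      intro e; rw [e, norm_zero] at z3; linarith
    have hR : C ≤ ε / 2 * ‖f₁ w‖ ^ 2 := by
      rw [div_le_iff₀ hε] at z4
      nlinarith [mul_le_mul_of_nonneg_left z3 (mul_nonneg hε.le (norm_nonneg (f₁ w)))]
    have := comp_est hz0 b1 b2 (min_le_right _ _) hR
    have h4 := min_le_left (ε / 4) 1
    exact this.trans (by linarith)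
  · intro R
    obtain ⟨R', hR'⟩ := p4 R
    obtain ⟨M, hM⟩ := h2.loc R'
    refine ⟨M, fun w hw hR => ?_⟩
    obtain ⟨hw1, hw2⟩ := (hm w).1 hw
    exact hM _ hw2 (hR' w hw1 hR)

end Pool.Agent.P.MP_6c8efb_pr.SLE.L
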