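import Pool.Agent.P.MP_6c8efb_pr.SLE.LIface

/-!
Block L of the SLE project: thin triangles around the edges of a polygonal curve.
-/

namespace Pool.Agent.P.MP_6c8efb_pr.SLE.L

open Set Filter Topology Metric Complex
open scoped NNReal ComplexConjugate

theorem cone_poly {η : ℝ≥0 → ℂ} (hP : Poly η) (k : ℕ) (t : ℝ≥0) (h1 : (k : ℝ) ≤ t)
    (h2 : (t : ℝ) ≤ k + 1) : η t = η k + (((t : ℝ) - k : ℝ) : ℂ) * (η (k + 1) - η k) := by
  have h1' : (k : ℝ≥0) ≤ t := by exact_mod_cast h1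
  obtain ⟨τ, rfl⟩ := exists_add_of_le h1'
  have h3 : τ ≤ 1 := by
    have : (τ : ℝ) ≤ 1 := by push_cast at h2; linarith
    exact_mod_cast this
  rw [hP k τ h3]
  push_cast
  simp

theorem cone_open {η : ℝ≥0 → ℂ} (hC : Curve η) (t : ℝ≥0) : IsOpen (HH \ η '' Iic t) :=
  isOpen_HH.sdiff ((isCompact_Iic' t).image hC.cont).isClosed

theorem cone_mem {η : ℝ≥0 → ℂ} (hC : Curve η) {s u : ℝ≥0} (h : s < u) :
    η u ∈ HH \ η '' Iic s := by
  rw [hC.D_eq]; exact hC.mem_D h

theorem cone_zero {η : ℝ≥0 → ℂ} (hC : Curve η) : ∃ c l : ℝ, 0 < c ∧ 1 < l ∧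
    Cone (η 0) (η 1 - η 0) c l ⊆ HH \ η '' Iic 0 := by
  have h1 := hC.pos 1 one_pos
  have h2 : 0 < |(η 1).re| + 1 := by positivity
  refine ⟨(η 1).im / (|(η 1).re| + 1), 2, by positivity, by norm_num, ?_⟩
  rw [hC.D_eq, hull_zero, hC.zero]
  rintro z ⟨x, y, hy, -, hx, rfl⟩
  refine ⟨?_, fun h => h⟩
  simp only [mem_HH, zero_add, sub_zero, mul_im, add_re, add_im, ofReal_re, ofReal_im, mul_re,
    I_re, I_im, mul_zero, mul_one, add_zero, sub_self]
  have h3 : |x * (η 1).re| ≤ (η 1).im / (|(η 1).re| + 1) * y * |(η 1).re| := by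
    rw [abs_mul]; exact mul_le_mul_of_nonneg_right hx (abs_nonneg _)
  have h4 : (η 1).im / (|(η 1).re| + 1) * y * |(η 1).re| < y * (η 1).im := by
    rw [div_mul_eq_mul_div, div_mul_eq_mul_div, div_lt_iff₀ h2]
    nlinarith [mul_pos hy h1]
  have := neg_abs_le (x * (η 1).re)
  linarith

theorem cone_slope (al be : ℝ) : ∃ c : ℝ, 0 < c ∧ (|be| ≤ c * al → be = 0) := by
  by_cases h : be = 0
  · exact ⟨1, one_pos, fun _ => h⟩
  have h1 : 0 < |be| := abs_pos.2 h
  have h2 : 0 < |al| + 1 := by positivity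
  refine ⟨|be| / (|al| + 1), by positivity, fun h3 => ?_⟩
  rw [div_mul_eq_mul_div, le_div_iff₀ h2] at h3
  nlinarith [le_abs_self al]

theorem cone_succ {η : ℝ≥0 → ℂ} (hC : Curve η) (hP : Poly η) (k : ℕ) : ∃ c l : ℝ, 0 < c ∧ 1 < l ∧
    Cone (η (k + 1)) (η (k + 1 + 1) - η (k + 1)) c l ⊆ HH \ η '' Iic ((k : ℝ≥0) + 1) := by
  set p := η (k + 1) with hp
  set d := η (k + 1 + 1) - η (k + 1) with hd
  set d' := η (k + 1) - η k with hd'
  have hd0 : d ≠ 0 := sub_ne_zero.2 fun h => by simpa using hC.inj h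
  have hdp : 0 < ‖d‖ := norm_pos_iff.2 hd0
  have fwd : ∀ y : ℝ, ∀ h0 : 0 ≤ y, y ≤ 1 → η (k + 1 + NNReal.mk y h0) = p + y * d := by
    intro y h0 h1
    have := hP (k + 1) (NNReal.mk y h0) h1
    push_cast at this
    exact this
  have hK : IsCompact (η '' Icc ((k : ℝ≥0) + 1) (k + 1 + 1)) := isCompact_Icc.image hC.cont
  obtain ⟨δ, hδ, hth⟩ := hK.exists_thickening_subset_open (cone_open hC k) (by
    rintro _ ⟨u, hu, rfl⟩
    exact cone_mem hC ((lt_add_one _).trans_le hu.1))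
  obtain ⟨c, hc, hsl⟩ := cone_slope (-d' / d).re (-d' / d).im
  set m : ℝ := min 1 (δ / (4 * ‖d‖)) with hm
  have hm0 : 0 < m := lt_min one_pos (by positivity)
  have hm1 : m ≤ 1 := min_le_left _ _
  have hm2 : m * ‖d‖ ≤ δ / 4 := by
    have : m ≤ δ / (4 * ‖d‖) := min_le_right _ _
    rw [le_div_iff₀ (by positivity)] at this
    linarith
  refine ⟨min c m, 1 + m, lt_min hc hm0, by linarith, ?_⟩
  rintro z ⟨x, y, hy, hyl, hx, hz⟩
  have hx1 : |x| ≤ c * y := hx.trans (mul_le_mul_of_nonneg_right (min_le_left _ _) hy.le)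
  have hx2 : |x| ≤ m * y := hx.trans (mul_le_mul_of_nonneg_right (min_le_right _ _) hy.le)
  have hA : z ∈ HH \ η '' Iic k := by
    apply hth
    rw [mem_thickening_iff]
    have h0 : 0 ≤ min y 1 := le_min hy.le zero_le_one
    refine ⟨η (k + 1 + NNReal.mk (min y 1) h0), ⟨_, ⟨le_self_add, ?_⟩, rfl⟩, ?_⟩
    · gcongr
      exact min_le_right y 1
    · rw [fwd _ h0 (min_le_right _ _), hz, dist_eq_norm]
      have e : p + (y + x * I) * d - (p + (min y 1 : ℝ) * d) =
          (((y - min y 1 : ℝ) : ℂ) + x * I) * d := by push_cast; ring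
      rw [e, norm_mul]
      have h1 : ‖((y - min y 1 : ℝ) : ℂ) + x * I‖ ≤ 3 * m := by
        refine (norm_add_le _ _).trans ?_
        rw [norm_mul, norm_I, mul_one, norm_real, norm_real, Real.norm_eq_abs, Real.norm_eq_abs]
        have h2 : |y - min y 1| ≤ m := by
          rcases le_total y 1 with h | h
          · rw [min_eq_left h]; simpa using hm0.le
          · rw [min_eq_right h, abs_of_nonneg (by linarith)]; linarith
        nlinarith
      nlinarith
  refine ⟨hA.1, ?_⟩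
  rintro ⟨u, hu, hue⟩
  have hku : (k : ℝ≥0) < u := not_le.1 fun h => hA.2 ⟨u, h, hue⟩
  have hku' : (k : ℝ) < u := by exact_mod_cast hku
  have hu' : (u : ℝ) ≤ k + 1 := by exact_mod_cast (show u ≤ k + 1 from hu)
  have h1 := cone_poly hP k u hku'.le hu'
  set s : ℝ := k + 1 - u with hs
  have h2 : (s : ℂ) * (-d' / d) = y + x * I := by
    rw [hue, hz] at h1
    rw [← mul_div_assoc, div_eq_iff hd0, hs]
    push_cast at h1 ⊢
    rw [hp] at h1
    rw [hd']
    linear_combination -h1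
  have h3 := congrArg re h2
  have h4 := congrArg im h2
  simp only [re_ofReal_mul, im_ofReal_mul, add_re, add_im, ofReal_re, ofReal_im, I_re, I_im,
    mul_zero, mul_one, add_zero, zero_add] at h3 h4
  have hs0 : 0 < s := by
    refine lt_of_le_of_ne (by linarith) fun h => ?_
    rw [← h, zero_mul] at h3; linarith
  have h5 : (-d' / d).im = 0 := by
    apply hsl
    rw [← h3, ← h4, abs_mul, abs_of_pos hs0] at hx1
    exact le_of_mul_le_mul_left (by linarith) hs0
  have hx0 : x = 0 := by rw [← h4, h5, mul_zero]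
  have hy1 : 0 < 1 + y := by linarith
  have hs1 : s / (1 + y) ≤ 1 := by rw [div_le_one hy1]; linarith
  have hsp : 0 < s / (1 + y) := by positivity
  have hv0 : (0 : ℝ) ≤ k + 1 - s / (1 + y) := by have : (0 : ℝ) ≤ k := k.cast_nonneg
                                                 linarith
  have h6 := cone_poly hP k (NNReal.mk _ hv0) (by simp only [NNReal.coe_mk]; linarith)
    (by simp only [NNReal.coe_mk]; linarith)
  have hyp : 0 < y / (1 + y) := by positivity
  have h7 := fwd (y / (1 + y)) hyp.le (by rw [div_le_one hy1]; linarith)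
  have h8 : η (NNReal.mk _ hv0) = η (k + 1 + NNReal.mk (y / (1 + y)) hyp.le) := by
    rw [h6, h7]
    have hy1' : (1 + y : ℂ) ≠ 0 := by exact_mod_cast hy1.ne'
    rw [hx0, ← mul_div_assoc, div_eq_iff hd0] at h2
    simp only [NNReal.coe_mk]
    push_cast at h2 ⊢
    rw [← hd', hp, show η k = η (k + 1) - d' by rw [hd']; ring]
    linear_combination (1 + y : ℂ)⁻¹ * h2
  have h9 := congrArg NNReal.toReal (hC.inj h8)
  simp only [NNReal.coe_mk, NNReal.coe_add, NNReal.coe_natCast, NNReal.coe_one] at h9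
  linarith

theorem s_Cone : S_Cone := by
  intro η hC hP k
  cases k with
  | zero => simpa using cone_zero hC
  | succ k => simpa using cone_succ hC hP k

theorem s_Rad : S_Rad := by
  intro η hC hP t
  rcases eq_or_lt_of_le (zero_le : 0 ≤ t) with rfl | ht
  · refine ⟨1, one_pos, fun z hz l hl _ => ?_⟩
    rw [hull_zero, hC.zero]
    refine ⟨?_, fun h => h⟩
    have : 0 < z.im := hz.1
    simp only [mem_HH, zero_add, sub_zero, im_ofReal_mul]
    positivity
  have ht' : (0 : ℝ) < t := ht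
  obtain ⟨k, hk⟩ := Nat.exists_eq_add_one_of_ne_zero (Nat.ceil_pos.2 ht').ne'
  have hk1 : (k : ℝ) < t := Nat.lt_ceil.1 (by omega)
  have hk2 : (t : ℝ) ≤ k + 1 := by
    have := Nat.le_ceil (t : ℝ)
    rw [hk] at this
    exact_mod_cast this
  obtain ⟨e, he, hb⟩ := nhds_basis_closedBall.mem_iff.1
    ((cone_open hC k).mem_nhds (cone_mem hC (u := t) (by exact_mod_cast hk1)))
  refine ⟨e, he, fun z hz l hl hle => ?_⟩
  have hl0 : 0 < l := by linarith
  have hA : η t + l * (z - η t) ∈ HH \ η '' Iic k := by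
    apply hb
    rw [mem_closedBall, dist_eq_norm, add_sub_cancel_left, norm_mul, norm_real, Real.norm_eq_abs,
      abs_of_pos hl0]
    exact hle
  refine ⟨hA.1, ?_⟩
  rintro ⟨u, hu, hue⟩
  have hku : (k : ℝ≥0) < u := not_le.1 fun h => hA.2 ⟨u, h, hue⟩
  have hku' : (k : ℝ) < u := by exact_mod_cast hku
  have hut : (u : ℝ) ≤ t := hu.2
  have hq0 : 0 ≤ (t - u : ℝ) / l := div_nonneg (by linarith) hl0.le
  have hq1 : (t - u : ℝ) / l ≤ t - u := div_le_self (by linarith) hl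
  have hk0 : (0 : ℝ) ≤ k := k.cast_nonneg
  have hv : (0 : ℝ) < t - (t - u) / l := by linarith
  apply hz.2
  refine ⟨NNReal.mk _ hv.le, ⟨hv, show t - (t - u : ℝ) / l ≤ t by linarith⟩, ?_⟩
  have h1 := cone_poly hP k u hku'.le (hut.trans hk2)
  have h2 := cone_poly hP k t hk1.le hk2
  rw [cone_poly hP k (NNReal.mk _ hv.le) (by simp only [NNReal.coe_mk]; linarith)
    (by simp only [NNReal.coe_mk]; linarith)]
  have hl' : (l : ℂ) ≠ 0 := ofReal_ne_zero.2 hl0.ne'
  simp only [NNReal.coe_mk]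
  rw [hue] at h1
  push_cast at h1 h2 ⊢
  apply mul_left_cancel₀ hl'
  have e : (l : ℂ) * (((t : ℝ) - (u : ℝ) : ℂ) / l) = (t : ℝ) - (u : ℝ) := by field_simp
  linear_combination -h1 + h2 - l * h2 - (η (k + 1) - η k) * e

end Pool.Agent.P.MP_6c8efb_pr.SLE.L
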