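import Pool.Agent.P.MP_6c8efb_pr.SLE.LIface

/-!
Block L of the SLE project: continuity in time, monotonicity of the capacity, locality.
-/

namespace Pool.Agent.P.MP_6c8efb_pr.SLE.L

open Set Filter Topology Metric Complex
open scoped NNReal ComplexConjugate

/-- A function with small increments on short intervals is continuous. -/
theorem cont_of_inc {E : Type} [NormedAddCommGroup E] {F : ℝ≥0 → E} (T : ℝ≥0)
    (h : ∀ ε : ℝ, 0 < ε → ∃ δ : ℝ, 0 < δ ∧ ∀ s t : ℝ≥0, s ≤ t → t ≤ T → (t : ℝ) - s ≤ δ →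
      ‖F t - F s‖ ≤ ε) : ContinuousOn F (Iic T) := by
  intro t ht
  rw [Metric.continuousWithinAt_iff]
  intro ε hε
  obtain ⟨δ, hδ, hd⟩ := h (ε / 2) (by positivity)
  refine ⟨δ, hδ, fun s hs hst => ?_⟩
  rw [NNReal.dist_eq, abs_lt] at hst
  rw [dist_eq_norm]
  rcases le_total s t with h1 | h1
  · have := hd s t h1 ht (by linarith [hst.1])
    rw [norm_sub_rev] at this
    linarith
  · have := hd t s h1 hs (by linarith [hst.2])
    linarith

theorem cont_of_all {E : Type} [TopologicalSpace E] {F : ℝ≥0 → E}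
    (h : ∀ T, ContinuousOn F (Iic T)) : Continuous F :=
  continuous_iff_continuousAt.2 fun t =>
    (h (t + 1)).continuousAt (Iic_mem_nhds (lt_add_one t))

/-- The increments along a short step. -/
theorem cont_inc (hTip : S_Tip) (hStep : S_Step) {η : ℝ≥0 → ℂ} (hη : Simple η) (T : ℝ≥0)
    {r : ℝ} (hr : 0 < r) : ∃ δ : ℝ, 0 < δ ∧ ∀ s t : ℝ≥0, s ≤ t → t ≤ T → (t : ℝ) - s ≤ δ →
      |ct η t - ct η s| ≤ 4 * r * r ∧ |drv η t - drv η s| ≤ 13 * r ∧
      ∀ z ∈ HH \ hull η t, ‖gt η t z - gt η s z‖ ≤ 12 * r := by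
  obtain ⟨δ, hδ, hd⟩ := (hTip η hη).2.2 T r hr
  refine ⟨δ, hδ, fun s t hst htT hle => ?_⟩
  have hb : ∀ u ∈ Ioc s t, ‖gt η s (η u) - (drv η s : ℂ)‖ ≤ r := fun u hu =>
    hd s u hu.1 (hu.2.trans htT) (by have := NNReal.coe_le_coe.2 hu.2; linarith)
  obtain ⟨h1, -, h3, h4, h5⟩ := hStep η hη s t (drv η s) r hst hr hb
  refine ⟨?_, ?_, fun z hz => (h5 z hz).1⟩
  · rw [abs_of_nonneg h1]
    refine h3 r hr.le fun u hu => ?_
    have := (abs_im_le_norm _).trans (hb u hu)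
    rw [sub_im, ofReal_im, sub_zero] at this
    exact (le_abs_self _).trans this
  · rcases eq_or_lt_of_le hst with rfl | hlt
    · simp only [sub_self, abs_zero]; positivity
    · exact h4 hlt

theorem cont_zero (hL1 : S_L1) {η : ℝ≥0 → ℂ} (hη : Simple η) :
    ct η 0 = 0 ∧ ∀ z ∈ HH, gt η 0 z = z :=
  (hL1 _ _ _ _ (hη.hyd 0)).2.2 (hull_zero η)

theorem cont_drv_zero (hL1 : S_L1) (hTip : S_Tip) {η : ℝ≥0 → ℂ} (hη : Simple η) :
    drv η 0 = 0 := by
  have h1 := (hTip η hη).1 0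
  have h2 : Tendsto η (𝓝[>] 0) (𝓝 0) := by
    have := hη.cont.continuousAt (x := 0)
    rw [ContinuousAt, hη.zero] at this
    exact this.mono_left nhdsWithin_le_nhds
  have h3 : (fun u => gt η 0 (η u)) =ᶠ[𝓝[>] 0] η := by
    filter_upwards [self_mem_nhdsWithin] with u hu
    exact (cont_zero hL1 hη).2 _ (hη.pos u hu)
  have := tendsto_nhds_unique h1 (h2.congr' h3.symm)
  exact_mod_cast this

theorem cont_drv (hTip : S_Tip) (hStep : S_Step) {η : ℝ≥0 → ℂ} (hη : Simple η) :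
    Continuous (drv η) := by
  refine cont_of_all fun T => cont_of_inc T fun ε hε => ?_
  obtain ⟨δ, hδ, hd⟩ := cont_inc hTip hStep hη T (r := ε / 13) (by positivity)
  refine ⟨δ, hδ, fun s t h1 h2 h3 => ?_⟩
  have := (hd s t h1 h2 h3).2.1
  rw [Real.norm_eq_abs]
  linarith

theorem cont_mono (hStep : S_Step) {η : ℝ≥0 → ℂ} (hη : Simple η) : StrictMono (ct η) := by
  intro s t hst
  obtain ⟨R, -, hR⟩ := exists_bound hη.cont t
  obtain ⟨M, hM⟩ := (hη.hyd s).loc R
  refine (hStep η hη s t 0 (|M| + 1) hst.le (by positivity) fun u hu => ?_).2.1 hst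
  have := hM _ (hη.toCurve.mem_D hu.1) (hR u hu.2)
  rw [ofReal_zero, sub_zero]
  linarith [le_abs_self M]

theorem cont_loc (hL1 : S_L1) (hTip : S_Tip) (hStep : S_Step) {η η' : ℝ≥0 → ℂ} (hη : Simple η)
    (hη' : Simple η') (T : ℝ≥0) (h : ∀ u ≤ T, η u = η' u) : ∀ u ≤ T, drv η u = drv η' u := by
  have hlt : ∀ u < T, drv η u = drv η' u := by
    intro u hu
    have hh : hull η u = hull η' u :=
      image_congr fun v hv => h v (hv.2.trans hu.le)
    have h3 : (fun v => gt η u (η v)) =ᶠ[𝓝[>] u] fun v => gt η' u (η' v) := by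
      filter_upwards [Ioo_mem_nhdsGT hu] with v hv
      rw [gt, gt, hh, h v hv.2.le]
    have := tendsto_nhds_unique ((hTip η hη).1 u) (((hTip η' hη').1 u).congr' h3.symm)
    exact_mod_cast this
  intro u hu
  rcases eq_or_lt_of_le hu with rfl | hu
  · rcases eq_or_lt_of_le (zero_le : 0 ≤ u) with rfl | h0
    · rw [cont_drv_zero hL1 hTip hη, cont_drv_zero hL1 hTip hη']
    · have hc : u ∈ closure (Iio u) := by
        rw [closure_Iio' (a := u) ⟨0, h0⟩]; exact mem_Iic.2 le_rfl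
      exact (EqOn.closure (f := drv η) (g := drv η') (s := Iio u) hlt
        (cont_drv hTip hStep hη) (cont_drv hTip hStep hη')) hc
  · exact hlt u hu

theorem s_Cont (hL1 : S_L1) (hTip : S_Tip) (hStep : S_Step) : S_Cont := by
  refine ⟨fun η hη => ⟨?_, cont_mono hStep hη, (cont_zero hL1 hη).1, (cont_zero hL1 hη).2,
    cont_drv hTip hStep hη, cont_drv_zero hL1 hTip hη, ?_, ?_, ?_⟩,
    fun η η' hη hη' T h => cont_loc hL1 hTip hStep hη hη' T h⟩
  · refine cont_of_all fun T => cont_of_inc T fun ε hε => ?_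
    obtain ⟨δ, hδ, hd⟩ := cont_inc hTip hStep hη T (r := √ε / 2) (by positivity)
    refine ⟨δ, hδ, fun s t h1 h2 h3 => ?_⟩
    have := (hd s t h1 h2 h3).1
    rw [Real.norm_eq_abs]
    nlinarith [Real.mul_self_sqrt hε.le]
  · intro T z hz
    refine cont_of_inc T fun ε hε => ?_
    obtain ⟨δ, hδ, hd⟩ := cont_inc hTip hStep hη T (r := ε / 12) (by positivity)
    refine ⟨δ, hδ, fun s t h1 h2 h3 => ?_⟩
    have := (hd s t h1 h2 h3).2.2 z (D_anti η h2 hz)
    linarith
  · intro t R hR hb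
    rcases eq_or_lt_of_le (zero_le : 0 ≤ t) with rfl | h0
    · rw [cont_drv_zero hL1 hTip hη, abs_zero]; positivity
    · have := (hStep η hη 0 t 0 R h0.le hR fun u hu => by
        rw [(cont_zero hL1 hη).2 _ (hη.pos u hu.1), ofReal_zero, sub_zero]
        exact hb u hu.2).2.2.2.1 h0
      rwa [sub_zero] at this
  · intro s t R ρ hst hb h0 hρ hs
    have hp := om_pos h0 hρ
    rcases eq_or_lt_of_le hst with rfl | hlt
    · simp only [sub_self, abs_zero]; positivity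
    · exact (hStep η hη s t (drv η s) (om R ρ) hst hp
        ((hTip η hη).2.1 s t R ρ hb h0 hρ hs)).2.2.2.1 hlt

end Pool.Agent.P.MP_6c8efb_pr.SLE.L
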