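import Pool.Agent.P.MP_6c8efb_pr.SLE.LIface

/-!
Block L of the SLE project: the Riemann map of a symmetric domain.
-/

namespace Pool.Agent.P.MP_6c8efb_pr.SLE.L

open Set Filter Topology Metric Complex
open scoped NNReal ComplexConjugate

theorem s_Dsy : S_Dsy := by
  intro U ψ l hU h0 hs hd hb hψ0 hl hψ1
  obtain ⟨g, hg, hgψ⟩ := MP_56bcbf_an.exists_inverse hU hd hb.injOn
  have hg1 := MP_56bcbf_an.deriv_mul_inverse hU hd hb.injOn hg hgψ h0
  rw [hψ0, hψ1] at hg1
  rw [hb.image_eq] at hg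
  have hgU : ∀ w ∈ ball (0 : ℂ) 1, g w ∈ U ∧ ψ (g w) = w := fun w hw => by
    obtain ⟨u, hu, rfl⟩ := hb.surjOn hw
    rw [hgψ u hu]
    exact ⟨hu, rfl⟩
  have hg0 : g 0 = 0 := by simpa [hψ0] using hgψ 0 h0
  have hl0 : (l : ℂ) ≠ 0 := ofReal_ne_zero.2 hl.ne'
  have hdc : ∀ u ∈ U, HasDerivAt (fun u => conj (ψ (conj u))) (conj (deriv ψ (conj u))) u :=
    fun u hu => by
      simpa [Function.comp_def] using
        (hd.differentiableAt (hU.mem_nhds (hs u hu))).hasDerivAt.conj_conj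
  have hdg : ∀ w ∈ ball (0 : ℂ) 1, HasDerivAt g (deriv g w) w := fun w hw =>
    (hg.differentiableAt (isOpen_ball.mem_nhds hw)).hasDerivAt
  have hT : ∀ w ∈ ball (0 : ℂ) 1, HasDerivAt (fun w => conj (ψ (conj (g w))))
      (conj (deriv ψ (conj (g w))) * deriv g w) w := fun w hw =>
    (hdc _ (hgU w hw).1).comp w (hdg w hw)
  have hT1 : deriv (fun w => conj (ψ (conj (g w)))) 0 = 1 := by
    rw [(hT 0 (mem_ball_self one_pos)).deriv, hg0, map_zero, hψ1, conj_ofReal, mul_comm, hg1]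
  have hid := affine_of_mapsTo_ball_of_norm_dslope_eq_div (f := fun w => conj (ψ (conj (g w))))
    (c := 0) (z₀ := 0) (R₁ := 1) (R₂ := 1)
    (fun w hw => (hT w hw).differentiableAt.differentiableWithinAt) (fun w hw => by
      have := hb.mapsTo (hs _ (hgU w hw).1)
      simpa [hg0, hψ0] using (mem_ball_zero_iff.1 this).le) (mem_ball_self one_pos)
    (by rw [dslope_same, hT1]; simp)
  have hsym : ∀ u ∈ U, ψ (conj u) = conj (ψ u) := fun u hu => by
    have := hid (hb.mapsTo hu)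
    simp only [dslope_same, hT1, hgψ u hu, hg0, map_zero, hψ0, sub_zero, smul_eq_mul, mul_one,
      zero_add] at this
    rw [← this, conj_conj]
  have hreal : ∀ u ∈ U, u.im = 0 → (ψ u).im = 0 := fun u hu h => by
    have := hsym u hu
    rw [conj_eq_iff_im.2 h] at this
    exact conj_eq_iff_im.1 this.symm
  have hlow : ∀ u ∈ U, (ψ u).im < 0 → u.im < 0 := fun u hu h => by
    have hc : IsPreconnected (ball (0 : ℂ) 1 ∩ {w | w.im < 0}) :=
      ((convex_ball 0 1).inter (convex_halfSpace_im_lt 0)).isPreconnected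
    have h1 : Tendsto (fun t : ℝ => ((t : ℂ) * -I)) (𝓝[>] 0) (𝓝[≠] 0) :=
      tendsto_nhdsWithin_iff.2 ⟨(Continuous.tendsto' (by fun_prop) _ _ (by simp)).mono_left
        nhdsWithin_le_nhds, eventually_nhdsWithin_of_forall fun t ht => by
          simpa using (ne_of_gt ht)⟩
    have h2 := (continuous_re.tendsto _).comp
      ((hasDerivAt_iff_tendsto_slope.1 (hdg 0 (mem_ball_self one_pos))).comp h1)
    have h3 : 0 < (deriv g 0).re := by
      rw [eq_div_of_mul_eq hl0 hg1, ← ofReal_one, ← ofReal_div, ofReal_re]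
      positivity
    obtain ⟨t, ⟨h4, h5⟩, h6⟩ := (((h2.eventually_const_lt h3).and
      (Ioo_mem_nhdsGT one_pos)).and self_mem_nhdsWithin).exists
    have h7 : (t : ℂ) * -I ∈ ball (0 : ℂ) 1 ∩ {w | w.im < 0} :=
      ⟨by simpa [abs_of_pos h5.1] using h5.2, by simpa using h5.1⟩
    have h8 : (g (t * -I)).im < 0 := by
      have e : g (t * -I) = t * -I * slope g 0 (t * -I) := by
        have : (t : ℂ) * -I ≠ 0 := by simpa using h5.1.ne'
        rw [slope_def_field, hg0, sub_zero, sub_zero, mul_div_cancel₀ _ this]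
      rw [e]
      simpa using mul_pos h5.1 h4
    by_contra h9
    obtain ⟨w, hw, e⟩ := hc.intermediate_value h7 ⟨hb.mapsTo hu, h⟩
      (f := fun w => (g w).im) (continuous_im.comp_continuousOn
        (hg.continuousOn.mono inter_subset_left)) ⟨h8.le, by rw [hgψ u hu]; exact not_lt.1 h9⟩
    have := hreal _ (hgU w hw.1).1 e
    rw [(hgU w hw.1).2] at this
    exact hw.2.ne this
  refine ⟨hsym, fun u hu => ⟨hlow u hu, fun h => ?_⟩⟩
  rcases lt_trichotomy (ψ u).im 0 with h1 | h1 | h1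
  · exact h1
  · have := hb.injOn (hs u hu) hu (by rw [hsym u hu, conj_eq_iff_im.2 h1])
    exact absurd (conj_eq_iff_im.1 this) h.ne
  · have := hlow _ (hs u hu) (by rw [hsym u hu]; simpa using h1)
    simp only [conj_im] at this
    linarith

end Pool.Agent.P.MP_6c8efb_pr.SLE.L
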