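import Pool.Agent.P.MP_6c8efb_pr.SLE.LIface

/-!
Existence of the chain for polygonal curves, and uniqueness on the closure.
-/

namespace Pool.Agent.P.MP_6c8efb_pr.SLE.L

open Set Filter Topology Metric Complex
open scoped NNReal ComplexConjugate

theorem exist_canon (hRefl : S_Refl) {K : Set ℂ} (h : ∃ g f a, Hyd K g f a) :
    Hyd K (gm K) (fm K) (cap K) ∧ Sym K (gm K) (fm K) := by
  obtain ⟨g, f, a, h⟩ := h
  obtain ⟨G, F, h1, h2, -⟩ := hRefl K g f a h
  exact Classical.epsilon_spec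
    (p := fun p : (ℂ → ℂ) × (ℂ → ℂ) × ℝ => Hyd K p.1 p.2.1 p.2.2 ∧ Sym K p.1 p.2.1)
    ⟨(G, F, a), h1, h2⟩

theorem exist_compact {η : ℝ≥0 → ℂ} (h : Curve η) (t : ℝ≥0) : IsCompact (dbl η t) := by
  have h1 : IsCompact (η '' Iic t) := (isCompact_Iic' t).image h.cont
  have : dbl η t = η '' Iic t ∪ conj '' (η '' Iic t) := by
    ext z
    refine or_congr Iff.rfl ⟨fun hz => ⟨_, hz, by simp⟩, ?_⟩
    rintro ⟨w, hw, rfl⟩
    simpa using hw
  rw [this]
  exact h1.union (h1.image continuous_conj)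

theorem exist_inter {η : ℝ≥0 → ℂ} (h : Curve η) (t : ℝ≥0) : dbl η t ∩ HH = hull η t := by
  ext z
  constructor
  · rintro ⟨hz | ⟨u, -, hu⟩, h0⟩
    · by_contra hc
      have : z ∈ HH \ η '' Iic t := by rw [h.D_eq]; exact ⟨h0, hc⟩
      exact this.2 hz
    · have h1 := h.im_nonneg u
      have h2 : 0 < z.im := h0
      rw [hu, conj_im] at h1
      linarith
  · rintro ⟨u, hu, rfl⟩
    exact ⟨Or.inl ⟨u, hu.2, rfl⟩, h.pos u hu.1⟩

theorem s_Exist (hPolyL : S_PolyL) (hRmt : S_Rmt) (hDsy : S_Dsy) (hJou : S_Jou)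
    (hRefl : S_Refl) : S_Exist := by
  intro η hc hp
  have key : ∀ t, ∃ g f a, Hyd (hull η t) g f a := by
    intro t
    rcases eq_or_lt_of_le (zero_le : 0 ≤ t) with rfl | ht
    · exact ⟨id, id, 0, hull_zero η ▸ hyd_empty⟩
    have hK := exist_compact hc t
    have hO := isOpen_Om hK.isBounded hK.isClosed
    have hs : ∀ z ∈ dbl η t, conj z ∈ dbl η t := fun z hz => by
      rcases hz with hz | hz
      · exact Or.inr (by simpa using hz)
      · exact Or.inl hz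
    have hne : Om (dbl η t) ≠ univ := fun he => by
      have h0 : η t ≠ 0 := fun e => by simpa [e] using hc.pos t ht
      rcases (he ▸ mem_univ (η t)⁻¹ : (η t)⁻¹ ∈ Om (dbl η t)) with h | h
      · exact h0 (inv_eq_zero.1 h)
      · exact h (Or.inl ⟨t, mem_Iic.2 le_rfl, by simp⟩)
    obtain ⟨ψ, l, h1, h2, h3, h4, h5⟩ :=
      hRmt _ 0 hO (hPolyL η hc hp t).2 hne (hPolyL η hc hp t).1 (Or.inl rfl)
    obtain ⟨h6, h7⟩ := hDsy _ ψ l hO (Or.inl rfl) (fun u hu => by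
      rcases hu with rfl | hu
      · exact Or.inl (by simp)
      · exact Or.inr fun h => hu (by simpa using hs _ h)) h1 h2 h3 h4 h5
    rw [← exist_inter hc t]
    exact hJou _ ψ l hK (Or.inl ⟨0, mem_Iic.2 zero_le, hc.zero⟩) hs h1 h2 h3 h4 h5 h6 h7
  exact ⟨hc, fun t => (exist_canon hRefl (key t)).1, fun t => (exist_canon hRefl (key t)).2⟩

theorem s_Uniq (hClosed : S_Closed) (hNe : S_Ne) (hUn0 : S_Un0) : S_Uniq := by
  intro p hp q hq e
  have e : p.1 = q.1 := e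
  refine Prod.ext e (DFunLike.coe_injective ?_)
  exact hUn0 p.2 q.2 p.1 p.2.continuous q.2.continuous (hClosed p hp) (e ▸ hClosed q hq) (hNe p hp)

end Pool.Agent.P.MP_6c8efb_pr.SLE.L
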