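import Pool.Agent.P.MP_6c8efb_pr.SLE.LIface

/-!
Block L of the SLE project: the truncated Loewner equation.
-/

namespace Pool.Agent.P.MP_6c8efb_pr.SLE.L

open Set Filter Topology Metric Complex
open scoped NNReal ComplexConjugate

theorem flow_lip (c : ℝ) (x y : ℂ) : ‖pj c x - pj c y‖ ≤ ‖x - y‖ := by
  rw [← sq_le_sq₀ (norm_nonneg _) (norm_nonneg _), Complex.sq_norm, Complex.sq_norm, normSq_apply,
    normSq_apply]
  simp only [pj, sub_re, sub_im, add_re, add_im, mul_re, mul_im, ofReal_re, ofReal_im, I_re, I_im,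
    mul_zero, mul_one, sub_self, add_zero]
  rcases le_total (c - x.im) 0 with h | h <;> rcases le_total (c - y.im) 0 with h' | h' <;>
    simp only [max_eq_left, max_eq_right, h, h'] <;> nlinarith

theorem flow_low (c : ℝ) (x : ℂ) (w : ℝ) : c ≤ ‖pj c x - w‖ := by
  refine le_trans ?_ (im_le_norm _)
  simp only [pj, sub_im, add_im, mul_im, ofReal_re, ofReal_im, I_re, I_im, mul_zero, mul_one,
    add_zero, sub_zero]
  linarith [le_max_left (c - x.im) 0]

theorem flow_ne {c : ℝ} (hc : 0 < c) (x : ℂ) (w : ℝ) : pj c x - w ≠ 0 :=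
  norm_pos_iff.1 (hc.trans_le (flow_low c x w))

theorem flow_sub {κ : ℂ} {c : ℝ} (hκ : ‖κ‖ ≤ 2) (hc : 0 < c) (x y : ℂ) (w v : ℝ) :
    ‖κ / (pj c x - w) - κ / (pj c y - v)‖ ≤ 2 / c ^ 2 * (‖x - y‖ + |w - v|) := by
  have h1 : ‖(pj c x - w) - (pj c y - v)‖ ≤ ‖x - y‖ + |w - v| := by
    rw [sub_sub_sub_comm, ← ofReal_sub, ← Real.norm_eq_abs, ← norm_real]
    exact (norm_sub_le _ _).trans (add_le_add (flow_lip c x y) le_rfl)
  rw [div_sub_div _ _ (flow_ne hc x w) (flow_ne hc y v), mul_comm _ κ, ← mul_sub, norm_div,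
    norm_mul, norm_mul, norm_sub_rev, div_mul_eq_mul_div, sq]
  gcongr
  · exact flow_low c x w
  · exact flow_low c y v

theorem s_Flow : S_Flow := by
  intro κ c T hκ hc hT
  refine ⟨fun W hW z => ?_, fun W W' G G' δ hG hG' hδ s hs => ?_⟩
  · have h : IsPicardLindelof (fun s x => κ / (pj c x - W s)) (⟨0, le_rfl, hT⟩ : Icc (0 : ℝ) T) z
        (.mk (2 / c * T) (by positivity)) 0 (.mk (2 / c) (by positivity))
        (.mk (2 / c ^ 2) (by positivity)) := by
      refine ⟨fun t _ => LipschitzWith.lipschitzOnWith (LipschitzWith.of_dist_le_mul fun x y => ?_),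
        fun x _ => Continuous.continuousOn ?_, fun t _ x _ => ?_, ?_⟩
      · simpa [dist_eq_norm] using flow_sub hκ hc x y (W t) (W t)
      · exact continuous_const.div (by fun_prop) fun t => flow_ne hc x (W t)
      · rw [norm_div, NNReal.coe_mk]
        gcongr
        exact flow_low c x (W t)
      · simp [hT]
    exact h.exists_eq_forall_mem_Icc_hasDerivWithinAt₀
  · have h0 : 0 ≤ δ := (abs_nonneg _).trans (hδ 0 ⟨le_rfl, hT⟩)
    have hK : 0 < 2 / c ^ 2 := by positivity
    have h := norm_le_gronwallBound_of_norm_deriv_right_le (f := fun s => G s - G' s)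
      (f' := fun s => κ / (pj c (G s) - W s) - κ / (pj c (G' s) - W' s)) (K := 2 / c ^ 2)
      (ε := 2 / c ^ 2 * δ) (a := 0) (b := T)
      (fun s hs => ((hG s hs).sub (hG' s hs)).continuousWithinAt)
      (fun s hs => ((hG s (Ico_subset_Icc_self hs)).sub
        (hG' s (Ico_subset_Icc_self hs))).mono_of_mem_nhdsWithin (Icc_mem_nhdsGE_of_mem hs))
      le_rfl (fun s hs => (flow_sub hκ hc _ _ _ _).trans (by
        rw [← mul_add]
        gcongr
        exact hδ s (Ico_subset_Icc_self hs))) s hs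
    rw [gronwallBound_of_K_ne_0 hK.ne', mul_div_cancel_left₀ _ hK.ne', sub_zero] at h
    have h1 : Real.exp (2 / c ^ 2 * s) ≤ Real.exp (2 * T / c ^ 2) := by
      rw [mul_div_right_comm]
      gcongr
      exact hs.2
    nlinarith [norm_nonneg (G 0 - G' 0)]

end Pool.Agent.P.MP_6c8efb_pr.SLE.L
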