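import Pool.Agent.P.MP_6c8efb_pr.SLE.LIface

/-!
Block L of the SLE project: forward properties of the Loewner flow.
-/

namespace Pool.Agent.P.MP_6c8efb_pr.SLE.L

open Set Filter Topology Metric Complex
open scoped NNReal

lemma fwd_pj {c : ℝ} {x : ℂ} (h : c ≤ x.im) : pj c x = x := by
  unfold pj
  rw [max_eq_right (by linarith)]
  simp

lemma fwd_toT {W : ℝ≥0 → ℝ} {t : ℝ≥0} {G : ℝ → ℂ} {c : ℝ} (h : Sol W t G)
    (hc : ∀ s ∈ Icc (0 : ℝ) t, c ≤ (G s).im) : TSol 2 c (fun s => W s.toNNReal) t G := by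
  intro s hs
  rw [fwd_pj (hc s hs)]
  exact (h s hs).2

lemma fwd_ofT {W : ℝ≥0 → ℝ} {t : ℝ≥0} {G : ℝ → ℂ} {c : ℝ} (h0 : 0 < c)
    (h : TSol 2 c (fun s => W s.toNNReal) t G) (hc : ∀ s ∈ Icc (0 : ℝ) t, c ≤ (G s).im) :
    Sol W t G := by
  intro s hs
  have := h s hs
  rw [fwd_pj (hc s hs)] at this
  exact ⟨lt_of_lt_of_le h0 (hc s hs), this⟩

lemma fwd_low {f : ℝ → ℝ} {T : ℝ} (hT : 0 ≤ T) (hf : ContinuousOn f (Icc 0 T))
    (hp : ∀ s ∈ Icc (0 : ℝ) T, 0 < f s) : ∃ c : ℝ, 0 < c ∧ ∀ s ∈ Icc (0 : ℝ) T, c ≤ f s := by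
  obtain ⟨s0, hs0, hmin⟩ := isCompact_Icc.exists_isMinOn (nonempty_Icc.2 hT) hf
  exact ⟨f s0, hp s0 hs0, fun s hs => hmin hs⟩

lemma fwd_sol_low {W : ℝ≥0 → ℝ} {t : ℝ≥0} {G : ℝ → ℂ} (h : Sol W t G) :
    ∃ c : ℝ, 0 < c ∧ ∀ s ∈ Icc (0 : ℝ) t, c ≤ (G s).im :=
  fwd_low t.2 (continuous_im.comp_continuousOn h.continuousOn) fun s hs => (h s hs).1

/-- A solution of a linear differential inequality that starts positive stays positive. -/
lemma fwd_pos {Y Y' : ℝ → ℝ} {T K : ℝ} (hd : ∀ s ∈ Icc (0 : ℝ) T, HasDerivWithinAt Y (Y' s) (Icc 0 T) s)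
    (hb : ∀ s ∈ Icc (0 : ℝ) T, |Y' s| ≤ K * |Y s|) (h0 : 0 < Y 0) :
    ∀ s ∈ Icc (0 : ℝ) T, 0 < Y s := by
  have hc : ContinuousOn Y (Icc 0 T) := fun s hs => (hd s hs).continuousWithinAt
  intro s hs
  by_contra hneg
  rw [not_lt] at hneg
  have hsub : Icc (0 : ℝ) s ⊆ Icc 0 T := Icc_subset_Icc_right hs.2
  obtain ⟨s0, hs0, hY⟩ := intermediate_value_Icc' hs.1 (hc.mono hsub) ⟨hneg, h0.le⟩
  have hs0T : s0 ≤ T := hs0.2.trans hs.2
  have hmaps : MapsTo (fun u : ℝ => s0 - u) (Icc 0 s0) (Icc 0 T) := fun u hu =>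
    ⟨by linarith [hu.2], by linarith [hu.1]⟩
  have key := eq_zero_of_abs_deriv_le_mul_abs_self_of_eq_zero_right
    (f := fun u => Y (s0 - u)) (f' := fun u => Y' (s0 - u) * (-1)) (K := K) (a := 0) (b := s0)
    (hc.comp (continuous_const.sub continuous_id).continuousOn hmaps)
    (fun u hu => by
      have hu' : u ∈ Icc (0 : ℝ) s0 := Ico_subset_Icc_self hu
      have h1 : HasDerivWithinAt (fun u : ℝ => s0 - u) (-1) (Icc 0 s0) u :=
        ((hasDerivAt_id u).const_sub s0).hasDerivWithinAt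
      have h2 := (hd _ (hmaps hu')).comp u h1 hmaps
      exact h2.mono_of_mem_nhdsWithin (Icc_mem_nhdsGE_of_mem hu))
    (by simpa using hY)
    (fun u hu => by
      have := hb _ (hmaps (Ico_subset_Icc_self hu))
      simpa [Real.norm_eq_abs] using this)
    s0 ⟨hs0.1, le_rfl⟩
  simp only [sub_self] at key
  exact h0.ne' key

lemma fwd_alive {W : ℝ≥0 → ℝ} {t : ℝ≥0} (hW : Continuous W) {z : ℂ} (hz : z ∈ HH) :
    Alive W t z ↔ ∃ G, G 0 = z ∧ Sol W t G := by
  constructor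
  · rintro ⟨G, hG0, hG⟩
    refine ⟨G, hG0, fun s hs => ⟨?_, (hG s hs).2⟩⟩
    have hGc : ContinuousOn G (Icc 0 t) := fun s hs => (hG s hs).2.continuousWithinAt
    have hWc : Continuous fun s : ℝ => ((W s.toNNReal : ℝ) : ℂ) :=
      continuous_ofReal.comp (hW.comp continuous_real_toNNReal)
    obtain ⟨m, hm, hlow⟩ := fwd_low (f := fun s => ‖G s - W s.toNNReal‖) t.2
      (hGc.sub hWc.continuousOn).norm (fun s hs => norm_pos_iff.2 (sub_ne_zero.2 (hG s hs).1))
    refine fwd_pos (Y := fun s => (G s).im) (Y' := fun s => (2 / (G s - W s.toNNReal)).im)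
      (K := 2 / m ^ 2) (fun s hs => ?_) (fun s hs => ?_) (by rw [hG0]; exact hz) s hs
    · exact imCLM.hasFDerivAt.comp_hasDerivWithinAt s (hG s hs).2
    · have h1 := hlow s hs
      have h2 : m ^ 2 ≤ normSq (G s - W s.toNNReal) := by
        rw [normSq_eq_norm_sq]
        exact pow_le_pow_left₀ hm.le h1 2
      have h3 : (2 / (G s - W s.toNNReal)).im = -2 * (G s).im / normSq (G s - W s.toNNReal) := by
        rw [Complex.div_im]
        simp
        ring
      have h4 : 0 < m ^ 2 := by positivity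
      show |(2 / (G s - W s.toNNReal)).im| ≤ 2 / m ^ 2 * |(G s).im|
      rw [h3, abs_div, abs_mul, abs_of_pos (lt_of_lt_of_le h4 h2), abs_neg, abs_two,
        div_mul_eq_mul_div]
      exact div_le_div_of_nonneg_left (by positivity) h4 h2
  · rintro ⟨G, hG0, hG⟩
    refine ⟨G, hG0, fun s hs => ⟨fun h => ?_, (hG s hs).2⟩⟩
    have := (hG s hs).1
    rw [h, ofReal_im] at this
    exact lt_irrefl _ this

theorem s_Fwd (hFlow : S_Flow) : S_Fwd := by
  intro W t hW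
  have h2 : ‖(2 : ℂ)‖ ≤ 2 := by simp
  have hcont : ∀ V : ℝ≥0 → ℝ, Continuous V → Continuous fun s : ℝ => V s.toNNReal :=
    fun V hV => hV.comp continuous_real_toNNReal
  refine ⟨fun z hz => fwd_alive hW hz, ?_, ?_, ?_⟩
  · intro G G' hG hG' h0 s hs
    obtain ⟨c, hc, hl⟩ := fwd_sol_low hG
    obtain ⟨c', hc', hl'⟩ := fwd_sol_low hG'
    have key := (hFlow 2 (min c c') t h2 (lt_min hc hc') t.2).2 _ _ G G' 0
      (fwd_toT hG fun s hs => (min_le_left _ _).trans (hl s hs))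
      (fwd_toT hG' fun s hs => (min_le_right _ _).trans (hl' s hs)) (fun s _ => by simp) s hs
    rw [h0, sub_self, norm_zero, add_zero, zero_mul] at key
    exact sub_eq_zero.1 (norm_le_zero_iff.1 key)
  · intro G hG ε hε
    obtain ⟨c2, hc2, hl⟩ := fwd_sol_low hG
    set c : ℝ := c2 / 2 with hc
    have hcp : 0 < c := by positivity
    set E : ℝ := Real.exp (2 * t / c ^ 2) with hE
    have hEp : 0 < E := Real.exp_pos _
    have hmp : 0 < min ε c := lt_min hε hcp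
    refine ⟨min ε c / (2 * E), by positivity, fun W' z' hW' hWW hz => ?_⟩
    obtain ⟨hex, hst⟩ := hFlow 2 c t h2 hcp t.2
    obtain ⟨G', hG0, hG'⟩ := hex _ (hcont W' hW') z'
    have key : ∀ s ∈ Icc (0 : ℝ) t, ‖G' s - G s‖ ≤ min ε c := by
      intro s hs
      have h1 := hst _ _ G' G (min ε c / (2 * E)) hG'
        (fwd_toT hG fun s hs => le_trans (by linarith) (hl s hs))
        (fun s hs => by rw [abs_sub_comm]; exact hWW _ (toNNReal_le hs)) s hs
      rw [hG0] at h1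
      refine h1.trans ?_
      calc (‖z' - G 0‖ + min ε c / (2 * E)) * E
          ≤ (min ε c / (2 * E) + min ε c / (2 * E)) * E := by gcongr
        _ = min ε c := by field_simp; ring
    refine ⟨G', hG0, fwd_ofT hcp hG' fun s hs => ?_, fun s hs => (key s hs).trans (min_le_left _ _)⟩
    have a1 := (key s hs).trans (min_le_right _ _)
    have a2 := (abs_le.1 ((abs_im_le_norm (G' s - G s)).trans a1)).1
    have a3 := hl s hs
    rw [sub_im] at a2
    linarith
  · intro z c hc happ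
    obtain ⟨hex, hst⟩ := hFlow 2 c t h2 hc t.2
    obtain ⟨G, hG0, hG⟩ := hex _ (hcont W hW) z
    refine ⟨G, hG0, fwd_ofT hc hG fun s hs => ?_⟩
    set E : ℝ := Real.exp (2 * t / c ^ 2) with hE
    have hEp : 0 < E := Real.exp_pos _
    refine le_of_forall_pos_le_add fun ε hε => ?_
    obtain ⟨W', G', hWW, hG', hG0', hl⟩ := happ (ε / E) (by positivity)
    have h1 := hst _ _ G G' (ε / E) hG (fwd_toT hG' hl)
      (fun s hs => hWW _ (toNNReal_le hs)) s hs
    rw [hG0, hG0', sub_self, norm_zero, zero_add, div_mul_cancel₀ _ hEp.ne'] at h1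
    have a2 := (abs_le.1 ((abs_im_le_norm (G s - G' s)).trans h1)).1
    have a3 := hl s hs
    rw [sub_im] at a2
    linarith

end Pool.Agent.P.MP_6c8efb_pr.SLE.L
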