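import Pool.Agent.P.MP_6c8efb_pr.SLE.LIface

/-!
Block L of the SLE project: displacement bound and rigidity.
-/

namespace Pool.Agent.P.MP_6c8efb_pr.SLE.L

open Set Filter Topology Metric Complex
open scoped NNReal ComplexConjugate

theorem l1_height {K : Set ℂ} {x r : ℝ} (hK : K ⊆ closedBall (x : ℂ) r) :
    ∀ z ∈ K, z.im ≤ r := by
  intro z hz
  have h1 := hK hz
  rw [mem_closedBall, dist_eq_norm] at h1
  have h2 := abs_im_le_norm (z - x)
  have h3 : (z - x).im = z.im := by simp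
  rw [h3] at h2
  exact (le_abs_self _).trans (h2.trans h1)

theorem l1_far {u v : ℂ} {r a : ℝ} (hr : 0 < r) (ha : 0 ≤ a) (ha' : a ≤ 4 * r * r)
    (hv : 4 * r ≤ ‖v‖) (h : ‖u - a / v‖ ≤ 12 * r * a / ‖v‖ ^ 2) : ‖u‖ ≤ 4 * r := by
  have hv0 : 0 < ‖v‖ := lt_of_lt_of_le (by positivity) hv
  have h1 : ‖(a : ℂ) / v‖ ≤ r := by
    rw [norm_div, Complex.norm_real, Real.norm_of_nonneg ha, div_le_iff₀ hv0]
    nlinarith
  have h2 : 12 * r * a / ‖v‖ ^ 2 ≤ 3 * r := by
    rw [div_le_iff₀ (by positivity)]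
    have : 16 * (r * r) ≤ ‖v‖ ^ 2 := by nlinarith
    nlinarith
  have h3 : ‖u‖ ≤ ‖u - a / v‖ + ‖(a : ℂ) / v‖ := by
    simpa using norm_add_le (u - a / v) (a / v)
  linarith

theorem s_L2s (hProp : S_Prop) (hL1s : S_L1s) : S_L2s := by
  intro K g f a h hs x r hr hK
  obtain ⟨ha, hh, hfar⟩ := hL1s K g f a h hs x r hr hK
  have ha' := hh r hr.le (l1_height hK)
  have far : ∀ z : ℂ, 4 * r ≤ ‖z - x‖ → ‖g z - z‖ ≤ 4 * r := fun z hz =>
    l1_far hr ha ha' hz (hfar z hz)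
  have hout : ∀ y ∈ f '' {w ∈ HH | 8 * r < ‖w - x‖}, 4 * r < ‖y - x‖ := by
    refine outside_of_preconn ((preconn_ext x (8 * r)).image f
      (h.df.continuousOn.mono fun w hw => hw.1)) ?_ ?_
    · rintro _ ⟨w, ⟨hw, hw'⟩, rfl⟩ he
      have h1 := far (f w) he.ge
      rw [h.gf w hw] at h1
      have h2 : ‖w - x‖ ≤ ‖w - f w‖ + ‖f w - x‖ := by
        simpa using norm_add_le (w - f w) (f w - x)
      linarith
    · obtain ⟨M, hM⟩ := (hProp K g f a h).2.2.1 (‖(x : ℂ)‖ + 4 * r + 1)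
      have hT : 0 < |M| + 8 * r + 1 := by positivity
      have him : ((x : ℂ) + ((|M| + 8 * r + 1 : ℝ) : ℂ) * I).im = |M| + 8 * r + 1 := by simp
      have hw : (x : ℂ) + ((|M| + 8 * r + 1 : ℝ) : ℂ) * I ∈ HH := by
        rw [mem_HH, him]; exact hT
      refine ⟨_, ⟨_, ⟨hw, ?_⟩, rfl⟩, ?_⟩
      · rw [add_sub_cancel_left, norm_mul, norm_I, mul_one, Complex.norm_real,
          Real.norm_of_nonneg hT.le]
        linarith [abs_nonneg M]
      · have h1 := hM _ hw (by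
          have h2 := abs_im_le_norm ((x : ℂ) + ((|M| + 8 * r + 1 : ℝ) : ℂ) * I)
          rw [him, abs_of_pos hT] at h2
          linarith [le_abs_self M])
        have h2 := norm_sub_norm_le (f ((x : ℂ) + ((|M| + 8 * r + 1 : ℝ) : ℂ) * I)) (x : ℂ)
        linarith
  have up : ∀ z ∈ HH \ K, ‖g z - z‖ ≤ 12 * r := by
    intro z hz
    by_cases h4 : 4 * r ≤ ‖z - x‖
    · linarith [far z h4]
    · have h8 : ‖g z - x‖ ≤ 8 * r := by
        by_contra h8
        exact h4 (hout z ⟨g z, ⟨h.mg hz, not_le.1 h8⟩, h.fg z hz⟩).le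
      have h2 : ‖g z - z‖ ≤ ‖g z - x‖ + ‖z - x‖ := by
        simpa using norm_sub_le (g z - x) (z - x)
      linarith [not_le.1 h4]
  intro z hz
  rcases lt_trichotomy z.im 0 with h0 | h0 | h0
  · have h1 := up (conj z) (mem_D_of_Dsym (conj_mem_Dsym hz) (by simpa using h0))
    rwa [hs.cj z hz, ← map_sub, Complex.norm_conj] at h1
  · have hn := (isOpen_Dsym K).mem_nhds hz
    refine le_of_HH (φ := fun z => ‖g z - z‖) h0.ge
      (((hs.dg.differentiableAt hn).continuousAt.sub continuousAt_id).norm) ?_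
    filter_upwards [hn] with y hy hy'
    exact up y (mem_D_of_Dsym hy hy')
  · exact up z (mem_D_of_Dsym hz h0)

theorem s_L1 (hRefl : S_Refl) (hL1s : S_L1s) (hL2s : S_L2s) : S_L1 := by
  intro K g f a h
  obtain ⟨G, F, hG, hs, eg, ef⟩ := hRefl K g f a h
  have main : ∀ x r : ℝ, 0 < r → K ⊆ closedBall (x : ℂ) r →
      0 ≤ a ∧ (∀ h : ℝ, 0 ≤ h → (∀ z ∈ K, z.im ≤ h) → a ≤ 4 * r * h) ∧
      (∀ z ∈ HH, 4 * r ≤ ‖z - x‖ → ‖g z - z - a / (z - x)‖ ≤ 12 * r * a / ‖z - x‖ ^ 2) ∧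
      ∀ z ∈ HH \ K, ‖g z - z‖ ≤ 12 * r := by
    intro x r hr hK
    obtain ⟨ha, hh, hfar⟩ := hL1s K G F a hG hs x r hr hK
    refine ⟨ha, hh, fun z hz h4 => ?_, fun z hz => ?_⟩
    · have hz' : z ∈ HH \ K := mem_D_of_Dsym (mem_Dsym_of_lt hK (by linarith)) hz
      rw [← eg hz']
      exact hfar z h4
    · rw [← eg hz]
      exact hL2s K G F a hG hs x r hr hK z (hG.sub_Dsym hz)
  refine ⟨main, fun h0 => ?_, fun hK => ?_⟩
  · obtain ⟨R, hR, hK⟩ := h.exists_radius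
    have hK' : K ⊆ closedBall ((0 : ℝ) : ℂ) R := by simpa using hK
    have hfix : ∀ z ∈ HH, 4 * R ≤ ‖z‖ → f z = z := by
      intro z hz h4
      have h1 := (main 0 R hR hK').2.2.1 z hz (by simpa using h4)
      have h2 : g z = z := by
        rw [h0] at h1
        simpa [sub_eq_zero] using h1
      have hz' : z ∈ HH \ K :=
        mem_D_of_Dsym (mem_Dsym_of_lt hK' (by simp only [ofReal_zero, sub_zero]; linarith)) hz
      have h3 := h.fg z hz'
      rwa [h2] at h3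
    have hw : ((5 * R : ℝ) : ℂ) * I ∈ HH := by
      rw [mem_HH]; simpa using hR
    have hev : f =ᶠ[𝓝 (((5 * R : ℝ) : ℂ) * I)] id := by
      have ho : IsOpen {z : ℂ | 4 * R < ‖z‖} := isOpen_lt continuous_const continuous_norm
      have hm : ((5 * R : ℝ) : ℂ) * I ∈ {z : ℂ | 4 * R < ‖z‖} := by
        rw [mem_ofPred_eq, norm_mul, norm_I, mul_one, Complex.norm_real,
          Real.norm_of_nonneg (by positivity)]
        linarith
      filter_upwards [isOpen_HH.mem_nhds hw, ho.mem_nhds hm] with z hz hz'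
      exact hfix z hz (le_of_lt hz')
    have hid : EqOn f id HH :=
      (h.df.analyticOnNhd isOpen_HH).eqOn_of_preconnected_of_eventuallyEq
        analyticOnNhd_id convex_HH.isPreconnected hw hev
    refine eq_empty_of_forall_notMem fun z hz => ?_
    have h1 := h.mf (h.sub hz)
    rw [hid (h.sub hz)] at h1
    exact h1.2 hz
  · have hb : ∀ r : ℝ, K ⊆ closedBall ((0 : ℝ) : ℂ) r := fun r => by
      rw [hK]; exact empty_subset _
    refine ⟨?_, fun z hz => ?_⟩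
    · obtain ⟨h1, h2, -⟩ := main 0 1 one_pos (hb 1)
      have h3 := h2 0 le_rfl (by rw [hK]; simp)
      linarith
    · have hz' : z ∈ HH \ K := ⟨hz, by rw [hK]; simp⟩
      have h1 : ‖g z - z‖ ≤ 0 := le_of_forall_pos_le_add fun ε hε => by
        have := (main 0 (ε / 12) (by positivity) (hb _)).2.2.2 z hz'
        linarith
      exact sub_eq_zero.1 (norm_le_zero_iff.1 h1)

end Pool.Agent.P.MP_6c8efb_pr.SLE.L
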