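import Pool.Agent.P.MP_6c8efb_pr.SLE.LIface

/-!
Block L: the basic estimate for the reflected mapping-out function.
-/

namespace Pool.Agent.P.MP_6c8efb_pr.SLE.L

open Set Filter Topology Metric Complex MeasureTheory Bornology
open scoped NNReal ComplexConjugate

variable {K : Set ℂ} {g f : ℂ → ℂ} {a : ℝ}

theorem l1s_max {p : ℂ → ℂ} (hp : DifferentiableOn ℂ p (ball 0 2)) {C : ℝ}
    (h : ∀ u : ℂ, ‖u‖ = 1 → (p u).re ≤ C) {u : ℂ} (hu : ‖u‖ ≤ 1) : (p u).re ≤ C := by
  have h1 : DiffContOnCl ℂ (fun u => cexp (p u)) (ball 0 1) :=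
    hp.cexp.diffContOnCl_ball (closedBall_subset_ball (by norm_num))
  have h2 := Complex.norm_le_of_forall_mem_frontier_norm_le isBounded_ball h1 (C := Real.exp C)
    (fun z hz => by
      rw [frontier_ball _ one_ne_zero] at hz
      rw [Complex.norm_exp]
      exact Real.exp_le_exp.2 (h z (by simpa using hz))) (z := u)
    (by rw [closure_ball _ one_ne_zero]; simpa using hu)
  rw [Complex.norm_exp] at h2
  exact Real.exp_le_exp.1 h2

theorem l1s_lim (h : Hyd K g f a) (hs : Sym K g f) :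
    Tendsto (fun z => z * (g z - z)) (cobounded ℂ) (𝓝 a) := by
  obtain ⟨r, -, hK⟩ := h.exists_radius
  have hD : ∀ z : ℂ, r < ‖z‖ → z ∈ Dsym K := fun z hz =>
    mem_Dsym_of_lt (x := 0) (by simpa using hK) (by simpa using hz)
  refine Metric.tendsto_nhds.2 fun ε hε => ?_
  obtain ⟨R, hR⟩ := h.lim (ε / 2) (half_pos hε)
  have up : ∀ z : ℂ, max R r < ‖z‖ → 0 < z.im → ‖z * (g z - z) - a‖ ≤ ε / 2 := fun z hz h0 =>
    hR z (mem_D_of_Dsym (hD z ((le_max_right _ _).trans_lt hz)) h0)
      ((le_max_left _ _).trans hz.le)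
  filter_upwards [eventually_cobounded_le_norm (max R r + 1)] with z hz
  have hz' : max R r < ‖z‖ := by linarith
  have hzD := hD z ((le_max_right _ _).trans_lt hz')
  rw [dist_eq_norm]
  refine lt_of_le_of_lt ?_ (half_lt_self hε)
  rcases lt_trichotomy 0 z.im with h0 | h0 | h0
  · exact up z hz' h0
  · have hc : ContinuousAt g z :=
      (hs.dg.differentiableAt ((isOpen_Dsym K).mem_nhds hzD)).continuousAt
    refine le_of_HH (φ := fun z => ‖z * (g z - z) - a‖) h0.le (by fun_prop) ?_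
    filter_upwards [(isOpen_lt continuous_const continuous_norm).mem_nhds hz'] with w hw h1
    exact up w hw h1
  · have h1 := up (conj z) (by rwa [Complex.norm_conj]) (by simpa using h0)
    rw [hs.cj z hzD] at h1
    rw [← Complex.norm_conj]
    simpa using h1

theorem l1s_im (hProp : S_Prop) (h : Hyd K g f a) (hs : Sym K g f) {b : ℝ} (b0 : 0 ≤ b)
    (hb : ∀ z ∈ K, z.im ≤ b) {z : ℂ} (hz : z ∈ Dsym K) :
    0 ≤ -z.im * (g z - z).im ∧ -z.im * (g z - z).im ≤ |z.im| * b := by
  obtain ⟨-, -, -, -, p5, p6⟩ := hProp K g f a h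
  have up : ∀ z ∈ Dsym K, 0 < z.im → -b ≤ (g z - z).im ∧ (g z - z).im ≤ 0 := fun z hz h0 => by
    have hD := mem_D_of_Dsym hz h0
    have h1 := p5 _ (h.mg hD)
    have h2 := p6 b b0 hb _ (h.mg hD)
    rw [h.fg z hD] at h1 h2
    rw [Complex.sub_im]
    constructor <;> linarith
  rcases lt_trichotomy 0 z.im with h0 | h0 | h0
  · obtain ⟨h1, h2⟩ := up z hz h0
    rw [abs_of_pos h0]
    constructor <;> nlinarith
  · simp [← h0]
  · obtain ⟨h1, h2⟩ := up (conj z) (conj_mem_Dsym hz) (by simpa using h0)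
    rw [hs.cj z hz] at h1 h2
    simp only [Complex.sub_im, Complex.conj_im] at h1 h2 ⊢
    rw [abs_of_neg h0]
    constructor <;> nlinarith

theorem s_L1s (hProp : S_Prop) : S_L1s := by
  classical
  intro K g f a h hs x r r0 hK
  have ρ0 : ((2 * r : ℝ) : ℂ) ≠ 0 := by exact_mod_cast (by positivity : 2 * r ≠ 0)
  set ρ : ℂ := ((2 * r : ℝ) : ℂ) with hρ
  have nρ : ‖ρ‖ = 2 * r := by rw [hρ, Complex.norm_real, Real.norm_of_nonneg (by positivity)]
  set Z : ℂ → ℂ := fun u => x + ρ * u⁻¹ with hZ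
  have ZD : ∀ u : ℂ, u ≠ 0 → ‖u‖ < 2 → Z u ∈ Dsym K := fun u u0 hu => by
    refine mem_Dsym_of_lt hK ?_
    have := norm_pos_iff.2 u0
    rw [hZ, add_sub_cancel_left, norm_mul, nρ, norm_inv, ← div_eq_mul_inv, lt_div_iff₀ this]
    nlinarith
  set q : ℂ → ℂ := Function.update (fun u => (g (Z u) - Z u) * u⁻¹) 0 (a / ρ) with hq
  have q0 : q 0 = ((a / (2 * r) : ℝ) : ℂ) := by
    rw [hq, Function.update_self, Complex.ofReal_div]
  have q1 : ∀ u : ℂ, u ≠ 0 → q u = (g (Z u) - Z u) * u⁻¹ := fun u hu =>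
    Function.update_of_ne hu _ _
  have dq : DifferentiableOn ℂ q (ball 0 2) := by
    refine (Complex.differentiableOn_compl_singleton_and_continuousAt_iff
      (c := 0) (ball_mem_nhds _ two_pos)).1 ⟨?_, ?_⟩
    · refine DifferentiableOn.congr (f := fun u => (g (Z u) - Z u) * u⁻¹) (fun u hu => ?_)
        fun u hu => q1 u hu.2
      have u0 : u ≠ 0 := hu.2
      have d1 : DifferentiableAt ℂ (fun u : ℂ => u⁻¹) u := differentiableAt_inv u0
      have d2 : DifferentiableAt ℂ Z u := (d1.const_mul ρ).const_add _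
      have d3 : DifferentiableAt ℂ g (Z u) :=
        hs.dg.differentiableAt ((isOpen_Dsym K).mem_nhds (ZD u u0 (by simpa using hu.1)))
      exact (((d3.comp u d2).sub d2).mul d1).differentiableWithinAt
    · rw [hq, continuousAt_update_same]
      have t1 : Tendsto Z (𝓝[≠] 0) (cobounded ℂ) := (tendsto_const_add_cobounded (x : ℂ)).comp
        ((tendsto_mul_left_cobounded ρ0).comp tendsto_inv₀_nhdsNE_zero)
      have t2 := (((l1s_lim h hs).mul
        ((tendsto_inv₀_cobounded.const_mul (x : ℂ)).const_sub 1)).div_const ρ).comp t1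
      rw [mul_zero, sub_zero, mul_one] at t2
      refine t2.congr' ?_
      filter_upwards [t1.eventually (eventually_cobounded_le_norm 1)] with u hu
      have z0 : Z u ≠ 0 := by
        intro h0
        rw [h0, norm_zero] at hu
        linarith
      have e1 : Z u * (1 - x * (Z u)⁻¹) = ρ * u⁻¹ := by
        rw [mul_sub, mul_one, mul_comm (x : ℂ), ← mul_assoc, mul_inv_cancel₀ z0, one_mul]
        simp only [hZ, add_sub_cancel_left]
      simp only [Function.comp_apply]
      rw [mul_right_comm, e1]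
      field_simp
  set p : ℂ → ℂ := fun u => (1 - u ^ 2) * q u with hp
  have dp : DifferentiableOn ℂ p (ball 0 2) := DifferentiableOn.mul (by fun_prop) dq
  have p0 : p 0 = ((a / (2 * r) : ℝ) : ℂ) := by simp only [hp, q0]; ring
  have bd : ∀ b : ℝ, 0 ≤ b → (∀ z ∈ K, z.im ≤ b) → ∀ u : ℂ, ‖u‖ ≤ 1 →
      0 ≤ (p u).re ∧ (p u).re ≤ 2 * b := by
    intro b b0 hb
    have circ : ∀ u : ℂ, ‖u‖ = 1 → 0 ≤ (p u).re ∧ (p u).re ≤ 2 * b := by
      intro u hu
      have u0 : u ≠ 0 := by
        rintro rfl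
        simp at hu
      have e1 : u⁻¹ = conj u := Complex.inv_eq_conj hu
      have e2 : p u = (conj u - u) * (g (Z u) - Z u) := by
        simp only [hp, q1 u u0, ← e1]
        field_simp
      have e3 : (Z u).im = -(2 * r * u.im) := by simp [hZ, e1, hρ]
      have e4 : (p u).re = 2 * u.im * (g (Z u) - Z u).im := by
        rw [e2, Complex.mul_re]
        simp only [Complex.sub_re, Complex.conj_re, Complex.sub_im, Complex.conj_im]
        ring
      obtain ⟨h1, h2⟩ := l1s_im hProp h hs b0 hb (ZD u u0 (by rw [hu]; norm_num))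
      have e5 : |u.im| ≤ 1 := hu ▸ Complex.abs_im_le_norm u
      rw [e3, neg_neg] at h1 h2
      rw [abs_neg, abs_mul, abs_of_pos (by positivity : 0 < 2 * r)] at h2
      have e6 : 2 * r * |u.im| * b ≤ 2 * r * b := by
        have := mul_le_mul_of_nonneg_left e5 (by positivity : 0 ≤ 2 * r * b)
        linarith
      rw [e4]
      exact ⟨le_of_mul_le_mul_left (by linarith) r0, le_of_mul_le_mul_left (by linarith) r0⟩
    intro u hu
    have := l1s_max (p := fun u => -p u) dp.neg (C := 0)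
      (fun u hu => by simpa using (circ u hu).1) hu
    exact ⟨by simpa using this, l1s_max dp (fun u hu => (circ u hu).2) hu⟩
  have bd0 := bd r r0.le fun z hz => by
    have h1 : ‖z - x‖ ≤ r := by simpa [dist_eq_norm] using hK hz
    have h2 := (le_abs_self _).trans (Complex.abs_im_le_norm (z - x))
    simp only [Complex.sub_im, Complex.ofReal_im, sub_zero] at h2
    linarith
  have a0 : 0 ≤ a / (2 * r) := by simpa only [p0, Complex.ofReal_re] using (bd0 0 (by simp)).1
  refine ⟨?_, fun b b0 hb => ?_, fun z hz => ?_⟩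
  · have := mul_nonneg a0 (by positivity : 0 ≤ 2 * r)
    rwa [div_mul_cancel₀ _ (by positivity)] at this
  · have := (bd b b0 hb 0 (by simp)).2
    rw [p0, Complex.ofReal_re, div_le_iff₀ (by positivity)] at this
    linarith
  · have n0 : 0 < ‖z - x‖ := by linarith
    have z0 : z - x ≠ 0 := norm_pos_iff.1 n0
    set u : ℂ := ρ / (z - x) with hu
    have u0 : u ≠ 0 := div_ne_zero ρ0 z0
    have nu : ‖u‖ = 2 * r / ‖z - x‖ := by rw [hu, norm_div, nρ]
    have nu' : ‖u‖ ≤ 1 / 2 := by
      rw [nu, div_le_iff₀ n0]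
      linarith
    have Zu : Z u = z := by
      simp only [hZ, hu]
      field_simp
      ring
    set c : ℝ := a / (2 * r) with hc
    have e1 : g z - z - a / (z - x) = u * (q u - c) := by
      rw [q1 u u0, Zu, hc, Complex.ofReal_div, ← hρ, hu]
      field_simp
    have h1 := harn_re (c := 0) (R := 1) (z := u) (dp.mono (ball_subset_ball one_le_two))
      (fun w hw => (bd0 w (by simpa using (mem_ball_zero_iff.1 hw).le)).1)
      (mem_ball_zero_iff.2 (by linarith))
    rw [p0, Complex.ofReal_re, sub_zero] at h1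
    have un := norm_nonneg u
    have h2 : ‖p u - c‖ ≤ 4 * c * ‖u‖ := by
      refine h1.trans ?_
      rw [div_le_iff₀ (by linarith)]
      nlinarith [mul_nonneg a0 un]
    have h3 : (1 - u ^ 2) * (q u - c) = (p u - c) + u ^ 2 * c := by simp only [hp]; ring
    have h4 : 3 / 4 ≤ ‖1 - u ^ 2‖ := by
      have := norm_sub_norm_le (1 : ℂ) (u ^ 2)
      rw [norm_one, norm_pow] at this
      nlinarith
    have h5 : ‖1 - u ^ 2‖ * ‖q u - c‖ ≤ 4 * c * ‖u‖ + ‖u‖ ^ 2 * c := by
      rw [← norm_mul, h3]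
      refine (norm_add_le _ _).trans (add_le_add h2 ?_)
      rw [norm_mul, norm_pow, Complex.norm_real, Real.norm_of_nonneg a0]
    have h6 : ‖q u - c‖ ≤ 6 * c * ‖u‖ := by
      nlinarith [mul_nonneg a0 un, norm_nonneg (q u - c)]
    rw [e1, norm_mul]
    refine (mul_le_mul_of_nonneg_left h6 un).trans (le_of_eq ?_)
    rw [nu, hc]
    field_simp
    ring

end Pool.Agent.P.MP_6c8efb_pr.SLE.L
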