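import Pool.Agent.P.MP_6c8efb_pr.SLE.LIface

/-!
The length-area inequality.
-/

namespace Pool.Agent.P.MP_6c8efb_pr.SLE.L

open Set Filter Topology Metric Complex MeasureTheory
open scoped NNReal ENNReal

/-- The area density, cut off outside `V`. -/
noncomputable def la_h (F : ℂ → ℂ) (V : Set ℂ) : ℂ → ℝ≥0∞ :=
  V.indicator fun z => ENNReal.ofReal (‖deriv F z‖ ^ 2)

/-- The area density integrated over a circle. -/
noncomputable def la_A (F : ℂ → ℂ) (V : Set ℂ) (c : ℂ) (s : ℝ) : ℝ≥0∞ :=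
  ∫⁻ θ in Ioo (-Real.pi) Real.pi, ENNReal.ofReal s * la_h F V (c + s * cexp (θ * I))

theorem la_meas (F : ℂ → ℂ) {V : Set ℂ} (hV : MeasurableSet V) : Measurable (la_h F V) :=
  (((measurable_deriv F).norm.pow_const 2).ennreal_ofReal).indicator hV

theorem la_meas2 (F : ℂ → ℂ) {V : Set ℂ} (hV : MeasurableSet V) (c : ℂ) :
    Measurable fun p : ℝ × ℝ => ENNReal.ofReal p.1 * la_h F V (c + p.1 * cexp (p.2 * I)) := by
  refine measurable_fst.ennreal_ofReal.mul ((la_meas F hV).comp ?_)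
  exact Continuous.measurable (by fun_prop)

theorem la_measA (F : ℂ → ℂ) {V : Set ℂ} (hV : MeasurableSet V) (c : ℂ) :
    Measurable (la_A F V c) :=
  (la_meas2 F hV c).lintegral_prod_right'

theorem la_det (w : ℂ) :
    |((ContinuousLinearMap.toSpanSingleton ℂ w).restrictScalars ℝ).det| = ‖w‖ ^ 2 := by
  simp [ContinuousLinearMap.det, LinearMap.det_restrictScalars, Algebra.norm_complex_eq,
    Complex.normSq_eq_norm_sq]

theorem la_area {F : ℂ → ℂ} {V : Set ℂ} {M : ℝ} (hV : IsOpen V) (hF : DifferentiableOn ℂ F V)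
    (hi : InjOn F V) (hM0 : 0 < M) (hM : ∀ z ∈ V, ‖F z‖ ≤ M) :
    ∫⁻ z, la_h F V z ≤ ENNReal.ofReal (Real.pi * M ^ 2) := by
  unfold la_h
  rw [lintegral_indicator hV.measurableSet]
  have h := lintegral_abs_det_fderiv_eq_addHaar_image (volume : Measure ℂ) hV.measurableSet
    (f := F) (f' := fun z => (ContinuousLinearMap.toSpanSingleton ℂ (deriv F z)).restrictScalars ℝ)
    (fun z hz => (((hF.differentiableAt (hV.mem_nhds hz)).hasDerivAt.hasFDerivAt).restrictScalars
      ℝ).hasFDerivWithinAt) hi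
  simp only [la_det] at h
  rw [h]
  have h2 : F '' V ⊆ closedBall 0 M := by
    rintro _ ⟨z, hz, rfl⟩
    simpa using hM z hz
  refine (measure_mono h2).trans (le_of_eq ?_)
  rw [Complex.volume_closedBall, mul_comm Real.pi, ENNReal.ofReal_mul (by positivity),
    ENNReal.ofReal_pow hM0.le]
  congr 1
  rw [← NNReal.coe_real_pi, ENNReal.ofReal_coe_nnreal]

theorem la_polar (F : ℂ → ℂ) {V : Set ℂ} (hV : MeasurableSet V) (c : ℂ) {s₀ : ℝ} (s₁ : ℝ)
    (h0 : 0 < s₀) : ∫⁻ s in Ioo s₀ s₁, la_A F V c s ≤ ∫⁻ z, la_h F V z := by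
  rw [← lintegral_add_left_eq_self (la_h F V) c, ← Complex.lintegral_comp_polarCoord_symm]
  have h1 : ∫⁻ s in Ioo s₀ s₁, la_A F V c s =
      ∫⁻ p in Ioo s₀ s₁ ×ˢ Ioo (-Real.pi) Real.pi,
        ENNReal.ofReal p.1 * la_h F V (c + p.1 * cexp (p.2 * I)) := by
    rw [Measure.volume_eq_prod, ← Measure.prod_restrict,
      lintegral_prod _ (la_meas2 F hV c).aemeasurable]
    rfl
  rw [h1]
  have h2 : Ioo s₀ s₁ ×ˢ Ioo (-Real.pi) Real.pi ⊆ polarCoord.target := by
    rw [polarCoord_target]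
    exact prod_mono (fun s hs => h0.trans hs.1) le_rfl
  refine le_trans (le_of_eq ?_) (lintegral_mono_set h2)
  refine lintegral_congr fun p => ?_
  rw [Complex.polarCoord_symm_apply, exp_mul_I, smul_eq_mul, ofReal_cos, ofReal_sin]

theorem la_cs (F : ℂ → ℂ) {U : Set ℂ} (hU : IsOpen U) (c : ℂ) {s s₁ lam : ℝ} (hs : 0 < s)
    (hs1 : s < s₁) (hl : 0 < lam) (h : ENNReal.ofReal lam < clen F U c s) :
    ENNReal.ofReal (lam ^ 2 / (2 * Real.pi) * s⁻¹) ≤ la_A F (U ∩ ball c s₁) c s := by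
  by_contra hc
  have hc := (not_le.1 hc).le
  have hp := Real.pi_pos
  have hV : MeasurableSet (U ∩ ball c s₁) := (hU.inter isOpen_ball).measurableSet
  set t : ℝ := lam / (2 * Real.pi) with ht
  have ht0 : 0 < t := by positivity
  have hm : Measurable fun θ : ℝ =>
      ENNReal.ofReal s * la_h F (U ∩ ball c s₁) (c + s * cexp (θ * I)) :=
    (la_meas2 F hV c).comp (measurable_prodMk_left (x := s))
  have hS : MeasurableSet {θ : ℝ | θ ∈ Ioo (-Real.pi) Real.pi ∧ c + s * cexp (θ * I) ∈ U} := by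
    refine measurableSet_Ioo.inter (hU.preimage ?_).measurableSet
    fun_prop
  have h1 : clen F U c s ≤ ∫⁻ θ in Ioo (-Real.pi) Real.pi, (ENNReal.ofReal (t / 2) +
      ENNReal.ofReal (s / (2 * t)) *
        (ENNReal.ofReal s * la_h F (U ∩ ball c s₁) (c + s * cexp (θ * I)))) := by
    refine le_trans (setLIntegral_mono' hS fun θ hθ => ?_) (lintegral_mono_set fun θ hθ => hθ.1)
    have hin : c + s * cexp (θ * I) ∈ U ∩ ball c s₁ := by
      refine ⟨hθ.2, ?_⟩
      simp [mem_ball, dist_eq_norm, abs_of_pos hs, hs1]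
    unfold la_h
    rw [indicator_of_mem hin, ← ENNReal.ofReal_mul hs.le, ← ENNReal.ofReal_mul (by positivity),
      ← ENNReal.ofReal_add (by positivity) (by positivity)]
    refine ENNReal.ofReal_le_ofReal ?_
    set x := ‖deriv F (c + s * cexp (θ * I))‖
    have e : t / 2 + s / (2 * t) * (s * x ^ 2) - x * s = (t - x * s) ^ 2 / (2 * t) := by
      field_simp
      ring
    have : 0 ≤ (t - x * s) ^ 2 / (2 * t) := by positivity
    linarith
  rw [lintegral_add_left measurable_const, lintegral_const_mul _ hm, setLIntegral_const,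
    Real.volume_Ioo] at h1
  have h2 : clen F U c s ≤ ENNReal.ofReal lam := by
    refine h1.trans ((add_le_add le_rfl (mul_le_mul_right hc _)).trans (le_of_eq ?_))
    rw [← ENNReal.ofReal_mul (by positivity), ← ENNReal.ofReal_mul (by positivity),
      ← ENNReal.ofReal_add (by nlinarith) (by positivity)]
    congr 1
    rw [ht]
    field_simp
    ring
  exact absurd h (not_lt.2 h2)

theorem s_La : S_La := by
  intro F₁ F₂ U₁ U₂ c s₀ s₁ M hU₁ hU₂ hF₁ hF₂ hi₁ hi₂ h0 h01 hM hb₁ hb₂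
  by_contra hc
  have hp := Real.pi_pos
  have hlog : 0 < Real.log (s₁ / s₀) := Real.log_pos ((one_lt_div h0).2 h01)
  set lam : ℝ := 7 * M / √(Real.log (s₁ / s₀)) with hlam
  have hl : 0 < lam := div_pos (by positivity) (Real.sqrt_pos.2 hlog)
  have hV₁ : IsOpen (U₁ ∩ ball c s₁) := hU₁.inter isOpen_ball
  have hV₂ : IsOpen (U₂ ∩ ball c s₁) := hU₂.inter isOpen_ball
  have key : ∀ s ∈ Ioo s₀ s₁, ENNReal.ofReal (lam ^ 2 / (2 * Real.pi) * s⁻¹) ≤
      la_A F₁ (U₁ ∩ ball c s₁) c s + la_A F₂ (U₂ ∩ ball c s₁) c s := by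
    intro s hs
    by_cases h1 : clen F₁ U₁ c s ≤ ENNReal.ofReal lam
    · by_cases h2 : clen F₂ U₂ c s ≤ ENNReal.ofReal lam
      · exact absurd ⟨s, hs, h1, h2⟩ hc
      · exact (la_cs F₂ hU₂ c (h0.trans hs.1) hs.2 hl (not_le.1 h2)).trans le_add_self
    · exact (la_cs F₁ hU₁ c (h0.trans hs.1) hs.2 hl (not_le.1 h1)).trans le_self_add
  have h1 := setLIntegral_mono' (μ := volume) measurableSet_Ioo key
  rw [lintegral_add_left (la_measA F₁ hV₁.measurableSet c)] at h1
  have a₁ := (la_polar F₁ hV₁.measurableSet c s₁ h0).trans (la_area hV₁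
    (hF₁.mono inter_subset_left) (hi₁.mono inter_subset_left) hM
    fun z hz => hb₁ z hz.1 (mem_ball_iff_norm.1 hz.2))
  have a₂ := (la_polar F₂ hV₂.measurableSet c s₁ h0).trans (la_area hV₂
    (hF₂.mono inter_subset_left) (hi₂.mono inter_subset_left) hM
    fun z hz => hb₂ z hz.1 (mem_ball_iff_norm.1 hz.2))
  have h2 := h1.trans (add_le_add a₁ a₂)
  have hint : IntervalIntegrable (fun s : ℝ => lam ^ 2 / (2 * Real.pi) * s⁻¹) volume s₀ s₁ := by
    refine ContinuousOn.intervalIntegrable (continuousOn_const.mul (continuousOn_inv₀.mono ?_))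
    intro s hs
    rw [uIcc_of_le h01.le] at hs
    exact (h0.trans_le hs.1).ne'
  have h3 : ∫⁻ s in Ioo s₀ s₁, ENNReal.ofReal (lam ^ 2 / (2 * Real.pi) * s⁻¹) =
      ENNReal.ofReal (lam ^ 2 / (2 * Real.pi) * Real.log (s₁ / s₀)) := by
    rw [← ofReal_integral_eq_lintegral_ofReal
      ((intervalIntegrable_iff_integrableOn_Ioo_of_le h01.le).1 hint), ← integral_Ioc_eq_integral_Ioo,
      ← intervalIntegral.integral_of_le h01.le, intervalIntegral.integral_const_mul,
      integral_inv_of_pos h0 (h0.trans h01)]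
    filter_upwards [ae_restrict_mem measurableSet_Ioo] with s hs
    have := h0.trans hs.1
    positivity
  rw [h3, ← ENNReal.ofReal_add (by positivity) (by positivity),
    ENNReal.ofReal_le_ofReal_iff (by positivity)] at h2
  have h4 : lam ^ 2 / (2 * Real.pi) * Real.log (s₁ / s₀) = 49 * M ^ 2 / (2 * Real.pi) := by
    rw [hlam, div_pow, Real.sq_sqrt hlog.le]
    field_simp
    ring
  rw [h4, div_le_iff₀ (by positivity)] at h2
  have h5 := Real.pi_lt_d2
  have h6 : Real.pi ^ 2 < 10 := by nlinarith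
  have h7 : 0 < M ^ 2 := by positivity
  nlinarith

end Pool.Agent.P.MP_6c8efb_pr.SLE.L
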