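import Pool.Agent.P.MP_6c8efb_pr.SLE.LIface

/-! Block L: removability of the real line and the Lipschitz bound near a free real point. -/

namespace Pool.Agent.P.MP_6c8efb_pr.SLE.L

open Set Filter Topology Metric Complex MeasureTheory
open scoped NNReal ComplexConjugate Interval

theorem lip_rect {V : Set ℂ} {F : ℂ → ℂ} (hc : ContinuousOn F V)
    (hd : DifferentiableOn ℂ F {z ∈ V | z.im ≠ 0}) (a b c d : ℝ) (hs : [[a, b]] ×ℂ [[c, d]] ⊆ V)
    (h0 : (0 : ℝ) ∉ Ioo (min c d) (max c d)) :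
    (∫ x : ℝ in a..b, F (x + c * I)) - (∫ x : ℝ in a..b, F (x + d * I)) +
      I • (∫ y : ℝ in c..d, F (b + y * I)) - I • (∫ y : ℝ in c..d, F (a + y * I)) = 0 :=
  integral_boundary_rect_eq_zero_of_continuousOn_of_differentiableOn F ⟨a, c⟩ ⟨b, d⟩ (hc.mono hs)
    (hd.mono fun _ hz => ⟨hs ⟨Ioo_subset_Icc_self hz.1, Ioo_subset_Icc_self hz.2⟩,
      fun e => h0 (e ▸ hz.2)⟩)

theorem lip_int {V : Set ℂ} {F : ℂ → ℂ} (hc : ContinuousOn F V) {a b c d x : ℝ}
    (hs : [[a, b]] ×ℂ [[c, d]] ⊆ V) (hx : x ∈ [[a, b]]) :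
    IntervalIntegrable (fun y : ℝ => F (x + y * I)) volume c d := by
  refine ContinuousOn.intervalIntegrable (hc.comp (by fun_prop) fun y hy => hs ?_)
  constructor
  · simpa using hx
  · simpa using hy

theorem s_Mor : S_Mor := by
  intro V F hV hc hd
  refine (isConservativeOn_and_continuousOn_iff_isDifferentiableOn hV).1 ⟨fun z w hzw => ?_, hc⟩
  rw [← add_eq_zero_iff_eq_neg, wedgeIntegral_add_wedgeIntegral_eq]
  have hs : [[z.re, w.re]] ×ℂ [[z.im, w.im]] ⊆ V := hzw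
  by_cases h0 : (0 : ℝ) ∈ Ioo (min z.im w.im) (max z.im w.im)
  · have hm : (0 : ℝ) ∈ [[z.im, w.im]] := Ioo_subset_Icc_self h0
    have s1 : [[z.re, w.re]] ×ℂ [[z.im, 0]] ⊆ V := fun u hu =>
      hs ⟨hu.1, uIcc_subset_uIcc_left hm hu.2⟩
    have s2 : [[z.re, w.re]] ×ℂ [[0, w.im]] ⊆ V := fun u hu =>
      hs ⟨hu.1, uIcc_subset_uIcc_right hm hu.2⟩
    have e1 := lip_rect hc hd _ _ _ _ s1 fun h => by
      rcases le_total z.im 0 with k | k
      · simp [k] at h
      · simp [k] at h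
    have e2 := lip_rect hc hd _ _ _ _ s2 fun h => by
      rcases le_total w.im 0 with k | k
      · simp [k] at h
      · simp [k] at h
    rw [← intervalIntegral.integral_add_adjacent_intervals (lip_int hc s1 right_mem_uIcc)
        (lip_int hc s2 right_mem_uIcc),
      ← intervalIntegral.integral_add_adjacent_intervals (lip_int hc s1 left_mem_uIcc)
        (lip_int hc s2 left_mem_uIcc)]
    simp only [smul_eq_mul] at e1 e2 ⊢
    linear_combination e1 + e2
  · exact lip_rect hc hd _ _ _ _ hs h0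

theorem lip_im (hMaxp : S_Maxp) (hProp : S_Prop) {K : Set ℂ} {g f : ℂ → ℂ} {a : ℝ}
    (h : Hyd K g f a) {x ρ M : ℝ} (hρ : 0 < ρ) (hM : 0 < M)
    (hK : ∀ z : ℂ, |z.re - x| < ρ → 0 < z.im → z.im < ρ → z ∉ K ∧ ‖g z‖ ≤ M)
    {z : ℂ} (hx : z.re = x) (h0 : 0 < z.im) (h1 : z.im < ρ) :
    (g z).im ≤ 2 * M / ρ * z.im := by
  obtain ⟨A, hA⟩ : ∃ A : ℝ, A = 2 * M / ρ := ⟨_, rfl⟩
  obtain ⟨B, hB⟩ : ∃ B : ℝ, B = M / ρ ^ 2 := ⟨_, rfl⟩
  have hB0 : 0 < B := by rw [hB]; positivity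
  have hAB : A = 2 * B * ρ := by rw [hA, hB]; field_simp
  have hMB : M = B * ρ ^ 2 := by rw [hB]; field_simp
  let Q : Set ℂ := {z | |z.re - x| < ρ ∧ 0 < z.im ∧ z.im < ρ}
  let P : ℂ → ℂ := fun z => A * (z - x) + I * B * (z - x) ^ 2
  have hP : ∀ z, (P z).im = A * z.im + B * ((z.re - x) ^ 2 - z.im ^ 2) := fun z => by
    simp [P, pow_two]
  have hPc : Continuous fun z => (P z).im := by fun_prop
  have hab : Continuous fun z : ℂ => |z.re - x| := by fun_prop
  have hQ : IsOpen Q := (isOpen_lt hab continuous_const).inter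
    ((isOpen_lt continuous_const continuous_im).inter (isOpen_lt continuous_im continuous_const))
  have hQD : Q ⊆ HH \ K := fun z hz => ⟨hz.2.1, (hK z hz.1 hz.2.1 hz.2.2).1⟩
  have hcl : closure Q ⊆ {z | |z.re - x| ≤ ρ ∧ 0 ≤ z.im ∧ z.im ≤ ρ} :=
    closure_minimal (fun z hz => ⟨hz.1.le, hz.2.1.le, hz.2.2.le⟩)
      ((isClosed_le hab continuous_const).inter
        ((isClosed_le continuous_const continuous_im).inter
          (isClosed_le continuous_im continuous_const)))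
  have key := hMaxp Q (fun z => g z - P z) 0 hQ ((h.dg.mono hQD).sub (by fun_prop))
    (fun b hb ε hε => ?_) (fun ε hε => ⟨|x| + 2 * ρ, fun z hz hR => ?_⟩) z
    ⟨by simpa [hx] using hρ, h0, h1⟩
  · rw [sub_im, hP, hx] at key
    rw [← hA]
    nlinarith [mul_pos hB0 (pow_pos h0 2)]
  · rw [hQ.frontier_eq] at hb
    obtain ⟨c1, c2, c3⟩ := hcl hb.1
    have hev : ∀ᶠ z in 𝓝[Q] b, (P b).im - ε / 2 < (P z).im :=
      mem_nhdsWithin_of_mem_nhds (hPc.continuousAt.eventually (lt_mem_nhds (by linarith)))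
    rcases c2.eq_or_lt with c2 | c2
    · obtain ⟨δ, hδ, hg⟩ := (hProp K g f a h).1 (ε / 2) (‖b‖ + 1) (by linarith)
      have hb0 : 0 ≤ (P b).im := by rw [hP, ← c2]; simpa using mul_nonneg hB0.le (sq_nonneg _)
      have hn : ∀ᶠ z in 𝓝[Q] b, z ∈ closedBall b (min δ 1) :=
        mem_nhdsWithin_of_mem_nhds (closedBall_mem_nhds b (lt_min hδ one_pos))
      filter_upwards [hev, hn, self_mem_nhdsWithin] with z h1 h2 h3
      rw [mem_closedBall, dist_eq_norm, le_min_iff] at h2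
      have := hg z (hQD h3) (by linarith [norm_sub_norm_le z b, h2.2]) b
        (fun k => absurd k.1 (by simp [mem_HH, ← c2])) h2.1
      rw [sub_im]; linarith
    · have hb0 : M ≤ (P b).im := by
        rw [hP, hAB, hMB]
        rcases c3.eq_or_lt with c3 | c3
        · rw [c3]; nlinarith [mul_nonneg hB0.le (sq_nonneg (b.re - x))]
        · have e : |b.re - x| = ρ := c1.eq_of_not_lt fun k => hb.2 ⟨k, c2, c3⟩
          rw [← sq_abs (b.re - x), e]
          nlinarith [mul_pos (mul_pos hB0 c2) (show 0 < 2 * ρ - b.im by linarith)]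
      filter_upwards [hev, self_mem_nhdsWithin] with z h1 h3
      have := ((le_abs_self _).trans (abs_im_le_norm (g z))).trans (hK z h3.1 h3.2.1 h3.2.2).2
      rw [sub_im]; linarith
  · exfalso
    have k1 := norm_le_abs_re_add_abs_im z
    have k2 := abs_sub_abs_le_abs_sub z.re x
    rw [abs_of_pos hz.2.1] at k1
    linarith [hz.1, hz.2.2]

theorem s_Lip (hMaxp : S_Maxp) (hProp : S_Prop) : S_Lip := by
  intro K g f a h x hx
  obtain ⟨r, hr, hb⟩ := Metric.isOpen_iff.1 isClosed_closure.isOpen_compl _ hx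
  obtain ⟨M₀, hM₀⟩ := h.loc (|x| + r)
  obtain ⟨ρ, rfl⟩ : ∃ ρ, r = 3 * ρ := ⟨r / 3, by ring⟩
  have hρ : 0 < ρ := by linarith
  have hM : 0 < max M₀ 1 := lt_max_of_lt_right one_pos
  have hD : ∀ z : ℂ, ‖z - x‖ < 3 * ρ → 0 < z.im → z ∈ HH \ K := fun z hz h0 =>
    ⟨h0, fun k => hb (by rwa [mem_ball, dist_eq_norm]) (subset_closure k)⟩
  have hbd : ∀ z ∈ ball (x : ℂ) ρ, |z.re - x| < ρ ∧ z.im < ρ := fun z hz => by
    rw [mem_ball, dist_eq_norm] at hz
    have k1 := abs_re_le_norm (z - x)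
    have k2 := (le_abs_self _).trans (abs_im_le_norm (z - x))
    simp only [sub_re, ofReal_re, sub_im, ofReal_im, sub_zero] at k1 k2
    exact ⟨k1.trans_lt hz, k2.trans_lt hz⟩
  have him : ∀ z ∈ ball (x : ℂ) ρ ∩ HH, (g z).im ≤ 2 * max M₀ 1 / ρ * z.im := fun z hz => by
    refine lip_im hMaxp hProp h hρ hM (fun w w1 w2 w3 => ?_) rfl hz.2 (hbd z hz.1).2
    have k1 := norm_le_abs_re_add_abs_im (w - x)
    simp only [sub_re, ofReal_re, sub_im, ofReal_im, sub_zero, abs_of_pos w2] at k1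
    have k2 := abs_sub_le w.re z.re x
    have k3 : ‖w - x‖ < 3 * ρ := by linarith [(hbd z hz.1).1]
    have k4 := norm_sub_norm_le w x
    rw [norm_real, Real.norm_eq_abs] at k4
    exact ⟨(hD w k3 w2).2, (hM₀ w (hD w k3 w2) (by linarith)).trans (le_max_left _ _)⟩
  have hsub : ball (x : ℂ) ρ ∩ HH ⊆ HH \ K := fun z hz =>
    hD z (by have := hz.1; rw [mem_ball, dist_eq_norm] at this; linarith) hz.2
  have hA : 0 < 2 * max M₀ 1 / ρ := by positivity
  generalize 2 * max M₀ 1 / ρ = A at him hA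
  refine ⟨ρ, ⟨2 * A, by positivity⟩, hρ, hsub, ?_, fun z hz => ?_⟩
  · refine ((convex_ball _ _).inter convex_HH).lipschitzOnWith_of_nnnorm_deriv_le
      (fun z hz => h.diffAt_g (hsub hz)) fun z hz => ?_
    have hz0 : 0 < z.im := hz.2
    have hs : ball z z.im ⊆ HH \ K := fun w hw => by
      rw [mem_ball, dist_eq_norm] at hw
      have k1 := hz.1
      rw [mem_ball, dist_eq_norm] at k1
      have k2 := norm_sub_le_norm_sub_add_norm_sub w z x
      have k3 := (neg_le_abs _).trans (abs_im_le_norm (w - z))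
      rw [sub_im] at k3
      exact hD w (by linarith [(hbd z hz.1).2]) (by linarith)
    have := harn_deriv hz0 (h.dg.mono hs) fun w hw => (h.mg (hs hw)).le
    change ‖deriv g z‖ ≤ 2 * A
    refine this.trans ?_
    rw [div_le_iff₀ hz0]
    linarith [him z hz]
  · change (g z).im ≤ 2 * A * z.im
    have hz0 : 0 < z.im := hz.2
    nlinarith [him z hz, mul_pos hA hz0]

end Pool.Agent.P.MP_6c8efb_pr.SLE.L
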