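import Pool.Agent.P.MP_6c8efb_pr.SLE.LIface

/-!
Block L of the SLE project: theorem of Montel.
-/

namespace Pool.Agent.P.MP_6c8efb_pr.SLE.L

open Set Filter Topology Metric Complex
open scoped NNReal ComplexConjugate

theorem mont_ultra {U : Set ℂ} {F : ℕ → ℂ → ℂ} {M : ℝ} (hU : IsOpen U)
    (hd : ∀ n, DifferentiableOn ℂ (F n) U) (hb : ∀ n, ∀ z ∈ U, ‖F n z‖ ≤ M) (l : Ultrafilter ℕ) :
    ∃ f : ℂ → ℂ, DifferentiableOn ℂ f U ∧ TendstoLocallyUniformlyOn F f l U := by
  have hex : ∀ w : ℂ, ∃ c : ℂ, w ∈ U → Tendsto (fun n => F n w) l (𝓝 c) := fun w => by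
    by_cases hw : w ∈ U
    · obtain ⟨c, -, h2⟩ := (isCompact_closedBall (0 : ℂ) M).ultrafilter_le_nhds
        (l.map fun n => F n w) (le_principal_iff.2 (mem_map.2 (univ_mem' fun n =>
          mem_closedBall_zero_iff.2 (hb n w hw))))
      exact ⟨c, fun _ => h2⟩
    · exact ⟨0, fun h => absurd h hw⟩
  choose g hg using hex
  have hT : TendstoLocallyUniformlyOn F g l U := by
    refine Metric.tendstoLocallyUniformlyOn_iff.2 fun δ hδ w hw => ?_
    obtain ⟨r, hr, hrU⟩ := Metric.isOpen_iff.1 hU w hw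
    have hL : ∀ n, ∀ v ∈ ball w r, dist (F n v) (F n w) ≤ (M + M) / r * dist v w := by
      intro n v hv
      refine dist_le_div_mul_dist_of_mapsTo_ball ((hd n).mono hrU) (fun u hu => ?_) hv
      exact mem_closedBall_iff_norm.2 ((norm_sub_le _ _).trans (add_le_add (hb n u (hrU hu))
        (hb n w hw)))
    have h1 : ∀ᶠ v in 𝓝 w, (M + M) / r * dist v w < δ / 3 :=
      (Continuous.tendsto' (by fun_prop) _ 0 (by simp)).eventually_lt_const (by positivity)
    refine ⟨_, nhdsWithin_le_nhds (h1.and (ball_mem_nhds w hr)), ?_⟩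
    filter_upwards [Metric.tendsto_nhds.1 (hg w hw) (δ / 3) (by positivity)] with n h3 v hv
    have h4 := le_of_tendsto' ((hg v (hrU hv.2)).dist (hg w hw)) fun n => hL n v hv.2
    have h5 := hL n v hv.2
    have h6 := dist_triangle4 (g v) (g w) (F n w) (F n v)
    rw [dist_comm (g w), dist_comm (F n w) (F n v)] at h6
    linarith [hv.1]
  exact ⟨g, hT.differentiableOn (Eventually.of_forall hd) hU, hT⟩

theorem s_Mont : S_Mont := by
  intro U F M hU hd hb
  refine ⟨mont_ultra hU hd hb, ?_⟩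
  obtain ⟨f, hf, hT⟩ := mont_ultra hU hd hb (hyperfilter ℕ)
  set K : ℕ → Set ℂ := fun j => closedBall 0 j ∩ (thickening (1 / (j + 1 : ℝ)) Uᶜ)ᶜ with hK
  have hKc : ∀ j, IsCompact (K j) := fun j =>
    (isCompact_closedBall _ _).inter_right isOpen_thickening.isClosed_compl
  have hKU : ∀ j, K j ⊆ U := fun j z hz => by
    by_contra h
    exact hz.2 (self_subset_thickening (by positivity) _ h)
  obtain ⟨φ, hφ, h⟩ := extraction_forall_of_frequently
    (P := fun j n => ∀ z ∈ K j, dist (f z) (F n z) < 1 / (j + 1 : ℝ)) fun j =>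
      ((Metric.tendstoUniformlyOn_iff.1
        ((tendstoLocallyUniformlyOn_iff_forall_isCompact hU).1 hT _ (hKU j) (hKc j)) _
        (by positivity)).frequently).filter_mono Nat.hyperfilter_le_atTop
  refine ⟨φ, f, hφ, hf, Metric.tendstoLocallyUniformlyOn_iff.2 fun δ hδ w hw => ?_⟩
  obtain ⟨r, hr, hrU⟩ := Metric.isOpen_iff.1 hU w hw
  refine ⟨_, nhdsWithin_le_nhds (ball_mem_nhds w (half_pos hr)), ?_⟩
  have hs := tendsto_one_div_add_atTop_nhds_zero_nat (𝕜 := ℝ)
  filter_upwards [hs.eventually_lt_const hδ, hs.eventually_lt_const (half_pos hr),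
    (tendsto_natCast_atTop_atTop (R := ℝ)).eventually_ge_atTop (‖w‖ + r)] with j h1 h2 h3 v hv
  refine (h j v ⟨?_, fun hc => ?_⟩).trans h1
  · rw [mem_ball, dist_eq_norm] at hv
    rw [mem_closedBall_zero_iff]
    linarith [norm_sub_norm_le v w]
  · obtain ⟨y, hy, hyv⟩ := mem_thickening_iff.1 hc
    refine hy (hrU ?_)
    rw [mem_ball] at hv ⊢
    linarith [dist_triangle_left y w v]

end Pool.Agent.P.MP_6c8efb_pr.SLE.L
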