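import Pool.Agent.P.MP_6c8efb_pr.SLE.LIface

/-!
Block L of the SLE project: in the limit the hulls still grow.
-/

namespace Pool.Agent.P.MP_6c8efb_pr.SLE.L

open Set Filter Topology Metric Complex
open scoped NNReal ComplexConjugate

theorem ne_high (hL1 : S_L1) (hStep : S_Step) {η : ℝ≥0 → ℂ} (h : CapPar η) {t u : ℝ≥0}
    (htu : t < u) {R : ℝ} (hR : 0 < R) (hb : ∀ v ≤ u, ‖η v‖ ≤ R) :
    ∃ v ∈ Ioc t u, ‖gt η t (η v)‖ ≤ 13 * R ∧ (u - t) / (52 * R) ≤ (gt η t (η v)).im := by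
  have hc := h.toSimple.toCurve
  have h1 : ∀ v ∈ Ioc t u, ‖gt η t (η v)‖ ≤ 13 * R := fun v hv => by
    have h2 := ((hL1 _ _ _ _ (h.hyd t)).1 0 R hR (by
      simpa using hull_subset_ball fun x hx => hb x (hx.trans htu.le))).2.2.2 _ (hc.mem_D hv.1)
    have h3 := norm_le_norm_add_norm_sub' (gt η t (η v)) (η v)
    linarith [hb v hv.2]
  by_contra hn
  push Not at hn
  have htu' : (t : ℝ) < u := htu
  have h2 := (hStep η h.toSimple t u 0 (13 * R) htu.le (by positivity)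
    (fun v hv => by simpa using h1 v hv)).2.2.1 ((u - t) / (52 * R))
    (div_nonneg (by linarith) (by positivity)) fun v hv => (hn v hv (h1 v hv)).le
  rw [h.clock, h.clock, show 4 * (13 * R) * (((u : ℝ) - t) / (52 * R)) = u - t by
    field_simp; ring] at h2
  linarith

theorem s_Ne (hL1 : S_L1) (hStep : S_Step) (hCont : S_Cont) (hOde : S_Ode) (hBwd : S_Bwd)
    (hClosed : S_Closed) : S_Ne := by
  intro p hp t u htu
  have htu' : (t : ℝ) < u := htu
  obtain ⟨R, hR, hb⟩ := exists_bound p.2.continuous u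
  have h0 : ∀ n : ℕ, (0 : ℝ) < 1 / (n + 1) := fun n => by positivity
  choose η hη hap using fun n : ℕ => approx hp u (h0 n)
  have h1 : ∀ n, ∀ v ≤ u, ‖η n v‖ ≤ R + 1 := fun n v hv => by
    have a1 := norm_le_norm_add_norm_sub (p.2 v) (η n v)
    have a2 : (1 : ℝ) / (n + 1) ≤ 1 := div_le_one_of_le₀ (by simp) (by positivity)
    linarith [hb v hv, (hap n v hv).2]
  choose v hv hw using fun n => ne_high hL1 hStep (hη n) htu (by linarith : 0 < R + 1) (h1 n)
  obtain ⟨c, hc⟩ : ∃ c : ℝ, c = (u - t) / (52 * (R + 1)) := ⟨_, rfl⟩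
  have hc0 : 0 < c := hc ▸ div_pos (by linarith) (by positivity)
  have hK : IsCompact (Icc t u ×ˢ (closedBall (0 : ℂ) (13 * (R + 1)) ∩ {w | c ≤ w.im})) :=
    isCompact_Icc.prod ((isCompact_closedBall _ _).inter_right
      (isClosed_le continuous_const continuous_im))
  obtain ⟨⟨x, w⟩, ⟨hx, -, hwc⟩, φ, hφ, hlim⟩ := hK.tendsto_subseq
    (x := fun n => (v n, gt (η n) t (η n (v n)))) fun n =>
      ⟨Ioc_subset_Icc_self (hv n), by simpa using (hw n).1, hc ▸ (hw n).2⟩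
  have hwH : w ∈ HH := hc0.trans_le hwc
  obtain ⟨G, hGt, hG⟩ := (hBwd p.1 t p.1.continuous).2.1 w hwH
  have l1 : Tendsto (fun n => v (φ n)) atTop (𝓝 x) := (continuous_fst.tendsto _).comp hlim
  have l2 : Tendsto (fun n => gt (η (φ n)) t (η (φ n) (v (φ n)))) atTop (𝓝 w) :=
    (continuous_snd.tendsto _).comp hlim
  have l3 : Tendsto (fun n => (1 : ℝ) / (φ n + 1)) atTop (𝓝 0) :=
    tendsto_one_div_add_atTop_nhds_zero_nat.comp hφ.tendsto_atTop
  have l4 : Tendsto (fun n => p.2 (v (φ n))) atTop (𝓝 (p.2 x)) :=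
    (p.2.continuous.tendsto _).comp l1
  have e : p.2 x = G 0 := by
    refine eq_of_sub_eq_zero (norm_le_zero_iff.1 (le_of_forall_pos_le_add fun ε hε => ?_))
    obtain ⟨δ, hδ, h2⟩ := (hBwd p.1 t p.1.continuous).2.2.1 G hG (ε / 3) (by positivity)
    obtain ⟨n, ⟨a1, a2⟩, a3, a4⟩ := (((l3.eventually (ge_mem_nhds hδ)).and
      (l3.eventually (ge_mem_nhds (by positivity : 0 < ε / 3)))).and
      ((Metric.tendsto_nhds.1 l2 δ hδ).and
        (Metric.tendsto_nhds.1 l4 (ε / 3) (by positivity)))).exists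
    have hs := (hη (φ n)).toSimple
    obtain ⟨-, -, -, hg0, hWc, -⟩ := hCont.1 _ hs
    have hD := hs.toCurve.mem_D (hv (φ n)).1
    have h3 := h2 _ _ hWc (fun y hy => (hap (φ n) y (hy.trans htu.le)).1.trans a1)
      (hOde _ (hη (φ n)) t _ hD) (by
        rw [hGt, Real.toNNReal_coe, ← dist_eq_norm]; exact a3.le)
    rw [Real.toNNReal_zero, hg0 _ hD.1, ← dist_eq_norm] at h3
    have h4 := (hap (φ n) _ (hv (φ n)).2).2.trans a2
    rw [← dist_eq_norm] at h4 ⊢
    have h5 := dist_triangle4 (p.2 x) (p.2 (v (φ n))) (η (φ n) (v (φ n))) (G 0)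
    rw [dist_comm] at a4
    linarith
  have hz := (hG 0 ⟨le_rfl, t.2⟩).1
  refine ⟨G 0, hz, ⟨G, rfl, fun s hs => ⟨fun h => ?_, (hG s hs).2⟩⟩, fun h => ?_⟩
  · have := (hG s hs).1
    simp [h] at this
  · have := ((hClosed p hp).2.2 u _ hz).1 h
    rw [connectedComponentIn_eq_empty fun hm => hm.2 ⟨x, hx.2, e⟩] at this
    exact this Bornology.isBounded_empty

end Pool.Agent.P.MP_6c8efb_pr.SLE.L
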