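import Pool.Agent.P.MP_6c8efb_pr.SLE.LIface

/-!
Block L of the SLE project: the Loewner equation for a simple curve in the capacity
parametrisation.
-/

namespace Pool.Agent.P.MP_6c8efb_pr.SLE.L

open Set Filter Topology Metric Complex MeasureTheory
open scoped NNReal ComplexConjugate

theorem ode_mem {η : ℝ≥0 → ℂ} {t u : ℝ≥0} {z : ℂ} (hz : z ∈ HH \ hull η t) (hu : u ≤ t) :
    z ∈ HH \ hull η u :=
  ⟨hz.1, fun h => hz.2 (image_mono (Ioc_subset_Ioc_right hu) h)⟩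

theorem ode_key (hTip : S_Tip) (hStep : S_Step) {η : ℝ≥0 → ℂ} (hη : CapPar η) (t : ℝ≥0) {z : ℂ}
    (hz : z ∈ HH \ hull η t) {c r : ℝ} (hc : 0 < c) (hr : 0 < r) (hrc : 4 * r ≤ c)
    (hG : ∀ u ≤ t, c ≤ ‖gt η u z - drv η u‖) :
    ∃ δ : ℝ, 0 < δ ∧ ∀ lo hi : ℝ≥0, lo ≤ hi → hi ≤ t → (hi : ℝ) - lo ≤ δ →
      ‖gt η hi z - gt η lo z - ((hi : ℝ) - lo : ℝ) * (2 / (gt η lo z - drv η lo))‖ ≤
        24 * r / c ^ 2 * ((hi : ℝ) - lo) := by
  obtain ⟨δ, hδ, h⟩ := (hTip η hη.toSimple).2.2 t r hr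
  refine ⟨δ, hδ, fun lo hi hle ht hd => ?_⟩
  have h1 : ∀ u ∈ Ioc lo hi, ‖gt η lo (η u) - (drv η lo : ℝ)‖ ≤ r := by
    intro u hu
    refine h lo u hu.1 (hu.2.trans ht) ?_
    have : (u : ℝ) ≤ hi := hu.2
    linarith
  have hc' := hG lo (hle.trans ht)
  have h2 := ((hStep η hη.toSimple lo hi (drv η lo) r hle hr h1).2.2.2.2 z (ode_mem hz ht)).2
    (hrc.trans hc')
  rw [hη.clock, hη.clock] at h2
  have hle' : (0 : ℝ) ≤ (hi : ℝ) - lo := sub_nonneg.2 (by exact_mod_cast hle)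
  have e : (((hi : ℝ) - lo : ℝ) : ℂ) * (2 / (gt η lo z - drv η lo)) =
      ((2 * (hi : ℝ) - 2 * lo : ℝ) : ℂ) / (gt η lo z - drv η lo) := by
    push_cast; ring
  rw [e]
  refine h2.trans ?_
  have h3 : c ^ 2 ≤ ‖gt η lo z - drv η lo‖ ^ 2 := by gcongr
  calc 12 * r * (2 * (hi : ℝ) - 2 * lo) / ‖gt η lo z - drv η lo‖ ^ 2
      ≤ 12 * r * (2 * (hi : ℝ) - 2 * lo) / c ^ 2 := by
        apply div_le_div_of_nonneg_left _ (by positivity) h3
        have : (0 : ℝ) ≤ 2 * (hi : ℝ) - 2 * lo := by linarith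
        positivity
    _ = 24 * r / c ^ 2 * ((hi : ℝ) - lo) := by ring

theorem s_Ode (hTip : S_Tip) (hStep : S_Step) (hCont : S_Cont) : S_Ode := by
  intro η hη t z hz
  obtain ⟨-, -, -, -, hW, -, hGc, -⟩ := hCont.1 η hη.toSimple
  have hpos : ∀ u ≤ t, 0 < (gt η u z).im := fun u hu =>
    (hη.toSimple.hyd u).mg (ode_mem hz hu)
  have hle : ∀ s ∈ Icc (0 : ℝ) t, s.toNNReal ≤ t := fun s hs => Real.toNNReal_le_iff_le_coe.2 hs.2
  obtain ⟨c, hc, hcG⟩ : ∃ c : ℝ, 0 < c ∧ ∀ u ≤ t, c ≤ (gt η u z).im := by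
    have hK : IsCompact (Icc (0 : ℝ≥0) t) := isCompact_Icc
    have hcont : ContinuousOn (fun u => (gt η u z).im) (Icc (0 : ℝ≥0) t) :=
      continuous_im.comp_continuousOn ((hGc t z hz).mono Icc_subset_Iic_self)
    obtain ⟨u₀, hu₀, hmin⟩ := hK.exists_isMinOn ⟨0, left_mem_Icc.2 zero_le⟩ hcont
    exact ⟨_, hpos u₀ hu₀.2, fun u hu => hmin ⟨zero_le, hu⟩⟩
  have hn : ∀ u ≤ t, c ≤ ‖gt η u z - drv η u‖ := by
    intro u hu
    have h1 := abs_im_le_norm (gt η u z - drv η u)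
    have h2 : (gt η u z - drv η u).im = (gt η u z).im := by simp
    rw [h2] at h1
    exact (hcG u hu).trans ((le_abs_self _).trans h1)
  have hG : ContinuousOn (fun s : ℝ => gt η s.toNNReal z) (Icc (0 : ℝ) t) :=
    (hGc t z hz).comp continuous_real_toNNReal.continuousOn fun s hs => hle s hs
  have hk : ContinuousOn (fun s : ℝ => 2 / (gt η s.toNNReal z - drv η s.toNNReal))
      (Icc (0 : ℝ) t) := by
    refine continuousOn_const.div (hG.sub ?_) fun s hs => ?_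
    · exact (continuous_ofReal.comp (hW.comp continuous_real_toNNReal)).continuousOn
    · exact norm_pos_iff.1 (hc.trans_le (hn _ (hle s hs)))
  intro s hs
  refine ⟨hpos _ (hle s hs), ?_⟩
  rw [hasDerivWithinAt_iff_isLittleO, Asymptotics.isLittleO_iff]
  intro ε hε
  set r := min (c / 4) (ε * c ^ 2 / 48) with hr
  have hr0 : 0 < r := lt_min (by positivity) (by positivity)
  have hr1 : 4 * r ≤ c := by have := min_le_left (c / 4) (ε * c ^ 2 / 48); linarith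
  have hr2 : 24 * r / c ^ 2 ≤ ε / 2 := by
    rw [div_le_iff₀ (by positivity)]
    have := min_le_right (c / 4) (ε * c ^ 2 / 48); linarith
  obtain ⟨δ, hδ, key⟩ := ode_key hTip hStep hη t hz hc hr0 hr1 hn
  have e1 : ∀ᶠ s' in 𝓝[Icc (0 : ℝ) t] s, ‖2 / (gt η s'.toNNReal z - drv η s'.toNNReal) -
      2 / (gt η s.toNNReal z - drv η s.toNNReal)‖ ≤ ε / 2 := by
    have := Metric.tendsto_nhds.1 (hk s hs) (ε / 2) (by positivity)
    filter_upwards [this] with s' h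
    rw [dist_eq_norm] at h
    exact h.le
  have e2 : ∀ᶠ s' in 𝓝[Icc (0 : ℝ) t] s, |s' - s| ≤ δ := by
    apply mem_nhdsWithin_of_mem_nhds
    filter_upwards [Metric.ball_mem_nhds s hδ] with s' h
    rw [mem_ball, Real.dist_eq] at h
    exact h.le
  filter_upwards [e1, e2, self_mem_nhdsWithin] with s' h1 h2 hs'
  have c1 : (s.toNNReal : ℝ) = s := Real.coe_toNNReal _ hs.1
  have c2 : (s'.toNNReal : ℝ) = s' := Real.coe_toNNReal _ hs'.1
  rw [Real.norm_eq_abs, real_smul]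
  rcases le_total s s' with h | h
  · have k := key s.toNNReal s'.toNNReal (Real.toNNReal_le_toNNReal h) (hle _ hs')
      (by rw [c1, c2]; exact (le_abs_self _).trans h2)
    rw [c1, c2] at k
    rw [abs_of_nonneg (sub_nonneg.2 h)]
    refine k.trans ?_
    have : 0 ≤ s' - s := sub_nonneg.2 h
    nlinarith
  · have k := key s'.toNNReal s.toNNReal (Real.toNNReal_le_toNNReal h) (hle _ hs)
      (by rw [c1, c2]; rw [abs_sub_comm] at h2; exact (le_abs_self _).trans h2)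
    rw [c1, c2] at k
    have h0 : 0 ≤ s - s' := sub_nonneg.2 h
    rw [abs_sub_comm, abs_of_nonneg h0]
    set A := gt η s.toNNReal z
    set B := gt η s'.toNNReal z
    set ka := 2 / (A - drv η s.toNNReal)
    set kb := 2 / (B - drv η s'.toNNReal)
    have e : B - A - ((s' - s : ℝ) : ℂ) * ka =
        -(A - B - ((s - s' : ℝ) : ℂ) * kb) - ((s - s' : ℝ) : ℂ) * (kb - ka) := by
      push_cast; ring
    rw [e]
    refine (norm_sub_le _ _).trans ?_
    rw [norm_neg, norm_mul, norm_real, Real.norm_eq_abs, abs_of_nonneg h0]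
    nlinarith [mul_le_mul_of_nonneg_left h1 h0, mul_le_mul_of_nonneg_right hr2 h0]

end Pool.Agent.P.MP_6c8efb_pr.SLE.L
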