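import Pool.Agent.P.MP_6c8efb_pr.SLE.LIface

namespace Pool.Agent.P.MP_6c8efb_pr.SLE.L

open Set Filter Topology Metric Complex

theorem s_Maxp : S_Maxp := by
  intro U h m hU hd hf hi z0 hz0
  by_contra hc
  rw [not_le] at hc
  obtain ⟨e, he, he2⟩ : ∃ e : ℝ, 0 < e ∧ (h z0).im = m + 2 * e :=
    ⟨((h z0).im - m) / 2, by linarith, by ring⟩
  have hca : ∀ z ∈ U, ContinuousAt (fun w => (h w).im) z := fun z hz =>
    continuous_im.continuousAt.comp (hd.differentiableAt (hU.mem_nhds hz)).continuousAt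
  have hcl : ∀ c : ℝ, m + e < c → IsClosed {z | z ∈ U ∧ c ≤ (h z).im} := by
    intro c hcm
    refine isClosed_of_closure_subset fun z hz => ?_
    have hfr := mem_closure_iff_frequently.1 hz
    by_cases hzU : z ∈ U
    · refine ⟨hzU, not_lt.1 fun hl => ?_⟩
      obtain ⟨w, hw, hw'⟩ := (hfr.and_eventually ((hca z hzU).eventually_lt_const hl)).exists
      exact absurd hw.2 (not_le.2 hw')
    · have hb : z ∈ frontier U := by
        rw [hU.frontier_eq]; exact ⟨closure_mono (fun w hw => hw.1) hz, hzU⟩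
      obtain ⟨w, hw, hw'⟩ :=
        (hfr.and_eventually (eventually_nhdsWithin_iff.1 (hf z hb e he))).exists
      have := hw' hw.1
      have := hw.2
      linarith
  obtain ⟨R, hR⟩ := hi e he
  have hK : IsCompact {z | z ∈ U ∧ m + 2 * e ≤ (h z).im} := by
    refine isCompact_of_isClosed_isBounded (hcl _ (by linarith))
      ((isBounded_closedBall (x := (0 : ℂ)) (r := R)).subset fun z hz => ?_)
    rw [mem_closedBall_zero_iff]
    by_contra hn
    have := hR z hz.1 (not_le.1 hn).le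
    have := hz.2
    linarith
  obtain ⟨z1, hz1, hmax⟩ := hK.exists_isMaxOn ⟨z0, hz0, he2.ge⟩
    (f := fun w => (h w).im) fun z hz => (hca z hz.1).continuousWithinAt
  have hall : ∀ z ∈ U, (h z).im ≤ (h z1).im := fun z hz => by
    by_cases h1 : m + 2 * e ≤ (h z).im
    · exact hmax ⟨hz, h1⟩
    · have := hz1.2; linarith
  have hn : ∀ w, ‖cexp (-I * h w)‖ = Real.exp (h w).im := fun w => by simp [norm_exp]
  have hop : IsOpen {z | z ∈ U ∧ (h z1).im ≤ (h z).im} := by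
    rw [isOpen_iff_mem_nhds]
    intro z hz
    have hUz := hU.mem_nhds hz.1
    have h1 : ∀ᶠ w in 𝓝 z, DifferentiableAt ℂ (fun w => cexp (-I * h w)) w := by
      filter_upwards [hUz] with w hw
      exact ((hd.differentiableAt (hU.mem_nhds hw)).const_mul _).cexp
    have h2 : IsLocalMax (norm ∘ fun w => cexp (-I * h w)) z := by
      filter_upwards [hUz] with w hw
      simp only [Function.comp_apply, hn]
      exact Real.exp_le_exp.2 ((hall w hw).trans hz.2)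
    filter_upwards [hUz, norm_eventually_eq_of_isLocalMax h1 h2] with w hw hw'
    rw [hn, hn] at hw'
    exact ⟨hw, hz.2.trans (Real.exp_injective hw').ge⟩
  have hu := IsClopen.eq_univ ⟨hcl _ (by have := hz1.2; linarith), hop⟩ ⟨z1, hz1.1, le_rfl⟩
  have h3 : ((|R| : ℝ) : ℂ) ∈ {z | z ∈ U ∧ (h z1).im ≤ (h z).im} := by rw [hu]; trivial
  have := hR _ h3.1 (by simpa using le_abs_self R)
  have := h3.2
  have := hz1.2
  linarith

variable {K : Set ℂ} {g f : ℂ → ℂ} {a : ℝ}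

theorem prop_near (H : Hyd K g f a) {ε : ℝ} (hε : 0 < ε) :
    ∃ R : ℝ, ∀ z ∈ HH \ K, R ≤ ‖z‖ → ‖g z - z‖ ≤ ε := by
  obtain ⟨R, hR⟩ := H.lim 1 one_pos
  refine ⟨max R ((|a| + 1) / ε), fun z hz h => ?_⟩
  have h1 := hR z hz ((le_max_left _ _).trans h)
  have h2 : |a| + 1 ≤ ‖z‖ * ε := (div_le_iff₀ hε).1 ((le_max_right _ _).trans h)
  have h3 : ‖z‖ * ‖g z - z‖ ≤ |a| + 1 := by
    rw [← norm_mul]
    have := norm_add_le (z * (g z - z) - a) (a : ℂ)
    rw [sub_add_cancel, norm_real, Real.norm_eq_abs] at this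
    linarith
  have h0 : 0 < ‖z‖ := norm_pos_iff.2 (by rintro rfl; simpa [mem_HH] using hz.1)
  exact le_of_mul_le_mul_left (h3.trans h2) h0

theorem prop_three (H : Hyd K g f a) (R : ℝ) : ∃ M : ℝ, ∀ w ∈ HH, M ≤ ‖w‖ → R ≤ ‖f w‖ := by
  obtain ⟨M, hM⟩ := H.loc R
  refine ⟨M + 1, fun w hw h => not_lt.1 fun h1 => ?_⟩
  have := hM _ (H.mf hw) h1.le
  rw [H.gf w hw] at this
  linarith

theorem prop_four (H : Hyd K g f a) (M : ℝ) : ∃ R : ℝ, ∀ w ∈ HH, ‖w‖ ≤ M → ‖f w‖ ≤ R := by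
  obtain ⟨R, hR⟩ := prop_near H one_pos
  refine ⟨max R (M + 1), fun w hw h => ?_⟩
  by_cases h1 : R ≤ ‖f w‖
  · have h2 := hR _ (H.mf hw) h1
    rw [H.gf w hw] at h2
    have := norm_sub_le w (w - f w)
    rw [sub_sub_cancel] at this
    exact le_max_of_le_right (by linarith)
  · exact le_max_of_le_left (not_le.1 h1).le

theorem prop_one (H : Hyd K g f a) (ε M : ℝ) (hε : 0 < ε) : ∃ δ : ℝ, 0 < δ ∧
    ∀ z ∈ HH \ K, ‖z‖ ≤ M → ∀ b ∉ HH \ K, ‖z - b‖ ≤ δ → (g z).im ≤ ε := by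
  obtain ⟨M', hM⟩ := H.loc M
  have hC : IsCompact (closedBall (0 : ℂ) M' ∩ {w | ε ≤ w.im}) :=
    (isCompact_closedBall _ _).inter_right (isClosed_le continuous_const continuous_im)
  have hs : closedBall (0 : ℂ) M' ∩ {w | ε ≤ w.im} ⊆ HH := fun w hw => hε.trans_le hw.2
  obtain ⟨δ, hδ, h⟩ := (hC.image_of_continuousOn (H.df.continuousOn.mono hs)).exists_cthickening_subset_open
    H.opn (image_subset_iff.2 fun w hw => H.mf (hs hw))
  refine ⟨δ, hδ, fun z hz hzM b hb hzb => not_lt.1 fun h1 => hb (h ?_)⟩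
  refine mem_cthickening_of_dist_le b z δ _ ⟨g z, ⟨?_, h1.le⟩, H.fg z hz⟩ ?_
  · exact mem_closedBall_zero_iff.2 (hM z hz hzM)
  · rwa [dist_comm, dist_eq_norm]

theorem prop_two (H : Hyd K g f a) (ε M : ℝ) (hε : 0 < ε) : ∃ δ : ℝ, 0 < δ ∧
    ∀ w ∈ HH, ‖w‖ ≤ M → w.im ≤ δ → ∃ b ∉ HH \ K, ‖f w - b‖ ≤ ε := by
  obtain ⟨R, hR⟩ := prop_four H M
  have hC : IsCompact (closedBall (0 : ℂ) R ∩ ⋂ b ∈ (HH \ K)ᶜ, {z | ε ≤ ‖z - b‖}) :=
    (isCompact_closedBall _ _).inter_right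
      (isClosed_biInter fun b _ => isClosed_le continuous_const (by fun_prop))
  have hs : closedBall (0 : ℂ) R ∩ (⋂ b ∈ (HH \ K)ᶜ, {z | ε ≤ ‖z - b‖}) ⊆ HH \ K := by
    intro z hz
    by_contra h1
    have := mem_iInter₂.1 hz.2 z h1
    simp only [mem_ofPred_eq, sub_self, norm_zero] at this
    linarith
  obtain ⟨d, hd, h⟩ := hC.exists_forall_le' (f := fun z => (g z).im)
    (continuous_im.comp_continuousOn (H.dg.continuousOn.mono hs)) (a := 0)
    fun z hz => H.mg (hs hz)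
  refine ⟨d / 2, by linarith, fun w hw hwM hwd => ?_⟩
  by_contra hc
  have := h (f w) ⟨mem_closedBall_zero_iff.2 (hR w hw hwM),
    mem_iInter₂.2 fun b hb => not_lt.1 fun h1 => hc ⟨b, hb, h1.le⟩⟩
  simp only [H.gf w hw] at this
  linarith

theorem prop_inf (H : Hyd K g f a) {ε : ℝ} (hε : 0 < ε) :
    ∃ M : ℝ, ∀ w ∈ HH, M ≤ ‖w‖ → |(w - f w).im| ≤ ε := by
  obtain ⟨R, hR⟩ := prop_near H hε
  obtain ⟨M, hM⟩ := prop_three H R
  refine ⟨M, fun w hw h => (abs_im_le_norm _).trans ?_⟩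
  have := hR _ (H.mf hw) (hM w hw h)
  rwa [H.gf w hw] at this

theorem prop_ev {b : ℂ} (hb : b ∈ frontier HH) {ε : ℝ} (hε : 0 < ε) :
    ∀ᶠ w in 𝓝[HH] b, w ∈ HH ∧ w.im ≤ ε ∧ ‖w‖ ≤ ‖b‖ + 1 := by
  rw [frontier_HH] at hb
  have h0 : b.im = 0 := hb
  have h1 : ∀ᶠ w in 𝓝 b, w.im < ε := continuous_im.continuousAt.eventually_lt_const (by rwa [h0])
  have h2 : ∀ᶠ w in 𝓝 b, ‖w‖ < ‖b‖ + 1 :=
    continuous_norm.continuousAt.eventually_lt_const (lt_add_one _)
  filter_upwards [self_mem_nhdsWithin, nhdsWithin_le_nhds h1, nhdsWithin_le_nhds h2]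
    with w a b c using ⟨a, le_of_lt b, le_of_lt c⟩

theorem s_Prop (hMaxp : S_Maxp) : S_Prop := by
  intro K g f a H
  refine ⟨prop_one H, prop_two H, prop_three H, prop_four H, fun w hw => ?_,
    fun h h0 hK w hw => ?_⟩
  · have := hMaxp HH (fun w => w - f w) 0 isOpen_HH (differentiableOn_id.sub H.df)
      (fun b hb ε hε => ?_) (fun ε hε => ?_) w hw
    · simp only [sub_im] at this
      linarith
    · filter_upwards [prop_ev hb hε] with w hw
      have : 0 < (f w).im := (H.mf hw.1).1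
      have := hw.2.1
      simp only [sub_im]
      linarith
    · obtain ⟨M, hM⟩ := prop_inf H hε
      exact ⟨M, fun z hz h => by have := (abs_le.1 (hM z hz h)).2; linarith⟩
  · have := hMaxp HH (fun w => f w - w) h isOpen_HH (H.df.sub differentiableOn_id)
      (fun b hb ε hε => ?_) (fun ε hε => ?_) w hw
    · simp only [sub_im] at this
      linarith
    · obtain ⟨δ, hδ, hd⟩ := prop_two H ε (‖b‖ + 1) hε
      filter_upwards [prop_ev hb hδ] with w hw
      obtain ⟨c, hc, h1⟩ := hd w hw.1 hw.2.2 hw.2.1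
      have h2 : c.im ≤ h := by
        by_contra h3
        exact hc ⟨h0.trans_lt (not_le.1 h3), fun h4 => h3 (hK c h4)⟩
      have h3 := (abs_le.1 ((abs_im_le_norm _).trans h1)).2
      have h4 : 0 < w.im := hw.1
      simp only [sub_im] at h3 ⊢
      linarith
    · obtain ⟨M, hM⟩ := prop_inf H hε
      refine ⟨M, fun z hz h => ?_⟩
      have := (abs_le.1 (hM z hz h)).1
      simp only [sub_im] at this ⊢
      linarith

end Pool.Agent.P.MP_6c8efb_pr.SLE.L
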