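import Pool.Agent.P.MP_6c8efb_pr.SLE.LIface

/-!
Block L of the SLE project: Schwarz reflection of the mapping-out function.
-/

namespace Pool.Agent.P.MP_6c8efb_pr.SLE.L

open Set Filter Topology Metric Complex
open scoped NNReal ComplexConjugate

/-- The reflected map. -/
noncomputable def refl_G (g : ℂ → ℂ) (z : ℂ) : ℂ :=
  if 0 < z.im then g z else if z.im < 0 then conj (g (conj z)) else limUnder (𝓝[HH] z) g

theorem refl_up {g : ℂ → ℂ} {z : ℂ} (h : 0 < z.im) : refl_G g z = g z := by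
  simp [refl_G, h]

theorem refl_down {g : ℂ → ℂ} {z : ℂ} (h : z.im < 0) : refl_G g z = conj (g (conj z)) := by
  simp [refl_G, h, not_lt.2 h.le]

theorem refl_mid {g : ℂ → ℂ} {z : ℂ} (h : z.im = 0) : refl_G g z = limUnder (𝓝[HH] z) g := by
  simp [refl_G, h]

theorem refl_conj_ball {x ρ : ℝ} {z : ℂ} (hz : z ∈ ball (x : ℂ) ρ) : conj z ∈ ball (x : ℂ) ρ := by
  rw [mem_ball, dist_eq_norm] at hz ⊢
  rw [← Complex.norm_conj]
  simpa using hz

theorem refl_loc (hLip : S_Lip) {K : Set ℂ} {g f : ℂ → ℂ} {a : ℝ} (h : Hyd K g f a) {z : ℂ}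
    (h0 : z.im = 0) (hz : z ∉ closure K) :
    ContinuousAt (refl_G g) z ∧ (refl_G g z).im = 0 := by
  have hzx : z = (z.re : ℂ) := by
    apply Complex.ext <;> simp [h0]
  obtain ⟨ρ, C, hρ, hsub, hL, hC⟩ := hLip K g f a h z.re (hzx ▸ hz)
  obtain ⟨ge, hge, he⟩ := hL.extend_finite_dimension
  have hc : Continuous ge := hge.continuous
  have key : ∀ y ∈ ball (z.re : ℂ) ρ, y.im = 0 → refl_G g y = ge y ∧ (ge y).im = 0 := by
    intro y hy hy0
    have := neBot_HH hy0.ge
    have hev : ∀ᶠ w in 𝓝[HH] y, w ∈ ball (z.re : ℂ) ρ ∩ HH :=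
      inter_mem (nhdsWithin_le_nhds (isOpen_ball.mem_nhds hy)) self_mem_nhdsWithin
    have ht0 : Tendsto ge (𝓝[HH] y) (𝓝 (ge y)) := hc.continuousAt.tendsto.mono_left nhdsWithin_le_nhds
    have ht : Tendsto g (𝓝[HH] y) (𝓝 (ge y)) :=
      ht0.congr' (hev.mono fun w hw => (he hw).symm)
    refine ⟨by rw [refl_mid hy0, ht.limUnder_eq], le_antisymm ?_ ?_⟩
    · have h1 : Tendsto (fun w : ℂ => (C : ℝ) * w.im) (𝓝[HH] y) (𝓝 ((C : ℝ) * y.im)) :=
        ((continuous_const.mul continuous_im).tendsto y).mono_left nhdsWithin_le_nhds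
      rw [hy0, mul_zero] at h1
      exact le_of_tendsto_of_tendsto ((continuous_im.tendsto _).comp ht) h1
        (hev.mono fun w hw => hC w hw)
    · exact ge_of_tendsto ((continuous_im.tendsto _).comp ht)
        (hev.mono fun w hw => le_of_lt (h.mg (hsub hw)))
  have hzb : z ∈ ball (z.re : ℂ) ρ := by
    rw [← hzx]; exact mem_ball_self hρ
  have hup : ∀ w ∈ ball (z.re : ℂ) ρ, 0 ≤ w.im → refl_G g w = ge w := by
    intro w hw hw0
    rcases hw0.lt_or_eq with h1 | h1
    · rw [refl_up h1]; exact he ⟨hw, h1⟩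
    · exact (key w hw h1.symm).1
  have hdn : ∀ w ∈ ball (z.re : ℂ) ρ, w.im ≤ 0 → refl_G g w = conj (ge (conj w)) := by
    intro w hw hw0
    rcases hw0.lt_or_eq with h1 | h1
    · rw [refl_down h1, he ⟨refl_conj_ball hw, by simpa [mem_HH] using h1⟩]
    · rw [conj_eq_iff_im.2 h1, (key w hw h1).1, conj_eq_iff_im.2 (key w hw h1).2]
  refine ⟨?_, by rw [(key z hzb h0).1]; exact (key z hzb h0).2⟩
  have hb := isOpen_ball.mem_nhds hzb
  have c1 : ContinuousWithinAt (refl_G g) {w | 0 ≤ w.im} z := by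
    refine hc.continuousAt.continuousWithinAt.congr_of_eventuallyEq ?_ (hup z hzb h0.ge)
    filter_upwards [nhdsWithin_le_nhds hb, self_mem_nhdsWithin] with w h1 h2 using hup w h1 h2
  have c2 : ContinuousWithinAt (refl_G g) {w | w.im ≤ 0} z := by
    have : Continuous fun w => conj (ge (conj w)) :=
      continuous_conj.comp (hc.comp continuous_conj)
    refine this.continuousAt.continuousWithinAt.congr_of_eventuallyEq ?_ (hdn z hzb h0.le)
    filter_upwards [nhdsWithin_le_nhds hb, self_mem_nhdsWithin] with w h1 h2 using hdn w h1 h2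
  have c3 := c1.union c2
  have hu : {w : ℂ | 0 ≤ w.im} ∪ {w | w.im ≤ 0} = univ :=
    eq_univ_of_forall fun w => le_total 0 w.im
  rwa [hu, continuousWithinAt_univ] at c3

theorem refl_diffAt {K : Set ℂ} {g f : ℂ → ℂ} {a : ℝ} (h : Hyd K g f a) {z : ℂ}
    (hz : z ∈ Dsym K) (h0 : z.im ≠ 0) : DifferentiableAt ℂ (refl_G g) z := by
  rcases h0.lt_or_gt with h1 | h1
  · have h2 : conj z ∈ HH \ K := mem_D_of_Dsym (conj_mem_Dsym hz) (by simpa using h1)
    have h3 := (h.diffAt_g h2).conj_conj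
    rw [conj_conj] at h3
    refine h3.congr_of_eventuallyEq ?_
    filter_upwards [(isOpen_lt continuous_im continuous_const).mem_nhds h1] with w hw
    exact refl_down hw
  · refine (h.diffAt_g (mem_D_of_Dsym hz h1)).congr_of_eventuallyEq ?_
    filter_upwards [isOpen_HH.mem_nhds h1] with w hw
    exact refl_up hw

theorem refl_diff (hMor : S_Mor) (hLip : S_Lip) {K : Set ℂ} {g f : ℂ → ℂ} {a : ℝ}
    (h : Hyd K g f a) : DifferentiableOn ℂ (refl_G g) (Dsym K) := by
  refine hMor _ _ (isOpen_Dsym K) (fun z hz => ContinuousAt.continuousWithinAt ?_)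
    fun z hz => (refl_diffAt h hz.1 hz.2).differentiableWithinAt
  by_cases h0 : z.im = 0
  · exact (refl_loc hLip h h0 hz.1).1
  · exact (refl_diffAt h hz h0).continuousAt

theorem refl_pos {K : Set ℂ} {g f : ℂ → ℂ} {a : ℝ} (h : Hyd K g f a) {z : ℂ}
    (hz : z ∈ Dsym K) (h0 : 0 < z.im) : 0 < (refl_G g z).im := by
  rw [refl_up h0]; exact h.mg (mem_D_of_Dsym hz h0)

theorem refl_neg {K : Set ℂ} {g f : ℂ → ℂ} {a : ℝ} (h : Hyd K g f a) {z : ℂ}
    (hz : z ∈ Dsym K) (h0 : z.im < 0) : (refl_G g z).im < 0 := by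
  rw [refl_down h0]
  have : 0 < (g (conj z)).im := h.mg (mem_D_of_Dsym (conj_mem_Dsym hz) (by simpa using h0))
  simpa using this

theorem refl_open (hMor : S_Mor) (hLip : S_Lip) {K : Set ℂ} {g f : ℂ → ℂ} {a : ℝ}
    (h : Hyd K g f a) {z : ℂ} (hz : z ∈ Dsym K) (h0 : z.im = 0) :
    𝓝 (refl_G g z) ≤ map (refl_G g) (𝓝 z) := by
  have ha : AnalyticAt ℂ (refl_G g) z := (refl_diff hMor hLip h).analyticOnNhd (isOpen_Dsym K) z hz
  rcases ha.eventually_constant_or_nhds_le_map_nhds with h1 | h1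
  · exfalso
    have := neBot_HH h0.ge
    have h2 : ∀ᶠ w in 𝓝[HH] z, False := by
      filter_upwards [nhdsWithin_le_nhds h1,
        nhdsWithin_le_nhds ((isOpen_Dsym K).mem_nhds hz), self_mem_nhdsWithin] with w e1 e2 e3
      have h3 := refl_pos h e2 e3
      rw [e1, (refl_loc hLip h h0 hz.1).2] at h3
      exact lt_irrefl _ h3
    exact h2.exists.elim fun _ h => h
  · exact h1

theorem refl_inj (hMor : S_Mor) (hLip : S_Lip) {K : Set ℂ} {g f : ℂ → ℂ} {a : ℝ}
    (h : Hyd K g f a) : InjOn (refl_G g) (Dsym K) := by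
  have sg : ∀ z ∈ Dsym K, 0 < (refl_G g z).im → 0 < z.im := by
    intro z hz h1
    rcases lt_trichotomy z.im 0 with h2 | h2 | h2
    · exact absurd h1 (not_lt.2 (refl_neg h hz h2).le)
    · rw [(refl_loc hLip h h2 hz.1).2] at h1; exact absurd h1 (lt_irrefl _)
    · exact h2
  have sg' : ∀ z ∈ Dsym K, (refl_G g z).im < 0 → z.im < 0 := by
    intro z hz h1
    rcases lt_trichotomy z.im 0 with h2 | h2 | h2
    · exact h2
    · rw [(refl_loc hLip h h2 hz.1).2] at h1; exact absurd h1 (lt_irrefl _)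
    · exact absurd h1 (not_lt.2 (refl_pos h hz h2).le)
  have up : ∀ z ∈ Dsym K, ∀ w ∈ Dsym K, 0 < (refl_G g z).im → refl_G g z = refl_G g w → z = w := by
    intro z hz w hw h1 e
    have h2 := sg z hz h1
    have h3 := sg w hw (e ▸ h1)
    rw [refl_up h2, refl_up h3] at e
    exact h.injOn_g (mem_D_of_Dsym hz h2) (mem_D_of_Dsym hw h3) e
  intro z hz w hw e
  rcases lt_trichotomy (refl_G g z).im 0 with h1 | h1 | h1
  · have h2 := sg' z hz h1
    have h3 := sg' w hw (e ▸ h1)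
    rw [refl_down h2, refl_down h3] at e
    have e2 := h.injOn_g (mem_D_of_Dsym (conj_mem_Dsym hz) (by simpa using h2))
      (mem_D_of_Dsym (conj_mem_Dsym hw) (by simpa using h3)) (star_injective e)
    exact star_injective e2
  · have h2 : z.im = 0 := by
      rcases lt_trichotomy z.im 0 with h2 | h2 | h2
      · exact absurd h1 (refl_neg h hz h2).ne
      · exact h2
      · exact absurd h1 (refl_pos h hz h2).ne'
    have h3 : w.im = 0 := by
      rcases lt_trichotomy w.im 0 with h3 | h3 | h3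
      · exact absurd (e ▸ h1) (refl_neg h hw h3).ne
      · exact h3
      · exact absurd (e ▸ h1) (refl_pos h hw h3).ne'
    by_contra hne
    obtain ⟨U, V, hU, hV, hzU, hwV, hUV⟩ := t2_separation hne
    have o1 := refl_open hMor hLip h hz h2
      (image_mem_map ((hU.inter (isOpen_Dsym K)).mem_nhds ⟨hzU, hz⟩))
    have o2 := refl_open hMor hLip h hw h3
      (image_mem_map ((hV.inter (isOpen_Dsym K)).mem_nhds ⟨hwV, hw⟩))
    rw [← e] at o2
    have := neBot_HH h1.ge
    have h4 : ∀ᶠ y in 𝓝[HH] (refl_G g z), False := by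
      filter_upwards [nhdsWithin_le_nhds o1, nhdsWithin_le_nhds o2, self_mem_nhdsWithin]
      rintro _ ⟨p, hp, rfl⟩ ⟨q, hq, e2⟩ h5
      have := up p hp.2 q hq.2 h5 e2.symm
      exact disjoint_left.1 hUV hp.1 (this ▸ hq.1)
    exact h4.exists.elim fun _ h => h
  · exact up z hz w hw h1 e

theorem s_Refl (hMor : S_Mor) (hLip : S_Lip) : S_Refl := by
  intro K g f a h
  obtain ⟨F, hF, hl⟩ := Pool.Agent.P.MP_56bcbf_an.exists_inverse (isOpen_Dsym K)
    (refl_diff hMor hLip h) (refl_inj hMor hLip h)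
  have e1 : EqOn (refl_G g) g (HH \ K) := fun z hz => refl_up hz.1
  have e2 : EqOn F f HH := by
    intro w hw
    have h1 := hl (f w) (h.sub_Dsym (h.mf hw))
    rwa [e1 (h.mf hw), h.gf w hw] at h1
  refine ⟨refl_G g, F, ⟨h.sub, h.bdd, h.opn, h.dg.congr e1, h.df.congr e2, ?_, ?_, ?_, ?_, ?_, ?_⟩,
    ⟨refl_diff hMor hLip h, refl_inj hMor hLip h, ?_, hF, hl⟩, e1, e2⟩
  · intro z hz; rw [e1 hz]; exact h.mg hz
  · intro z hz; rw [e2 hz]; exact h.mf hz
  · exact fun z hz => hl z (h.sub_Dsym hz)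
  · intro w hw; rw [e2 hw, e1 (h.mf hw), h.gf w hw]
  · intro ε hε
    obtain ⟨R, hR⟩ := h.lim ε hε
    exact ⟨R, fun z hz hr => by rw [e1 hz]; exact hR z hz hr⟩
  · intro R
    obtain ⟨M, hM⟩ := h.loc R
    exact ⟨M, fun z hz hr => by rw [e1 hz]; exact hM z hz hr⟩
  · intro z hz
    rcases lt_trichotomy z.im 0 with h2 | h2 | h2
    · rw [refl_down h2, refl_up (by simpa using h2), conj_conj]
    · rw [conj_eq_iff_im.2 h2, conj_eq_iff_im.2 (refl_loc hLip h h2 hz.1).2]
    · rw [refl_down (by simpa using h2), refl_up h2, conj_conj]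

end Pool.Agent.P.MP_6c8efb_pr.SLE.L
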