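import Pool.Agent.P.MP_6c8efb_pr.SLE.LIface

/-!
Block L of the SLE project: the two steps of the Riemann mapping theorem.
-/

namespace Pool.Agent.P.MP_6c8efb_pr.SLE.L

open Set Filter Topology Metric Complex
open scoped NNReal ComplexConjugate

theorem s_Rm1 : S_Rm1 := by
  intro U z₀ hU hne hL hz₀
  obtain ⟨a, ha⟩ := (ne_univ_iff_exists_notMem U).1 hne
  have hna : ∀ z ∈ U, z - a ≠ 0 := fun z hz => sub_ne_zero.2 fun h => ha (h ▸ hz)
  obtain ⟨r, hr, hsq⟩ := hL.sqrt hU (F := fun z => z - a) (by fun_prop) hna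
  have hinj : InjOn r U := fun x hx y hy e => by
    have h1 := hsq x hx
    have h2 := hsq y hy
    rw [e] at h1
    linear_combination h2 - h1
  have hop : IsOpen (r '' U) :=
    Pool.Agent.P.MP_56bcbf_an.isOpen_image hU hr hinj hU subset_rfl
  obtain ⟨e, he, hb⟩ := Metric.isOpen_iff.1 hop (r z₀) ⟨z₀, hz₀, rfl⟩
  have hfar : ∀ z ∈ U, e ≤ ‖r z + r z₀‖ := by
    intro z hz
    by_contra hc
    have h0 : -r z ∈ ball (r z₀) e := by
      rw [mem_ball, dist_eq_norm, ← norm_neg]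
      have : -(-r z - r z₀) = r z + r z₀ := by ring
      rw [this]; exact not_le.1 hc
    obtain ⟨w, hw, hwe⟩ := hb h0
    have h1 := hsq w hw
    have h2 := hsq z hz
    have h3 : w = z := by
      rw [hwe] at h1
      linear_combination h2 - h1
    subst h3
    have h4 : r w = 0 := by linear_combination hwe / 2
    rw [h4] at h1
    exact hna w hw (by linear_combination -h1)
  have hne0 : ∀ z ∈ U, r z + r z₀ ≠ 0 := fun z hz h => by
    have := hfar z hz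
    rw [h, norm_zero] at this; linarith
  have hbd : ∀ z ∈ U, ‖((e / 4 : ℝ) : ℂ) / (r z + r z₀)‖ ≤ 1 / 4 := fun z hz => by
    have := hfar z hz
    rw [norm_div, norm_real, Real.norm_eq_abs, abs_of_pos (by positivity),
      div_le_iff₀ (norm_pos_iff.2 (hne0 z hz))]
    linarith
  refine ⟨fun z => ((e / 4 : ℝ) : ℂ) / (r z + r z₀) - ((e / 4 : ℝ) : ℂ) / (r z₀ + r z₀),
    ((differentiableOn_const _).div (hr.add_const _) hne0).sub_const _, ?_, ?_, sub_self _⟩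
  · intro x hx y hy h
    have h1 : ((e / 4 : ℝ) : ℂ) / (r x + r z₀) = ((e / 4 : ℝ) : ℂ) / (r y + r z₀) :=
      sub_left_injective h
    have he' : ((e / 4 : ℝ) : ℂ) ≠ 0 := ofReal_ne_zero.2 (by positivity)
    rw [div_eq_div_iff (hne0 x hx) (hne0 y hy)] at h1
    have h2 := mul_left_cancel₀ he' h1
    exact hinj hx hy (by linear_combination -h2)
  · intro z hz
    rw [mem_ball_zero_iff]
    have h1 := hbd z hz
    have h2 := hbd z₀ hz₀
    have := norm_sub_le (((e / 4 : ℝ) : ℂ) / (r z + r z₀)) (((e / 4 : ℝ) : ℂ) / (r z₀ + r z₀))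
    linarith

/-- A disc automorphism. -/
noncomputable def rm_m (b w : ℂ) : ℂ := (w - b) / (1 - conj b * w)

theorem rm_den {b w : ℂ} (hb : ‖b‖ < 1) (hw : ‖w‖ < 1) : 1 - conj b * w ≠ 0 := by
  intro h
  have h1 : conj b * w = 1 := by linear_combination -h
  have h2 := congrArg norm h1
  rw [norm_mul, norm_conj, norm_one] at h2
  nlinarith [norm_nonneg b, norm_nonneg w]

theorem rm_lt {b w : ℂ} (hb : ‖b‖ < 1) (hw : ‖w‖ < 1) : ‖rm_m b w‖ < 1 := by
  rw [rm_m, norm_div, div_lt_one (norm_pos_iff.2 (rm_den hb hw))]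
  have h1 : ‖1 - conj b * w‖ ^ 2 - ‖w - b‖ ^ 2 = (1 - ‖b‖ ^ 2) * (1 - ‖w‖ ^ 2) := by
    simp only [Complex.sq_norm, normSq_apply, sub_re, sub_im, one_re, one_im, mul_re, mul_im,
      conj_re, conj_im]
    ring
  have h2 : 0 < (1 - ‖b‖ ^ 2) * (1 - ‖w‖ ^ 2) :=
    mul_pos (by nlinarith [norm_nonneg b]) (by nlinarith [norm_nonneg w])
  exact lt_of_pow_lt_pow_left₀ 2 (norm_nonneg _) (by linarith)

theorem rm_one {b : ℂ} : (1 : ℂ) - conj b * b = ((1 - ‖b‖ ^ 2 : ℝ) : ℂ) := by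
  rw [conj_mul']; push_cast; ring

theorem rm_inj {b w w' : ℂ} (hb : ‖b‖ < 1) (hw : ‖w‖ < 1) (hw' : ‖w'‖ < 1)
    (h : rm_m b w = rm_m b w') : w = w' := by
  rw [rm_m, rm_m, div_eq_div_iff (rm_den hb hw) (rm_den hb hw')] at h
  have h1 : (1 - conj b * b) * (w - w') = 0 := by linear_combination h
  exact sub_eq_zero.1 ((mul_eq_zero.1 h1).resolve_left (rm_den hb hb))

theorem rm_deriv {b w : ℂ} (hb : ‖b‖ < 1) (hw : ‖w‖ < 1) :
    HasDerivAt (rm_m b) ((1 - conj b * b) / (1 - conj b * w) ^ 2) w := by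
  have h1 : HasDerivAt (fun w => w - b) 1 w := (hasDerivAt_id w).sub_const b
  have h2 : HasDerivAt (fun w => 1 - conj b * w) (-conj b) w := by
    simpa using ((hasDerivAt_id w).const_mul (conj b)).const_sub 1
  have h3 := h1.div h2 (rm_den hb hw)
  have e : (1 - conj b * b) / (1 - conj b * w) ^ 2 =
      (1 * (1 - conj b * w) - (w - b) * -conj b) / (1 - conj b * w) ^ 2 := by
    congr 1; ring
  rw [e]
  exact h3

theorem rm_diff {U : Set ℂ} {ψ : ℂ → ℂ} {b : ℂ} (hb : ‖b‖ < 1) (hd : DifferentiableOn ℂ ψ U)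
    (hm : ∀ z ∈ U, ‖ψ z‖ < 1) : DifferentiableOn ℂ (fun z => rm_m b (ψ z)) U := fun z hz =>
  (rm_deriv hb (hm z hz)).differentiableAt.comp_differentiableWithinAt z (hd z hz)

theorem s_Rm2 : S_Rm2 := by
  intro U z₀ ψ hU hL hz₀ hd hi hm h0 hns
  have hm' : ∀ z ∈ U, ‖ψ z‖ < 1 := fun z hz => mem_ball_zero_iff.1 (hm hz)
  obtain ⟨w₀, hw₀, hnw⟩ := not_subset.1 hns
  rw [mem_ball_zero_iff] at hw₀
  have hnz : ∀ z ∈ U, rm_m w₀ (ψ z) ≠ 0 := fun z hz =>
    div_ne_zero (sub_ne_zero.2 fun h => hnw ⟨z, hz, h⟩) (rm_den hw₀ (hm' z hz))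
  obtain ⟨r, hr, hsq⟩ := hL.sqrt hU (rm_diff hw₀ hd hm') hnz
  have hr1 : ∀ z ∈ U, ‖r z‖ < 1 := fun z hz => by
    have h1 := rm_lt hw₀ (hm' z hz)
    rw [← hsq z hz, norm_pow] at h1
    exact lt_of_pow_lt_pow_left₀ 2 zero_le_one (by simpa using h1)
  have hri : InjOn r U := fun x hx y hy e => by
    apply hi hx hy
    apply rm_inj hw₀ (hm' x hx) (hm' y hy)
    rw [← hsq x hx, ← hsq y hy, e]
  have hb := hr1 z₀ hz₀
  have hb2 : r z₀ ^ 2 = -w₀ := by rw [hsq z₀ hz₀, h0, rm_m]; simp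
  have hb0 : r z₀ ≠ 0 := fun h => hnz z₀ hz₀ (by rw [← hsq z₀ hz₀, h]; simp)
  have hn := hU.mem_nhds hz₀
  have dψ := (hd.differentiableAt hn).hasDerivAt
  have dr := (hr.differentiableAt hn).hasDerivAt
  have d1 := (rm_deriv hw₀ (hm' z₀ hz₀)).comp z₀ dψ
  have d2 : HasDerivAt (fun z => r z ^ 2) (2 * r z₀ * deriv r z₀) z₀ := by
    have := dr.fun_mul dr
    have e : 2 * r z₀ * deriv r z₀ = deriv r z₀ * r z₀ + r z₀ * deriv r z₀ := by ring
    simpa only [sq, e] using this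
  have d3 : HasDerivAt (rm_m w₀ ∘ ψ) (2 * r z₀ * deriv r z₀) z₀ := by
    refine d2.congr_of_eventuallyEq ?_
    filter_upwards [hn] with z hz using (hsq z hz).symm
  have e1 := d1.unique d3
  rw [h0, mul_zero, sub_zero, one_pow, div_one, rm_one] at e1
  have d4 := (rm_deriv hb hb).comp z₀ dr
  refine ⟨fun z => rm_m (r z₀) (r z), rm_diff hb hr hr1, fun x hx y hy e =>
    hri hx hy (rm_inj hb (hr1 x hx) (hr1 y hy) e), fun z hz =>
    mem_ball_zero_iff.2 (rm_lt hb (hr1 z hz)), by simp [rm_m], ?_⟩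
  have e2 : deriv (fun z => rm_m (r z₀) (r z)) z₀ = _ := d4.deriv
  have hp : 0 < ‖deriv ψ z₀‖ :=
    norm_pos_iff.2 (Pool.Agent.P.MP_56bcbf_an.deriv_ne_zero hU hd hi hz₀)
  have hw : ‖w₀‖ = ‖r z₀‖ ^ 2 := by rw [← norm_pow, hb2, norm_neg]
  have hβ : 0 < ‖r z₀‖ := norm_pos_iff.2 hb0
  have hq : 0 < 1 - ‖r z₀‖ ^ 2 := by nlinarith
  have hq' : 0 < 1 - ‖w₀‖ ^ 2 := by nlinarith [norm_nonneg w₀]
  have e3 := congrArg norm e1
  rw [norm_mul, norm_mul, norm_mul, norm_real, Real.norm_eq_abs, abs_of_pos hq', hw] at e3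
  rw [e2, rm_one, norm_mul, norm_div, norm_pow, norm_real, Real.norm_eq_abs, abs_of_pos hq]
  have e4 : ‖(2 : ℂ)‖ = 2 := by simp
  rw [e4] at e3
  set β := ‖r z₀‖
  set A := ‖deriv ψ z₀‖
  set B := ‖deriv r z₀‖
  have e5 : (1 - β ^ 2) / (1 - β ^ 2) ^ 2 * B = A * (1 + β ^ 2) / (2 * β) := by
    have : B = (1 - (β ^ 2) ^ 2) * A / (2 * β) := by
      rw [e3]; field_simp
    rw [this]; field_simp; ring
  rw [e5, lt_div_iff₀ (by positivity)]
  have : 0 < (1 - β) ^ 2 := by have : 0 < 1 - β := by linarith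
                               positivity
  nlinarith [mul_pos hp this]

end Pool.Agent.P.MP_6c8efb_pr.SLE.L
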