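import Pool.Agent.P.MP_6c8efb_pr.SLE.LIface

/-!
Block L of the SLE project: Hurwitz theorem and the Riemann mapping theorem.
-/

namespace Pool.Agent.P.MP_6c8efb_pr.SLE.L

open Set Filter Topology Metric Complex

/-- Minimum principle on a closed disc for a function without zeros. -/
lemma rmt_min {h : ℂ → ℂ} {U : Set ℂ} {c : ℂ} {r e : ℝ} (hr : 0 < r) (he : 0 < e)
    (hsub : closedBall c r ⊆ U) (hd : DifferentiableOn ℂ h U)
    (h0 : ∀ w ∈ closedBall c r, h w ≠ 0) (hb : ∀ w ∈ sphere c r, e ≤ ‖h w‖) : e ≤ ‖h c‖ := by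
  have hd1 : DifferentiableOn ℂ (fun w => (h w)⁻¹) (closedBall c r) :=
    (hd.mono hsub).inv h0
  have hdc : DiffContOnCl ℂ (fun w => (h w)⁻¹) (ball c r) := by
    apply DifferentiableOn.diffContOnCl
    rwa [closure_ball c hr.ne']
  have key := Complex.norm_le_of_forall_mem_frontier_norm_le (f := fun w => (h w)⁻¹)
    (C := e⁻¹) isBounded_ball hdc (fun w hw => by
      rw [frontier_ball c hr.ne'] at hw
      rw [norm_inv]
      exact inv_anti₀ he (hb w hw)) (subset_closure (mem_ball_self hr))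
  rw [norm_inv] at key
  have hc : 0 < ‖h c‖ := norm_pos_iff.2 (h0 c (mem_closedBall_self hr.le))
  exact (inv_le_inv₀ hc he).1 key

theorem s_Hurw : S_Hurw := by
  intro U F f l hl hU hUc hF hI hT
  have hf : DifferentiableOn ℂ f U := hT.differentiableOn (Eventually.of_forall hF) hU
  have hfa : AnalyticOnNhd ℂ f U := hf.analyticOnNhd hU
  by_contra hcon
  rw [not_or] at hcon
  obtain ⟨hni, hnc⟩ := hcon
  apply hni
  intro z1 hz1 z2 hz2 heq
  by_contra hne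
  have hiso : ∀ᶠ w in 𝓝[≠] z2, f w ≠ f z1 := by
    rcases (hfa z2 hz2).eventually_eq_or_eventually_ne (analyticAt_const (v := f z1)) with h | h
    · exfalso
      apply hnc
      refine ⟨f z1, fun z hz => ?_⟩
      exact hfa.eqOn_of_preconnected_of_eventuallyEq analyticOnNhd_const hUc hz2 h hz
    · exact h
  rw [eventually_nhdsWithin_iff] at hiso
  have hnh : ∀ᶠ w in 𝓝 z2, (w ∈ ({z2}ᶜ : Set ℂ) → f w ≠ f z1) ∧ w ∈ U ∧ w ≠ z1 :=
    hiso.and ((hU.eventually_mem hz2).and (eventually_ne_nhds (Ne.symm hne)))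
  obtain ⟨r, hr, hball⟩ := nhds_basis_closedBall.eventually_iff.1 hnh
  have hsub : closedBall z2 r ⊆ U := fun w hw => (hball hw).2.1
  have hsph : sphere z2 r ⊆ closedBall z2 r := sphere_subset_closedBall
  have hcont : ContinuousOn (fun w => ‖f w - f z1‖) (sphere z2 r) :=
    ((hf.continuousOn.mono (hsph.trans hsub)).sub continuousOn_const).norm
  obtain ⟨w0, hw0, hmin⟩ := (isCompact_sphere z2 r).exists_isMinOn
    (NormedSpace.sphere_nonempty.2 hr.le) hcont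
  set e : ℝ := ‖f w0 - f z1‖ with he
  have hepos : 0 < e := by
    refine norm_pos_iff.2 (sub_ne_zero.2 ((hball (hsph hw0)).1 ?_))
    intro h
    rw [mem_singleton_iff] at h
    rw [h, mem_sphere, dist_self] at hw0
    exact hr.ne hw0
  have hunif := (tendstoLocallyUniformlyOn_iff_forall_isCompact hU).1 hT _ hsub
    (isCompact_closedBall z2 r)
  have h1 := Metric.tendstoUniformlyOn_iff.1 hunif (e / 5) (by positivity)
  have h2 := Metric.tendsto_nhds.1 (hT.tendsto_at hz1) (e / 5) (by positivity)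
  obtain ⟨n, hn1, hn2⟩ := (h1.and h2).exists
  have hn2' : ‖F n z1 - f z1‖ < e / 5 := by rwa [dist_eq_norm] at hn2
  have hn1' : ∀ w ∈ closedBall z2 r, ‖f w - F n w‖ < e / 5 := fun w hw => by
    have := hn1 w hw
    rwa [dist_eq_norm] at this
  have key := rmt_min (h := fun w => F n w - F n z1) (U := U) (c := z2) (e := 3 * e / 5) hr
    (by positivity) hsub ((hF n).sub_const _)
    (fun w hw => sub_ne_zero.2 fun h => (hball hw).2.2 (hI n (hsub hw) hz1 h))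
    (fun w hw => by
      have a1 : e ≤ ‖f w - f z1‖ := hmin hw
      have a2 := hn1' w (hsph hw)
      have a3 : f w - f z1 = (f w - F n w) + (F n w - F n z1) + (F n z1 - f z1) := by ring
      have a4 : ‖f w - f z1‖ ≤ ‖f w - F n w‖ + ‖F n w - F n z1‖ + ‖F n z1 - f z1‖ := by
        rw [a3]; exact norm_add₃_le
      linarith)
  have b1 := hn1' z2 (mem_closedBall_self hr.le)
  have b2 : F n z2 - F n z1 = -(f z2 - F n z2) - (F n z1 - f z1) := by rw [heq]; ring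
  have b3 : ‖F n z2 - F n z1‖ ≤ ‖f z2 - F n z2‖ + ‖F n z1 - f z1‖ := by
    rw [b2]
    refine (norm_sub_le _ _).trans ?_
    rw [norm_neg]
  have key' : 3 * e / 5 ≤ ‖F n z2 - F n z1‖ := key
  linarith

/-- The family of normalised injective maps into the disc. -/
def rmt_Fam (U : Set ℂ) (z₀ : ℂ) (ψ : ℂ → ℂ) : Prop :=
  DifferentiableOn ℂ ψ U ∧ InjOn ψ U ∧ MapsTo ψ U (ball 0 1) ∧ ψ z₀ = 0

lemma rmt_bdd {U : Set ℂ} {z₀ : ℂ} (hU : IsOpen U) (hz : z₀ ∈ U) :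
    BddAbove {x : ℝ | ∃ ψ, rmt_Fam U z₀ ψ ∧ x = ‖deriv ψ z₀‖} := by
  obtain ⟨r, hr, hsub⟩ := Metric.isOpen_iff.1 hU z₀ hz
  refine ⟨1 / r, ?_⟩
  rintro x ⟨ψ, ⟨hd, -, hm, h0⟩, rfl⟩
  refine Complex.norm_deriv_le_div_of_mapsTo_ball (hd.mono hsub) ?_ hr
  intro w hw
  rw [h0]
  exact ball_subset_closedBall (hm (hsub hw))

/-- An extremal member of the family. -/
lemma rmt_ext (hMont : S_Mont) (hHurw : S_Hurw) {U : Set ℂ} {z₀ : ℂ} (hU : IsOpen U)
    (hUc : IsPreconnected U) (hz : z₀ ∈ U) (hne : ∃ ψ, rmt_Fam U z₀ ψ) :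
    ∃ f, rmt_Fam U z₀ f ∧ ∀ ψ, rmt_Fam U z₀ ψ → ‖deriv ψ z₀‖ ≤ ‖deriv f z₀‖ := by
  set A : Set ℝ := {x : ℝ | ∃ ψ, rmt_Fam U z₀ ψ ∧ x = ‖deriv ψ z₀‖} with hA
  obtain ⟨ψ0, hψ0⟩ := hne
  have hAne : A.Nonempty := ⟨_, ψ0, hψ0, rfl⟩
  have hAb : BddAbove A := rmt_bdd hU hz
  obtain ⟨u, -, hu, huA⟩ := exists_seq_tendsto_sSup hAne hAb
  choose G hG hGu using huA
  obtain ⟨-, φ, f, hφ, hfd, hT⟩ := hMont U G 1 hU (fun n => (hG n).1) (fun n z hzU => by
    have := (hG n).2.2.1 hzU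
    rw [mem_ball_zero_iff] at this
    exact this.le)
  have hB : ‖deriv f z₀‖ = sSup A := by
    have h1 := ((hT.deriv (Eventually.of_forall fun n => (hG (φ n)).1) hU).tendsto_at hz).norm
    have h2 : Tendsto (fun n => u (φ n)) atTop (𝓝 (sSup A)) := hu.comp hφ.tendsto_atTop
    refine tendsto_nhds_unique h1 (h2.congr fun n => ?_)
    exact hGu (φ n)
  have hle : ∀ ψ, rmt_Fam U z₀ ψ → ‖deriv ψ z₀‖ ≤ ‖deriv f z₀‖ := fun ψ hψ => by
    rw [hB]
    exact le_csSup hAb ⟨ψ, hψ, rfl⟩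
  have hpos : 0 < ‖deriv f z₀‖ :=
    lt_of_lt_of_le (norm_pos_iff.2 (MP_56bcbf_an.deriv_ne_zero hU hψ0.1 hψ0.2.1 hz)) (hle ψ0 hψ0)
  have hinj : InjOn f U := by
    rcases hHurw U (fun n => G (φ n)) f atTop inferInstance hU hUc (fun n => (hG _).1)
      (fun n => (hG _).2.1) hT with h | ⟨c, hc⟩
    · exact h
    · exfalso
      have : f =ᶠ[𝓝 z₀] fun _ => c := (hU.eventually_mem hz).mono hc
      rw [this.deriv_eq, deriv_const, norm_zero] at hpos
      exact lt_irrefl _ hpos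
  have hcl : f '' U ⊆ closedBall 0 1 := by
    rintro _ ⟨z, hzU, rfl⟩
    exact isClosed_closedBall.mem_of_tendsto (hT.tendsto_at hzU)
      (Eventually.of_forall fun n => ball_subset_closedBall ((hG (φ n)).2.2.1 hzU))
  have hop : IsOpen (f '' U) := MP_56bcbf_an.isOpen_image hU hfd hinj hU subset_rfl
  have hmaps : MapsTo f U (ball 0 1) := by
    intro z hzU
    have := interior_maximal hcl hop (mem_image_of_mem f hzU)
    rwa [interior_closedBall _ one_ne_zero] at this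
  have h0 : f z₀ = 0 := by
    refine tendsto_nhds_unique (hT.tendsto_at hz) ?_
    simp only [fun n => (hG (φ n)).2.2.2]
    exact tendsto_const_nhds
  exact ⟨f, ⟨hfd, hinj, hmaps, h0⟩, hle⟩

theorem s_Rmt (hMont : S_Mont) (hHurw : S_Hurw) (hRm1 : S_Rm1) (hRm2 : S_Rm2) : S_Rmt := by
  intro U z₀ hU hUc hne hL hz
  obtain ⟨f, ⟨hd, hi, hm, h0⟩, hmax⟩ := rmt_ext hMont hHurw hU hUc hz (hRm1 U z₀ hU hne hL hz)
  have hs : SurjOn f U (ball 0 1) := by
    by_contra hns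
    obtain ⟨χ, h1, h2, h3, h4, h5⟩ := hRm2 U z₀ f hU hL hz hd hi hm h0 hns
    exact absurd (hmax χ ⟨h1, h2, h3, h4⟩) (not_le.2 h5)
  have hd0 : deriv f z₀ ≠ 0 := MP_56bcbf_an.deriv_ne_zero hU hd hi hz
  have hn0 : ((‖deriv f z₀‖ : ℝ) : ℂ) ≠ 0 := by
    exact_mod_cast (norm_ne_zero_iff.2 hd0)
  set κ : ℂ := ((‖deriv f z₀‖ : ℝ) : ℂ) / deriv f z₀ with hκ
  have hκn : ‖κ‖ = 1 := by
    rw [hκ, norm_div, Complex.norm_real, norm_norm, div_self (norm_ne_zero_iff.2 hd0)]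
  have hκ0 : κ ≠ 0 := by
    intro h
    rw [h, norm_zero] at hκn
    exact zero_ne_one hκn
  refine ⟨fun z => κ * f z, ‖deriv f z₀‖, hd.const_mul κ, ⟨?_, ?_, ?_⟩, ?_, norm_pos_iff.2 hd0, ?_⟩
  · intro z hzU
    have := hm hzU
    rw [mem_ball_zero_iff] at this ⊢
    rwa [norm_mul, hκn, one_mul]
  · intro a ha b hb hab
    exact hi ha hb (mul_left_cancel₀ hκ0 hab)
  · intro w hw
    have hw' : κ⁻¹ * w ∈ ball (0 : ℂ) 1 := by
      rw [mem_ball_zero_iff] at hw ⊢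
      rwa [norm_mul, norm_inv, hκn, inv_one, one_mul]
    obtain ⟨z, hzU, hzw⟩ := hs hw'
    refine ⟨z, hzU, ?_⟩
    show κ * f z = w
    rw [hzw, ← mul_assoc, mul_inv_cancel₀ hκ0, one_mul]
  · show κ * f z₀ = 0
    rw [h0, mul_zero]
  · rw [deriv_const_mul _ (hd.differentiableAt (hU.mem_nhds hz)), hκ, div_mul_cancel₀ _ hd0]

end Pool.Agent.P.MP_6c8efb_pr.SLE.L
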