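import Pool.Agent.P.MP_6c8efb_pr.SLE.LIface

/-!
Block L of the SLE project: adding a segment to the removed set.
-/

namespace Pool.Agent.P.MP_6c8efb_pr.SLE.L

open Set Filter Topology Metric Complex
open scoped NNReal ComplexConjugate

theorem s_Htpy : S_Htpy := by
  classical
  intro X Y h sub hc h1 hY h0
  have c1 : ContinuousOn (fun u => h (1, u)) X :=
    hc.comp (by fun_prop) fun u hu => ⟨⟨zero_le_one, le_rfl⟩, hu⟩
  refine ⟨fun hX F hF hne => ?_, fun hX => ?_⟩
  · obtain ⟨L, hL, eL⟩ := hX (fun u => F (h (1, u))) (hF.comp c1 h1) fun u hu => hne _ (h1 u hu)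
    have mI : ∀ σ : unitInterval, 1 - (σ : ℝ) ∈ Icc (0 : ℝ) 1 := fun σ =>
      ⟨by linarith [σ.2.2], by linarith [σ.2.1]⟩
    have cH : Continuous fun q : unitInterval × Y => F (h (1 - (q.1 : ℝ), (q.2 : ℂ))) :=
      hF.comp_continuous (hc.comp_continuous (by fun_prop) fun q => ⟨mI q.1, sub q.2.2⟩)
        fun q => hY _ (mI q.1) _ q.2.2
    let H : C(unitInterval × Y, {z : ℂ // z ≠ 0}) :=
      ⟨fun q => ⟨F (h (1 - (q.1 : ℝ), (q.2 : ℂ))), hne _ (hY _ (mI q.1) _ q.2.2)⟩,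
        cH.subtype_mk _⟩
    let f : C(Y, ℂ) := ⟨fun u => L u, hL.comp_continuous continuous_subtype_val fun u => sub u.2⟩
    have H0 : ∀ a : Y, H (0, a) = (fun z : ℂ => (⟨_, z.exp_ne_zero⟩ : {z : ℂ // z ≠ 0})) (f a) := by
      intro a
      apply Subtype.ext
      simp [H, f, eL _ (sub a.2)]
    let G := isCoveringMap_exp.liftHomotopy H f H0
    refine ⟨fun z => if hz : z ∈ Y then G (1, ⟨z, hz⟩) else 0, ?_, fun z hz => ?_⟩
    · rw [continuousOn_iff_continuous_domRestrict]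
      have : (Y.domRestrict fun z => if hz : z ∈ Y then G (1, ⟨z, hz⟩) else 0) =
          fun u : Y => G (1, u) := by
        ext u; simp [u.2]
      rw [this]; fun_prop
    · have := congrArg Subtype.val
        (congrFun (isCoveringMap_exp.liftHomotopy_lifts H f H0) (1, ⟨z, hz⟩))
      simp only [hz, dif_pos]
      change cexp (G (1, ⟨z, hz⟩)) = F (h (1 - 1, z)) at this
      rwa [sub_self, h0 z hz] at this
  · have arc : ∀ u ∈ Y, IsPreconnected ((fun σ => h (σ, u)) '' Icc (0 : ℝ) 1) := fun u hu =>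
      isPreconnected_Icc.image _ (hc.comp (by fun_prop) fun σ hσ => ⟨hσ, sub hu⟩)
    have hA := hX.image _ c1
    have i1 : (1 : ℝ) ∈ Icc (0 : ℝ) 1 := ⟨zero_le_one, le_rfl⟩
    have i0 : (0 : ℝ) ∈ Icc (0 : ℝ) 1 := ⟨le_rfl, zero_le_one⟩
    refine isPreconnected_of_forall_pair fun x hx y hy => ?_
    have p1 := (arc x hx).union (h (1, x)) (by exact ⟨1, i1, rfl⟩) (by exact ⟨x, sub hx, rfl⟩) hA
    have p2 := p1.union (h (1, y)) (by exact Or.inr ⟨y, sub hy, rfl⟩) (by exact ⟨1, i1, rfl⟩)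
      (arc y hy)
    refine ⟨_, ?_, ?_, ?_, p2⟩
    · rintro _ ((⟨σ, hσ, rfl⟩ | ⟨u, hu, rfl⟩) | ⟨σ, hσ, rfl⟩)
      exacts [hY σ hσ x hx, h1 u hu, hY σ hσ y hy]
    · exact Or.inl (Or.inl ⟨0, i0, h0 x hx⟩)
    · exact Or.inr ⟨0, i0, h0 y hy⟩

/-- The amount of the push, in the normalised coordinate. -/
noncomputable def slit_ph (c l : ℝ) (w : ℂ) : ℝ :=
  max 0 (c * w.re - |w.im|) * max 0 (l - w.re) / (c * ‖w‖)

theorem slit_nonneg {c : ℝ} (hc : 0 < c) (l : ℝ) (w : ℂ) : 0 ≤ slit_ph c l w := by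
  unfold slit_ph; positivity

theorem slit_cont {c : ℝ} (hc : 0 < c) (l : ℝ) {w : ℂ} (hw : w ≠ 0) :
    ContinuousAt (slit_ph c l) w := by
  unfold slit_ph
  have : c * ‖w‖ ≠ 0 := mul_ne_zero hc.ne' (norm_ne_zero_iff.2 hw)
  fun_prop (disch := exact this)

theorem slit_pos {c l : ℝ} (hc : 0 < c) {w : ℂ} (h : slit_ph c l w ≠ 0) :
    0 < w.re ∧ |w.im| < c * w.re ∧ w.re < l ∧ slit_ph c l w ≤ l - w.re := by
  have a1 : 0 < c * w.re - |w.im| := by
    by_contra k
    exact h (by rw [slit_ph, max_eq_left (not_lt.1 k)]; simp)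
  have a2 : 0 < l - w.re := by
    by_contra k
    exact h (by rw [slit_ph, max_eq_left (not_lt.1 k)]; simp)
  have a3 : 0 < w.re := by
    have := abs_nonneg w.im
    exact (mul_pos_iff_of_pos_left hc).1 (by linarith)
  refine ⟨a3, by linarith, by linarith, ?_⟩
  have n0 : 0 < ‖w‖ := a3.trans_le (re_le_norm w)
  rw [slit_ph, max_eq_right a1.le, max_eq_right a2.le, div_le_iff₀ (by positivity), mul_comm]
  refine mul_le_mul_of_nonneg_left ?_ a2.le
  nlinarith [re_le_norm w, abs_nonneg w.im]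

theorem slit_axis {c l : ℝ} (hc : 0 < c) {w : ℂ} (h0 : w.im = 0) (h1 : 0 < w.re) (h2 : w.re ≤ l) :
    slit_ph c l w = l - w.re := by
  have e : ‖w‖ = w.re := by
    rw [← re_add_im w]; simp [h0, abs_of_pos h1]
  rw [slit_ph, h0, e, abs_zero, sub_zero, max_eq_right (by positivity),
    max_eq_right (by linarith)]
  field_simp

theorem slit_seg {p d : ℂ} (hd : d ≠ 0) {τ : ℝ} (h0 : 0 ≤ τ) {z : ℂ} :
    z ∈ segment ℝ p (p + τ * d) ↔
      ((z - p) / d).im = 0 ∧ 0 ≤ ((z - p) / d).re ∧ ((z - p) / d).re ≤ τ := by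
  rw [segment_eq_image']
  constructor
  · rintro ⟨t, ht, rfl⟩
    have : (p + t • (p + τ * d - p) - p) / d = ((t * τ : ℝ) : ℂ) := by
      rw [real_smul]; push_cast; field_simp; ring
    simp only [this, ofReal_im, ofReal_re, true_and]
    exact ⟨mul_nonneg ht.1 h0, by nlinarith [ht.2]⟩
  · rintro ⟨a, b, c⟩
    set w := (z - p) / d with hw
    have e : z = p + (w.re : ℂ) * d := by
      have : (w.re : ℂ) = w := by apply Complex.ext <;> simp [a]
      rw [this, hw]; field_simp; ring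
    rcases h0.eq_or_lt with rfl | h0
    · refine ⟨0, ⟨le_rfl, zero_le_one⟩, ?_⟩
      rw [e, le_antisymm c b]; simp
    · refine ⟨w.re / τ, ⟨by positivity, (div_le_one h0).2 c⟩, ?_⟩
      have : (τ : ℂ) ≠ 0 := by exact_mod_cast h0.ne'
      rw [e]
      simp only [real_smul]
      push_cast; field_simp; ring

theorem s_Slit (hHtpy : S_Htpy) : S_Slit := by
  intro S p d c l τ hb hcl z0 hp hd hc hl t0 t1 dj hL hP
  set φ : ℂ → ℝ := fun z => slit_ph c l ((z - p) / d) with hφ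
  have φ0 : ∀ z, 0 ≤ φ z := fun z => slit_nonneg hc l _
  have e1 : ∀ (z : ℂ) (s : ℝ), (z + s * d - p) / d = (z - p) / d + s := fun z s => by
    field_simp; ring
  have k1 : ∀ z ∉ S, ∀ σ ∈ Icc (0 : ℝ) 1, z + (σ * φ z : ℝ) * d ∉ S := by
    intro z hz σ hσ
    by_cases h : φ z = 0
    · simpa [h] using hz
    obtain ⟨a1, a2, a3, a4⟩ := slit_pos hc h
    have b0 : 0 ≤ σ * φ z := mul_nonneg hσ.1 (φ0 z)
    have b1 : σ * φ z ≤ φ z := by nlinarith [hσ.2, φ0 z]
    refine disjoint_left.1 dj ⟨((z - p) / d).im, ((z - p) / d).re + σ * φ z, by linarith,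
      by change φ z ≤ _ at a4; linarith, by nlinarith, ?_⟩
    have := re_add_im ((z - p) / d)
    have e : z = p + (z - p) / d * d := by field_simp; ring
    push_cast
    linear_combination e - d * this
  have k2 : ∀ z ∉ S, ∀ σ ∈ Icc (0 : ℝ) 1, z + (σ * φ z : ℝ) * d ∈ segment ℝ p (p + τ * d) →
      z ∈ segment ℝ p (p + τ * d) ∧ σ ≠ 1 := by
    intro z hz σ hσ h
    rw [slit_seg hd t0, e1] at h
    simp only [add_im, ofReal_im, add_zero, add_re, ofReal_re] at h
    obtain ⟨a, b1, b2⟩ := h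
    have b0 : 0 ≤ σ * φ z := mul_nonneg hσ.1 (φ0 z)
    have r0 : 0 < ((z - p) / d).re := by
      by_cases h : φ z = 0
      · rw [h, mul_zero, add_zero] at b1
        refine b1.lt_of_ne fun k => hz ?_
        have : (z - p) / d = 0 := Complex.ext k.symm a
        rw [div_eq_zero_iff, sub_eq_zero] at this
        rw [this.resolve_right hd]; exact hp
      · exact (slit_pos hc h).1
    refine ⟨(slit_seg hd t0).2 ⟨a, r0.le, by linarith⟩, ?_⟩
    rintro rfl
    have := slit_axis (l := l) hc a r0 (by linarith)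
    change φ z = _ at this
    linarith
  have e2 : ∀ (u : ℂ) (s : ℝ), u ≠ 0 → 1 + s * d * u = u * (u⁻¹ + s * d) := fun u s hu => by
    field_simp
  have e3 : ∀ (u : ℂ) (s : ℝ), u ≠ 0 → (u / (1 + s * d * u))⁻¹ = u⁻¹ + s * d := fun u s hu => by
    rw [inv_div]; field_simp
  have cq : ∀ u ∈ Om S, ContinuousAt (fun u : ℂ => (φ u⁻¹ : ℂ) * u) u := by
    intro u hu
    by_cases u0 : u = 0
    · subst u0
      have T : Tendsto (fun u : ℂ => ‖(u⁻¹ - p) / d‖) (𝓝[≠] 0) atTop := by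
        rw [tendsto_norm_atTop_iff_cobounded]
        simp only [div_eq_mul_inv, sub_eq_add_neg]
        exact (tendsto_mul_right_cobounded (inv_ne_zero hd)).comp
          ((tendsto_add_const_cobounded (-p)).comp Filter.tendsto_inv₀_nhdsNE_zero)
      have ev : ∀ᶠ u : ℂ in 𝓝 0, (φ u⁻¹ : ℂ) * u = 0 := by
        have := eventually_nhdsWithin_iff.1 (T.eventually_gt_atTop (l + c * l))
        filter_upwards [this] with u hu
        by_cases u0 : u = 0
        · simp [u0]
        have hu := hu u0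
        by_cases h : φ u⁻¹ = 0
        · simp [h]
        obtain ⟨a1, a2, a3, -⟩ := slit_pos hc h
        have := norm_le_abs_re_add_abs_im ((u⁻¹ - p) / d)
        rw [abs_of_pos a1] at this
        nlinarith
      exact continuousAt_const.congr (EventuallyEq.symm ev)
    · have hS := hu.resolve_left u0
      have ne : (u⁻¹ - p) / d ≠ 0 :=
        div_ne_zero (sub_ne_zero.2 fun k => hS (k ▸ hp)) hd
      have c1 : ContinuousAt (fun u : ℂ => (u⁻¹ - p) / d) u := by fun_prop (disch := assumption)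
      have c2 : ContinuousAt (fun u : ℂ => φ u⁻¹) u :=
        ContinuousAt.comp (f := fun u : ℂ => (u⁻¹ - p) / d) (slit_cont hc l ne) c1
      exact (continuous_ofReal.continuousAt.comp c2).mul continuousAt_id
  have key := hHtpy (Om S) (Om (S ∪ segment ℝ p (p + τ * d)))
    (fun q => q.2 / (1 + (q.1 * φ q.2⁻¹ : ℝ) * d * q.2))
    (fun u hu => hu.imp_right fun k hk => k (Or.inl hk)) ?_ ?_ ?_ (fun u _ => by simp)
  · exact ⟨key.1 hL, key.2 hP⟩
  · rintro ⟨σ, u⟩ ⟨hσ, hu⟩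
    refine ContinuousAt.continuousWithinAt (continuousAt_snd.div ?_ ?_)
    · have c1 : ContinuousAt (fun q : ℝ × ℂ => (φ q.2⁻¹ : ℂ) * q.2) (σ, u) :=
        ContinuousAt.comp (g := fun u : ℂ => (φ u⁻¹ : ℂ) * u) (f := Prod.snd) (cq u hu)
          continuousAt_snd
      have c2 : ContinuousAt (fun q : ℝ × ℂ => 1 + (q.1 : ℂ) * d * ((φ q.2⁻¹ : ℂ) * q.2)) (σ, u) :=
        continuousAt_const.add (ContinuousAt.mul (by fun_prop) c1)
      convert c2 using 2
      push_cast; ring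
    · by_cases u0 : u = 0
      · simp [u0]
      · dsimp only
        rw [e2 u _ u0]
        exact mul_ne_zero u0 fun k => k1 _ (hu.resolve_left u0) σ hσ (k ▸ z0)
  · intro u hu
    by_cases u0 : u = 0
    · exact Or.inl (by simp [u0])
    have hS := hu.resolve_left u0
    refine Or.inr ?_
    dsimp only
    rw [e3 u _ u0]
    rintro (k | k)
    · exact k1 _ hS 1 ⟨zero_le_one, le_rfl⟩ k
    · exact (k2 _ hS 1 ⟨zero_le_one, le_rfl⟩ k).2 rfl
  · intro σ hσ u hu
    by_cases u0 : u = 0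
    · exact Or.inl (by simp [u0])
    have hS := hu.resolve_left u0
    refine Or.inr ?_
    dsimp only
    rw [e3 u _ u0]
    rintro (k | k)
    · exact k1 _ (fun j => hS (Or.inl j)) σ hσ k
    · exact hS (Or.inr (k2 _ (fun j => hS (Or.inl j)) σ hσ k).1)

end Pool.Agent.P.MP_6c8efb_pr.SLE.L
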