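import Pool.Agent.P.MP_6c8efb_pr.SLE.LIface

/-!
Block L of the SLE project: one step of the chain.
-/

namespace Pool.Agent.P.MP_6c8efb_pr.SLE.L

open Set Filter Topology Metric Complex MeasureTheory
open scoped NNReal ComplexConjugate

theorem s_Step (hL1 : S_L1) (hComp : S_Comp) (hTip : S_Tip) : S_Step := by
  intro η hη s t x r hst hr hb
  obtain ⟨hH, hD⟩ := hComp _ _ _ _ _ _ _ _ (hη.hyd s) (hη.hyd t) (hull_mono η hst)
  rw [hη.toCurve.hull_diff] at hH hD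
  have hK : gt η s '' (η '' Ioc s t) ⊆ closedBall (x : ℂ) r := by
    rintro _ ⟨_, ⟨u, hu, rfl⟩, rfl⟩
    rw [mem_closedBall, dist_eq_norm]
    exact hb u hu
  obtain ⟨h1, h2, -⟩ := hL1 _ _ _ _ hH
  obtain ⟨h0, hh, hfar, hnear⟩ := h1 x r hr hK
  have hw : ∀ z ∈ HH \ hull η t, gt η s z ∈ HH \ gt η s '' (η '' Ioc s t) := fun z hz => by
    rw [hD]; exact ⟨z, hz, rfl⟩
  have he : ∀ z ∈ HH \ hull η t, (gt η t ∘ ft η s) (gt η s z) = gt η t z := fun z hz => by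
    rw [Function.comp_apply, (hη.hyd s).fg z (D_anti η hst hz)]
  have hn : ∀ z ∈ HH \ hull η t, ‖gt η t z - gt η s z‖ ≤ 12 * r := fun z hz => by
    have := hnear _ (hw z hz)
    rwa [he z hz] at this
  refine ⟨h0, fun hlt => ?_, fun h hh0 hle => hh h hh0 ?_, fun hlt => ?_,
    fun z hz => ⟨hn z hz, fun h4 => ?_⟩⟩
  · refine lt_of_le_of_ne (sub_nonneg.1 h0) fun e => ?_
    have := h2 (sub_eq_zero.2 e.symm)
    exact (this ▸ (⟨η t, ⟨t, ⟨hlt, le_rfl⟩, rfl⟩, rfl⟩ :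
      gt η s (η t) ∈ gt η s '' (η '' Ioc s t)) : gt η s (η t) ∈ (∅ : Set ℂ))
  · rintro _ ⟨_, ⟨u, hu, rfl⟩, rfl⟩
    exact hle u hu
  · have hc : Tendsto (fun u => gt η s (η u)) (𝓝[>] t) (𝓝 (gt η s (η t))) :=
      (((hη.hyd s).diffAt_g (hη.toCurve.mem_D hlt)).continuousAt.tendsto.comp
        hη.cont.continuousAt.tendsto).mono_left nhdsWithin_le_nhds
    have h3 : ‖(drv η t : ℂ) - gt η s (η t)‖ ≤ 12 * r :=
      le_of_tendsto (((hTip η hη).1 t).sub hc).norm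
        (eventually_nhdsWithin_of_forall fun u hu => hn _ (hη.toCurve.mem_D hu))
    have h4 := hb t ⟨hlt, le_rfl⟩
    have h5 := norm_sub_le_norm_sub_add_norm_sub (drv η t : ℂ) (gt η s (η t)) x
    rw [← ofReal_sub, norm_real, Real.norm_eq_abs] at h5
    linarith
  · have := hfar _ (hw z hz).1 h4
    rwa [he z hz] at this

end Pool.Agent.P.MP_6c8efb_pr.SLE.L
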