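import Pool.Agent.P.MP_6c8efb_pr.SLE.LIface

/-!
Block L of the SLE project: the image of the tip.
-/

namespace Pool.Agent.P.MP_6c8efb_pr.SLE.L

open Set Filter Topology Metric Complex MeasureTheory
open scoped NNReal ComplexConjugate

theorem tip_key (hWg : S_Wg) {η : ℝ≥0 → ℂ} (h : Simple η) {s t : ℝ≥0} {R ρ : ℝ}
    (hR : ∀ u ≤ t, ‖η u‖ ≤ R) (h0 : 0 < ρ) (h1 : ρ < R) (h2 : ∀ u ∈ Icc s t, ‖η u - η s‖ ≤ ρ)
    {u : ℝ≥0} (hu : u ∈ Ioc s t) :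
    (∀ u' ∈ Ioc s t, ‖gt η s (η u) - gt η s (η u')‖ ≤ om R ρ) ∧ (gt η s (η u)).im ≤ om R ρ := by
  have hst : s ≤ t := hu.1.le.trans hu.2
  obtain ⟨a1, a2⟩ := hWg _ _ _ _ (h.hyd s) R ρ (η s)
    (hull_subset_ball fun v hv => hR v (hv.trans hst)) (hR s hst) h0 h1
  have hb : ∀ v ∈ Ioc s t, η v ∈ closedBall (η s) ρ := fun v hv => by
    rw [mem_closedBall, dist_eq_norm]; exact h2 v ⟨hv.1.le, hv.2⟩
  refine ⟨fun u' hu' => a1 (η '' Ioc s t) ?_ ?_ (isPreconnected_Ioc.image _ h.cont.continuousOn)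
    _ ⟨u, hu, rfl⟩ _ ⟨u', hu', rfl⟩, a2 _ (h.toCurve.mem_D hu.1) (hb u hu)
      ⟨η s, mem_closedBall_self h0.le, h.toCurve.tip_not_mem s⟩⟩
  · rintro _ ⟨v, hv, rfl⟩; exact h.toCurve.mem_D hv.1
  · rintro _ ⟨v, hv, rfl⟩; exact hb v hv

theorem tip_loc {η : ℝ≥0 → ℂ} (hc : Continuous η) (s : ℝ≥0) {ε : ℝ} (hε : 0 < ε) :
    ∃ (t : ℝ≥0) (R ρ : ℝ), s < t ∧ (∀ u ≤ t, ‖η u‖ ≤ R) ∧ 0 < ρ ∧ ρ < R ∧ om R ρ ≤ ε ∧
      ∀ u ∈ Icc s t, ‖η u - η s‖ ≤ ρ := by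
  obtain ⟨R, hR, hb⟩ := exists_bound hc (s + 1)
  obtain ⟨ρ, h0, h1, h2⟩ := om_small hR hε
  obtain ⟨δ, hδ, h3⟩ := unif_cont hc (s + 1) h0
  have hm : 0 < min δ 1 := lt_min hδ one_pos
  have e1 : s + ⟨min δ 1, hm.le⟩ ≤ s + 1 := by
    gcongr
    exact (min_le_right δ 1 : min δ 1 ≤ (1 : ℝ))
  refine ⟨s + ⟨min δ 1, hm.le⟩, R, ρ, lt_add_of_pos_right _ hm, fun u hu => hb u (hu.trans e1),
    h0, h1, h2, fun u hu => h3 s u le_self_add (hu.2.trans e1) ?_⟩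
  have e2 : (s : ℝ) ≤ u := hu.1
  have e3 : (u : ℝ) ≤ s + min δ 1 := hu.2
  rw [abs_of_nonneg (by linarith)]
  linarith [min_le_left δ 1]

theorem tip_lim (hWg : S_Wg) {η : ℝ≥0 → ℂ} (h : Simple η) (s : ℝ≥0) :
    Tendsto (fun u => gt η s (η u)) (𝓝[>] s) (𝓝 (drv η s : ℂ)) := by
  have hc : Cauchy (map (fun u => gt η s (η u)) (𝓝[>] s)) := by
    rw [Metric.cauchy_iff]
    refine ⟨inferInstance, fun ε hε => ?_⟩
    obtain ⟨t, R, ρ, a1, a2, a3, a4, a5, a6⟩ := tip_loc h.cont s (half_pos hε)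
    refine ⟨(fun u => gt η s (η u)) '' Ioc s t, image_mem_map (Ioc_mem_nhdsGT a1), ?_⟩
    rintro _ ⟨u, hu, rfl⟩ _ ⟨u', hu', rfl⟩
    rw [dist_eq_norm]
    linarith [(tip_key hWg h a2 a3 a4 a6 hu).1 u' hu']
  obtain ⟨w, hw⟩ := cauchy_map_iff_exists_tendsto.1 hc
  have hi : Tendsto (fun u => (gt η s (η u)).im) (𝓝[>] s) (𝓝 w.im) :=
    (continuous_im.tendsto w).comp hw
  have h1 : 0 ≤ w.im := ge_of_tendsto hi (eventually_nhdsWithin_of_forall fun u hu =>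
    le_of_lt ((h.hyd s).mg (h.toCurve.mem_D hu)))
  have h2 : w.im ≤ 0 := le_of_forall_pos_le_add fun ε hε => by
    obtain ⟨t, R, ρ, a1, a2, a3, a4, a5, a6⟩ := tip_loc h.cont s hε
    rw [zero_add]
    refine le_of_tendsto hi ?_
    filter_upwards [Ioc_mem_nhdsGT a1] with u hu
    exact (tip_key hWg h a2 a3 a4 a6 hu).2.trans a5
  have h3 : (drv η s : ℂ) = w := by
    rw [drv, hw.limUnder_eq]
    exact Complex.ext rfl (by simpa using le_antisymm h1 h2)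
  rwa [h3]

theorem tip_two (hWg : S_Wg) {η : ℝ≥0 → ℂ} (h : Simple η) {s t : ℝ≥0} {R ρ : ℝ}
    (hR : ∀ u ≤ t, ‖η u‖ ≤ R) (h0 : 0 < ρ) (h1 : ρ < R) (h2 : ∀ u ∈ Icc s t, ‖η u - η s‖ ≤ ρ)
    {u : ℝ≥0} (hu : u ∈ Ioc s t) : ‖gt η s (η u) - drv η s‖ ≤ om R ρ := by
  refine le_of_tendsto ((tip_lim hWg h s).const_sub (gt η s (η u))).norm ?_
  filter_upwards [Ioc_mem_nhdsGT (hu.1.trans_le hu.2)] with u' hu'
  exact (tip_key hWg h hR h0 h1 h2 hu).1 u' hu'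

theorem s_Tip (hWg : S_Wg) : S_Tip := by
  intro η h
  refine ⟨tip_lim hWg h, fun s t R ρ hR h0 h1 h2 u hu => tip_two hWg h hR h0 h1 h2 hu,
    fun T ε hε => ?_⟩
  obtain ⟨R, hR, hb⟩ := exists_bound h.cont T
  obtain ⟨ρ, h0, h1, h2⟩ := om_small hR hε
  obtain ⟨δ, hδ, h3⟩ := unif_cont h.cont T h0
  refine ⟨δ, hδ, fun s u hsu hu hd => ?_⟩
  refine (tip_two hWg h (t := u) (fun v hv => hb v (hv.trans hu)) h0 h1 (fun v hv => ?_)
    ⟨hsu, le_rfl⟩).trans h2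
  refine h3 s v (hsu.le.trans hu) (hv.2.trans hu) ?_
  have e2 : (s : ℝ) ≤ v := hv.1
  have e3 : (v : ℝ) ≤ u := hv.2
  rw [abs_of_nonneg (by linarith)]
  linarith

theorem tip_out {D : Set ℂ} {p : ℂ} {e c : ℝ} (hD : IsPreconnected D) (hp : p ∉ D) (hc : 0 < c)
    (hce : c ≤ e) (hr : ∀ z ∈ D, ∀ l : ℝ, 1 ≤ l → l * ‖z - p‖ ≤ e → p + l * (z - p) ∈ D) :
    IsPreconnected {z ∈ D | c ≤ ‖z - p‖} := by
  have hn : ∀ z ∈ D, 0 < ‖z - p‖ := fun z hz => norm_pos_iff.2 (sub_ne_zero.2 fun e => hp (e ▸ hz))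
  have key : {z ∈ D | c ≤ ‖z - p‖} =
      (fun z => p + (max 1 (c / ‖z - p‖) : ℝ) * (z - p)) '' D := by
    ext z
    constructor
    · rintro ⟨hz, h1⟩
      refine ⟨z, hz, ?_⟩
      simp only
      rw [max_eq_left ((div_le_one (hn z hz)).2 h1)]
      simp
    · rintro ⟨z, hz, rfl⟩
      have h0 := hn z hz
      rcases le_total (c / ‖z - p‖) 1 with h1 | h1
      · simp only [max_eq_left h1]
        refine ⟨by simpa using hz, ?_⟩
        simpa using (div_le_one h0).1 h1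
      · simp only [max_eq_right h1]
        refine ⟨hr z hz _ h1 (by rwa [div_mul_cancel₀ _ h0.ne']), ?_⟩
        rw [add_sub_cancel_left, norm_mul, Complex.norm_real, Real.norm_of_nonneg (by positivity),
          div_mul_cancel₀ _ h0.ne']
  rw [key]
  refine hD.image _ (continuousOn_const.add (ContinuousOn.mul ?_ (by fun_prop)))
  refine continuous_ofReal.comp_continuousOn (continuousOn_const.sup ?_)
  exact continuousOn_const.div (by fun_prop) fun z hz => (hn z hz).ne'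

theorem s_Tipf (hProp : S_Prop) (hWf : S_Wf) (hTip : S_Tip) : S_Tipf := by
  intro η h t ⟨e, he, hr⟩ ε hε
  have H := h.hyd t
  set W := drv η t
  obtain ⟨c, hc, hce, hcε⟩ : ∃ c : ℝ, 0 < c ∧ 4 * c ≤ e ∧ 4 * c ≤ ε :=
    ⟨min e ε / 4, by positivity, by linarith [min_le_left e ε], by linarith [min_le_right e ε]⟩
  have hE := tip_out (c := 3 * c) H.preconn (h.toCurve.tip_not_mem t) (by positivity)
    (by linarith) hr
  obtain ⟨u, hu, hu2⟩ : ∃ u, t < u ∧ ∀ v ∈ Ioc t u, ‖η v - η t‖ < c := by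
    have h1 : ∀ᶠ v in 𝓝[>] t, ‖η v - η t‖ < c := by
      refine Eventually.filter_mono nhdsWithin_le_nhds ?_
      have := (h.cont.tendsto t).eventually (ball_mem_nhds (η t) hc)
      simpa [dist_eq_norm] using this
    obtain ⟨u, a, b⟩ := mem_nhdsGT_iff_exists_Ioc_subset.1 h1
    exact ⟨u, a, fun v hv => b hv⟩
  have hd : 0 < ‖gt η t (η u) - W‖ := by
    refine norm_pos_iff.2 (sub_ne_zero.2 fun e => ?_)
    have := H.mg (h.toCurve.mem_D hu)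
    rw [e] at this
    simp [mem_HH] at this
  obtain ⟨R, hR, hK⟩ := H.exists_radius
  set s₁ := min ‖gt η t (η u) - W‖ 1
  have hs₁ : 0 < s₁ := lt_min hd one_pos
  set q := 7 * (|W| + s₁ + 12 * R) / c with hq
  have hq0 : 0 < q := by positivity
  have hx : 1 < Real.exp (q ^ 2) := Real.one_lt_exp_iff.2 (by positivity)
  obtain ⟨s, hs, hw⟩ := hWf _ _ _ _ _ _ _ _ H H R W (s₁ / Real.exp (q ^ 2)) s₁ hK hK hR
    (by positivity) (div_lt_self hs₁ hx)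
  have hs0 : 0 < s := lt_trans (by positivity) hs.1
  have hb : 7 * (|W| + s₁ + 12 * R) / √(Real.log (s₁ / (s₁ / Real.exp (q ^ 2)))) = c := by
    rw [div_div_cancel₀ hs₁.ne', Real.log_exp, Real.sqrt_sq hq0.le, hq]
    field_simp
  rw [hb] at hw
  obtain ⟨v, hv, hvs⟩ : ∃ v ∈ Ioc t u, ‖gt η t (η v) - W‖ = s := by
    have h1 : ∀ᶠ v in 𝓝[>] t, ‖gt η t (η v) - W‖ < s := by
      have := ((hTip η h).1 t).eventually (ball_mem_nhds _ hs0)
      simpa [dist_eq_norm] using this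
    obtain ⟨v', a, b⟩ := (h1.and (Ioc_mem_nhdsGT hu)).exists
    have h2 : ContinuousOn (fun v => ‖gt η t (η v) - W‖) (Ioc t u) :=
      ((H.dg.continuousOn.comp h.cont.continuousOn fun v hv =>
        h.toCurve.mem_D hv.1).sub continuousOn_const).norm
    exact isPreconnected_Ioc.intermediate_value b ⟨hu, le_rfl⟩ h2
      ⟨a.le, hs.2.le.trans (min_le_left _ _)⟩
  have hv1 := h.toCurve.mem_D hv.1
  have h3 : ∀ w ∈ HH, ‖w - W‖ = s → ‖ft η t w - η t‖ < 2 * c := fun w hw1 hw2 => by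
    have a := (hw w hw1 _ (H.mg hv1) hw2 hvs).1
    rw [H.fg _ hv1] at a
    linarith [norm_sub_le_norm_sub_add_norm_sub (ft η t w) (η v) (η t), hu2 v hv]
  have h4 := outside_of_preconn (hE.image _ (H.dg.continuousOn.mono fun z hz => hz.1))
    (c := W) (s := s) ?_ ?_
  · refine ⟨s, hs0, fun w hw1 hw2 => ?_⟩
    by_contra hn
    have := h4 w ⟨ft η t w, ⟨H.mf hw1, by linarith [not_lt.1 hn]⟩, H.gf w hw1⟩
    linarith
  · rintro _ ⟨z, hz, rfl⟩ e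
    have := h3 _ (H.mg hz.1) e
    rw [H.fg z hz.1] at this
    linarith [hz.2]
  · obtain ⟨M, hM⟩ := (hProp _ _ _ _ H).2.2.1 (‖η t‖ + 3 * c)
    have hm : 0 < |M| + s + 1 := by positivity
    have hw1 : ((|M| + s + 1 : ℝ) : ℂ) * I ∈ HH := by simpa [mem_HH] using hm
    have a := hM _ hw1 (by
      rw [norm_mul, norm_I, mul_one, Complex.norm_real, Real.norm_of_nonneg hm.le]
      linarith [le_abs_self M])
    refine ⟨_, ⟨ft η t _, ⟨H.mf hw1, ?_⟩, H.gf _ hw1⟩, ?_⟩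
    · linarith [norm_sub_norm_le (ft η t (((|M| + s + 1 : ℝ) : ℂ) * I)) (η t)]
    · have b := Complex.im_le_norm (((|M| + s + 1 : ℝ) : ℂ) * I - W)
      have b2 : (((|M| + s + 1 : ℝ) : ℂ) * I - W).im = |M| + s + 1 := by simp
      linarith [abs_nonneg M]

end Pool.Agent.P.MP_6c8efb_pr.SLE.L
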