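import Pool.Agent.P.MP_6c8efb_pr.SLE.LIface

/-!
Block L of the SLE project: a simple curve generates its Loewner chain.
-/

namespace Pool.Agent.P.MP_6c8efb_pr.SLE.L

open Set Filter Topology Metric Complex
open scoped NNReal ComplexConjugate

theorem trace_unb {K : Set ℂ} (hK : Bornology.IsBounded K) : ¬ Bornology.IsBounded (HH \ K) := by
  intro hb
  obtain ⟨R, hR, hs⟩ := (hb.union hK).subset_closedBall_lt 0 0
  have h1 : ((R + 1 : ℝ) : ℂ) * I ∈ HH \ K ∪ K := by
    by_cases h : ((R + 1 : ℝ) : ℂ) * I ∈ K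
    · exact Or.inr h
    · refine Or.inl ⟨?_, h⟩
      simp only [mem_HH, mul_im, ofReal_re, I_im, ofReal_im, I_re]; linarith
  have h2 := hs h1
  rw [mem_closedBall, dist_zero_right, norm_mul, norm_I, mul_one, norm_real, Real.norm_eq_abs,
    abs_of_pos (by linarith)] at h2
  linarith

theorem s_Trace (_hProp : S_Prop) (hCont : S_Cont) (hHgt : S_Hgt) (hOde : S_Ode) (hFwd : S_Fwd) :
    S_Trace := by
  intro η h
  obtain ⟨-, -, -, hg0, hWc, hW0, -⟩ := hCont.1 η h.toSimple
  have hc := h.toSimple.toCurve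
  refine ⟨by rw [hc.zero, hW0]; simp, hc.im_nonneg, fun t z hz => ?_⟩
  rw [hc.D_eq, (hFwd _ t hWc).1 z hz]
  constructor
  · rintro ⟨G, hG0, hG⟩ hb
    have hzD : z ∈ HH \ hull η t := by
      refine ⟨hz, ?_⟩
      rintro ⟨u, hu, rfl⟩
      have hu0 : (0 : ℝ) < u := hu.1
      have huI : (u : ℝ) ∈ Icc (0 : ℝ) t := ⟨u.2, hu.2⟩
      have h1 : ∀ v ∈ Ico (0 : ℝ) u, (G v).im ^ 2 ≤ 4 * (u - v) := fun v hv => by
        lift v to ℝ≥0 using hv.1
        have hvu : v < u := hv.2
        have h2 := (hFwd _ v hWc).2.1 G _ (hG.mono (hvu.le.trans hu.2))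
          (hOde η h v _ (hc.mem_D hvu)) (by simp [hG0, hg0 _ hz]) v ⟨v.2, le_rfl⟩
        have h3 := hHgt η h.toSimple v u hvu
        rw [h.clock, h.clock] at h3
        simp only [Real.toNNReal_coe] at h2
        rw [h2]; linarith
      have h4 : ContinuousWithinAt (fun v => (G v).im ^ 2 - 4 * (u - v)) (Ico (0 : ℝ) u) u :=
        (((continuous_im.continuousAt.comp_continuousWithinAt
          (hG.continuousOn u huI)).mono fun v hv => ⟨hv.1, hv.2.le.trans hu.2⟩).pow 2).sub
          (by fun_prop)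
      have h5 : (u : ℝ) ∈ closure (Ico (0 : ℝ) u) := by
        rw [closure_Ico hu0.ne]; exact ⟨u.2, le_rfl⟩
      have h6 := ContinuousWithinAt.closure_le h5 h4 continuousWithinAt_const
        (g := fun _ => 0) fun v hv => sub_nonpos.2 (h1 v hv)
      have h7 := (hG u huI).1
      simp only [sub_self, mul_zero, sub_zero] at h6
      nlinarith
    exact trace_unb (h.hyd t).bdd
      (hb.subset ((h.hyd t).preconn.subset_connectedComponentIn hzD subset_rfl))
  · intro hb
    have hzD : z ∈ HH \ hull η t := by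
      by_contra hn
      rw [connectedComponentIn_eq_empty hn] at hb
      exact hb Bornology.isBounded_empty
    exact ⟨_, by simp [hg0 _ hz], hOde η h t z hzD⟩

end Pool.Agent.P.MP_6c8efb_pr.SLE.L
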