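import Pool.Agent.P.MP_6c8efb_pr.SLE.LIface

/-!
Block L of the SLE project: the driving function determines the curve.
-/

namespace Pool.Agent.P.MP_6c8efb_pr.SLE.L

open Set Filter Topology Metric Complex
open scoped NNReal ComplexConjugate

theorem un0_open {γ : ℝ≥0 → ℂ} (hc : Continuous γ) (u : ℝ≥0) : IsOpen (HH \ γ '' Iic u) :=
  isOpen_HH.sdiff ((isCompact_Iic' u).image hc).isClosed

/-- The set of points that are alive at time `u`. -/
def un0_A (W : ℝ≥0 → ℝ) (u : ℝ≥0) : Set ℂ := {z | z ∈ HH ∧ Alive W u z}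

theorem un0_mem {γ : ℝ≥0 → ℂ} {W : ℝ≥0 → ℝ} (h : IsTrace γ W) {u : ℝ≥0} {z : ℂ}
    (hz : z ∈ un0_A W u) : z ∈ HH \ γ '' Iic u := by
  by_contra hn
  have := (h.2.2 u z hz.1).1 hz.2
  rw [connectedComponentIn_eq_empty hn] at this
  exact this Bornology.isBounded_empty

theorem un0_comp {γ : ℝ≥0 → ℂ} {W : ℝ≥0 → ℝ} (h : IsTrace γ W) {u : ℝ≥0} {z y : ℂ}
    (hz : z ∈ un0_A W u) (hy : y ∈ connectedComponentIn (HH \ γ '' Iic u) z) :
    y ∈ un0_A W u := by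
  have h1 := (connectedComponentIn_subset _ _ hy).1
  refine ⟨h1, (h.2.2 u y h1).2 ?_⟩
  rw [← connectedComponentIn_eq hy]
  exact (h.2.2 u z hz.1).1 hz.2

theorem un0_isOpen {γ : ℝ≥0 → ℂ} {W : ℝ≥0 → ℝ} (hc : Continuous γ) (h : IsTrace γ W) (u : ℝ≥0) :
    IsOpen (un0_A W u) := by
  rw [isOpen_iff_mem_nhds]
  intro z hz
  exact mem_of_superset ((un0_open hc u).connectedComponentIn.mem_nhds
    (mem_connectedComponentIn (un0_mem h hz))) fun y hy => un0_comp h hz hy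

theorem un0_on {γ : ℝ≥0 → ℂ} {W : ℝ≥0 → ℝ} (hc : Continuous γ) (h : IsTrace γ W) {t u : ℝ≥0}
    {z : ℂ} (h1 : z ∈ un0_A W t) (h2 : z ∈ closure (un0_A W u)) (h3 : z ∉ un0_A W u) :
    ∃ v ∈ Icc t u, γ v = z := by
  have h4 := un0_mem h h1
  by_cases h5 : z ∈ γ '' Iic u
  · obtain ⟨v, hv, e⟩ := h5
    exact ⟨v, ⟨le_of_not_ge fun hvt => h4.2 ⟨v, hvt, e⟩, hv⟩, e⟩
  · have h6 : z ∈ HH \ γ '' Iic u := ⟨h1.1, h5⟩
    obtain ⟨y, hy, hyA⟩ := mem_closure_iff.1 h2 _ (un0_open hc u).connectedComponentIn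
      (mem_connectedComponentIn h6)
    refine absurd (un0_comp h hyA ?_) h3
    rw [← connectedComponentIn_eq hy]
    exact mem_connectedComponentIn h6

theorem un0_pt {γ : ℝ≥0 → ℂ} {W : ℝ≥0 → ℝ} (hc : Continuous γ) (h : IsTrace γ W) {t u : ℝ≥0}
    {z₀ : ℂ} (h1 : z₀ ∈ un0_A W t) (h2 : z₀ ∉ un0_A W u) :
    ∃ z ∈ un0_A W t, z ∈ closure (un0_A W u) ∧ z ∉ un0_A W u := by
  by_contra hn
  push Not at hn
  obtain ⟨R, hR, hb⟩ := exists_bound hc u
  have hC := (h.2.2 t z₀ h1.1).1 h1.2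
  obtain ⟨y, hy, hyR⟩ : ∃ y ∈ connectedComponentIn (HH \ γ '' Iic t) z₀, R < ‖y‖ := by
    by_contra hm
    push Not at hm
    exact hC ((isBounded_closedBall (x := (0 : ℂ)) (r := R)).subset fun y hy => by
      simpa using hm y hy)
  have hyH := (connectedComponentIn_subset _ _ hy).1
  have hE : {w ∈ HH | R < ‖w - (0 : ℝ)‖} ⊆ HH \ γ '' Iic u := fun w hw => ⟨hw.1, by
    rintro ⟨v, hv, rfl⟩
    have := hw.2
    simp only [ofReal_zero, sub_zero] at this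
    linarith [hb v hv]⟩
  have hyA : y ∈ un0_A W u := by
    refine ⟨hyH, (h.2.2 u y hyH).2 fun hB => ?_⟩
    have h3 := hB.subset ((preconn_ext 0 R).subset_connectedComponentIn
      (x := y) ⟨hyH, by simpa using hyR⟩ hE)
    obtain ⟨M, hM, hs⟩ := h3.subset_closedBall_lt 0 0
    have e : ‖((R + M + 1 : ℝ) : ℂ) * I‖ = R + M + 1 := by
      rw [norm_mul, norm_I, mul_one, norm_real, Real.norm_eq_abs, abs_of_pos (by linarith)]
    have h4 := hs (a := ((R + M + 1 : ℝ) : ℂ) * I) ⟨by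
      simp only [mem_HH, mul_im, ofReal_re, I_im, ofReal_im, I_re]; linarith, by
      rw [ofReal_zero, sub_zero, e]; linarith⟩
    rw [mem_closedBall, dist_zero_right, e] at h4
    linarith
  exact h2 (isPreconnected_connectedComponentIn.subset_of_closure_inter_subset
    (un0_isOpen hc h u) ⟨y, hy, hyA⟩ (fun z hz => hn z (un0_comp h h1 hz.2) hz.1)
    (mem_connectedComponentIn (un0_mem h h1)))

theorem s_Un0 : S_Un0 := by
  intro γ γ' W hc hc' h h' hne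
  funext t
  refine eq_of_sub_eq_zero (norm_le_zero_iff.1 (le_of_forall_pos_le_add fun ε hε => ?_))
  obtain ⟨δ, hδ, h1⟩ := Metric.continuousAt_iff.1 (hc.continuousAt (x := t)) _ (half_pos hε)
  obtain ⟨δ', hδ', h1'⟩ := Metric.continuousAt_iff.1 (hc'.continuousAt (x := t)) _ (half_pos hε)
  have hd : 0 < min δ δ' / 2 := by positivity
  have hlt : t < t + ⟨min δ δ' / 2, hd.le⟩ := lt_add_of_pos_right _ hd
  obtain ⟨z₀, hz₀, hA, hB⟩ := hne t _ hlt
  obtain ⟨z, a1, a2, a3⟩ := un0_pt hc h (u := t + ⟨min δ δ' / 2, hd.le⟩) ⟨hz₀, hA⟩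
    fun hh => hB hh.2
  obtain ⟨v, hv, e⟩ := un0_on hc h a1 a2 a3
  obtain ⟨v', hv', e'⟩ := un0_on hc' h' a1 a2 a3
  have hdist : ∀ x ∈ Icc t (t + ⟨min δ δ' / 2, hd.le⟩), dist x t < min δ δ' := fun x hx => by
    have b1 : (t : ℝ) ≤ x := hx.1
    have b2 : (x : ℝ) ≤ t + min δ δ' / 2 := hx.2
    rw [NNReal.dist_eq, abs_of_nonneg (by linarith)]
    linarith
  have c1 := h1 ((hdist v hv).trans_le (min_le_left _ _))
  have c2 := h1' ((hdist v' hv').trans_le (min_le_right _ _))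
  rw [e] at c1
  rw [e'] at c2
  have := dist_triangle_left (γ t) (γ' t) z
  rw [← dist_eq_norm]
  linarith

end Pool.Agent.P.MP_6c8efb_pr.SLE.L
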