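import Pool.Agent.P.MP_6c8efb_pr.SLE.LIface

/-!
Wolff lemma for the mapping-out function and for its inverse.
-/

namespace Pool.Agent.P.MP_6c8efb_pr.SLE.L

open Set Filter Topology Metric Complex MeasureTheory
open scoped NNReal ComplexConjugate

theorem wg_ray (hProp : S_Prop) {K : Set ℂ} {g f : ℂ → ℂ} {a : ℝ} (h : Hyd K g f a) {z₀ z v : ℂ}
    {s : ℝ} (hz : z ∈ HH \ K) (hs : ‖z - z₀‖ ≤ s) (hv : ‖v‖ = 1) (hv' : 0 ≤ v.im) :
    ∃ y : ℝ, g z + y * v ∈ g '' ((HH \ K) ∩ sphere z₀ s) := by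
  have hm : ∀ y ∈ Ici (0 : ℝ), g z + y * v ∈ HH := fun y hy => by
    have h1 : 0 < (g z).im := h.mg hz
    have h2 := mul_nonneg (mem_Ici.1 hy) hv'
    simp only [mem_HH, add_im, im_ofReal_mul]
    linarith
  have hc : ContinuousOn (fun y : ℝ => ‖f (g z + y * v) - z₀‖) (Ici 0) :=
    ((h.df.continuousOn.comp (by fun_prop) hm).sub continuousOn_const).norm
  obtain ⟨M, hM⟩ := (hProp K g f a h).2.2.1 (s + ‖z₀‖)
  have hy : |M| + ‖g z‖ ∈ Ici (0 : ℝ) := mem_Ici.2 (by positivity)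
  have h1 : M ≤ ‖g z + (|M| + ‖g z‖ : ℝ) * v‖ := by
    have h2 := norm_sub_le (g z + (|M| + ‖g z‖ : ℝ) * v) (g z)
    rw [add_sub_cancel_left, norm_mul, hv, norm_real, Real.norm_of_nonneg hy] at h2
    linarith [le_abs_self M]
  have h2 := hM _ (hm _ hy) h1
  have h3 := norm_sub_norm_le (f (g z + (|M| + ‖g z‖ : ℝ) * v)) z₀
  obtain ⟨y, hy0, he⟩ := isPreconnected_Ici.intermediate_value (mem_Ici.2 le_rfl) hy hc
    (show s ∈ Icc _ _ from ⟨by simpa [h.fg z hz] using hs, by linarith⟩)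
  exact ⟨y, f (g z + y * v), ⟨h.mf (hm y hy0), by simpa [dist_eq_norm] using he⟩,
    h.gf _ (hm y hy0)⟩

theorem wg_int {Z : Set ℂ} (hZ : IsPreconnected Z) {φ : ℂ → ℝ} (hφ : ContinuousOn φ Z)
    {A : Set ℝ} (hA : ∀ z ∈ Z, φ z ∈ A) {l : ℝ} (hl : 0 ≤ l) (hv : volume A ≤ ENNReal.ofReal l)
    {z z' : ℂ} (hz : z ∈ Z) (hz' : z' ∈ Z) : |φ z - φ z'| ≤ l := by
  have key : ∀ z ∈ Z, ∀ z' ∈ Z, φ z' - φ z ≤ l := fun z hz z' hz' => by
    have h1 : Icc (φ z) (φ z') ⊆ A := (hZ.intermediate_value hz hz' hφ).trans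
      (image_subset_iff.2 hA)
    have h2 := (measure_mono h1).trans hv
    rwa [Real.volume_Icc, ENNReal.ofReal_le_ofReal_iff hl] at h2
  exact abs_sub_le_iff.2 ⟨key z' hz' z hz, key z hz z' hz'⟩

theorem wg_one (hProp : S_Prop) (hL1 : S_L1) (hLa : S_La) (hCl : S_Cl) {K : Set ℂ} {g f : ℂ → ℂ}
    {a : ℝ} (h : Hyd K g f a) {R ρ : ℝ} {z₀ : ℂ} (hK : K ⊆ closedBall 0 R) (h0 : ‖z₀‖ ≤ R)
    (hρ : 0 < ρ) (hR : ρ < R) {Z : Set ℂ} (hD : Z ⊆ HH \ K) (hB : Z ⊆ closedBall z₀ ρ)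
    (hZ : IsPreconnected Z) {z z' : ℂ} (hz : z ∈ Z) (hz' : z' ∈ Z) : ‖g z - g z'‖ ≤ om R ρ := by
  have hR0 : 0 < R := hρ.trans hR
  have hb : ∀ z ∈ HH \ K, ‖z - z₀‖ < R → ‖g z‖ ≤ 14 * R := fun z hz hd => by
    have h1 := ((hL1 K g f a h).1 0 R hR0 (by simpa using hK)).2.2.2 z hz
    have h2 := norm_add_le (g z - z) z
    have h3 := norm_add_le (z - z₀) z₀
    rw [sub_add_cancel] at h2 h3
    linarith
  obtain ⟨s, hs, hl, -⟩ := hLa g g _ _ z₀ ρ R (14 * R) h.opn h.opn h.dg h.dg h.injOn_g h.injOn_g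
    hρ hR (by positivity) hb hb
  obtain ⟨h1, h2, -⟩ := hCl g _ z₀ s h.opn h.dg (hρ.trans hs.1)
  have hd : ∀ z ∈ Z, ‖z - z₀‖ ≤ s := fun z hz => by
    have := hB hz
    rw [mem_closedBall, dist_eq_norm] at this
    exact this.trans hs.1.le
  have hc : ContinuousOn g Z := h.dg.continuousOn.mono hD
  have e1 := wg_int hZ (continuous_re.comp_continuousOn hc) (fun z hz => by
    obtain ⟨y, hy⟩ := wg_ray hProp h (v := I) (hD hz) (hd z hz) (by simp) (by simp)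
    exact ⟨_, hy, by simp⟩) (by positivity) (h1.trans hl) hz hz'
  have e2 := wg_int hZ (continuous_im.comp_continuousOn hc) (fun z hz => by
    obtain ⟨y, hy⟩ := wg_ray hProp h (v := 1) (hD hz) (hd z hz) (by simp) (by simp)
    exact ⟨_, hy, by simp⟩) (by positivity) (h2.trans hl) hz hz'
  have e3 := norm_le_abs_re_add_abs_im (g z - g z')
  simp only [Function.comp_apply, sub_re, sub_im] at e1 e2 e3
  have e4 : 0 ≤ R / √(Real.log (R / ρ)) := by positivity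
  rw [mul_div_assoc, mul_div_assoc] at e1 e2
  rw [om, mul_div_assoc]
  linarith

theorem s_Wg (hProp : S_Prop) (hL1 : S_L1) (hLa : S_La) (hCl : S_Cl) : S_Wg := by
  intro K g f a h R ρ z₀ hK h0 hρ hR
  refine ⟨fun Z hD hB hZ z hz z' hz' => wg_one hProp hL1 hLa hCl h hK h0 hρ hR hD hB hZ hz hz',
    fun z hz hzb ⟨b, hb, hbD⟩ => ?_⟩
  set γ : ℝ → ℂ := fun τ => z + τ * (b - z) with hγ
  have hγc : Continuous γ := by fun_prop
  set A : Set ℝ := Icc 0 1 ∩ γ ⁻¹' (HH \ K)ᶜ with hA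
  have hAc : IsClosed A := isClosed_Icc.inter (h.opn.isClosed_compl.preimage hγc)
  have h1 : (1 : ℝ) ∈ A := ⟨⟨zero_le_one, le_rfl⟩, by simpa [hγ] using hbD⟩
  have hbd : BddBelow A := ⟨0, fun τ hτ => hτ.1.1⟩
  have hm := hAc.csInf_mem ⟨1, h1⟩ hbd
  set τ₀ := sInf A with hτ₀
  have hpos : 0 < τ₀ := lt_of_le_of_ne hm.1.1 fun e => hm.2 (by simpa [hγ, ← e] using hz)
  have hD : γ '' Ico 0 τ₀ ⊆ HH \ K := by
    rintro _ ⟨τ, hτ, rfl⟩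
    by_contra hc
    exact absurd (csInf_le hbd ⟨⟨hτ.1, hτ.2.le.trans hm.1.2⟩, hc⟩) (not_le.2 hτ.2)
  have hB : γ '' Ico 0 τ₀ ⊆ closedBall z₀ ρ := by
    rintro _ ⟨τ, hτ, rfl⟩
    exact (convex_closedBall z₀ ρ).add_smul_sub_mem hzb hb ⟨hτ.1, hτ.2.le.trans hm.1.2⟩
  refine le_of_forall_pos_le_add fun ε hε => ?_
  obtain ⟨δ, hδ, H⟩ := (hProp K g f a h).1 ε (‖z₀‖ + ρ) hε
  have hev : ∀ᶠ τ in 𝓝[<] τ₀, γ τ ∈ ball (γ τ₀) δ :=
    mem_nhdsWithin_of_mem_nhds (hγc.continuousAt.preimage_mem_nhds (ball_mem_nhds _ hδ))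
  obtain ⟨τ, hτ, hτ'⟩ := (hev.and (Ico_mem_nhdsLT hpos)).exists
  have hz' : γ τ ∈ γ '' Ico 0 τ₀ := ⟨τ, hτ', rfl⟩
  have e1 := wg_one hProp hL1 hLa hCl h hK h0 hρ hR hD hB
    (isPreconnected_Ico.image _ hγc.continuousOn) (z := z) ⟨0, ⟨le_rfl, hpos⟩, by simp [hγ]⟩ hz'
  have e2 := H (γ τ) (hD hz') (by
    have h2 := hB hz'
    have h3 := norm_add_le (γ τ - z₀) z₀
    rw [mem_closedBall, dist_eq_norm] at h2
    rw [sub_add_cancel] at h3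
    linarith) (γ τ₀) hm.2 (by rw [mem_ball, dist_eq_norm] at hτ; exact hτ.le)
  have e3 := (le_abs_self _).trans (abs_im_le_norm (g z - g (γ τ)))
  rw [sub_im] at e3
  linarith

theorem wg_arc (hCl : S_Cl) {f : ℂ → ℂ} (hf : DifferentiableOn ℂ f HH) {x s l : ℝ} (hs : 0 < s)
    (hl : 0 ≤ l) (h : clen f HH x s ≤ ENNReal.ofReal l) {w w' : ℂ} (hw : w ∈ HH) (hw' : w' ∈ HH)
    (e : ‖w - x‖ = s) (e' : ‖w' - x‖ = s) : ‖f w - f w'‖ ≤ l := by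
  have par : ∀ w ∈ HH, ‖w - x‖ = s → ∃ θ ∈ Ioo 0 Real.pi, w = x + s * cexp (θ * I) := by
    intro w hw e
    have h0 : 0 < (w - x).im := by simpa [mem_HH] using hw
    refine ⟨arg (w - x), ⟨?_, ?_⟩, ?_⟩
    · exact lt_of_le_of_ne (arg_nonneg_iff.2 h0.le) fun h => h0.ne' (arg_eq_zero_iff.1 h.symm).2
    · exact lt_of_le_of_ne (arg_le_pi _) fun h => h0.ne' (arg_eq_pi_iff.1 h).2
    · rw [← e, norm_mul_exp_arg_mul_I]; ring
  have key : ∀ α ∈ Ioo 0 Real.pi, ∀ β ∈ Ioo 0 Real.pi, α ≤ β →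
      ‖f (x + s * cexp (β * I)) - f (x + s * cexp (α * I))‖ ≤ l := fun α hα β hβ hab => by
    have := (hCl f HH x s isOpen_HH hf hs).2.2 α β (by linarith [hα.1, Real.pi_pos]) hab hβ.2
      fun θ hθ => by
        simp only [mem_HH, add_im, ofReal_im, im_ofReal_mul, exp_ofReal_mul_I_im, zero_add]
        exact mul_pos hs (Real.sin_pos_of_pos_of_lt_pi (hα.1.trans_le hθ.1) (hθ.2.trans_lt hβ.2))
    exact (ENNReal.ofReal_le_ofReal_iff hl).1 (this.trans h)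
  obtain ⟨α, hα, rfl⟩ := par w hw e
  obtain ⟨β, hβ, rfl⟩ := par w' hw' e'
  rcases le_total α β with hab | hab
  · rw [norm_sub_rev]; exact key α hα β hβ hab
  · exact key β hβ α hα hab

theorem s_Wf (hL1 : S_L1) (hLa : S_La) (hCl : S_Cl) : S_Wf := by
  intro K₁ g₁ f₁ a₁ K₂ g₂ f₂ a₂ h₁ h₂ R x s₀ s₁ hK₁ hK₂ hR h0 h1
  have hb : ∀ {K g f a}, Hyd K g f a → K ⊆ closedBall 0 R → ∀ w ∈ HH, ‖w - x‖ < s₁ →
      ‖f w‖ ≤ |x| + s₁ + 12 * R := fun {K g f a} h hK w hw hd => by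
    have e1 := ((hL1 K g f a h).1 0 R hR (by simpa using hK)).2.2.2 _ (h.mf hw)
    have e2 := norm_sub_le w (w - f w)
    have e3 := norm_add_le (w - x) x
    rw [h.gf w hw] at e1
    rw [sub_sub_cancel] at e2
    rw [sub_add_cancel, norm_real, Real.norm_eq_abs] at e3
    linarith
  have hs1 : 0 < s₁ := h0.trans h1
  obtain ⟨s, hs, e1, e2⟩ := hLa f₁ f₂ HH HH x s₀ s₁ (|x| + s₁ + 12 * R) isOpen_HH isOpen_HH
    h₁.df h₂.df h₁.injOn_f h₂.injOn_f h0 h1 (by positivity) (hb h₁ hK₁) (hb h₂ hK₂)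
  exact ⟨s, hs, fun w hw w' hw' e e' =>
    ⟨wg_arc hCl h₁.df (h0.trans hs.1) (by positivity) e1 hw hw' e e',
      wg_arc hCl h₂.df (h0.trans hs.1) (by positivity) e2 hw hw' e e'⟩⟩

end Pool.Agent.P.MP_6c8efb_pr.SLE.L
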