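import Pool.Agent.P.MP_6c8efb_pr.SLE.LJou
import Pool.Agent.P.MP_6c8efb_pr.SLE.LLa
import Pool.Agent.P.MP_6c8efb_pr.SLE.LClosed
import Pool.Agent.P.MP_6c8efb_pr.SLE.LL1s
import Pool.Agent.P.MP_6c8efb_pr.SLE.LRefl
import Pool.Agent.P.MP_6c8efb_pr.SLE.LMont
import Pool.Agent.P.MP_6c8efb_pr.SLE.LRmt
import Pool.Agent.P.MP_6c8efb_pr.SLE.LRm
import Pool.Agent.P.MP_6c8efb_pr.SLE.LSlit
import Pool.Agent.P.MP_6c8efb_pr.SLE.LCone
import Pool.Agent.P.MP_6c8efb_pr.SLE.LPolyL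
import Pool.Agent.P.MP_6c8efb_pr.SLE.LDsy
import Pool.Agent.P.MP_6c8efb_pr.SLE.LProp
import Pool.Agent.P.MP_6c8efb_pr.SLE.LLip
import Pool.Agent.P.MP_6c8efb_pr.SLE.LL1
import Pool.Agent.P.MP_6c8efb_pr.SLE.LComp
import Pool.Agent.P.MP_6c8efb_pr.SLE.LCl
import Pool.Agent.P.MP_6c8efb_pr.SLE.LWg
import Pool.Agent.P.MP_6c8efb_pr.SLE.LTip
import Pool.Agent.P.MP_6c8efb_pr.SLE.LStep
import Pool.Agent.P.MP_6c8efb_pr.SLE.LCont
import Pool.Agent.P.MP_6c8efb_pr.SLE.LHgt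
import Pool.Agent.P.MP_6c8efb_pr.SLE.LClock
import Pool.Agent.P.MP_6c8efb_pr.SLE.LOde
import Pool.Agent.P.MP_6c8efb_pr.SLE.LFlow
import Pool.Agent.P.MP_6c8efb_pr.SLE.LFwd
import Pool.Agent.P.MP_6c8efb_pr.SLE.LBwd
import Pool.Agent.P.MP_6c8efb_pr.SLE.LTrace
import Pool.Agent.P.MP_6c8efb_pr.SLE.LNe
import Pool.Agent.P.MP_6c8efb_pr.SLE.LUn0
import Pool.Agent.P.MP_6c8efb_pr.SLE.LExist

/-!
Block L of the SLE project: all the statements hold.
-/

namespace Pool.Agent.P.MP_6c8efb_pr.SLE.L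

theorem all_Htpy : S_Htpy := s_Htpy
theorem all_Slit : S_Slit := s_Slit all_Htpy
theorem all_Cone : S_Cone := s_Cone
theorem all_Rad : S_Rad := s_Rad
theorem all_PolyL : S_PolyL := s_PolyL all_Slit all_Cone
theorem all_Mont : S_Mont := s_Mont
theorem all_Hurw : S_Hurw := s_Hurw
theorem all_Rm1 : S_Rm1 := s_Rm1
theorem all_Rm2 : S_Rm2 := s_Rm2
theorem all_Rmt : S_Rmt := s_Rmt all_Mont all_Hurw all_Rm1 all_Rm2
theorem all_Dsy : S_Dsy := s_Dsy
theorem all_Jou : S_Jou := s_Jou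
theorem all_Maxp : S_Maxp := s_Maxp
theorem all_Prop : S_Prop := s_Prop all_Maxp
theorem all_Mor : S_Mor := s_Mor
theorem all_Lip : S_Lip := s_Lip all_Maxp all_Prop
theorem all_Refl : S_Refl := s_Refl all_Mor all_Lip
theorem all_L1s : S_L1s := s_L1s all_Prop
theorem all_L2s : S_L2s := s_L2s all_Prop all_L1s
theorem all_L1 : S_L1 := s_L1 all_Refl all_L1s all_L2s
theorem all_Comp : S_Comp := s_Comp all_Prop
theorem all_La : S_La := s_La
theorem all_Cl : S_Cl := s_Cl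
theorem all_Wg : S_Wg := s_Wg all_Prop all_L1 all_La all_Cl
theorem all_Wf : S_Wf := s_Wf all_L1 all_La all_Cl
theorem all_Tip : S_Tip := s_Tip all_Wg
theorem all_Tipf : S_Tipf := s_Tipf all_Prop all_Wf all_Tip
theorem all_Step : S_Step := s_Step all_L1 all_Comp all_Tip
theorem all_Cont : S_Cont := s_Cont all_L1 all_Tip all_Step
theorem all_Hgt : S_Hgt := s_Hgt all_Tip all_Step all_Cont
theorem all_Clock : S_Clock := s_Clock all_Tip all_Cont all_Hgt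
theorem all_Ode : S_Ode := s_Ode all_Tip all_Step all_Cont
theorem all_Flow : S_Flow := s_Flow
theorem all_Fwd : S_Fwd := s_Fwd all_Flow
theorem all_Bwd : S_Bwd := s_Bwd all_Flow
theorem all_Trace : S_Trace := s_Trace all_Prop all_Cont all_Hgt all_Ode all_Fwd
theorem all_Closed : S_Closed := s_Closed all_L1 all_Cont all_Ode all_Fwd all_Bwd all_Trace
theorem all_Ne : S_Ne := s_Ne all_L1 all_Step all_Cont all_Ode all_Bwd all_Closed
theorem all_Un0 : S_Un0 := s_Un0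
theorem all_Exist : S_Exist := s_Exist all_PolyL all_Rmt all_Dsy all_Jou all_Refl
theorem all_Uniq : S_Uniq := s_Uniq all_Closed all_Ne all_Un0

end Pool.Agent.P.MP_6c8efb_pr.SLE.L
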