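import Pool.Agent.P.MP_6c8efb_pr.SLE.QIdx
import Pool.Agent.P.MP_56bcbf_an.Koebe

/-! Approximation of a conformal disc by a polyomino with convex corners at the marks. -/

open Complex Set Metric Filter Topology
open scoped Real

namespace Pool.Agent.P.MP_6c8efb_pr.SLE

/-- the six steps replacing a step in the direction `d` -/
def sdir (d : Fin 4) : Fin 6 → Fin 4 := ![d, d + 3, d, d + 1, d, d]

/-- their starting points -/
def off (d : Fin 4) : Fin 6 → V :=
  ![0, u d, u d + u (d + 3), u d + u d + u (d + 3), u d + u d, u d + u d + u d]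

theorem off_step : ∀ (d : Fin 4) (r : Fin 6), off d r + u (sdir d r) =
    if r = 5 then u d + u d + u d + u d else off d (r + 1) := by decide

theorem off_inj : ∀ (d e : Fin 4) (r s : Fin 6), ((off d r).1 - (off e s).1) % 4 = 0 →
    ((off d r).2 - (off e s).2) % 4 = 0 → r = s ∧ off d r = off e s ∨
      e = d + 2 ∧ off d r - off e s = u d + u d + u d + u d := by decide

theorem off_le : ∀ (d : Fin 4) (r : Fin 6), |(off d r).1| + |(off d r).2| ≤ 3 := by decide

theorem refine_walk {n : ℕ} {c : ℕ → V} (hn : 3 ≤ n) (hs : ∀ i < n, ∃ d, c (i + 1) = c i + u d)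
    (hc : c n = c 0) (hi : InjOn c (Iio n)) : ∃ (c' : ℕ → V) (dir : ℕ → Fin 4),
      (∀ k, c' (k + 1) = c' k + u (dir k)) ∧ (∀ k, dir (k + 6 * n) = dir k) ∧ c' (6 * n) = c' 0 ∧
      InjOn c' (Iio (6 * n)) ∧ (∀ i, dir (6 * i + 6 * n) = dir (6 * i + 6 * n - 1) + 1) ∧
      ∀ k ≤ 6 * n, ‖cx (c' k) - 4 * cx (c ((k + 2) / 6))‖ ≤ 3 := by
  choose! d hd using hs
  have hm : ∀ j, j % n < n := fun j => Nat.mod_lt _ (by omega)
  have hC : ∀ j, c ((j + 1) % n) = c (j % n) + u (d (j % n)) := fun j => by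
    rw [← hd _ (hm j), ← Nat.mod_add_mod]
    rcases (Nat.succ_le_of_lt (hm j)).eq_or_lt with e | e
    · rw [show j % n + 1 = n from e, Nat.mod_self, hc]
    · rw [Nat.mod_eq_of_lt e]
  have md : ∀ j ≤ n, j % n = j ∧ j < n ∨ j % n = 0 ∧ j = n := fun j hj => by
    rcases hj.eq_or_lt with rfl | h
    · simp
    · exact Or.inl ⟨Nat.mod_eq_of_lt h, h⟩
  have e1 : ∀ k, (k + 6 * n + 2) / 6 % n = (k + 2) / 6 % n := fun k => by
    rw [show (k + 6 * n + 2) / 6 = (k + 2) / 6 + n by omega, Nat.add_mod_right]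
  have e2 : ∀ k, Fin.ofNat 6 (k + 6 * n + 2) = Fin.ofNat 6 (k + 2) := fun k =>
    Fin.ext (by simp only [Fin.val_ofNat]; omega)
  refine ⟨fun k => (4 : ℤ) • c ((k + 2) / 6 % n) + off (d ((k + 2) / 6 % n)) (Fin.ofNat 6 (k + 2)),
    fun k => sdir (d ((k + 2) / 6 % n)) (Fin.ofNat 6 (k + 2)), fun k => ?_,
    fun k => by simp only [e1, e2], (by simpa only [zero_add] using (congrArg₂ (fun j r =>
      (4 : ℤ) • c j + off (d j) r) (e1 0) (e2 0))), fun k hk l hl e => ?_, fun i => ?_, fun k hk => ?_⟩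
  · simp only [add_assoc (_ • _), off_step]
    split_ifs with h
    · have h1 : (k + 2) % 6 = 5 := congrArg Fin.val h
      rw [show (k + 1 + 2) / 6 = (k + 2) / 6 + 1 by omega, hC, show Fin.ofNat 6 (k + 1 + 2) = 0 from
        Fin.ext (by simp only [Fin.val_ofNat, Fin.val_zero]; omega)]
      simp only [off, Matrix.cons_val_zero]
      abel
    · have h1 : (k + 2) % 6 ≠ 5 := fun e => h (Fin.ext e)
      rw [show (k + 1 + 2) / 6 = (k + 2) / 6 by omega, show Fin.ofNat 6 (k + 1 + 2) =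
        Fin.ofNat 6 (k + 2) + 1 from Fin.ext (by
          simp only [Fin.val_ofNat, Fin.val_add, Fin.val_one]; omega)]
  · have h1 := md ((k + 2) / 6) (by simp only [mem_Iio] at hk; omega)
    have h2 := md ((l + 2) / 6) (by simp only [mem_Iio] at hl; omega)
    have h3 := congrArg Prod.fst e
    have h4 := congrArg Prod.snd e
    simp only [Prod.fst_add, Prod.snd_add, Prod.smul_fst, Prod.smul_snd, smul_eq_mul,
      mem_Iio] at h3 h4 hk hl
    rcases off_inj (d ((k + 2) / 6 % n)) (d ((l + 2) / 6 % n)) (Fin.ofNat 6 (k + 2))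
      (Fin.ofNat 6 (l + 2)) (by omega) (by omega) with ⟨h5, h6⟩ | ⟨h5, h6⟩
    · have h7 : (k + 2) % 6 = (l + 2) % 6 := congrArg Fin.val h5
      rw [h6] at h3 h4
      have h8 := hi (hm _) (hm _) (Prod.ext (by omega) (by omega) :
        c ((k + 2) / 6 % n) = c ((l + 2) / 6 % n))
      omega
    · have h7 := congrArg Prod.fst h6
      have h8 := congrArg Prod.snd h6
      simp only [Prod.fst_add, Prod.snd_add, Prod.fst_sub, Prod.snd_sub] at h7 h8
      have h9 : c ((l + 2) / 6 % n) = c ((k + 2) / 6 % n) + u (d ((k + 2) / 6 % n)) :=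
        Prod.ext (by simp only [Prod.fst_add]; omega) (by simp only [Prod.snd_add]; omega)
      have h10 := succ_eq hc hi (hm _) (hm _) ((hd _ (hm _)).trans h9.symm)
      have h11 := succ_eq hc hi (hm _) (hm _) ((hd _ (hm ((l + 2) / 6))).trans
        (by rw [h5, h9, u_back] : _ = c ((k + 2) / 6 % n)))
      omega
  · simp only [e1, e2]
    rw [show (6 * i + 6 * n - 1 + 2) / 6 = (6 * i + 2) / 6 + n by omega, Nat.add_mod_right,
      show Fin.ofNat 6 (6 * i + 2) = 2 from Fin.ext (by simp),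
      show Fin.ofNat 6 (6 * i + 6 * n - 1 + 2) = 1 from Fin.ext (by
        simp only [Fin.val_ofNat, Fin.val_one]; omega)]
    generalize d _ = e
    revert e
    decide
  · have h1 : c ((k + 2) / 6 % n) = c ((k + 2) / 6) := by
      rcases md ((k + 2) / 6) (by omega) with h | h
      · rw [h.1]
      · rw [h.1, h.2, hc]
    refine (norm_le_abs_re_add_abs_im _).trans ?_
    simp only [h1, cx, sub_re, sub_im, mul_re, mul_im, re_ofNat, im_ofNat, Prod.fst_add,
      Prod.snd_add, Prod.smul_fst, Prod.smul_snd, smul_eq_mul]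
    push_cast
    ring_nf
    exact_mod_cast off_le _ _

theorem chord_lt {s t x : ℝ} (h1 : s ≤ t) (h2 : t ≤ s + 2 * π)
    (h : ‖circleMap 0 1 t - circleMap 0 1 s‖ < x) : t - s ≤ 2 * x ∨ 2 * π - 2 * x ≤ t - s := by
  have e : circleMap 0 1 t - circleMap 0 1 s = exp (s * I) * (exp (I * (t - s : ℝ)) - 1) := by
    rw [mul_sub, ← exp_add]
    simp only [circleMap_zero, ofReal_one, one_mul, mul_one]
    congr 2
    push_cast
    ring
  rw [e, norm_mul, norm_exp_ofReal_mul_I, one_mul, norm_exp_I_mul_ofReal_sub_one,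
    Real.norm_eq_abs, abs_lt] at h
  have key : ∀ y : ℝ, 0 ≤ y → y ≤ π / 2 → y / 2 ≤ Real.sin y := fun y a b =>
    le_trans (by
      rw [div_mul_eq_mul_div, div_le_div_iff₀ two_pos Real.pi_pos]
      nlinarith [Real.pi_le_four]) (Real.mul_le_sin a b)
  rcases le_total (t - s) π with h3 | h3
  · exact Or.inl (by linarith [key ((t - s) / 2) (by linarith) (by linarith), h.2])
  · have := key (π - (t - s) / 2) (by linarith) (by linarith)
    rw [Real.sin_pi_sub] at this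
    exact Or.inr (by linarith [h.2])

theorem s_poly : S_POLY := by
  intro φ μ ν a₀ a₁ a₂ a₃ hν hμ hμ1 g1 g2 g3 g4 hφ hinj H
  obtain ⟨ψ, hψ1, hψ2⟩ := MP_56bcbf_an.exists_inverse isOpen_ball hφ hinj
  have hψ : ∀ z ∈ ball (0 : ℂ) (1 + μ), DifferentiableAt ℂ ψ (φ z) ∧ ψ (φ z) = z := fun z hz =>
    ⟨hψ1.differentiableAt ((MP_56bcbf_an.isOpen_image isOpen_ball hφ hinj isOpen_ball
      subset_rfl).mem_nhds (mem_image_of_mem φ hz)), hψ2 z hz⟩
  have H1 : ∀ ζ w : ℂ, ‖ζ‖ ≤ 1 + 10 * ν → ‖w - φ ζ‖ < 10 → ∃ z, ‖z - ζ‖ < ν ∧ φ z = w :=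
    fun ζ w h1 h2 => by
      simpa only [mem_image, mem_ball_iff_norm] using
        H ζ (mem_ball_zero_iff.2 (by linarith)) (mem_ball_iff_norm.2 h2)
  have H3 : ∀ (t : ℝ) (w : ℂ), ‖w - φ (circleMap 0 1 t)‖ ≤ 20 →
      ‖ψ w - circleMap 0 1 t‖ < 3 * ν ∧ φ (ψ w) = w := fun t w h => by
    have h0 : ‖circleMap 0 1 t‖ = 1 := by simp
    set ζ := circleMap 0 1 t
    have k : ‖(w - φ ζ) / 3‖ < 10 := by rw [norm_div, norm_ofNat]; linarith
    obtain ⟨z1, k1, k2⟩ := H1 ζ (φ ζ + (w - φ ζ) / 3) (by linarith) (by simpa using k)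
    have k3 := norm_le_norm_add_norm_sub' z1 ζ
    obtain ⟨z2, k4, k5⟩ := H1 z1 (φ z1 + (w - φ ζ) / 3) (by linarith) (by simpa using k)
    have k6 := norm_le_norm_add_norm_sub' z2 z1
    obtain ⟨z3, k7, k8⟩ := H1 z2 w (by linarith) (by rw [k5, k2]; convert k using 2; ring)
    have k9 := norm_le_norm_add_norm_sub' z3 z2
    rw [← k8, (hψ z3 (mem_ball_zero_iff.2 (by linarith))).2]
    exact ⟨by linarith [norm_sub_le_norm_sub_add_norm_sub z3 z2 ζ,
      norm_sub_le_norm_sub_add_norm_sub z2 z1 ζ], rfl⟩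
  have hb : ∀ t, circleMap 0 1 t ∈ ball (0 : ℂ) (1 + μ) := fun t =>
    mem_ball_zero_iff.2 (by simp; linarith)
  have hπ := Real.pi_gt_three
  obtain ⟨n, c, a, F, hs, hi, hg⟩ := exists_walk (γ := fun t => φ (circleMap 0 1 (a₀ + t)) / 4)
    (T := 2 * π) (θ := 6 * ν) (by linarith) (by linarith)
    ((hφ.continuousOn.comp_continuous (by fun_prop) fun t => hb _).div_const _)
    (fun t => by simp only [← add_assoc, periodic_circleMap 0 1 (a₀ + t)]) fun s t h1 h2 h => by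
      rw [← sub_div, norm_div, norm_ofNat] at h
      have h3 := (H3 _ _ (by linarith : ‖φ (circleMap 0 1 (a₀ + t)) - _‖ ≤ 20)).1
      rw [(hψ _ (hb _)).2] at h3
      rcases chord_lt (by linarith) (by linarith) h3 with h4 | h4
      · exact Or.inl (by linarith)
      · exact Or.inr (by linarith)
  have hn0 : n ≠ 0 := fun e => by have := F.per; rw [e] at this; linarith
  have hl := hg (n - 1) (by omega)
  have hl' := F.le (n - 1) (by omega)
  rw [show n - 1 + 1 = n by omega, F.per] at hl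
  have ha0 := F.a0
  have mark : ∀ x : ℝ, 6 * ν < x → x ≤ 2 * π - 6 * ν → ∃ i, 0 < i ∧ i < n ∧ x ≤ a i ∧
      a i ≤ x + 6 * ν := fun x h1 h2 => by
    classical
    have ex : ∃ i, x ≤ a i := ⟨n - 1, by linarith⟩
    have h3 : Nat.find ex ≤ n - 1 := Nat.find_min' ex (by linarith)
    have h4 : Nat.find ex ≠ 0 := fun e => by have := Nat.find_spec ex; rw [e] at this; linarith
    have h5 := hg (Nat.find ex - 1) (by omega)
    rw [show Nat.find ex - 1 + 1 = Nat.find ex by omega] at h5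
    exact ⟨_, by omega, by omega, Nat.find_spec ex,
      by linarith [not_le.1 (Nat.find_min ex (show Nat.find ex - 1 < _ by omega))]⟩
  obtain ⟨i₁, p1, q1, r1, s1⟩ := mark (a₁ - a₀) (by linarith) (by linarith)
  obtain ⟨i₂, -, q2, r2, s2⟩ := mark (a₂ - a₀) (by linarith) (by linarith)
  obtain ⟨i₃, -, q3, r3, s3⟩ := mark (a₃ - a₀) (by linarith) (by linarith)
  have l1 : i₁ < i₂ := not_le.1 fun h => by linarith [F.le_of_le h q1.le]
  have l2 : i₂ < i₃ := not_le.1 fun h => by linarith [F.le_of_le h q2.le]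
  obtain ⟨c', dir, w1, w2, w3, w4, w5, w6⟩ :=
    refine_walk (by omega) hs F.cl fun i h j h' e => hi i h j h' e
  have hseg : ∀ k < 6 * n, ∀ v ∈ segment ℝ (cx (c' k)) (cx (c' (k + 1))),
      ‖ψ v - circleMap 0 1 (a₀ + a ((k + 2) / 6))‖ ≤ 3 * ν ∧ φ (ψ v) = v := fun k hk v hv => by
    have h1 : ‖v - cx (c' k)‖ ≤ 1 := (norm_sub_le_of_mem_segment hv).trans (norm_zc_le (by
      rw [w1]
      generalize dir k = d
      rcases cases4 d with rfl | rfl | rfl | rfl <;> simp))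
    have h2 : ‖cx (c ((k + 2) / 6)) - φ (circleMap 0 1 (a₀ + a ((k + 2) / 6))) / 4‖ ≤ 2 :=
      F.near _ (by omega)
    refine (H3 _ v ?_).imp le_of_lt id
    calc _ = ‖v - cx (c' k) + (cx (c' k) - 4 * cx (c ((k + 2) / 6))) +
          4 * (cx (c ((k + 2) / 6)) - φ (circleMap 0 1 (a₀ + a ((k + 2) / 6))) / 4)‖ := by
          congr 1; ring
      _ ≤ 1 + 3 + 4 * 2 := norm_add_le_of_le (norm_add_le_of_le h1 (w6 k hk.le))
          (by rw [norm_mul, norm_ofNat]; linarith)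
      _ ≤ _ := by norm_num
  have hs' : ∀ i < 6 * n, ∃ d, c' (i + 1) = c' i + u d := fun i _ => ⟨_, w1 i⟩
  have h2π : (2 * π * I : ℂ) ≠ 0 := two_pi_I_ne_zero
  have ctr : ∀ (y : V) (w : ℂ), w ∈ sq 1 y → ‖w - ⟨y.1 + 1 / 2, y.2 + 1 / 2⟩‖ < 10 := fun y w hw => by
    obtain ⟨k1, k2, k3, k4⟩ := mem_sq1.1 hw
    refine (norm_le_abs_re_add_abs_im _).trans_lt ?_
    simp only [sub_re, sub_im]
    linarith [show |w.re - (y.1 + 1 / 2)| ≤ 1 from abs_le.2 ⟨by linarith, by linarith⟩,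
      show |w.im - (y.2 + 1 / 2)| ≤ 1 from abs_le.2 ⟨by linarith, by linarith⟩]
  have hin : ∀ z : ℂ, ‖z‖ < 1 - 20 * ν → ∃ y, idx c' (6 * n) y = 1 ∧ φ z ∈ sq 1 y := fun z hz => by
    have h1 : φ z ∈ sq 1 (⌊(φ z).re⌋, ⌊(φ z).im⌋) := mem_sq1.2 ⟨Int.floor_le _,
      (Int.lt_floor_add_one _).le, Int.floor_le _, (Int.lt_floor_add_one _).le⟩
    obtain ⟨z', h2, h3⟩ := H1 z _ (by linarith) ((norm_sub_rev _ _).trans_lt (ctr _ _ h1))
    have h4 := wn_in (p := fun k => cx (c' k)) (a := fun k => a₀ + a ((k + 2) / 6)) (by linarith)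
      (by linarith) hφ hψ (congrArg cx w3)
      (by simp only [show (6 * n + 2) / 6 = n by omega, F.per]; norm_num; ring)
      (fun k hk => by
        have k1 := F.le_of_le (show (k + 2) / 6 ≤ (k + 1 + 2) / 6 by omega) (by omega)
        rw [add_sub_add_left_eq_sub, abs_of_nonneg (by linarith)]
        rcases (show (k + 1 + 2) / 6 = (k + 2) / 6 ∨ (k + 1 + 2) / 6 = (k + 2) / 6 + 1 by omega)
          with e | e <;> rw [e]
        · linarith
        · linarith [hg ((k + 2) / 6) (by omega)]) hseg (z := z')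
      (by rw [sub_zero]; linarith [norm_le_norm_add_norm_sub' z' z])
    rw [h3, wn_idx hs' w3 (⌊(φ z).re⌋, ⌊(φ z).im⌋) rfl rfl, mul_eq_left₀ h2π] at h4
    exact ⟨_, by exact_mod_cast h4, h1⟩
  obtain ⟨P, e1, e2, e3, e4⟩ := exists_dom (by omega) w1 w2 w3 w4
    ((hin 0 (by rw [norm_zero]; linarith)).imp fun y h => h.1)
  have arc : ∀ (i j : ℕ) (x y : ℝ), i ≤ n → j ≤ n → x - 20 * ν ≤ a₀ + a i → a₀ + a j ≤ y + 20 * ν →
      seg P.c (6 * i) (6 * j) ⊆ arcN φ (20 * ν) x y := fun i j x y h1 h2 h3 h4 v hv => by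
    obtain ⟨k, k1, k2, k3⟩ := mem_seg.1 hv
    obtain ⟨k4, k5⟩ := hseg k (by omega) v (e2 ▸ k3)
    refine ⟨_, ⟨a₀ + a ((k + 2) / 6), ⟨?_, ?_⟩, ?_⟩, k5⟩
    · linarith [F.le_of_le (show i ≤ (k + 2) / 6 by omega) (by omega)]
    · linarith [F.le_of_le (show (k + 2) / 6 ≤ j by omega) h2]
    · rw [circleMap_zero, ofReal_one, one_mul] at k4
      linarith
  have cvx : ∀ i, P.Cvx (6 * i) := fun i => by rw [Cardy.Dom.Cvx, e1, e3]; exact w5 i
  refine ⟨P, 6 * i₁, 6 * i₂, 6 * i₃, by omega, by omega, by omega, by omega, cvx 0, cvx _, cvx _,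
    interior_maximal ?_ (MP_56bcbf_an.isOpen_image isOpen_ball hφ hinj isOpen_ball
      (ball_subset_ball (by linarith))), fun w hw => ?_,
    arc 0 i₁ _ _ (by omega) q1.le (by linarith) (by linarith),
    arc i₁ i₂ _ _ q1.le q2.le (by linarith) (by linarith),
    arc i₂ i₃ _ _ q2.le q3.le (by linarith) (by linarith),
    e1 ▸ arc i₃ n _ _ q3.le le_rfl (by linarith) (by rw [F.per]; linarith)⟩
  · rintro _ ⟨z, hz, rfl⟩
    obtain ⟨y, h1, h2⟩ := hin z (mem_ball_zero_iff.1 hz)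
    exact mem_cl.2 ⟨y, (e4 y).2 h1, h2⟩
  · obtain ⟨y, h1, h2⟩ := mem_cl.1 hw
    have hsub : ball (0 : ℂ) (1 + 4 * ν) ⊆ ball 0 (1 + μ) := ball_subset_ball (by linarith)
    by_contra h3
    have h4 := wn_out (p := fun k => cx (c' k)) (a := fun k => a₀ + a ((k + 2) / 6))
      (R := 1 + 4 * ν) one_pos (by linarith) (by linarith) (hφ.continuousOn.mono hsub)
      (fun z hz => (hψ z (hsub hz)).1.continuousAt) (congrArg cx w3) hseg
      (w := ⟨y.1 + 1 / 2, y.2 + 1 / 2⟩) fun z hz e => by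
        have k1 := mem_ball_zero_iff.1 hz
        obtain ⟨z', k2, k3⟩ := H1 z w (by linarith) (e ▸ ctr y w h2)
        exact h3 ⟨z', mem_ball_zero_iff.2 (by linarith [norm_le_norm_add_norm_sub' z' z]), k3⟩
    rw [wn_idx hs' w3 y rfl rfl, (e4 y).1 h1] at h4
    simp at h4

end Pool.Agent.P.MP_6c8efb_pr.SLE
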