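import Pool.Agent.P.MP_6c8efb_pr.SLE.RCell
import Pool.Agent.P.MP_6c8efb_pr.SLE.LIface

/-! The cells on the left of the curve are mapped to the left of the driving point. -/

namespace Pool.Agent.P.MP_6c8efb_pr.SLE

open Set Complex Metric Filter Topology DW RC L
open scoped NNReal

namespace RL

theorem sq_diam {h : ℝ} (hh : 0 < h) {c : V} {z w : ℂ} (hz : z ∈ sq h c) (hw : w ∈ sq h c) :
    ‖z - w‖ ≤ 2 * h := by
  obtain ⟨x, hx, y, hy, rfl⟩ := (mem_sq hh).1 hz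
  obtain ⟨x', hx', y', hy', rfl⟩ := (mem_sq hh).1 hw
  have a : |x - x'| ≤ 1 := abs_le.2 ⟨by linarith [hx.1, hx'.2], by linarith [hx.2, hx'.1]⟩
  have b : |y - y'| ≤ 1 := abs_le.2 ⟨by linarith [hy.1, hy'.2], by linarith [hy.2, hy'.1]⟩
  exact (norm_pt_sub hh.le _ _ _ _ _ _).trans (by nlinarith)

theorem sign {T : Set ℂ} {φ : ℂ → ℝ} (hc : ContinuousOn φ T) (h0 : ∀ y ∈ T, φ y ≠ 0) {a b : ℂ}
    (h : JoinedIn T a b) (ha : φ a < 0) : φ b < 0 := by
  obtain ⟨Z, h1, h2, h3, h4⟩ := joined_pre h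
  by_contra hb
  obtain ⟨y, hy, e⟩ := h1.intermediate_value h2 h3 (hc.mono h4) ⟨ha.le, not_lt.1 hb⟩
  exact h0 y (h4 hy) e

theorem mul_le {r : Fin 4} {s : ℝ} (H : Side r s) (z : ℂ) : s * z.re ≤ ‖z‖ :=
  (le_abs_self _).trans ((H.abs _).le.trans (abs_re_le_norm z))

theorem bound {η : ℝ≥0 → ℂ} (hη : Curve η) {k : ℝ≥0} {R : ℝ} (hR : 0 ≤ R)
    (hK : hull η k ⊆ closedBall 0 R) : ∀ t ≤ k, ‖η t‖ ≤ R ∧ η t ∉ HH \ hull η k := fun t ht => by
  rcases eq_or_lt_of_le (zero_le : 0 ≤ t) with rfl | a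
  · simp [hη.zero, hR, mem_HH]
  · exact ⟨by simpa using hK ⟨t, ⟨a, ht⟩, rfl⟩, fun b => b.2 ⟨t, ⟨a, ht⟩, rfl⟩⟩

variable {h R s : ℝ} {q : ℕ → V} {dir : ℕ → Fin 4} {η : ℝ≥0 → ℂ} {r : Fin 4}

theorem far (hL : S_L1) (hC : S_Cont) (hS : Simple η) (H : Side r s) {k : ℝ≥0} (hR : 0 < R)
    (hK : hull η k ⊆ closedBall 0 R) {z : ℂ} (hz : z ∈ HH \ hull η k) :
    s * ((gt η k z).re - drv η k) ≤ s * z.re + 25 * R := by
  have h1 := ((hL _ _ _ _ (hS.hyd k)).1 0 R hR (by simpa using hK)).2.2.2 z hz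
  have h2 := (hC.1 η hS).2.2.2.2.2.2.2.1 k R hR fun u hu => (bound hS.toCurve hR.le hK u hu).1
  have h3 := mul_le H (gt η k z - z)
  have h4 := (neg_le_abs _).trans ((H.abs (drv η k)).le.trans h2)
  rw [sub_re] at h3
  linarith

/-- the hugging path is mapped strictly to one side of the driving point -/
theorem core (hP : S_Prop) (hL : S_L1) (hRad : S_Rad) (hT : S_Tipf) (hC : S_Cont)
    (W : Walk h q dir η) (hS : Simple η) (H : Side r s) (m : ℕ) (hR : h ≤ R)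
    (hK : hull η (m + 1 : ℕ) ⊆ closedBall 0 R) : ∃ ε : ℝ, 0 < ε ∧ ε < 1 ∧
      (∀ y, 0 < y → s * ((gt η (m + 1 : ℕ) (pt h 0 1 ε (s * y))).re - drv η (m + 1 : ℕ)) < 0) ∧
      ∀ j ≤ m, s * ((gt η (m + 1 : ℕ) (pt h (q j) (dir j) ε (s * ε))).re -
        drv η (m + 1 : ℕ)) < 0 := by
  have hh := W.hpos
  have hR0 : 0 < R := hh.trans_le hR
  set k : ℝ≥0 := ((m + 1 : ℕ) : ℝ≥0) with hk
  have hmk : (m : ℝ≥0) < k := by rw [hk]; exact_mod_cast Nat.lt_succ_self m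
  obtain ⟨c, hc, hc1, hc2⟩ : ∃ c : ℝ, 0 < c ∧ 2 * c ≤ (η k).im ∧
      ∀ t ≤ (m : ℝ≥0), 2 * c ≤ ‖η t - η k‖ := by
    obtain ⟨e, he, h1⟩ := Metric.isOpen_iff.1
      ((isCompact_Iic' (m : ℝ≥0)).image hS.cont).isClosed.isOpen_compl (η k)
      (fun ⟨t, ht, e⟩ => absurd (hS.inj e ▸ ht) (not_le.2 hmk))
    have h2 := hS.pos k (zero_le.trans_lt hmk)
    refine ⟨min e (η k).im / 2, by positivity, by linarith [min_le_right e (η k).im],
      fun t ht => ?_⟩
    have : e ≤ ‖η t - η k‖ := not_lt.1 fun a => h1 (mem_ball_iff_norm.2 a) ⟨t, ht, rfl⟩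
    linarith [min_le_left e (η k).im]
  obtain ⟨σ, hσ, h1⟩ := hT η hS k (hRad η W.curve W.poly k) c hc
  obtain ⟨δ, hδ, h2⟩ := (hP _ _ _ _ (hS.hyd k)).1 (σ / 2) (28 * R) (by positivity)
  set ε := min (1 / 2) (min δ c / (2 * h)) with hε
  have e0 : 0 < ε := by positivity
  have e1 : ε ≤ 1 / 2 := min_le_left _ _
  have e2 : 2 * ε * h ≤ min δ c := by
    have := (le_div_iff₀ (by positivity)).1 (min_le_right _ _ : ε ≤ _)
    linarith
  set T := {y ∈ HH \ hull η k | ‖y‖ ≤ 28 * R ∧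
    ∃ b ∉ HH \ hull η k, ‖y - b‖ ≤ 2 * ε * h ∧ 2 * c ≤ ‖b - η k‖}
  have sg : ∀ {a b}, JoinedIn T a b → s * ((gt η k a).re - drv η k) < 0 →
      s * ((gt η k b).re - drv η k) < 0 := by
    refine sign (φ := fun y => s * ((gt η k y).re - drv η k)) (continuousOn_const.mul
      ((continuous_re.comp_continuousOn ((hS.hyd k).dg.continuousOn.mono fun y hy => hy.1)).sub
        continuousOn_const)) ?_
    rintro y ⟨hy, hn, b, hb, b1, b2⟩ e
    have a1 := h2 y hy hn b hb (b1.trans (e2.trans (min_le_left _ _)))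
    have a2 : 0 < (gt η k y).im := (hS.hyd k).mg hy
    have a3 := h1 _ a2 ((norm_le_abs_re_add_abs_im _).trans_lt (by
      rw [sub_re, sub_im, ofReal_re, ofReal_im, (mul_eq_zero.1 e).resolve_left H.ne, sub_zero,
        abs_of_pos a2, abs_zero]
      linarith))
    rw [(hS.hyd k).fg y hy] at a3
    linarith [norm_sub_le_norm_sub_add_norm_sub b y (η k), norm_sub_rev b y, min_le_right δ c]
  have re : ∀ y, (pt h 0 1 ε (s * y)).re = -(h * (s * y)) := fun y => by simp [pt]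
  have im : ∀ y, (pt h 0 1 ε (s * y)).im = h * ε := fun y => by simp [pt]
  have sre : ∀ y, s * -(h * (s * y)) = -(h * y) := fun y => by linear_combination -(h * y) * H.sq
  have inD : ∀ y, 0 < y → pt h 0 1 ε (s * y) ∈ HH \ hull η k := fun y hy =>
    W.axis_out _ (by rw [im]; positivity) (by rw [im]; nlinarith)
      (by rw [re]; exact neg_ne_zero.2 (mul_ne_zero hh.ne' (mul_ne_zero H.ne hy.ne')))
  have inT : ∀ y, 0 < y → h * y ≤ 26 * R → pt h 0 1 ε (s * y) ∈ T := fun y hy hy' => by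
    refine ⟨inD y hy, (norm_le_abs_re_add_abs_im _).trans ?_, (pt h 0 1 ε (s * y)).re,
      fun a => by simpa [mem_HH] using a.1, (norm_le_abs_re_add_abs_im _).trans ?_,
      hc1.trans ((neg_le_abs _).trans' ?_ |>.trans (abs_im_le_norm _))⟩
    · rw [re, im, abs_neg, abs_mul, H.abs, abs_of_pos hh, abs_of_pos hy,
        abs_of_pos (by positivity)]
      nlinarith
    · rw [sub_re, sub_im, ofReal_re, ofReal_im, sub_self, sub_zero, im, abs_zero,
        abs_of_pos (by positivity)]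
      nlinarith [mul_pos e0 hh]
    · simp
  have A : ∀ y, 0 < y → s * ((gt η k (pt h 0 1 ε (s * y))).re - drv η k) < 0 := by
    have f : ∀ y, 0 < y → 26 * R ≤ h * y →
        s * ((gt η k (pt h 0 1 ε (s * y))).re - drv η k) < 0 := fun y hy a => by
      have := far hL hC hS H hR0 hK (inD y hy)
      rw [re, sre] at this
      linarith
    intro y hy
    rcases le_total (26 * R) (h * y) with a | a
    · exact f y hy a
    have b : h * (26 * R / h) = 26 * R := by field_simp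
    have b' : 0 < 26 * R / h := by positivity
    refine sg (link fun t ht => ?_) (f _ b' b.ge)
    rw [show s * (26 * R / h) + t * (s * y - s * (26 * R / h)) =
      s * ((1 - t) * (26 * R / h) + t * y) by ring, sub_self, mul_zero, add_zero]
    refine inT _ ?_ ?_
    · rcases ht.1.eq_or_lt with rfl | a
      · simpa using b'
      · nlinarith [mul_pos a hy, mul_nonneg (sub_nonneg.2 ht.2) b'.le]
    · nlinarith [ht.1, ht.2]
  refine ⟨ε, e0, by linarith, A, fun j hj => sg (W.hug H e0 (by linarith) e1 (k := m + 1) (S := T)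
    (fun y hy t ht hn => ⟨hy, ?_, η t, (bound hS.toCurve hR0.le hK t (ht.trans hmk.le)).2, hn,
      hc2 t ht⟩) ?_ hj) ?_⟩
  · nlinarith [norm_le_norm_add_norm_sub' y (η t), (bound hS.toCurve hR0.le hK t
      (ht.trans hmk.le)).1]
  · rw [W.zero, W.dir0]; exact inT ε e0 (by nlinarith)
  · rw [W.zero, W.dir0]; exact A ε e0

theorem side (hP : S_Prop) (hW : S_Wg) (hL : S_L1) (hRad : S_Rad) (hT : S_Tipf) (hC : S_Cont)
    (W : Walk h q dir η) (hS : Simple η) (H : Side r s) (k : ℕ) (hR : h ≤ R) {ρ : ℝ}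
    (h1 : 2 * h ≤ ρ) (h2 : ρ < 30 * R) (hK : hull η k ⊆ closedBall 0 R) {c : V} {z : ℂ}
    (hz : z ∈ sq h c ∩ (HH \ hull η k))
    (hc : (∃ j < k, ∀ x ∈ Icc (0 : ℝ) 1, pt h (q j) (dir j) x (s * x) ∈ sq h c) ∨
      c.2 = 0 ∧ s * (c.1 + 1 / 2) ≤ -(1 / 2)) :
    s * ((gt η k z).re - drv η k) ≤ L.om (30 * R) ρ := by
  have hh := W.hpos
  have hR0 : 0 < R := hh.trans_le hR
  have o := om_pos (by linarith) h2
  have m2 : (1 / 2 : ℝ) ∈ Ioo (0 : ℝ) 1 := by norm_num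
  have cz : |z.re - h * (c.1 + 1 / 2)| ≤ h / 2 :=
    abs_le.2 ⟨by linarith [hz.1.1], by linarith [hz.1.2.1]⟩
  have cs : s * (c.1 + 1 / 2) ≤ -(1 / 2) → s * z.re ≤ 0 := fun a => by
    nlinarith [(le_abs_self _).trans ((H.abs _).le.trans cz)]
  rcases k with _ | m
  · obtain ⟨j, hj, -⟩ | ⟨-, a⟩ := hc
    · omega
    · rw [Nat.cast_zero, (hC.1 η hS).2.2.2.1 z hz.2.1, (hC.1 η hS).2.2.2.2.2.1]
      linarith [cs a]
  obtain ⟨ε, e0, e1, A, B⟩ := core hP hL hRad hT hC W hS H m hR hK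
  have fin : ∀ a ∈ sq h c ∩ (HH \ hull η (m + 1 : ℕ)), ‖z‖ ≤ 30 * R →
      s * ((gt η (m + 1 : ℕ) a).re - drv η (m + 1 : ℕ)) < 0 →
      s * ((gt η (m + 1 : ℕ) z).re - drv η (m + 1 : ℕ)) ≤ L.om (30 * R) ρ := fun a ha hn b => by
    obtain ⟨Z, z1, z2, z3, z4⟩ := joined_pre ((to_open W hz m2 m2).symm.trans (to_open W ha m2 m2))
    have := (hW _ _ _ _ (hS.hyd _) (30 * R) ρ z (hK.trans (closedBall_subset_closedBall
      (by linarith))) hn (by linarith) h2).1 Z (fun x hx => (z4 hx).2) (fun x hx =>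
        mem_closedBall_iff_norm.2 ((sq_diam hh (z4 hx).1 hz.1).trans h1)) z1 z z2 a z3
    have b' := mul_le H (gt η (m + 1 : ℕ) z - gt η (m + 1 : ℕ) a)
    rw [sub_re] at b'
    linarith
  obtain ⟨j, hj, a⟩ | ⟨a1, a2⟩ := hc
  · have b1 : |ε| < 1 := by rwa [abs_of_pos e0]
    have b2 : |s * ε| < 1 := by rwa [H.abs]
    refine fin _ ⟨a ε ⟨e0.le, e1.le⟩, ?_, W.cell_out _ _ _ b1 b2 e0.ne' (mul_ne_zero H.ne e0.ne')⟩
      ?_ (B j (by omega))
    · rcases Nat.eq_zero_or_pos j with rfl | b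
      · show 0 < (pt h (q 0) (dir 0) ε (s * ε)).im
        simpa [pt, W.zero, W.dir0] using mul_pos hh e0
      · exact W.pt_pos b _ b1 b2
    · have b3 := sq_diam hh hz.1 (a 0 ⟨le_rfl, zero_le_one⟩)
      rw [mul_zero, pt_zero, ← W.val] at b3
      linarith [norm_le_norm_add_norm_sub' z (η j),
        (bound hS.toCurve hR0.le hK j (by exact_mod_cast hj.le)).1]
  · rcases le_total (s * z.re) (-(26 * R)) with b | b
    · linarith [far hL hC hS H hR0 hK hz.2]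
    have e : pt h 0 1 ε (s * -(s * (c.1 + 1 / 2))) = pt h c 0 (1 / 2) ε := by
      apply Complex.ext
      · simp only [pt_re]; simp [pt]; left; linear_combination (c.1 + 1 / 2 : ℝ) * H.sq
      · simp [pt, a1]
    refine fin _ (open_mem W c a1.ge m2 ⟨e0, e1⟩) ((norm_le_abs_re_add_abs_im _).trans ?_)
      (e ▸ A _ (by linarith))
    have b1 : |z.re| ≤ 26 * R := by rw [← H.abs, abs_le]; constructor <;> linarith [cs a2]
    have b2 := hz.1.2.2.2
    rw [a1] at b2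
    rw [abs_of_pos (a := z.im) hz.2.1]
    push_cast at b2
    linarith

end RL

theorem t_LR (hP : S_Prop) (hW : S_Wg) (hL : S_L1) (hRad : S_Rad) (hT : S_Tipf) (hC : S_Cont) :
    S_LR := by
  intro R ε hε
  have hR : 0 < max R 1 := by positivity
  obtain ⟨ρ, r0, r1, r2⟩ := om_small (R := 30 * max R 1) (by positivity) hε
  refine ⟨min (ρ / 2) 1, by positivity, fun h q k hh h0 H hS hK c z hz => ?_⟩
  obtain ⟨dir, W⟩ := walk hh H
  have s := fun r s (H : Side r s) => RL.side hP hW hL hRad hT hC W hS H k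
    (h0.trans ((min_le_right _ _).trans (le_max_right R 1)))
    (by linarith [min_le_left (ρ / 2) 1]) r1
    (hK.trans (closedBall_subset_closedBall (le_max_left _ _))) hz
  have d : ∀ j e, q (j + 1) = q j + u e → e = dir j := fun j e a =>
    u_inj (add_left_cancel (a.symm.trans (W.step j)))
  refine ⟨fun hc => ?_, fun hc => ?_⟩
  · have := s 1 1 (.inl ⟨rfl, rfl⟩) (hc.imp (fun ⟨j, hj, e, a, b⟩ => ⟨j, hj, fun x hx => by
      rw [b, d j e a, one_mul]; exact (mem_left hh).2 ⟨x, hx, x, hx, rfl⟩⟩) fun a => ⟨a.1, by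
        have : (c.1 : ℝ) ≤ -1 := by exact_mod_cast (by omega : c.1 ≤ -1)
        linarith⟩)
    linarith
  · have := s 3 (-1) (.inr ⟨rfl, rfl⟩) (hc.imp (fun ⟨j, hj, e, a, b⟩ => ⟨j, hj, fun x hx => by
      rw [b, d j e a, neg_one_mul]; exact (mem_right hh).2 ⟨x, hx, x, hx, rfl⟩⟩) fun a => ⟨a.1, by
        have : (0 : ℝ) ≤ c.1 := by exact_mod_cast a.2
        linarith⟩)
    linarith

end Pool.Agent.P.MP_6c8efb_pr.SLE
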