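import Pool.Agent.P.MP_6c8efb_pr.SLE.TFlat

/-! A long piece of the path whose edges of one colour are all new is unlikely. -/

open Set Filter Function

namespace Pool.Agent.P.MP_6c8efb_pr.SLE

/-- the edge is fixed by the boundary condition -/
def Frz (e : E) : Prop := e.1.2 < 0 ∨ (e.1.2 = 0 ∧ e.2 = true)

theorem bc_of_not_Frz {ω : Cfg} {e : E} (h : ¬ Frz e) : bc ω e = ω e := by
  simp only [Frz, not_or] at h
  simp only [bc, h.1, h.2, if_false]

theorem open_arm' {ω : Cfg} {X : Finset E} {i j : ℕ} (hij : i ≤ j)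
    (h : ∀ l, i ≤ l → l < j → Frz (ed (path ω l)) ∨ ed (path ω l) ∈ X →
      bc ω (ed (path ω l)) ≠ true) :
    Conn (shut X ω) univ (path ω i).1 (path ω j).1 := by
  induction j, hij using Nat.le_induction with
  | base => exact Conn.rfl'
  | succ j hj ih =>
    have h1 := ih fun l a b => h l a (by omega)
    rw [path_succ]
    by_cases b : bc ω (ed (path ω j)) = true
    swap
    · rw [step_closed b]; exact h1
    rw [step_open b]
    refine h1.snoc trivial trivial ?_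
    have h2 := not_or.1 fun a => h j hj (by omega) a b
    rw [bc_of_not_Frz h2.1] at b
    show shut _ _ (ed (path ω j)) = true
    simp [shut, h2.2, b]

theorem dual_arm' {ω : Cfg} {X : Finset E} {i j : ℕ} (hij : i ≤ j)
    (h : ∀ l, i ≤ l → l < j → Frz (ed (path ω l)) ∨ ed (path ω l) ∈ X →
      bc ω (ed (path ω l)) ≠ false) :
    Conn (du (opn X ω)) univ (fd (path ω i)) (fd (path ω j)) := by
  induction j, hij using Nat.le_induction with
  | base => exact Conn.rfl'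
  | succ j hj ih =>
    have h1 := ih fun l a b => h l a (by omega)
    rw [path_succ]
    by_cases b : bc ω (ed (path ω j)) = true
    · rw [step_open b, fd_ro]; exact h1
    rw [step_closed b, show fd (rot (path ω j)) = fd (path ω j) + u ((path ω j).2 + 1) from
      fc_succ _ _]
    refine h1.snoc trivial trivial ?_
    have h2 := not_or.1 fun a => h j hj (by omega) a (by simpa using b)
    rw [bc_of_not_Frz h2.1] at b
    simp only [du, fd, dl_fc, opn]
    show (!(ω (ed (path ω j)) || decide (ed (path ω j) ∈ X))) = true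
    simp [h2.2, b]

/-- between the steps `i` and `j` the path crosses the annulus around `z`, and all the edges of
colour `b` which it sees are free and outside `X` -/
def NewArm (X : Finset E) (z : V) (r ρ : ℤ) (ω : Cfg) : Prop :=
  ∃ (b : Bool) (i j : ℕ), i ≤ j ∧
    (nm z (fp ω (i + 1)) ≤ r ∧ ρ ≤ nm z (fp ω (j + 1)) ∨
      nm z (fp ω (j + 1)) ≤ r ∧ ρ ≤ nm z (fp ω (i + 1))) ∧
    ∀ l, i ≤ l → l < j → Frz (ed (path ω l)) ∨ ed (path ω l) ∈ X → bc ω (ed (path ω l)) ≠ b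

theorem NewArm.fresh {X : Finset E} {z : V} {r ρ : ℤ} {ω : Cfg} (h : NewArm X z r ρ ω)
    (hr : 1 ≤ r) : ω ∈ Fresh X (hv z) (3 * r) ((ρ - 6) / 2) := by
  obtain ⟨b, i, j, a1, a2, a3⟩ := h
  have n1 := nm_hv z (path ω i)
  have n2 := nm_hv z (path ω j)
  simp only [fp] at a2
  cases b with
  | true =>
    have := open_arm' a1 a3
    rcases a2 with a | a
    exacts [Or.inl ⟨_, _, ⟨by omega, by omega⟩, this⟩,
      Or.inl ⟨_, _, ⟨by omega, by omega⟩, this.symm'⟩]
  | false =>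
    have := dual_arm' a1 a3
    rcases a2 with a | a
    exacts [Or.inr ⟨_, _, ⟨by omega, by omega⟩, this⟩,
      Or.inr ⟨_, _, ⟨by omega, by omega⟩, this.symm'⟩]

/-- the arm estimate at a stopping time; `S k` and `z k` are read on `path ω j`, `j ≤ k` -/
theorem arm_path : ∃ C c : ℝ, 0 < c ∧ ∀ (S : ℕ → Cfg → Prop) (z : ℕ → Cfg → V) (r ρ : ℤ),
    (∀ k ω ω', (∀ j ≤ k, path ω j = path ω' j) → S k ω = S k ω') →
    (∀ k ω ω', (∀ j ≤ k, path ω j = path ω' j) → z k ω = z k ω') →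
    (∀ ω k k', S k ω → S k' ω → k = k') → 1 ≤ r → r ≤ ρ →
    Q {ω | ∃ k, S k ω ∧ NewArm (expl ω k) (z k ω) r ρ ω} ≤ C * ((r : ℝ) / ρ) ^ c := by
  obtain ⟨C, c, c0, h⟩ := fresh_decay
  refine ⟨C, c, c0, fun S z r ρ hS hz hu hr hρ => h _ r ρ hr hρ fun κ k0 b hκ => ?_⟩
  refine le_trans (Pr_mono ?_) (Q_stop
    (B := fun k ω => Fresh (expl ω k) (hv (z k ω)) (3 * r) ((ρ - 6) / 2)) k0 hS
    (fun k ω ω' a => by rw [expl_congr a, hz k ω ω' a]) hu fun k ω _ => ?_)
  · exact fun ω ⟨k, a1, a2⟩ => ⟨k, a1, a2.fresh hr⟩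
  · obtain ⟨a1, a2, a3⟩ := fresh_facts (expl ω k) (hv (z k ω)) (r := 3 * r)
      (R := (ρ - 6) / 2) (by omega)
    exact ⟨a1, a2, a3.trans (hκ _)⟩

/-- the same for adapted data; the step from `fp ω (l + 1)` to `fp ω (l + 2)` reads the edge
`ed (path ω l)`, and `fp ω j`, `j ≤ k + 1`, reads the edges of `expl ω k` -/
theorem t_ARM : ∃ C c : ℝ, 0 < c ∧ ∀ (S : ℕ → Cfg → Prop) (z : ℕ → Cfg → V) (r ρ : ℤ),
    Adapted S → Adapted z → (∀ ω k k', S k ω → S k' ω → k = k') → 1 ≤ r → r ≤ ρ →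
    Q {ω | ∃ k, S (k + 1) ω ∧ NewArm (expl ω k) (z (k + 1) ω) r ρ ω} ≤ C * ((r : ℝ) / ρ) ^ c := by
  obtain ⟨C, c, c0, h⟩ := arm_path
  exact ⟨C, c, c0, fun S z r ρ hS hz hu => h _ _ r ρ (fun k ω ω' a => hS.path a)
    (fun k ω ω' a => hz.path a) fun ω k k' a a' => by have := hu ω _ _ a a'; omega⟩

end Pool.Agent.P.MP_6c8efb_pr.SLE
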