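import Pool.Agent.P.MP_6c8efb_pr.SLE.T1
import Pool.Agent.P.MP_6c8efb_pr.SLE.TArm

/-! Uniform transience of the exploration path. -/

namespace Pool.Agent.P.MP_6c8efb_pr.SLE.T0

theorem row {S : Set V} {x x' y : ℤ} (h : x ≤ x') (hS : ∀ t, x ≤ t → t ≤ x' → (t, y) ∈ S) :
    Conn (fun _ => true) S (x, y) (x', y) := by
  induction x', h using Int.leInduction with
  | base => exact Conn.rfl'
  | succ k hk ih =>
    have e : ((k + 1, y) : V) = (k, y) + u 0 := by simp
    have := hS (k + 1) (by omega) le_rfl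
    rw [e] at this ⊢
    exact (ih fun t a b => hS t a (by omega)).snoc (hS k hk (by omega)) this rfl

theorem col {S : Set V} {x y y' : ℤ} (h : y ≤ y') (hS : ∀ t, y ≤ t → t ≤ y' → (x, t) ∈ S) :
    Conn (fun _ => true) S (x, y) (x, y') := by
  induction y', h using Int.leInduction with
  | base => exact Conn.rfl'
  | succ k hk ih =>
    have e : ((x, k + 1) : V) = (x, k) + u 1 := by simp
    have := hS (k + 1) (by omega) le_rfl
    rw [e] at this ⊢
    exact (ih fun t a b => hS t a (by omega)).snoc (hS k hk (by omega)) this rfl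

theorem fp_conn (ω : Cfg) {S : Set V} {a b : ℕ} (h : a ≤ b)
    (hS : ∀ l, a ≤ l → l ≤ b → fp ω l ∈ S) : Conn (fun _ => true) S (fp ω a) (fp ω b) := by
  induction b, h using Nat.le_induction with
  | base => exact Conn.rfl'
  | succ k hk ih =>
    obtain ⟨d, e⟩ := (s_fp ω).stp k
    have := hS (k + 1) (by omega) le_rfl
    rw [e] at this ⊢
    exact (ih fun t a b => hS t a (by omega)).snoc (hS k hk (by omega)) this rfl

/-- once the path has left a box, a later piece inside the box touches one half axis only -/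
theorem one_side {ω : Cfg} {ρ : ℤ} (hρ : 0 < ρ) {j s k a b : ℕ} (hj : ρ ≤ nm 0 (fp ω j))
    (hs : j < s) (h : ∀ l, s ≤ l → l ≤ k → nm 0 (fp ω l) ≤ ρ - 1) (a1 : s ≤ a) (a2 : a ≤ k)
    (b1 : s ≤ b) (b2 : b ≤ k) (a3 : (fp ω a).1 < 0) (a4 : (fp ω a).2 = 2) (b3 : (fp ω b).2 = 1) :
    False := by
  classical
  have F := s_fp ω
  have ex : ∃ T, ρ ≤ nm 0 (fp ω T) := ⟨j, hj⟩
  have t1 := Nat.find_spec ex
  have t2 : Nat.find ex ≤ j := Nat.find_min' ex hj
  have t3 : ∀ l, l < Nat.find ex → nm 0 (fp ω l) ≤ ρ - 1 := fun l hl => by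
    have := Nat.find_min ex hl
    omega
  generalize Nat.find ex = T at t1 t2 t3
  have t0 : 1 ≤ T := by
    by_contra c
    rw [show T = 0 by omega, F.zero] at t1
    simp [nm] at t1
    omega
  have p0 : ∀ l, 0 ≤ (fp ω l).2 := fun l => by
    rcases Nat.eq_zero_or_pos l with rfl | c
    · exact le_rfl
    · have := F.pos l c; omega
  have t4 : ∀ l, l ≤ T → nm 0 (fp ω l) ≤ ρ := fun l hl => by
    rcases hl.lt_or_eq with c | rfl
    · have := t3 l c; omega
    · have c1 := t3 (l - 1) (by omega)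
      have c2 := fp_lip ω (l - 1)
      rw [Nat.sub_add_cancel t0] at c2
      simp only [nm_le, Prod.fst_zero, Prod.snd_zero] at c1 c2 ⊢
      omega
  have b4 : 0 < (fp ω b).1 := by
    refine (fp_low ω b b3).lt_of_ne fun c => ?_
    have := F.inj (a₁ := b) (a₂ := 1) (by rw [F.one]; exact Prod.ext c.symm b3)
    omega
  have a5 := h a a1 a2
  have b5 := h b b1 b2
  have t5 := t4 T le_rfl
  have t6 := F.pos T t0
  simp only [nm_le, Prod.fst_zero, Prod.snd_zero] at a5 b5 t5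
  let A : Set V := {w | ∃ l ≤ T, fp ω l = w} ∪ {w | nm 0 w = ρ ∧ 1 ≤ w.2}
  let B : Set V := {w | ∃ l, s ≤ l ∧ l ≤ k ∧ fp ω l = w} ∪
    {w | w.2 = 0 ∧ w.1 ≠ 0 ∧ -ρ ≤ w.1 ∧ w.1 ≤ ρ ∨ w.2 = 1 ∧ -ρ < w.1 ∧ w.1 < 0}
  have cA : Conn (fun _ => true) A (fp ω 0) ((fp ω T).1, ρ) :=
    (fp_conn ω T.zero_le fun l _ hl => Or.inl ⟨l, hl, rfl⟩).trans'
      (col (x := (fp ω T).1) (y := (fp ω T).2) (by omega) fun t c1 c2 => Or.inr ⟨by
        simp only [nm, abs_eq_max_neg, Prod.fst_zero, Prod.snd_zero] at t1 ⊢; omega, by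
        simp only; omega⟩)
  have cS : Conn (fun _ => true) B (fp ω a) (fp ω b) := by
    rcases le_total a b with c | c
    · exact fp_conn ω c fun l c1 c2 => Or.inl ⟨l, by omega, by omega, rfl⟩
    · exact (fp_conn ω c fun l c1 c2 => Or.inl ⟨l, by omega, by omega, rfl⟩).symm'
  have c1 : Conn (fun _ => true) B (-ρ, 0) ((fp ω a).1, 0) :=
    row (by omega) fun t c1 c2 => Or.inr (Or.inl ⟨rfl, by simp only; omega⟩)
  have c2 : Conn (fun _ => true) B ((fp ω a).1, 0) ((fp ω a).1, (fp ω a).2) :=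
    col (by omega) fun t c1 c2 => by
      by_cases c : t = (fp ω a).2
      · exact Or.inl ⟨a, a1, a2, by rw [c]⟩
      · exact Or.inr (by simp only [Set.mem_ofPred_eq]; omega)
  have c3 : Conn (fun _ => true) B ((fp ω b).1, 0) ((fp ω b).1, (fp ω b).2) :=
    col (by omega) fun t c1 c2 => by
      by_cases c : t = (fp ω b).2
      · exact Or.inl ⟨b, b1, b2, by rw [c]⟩
      · exact Or.inr (by simp only [Set.mem_ofPred_eq]; omega)
  have c4 : Conn (fun _ => true) B ((fp ω b).1, 0) (ρ, 0) :=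
    row (by omega) fun t c1 c2 => Or.inr (Or.inl ⟨rfl, by simp only; omega⟩)
  obtain ⟨z, z1, z2⟩ := cross0 (x0 := -ρ) (x1 := ρ) hρ (A := A) (B := B) (by
      rintro w (⟨l, hl, rfl⟩ | ⟨c1, c2⟩)
      · have c1 := t4 l hl
        have c2 := p0 l
        simp only [nm_le, Prod.fst_zero, Prod.snd_zero, mem_Rc] at c1 ⊢
        omega
      · have c3 := c1.le
        simp only [nm_le, Prod.fst_zero, Prod.snd_zero, mem_Rc] at c3 ⊢
        omega) (by
      rintro w (⟨l, d1, d2, rfl⟩ | d)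
      · have c1 := h l d1 d2
        have c2 := p0 l
        simp only [nm_le, Prod.fst_zero, Prod.snd_zero, mem_Rc] at c1 ⊢
        omega
      · simp only [Set.mem_ofPred_eq, mem_Rc] at d ⊢
        omega) cA (Or.inl ⟨0, T.zero_le, rfl⟩) rfl rfl
    (c1.trans' (c2.trans' (cS.trans' (c3.symm'.trans' c4))))
    (Or.inr (Or.inl ⟨rfl, by simp only; omega⟩)) rfl rfl
  rcases z1 with ⟨l, hl, rfl⟩ | ⟨d1, d2⟩
  · rcases z2 with ⟨l', e1, e2, e3⟩ | e | e
    · have := F.inj e3; omega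
    · rcases Nat.eq_zero_or_pos l with rfl | c
      · exact e.2.1 rfl
      · have := F.pos l c; omega
    · have := fp_low ω l e.1; omega
  · rcases z2 with ⟨l', e1, e2, rfl⟩ | e | e
    · have := h l' e1 e2; omega
    · omega
    · have c := d1.ge
      simp only [le_nm, Prod.fst_zero, Prod.snd_zero] at c
      omega

theorem touch_neg {ω : Cfg} {l : ℕ} (h : Frz (ed (path ω l))) (ho : bc ω (ed (path ω l)) = true) :
    (fp ω (l + 1)).1 < 0 ∧ (fp ω (l + 1)).2 = 2 := by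
  have h1 := path_not_wp ω l
  have h2 := bc_pos ho
  have h3 := bc_open ho
  rw [fp_succ]
  generalize path ω l = c at h h1 h2 h3
  obtain ⟨⟨a, b⟩, d⟩ := c
  rcases cases4 d with rfl | rfl | rfl | rfl <;>
    simp [Frz, ed, WP, fv0, fv1, fv2, fv3] at h h1 h2 h3 ⊢ <;> omega

theorem touch_pos {ω : Cfg} {l : ℕ} (h : Frz (ed (path ω l))) (ho : bc ω (ed (path ω l)) = false) :
    (fp ω (l + 1)).2 = 1 ∨ (fp ω (l + 2)).2 = 1 := by
  have h1 := path_pos ω l
  rw [fp_succ, fp_succ, path_succ, step_closed (by simp [ho])]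
  generalize path ω l = c at h h1
  obtain ⟨⟨a, b⟩, d⟩ := c
  rcases cases4 d with rfl | rfl | rfl | rfl <;>
    simp [Frz, ed, rot, fv0, fv1, fv2, fv3] at h h1 ⊢ <;> omega

theorem back_arm {ω : Cfg} {r ρ : ℤ} (hr : 0 ≤ r) (hρ : r < ρ) {j k : ℕ} (hjk : j ≤ k)
    (hj : ρ ≤ nm 0 (fp ω j)) (hk : nm 0 (fp ω k) ≤ r) : NewArm ∅ 0 r (ρ - 1) ω := by
  classical
  have s1 := Nat.findGreatest_spec (P := fun l => ρ ≤ nm 0 (fp ω l)) hjk hj
  have s2 := Nat.le_findGreatest (P := fun l => ρ ≤ nm 0 (fp ω l)) hjk hj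
  have s3 := Nat.findGreatest_le (P := fun l => ρ ≤ nm 0 (fp ω l)) k
  have s4 : ∀ l, Nat.findGreatest (fun l => ρ ≤ nm 0 (fp ω l)) k + 1 ≤ l → l ≤ k →
      nm 0 (fp ω l) ≤ ρ - 1 := fun l a b => by
    have := Nat.findGreatest_is_greatest (P := fun l => ρ ≤ nm 0 (fp ω l)) a b
    omega
  generalize Nat.findGreatest (fun l => ρ ≤ nm 0 (fp ω l)) k = s at s1 s2 s3 s4
  have s5 : s ≠ k := fun e => by rw [e] at s1; omega
  obtain ⟨k, rfl⟩ : ∃ k', k = k' + 1 := ⟨k - 1, by omega⟩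
  have s6 : ρ - 1 ≤ nm 0 (fp ω (s + 1)) := by
    have := fp_lip ω s
    simp only [nm_le, le_nm, Prod.fst_zero, Prod.snd_zero] at this s1 ⊢
    omega
  by_cases c : ∃ l, s ≤ l ∧ l < k ∧ Frz (ed (path ω l)) ∧ bc ω (ed (path ω l)) = true
  · obtain ⟨a, a1, a2, a3, a4⟩ := c
    obtain ⟨a5, a6⟩ := touch_neg a3 a4
    refine ⟨false, s, k, by omega, Or.inr ⟨hk, s6⟩, fun l b1 b2 b3 b4 => ?_⟩
    rcases touch_pos (b3.resolve_right (by simp)) b4 with e | e
    · exact one_side (by omega) hj (by omega) s4 (by omega) (by omega) (by omega) (by omega)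
        a5 a6 e
    · exact one_side (by omega) hj (by omega) s4 (by omega) (by omega) (by omega) (by omega)
        a5 a6 e
  · exact ⟨true, s, k, by omega, Or.inr ⟨hk, s6⟩, fun l b1 b2 b3 b4 =>
      c ⟨l, b1, b2, b3.resolve_right (by simp), b4⟩⟩

theorem s_trans : S_TRANS := by
  obtain ⟨C, c, c0, h⟩ := arm_path
  refine ⟨(|C| + 1) * 2 ^ c, c, c0, fun r ρ hr hρ => ?_⟩
  have r0 : (1 : ℝ) ≤ r := by exact_mod_cast hr
  have p2 : (1 : ℝ) ≤ 2 ^ c := Real.one_le_rpow (by norm_num) c0.le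
  rcases hρ.lt_or_eq with hρ | rfl
  · have r1 : (r : ℝ) + 1 ≤ ρ := by exact_mod_cast hρ
    refine (Pr_mono ?_).trans ((h (fun k _ => k = 0) (fun _ _ => 0) r (ρ - 1) (fun _ _ _ _ => rfl)
      (fun _ _ _ _ => rfl) (fun _ _ _ a b => a.trans b.symm) hr (by omega)).trans ?_)
    · rintro ω ⟨j, k, a1, a2, a3⟩
      exact ⟨0, rfl, back_arm (by omega) hρ a1 a2 a3⟩
    · rw [mul_assoc, ← Real.mul_rpow (by norm_num) (div_nonneg (by linarith) (by linarith))]
      push_cast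
      have b0 : (0 : ℝ) ≤ r / (ρ - 1) := div_nonneg (by linarith) (by linarith)
      refine mul_le_mul ((le_abs_self C).trans (by linarith)) (Real.rpow_le_rpow b0 ?_ c0.le)
        (Real.rpow_nonneg b0 _) (by positivity)
      rw [mul_div_assoc', div_le_div_iff₀ (by linarith) (by linarith)]
      nlinarith
  · rw [div_self (by linarith), Real.one_rpow, mul_one]
    refine (Pr_le_one _ _).trans ?_
    nlinarith [abs_nonneg C]

end Pool.Agent.P.MP_6c8efb_pr.SLE.T0
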