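import Pool.Agent.P.MP_6c8efb_pr.SLE.TADet

/-! Tightness of the curve and of the driving function in the capacity parametrisation. -/

namespace Pool.Agent.P.MP_6c8efb_pr.SLE.TA

open Set Complex Metric Filter Topology MeasureTheory
open scoped NNReal

theorem crit_eq (A : Set Cfg) : crit A = ENNReal.ofReal (Q A) :=
  (ofReal_measureReal (μ := PM fun _ : E => hf) (s := A)).symm

theorem flat_prob (hFP : S_FP) (hPC : S_PC) (hE : L.S_Exist) (hCt : L.S_Cont) (hF : S_FLAT) :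
    ∃ C c : ℝ, 0 < c ∧ ∀ (h s₀ σ r e ε : ℝ) (r' ρ' : ℤ) (i : ℕ), 0 < h → 1 ≤ r' → r' ≤ ρ' →
      Q {ω | Fl h s₀ σ r e r' ρ' (fp ω) (sto (pt h (fp ω)) ε i)} ≤ C * ((r' : ℝ) / ρ') ^ c := by
  obtain ⟨C, c, hc, H⟩ := hF
  refine ⟨C, c, hc, fun h s₀ σ r e ε r' ρ' i hh h1 h2 => ?_⟩
  have hS : ∀ ω, L.Simple (pc h (fp ω)) := fun ω =>
    hE _ (hPC h _ hh (hFP ω)).1 (hPC h _ hh (hFP ω)).2
  have loc : ∀ (k : ℕ) ω ω', (∀ j ≤ k, fp ω j = fp ω' j) →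
      L.hull (pc h (fp ω)) k = L.hull (pc h (fp ω')) k ∧
      L.drv (pc h (fp ω)) k = L.drv (pc h (fp ω')) k := fun k ω ω' e =>
    ⟨hull_congr fun x hx => pc_congr e hx,
      hCt.2 _ _ (hS ω) (hS ω') k (fun x hx => pc_congr e hx) k le_rfl⟩
  have hz : Adapted fun k ω => ctr h s₀ σ r e (fp ω) k := fun k ω ω' e => by
    simp only [ctr, L.ft, (loc k ω ω' e).1, (loc k ω ω' e).2]
  have hs : ∀ (k : ℕ) ω ω', (∀ j ≤ k, fp ω j = fp ω' j) → k = sto (pt h (fp ω)) ε i →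
      k = sto (pt h (fp ω')) ε i := fun k ω ω' e ek =>
    ek.trans (sto_loc (unb hh (hFP ω)) fun j hj => by rw [pt, pt, e j (ek ▸ hj)]).symm
  refine le_trans (Pr_mono ?_) (H (fun k ω => k = sto (pt h (fp ω)) ε i)
    (fun k ω => ctr h s₀ σ r e (fp ω) k)
    (fun k ω => cel h σ e (ctr h s₀ σ r e (fp ω) k) r' (fp ω) k) r' ρ'
    (fun k ω ω' e => propext ⟨hs k ω ω' e, hs k ω' ω fun j hj => (e j hj).symm⟩) hz
    (fun k ω ω' e => by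
      have := hz k ω ω' e
      simp only at this
      simp only [cel, L.gt, (loc k ω ω' e).1, (loc k ω ω' e).2, this])
    (fun ω k k' a b => a.trans b.symm) h1 h2)
  exact fun ω hω => ⟨_, rfl, hω⟩

theorem ev {c : ℝ} (hc : 0 < c) : ∀ᶠ δ in 𝓝[>] (0 : ℝ), δ ≤ c :=
  mem_nhdsWithin_of_mem_nhds (Iic_mem_nhds hc)

theorem ev' (a : ℝ) {c : ℝ} (hc : 0 < c) : ∀ᶠ δ in 𝓝[>] (0 : ℝ), a * δ ≤ c := by
  have h : Tendsto (fun δ : ℝ => a * δ) (𝓝[>] 0) (𝓝 0) := by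
    simpa using ((continuous_const.mul continuous_id).tendsto (0 : ℝ)).mono_left
      (nhdsWithin_le_nhds (s := Ioi (0 : ℝ))) (f := fun δ : ℝ => a * δ)
  exact h.eventually (Iic_mem_nhds hc)

theorem rad (hR : S_RAD) (T : ℝ≥0) {ε : ℝ} (hε : 0 < ε) : ∃ R : ℝ, 0 < R ∧
    ∀ᶠ δ in 𝓝[>] (0 : ℝ), Q {ω | ∃ t ≤ T, R < ‖Cv δ ω t‖} ≤ ε := by
  obtain ⟨C, c, hc, H⟩ := hR T
  have h1 : Tendsto (fun r : ℝ => C * Real.exp (-c * r)) atTop (𝓝 0) := by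
    simpa using (Real.tendsto_exp_atBot.comp
      (tendsto_id.const_mul_atTop_of_neg (neg_neg_of_pos hc))).const_mul C
  obtain ⟨R, h2, h3⟩ := ((h1.eventually (Iic_mem_nhds hε)).and (eventually_gt_atTop 0)).exists
  refine ⟨R, h3, H.mono fun δ hδ => ?_⟩
  have h4 := (hδ R).trans (ENNReal.ofReal_le_ofReal h2)
  rwa [crit_eq, ENNReal.ofReal_le_ofReal_iff hε.le] at h4

theorem ratio (C : ℝ) {c ε : ℝ} (hc : 0 < c) (hε : 0 < ε) :
    ∃ κ : ℝ, 0 < κ ∧ κ ≤ 1 ∧ ∀ x, 0 < x → x ≤ κ → C * x ^ c ≤ ε := by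
  have h1 : Tendsto (fun x : ℝ => C * x ^ c) (𝓝 0) (𝓝 0) := by
    simpa [Real.zero_rpow hc.ne'] using
      ((Real.continuous_rpow_const hc.le).tendsto 0).const_mul C
  obtain ⟨κ, hκ, h2⟩ := Metric.eventually_nhds_iff.1 (h1.eventually (Iic_mem_nhds hε))
  refine ⟨min 1 (κ / 2), by positivity, min_le_left _ _, fun x h3 h4 => h2 ?_⟩
  rw [Real.dist_eq, sub_zero, abs_of_pos h3]
  linarith [min_le_right 1 (κ / 2)]

theorem tight_cv (hFP : S_FP) (hPC : S_PC) (hCAP : S_CAP) (hBAS : S_BAS) (hRAD : S_RAD)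
    (hT1 : S_T1) (hG : S_GATE) (hFL : S_FLAT) (hLR : S_LR) (hC : S_CONT) (hE : L.S_Exist)
    (hL : L.S_L1) (hW : L.S_Wg) (hF : L.S_Wf) (hT : L.S_Tip) (hCt : L.S_Cont) (hH : L.S_Hgt) :
    TightOsc crit (𝓝[>] (0 : ℝ)) Cv := by
  intro T ε₀ ε' hε₀ hε'
  obtain ⟨ε, rfl⟩ : ∃ ε, ε₀ = 4 * ε := ⟨ε₀ / 4, by ring⟩
  have hε : 0 < ε := by linarith
  have h4 : 0 < ε' / 4 := by positivity
  obtain ⟨R, hR, eR⟩ := rad hRAD T h4
  obtain ⟨A, hA⟩ := exists_nat_ge (16 * R / ε)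
  obtain ⟨N, m₀, eN⟩ := hT1 A _ h4
  obtain ⟨B, m₁, hB, eB⟩ := hG A _ h4
  have hB' : (1 : ℝ) ≤ B := by exact_mod_cast hB
  obtain ⟨CF, cF, hcF, eF⟩ := flat_prob hFP hPC hE hCt hFL
  have hK : 0 < 7 * (25 * R + 2) := by positivity
  obtain ⟨σ, hσ, hσ1, eσ⟩ := small hK (η := ε / (64 * B)) (by positivity) one_pos
  obtain ⟨ρ, hρ, hρ1, eρ⟩ := L.om_small (R := R + 1) (ε := σ / 10) (by positivity) (by positivity)
  obtain ⟨κ, hκ, hκ1, eκ⟩ := ratio CF hcF (ε := ε' / (8 * (N + 1))) (by positivity)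
  obtain ⟨r, hr, hr1, hr2⟩ : ∃ r : ℝ, 0 < r ∧ r ≤ 1 ∧ r ≤ κ * ρ / 8 :=
    ⟨min 1 (κ * ρ / 8), by positivity, min_le_left _ _, min_le_right _ _⟩
  obtain ⟨s₀, hs₀, hs₁, es⟩ := small hK (η := r / 2) (a := σ / 10) (by positivity) (by positivity)
  obtain ⟨h₀, hh₀, eL⟩ := hLR R (σ / 10) (by positivity)
  refine ⟨s₀ ^ 2 / 4, by positivity, ?_⟩
  filter_upwards [eR, self_mem_nhdsWithin, ev hh₀, ev' 8 hε, ev' (160 * B) hε, ev' (8 * m₀) hε,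
    ev' (8 * m₁) hε, ev' 2 hr, ev' 4 hρ, ev' (2 * R) one_pos] with δ eR hδ d1 d2 d3 d4 d5 d6 d7 d8
  have hδ : 0 < δ := hδ
  obtain ⟨h, rfl⟩ : ∃ h, δ = 2 * h := ⟨δ / 2, by ring⟩
  have hh : 0 < h := by linarith
  have e2 : 2 * h / 2 = h := by ring
  -- the integer parameters
  obtain ⟨m, hm1, hm2⟩ : ∃ m : ℤ, 8 * h * m ≤ ε ∧ ε / 16 ≤ h * m := by
    refine ⟨⌊ε / (8 * h)⌋, (le_div_iff₀' (by positivity)).1 (Int.floor_le _), ?_⟩
    have := (div_lt_iff₀' (by positivity : 0 < 8 * h)).1 (Int.lt_floor_add_one (ε / (8 * h)))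
    linarith
  have ceil : ∀ x : ℝ, ∃ n : ℤ, x ≤ h * n ∧ h * n ≤ x + h := fun x => by
    refine ⟨⌈x / h⌉, (div_le_iff₀' hh).1 (Int.le_ceil _), ?_⟩
    have := (lt_div_iff₀' hh).1 (sub_lt_iff_lt_add.2 (Int.ceil_lt_add_one (x / h)))
    linarith
  have cmp : ∀ a b : ℤ, h * a ≤ h * b → a ≤ b := fun a b hab => by
    exact_mod_cast le_of_mul_le_mul_left hab hh
  obtain ⟨rG, g1, g2⟩ := ceil (ε / (64 * B) + 4 * h)
  obtain ⟨r', f1, f2⟩ := ceil (r + 2 * h)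
  obtain ⟨ρ', p1, p2⟩ := ceil (ρ / 2 - 2 * h)
  have hBε : B * (ε / (64 * B)) = ε / 64 := by field_simp
  have hq : 0 < ε / (64 * B) := by positivity
  have hrG0 : 0 ≤ rG := cmp _ _ (by push_cast; linarith)
  have hBr : h * (B * rG) ≤ ε / 32 := by nlinarith
  have hBm : B * rG < m := by
    have : h * (B * rG) < h * m := by linarith
    exact_mod_cast lt_of_mul_lt_mul_left this hh.le
  have hrm : rG < m := lt_of_le_of_lt (by nlinarith) hBm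
  have hr'1 : 1 ≤ r' := cmp _ _ (by push_cast; linarith)
  have hκρ : κ * ρ ≤ ρ := by nlinarith
  have hrρ : r' ≤ ρ' := cmp _ _ (by linarith)
  have hρ'0 : (0 : ℝ) < ρ' := by exact_mod_cast (by omega : 0 < ρ')
  have hrat : CF * ((r' : ℝ) / ρ') ^ cF ≤ ε' / (8 * (N + 1)) := by
    refine eκ _ (div_pos (by exact_mod_cast (by omega : 0 < r')) hρ'0) ((div_le_iff₀ hρ'0).2 ?_)
    refine le_of_mul_le_mul_left ?_ hh
    nlinarith
  have hM : R ≤ h * ((A * m : ℤ) : ℝ) := by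
    have := (div_le_iff₀ hε).1 hA
    push_cast
    nlinarith [(Nat.cast_nonneg A : (0 : ℝ) ≤ A)]
  have hsub : {ω | Cv (2 * h) ω ∈ OscSet ℂ T (s₀ ^ 2 / 4) (4 * ε)} ⊆
      {ω | ∃ t ≤ T, R < ‖Cv (2 * h) ω t‖} ∪ ({ω | Steps (fp ω) (A * m) m N} ∪
      ({ω | Gate (fp ω) (A * m) m rG} ∪ ⋃ i ∈ Finset.range N,
        {ω | Fl h s₀ σ r 1 r' ρ' (fp ω) (sto (pt h (fp ω)) ε i)} ∪
        {ω | Fl h s₀ σ r (-1) r' ρ' (fp ω) (sto (pt h (fp ω)) ε i)})) := by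
    rintro ω ⟨s, t, h1, h2, h3, h5⟩
    refine or_iff_not_imp_left.2 fun hn => ?_
    simp only [mem_ofPred_eq, not_exists, not_and, not_lt] at hn
    have hcv : ∀ u, Cv (2 * h) ω u = eta (2 * h) ω (tau (2 * h) ω u) := fun u => rfl
    set φ := tau (2 * h) ω
    have hb : ∀ x ≤ φ t, ‖eta (2 * h) ω x‖ ≤ R := fun x hx => by
      have := hn (φ.symm x) ((φ.symm_apply_le.2 hx).trans h2)
      rwa [hcv, φ.apply_symm_apply] at this
    have hag := (hBAS.2.2.1 ⌈1 / (2 * h) ^ 2⌉₊ ω ⌊φ t⌋₊ (Or.inl fun j hj => nm_zero_le hh (R := R) (by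
      have := hb j (le_trans (by exact_mod_cast hj) (Nat.floor_le zero_le))
      rwa [eta, e2, pc_nat] at this) (by
      have a1 := (div_le_iff₀ (by positivity)).1 (Nat.le_ceil (1 / (2 * h) ^ 2))
      push_cast
      refine le_of_mul_le_mul_left ?_ (by positivity : 0 < 4 * h)
      nlinarith))).1
    have heq : ∀ x ≤ φ t, eta (2 * h) ω x = pc h (fp ω) x := fun x hx => by
      rw [eta, e2]
      exact pc_congr hag (hx.trans (by exact_mod_cast (Nat.lt_floor_add_one (φ t)).le))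
    have hst : φ s ≤ φ t := φ.monotone h1
    have hct : ∀ u ≤ t, L.ct (pc h (fp ω)) (φ u) = 2 * u := fun u hu => by
      rw [← ((hCAP _ ω hδ).2.2 u).2.2, L.ct, L.ct,
        hull_congr fun x hx => heq x (hx.trans (φ.monotone hu))]
    have hS : L.Simple (pc h (fp ω)) := hE _ (hPC h _ hh (hFP ω)).1 (hPC h _ hh (hFP ω)).2
    rcases det hC hL hW hF hT hCt hH hh (hFP ω) hS N hR hM (by omega) (ε := ε) (by linarith) g1 hrm
      hσ hσ1 eσ hρ hρ1 eρ hs₀ hs₁ hr1 es (by linarith) f1 hrρ (by linarith)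
      (fun k hk => eL h _ k hh (by linarith) (hFP ω) hS hk) hst
      (fun x hx => heq x hx ▸ hb x hx) (by rw [hct t le_rfl, hct s h1]; linarith)
      (by rw [← heq _ le_rfl, ← heq _ hst, ← hcv, ← hcv, ← dist_eq_norm]; linarith)
      with h6 | h6 | ⟨i, hi, h6⟩
    · exact Or.inl h6
    · exact Or.inr (Or.inl h6)
    · exact Or.inr (Or.inr (mem_iUnion₂.2 ⟨i, Finset.mem_range.2 hi, h6⟩))
  rw [crit_eq]
  refine ENNReal.ofReal_le_ofReal ((Pr_mono hsub).trans ?_)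
  refine (Pr_union_le _ _ _).trans ((add_le_add eR ((Pr_union_le _ _ _).trans (add_le_add
    (eN m (cmp _ _ (by linarith))) ((Pr_union_le _ _ _).trans (add_le_add
      (eB m rG (cmp _ _ (by linarith)) hrG0 hBm.le) ((Pr_biUnion_le _ _ _).trans
        (Finset.sum_le_card_nsmul _ _ (ε' / (4 * (N + 1))) fun i _ => ?_))))))).trans ?_)
  · refine (Pr_union_le _ _ _).trans ((add_le_add ((eF _ _ _ _ _ _ _ _ _ hh hr'1 hrρ).trans hrat)
      ((eF _ _ _ _ _ _ _ _ _ hh hr'1 hrρ).trans hrat)).trans (le_of_eq ?_))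
    field_simp; ring
  · rw [Finset.card_range, nsmul_eq_mul]
    have : N * (ε' / (4 * (N + 1))) ≤ ε' / 4 := by
      rw [← mul_div_assoc, div_le_div_iff₀ (by positivity) (by positivity)]
      nlinarith
    linarith

theorem tight_dv (hCAP : S_CAP) (hRAD : S_RAD) (hCt : L.S_Cont)
    (H : TightOsc crit (𝓝[>] (0 : ℝ)) Cv) : TightOsc crit (𝓝[>] (0 : ℝ)) Dv := by
  intro T ε ε' hε hε'
  obtain ⟨R, hR, eR⟩ := rad hRAD T (half_pos hε')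
  obtain ⟨ρ, hρ, hρ1, eρ⟩ := L.om_small (ε := ε / 13) hR (by positivity)
  obtain ⟨θ, hθ, eθ⟩ := H T ρ _ hρ (half_pos hε')
  refine ⟨θ, hθ, ?_⟩
  filter_upwards [eR, eθ, self_mem_nhdsWithin] with δ eR eθ hδ
  rw [crit_eq, ENNReal.ofReal_le_ofReal_iff (half_pos hε').le] at eθ
  have hsub : {ω | Dv δ ω ∈ OscSet ℝ T θ ε} ⊆
      {ω | ∃ t ≤ T, R < ‖Cv δ ω t‖} ∪ {ω | Cv δ ω ∈ OscSet ℂ T θ ρ} := by
    rintro ω ⟨s, t, h1, h2, h3, h4⟩
    by_contra hn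
    simp only [mem_union, mem_ofPred_eq, OscSet, not_or, not_exists, not_and, not_lt] at hn
    obtain ⟨-, h5, h6⟩ := hCAP δ ω hδ
    have h7 := (hCt.1 _ h5.toSimple).2.2.2.2.2.2.2.2 s t R ρ h1 (fun u hu => hn.1 u (hu.trans h2))
      hρ hρ1 fun u hu => by
        rw [← dist_eq_norm]
        exact hn.2 s u hu.1 (hu.2.trans h2) 
          (lt_of_le_of_lt (sub_le_sub_right (NNReal.coe_le_coe.2 hu.2) _) h3)
    rw [(h6 t).1, (h6 s).1, Real.dist_eq] at h4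
    linarith
  rw [crit_eq]
  exact ENNReal.ofReal_le_ofReal (((Pr_mono hsub).trans (Pr_union_le _ _ _)).trans (by linarith))

theorem t_TIGHT (hFP : S_FP) (hPC : S_PC) (hCAP : S_CAP) (hBAS : S_BAS) (hRAD : S_RAD)
    (hT1 : S_T1) (hG : S_GATE) (hFL : S_FLAT) (hLR : S_LR) (hC : S_CONT) (hE : L.S_Exist)
    (hL : L.S_L1) (hW : L.S_Wg) (hF : L.S_Wf) (hT : L.S_Tip) (hCt : L.S_Cont) (hH : L.S_Hgt) :
    S_TIGHT :=
  have H := tight_cv hFP hPC hCAP hBAS hRAD hT1 hG hFL hLR hC hE hL hW hF hT hCt hH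
  ⟨H, tight_dv hCAP hRAD hCt H⟩

end Pool.Agent.P.MP_6c8efb_pr.SLE.TA
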