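import Pool.Agent.P.MP_6c8efb_pr.SLE.TStop

/-! A small set close to one side only is unlikely to be visited. -/

open Set Filter Function

namespace Pool.Agent.P.MP_6c8efb_pr.SLE

/-- the vertex of the lattice close to a point of the fine lattice -/
def hv (z : V) : V := (z.1 / 2, z.2 / 2)

theorem nm_hv (z : V) (c : D) : (nm z (fv c) ≤ 2 * nm (hv z) c.1 + 2 ∧
    2 * nm (hv z) c.1 ≤ nm z (fv c) + 2) ∧ nm z (fv c) ≤ 2 * nm (hv z) (fd c) + 4 ∧
    2 * nm (hv z) (fd c) ≤ nm z (fv c) + 4 := by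
  obtain ⟨⟨a, b⟩, d⟩ := c
  rcases cases4 d with rfl | rfl | rfl | rfl <;> simp [fv, hv, fd, nm, abs_eq_max_neg] <;> omega

theorem fc_mem_Bx {z v : V} {ρ : ℤ} (h1 : nm z v ≤ ρ) (h2 : 1 ≤ v.2) (d : Fin 4) :
    fc v d ∈ Bx z (ρ + 1) := by
  rcases cases4 d with rfl | rfl | rfl | rfl <;>
    simp only [Bx, nm, abs_eq_max_neg, mem_ofPred_eq, fc0, fc1, fc2, fc3] at h1 ⊢ <;> omega

theorem nm_fc (z v : V) (d : Fin 4) : nm z v ≤ nm z (fc v d) + 1 := by
  rcases cases4 d with rfl | rfl | rfl | rfl <;>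
    simp only [nm, abs_eq_max_neg, fc0, fc1, fc2, fc3] <;> omega

theorem Bx_mono (z : V) {r r' : ℤ} (h : r ≤ r') : Bx z r ⊆ Bx z r' :=
  fun _ b => ⟨b.1.trans h, b.2⟩

/-- the last passage at a given distance -/
theorem last_level {q : ℕ → V} (hq : FP q) (z : V) (ρ : ℤ) {k j : ℕ} (hj : k ≤ j)
    (h : nm z (q j) ≤ ρ) : ∃ i, k ≤ i ∧ i ≤ j ∧ (i = k ∨ nm z (q i) = ρ) ∧
      ∀ l, i ≤ l → l ≤ j → nm z (q l) ≤ ρ := by
  induction j, hj using Nat.le_induction with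
  | base => exact ⟨k, le_rfl, le_rfl, Or.inl rfl, fun l a b => by rwa [le_antisymm b a]⟩
  | succ j hj ih =>
    by_cases b : nm z (q j) ≤ ρ
    · obtain ⟨i, a1, a2, a3, a4⟩ := ih b
      refine ⟨i, a1, by omega, a3, fun l b1 b2 => ?_⟩
      rcases b2.eq_or_lt with rfl | b2
      exacts [h, a4 l b1 (by omega)]
    · obtain ⟨d, hd⟩ := hq.stp j
      have := abs_le.1 (nm_lip' z (q j) d)
      rw [← hd] at this
      exact ⟨j + 1, by omega, le_rfl, Or.inr (by omega), fun l a b => by rwa [le_antisymm b a]⟩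

theorem cc_below {ω : Cfg} (hq : FP (fp ω)) {k : ℕ} {z : V} {ρ x : ℤ}
    (h : ((2 * x, 1) : V) ∈ Bx z ρ) : CC (fp ω) k (Bx z (ρ + 1)) (2 * x, 1) (2 * x, 0) := by
  have := cc_one (q := fp ω) (k := k) (S := Bx z (ρ + 1)) (v := (2 * x, 1)) (d := 0)
    (by simp only [Bx, nm, abs_eq_max_neg, mem_ofPred_eq, fc0] at h ⊢; omega)
    (Bx_mono z (by omega) h) (not_trace_axis hq k x)
  exact this.symm'

/-- along a later piece of the path which sees no old cell on the left, the open edges are new -/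
theorem open_arm {ω : Cfg} (hq : FP (fp ω)) {k i j : ℕ} (hij : i ≤ j) {z c₀ : V} {ρ : ℤ}
    (hc : ∀ l, i ≤ l → l ≤ j → ∀ d, fc (fp ω (l + 1)) d ∈ Bx z ρ ∧
      CC (fp ω) (k + 1) (Bx z (ρ + 1)) c₀ (fc (fp ω (l + 1)) d))
    (h : ∀ c, CC (fp ω) (k + 1) (Bx z (ρ + 1)) c₀ c → c ∉ Lft (fp ω) (k + 1) ∧ (c.2 = 0 → 0 ≤ c.1)) :
    Conn (shut (expl ω k) ω) univ (path ω i).1 (path ω j).1 := by
  induction j, hij using Nat.le_induction with
  | base => exact Conn.rfl'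
  | succ j hj ih =>
    have h1 := ih fun l a b => hc l a (by omega)
    rw [path_succ]
    by_cases b : bc ω (ed (path ω j)) = true
    swap
    · rw [step_closed b]; exact h1
    rw [step_open b]
    refine h1.snoc trivial trivial ?_
    obtain ⟨h2, h3⟩ := hc j hj (by omega) ((path ω j).2 + 1)
    rw [fp, ← ce_ed] at h2 h3
    have h4 : ed (path ω j) ∉ expl ω k := fun b' => (h _ h3).1 (ce_mem_Lft b' b)
    show shut _ _ (ed (path ω j)) = true
    generalize ed (path ω j) = e at *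
    obtain ⟨⟨x, y⟩, t⟩ := e
    simp only [shut, h4, not_false_eq_true, decide_true, Bool.and_true]
    unfold bc at b
    split_ifs at b with c1 c2
    · obtain ⟨rfl, rfl⟩ : y = 0 ∧ t = true := c2
      have e : ce ((x, 0), true) = (2 * x, 1) := by simp [ce]; omega
      rw [e] at h2 h3
      have := (h _ (h3.trans' (cc_below hq h2))).2 rfl
      simp at b this
      omega
    · exact b

/-- the dual statement -/
theorem dual_arm {ω : Cfg} (hq : FP (fp ω)) {k i j : ℕ} (hij : i ≤ j) {z c₀ : V} {ρ : ℤ}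
    (hc : ∀ l, i ≤ l → l ≤ j → ∀ d, fc (fp ω (l + 1)) d ∈ Bx z ρ ∧
      CC (fp ω) (k + 1) (Bx z (ρ + 1)) c₀ (fc (fp ω (l + 1)) d))
    (h : ∀ c, CC (fp ω) (k + 1) (Bx z (ρ + 1)) c₀ c → c ∉ Rgt (fp ω) (k + 1) ∧ (c.2 = 0 → c.1 < 0)) :
    Conn (du (opn (expl ω k) ω)) univ (fd (path ω i)) (fd (path ω j)) := by
  induction j, hij using Nat.le_induction with
  | base => exact Conn.rfl'
  | succ j hj ih =>
    have h1 := ih fun l a b => hc l a (by omega)
    have w := fun x hx => west' (x := x) hq hx j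
    rw [path_succ] at w ⊢
    by_cases b : bc ω (ed (path ω j)) = true
    · rw [step_open b, fd_ro]; exact h1
    rw [step_closed b] at w ⊢
    rw [show fd (rot (path ω j)) = fd (path ω j) + u ((path ω j).2 + 1) from fc_succ _ _]
    refine h1.snoc trivial trivial ?_
    obtain ⟨h2, h3⟩ := hc j hj (by omega) ((path ω j).2 + 1)
    rw [fp, ← ce_ed] at h2 h3
    have h4 : ed (path ω j) ∉ expl ω k := fun b' => (h _ h3).1 (ce_mem_Rgt b' b)
    have h5 := path_pos hq j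
    simp only [du, fd, dl_fc, opn]
    show (!(ω (ed (path ω j)) || decide (ed (path ω j) ∈ expl ω k))) = true
    simp only [h4, decide_false, Bool.or_false, Bool.not_eq_eq_eq_not, Bool.not_true]
    generalize path ω j = c at *
    obtain ⟨⟨x, y⟩, d⟩ := c
    unfold bc at b
    split_ifs at b with c1 c2
    · have := (h _ h3).2
      rcases cases4 d with rfl | rfl | rfl | rfl <;> simp [ed, ce] at c1 h5 this <;> try omega
      obtain rfl : y = 0 := by omega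
      exact (w x (by omega) rfl).elim
    · generalize ed ((x, y), d) = e at *
      obtain ⟨⟨x, y⟩, t⟩ := e
      obtain ⟨rfl, rfl⟩ : y = 0 ∧ t = true := c2
      have e : ce ((x, 0), true) = (2 * x, 1) := by simp [ce]; omega
      rw [e] at h2 h3
      have := (h _ (h3.trans' (cc_below hq h2))).2 rfl
      simp at b this
      omega
    · simpa using b

theorem flat_det {ω : Cfg} (hq : FP (fp ω)) {k j : ℕ} {z : V} {Z : Set V} {r ρ : ℤ} (hr : 1 ≤ r)
    (hρ : 12 * r ≤ ρ) (hZ : Z ⊆ Bx z r)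
    (h : NoL (fp ω) (k + 1) z Z ρ (Ici 0) ∨ NoR (fp ω) (k + 1) z Z ρ (Iio 0)) (hj : k + 1 ≤ j)
    {d : Fin 4} (hd : fc (fp ω j) d ∈ Z) : ω ∈ Fresh (expl ω k) (hv z) (3 * r) ((ρ - 6) / 2) := by
  have h1 := nm_fc z (fp ω j) d
  have h2 := (hZ hd).1
  obtain ⟨i, a1, a2, a3, a4⟩ := last_level hq z (ρ - 2) hj (by omega)
  have hc : ∀ l, i ≤ l → l ≤ j → ∀ d', fc (fp ω l) d' ∈ Bx z (ρ - 1) ∧
      CC (fp ω) (k + 1) (Bx z (ρ - 1 + 1)) (fc (fp ω j) d) (fc (fp ω l) d') := fun l b1 b2 d' => by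
    have m : ∀ l, i ≤ l → l ≤ j → ∀ d', fc (fp ω l) d' ∈ Bx z (ρ - 1) := fun l b1 b2 d' =>
      Bx_mono z (by omega) (fc_mem_Bx (a4 l b1 b2) (hq.pos l (by omega)) d')
    exact ⟨m l b1 b2 d', (cc_along hq (by omega) b2
      (fun l' c1 c2 d => Bx_mono z (by omega) (m l' (by omega) c2 d)) d' d).symm'⟩
  have ne : i ≠ k + 1 := by
    rintro rfl
    obtain ⟨e, he⟩ := hq.stp k
    have c1 := (hc _ le_rfl a2 (e + 2)).2
    have c2 := (hc _ le_rfl a2 (e - 1)).2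
    rw [sub_add_cancel, he] at c1 c2
    rw [fc_step'] at c1
    rw [fc_step] at c2
    rcases h with h | h
    · exact (h _ hd _ c1).1 ⟨k, by omega, e, he, rfl⟩
    · exact (h _ hd _ c2).1 ⟨k, by omega, e, he, rfl⟩
  obtain ⟨i, rfl⟩ : ∃ i', i = i' + 1 := ⟨i - 1, by omega⟩
  obtain ⟨j, rfl⟩ : ∃ j', j = j' + 1 := ⟨j - 1, by omega⟩
  have a5 := a3.resolve_left ne
  have n1 := nm_hv z (path ω i)
  have n2 := nm_hv z (path ω j)
  simp only [fp] at a5 h1 h2
  rcases h with h | h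
  · exact Or.inl ⟨_, _, ⟨by omega, by omega⟩, (open_arm hq (k := k) (i := i) (j := j) (by omega)
      (fun l b1 b2 => hc (l + 1) (by omega) (by omega))
      fun c b => h _ hd c (by rwa [sub_add_cancel] at b)).symm'⟩
  · exact Or.inr ⟨_, _, ⟨by omega, by omega⟩, (dual_arm hq (k := k) (i := i) (j := j) (by omega)
      (fun l b1 b2 => hc (l + 1) (by omega) (by omega))
      fun c b => h _ hd c (by rwa [sub_add_cancel] at b)).symm'⟩

/-- the decay of the arm probability, with room -/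
theorem fresh_decay : ∃ C c : ℝ, 0 < c ∧ ∀ (A : Set Cfg) (r ρ : ℤ), 1 ≤ r → r ≤ ρ →
    (∀ κ : ℝ, 0 ≤ κ → 12 * r ≤ ρ → (∀ z, 2 * Q (Arm1 z (3 * r) ((ρ - 6) / 2)) ≤ κ) → Q A ≤ κ) →
    Q A ≤ C * ((r : ℝ) / ρ) ^ c := by
  obtain ⟨c, C, c0, C0, h⟩ := ann_decay
  refine ⟨(2 * C + 1) * 15 ^ c, c, c0, fun A r ρ hr hρ hA => ?_⟩
  have r0 : (0 : ℝ) < r := by exact_mod_cast (by omega : 0 < r)
  have ρ0 : (0 : ℝ) < ρ := by exact_mod_cast (by omega : 0 < ρ)
  rw [mul_assoc, ← Real.mul_rpow (by norm_num) (by positivity)]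
  have p0 : 0 ≤ (15 * ((r : ℝ) / ρ)) ^ c := by positivity
  by_cases b : 12 * r ≤ ρ
  · refine hA _ (by positivity) b fun z => ?_
    have h1 := h z (3 * r) ((ρ - 6) / 2) (by omega) (by omega)
    have h2 : ρ ≤ 5 * ((ρ - 6) / 2) := by omega
    have h3 : (ρ : ℝ) ≤ 5 * (((ρ - 6) / 2 : ℤ) : ℝ) := by exact_mod_cast h2
    have h4 : (((3 * r : ℤ) : ℝ) / (((ρ - 6) / 2 : ℤ) : ℝ)) ^ c ≤ (15 * ((r : ℝ) / ρ)) ^ c := by
      refine Real.rpow_le_rpow (div_nonneg (by push_cast; linarith) (by linarith)) ?_ c0.le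
      rw [mul_div_assoc', div_le_div_iff₀ (by linarith) ρ0]
      push_cast
      nlinarith
    nlinarith [mul_le_mul_of_nonneg_left h4 C0.le]
  · have h1 : (1 : ℝ) ≤ (15 * ((r : ℝ) / ρ)) ^ c := by
      refine Real.one_le_rpow ?_ c0.le
      have : (ρ : ℝ) < 12 * r := by exact_mod_cast (by omega : ρ < 12 * r)
      rw [mul_div_assoc', le_div_iff₀ ρ0]
      linarith
    have := Pr_le_one (fun _ => hf) A
    simp only [Q]
    nlinarith

theorem t_FLAT (hFP : S_FP) : S_FLAT := by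
  obtain ⟨C, c, c0, h⟩ := fresh_decay
  refine ⟨C, c, c0, fun S z Z r ρ hS hz hZ hu hr hρ => h _ r ρ hr hρ fun κ k0 b hκ => ?_⟩
  refine le_trans (Pr_mono ?_) (Q_stop (S := fun k => S (k + 1))
    (B := fun k ω => Fresh (expl ω k) (hv (z (k + 1) ω)) (3 * r) ((ρ - 6) / 2)) k0
    (fun k ω ω' a => hS.path a) (fun k ω ω' a => by rw [expl_congr a, hz.path a])
    (fun ω k k' a a' => by have := hu ω _ _ a a'; omega) fun k ω _ => ?_)
  · rintro ω ⟨k, a1, a2, a3, a4, j, a5, d, a6⟩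
    obtain ⟨k, rfl⟩ : ∃ k', k = k' + 1 := ⟨k - 1, by omega⟩
    exact ⟨k, a1, flat_det (hFP ω) hr b a3 a4 a5 a6⟩
  · obtain ⟨a1, a2, a3⟩ := fresh_facts (expl ω k) (hv (z (k + 1) ω)) (r := 3 * r)
      (R := (ρ - 6) / 2) (by omega)
    exact ⟨a1, a2, a3.trans (hκ _)⟩

end Pool.Agent.P.MP_6c8efb_pr.SLE
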