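import Pool.Agent.P.MP_6c8efb_pr.SLE.TGDefs

/-! Pieces of a sequence, and adaptedness of the links. -/

open Set Function

namespace Pool.Agent.P.MP_6c8efb_pr.SLE.TG

theorem an_le (x : ℕ → V) (l : ℤ) (j : ℕ) : (an x l j).2 ≤ j := by
  induction j with
  | zero => exact le_rfl
  | succ j ih =>
    rw [an]
    split_ifs
    · exact le_rfl
    · omega

theorem an_congr {x x' : ℕ → V} (l : ℤ) {j : ℕ} (h : ∀ i ≤ j, x i = x' i) :
    an x l j = an x' l j := by
  induction j with
  | zero => rfl
  | succ j ih =>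
    have e := ih fun i hi => h i (by omega)
    rw [an, an, ← e, h _ le_rfl, h _ ((an_le x l j).trans (Nat.le_succ j))]

theorem an_lt (x : ℕ → V) {l : ℤ} (hl : 0 < l) (j : ℕ) : nm (x (an x l j).2) (x j) < l := by
  cases j with
  | zero => simpa [an, nm] using hl
  | succ j =>
    rw [an]
    split_ifs with h
    · simpa [nm] using hl
    · exact not_le.1 h

theorem an_mono (x : ℕ → V) (l : ℤ) : Monotone fun j => (an x l j).1 :=
  monotone_nat_of_le_succ fun j => by
    simp only [an]
    split_ifs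
    · exact Nat.le_succ _
    · exact le_rfl

theorem an_eq (x : ℕ → V) (l : ℤ) {i n : ℕ} (h : i ≤ n) (e : (an x l i).1 = (an x l n).1) :
    an x l i = an x l n := by
  induction n, h using Nat.le_induction with
  | base => rfl
  | succ n h ih =>
    have h1 : (an x l i).1 ≤ (an x l n).1 := an_mono x l h
    rw [an] at e ⊢
    split_ifs at e ⊢
    · simp only at e
      omega
    · exact ih e

theorem an_seq (x : ℕ → V) (l : ℤ) (j : ℕ) : ∃ k : ℕ → ℕ, Monotone k ∧
    (∀ i, (an x l j).1 ≤ i → k i = (an x l j).2) ∧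
    ∀ i < (an x l j).1, l ≤ nm (x (k i)) (x (k (i + 1))) := by
  induction j with
  | zero => exact ⟨fun _ => 0, monotone_const, fun _ _ => rfl, fun i hi => absurd hi (by simp [an])⟩
  | succ j ih =>
    obtain ⟨k, h1, h2, h3⟩ := ih
    rw [an]
    split_ifs with h
    swap
    · exact ⟨k, h1, h2, h3⟩
    have h4 := an_le x l j
    refine ⟨fun i => if i ≤ (an x l j).1 then k i else j + 1, monotone_nat_of_le_succ fun i => ?_,
      fun i hi => if_neg (by simp only at hi; omega), fun i hi => ?_⟩
    · split_ifs with a b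
      · exact h1 (Nat.le_succ i)
      · rw [h2 i (by omega)]
        omega
      · omega
      · exact le_rfl
    · simp only at hi ⊢
      rw [if_pos (by omega)]
      split_ifs with b
      · exact h3 i (by omega)
      · rwa [h2 i (by omega)]

theorem s_An : S_An := by
  intro x l hl
  refine ⟨fun x' j h => an_congr l h, an_mono x l, fun i n j h1 h2 h3 => ?_, fun j N hN => ?_⟩
  · have e := an_eq x l h1 (le_antisymm (an_mono x l h1) (h3 ▸ an_mono x l h2))
    have a := an_lt x hl i
    have b := an_lt x hl n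
    rw [← e] at b
    simp only [nm, abs_eq_max_neg] at a b ⊢
    omega
  · obtain ⟨k, h1, h2, h3⟩ := an_seq x l j
    exact ⟨k, h1, (h1 hN).trans ((h2 _ le_rfl).le.trans (an_le x l j)),
      fun i hi => h3 i (hi.trans_le hN)⟩

theorem an_bc {ω ω' : Cfg} {j : ℕ} (h : path ω j = path ω' j)
    (h' : path ω (j + 1) = path ω' (j + 1)) : bc ω (ed (path ω j)) = bc ω' (ed (path ω' j)) := by
  rw [path_succ, path_succ] at h'
  by_cases a : bc ω (ed (path ω j)) = true <;> by_cases b : bc ω' (ed (path ω' j)) = true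
  · rw [a, b]
  · rw [step_open a, step_closed b, h] at h'
    exact absurd (rot_inj h') (opp_ne _)
  · rw [step_closed a, step_open b, h] at h'
    exact absurd (rot_inj h').symm (opp_ne _)
  · rw [Bool.not_eq_true] at a b
    rw [a, b]

theorem s_Adp : S_Adp := by
  rintro l r κ a b s ω ω' - h ⟨h1, i, h2, h3, h4⟩
  have e1 : bl ω s = bl ω' s := funext fun e => by
    refine decide_eq_decide.2 (or_congr_left (exists_congr fun j => and_congr_right fun hj => ?_))
    rw [st, st, an_bc (h j hj.le) (h _ hj), h j hj.le]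
  have e2 : ∀ j ≤ s, xp ω j = xp ω' j := fun j hj => by rw [xp, xp, h j hj]
  have e3 : ∀ i : ℤ, i ≤ s → wl ω κ i = wl ω' κ i := fun i hi => by
    rw [wl, wl, h i.toNat (by omega)]
  have e4 : ∀ i : ℤ, i ≤ s → lab ω l i = lab ω' l i := fun i hi => by
    rw [lab, lab, an_congr l fun j hj => e2 j (by omega)]
  refine ⟨e4 s le_rfl ▸ h1, i, e4 i h3 ▸ h2, h3, ?_⟩
  rwa [← e1, ← e2 s le_rfl, ← e3 s le_rfl, ← e3 i h3]

end Pool.Agent.P.MP_6c8efb_pr.SLE.TG
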