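import Pool.Agent.P.MP_6c8efb_pr.SLE.TGDefs

/-! A finite set around the source of a flow. -/

open Set Function

namespace Pool.Agent.P.MP_6c8efb_pr.SLE.TG

/-- an antisymmetric function of the darts which vanishes on the boundary has total flux zero -/
theorem dec_flux (w : V → Fin 4 → ℤ) (Z : Finset V) (h1 : ∀ v d, w (v + u d) (d + 2) = -w v d)
    (h2 : ∀ v d, v ∈ Z → v + u d ∉ Z → w v d = 0) : ∑ v ∈ Z, ∑ d, w v d = 0 := by
  classical
  rw [← Finset.sum_product' Z Finset.univ w,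
    ← Finset.sum_filter_of_ne (p := fun c : V × Fin 4 => c.1 + u c.2 ∈ Z) fun c hc h => by
      by_contra hn; exact h (h2 _ _ (Finset.mem_product.1 hc).1 hn)]
  refine Finset.sum_involution (fun c _ => (c.1 + u c.2, c.2 + 2)) (fun c _ => ?_)
    (fun c _ _ e => ?_) (fun c hc => ?_) fun c _ => ?_
  · simp [h1]
  · have := congrArg Prod.snd e
    rcases cases4 c.2 with h | h | h | h <;> rw [h] at this <;> simp at this
  · simp only [Finset.mem_filter, Finset.mem_product, Finset.mem_univ, and_true, u_back] at hc ⊢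
    exact hc.symm
  · refine Prod.ext (u_back _ _) ?_
    rcases cases4 c.2 with h | h | h | h <;> simp only [h] <;> rfl

theorem dec_faces {S : Set V} {v : V} {d : Fin 4} (h1 : fc v d ∈ S) (h2 : fc v (d + 1) ∈ S) :
    (edge v d).1 ∈ S ∧ ot (edge v d) ∈ S := by
  obtain ⟨x, y⟩ := v
  rcases cases4 d with rfl | rfl | rfl | rfl <;> simp at h1 h2 ⊢ <;> exact ⟨‹_›, ‹_›⟩

theorem s_Dec : S_Dec := by
  classical
  intro a b y φ τ S W Z ha hφ hZ hy h0 hb
  by_contra hn
  have hc : ∀ m ∈ W, ∀ m' ∈ W, Conn (du τ) S m m' → φ m = φ m' := fun m hm m' hm' h => by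
    by_contra h2; exact hn ⟨m, hm, m', hm', h, h2⟩
  obtain ⟨ψ, p1, p2⟩ : ∃ ψ : V → ℤ, (∀ m ∈ W, ψ m = φ m) ∧
      ∀ m m', Conn (du τ) S m m' → ψ m = ψ m' := by
    refine ⟨fun m => if h : ∃ m' ∈ W, Conn (du τ) S m m' then φ h.choose else 0, fun m hm => ?_,
      fun m m' h => ?_⟩
    · have h : ∃ m' ∈ W, Conn (du τ) S m m' := ⟨m, hm, Conn.rfl'⟩
      simp only [dif_pos h]
      exact (hc m hm _ h.choose_spec.1 h.choose_spec.2).symm
    · by_cases h1 : ∃ n ∈ W, Conn (du τ) S m n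
      · have h2 : ∃ n ∈ W, Conn (du τ) S m' n := by
          obtain ⟨n, n1, n2⟩ := h1; exact ⟨n, n1, h.symm'.trans' n2⟩
        simp only [dif_pos h1, dif_pos h2]
        exact hc _ h1.choose_spec.1 _ h2.choose_spec.1
          (h1.choose_spec.2.symm'.trans' (h.trans' h2.choose_spec.2))
      · have h2 : ¬ ∃ n ∈ W, Conn (du τ) S m' n := fun ⟨n, n1, n2⟩ => h1 ⟨n, n1, h.trans' n2⟩
        simp only [dif_neg h1, dif_neg h2]
  have key := dec_flux (fun v d => sg d * a (edge v d) - (ψ (fc v (d + 1)) - ψ (fc v d)))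
    hZ.toFinset (fun v d => by
      have e1 : d + 2 + 1 = d - 1 := by rcases cases4 d with rfl | rfl | rfl | rfl <;> rfl
      have e2 : sg (d + 2) = -sg d := by rcases cases4 d with rfl | rfl | rfl | rfl <;> rfl
      simp only [edge_back, e1, e2, fc_step, fc_step']; ring) (fun v d h1 h2 => by
      rw [hZ.mem_toFinset] at h1 h2
      rcases hb v d h1 h2 with ⟨b1, b2, b3⟩ | ⟨b1, b2, b3⟩
      · have := hφ v d
        rw [Pi.sub_apply, b1, sub_zero] at this
        simp only [p1 _ b2, p1 _ b3, this, sub_self]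
      · have h3 : Conn (du τ) S (fc v d) (fc v (d + 1)) := by
          rw [fc_succ] at b3 ⊢
          exact Conn.one b2 b3 (by simpa [du, dl_fc] using b1)
        simp only [p2 _ _ h3, h0 _ (dec_faces b2 b3).1 (dec_faces b2 b3).2, mul_zero, sub_self])
  have e : ∀ v, ∑ d, (sg d * a (edge v d) - (ψ (fc v (d + 1)) - ψ (fc v d))) =
      if v = y then 1 else 0 := fun v => by
    rw [← ha v, Fin.sum_univ_four, bd]
    simp only [sg0, sg1, sg2, sg3]
    have e3 : (3 : Fin 4) + 1 = 0 := rfl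
    have e2 : (2 : Fin 4) + 1 = 3 := rfl
    have e1 : (1 : Fin 4) + 1 = 2 := rfl
    have e0 : (0 : Fin 4) + 1 = 1 := rfl
    rw [e0, e1, e2, e3]; ring
  simp only [e, Finset.sum_ite_eq', hZ.mem_toFinset, hy, if_true] at key
  exact one_ne_zero key

end Pool.Agent.P.MP_6c8efb_pr.SLE.TG
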