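import Pool.Agent.P.MP_6c8efb_pr.SLE.TGDefs

/-! The probability of a gate. -/

open Set Function

namespace Pool.Agent.P.MP_6c8efb_pr.SLE.TG

theorem fin_stop (hA : S_Adp) {l r r' : ℤ} {ε : ℝ} (hl : 0 < l) (hr : r ≤ l) (h0 : 0 ≤ ε)
    (h : ∀ z, Q (Arm1 z r l) ≤ ε) (κ : Bool) (a b : ℤ) :
    Q {ω | ∃ s, (Hit l r' κ a b s ω ∧ ∀ s' < s, ¬ Hit l r' κ a b s' ω) ∧
      ω ∈ Fresh (expl ω s) (path ω s).1 r l} ≤ 2 * ε := by
  have key : ∀ (s : ℕ) (ω ω' : Cfg), (∀ j ≤ s, path ω j = path ω' j) →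
      (Hit l r' κ a b s ω ∧ ∀ s' < s, ¬ Hit l r' κ a b s' ω) →
      (Hit l r' κ a b s ω' ∧ ∀ s' < s, ¬ Hit l r' κ a b s' ω') := fun s ω ω' e p =>
    ⟨hA _ _ _ _ _ _ _ _ hl e p.1, fun s' hs q => p.2 s' hs
      (hA _ _ _ _ _ _ _ _ hl (fun j hj => (e j (by omega)).symm) q)⟩
  refine Q_stop (S := fun s ω => Hit l r' κ a b s ω ∧ ∀ s' < s, ¬ Hit l r' κ a b s' ω)
    (B := fun s ω => Fresh (expl ω s) (path ω s).1 r l) (by linarith)
    (fun s ω ω' e => propext ⟨key s ω ω' e, key s ω' ω fun j hj => (e j hj).symm⟩)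
    (fun s ω ω' e => by rw [expl_congr e, e s le_rfl])
    (fun ω s s' p q => ?_) fun s ω _ => ?_
  · rcases lt_trichotomy s s' with c | c | c
    · exact absurd p.1 (q.2 s c)
    · exact c
    · exact absurd q.1 (p.2 s' c)
  · obtain ⟨h1, h2, h3⟩ := fresh_facts (expl ω s) (path ω s).1 hr
    exact ⟨h1, h2, h3.trans (by linarith [h (path ω s).1])⟩

theorem s_Fin : S_Fin := by
  intro hFP hT hA hD A ε hε
  obtain ⟨N, m₁, hN⟩ := hT (20 * (A + 1)) (ε / 2) (by linarith)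
  let F : Finset (Bool × ℤ × ℤ) :=
    Finset.univ ×ˢ Finset.Ico (-(20 * ((A : ℤ) + 1)) - 5) N ×ˢ Finset.Ico (0 : ℤ) N
  have hM : (0 : ℝ) < 4 * (F.card + 1) := by positivity
  obtain ⟨K, hK1, hK⟩ := ann_small (div_pos hε hM)
  refine ⟨40 * K + 40, 10 * (|m₁| + 20 * K + 40), by omega, fun m r hm hr hB => ?_⟩
  obtain ⟨l, hl⟩ : ∃ l, l = m / 10 := ⟨_, rfl⟩
  have a0 := abs_nonneg m₁
  have a1 := le_abs_self m₁
  have l1 : 10 * l ≤ m := by omega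
  have l2 : m ≤ 20 * l := by omega
  have l3 : |m₁| + 20 * K + 40 ≤ l := by omega
  have l0 : 0 < l := by omega
  have k0 : (0 : ℤ) ≤ K * r := mul_nonneg (by omega) hr
  have l4 : 2 * (K * r) + 2 * r ≤ l := by nlinarith
  have l5 : (K : ℤ) * (r + 10) ≤ l := by nlinarith
  have hA0 : (0 : ℤ) ≤ A := by omega
  have r1 : ((A : ℤ) + 1) * m ≤ 20 * ((A : ℤ) + 1) * l := by nlinarith
  have r2 : ((A : ℤ) + 1) * m / l ≤ 20 * ((A : ℤ) + 1) := Int.ediv_le_of_le_mul l0 r1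
  let Ev : Bool × ℤ × ℤ → Set Cfg := fun p => {ω | ∃ s, (Hit l (2 * r + 12) p.1 p.2.1 p.2.2 s ω ∧
    ∀ s' < s, ¬ Hit l (2 * r + 12) p.1 p.2.1 p.2.2 s' ω) ∧
      ω ∈ Fresh (expl ω s) (path ω s).1 (r + 10) l}
  have hsub : {ω | Gate (fp ω) (A * m) m r} ⊆
      {ω | Steps (fp ω) ((20 * (A + 1) : ℕ) * l) l N} ∪ {ω | ∃ p ∈ F, ω ∈ Ev p} := by
    rintro ω ⟨k, t, z, d, g1, g2, g3, g4⟩
    rcases hD ω (((A : ℤ) + 1) * m) l r N (hFP ω) hr (by omega) (by nlinarith)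
      ⟨k, t, z, d, g1, fun j hj => (g2 j hj).trans (by nlinarith), l1.trans g3, g4⟩ with
      ⟨c, c1, c2, c3⟩ | ⟨κ, a, b, s, c1, c2, c3, c4, c5, c6, c7⟩
    · exact Or.inl ⟨c, c1, fun j hj => (c2 j hj).trans (by push_cast; exact r1), c3⟩
    · refine Or.inr ⟨(κ, a, b), ?_, s, ⟨c5, c6⟩, c7⟩
      simp only [F, Finset.mem_product, Finset.mem_univ, Finset.mem_Ico, true_and]
      omega
  have h1 := hN l (by omega)
  have h2 : ∀ p ∈ F, Q (Ev p) ≤ 2 * (ε / (4 * (F.card + 1))) := fun p _ =>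
    fin_stop hA l0 (by omega) (div_pos hε hM).le (fun z => hK z _ _ (by omega) l5) _ _ _
  have h3 := (Pr_exists_le (fun _ => hf) F Ev).trans (Finset.sum_le_card_nsmul F _ _ h2)
  have h4 : F.card • (2 * (ε / (4 * (F.card + 1)))) ≤ ε / 2 := by
    rw [nsmul_eq_mul, ← mul_div_assoc, ← mul_div_assoc, div_le_div_iff₀ hM two_pos]
    nlinarith
  refine (Pr_mono hsub).trans ((Pr_union_le _ _ _).trans ?_)
  simp only [Q] at h1
  linarith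

end Pool.Agent.P.MP_6c8efb_pr.SLE.TG
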