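import Pool.Agent.P.MP_6c8efb_pr.SLE.TGDefs

/-! The gate in terms of vertices, and fresh arms along a piece of the path. -/

open Set Function

namespace Pool.Agent.P.MP_6c8efb_pr.SLE.TG

theorem gt_around {q : ℕ → V} {k : ℕ} {S : Set V} {v : V} (hv : ∀ i, v ≠ q i)
    (hS : ∀ d, fc v d ∈ S) (d d' : Fin 4) : CC q k S (fc v d) (fc v d') := by
  have a : ∀ d, CC q k S (fc v d) (fc v (d + 1)) := fun d => by
    refine cc_one (hS _) (hS _) fun b => ?_
    obtain ⟨j, -, d', h1, h2⟩ := trace_iff.1 b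
    rcases ed_eq (c := (q j, d')) (c' := (v, d)) h2 with h3 | h3
    · exact hv j (congrArg Prod.fst h3)
    · exact hv (j + 1) ((congrArg Prod.fst h3).trans h1.symm)
  have b : ∀ d, CC q k S (fc v 0) (fc v d) := fun d => by
    rcases cases4 d with rfl | rfl | rfl | rfl
    · exact Conn.rfl'
    · exact a 0
    · exact (a 0).trans' (a 1)
    · exact ((a 0).trans' (a 1)).trans' (a 2)
  exact (b d).symm'.trans' (b d')

theorem gt_cell {z v : V} {r : ℤ} (h1 : r + 1 < nm z v) (h2 : 1 ≤ v.2) (d : Fin 4) :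
    fc v d ∈ {y : V | r < nm z y ∧ 0 ≤ y.2} := by
  simp only [nm, abs_eq_max_neg] at h1
  rcases cases4 d with rfl | rfl | rfl | rfl <;> simp [nm, abs_eq_max_neg] <;> omega

theorem s_Gt : S_Gt := by
  rintro ω R m r hq hR hr hm ⟨k, t, z, d, hk, h1, h2, h3, h4⟩
  obtain ⟨t', d', a1, a2, a3, a4⟩ : ∃ t' d', k ≤ t' + 1 ∧ fc (fp ω t) d = fc (xp ω t') d' ∧
      m - 1 ≤ nm z (xp ω t') ∧ ∀ j ≤ t', nm 0 (xp ω j) ≤ R := by
    cases t with
    | succ t' =>
      exact ⟨t', d, hk, rfl, le_trans (by omega) h2, fun j hj => h1 (j + 1) (by omega)⟩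
    | zero =>
      have e : xp ω 0 = (0, 1) := hq.one
      rw [hq.zero] at h2 h3 ⊢
      have b1 : m - 1 ≤ nm z (xp ω 0) := by
        rw [e]
        simp only [nm, abs_eq_max_neg] at h2 ⊢
        omega
      have b2 : ∀ j ≤ 0, nm 0 (xp ω j) ≤ R := fun j hj => by
        rw [Nat.le_zero.1 hj, e]
        simpa [nm] using hR
      rcases cases4 d with rfl | rfl | rfl | rfl
      · simp at h3
      · exact ⟨0, 0, by omega, by simp [e], b1, b2⟩
      · exact ⟨0, 3, by omega, by simp [e], b1, b2⟩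
      · simp at h3
  refine ⟨t', z, a4, a3, h4.subset fun v hv => ?_⟩
  replace hv : Conn (fun _ => true) (Fr ω t' z (r + 1)) (xp ω t') v := hv
  have key := Conn.ind (p := fun v => ∀ e, CC (fp ω) k {y | r < nm z y ∧ 0 ≤ y.2}
    (fc (fp ω t) d) (fc v e)) hv (fun e => by
      rw [a2]
      exact cc_around hq.inj a1
        (gt_cell (v := xp ω t') (by omega) (hq.pos (t' + 1) (by omega))) d' e) ?_
  · exact key 1
  intro a d₁ _ _ ⟨b1, _, b3, b4⟩ _ ih e
  have b5 := ih d₁
  rw [← fc_step a d₁] at b5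
  refine b5.trans' ?_
  by_cases b6 : ∃ i, a + u d₁ = fp ω i
  · obtain ⟨i, b6⟩ := b6
    rw [b6] at b1 b3 b4 ⊢
    cases i with
    | zero => rw [hq.zero] at b1; simp at b1
    | succ i =>
      have : t' ≤ i := not_lt.1 fun hi => b4 i hi rfl
      exact cc_around hq.inj (by omega) (gt_cell b3 b1) _ _
  · exact gt_around (fun i hi => b6 ⟨i, hi⟩) (gt_cell b3 b1) _ _

theorem gt_le {c c' : D} {r : ℤ} (h : nm (fv c) (fv c') ≤ 2 * r) :
    nm c.1 c'.1 ≤ r + 2 ∧ nm c.1 (fd c') ≤ r + 2 := by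
  obtain ⟨⟨a, b⟩, d⟩ := c
  obtain ⟨⟨a', b'⟩, d'⟩ := c'
  rcases cases4 d with rfl | rfl | rfl | rfl <;> rcases cases4 d' with rfl | rfl | rfl | rfl <;>
    simp [fv, fd, nm, abs_le] at h ⊢ <;> omega

theorem gt_ge {c c' : D} {r : ℤ} (h : 2 * r ≤ nm (fv c) (fv c')) :
    r - 2 ≤ nm c.1 c'.1 ∧ r - 2 ≤ nm c.1 (fd c') := by
  obtain ⟨⟨a, b⟩, d⟩ := c
  obtain ⟨⟨a', b'⟩, d'⟩ := c'
  rcases cases4 d with rfl | rfl | rfl | rfl <;> rcases cases4 d' with rfl | rfl | rfl | rfl <;>
    simp [fv, fd, nm, le_abs] at h ⊢ <;> omega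

theorem gt_bc {ω : Cfg} {X : Finset E} {e : E}
    (h : ¬ (e ∈ X ∨ e.1.2 < 0 ∨ (e.1.2 = 0 ∧ e.2 = true))) : e ∉ X ∧ bc ω e = ω e := by
  rw [not_or, not_or] at h
  exact ⟨h.1, by simp only [bc, if_neg h.2.1, if_neg h.2.2]⟩

theorem s_Seg : S_Seg := by
  intro ω κ s j t r ρ hj h1 h2 h
  cases κ with
  | false =>
    refine Or.inl ⟨(path ω j).1, (path ω t).1, ⟨(gt_le h1).1, (gt_ge h2).1⟩, ?_⟩
    clear h2
    induction t, hj using Nat.le_induction with
    | base => exact Conn.rfl'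
    | succ n hn ih =>
      have ih := ih fun l a b => h l a (by omega)
      rw [path_succ]
      by_cases b : bc ω (ed (path ω n)) = true
      · obtain ⟨b1, b2⟩ := gt_bc (ω := ω) fun c => by
          have := h n hn (by omega) c
          simp [b] at this
        rw [step_open b]
        refine ih.snoc trivial trivial ?_
        show shut _ ω (ed (path ω n)) = true
        simp [shut, b1, ← b2, b]
      · rw [step_closed b]
        exact ih
  | true =>
    refine Or.inr ⟨fd (path ω j), fd (path ω t), ⟨(gt_le h1).2, (gt_ge h2).2⟩, ?_⟩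
    clear h2
    induction t, hj using Nat.le_induction with
    | base => exact Conn.rfl'
    | succ n hn ih =>
      have ih := ih fun l a b => h l a (by omega)
      rw [path_succ]
      by_cases b : bc ω (ed (path ω n)) = true
      · rw [step_open b, fd_ro]
        exact ih
      · obtain ⟨b1, b2⟩ := gt_bc (ω := ω) fun c => b (h n hn (by omega) c)
        rw [step_closed b]
        have e : fd (rot (path ω n)) = fd (path ω n) + u ((path ω n).2 + 1) := fc_succ _ _
        rw [e]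
        refine ih.snoc trivial trivial ?_
        have e' : dl (edge (fd (path ω n)) ((path ω n).2 + 1)) = ed (path ω n) := dl_fc _ _
        simp only [du, e']
        simp [opn, b1, ← b2, b]

end Pool.Agent.P.MP_6c8efb_pr.SLE.TG
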