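import Pool.Agent.P.MP_6c8efb_pr.SLE.TGDefs

/-! Unit flows to infinity. -/

open Set Function

namespace Pool.Agent.P.MP_6c8efb_pr.SLE.TG

theorem s_OutConn : S_OutConn := by
  rintro τ S p p' h ⟨c, h1, h2⟩
  obtain ⟨c', h3, h4⟩ := exists_chain h
  refine ⟨fun e => c e + c' e, fun x => ?_, fun e he => ?_⟩
  · have a1 := h1 x
    have a2 := h4 x
    simp only [bd] at a1 a2 ⊢
    omega
  · by_cases h5 : c e = 0
    · exact (h3 e (by simpa [h5] using he)).1
    · exact h2 e h5

theorem out_sum {p : Fin 4 → Prop} [DecidablePred p] {d₀ : Fin 4} (h : ∀ d, p d ↔ d = d₀) :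
    ∑ d, (if p d then (1 : ℤ) else 0) = 1 := by simp [h]

theorem s_OutPath : S_OutPath := by
  intro τ s dir hs h1 h2
  classical
  let o : V → Fin 4 → ℤ := fun x d => if ∃ n, s n = x ∧ dir n = d then 1 else 0
  have ho : ∀ x d, o x d ≠ 0 → τ (edge x d) = true := fun x d h => by
    obtain ⟨n, rfl, rfl⟩ := (ite_ne_right_iff.1 h).1
    exact h2 n
  refine ⟨fun e => if e.2 then o e.1 0 - o (e.1 + u 0) 2 else o e.1 1 - o (e.1 + u 1) 3,
    fun x => ?_, ?_⟩
  · have e1 : ∀ d, o (x + u d) (d + 2) = if ∃ n, s (n + 1) = x ∧ dir n = d + 2 then 1 else 0 :=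
      fun d => if_congr (exists_congr fun n => and_congr_left fun h => by
        rw [h1, h]
        exact ⟨fun h => by rw [h, u_back], fun h =>
          add_right_cancel (h.trans (u_back x d).symm)⟩) rfl rfl
    have e2 : ∑ d, o x d = if ∃ n, s n = x then 1 else 0 := by
      split_ifs with h
      · obtain ⟨n, rfl⟩ := h
        exact out_sum (d₀ := dir n) fun d =>
          ⟨fun ⟨m, a, b⟩ => by rw [← b, hs a], fun a => ⟨n, rfl, a.symm⟩⟩
      · exact Finset.sum_eq_zero fun d _ => if_neg fun ⟨n, a, _⟩ => h ⟨n, a⟩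
    have e3 : ∑ d, o (x + u d) (d + 2) = if ∃ n, s (n + 1) = x then 1 else 0 := by
      simp only [e1]
      split_ifs with h
      · obtain ⟨n, rfl⟩ := h
        exact out_sum (d₀ := dir n - 2) fun d =>
          ⟨fun ⟨m, a, b⟩ => by rw [← Nat.succ_injective (hs a), b, add_sub_cancel_right],
            fun a => ⟨n, rfl, by rw [a, sub_add_cancel]⟩⟩
      · exact Finset.sum_eq_zero fun d _ => if_neg fun ⟨n, a, _⟩ => h ⟨n, a⟩
    have e4 : (if ∃ n, s n = x then (1 : ℤ) else 0) - (if ∃ n, s (n + 1) = x then 1 else 0) =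
        if x = s 0 then 1 else 0 := by
      by_cases h : x = s 0
      · rw [if_pos ⟨0, h.symm⟩, if_neg, if_pos h, sub_zero]
        rintro ⟨n, a⟩
        exact Nat.succ_ne_zero n (hs (a.trans h))
      · rw [if_neg h, sub_eq_zero]
        refine if_congr ⟨?_, fun ⟨n, a⟩ => ⟨_, a⟩⟩ rfl rfl
        rintro ⟨_ | n, a⟩
        exacts [(h a.symm).elim, ⟨n, a⟩]
    rw [← e4, ← e2, ← e3]
    obtain ⟨i, j⟩ := x
    simp [bd, Fin.sum_univ_four, sub_eq_add_neg]
    ring
  · rintro ⟨x, _ | _⟩ he
    · by_cases h : o x 1 = 0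
      · have := ho (x + u 1) 3 (by simpa [h] using he)
        rwa [← a12, edge_back] at this
      · exact ho x 1 h
    · by_cases h : o x 0 = 0
      · have := ho (x + u 0) 2 (by simpa [h] using he)
        rwa [← a02, edge_back] at this
      · exact ho x 0 h

theorem s_Ray : S_Ray := by
  intro y z n h
  have key : ∀ d : Fin 4, (∀ k : ℕ, n < nm z (edge (y + (k : ℤ) • u d) d).1) →
      ∃ a, Flow a y ∧ ∀ e : E, nm z e.1 ≤ n → a e = 0 := fun d hd => by
    obtain ⟨c, h1, h2⟩ := s_OutPath (fun e => decide (n < nm z e.1)) (fun k => y + (k : ℤ) • u d)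
      (fun _ => d) (fun a b e => by
        rcases cases4 d with rfl | rfl | rfl | rfl <;> simpa [Prod.ext_iff] using e)
      (fun k => by push_cast; rw [add_smul, one_smul, add_assoc]) fun k => decide_eq_true (hd k)
    refine ⟨c, by simpa using h1, fun e he => by_contra fun h => ?_⟩
    exact absurd (of_decide_eq_true (h2 e h)) (not_lt.2 he)
  simp only [nm, le_max_iff, le_abs] at h
  rcases h with (h | h) | h | h
  all_goals first
    | exact key 0 fun k => by simp [nm, lt_abs]; omega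
    | exact key 1 fun k => by simp [nm, lt_abs]; omega

end Pool.Agent.P.MP_6c8efb_pr.SLE.TG
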