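import Pool.Agent.P.MP_6c8efb_pr.SLE.TGDefs

/-! Stream functions of closed chains. -/

open Set Function

namespace Pool.Agent.P.MP_6c8efb_pr.SLE.TG

theorem prim_int (g : ℤ → ℤ) : ∃ G : ℤ → ℤ, G 0 = 0 ∧ ∀ i, G i - G (i - 1) = g i := by
  refine ⟨fun i => ∑ k ∈ Finset.range i.toNat, g (k + 1) -
    ∑ k ∈ Finset.range (-i).toNat, g (-k), by simp, fun i => ?_⟩
  rcases le_or_gt i 0 with h | h
  · obtain ⟨n, rfl⟩ : ∃ n : ℕ, i = -n := ⟨(-i).toNat, by omega⟩
    have e1 : (-(n : ℤ)).toNat = 0 := by omega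
    have e2 : (-(n : ℤ) - 1).toNat = 0 := by omega
    have e3 : (- -(n : ℤ)).toNat = n := by omega
    have e4 : (-(-(n : ℤ) - 1)).toNat = n + 1 := by omega
    simp only [e1, e2, e3, e4, Finset.sum_range_succ]
    ring
  · obtain ⟨n, rfl⟩ : ∃ n : ℕ, i = n + 1 := ⟨(i - 1).toNat, by omega⟩
    have e1 : ((n : ℤ) + 1).toNat = n + 1 := by omega
    have e2 : ((n : ℤ) + 1 - 1).toNat = n := by omega
    have e3 : (-((n : ℤ) + 1)).toNat = 0 := by omega
    have e4 : (-((n : ℤ) + 1 - 1)).toNat = 0 := by omega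
    simp only [e1, e2, e3, e4, Finset.sum_range_succ]
    ring

theorem s_Prim : S_Prim := by
  intro c hc
  choose G G0 hG using fun j => prim_int fun i => -c ((i, j), false)
  obtain ⟨H, -, hH⟩ := prim_int fun j => c ((0, j), true)
  have key : ∀ j i, H j + G j i - (H (j - 1) + G (j - 1) i) = c ((i, j), true) := by
    intro j i
    have st : ∀ i, H j + G j i - (H (j - 1) + G (j - 1) i) - c ((i, j), true) =
        H j + G j (i - 1) - (H (j - 1) + G (j - 1) (i - 1)) - c ((i - 1, j), true) := by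
      intro i
      have h1 := hG j i
      have h2 := hG (j - 1) i
      have h3 := hc (i, j)
      simp only [bd, edge0, edge1, edge2, edge3] at h1 h2 h3
      omega
    induction i using Int.induction_on with
    | zero => have := hH j; rw [G0, G0]; omega
    | succ n ih => have := st (n + 1); rw [add_sub_cancel_right] at this; omega
    | pred n ih => have := st (-n); omega
  refine ⟨fun f => H f.2 + G f.2 f.1, fun v d => ?_⟩
  obtain ⟨i, j⟩ := v
  rcases cases4 d with rfl | rfl | rfl | rfl <;>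
    simp only [a01, a11, a21, a31, fc0, fc1, fc2, fc3, sg0, sg1, sg2, sg3, edge0, edge1, edge2,
      edge3]
  · have := key j i; omega
  · have := hG j i; omega
  · have := key j (i - 1); omega
  · have := hG (j - 1) i; omega

theorem prim_faces {S : Set V} {v : V} {d : Fin 4} (h : fc v d ∈ S) (h' : fc v (d + 1) ∈ S) :
    (edge v d).1 ∈ S ∧ ot (edge v d) ∈ S := by
  rcases cases4 d with rfl | rfl | rfl | rfl <;> simp at h h' ⊢ <;> exact ⟨‹_›, ‹_›⟩

theorem s_JConn : S_JConn := by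
  intro c J τ S p p' hJ hc h
  refine h.ind (p := fun y => J p = J y) rfl fun a d _ ha hb ho ih => ?_
  obtain ⟨v, d', h1, h2, h3⟩ := face_step a d
  have h4 := hJ v d'
  obtain ⟨h5, h6⟩ := prim_faces (S := S) (v := v) (d := d') (h1 ▸ ha) (h2 ▸ hb)
  rw [hc _ h5 h6 (by rw [h3]; simpa [du] using ho), h1, h2] at h4
  omega

theorem s_Two : S_Two := by
  intro a b a' y φ τ τ' S p p' ha _ ha' hφ h1 h2 h3 h4
  obtain ⟨ψ, hψ⟩ := s_Prim (a - a') fun x => by
    have e1 := ha x
    have e2 := ha' x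
    simp only [bd, Pi.sub_apply] at e1 e2 ⊢
    omega
  have k1 := s_JConn _ ψ τ S p p' hψ (fun e h5 h6 h7 => by
    obtain ⟨e1, e2⟩ := h3 e h5 h6 h7
    simp [e1, e2]) h1
  have hχ : Jmp (a' - b) (φ - ψ) := fun v d => by
    have e1 := hφ v d
    have e2 := hψ v d
    simp only [Pi.sub_apply] at e1 e2 ⊢
    linear_combination e1 - e2
  have k2 := s_JConn _ _ τ' univ p p' hχ (fun e _ _ h7 => by
    obtain ⟨e1, e2⟩ := h4 e h7
    simp [e1, e2]) h2
  simp only [Pi.sub_apply] at k2
  omega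

end Pool.Agent.P.MP_6c8efb_pr.SLE.TG
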