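import Pool.Agent.P.MP_6c8efb_pr.SLE.TGDefs

/-! Consecutive cells of a wall are joined through cells of the same colour. -/

open Set Function

namespace Pool.Agent.P.MP_6c8efb_pr.SLE.TG

/-- the cell of colour `κ` next to a dart -/
def wall_c (κ : Bool) (c : D) : V := if κ then cv c.1 else cf (fd c)

theorem wall_one {ω : Cfg} {κ : Bool} {S : Set V} {v : V} {d : Fin 4} (h1 : fc v d ∈ S)
    (h2 : fc v (d + 1) ∈ S) (h : Mo ω κ (edge v d)) :
    Conn (du (wa ω κ)) S (fc v d) (fc v (d + 1)) := by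
  rw [fc_succ] at h2 ⊢
  exact Conn.one h1 h2 (by simpa [du, dl_fc, wa] using h)

theorem wall_nm (κ : Bool) (c : D) : nm (wall_c κ c) (ce (ed c)) ≤ 2 := by
  obtain ⟨⟨a, b⟩, d⟩ := c
  cases κ <;> rcases cases4 d with rfl | rfl | rfl | rfl <;>
    simp [wall_c, nm, ce, ed, cv, cf, fd, abs_le] <;> omega

theorem wall_key {ω : Cfg} {κ : Bool} {S : Set V} {c : D} (h : bc ω (ed c) = κ)
    (h1 : ce (ed c) ∈ S) (h2 : wall_c κ c ∈ S) :
    Conn (du (wa ω κ)) S (wall_c κ c) (ce (ed c)) := by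
  have m : Mo ω κ (fe c (!κ)) := ⟨c, h, rfl⟩
  cases κ
  · simp only [wall_c, Bool.false_eq_true, if_false, cf_fv, ce_ed] at h1 h2 ⊢
    exact wall_one h2 h1 (by simpa [fe] using m)
  · have e : c.2 + 2 = c.2 + 1 + 1 := by rw [add_assoc]; rfl
    simp only [wall_c, if_true, cv_fv, ce_ed, e] at h1 h2 ⊢
    exact (wall_one h1 h2 (by simpa [fe] using m)).symm'

theorem wall_step {ω : Cfg} {κ : Bool} {S : Set V} (c : D)
    (h1 : ∀ m, nm (wall_c κ c) m ≤ 2 → m ∈ S) (h2 : wall_c κ (step (bc ω) c) ∈ S) :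
    Conn (du (wa ω κ)) S (wall_c κ c) (wall_c κ (step (bc ω) c)) := by
  have e : wall_c κ (step (bc ω) c) = if bc ω (ed c) = κ then wall_c κ (opp c) else wall_c κ c := by
    by_cases b : bc ω (ed c) = true
    · rw [step_open b, b]
      cases κ
      · simp [wall_c, fd_ro]
      · simp [wall_c, rot]
    · rw [step_closed b, Bool.eq_false_iff.2 b]
      cases κ
      · simp [wall_c, fd_rot]
      · simp [wall_c, rot]
  rw [e] at h2 ⊢
  split_ifs at h2 ⊢ with b
  · have a := h1 _ (wall_nm κ c)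
    have a1 := wall_key b a (h1 _ (by simp [nm]))
    have a2 := wall_key (c := opp c) (by rw [ed_opp]; exact b) (by rw [ed_opp]; exact a) h2
    rw [ed_opp] at a2
    exact a1.trans' a2.symm'
  · exact Conn.rfl'

theorem wall_neg {ω : Cfg} {κ : Bool} {S : Set V} {i : ℤ} (hi : i < 0) (h1 : wl ω κ i ∈ S)
    (h2 : wl ω κ (i + 1) ∈ S) : Conn (du (wa ω κ)) S (wl ω κ i) (wl ω κ (i + 1)) := by
  have e1 : wl ω κ i = if κ then (i - 1, 1) else (-i, 0) := if_pos hi
  have e2 : wl ω κ (i + 1) = if κ then (i, 1) else (-i - 1, 0) := by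
    rcases (show i + 1 ≤ 0 by omega).eq_or_lt with k | k
    · obtain rfl : i = -1 := by omega
      cases κ <;> simp [wl, path, cv, cf, fd]
    · rw [wl, if_pos k]
      cases κ <;> simp <;> omega
  rw [e1] at h1 ⊢
  rw [e2] at h2 ⊢
  cases κ
  · simp only [Bool.false_eq_true, if_false] at h1 h2 ⊢
    have m : Mo ω false (edge (-i, 0) 1) := by
      obtain ⟨x, k | k⟩ := Int.even_or_odd' (-i)
      · exact ⟨((x, -1), 1), by simp [bc, ed], by simp [fe, fv, k]⟩
      · exact ⟨((x + 1, 0), 3), by simp [bc, ed], by simp [fe, fv, k]; omega⟩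
    exact wall_one (v := (-i, 0)) (d := 1) h1 h2 m
  · simp only [if_true] at h1 h2 ⊢
    have m : Mo ω true (edge (i, 1) 1) := by
      obtain ⟨x, k | k⟩ := Int.even_or_odd' i
      · exact ⟨((x, 0), 0), by simp [bc, ed]; omega, by simp [fe, fv, k]⟩
      · exact ⟨((x + 1, 0), 2), by simp [bc, ed]; omega, by simp [fe, fv, k]; omega⟩
    exact (wall_one (v := (i, 1)) (d := 1) h2 h1 m).symm'

theorem s_Wall : S_Wall := by
  intro ω κ S i i' h hS
  induction i', h using Int.le_induction with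
  | base => exact Conn.rfl'
  | succ n hn ih =>
    refine (ih fun k a b => hS k a (by omega)).trans' ?_
    have a1 := hS n hn (by omega)
    have a2 := hS (n + 1) (by omega) le_rfl _ (by simp [nm] : nm _ (wl ω κ (n + 1)) ≤ 2)
    by_cases hneg : n < 0
    · exact wall_neg hneg (a1 _ (by simp [nm])) a2
    · have e1 : wl ω κ n = wall_c κ (path ω n.toNat) := if_neg hneg
      have e2 : wl ω κ (n + 1) = wall_c κ (step (bc ω) (path ω n.toNat)) := by
        rw [← path_succ, show n.toNat + 1 = (n + 1).toNat by omega]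
        exact if_neg (by omega)
      rw [e1] at a1 ⊢
      rw [e2] at a2 ⊢
      exact wall_step _ a1 a2

end Pool.Agent.P.MP_6c8efb_pr.SLE.TG
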