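import Pool.Agent.P.MP_6c8efb_pr.SLE.TGDefs

/-! A step along an old edge of the other colour opens a way out. -/

open Set Function

namespace Pool.Agent.P.MP_6c8efb_pr.SLE.TG

theorem way_inj {c c' : D} {b b' : Bool} (h : fe c b = fe c' b') : c = c' ∧ b = b' := by
  obtain ⟨⟨x, y⟩, d⟩ := c
  obtain ⟨⟨x', y'⟩, d'⟩ := c'
  rcases cases4 d with rfl | rfl | rfl | rfl <;> rcases cases4 d' with rfl | rfl | rfl | rfl <;>
    cases b <;> cases b' <;> simp [fe, fv] at h ⊢ <;> omega

theorem way_strand (ω : Cfg) (κ : Bool) (c : D) : ¬ Mo ω κ (fe c (bc ω (ed c))) := by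
  rintro ⟨c', h1, h2⟩
  obtain ⟨rfl, h3⟩ := way_inj h2
  rw [h1] at h3
  cases κ <;> simp at h3

theorem way_own (ω : Cfg) (κ : Bool) (c : D) : ¬ Mo ω κ (fe c κ) := by
  rintro ⟨c', -, h2⟩
  have h3 := (way_inj h2).2
  cases κ <;> simp at h3

theorem way_end (c : D) (b : Bool) :
    fv c + u (if b then c.2 else c.2 + 1) = fv (if b then rot (opp c) else rot c) := by
  cases b
  · exact (fv_closed c).symm
  · exact (fv_open c).symm

theorem way_step (ω : Cfg) (c : D) :
    step ω c = if ω (ed c) then rot (opp c) else rot c := by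
  split_ifs with h
  · exact step_open h
  · exact step_closed h

theorem way_xp (ω : Cfg) (n : ℕ) : ∃ d, st ω n = edge (xp ω n) d ∧ xp ω (n + 1) = xp ω n + u d :=
  ⟨if bc ω (ed (path ω n)) then (path ω n).2 else (path ω n).2 + 1, rfl, by
    rw [xp, xp, path_succ, way_step, way_end]⟩

theorem way_far {z v : V} {r : ℤ} (h : r + 2 ≤ nm z v) (d : Fin 4) : (edge v d).1 ∉ Bx z r := by
  rintro ⟨h1, -⟩
  rcases cases4 d with rfl | rfl | rfl | rfl <;> simp [nm, abs_eq_max_neg] at h h1 <;> omega

theorem way_conn {ω τ : Cfg} {i k : ℕ} (hk : i ≤ k) (h : ∀ n, i ≤ n → n < k → τ (st ω n) = true) :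
    Conn τ univ (xp ω i) (xp ω k) := by
  induction k, hk using Nat.le_induction with
  | base => exact Conn.rfl'
  | succ k hk ih =>
    obtain ⟨d, e1, e2⟩ := way_xp ω k
    rw [e2]
    exact (ih fun n a b => h n a (by omega)).snoc trivial trivial (e1 ▸ h k hk (by omega))

theorem way_ray (h2 : S_OutPath) {τ : Cfg} (p : V) (d : Fin 4)
    (h : ∀ n : ℕ, τ (edge (p + (n : ℤ) • u d) d) = true) : Out τ p := by
  have := h2 τ (fun n => p + (n : ℤ) • u d) (fun _ => d) (fun n m e => by
      rcases cases4 d with rfl | rfl | rfl | rfl <;> simp [Prod.ext_iff] at e <;> omega)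
    (fun n => by push_cast; rw [add_smul, one_smul, add_assoc]) h
  simpa using this

theorem way_row (ω : Cfg) {y : ℤ} (hy : y < 0) : ∃ c, ((y, 1), true) = fe c (bc ω (ed c)) := by
  obtain ⟨a, rfl | rfl⟩ := Int.even_or_odd' y
  · exact ⟨((a, 0), 0), by simp [fe, fv, bc, ed, show a < 0 by omega]⟩
  · exact ⟨((a + 1, 0), 3), by simp [fe, fv, bc, ed]; omega⟩

theorem way_low {ω : Cfg} {e : E} (h : Mo ω true e) : 1 ≤ e.1.2 := by
  obtain ⟨⟨⟨x, y⟩, d⟩, h1, rfl⟩ := h
  have := bc_pos h1
  rcases cases4 d with rfl | rfl | rfl | rfl <;> simp [fe, fv, ed] at this ⊢ <;> omega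

theorem s_Way (h1 : S_OutConn) (h2 : S_OutPath) : S_Way := by
  intro ω κ s j t r τ hq hsj hjt hfar hold hcol hτ
  have west0 : ∀ x : ℤ, x ≤ 0 → Out τ (x, 1) := fun x hx => way_ray h2 _ 2 fun n => by
    obtain ⟨c, hc⟩ := way_row ω (y := x - n - 1) (by omega)
    have e : edge (((x, 1) : V) + (n : ℤ) • u 2) 2 = ((x - n - 1, 1), true) := by
      simp [sub_eq_add_neg]
    rw [e]
    exact hτ _ (hc ▸ way_strand ω κ c) (Or.inl (by simp [bl]; omega))
  have past : ∀ i ≤ s, Out τ (xp ω i) := fun i hi =>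
    h1 τ univ _ _ (way_conn (Nat.zero_le i) fun n _ hn => hτ _ (way_strand ω κ _)
      (Or.inl (decide_eq_true (Or.inl ⟨n, by omega, rfl⟩)))).symm' (west0 0 le_rfl)
  have back : ∀ n, j ≤ n → n ≤ t → Out τ (xp ω n) → Out τ (xp ω t) := fun n a b =>
    h1 τ univ _ _ (way_conn b fun m c d => hτ _ (way_strand ω κ _) (Or.inr fun e => by
      obtain ⟨d', e1, -⟩ := way_xp ω m
      exact way_far (hfar m (by omega) d.le) d' (e1 ▸ e.1))).symm'
  have cross : ∀ c, path ω j = opp c → Out τ (fv c) → Out τ (xp ω t) := fun c hc ho => by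
    have e : xp ω (j + 1) = fv c + u (if κ then c.2 else c.2 + 1) := by
      rw [way_end, xp, path_succ, way_step, hcol, hc]
      cases κ <;> simp [opp_opp]
    refine back (j + 1) (by omega) hjt (h1 τ univ _ _ ?_ ho)
    rw [e]
    refine (Conn.one (S := univ) trivial trivial (hτ (fe c κ) (way_own ω κ c) (Or.inr fun b => ?_))).symm'
    refine way_far (hfar (j + 1) (by omega) hjt) ((if κ then c.2 else c.2 + 1) + 2) ?_
    rw [e, edge_back]
    exact b.1
  have down : κ = true → ∀ n, j ≤ n → n ≤ t → (xp ω n).2 = 1 → Out τ (xp ω t) := by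
    rintro rfl n a b c
    refine back n a b (way_ray h2 _ 3 fun m => hτ _ (fun h => ?_) (Or.inr fun h => ?_))
    · have := way_low h
      simp [c] at this
      omega
    · have h3 := h.1.2
      have h4 : m = 0 := by
        simp [c] at h3
        omega
      subst h4
      exact way_far (hfar n a b) 3 (by simpa using h.1)
  rcases hold with h | h
  · obtain ⟨i, hi, h⟩ := mem_expl.1 h
    rcases ed_eq h.symm with e | e
    · have : fp ω (j + 1) = fp ω (i + 1) := congrArg fv e
      have := hq.inj this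
      omega
    · exact cross _ e (past i hi.le)
  have hp := path_pos hq j
  cases κ with
  | false =>
    have h3 := bc_pos hcol
    obtain ⟨h4, h5⟩ := h.resolve_left (by omega)
    obtain ⟨x, hx⟩ : ∃ x, ed (path ω j) = ed ((x, 0), 0) :=
      ⟨(ed (path ω j)).1.1, Prod.ext (Prod.ext rfl h4) h5⟩
    have h6 : x < 0 := by
      rw [hx] at hcol
      simpa [bc, ed] using hcol
    rcases ed_eq hx with e | e
    · cases j with
      | zero => simp [path, Prod.ext_iff] at e; omega
      | succ j => exact absurd e (west' hq h6.le j)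
    · exact cross _ e (by simpa [fv] using west0 (2 * x) (by omega))
  | true =>
    have e : xp ω (j + 1) = fv (rot (path ω j)) := by
      rw [xp, path_succ, step_closed (by simp [hcol])]
    have key : (xp ω j).2 = 1 ∨ (xp ω (j + 1)).2 = 1 := by
      rw [e, xp]
      generalize path ω j = c at h hp
      obtain ⟨⟨x, y⟩, d⟩ := c
      rcases cases4 d with rfl | rfl | rfl | rfl <;> simp [fv, ed, rot] at h hp ⊢ <;> omega
    exact key.elim (down rfl j le_rfl hjt.le) (down rfl (j + 1) (by omega) hjt)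

end Pool.Agent.P.MP_6c8efb_pr.SLE.TG
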