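import Pool.Agent.P.MP_6c8efb_pr.SLE.TGDet
import Pool.Agent.P.MP_6c8efb_pr.SLE.TGOut
import Pool.Agent.P.MP_6c8efb_pr.SLE.TGPrim
import Pool.Agent.P.MP_6c8efb_pr.SLE.TGDec
import Pool.Agent.P.MP_6c8efb_pr.SLE.TGAn
import Pool.Agent.P.MP_6c8efb_pr.SLE.TGGt
import Pool.Agent.P.MP_6c8efb_pr.SLE.TGWall
import Pool.Agent.P.MP_6c8efb_pr.SLE.TGWay
import Pool.Agent.P.MP_6c8efb_pr.SLE.TGFin

/-! Gates are unlikely. -/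

namespace Pool.Agent.P.MP_6c8efb_pr.SLE.TG

theorem t_GATE (hFP : S_FP) (hT : S_T1) : S_GATE :=
  s_Fin hFP hT s_Adp (s_Det s_Gt s_Ray s_OutPath s_Prim s_JConn s_Two s_An s_Wall
    (s_Link s_JConn s_Dec s_Wall) (s_Way s_OutConn s_OutPath) s_Seg)

end Pool.Agent.P.MP_6c8efb_pr.SLE.TG
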