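import Pool.Agent.P.MP_6c8efb_pr.SLE.Iface

/-! Identification of the limit of the crossing probabilities, in monotone form. -/

open Complex Set Filter Topology Metric
open scoped Real

namespace Pool.Agent.P.MP_6c8efb_pr.SLE

/-- the one-sided barrier estimate in a rectangle -/
theorem barrier1 {U : Set ℂ} {g : ℂ → ℂ} {M r s x : ℝ} (hU : IsOpen U) (hg : DiffContOnCl ℂ g U)
    (hb : ∀ z ∈ U, ‖g z‖ ≤ M) (hr : 0 < r)
    (hlow : ∀ z ∈ U, |z.re - x| ≤ r → -s ≤ z.im → z.im ≤ r - s → -s < z.im)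
    (hf : ∀ z ∈ frontier U, |z.re - x| ≤ r → -s ≤ z.im → z.im ≤ r - s → (g z).im ≤ 0)
    {z : ℂ} (hz : z ∈ U) (h1 : |z.re - x| < r) (h2 : -s < z.im) (h3 : z.im < r - s) :
    (g z).im ≤ M * ((z.re - x) ^ 2 / r ^ 2 + 2 * (z.im + s) / r) := by
  have hM : 0 ≤ M := (norm_nonneg _).trans (hb z hz)
  set R : Set ℂ := {z | |z.re - x| < r ∧ -s < z.im ∧ z.im < r - s}
  have hre : Continuous fun z : ℂ => |z.re - x| := by fun_prop
  have hR : IsOpen R := (isOpen_lt hre continuous_const).inter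
    ((isOpen_lt continuous_const continuous_im).inter (isOpen_lt continuous_im continuous_const))
  have hn : ∀ w : ℂ, ‖exp (-I * g w - M * ((w - x + s * I) ^ 2 / r ^ 2 - 2 * I * (w - x + s * I) / r))‖
      = Real.exp ((g w).im - M * (((w.re - x) ^ 2 - (w.im + s) ^ 2) / r ^ 2 +
        2 * (w.im + s) / r)) := fun w => by
    rw [norm_exp, ← ofReal_pow]
    simp only [sub_re, re_ofReal_mul, div_ofReal_re]
    simp [pow_two, neg_div]
  have h4 := norm_le_of_forall_mem_frontier_norm_le (U := U ∩ R) (C := 1) (f := fun w =>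
    exp (-I * g w - M * ((w - x + s * I) ^ 2 / r ^ 2 - 2 * I * (w - x + s * I) / r)))
    (isBounded_closedBall.subset (t := closedBall 0 (|x| + |s| + 2 * r)) fun w hw => ?_)
    (differentiable_exp.comp_diffContOnCl (((hg.mono inter_subset_left).const_smul (-I)).sub
      (Differentiable.diffContOnCl (by fun_prop)))) (fun w hw => ?_)
    (subset_closure ⟨hz, h1, h2, h3⟩)
  · rw [hn, Real.exp_le_one_iff, sub_nonpos] at h4
    refine h4.trans ?_
    gcongr
    nlinarith [sq_nonneg (z.im + s)]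
  · refine mem_closedBall_zero_iff.2 ((norm_le_abs_re_add_abs_im w).trans ?_)
    have h5 := abs_lt.1 hw.2.1
    have : |w.re| ≤ |x| + r := abs_le.2 ⟨by linarith [neg_abs_le x], by linarith [le_abs_self x]⟩
    have : |w.im| ≤ |s| + r :=
      abs_le.2 ⟨by linarith [le_abs_self s, hw.2.2.1], by linarith [neg_abs_le s, hw.2.2.2]⟩
    linarith
  · rw [(hU.inter hR).frontier_eq] at hw
    obtain ⟨c1, c2, c3⟩ : |w.re - x| ≤ r ∧ -s ≤ w.im ∧ w.im ≤ r - s := closure_minimal
      (t := {z : ℂ | |z.re - x| ≤ r ∧ -s ≤ z.im ∧ z.im ≤ r - s})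
      (fun v hv => ⟨hv.2.1.le, hv.2.2.1.le, hv.2.2.2.le⟩)
      ((isClosed_le hre continuous_const).inter ((isClosed_le continuous_const
        continuous_im).inter (isClosed_le continuous_im continuous_const))) hw.1
    have e : ((w.re - x) ^ 2 - (w.im + s) ^ 2) / r ^ 2 + 2 * (w.im + s) / r =
        ((w.re - x) ^ 2 + (w.im + s) * (2 * r - (w.im + s))) / r ^ 2 := by field_simp; ring
    rw [hn, Real.exp_le_one_iff, sub_nonpos, e]
    by_cases hwU : w ∈ U
    · refine ((im_le_norm _).trans (hb w hwU)).trans (le_mul_of_one_le_right hM ?_)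
      rw [one_le_div (by positivity)]
      have c4 := hlow w hwU c1 c2 c3
      rcases c1.eq_or_lt with c5 | c5
      · rw [← sq_abs (w.re - x), c5]
        nlinarith
      · have : w.im + s = r := by
          linarith [not_lt.1 fun h => hw.2 ⟨hwU, c5, c4, h⟩]
        rw [this]
        nlinarith [sq_nonneg (w.re - x)]
    · refine (hf w (hU.frontier_eq ▸ ⟨closure_mono inter_subset_left hw.1, hwU⟩) c1 c2 c3).trans ?_
      have : 0 ≤ (w.im + s) * (2 * r - (w.im + s)) := mul_nonneg (by linarith) (by linarith)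
      positivity

theorem near_bar {M n y r ρ t : ℝ} {U : Set ℂ} {h : ℂ → ℂ} (H : Near M n U h) (σ : ℝ)
    (hσ : |σ| = 1) (hρ : 0 < ρ) (hr : 8 * ρ ≤ r) (hr1 : r ≤ 1 / 2) (hy : |y| ≤ 1) (hn : 1 / n ≤ ρ)
    (hn2 : 2 ≤ n) (hf : ∀ z ∈ frontier U, ‖z‖ ≤ n → |z.re - y| ≤ r → σ * ((h z).re - t) ≤ 0) :
    0 ≤ M ∧ σ * ((h (y + ρ * I)).re - t) ≤ (M + |t|) * (4 * ρ / r) := by
  have h0 : 0 < 1 / n := by positivity
  have h6 : ∀ w : ℂ, |w.re - y| ≤ r → -(1 / n) ≤ w.im → w.im ≤ r - 1 / n → ‖w‖ ≤ n :=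
    fun w c1 c2 c3 => by
      have c4 := abs_le.1 c1
      have c5 := abs_le.1 hy
      have : |w.re| ≤ 1 + r := abs_le.2 ⟨by linarith, by linarith⟩
      have : |w.im| ≤ r := abs_le.2 ⟨by linarith, by linarith⟩
      linarith [norm_le_abs_re_add_abs_im w]
  have e1 : (y + ρ * I : ℂ).re = y := by simp
  have e2 : (y + ρ * I : ℂ).im = ρ := by simp
  have e3 : ∀ w : ℂ, (σ * I * (w - t) : ℂ).im = σ * (w.re - t) := fun w => by simp
  have hz : (y + ρ * I : ℂ) ∈ U := H.big _ (h6 _ (by rw [e1, sub_self, abs_zero]; linarith)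
    (by rw [e2]; linarith) (by rw [e2]; linarith)) (e2.symm ▸ hn)
  have hM := (norm_nonneg _).trans (H.bd _ hz)
  have := barrier1 (g := fun w => σ * I * (h w - t)) (M := M + |t|) (r := r) (s := 1 / n) (x := y)
    H.op ((H.dc.sub_const _).const_smul (σ * I : ℂ)) (fun w hw => by
      rw [norm_mul, norm_mul, norm_real, Real.norm_eq_abs, hσ, norm_I, one_mul, one_mul]
      exact (norm_sub_le _ _).trans (add_le_add (H.bd w hw) (norm_real t).le)) (by linarith)
    (fun w hw c1 c2 c3 => H.low w hw (h6 w c1 c2 c3))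
    (fun w hw c1 c2 c3 => (e3 _).trans_le (hf w hw (h6 w c1 c2 c3) c1)) hz
    (by rw [e1, sub_self, abs_zero]; linarith) (by rw [e2]; linarith) (by rw [e2]; linarith)
  rw [e3, e1, e2, sub_self, zero_pow two_ne_zero, zero_div, zero_add] at this
  exact ⟨hM, this.trans (mul_le_mul_of_nonneg_left
    (div_le_div_of_nonneg_right (by linarith) (by linarith)) (by positivity))⟩

theorem s_IDM : S_IDM := by
  intro M ε a hε ha
  obtain ⟨r₀, hr₀, h1⟩ := ident_cardy M (ε := ε / 3) (a := a / 2) (by positivity) (by positivity)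
  obtain ⟨δ, hδ, h2⟩ := Metric.uniformContinuousOn_iff_le.1
    ((isCompact_Icc (a := a / 2) (b := 1 - a / 2)).uniformContinuousOn_of_continuous
      fun x hx => (cardy_deriv (by linarith [hx.1]) (by linarith [hx.2])).continuousAt.continuousWithinAt)
    (ε / 3) (by positivity)
  set d := min δ (a / 2) with hd
  have d0 : 0 < d := by positivity
  have d1 : d ≤ δ := min_le_left _ _
  have d2 : d ≤ a / 2 := min_le_right _ _
  set κ := min (1 / 2) (ε / (3 * (4 * |M| + 1))) with hκ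
  have k0 : 0 < κ := by positivity
  have k1 : κ ≤ 1 / 2 := min_le_left _ _
  have k2 : κ * (3 * (4 * |M| + 1)) ≤ ε := (le_div_iff₀ (by positivity)).1 (min_le_right _ _)
  set ρ := min r₀ (κ * d / 8) with hρ
  have r0 : 0 < ρ := by positivity
  have r1 : ρ ≤ κ * d / 8 := min_le_right _ _
  have r2 : 4 * ρ / (d / 2) ≤ κ := by rw [div_le_iff₀ (by positivity)]; linarith
  have r3 : 8 * ρ ≤ d / 2 := by nlinarith
  obtain ⟨n₀, hn₀, h3⟩ := h1 ρ r0 (min_le_left _ _)
  refine ⟨max n₀ (max 2 (1 / ρ)), by positivity, fun U h x t H hx hl hr => ?_⟩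
  have n1 : 2 ≤ max n₀ (max 2 (1 / ρ)) := (le_max_left _ _).trans (le_max_right _ _)
  have n2 : 1 / max n₀ (max 2 (1 / ρ)) ≤ ρ :=
    (one_div_le (by positivity) r0).2 ((le_max_right _ _).trans (le_max_right _ _))
  have h4 := h3 U h (H.mono hn₀ (le_max_left _ _))
  obtain ⟨x1, x2⟩ := hx
  have m1 : x - d ∈ Icc (a / 2) (1 - a / 2) := ⟨by linarith, by linarith⟩
  have m2 : x + d ∈ Icc (a / 2) (1 - a / 2) := ⟨by linarith, by linarith⟩
  have m3 : x ∈ Icc (a / 2) (1 - a / 2) := ⟨by linarith, by linarith⟩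
  obtain ⟨hM, b1⟩ := near_bar (y := x - d) (t := t) H 1 abs_one r0 r3 (by linarith)
    (abs_le.2 ⟨by linarith, by linarith⟩) n2 n1 fun z hz c1 c2 => by
      have := abs_le.1 c2
      linarith [hl z hz c1 (by linarith) (by linarith)]
  obtain ⟨-, b2⟩ := near_bar (y := x + d) (t := t) H (-1) (by simp) r0 r3 (by linarith)
    (abs_le.2 ⟨by linarith, by linarith⟩) n2 n1 fun z hz c1 c2 => by
      have := abs_le.1 c2
      linarith [hr z hz c1 (by linarith) (by linarith)]
  have b3 : (M + |t|) * (4 * ρ / (d / 2)) ≤ (M + |t|) * κ := by gcongr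
  have b4 : (M + |t|) * κ ≤ (M + |t|) * (1 / 2) := by gcongr
  have hb : ∀ y ∈ Icc (a / 2) (1 - a / 2), |(h (y + ρ * I)).re| ≤ M := fun y hy =>
    (abs_re_le_norm _).trans (H.bd _ (H.big _ ((norm_add_le _ _).trans (by
      rw [norm_real, norm_mul, norm_real, norm_I, Real.norm_of_nonneg r0.le,
        Real.norm_of_nonneg (by linarith [hy.1])]
      linarith [hy.2])) (by simpa using n2)))
  have b5 : |t| ≤ 3 * M := by
    have j1 := abs_le.1 (hb _ m1)
    have j2 := abs_le.1 (hb _ m2)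
    have : |t| ≤ M + (M + |t|) * (1 / 2) := abs_le.2 ⟨by linarith, by linarith⟩
    linarith
  have b6 : (M + |t|) * κ ≤ ε / 3 := by
    rw [abs_of_nonneg hM] at k2
    nlinarith
  have c1 := abs_le.1 ((abs_re_le_norm _).trans (h4 _ m1))
  have c2 := abs_le.1 ((abs_re_le_norm _).trans (h4 _ m2))
  have c3 := abs_le.1 (h2 _ m1 _ m3 (by simpa [abs_of_pos d0] using d1))
  have c4 := abs_le.1 (h2 _ m2 _ m3 (by simpa [abs_of_pos d0] using d1))
  rw [sub_re, ofReal_re] at c1 c2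
  exact abs_le.2 ⟨by linarith [c1.1, c3.1], by linarith [c2.2, c4.2]⟩

end Pool.Agent.P.MP_6c8efb_pr.SLE
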