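import Pool.Agent.P.MP_6c8efb_pr.SLE.UOneC

/-! Polyominoes inside the slit domains. -/

open Set Filter Topology Metric Complex
open scoped Real

namespace Pool.Agent.P.MP_6c8efb_pr.SLE.One

open L

/-- the image of `-l` -/
noncomputable def al (g : ℂ → ℂ) (l : ℝ) : ℝ := (g (-l)).re

/-- the distance between the images of `-l` and `2 l` -/
noncomputable def wd (g : ℂ → ℂ) (l : ℝ) : ℝ := (g (2 * l)).re - (g (-l)).re

/-- normalised coordinates -/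
noncomputable def nor (g : ℂ → ℂ) (l : ℝ) (y : ℂ) : ℂ := (g y - al g l) / wd g l

variable {K : Set ℂ} {g f : ℂ → ℂ} {a w l : ℝ}

theorem marks (h2 : S_L2s) (h : Small K g f a w (1 / 1000 * l)) (hl : 0 < l) :
    |al g l + l| ≤ 12 / 1000 * l ∧ |al g l + wd g l - 2 * l| ≤ 12 / 1000 * l := by
  have hr : 0 < 1 / 1000 * l := by positivity
  have h1 := (abs_re_le_norm _).trans (disp h2 h hr (far h (z := -l)
    (by simp only [norm_neg, norm_real, Real.norm_eq_abs, abs_of_pos hl]; linarith)))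
  have h3 := (abs_re_le_norm _).trans (disp h2 h hr (far h (z := 2 * l)
    (by simp only [norm_mul, Complex.norm_ofNat, norm_real, Real.norm_eq_abs, abs_of_pos hl]
        linarith)))
  simp only [sub_re, add_re, ofReal_re, sub_neg_eq_add, mul_re, re_ofNat, im_ofNat, ofReal_im,
    mul_zero, sub_zero] at h1 h3
  refine ⟨h1.trans (by linarith), ?_⟩
  rw [al, wd, add_sub_cancel]
  exact h3.trans (by linarith)

theorem wd_bd (h2 : S_L2s) (h : Small K g f a w (1 / 1000 * l)) (hl : 0 < l) :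
    2 * l ≤ wd g l ∧ wd g l ≤ 4 * l := by
  obtain ⟨h1, h3⟩ := marks h2 h hl
  constructor <;> linarith [abs_le.1 h1, abs_le.1 h3, (abs_le.1 h1).1, (abs_le.1 h1).2,
    (abs_le.1 h3).1, (abs_le.1 h3).2]

theorem x_mem (h2 : S_L2s) (h : Small K g f a w (1 / 1000 * l)) (hl : 0 < l) :
    (w - al g l) / wd g l ∈ Icc (1 / 4 : ℝ) (3 / 4) := by
  obtain ⟨h1, h3⟩ := marks h2 h hl
  have h4 : 0 < wd g l := by linarith [(wd_bd h2 h hl).1]
  have h5 := abs_le.1 h.abs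
  rw [mem_Icc, le_div_iff₀ h4, div_le_iff₀ h4]
  constructor <;> linarith [(abs_le.1 h1).1, (abs_le.1 h1).2, (abs_le.1 h3).1, (abs_le.1 h3).2,
    h5.1, h5.2]

theorem nor_re (hD : 0 < wd g l) (y : ℂ) : (g y).re = al g l + wd g l * (nor g l y).re := by
  rw [nor, div_ofReal_re, sub_re, ofReal_re]; field_simp; ring

theorem nor_im (hD : 0 < wd g l) (y : ℂ) : (g y).im = wd g l * (nor g l y).im := by
  rw [nor, div_ofReal_im, sub_im, ofReal_im]; field_simp; ring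

theorem asm (h2 : S_L2s) (hW : S_Wg) {l ρ σ : ℝ} {c : ℂ} (hl : 0 < l) (hσ : 0 < σ) (hρ : 0 ≤ ρ)
    (hside : ∀ u : ℂ, ‖u - c‖ ≤ ρ + σ → u.im ≤ σ → 1 ≤ u.re ∨ u.re ≤ 0) :
    ∃ μ B : ℝ, 0 < μ ∧ μ ≤ l * σ ∧ ∀ K g f a w, Small K g f a w (1 / 1000 * l) →
      ∀ u : ℂ, ‖u - c‖ ≤ ρ + σ → (al g l + wd g l * u ∈ g '' Dsym K) ∧
        ∀ y, ‖y - f (al g l + wd g l * u)‖ ≤ μ →
          y ∈ Dsym K ∧ ‖y‖ ≤ B ∧ ‖nor g l y - u‖ ≤ σ / 200 := by
  have hr : 0 < 1 / 1000 * l := by positivity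
  obtain ⟨μ, hμ, H⟩ := modu h2 hW (B := 2 * l + 4 * l * (‖c‖ + ρ + σ)) (c := 2 * l * σ)
    (ν := l * σ / 100) hr (by positivity) (by positivity) (by positivity)
  refine ⟨min μ (l * σ), 2 * l + 4 * l * (‖c‖ + ρ + σ) + l * σ / 100 + l, by positivity,
    min_le_right _ _, fun K g f a w h u hu => ?_⟩
  obtain ⟨m1, m2⟩ := marks h2 h hl
  obtain ⟨d1, d2⟩ := wd_bd h2 h hl
  have hD : 0 < wd g l := by linarith
  have b1 : ‖al g l + wd g l * u‖ ≤ 2 * l + 4 * l * (‖c‖ + ρ + σ) := by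
    refine (norm_add_le _ _).trans (add_le_add ?_ ?_)
    · rw [norm_real, Real.norm_eq_abs, abs_le]
      constructor <;> linarith [(abs_le.1 m1).1, (abs_le.1 m1).2]
    · rw [norm_mul, norm_real, Real.norm_eq_abs, abs_of_pos hD]
      exact mul_le_mul d2 (by linarith [norm_sub_norm_le u c]) (norm_nonneg _) (by positivity)
  have b2 : 2 * l * σ ≤ (al g l + wd g l * u : ℂ).im ∨
      300 * (1 / 1000 * l) ≤ ‖al g l + wd g l * u‖ := by
    rcases le_total u.im σ with h1 | h1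
    · refine Or.inr (le_trans ?_ (abs_re_le_norm _))
      rw [add_re, re_ofReal_mul, ofReal_re, le_abs]
      refine (hside u hu h1).imp (fun h3 => ?_) fun h3 => ?_
      · nlinarith [(abs_le.1 m2).1]
      · nlinarith [(abs_le.1 m1).2]
    · left
      rw [add_im, im_ofReal_mul, ofReal_im, zero_add]
      exact mul_le_mul d1 h1 hσ.le hD.le
  refine ⟨img h2 h hr (b2.imp (lt_of_lt_of_le (by positivity)) fun h => by linarith),
    fun y hy => ?_⟩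
  obtain ⟨y1, y2⟩ := H K g f a w h _ b1 b2 y (hy.trans (min_le_left _ _))
  refine ⟨y1, ?_, ?_⟩
  · have := disp h2 h hr y1
    linarith [norm_sub_norm_le y (g y), norm_sub_rev y (g y),
      norm_sub_norm_le (g y) (al g l + wd g l * u)]
  · have hD' : (wd g l : ℂ) ≠ 0 := by exact_mod_cast hD.ne'
    rw [show nor g l y - u = (g y - (al g l + wd g l * u)) / wd g l by rw [nor]; field_simp; ring,
      norm_div, norm_real, Real.norm_eq_abs, abs_of_pos hD, div_le_iff₀ hD]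
    nlinarith

/-- the crossing formula with given constants -/
def Car (M : ℝ) (q : ℕ) : Prop := ∀ (P : Cardy.Dom) (i₁ i₂ i₃ : ℕ), 0 < i₁ → i₁ < i₂ →
  i₂ < i₃ → i₃ < P.n → P.Cvx 0 → P.Cvx i₂ → P.Cvx i₃ →
  ∀ ε : ℝ, 0 < ε → ∀ᶠ m : ℕ in atTop, ∃ P' : Cardy.Dom, P.Blow (q * m) P' ∧
    ∃ (f : ℂ → ℂ) (t : ℝ), Raw M P i₁ i₂ i₃ f t ∧
    |TP P' 0 (q * m * i₁) (q * m * i₂) (q * m * i₃) - t| ≤ ε ∧
    |TP P' (q * m * i₁) (q * m * i₂) (q * m * i₃) (q * m * P.n) - (1 - t)| ≤ ε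

theorem car (h : S_CARDY) : ∃ M q, 0 < q ∧ Car M q := by
  obtain ⟨M, q, hq, h⟩ := h
  refine ⟨M, q, hq, fun P i₁ i₂ i₃ p1 p2 p3 p4 p5 p6 p7 ε hε => ?_⟩
  filter_upwards [h P i₁ i₂ i₃ p1 p2 p3 p4 p5 p6 p7 ε hε] with m
    ⟨P', hP, f, t, c1, c2, c3, c4, c5, c6, c7, c8, c9⟩
  exact ⟨P', hP, f, t, ⟨c1, c2, c3, c4, c5, c6, c7, c8⟩, c9⟩

theorem Car.unif {M : ℝ} {q : ℕ} (h : Car M q) (hR : S_REG) (B : ℝ) {ε : ℝ} (hε : 0 < ε) :
    ∀ᶠ m : ℕ in atTop, ∀ P : Cardy.Dom, P.cl ⊆ closedBall 0 B → ∀ i₃ < P.n, ∀ i₂ < i₃, ∀ i₁ < i₂,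
      0 < i₁ → P.Cvx 0 → P.Cvx i₂ → P.Cvx i₃ → ∃ P' : Cardy.Dom, P.Blow (q * m) P' ∧
      ∃ (f : ℂ → ℂ) (t : ℝ), Raw M P i₁ i₂ i₃ f t ∧
      |TP P' 0 (q * m * i₁) (q * m * i₂) (q * m * i₃) - t| ≤ ε ∧
      |TP P' (q * m * i₁) (q * m * i₂) (q * m * i₃) (q * m * P.n) - (1 - t)| ≤ ε := by
  refine (eventually_all_finite (hR.2.1 B)).2 fun P _ => ?_
  refine (eventually_all_finite (finite_lt_nat P.n)).2 fun i₃ p4 => ?_
  refine (eventually_all_finite (finite_lt_nat i₃)).2 fun i₂ p3 => ?_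
  refine (eventually_all_finite (finite_lt_nat i₂)).2 fun i₁ p2 => ?_
  refine eventually_imp_distrib_left.2 fun p1 => eventually_imp_distrib_left.2 fun p5 =>
    eventually_imp_distrib_left.2 fun p6 => eventually_imp_distrib_left.2 fun p7 => ?_
  exact h P i₁ i₂ i₃ p1 p2 p3 p4 p5 p6 p7 ε hε

theorem joint (hP : S_POLY) (hR : S_REG) (h2 : S_L2s) (hW : S_Wg) {M : ℝ} {q : ℕ} (hC : Car M q)
    {l ε n ρ σ : ℝ} {c : ℂ} (hl : 0 < l) (hε : 0 < ε) (hn : 0 < n) (hσ : 0 < σ) (hρ : 0 ≤ ρ)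
    (hside : ∀ u : ℂ, ‖u - c‖ ≤ ρ + σ → u.im ≤ σ → 1 ≤ u.re ∨ u.re ≤ 0) :
    ∃ μ B η : ℝ, 0 < μ ∧ 0 < η ∧ μ ≤ l * σ ∧ ∀ᶠ m : ℕ in atTop, ∀ s ∈ Icc (η / 2) η,
      ∀ K g f a w, Small K g f a w (1 / 1000 * l) → ∀ x a₀ a₁ a₂ a₃,
      Geo n c ρ σ x a₀ a₁ a₂ a₃ → 0 ≤ x → x ≤ 1 → Idm M ε n x →
      ∃ (P P' : Cardy.Dom) (i₁ i₂ i₃ : ℕ), P.Blow (q * m) P' ∧ 0 < i₁ ∧ i₁ < i₂ ∧ i₂ < i₃ ∧
        i₃ < P.n ∧ |TP P' 0 (q * m * i₁) (q * m * i₂) (q * m * i₃) - cardy x| ≤ 2 * ε ∧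
        |TP P' (q * m * i₁) (q * m * i₂) (q * m * i₃) (q * m * P.n) - (1 - cardy x)| ≤ 2 * ε ∧
        (∀ z ∈ P.cl, ∀ y : ℂ, ‖y - s * (1 + I) * z‖ ≤ μ →
          y ∈ Dsym K ∧ ‖y‖ ≤ B ∧ ‖nor g l y - c‖ ≤ ρ + σ) ∧
        ∀ p ∈ [(0, i₁, a₀, a₁), (i₁, i₂, a₁, a₂), (i₂, i₃, a₂, a₃), (i₃, P.n, a₃, a₀ + 2 * π)],
          ∀ z ∈ seg P.c p.1 p.2.1, ∀ y : ℂ, ‖y - s * (1 + I) * z‖ ≤ μ →
            y ∈ Dsym K ∧ nor g l y ∈ arcP c ρ σ p.2.2.1 p.2.2.2 := by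
  obtain ⟨μ, B, hμ, hμl, H⟩ := asm h2 hW hl hσ hρ hside
  refine ⟨μ, B, μ / 20, hμ, by positivity, hμl, ?_⟩
  filter_upwards [hC.unif hR (B / (μ / 20 / 2)) hε] with m hm s hs K g f a w h x a₀ a₁ a₂ a₃ G
    hx1 hx2 hI
  replace H := H K g f a w h
  have hD : 0 < wd g l := by linarith [(wd_bd h2 h hl).1]
  have hD' : (wd g l : ℂ) ≠ 0 := by exact_mod_cast hD.ne'
  have hs0 : 0 < s := lt_of_lt_of_le (by positivity) hs.1
  have n1 : 1 ≤ ‖(1 + I : ℂ)‖ := by simpa using re_le_norm (1 + I)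
  have n2 : ‖(1 + I : ℂ)‖ ≤ 2 := (norm_add_le _ _).trans (by norm_num)
  have n3 : ‖(s * (1 + I) : ℂ)‖ = s * ‖(1 + I : ℂ)‖ := by
    rw [norm_mul, norm_real, Real.norm_eq_abs, abs_of_pos hs0]
  have hS : (s * (1 + I) : ℂ) ≠ 0 := norm_pos_iff.1 (by rw [n3]; positivity)
  set Φ : ℂ → ℂ := fun u => f (al g l + wd g l * u) / (s * (1 + I)) with hΦ
  have eΦ : ∀ u, s * (1 + I) * Φ u = f (al g l + wd g l * u) := fun u => mul_div_cancel₀ _ hS
  have mb : ∀ {t : ℝ} {u : ℂ}, u ∈ ball c (ρ + t) → ‖u - c‖ ≤ ρ + t := fun hu => by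
    rw [mem_ball, dist_eq_norm] at hu; exact hu.le
  obtain ⟨P, i₁, i₂, i₃, p1, p2, p3, p4, p5, p6, p7, q0, q1, q2, q3, q4, q5⟩ :=
    core hP hR G hn hx1 hx2 hI (Φ := Φ)
      ((h.sym.df.comp (by fun_prop) fun u hu => (H u (mb hu)).1).div_const _)
      (fun u hu v hv e => by
        have e1 := congrArg (fun z => g (s * (1 + I) * z)) e
        simp only [eΦ, (inv h (H u (mb hu)).1).2, (inv h (H v (mb hv)).1).2] at e1
        exact mul_left_cancel₀ hD' (add_left_cancel e1))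
      fun u hu z hz => by
        obtain ⟨y1, -, y2⟩ := (H u ((mb hu).trans (by linarith))).2 (s * (1 + I) * z) (by
          rw [← eΦ, ← mul_sub, norm_mul, n3]
          rw [mem_ball, dist_eq_norm] at hz
          have : s * ‖(1 + I : ℂ)‖ ≤ μ / 20 * 2 := mul_le_mul hs.2 n2 (by positivity) (by positivity)
          nlinarith [norm_nonneg (z - Φ u)])
        refine ⟨_, by rw [mem_ball, dist_eq_norm]; exact y2.trans_lt (by linarith), ?_⟩
        simp only [hΦ, nor]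
        rw [mul_div_cancel₀ _ hD', add_sub_cancel, h.sym.fg _ y1, mul_div_cancel_left₀ _ hS]
  have c0 : ∀ z ∈ P.cl, ∀ y : ℂ, ‖y - s * (1 + I) * z‖ ≤ μ →
      y ∈ Dsym K ∧ ‖y‖ ≤ B ∧ ‖nor g l y - c‖ ≤ ρ + σ := by
    intro z hz y hy
    obtain ⟨u, hu, rfl⟩ := q0 hz
    rw [eΦ] at hy
    obtain ⟨y1, y2, y3⟩ := (H u ((mb hu).trans (by linarith))).2 y hy
    exact ⟨y1, y2, by linarith [norm_sub_le_norm_sub_add_norm_sub (nor g l y) u c, mb hu]⟩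
  have c1 : ∀ {S : Set ℂ} {b b' : ℝ}, S ⊆ Φ '' arcP c ρ (σ / 2) b b' → ∀ z ∈ S, ∀ y : ℂ,
      ‖y - s * (1 + I) * z‖ ≤ μ → y ∈ Dsym K ∧ nor g l y ∈ arcP c ρ σ b b' := by
    intro S b b' hS z hz y hy
    obtain ⟨u, hu, rfl⟩ := hS hz
    rw [eΦ] at hy
    obtain ⟨y1, -, y3⟩ := (H u ((arcP_sub (hσ.trans_le G.le) hu).trans (by linarith))).2 y hy
    obtain ⟨θ, t1, t2⟩ := hu
    exact ⟨y1, θ, t1, by
      linarith [norm_sub_le_norm_sub_add_norm_sub (nor g l y) u (c + ρ * exp (θ * I))]⟩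
  obtain ⟨P', hP', F, t, r1, r2, r3⟩ := hm P (fun z hz => by
    have := (c0 z hz _ (by rw [sub_self, norm_zero]; exact hμ.le)).2.1
    rw [norm_mul, n3] at this
    rw [mem_closedBall, dist_zero_right, le_div_iff₀ (by positivity)]
    have : μ / 20 / 2 * 1 ≤ s * ‖(1 + I : ℂ)‖ := mul_le_mul hs.1 n1 zero_le_one hs0.le
    nlinarith [norm_nonneg z]) i₃ p4 i₂ p3 i₁ p2 p1 p5 p6 p7
  have r4 := abs_le.1 (q5 F t r1)
  refine ⟨P, P', i₁, i₂, i₃, hP', p1, p2, p3, p4,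
    abs_le.2 ⟨by linarith [(abs_le.1 r2).1], by linarith [(abs_le.1 r2).2]⟩,
    abs_le.2 ⟨by linarith [(abs_le.1 r3).1], by linarith [(abs_le.1 r3).2]⟩, c0, ?_⟩
  simp only [List.forall_mem_cons, List.not_mem_nil, false_imp_iff, implies_true, and_true]
  exact ⟨c1 q1, c1 q2, c1 q3, c1 q4⟩

theorem idm (hI : S_IDM) (M : ℝ) {ε : ℝ} (hε : 0 < ε) :
    ∃ n : ℝ, 10 ≤ n ∧ ∀ x ∈ Icc (1 / 4 : ℝ) (3 / 4), Idm M ε n x := by
  obtain ⟨n, hn, H⟩ := hI M ε (1 / 4) hε (by norm_num)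
  have h1 := le_max_left n 10
  have e := one_div_le_one_div_of_le hn h1
  refine ⟨max n 10, le_max_right _ _, fun x hx U h t hN h2 h3 => H U h x t (hN.mono hn h1)
    ⟨hx.1, by linarith [hx.2]⟩ (fun z a b c d => ?_) fun z a b c d => ?_⟩
  · exact h2 z a (b.trans h1) (by linarith) (by linarith)
  · exact h3 z a (b.trans h1) (by linarith) (by linarith)

theorem u1a (hP : S_POLY) (hR : S_REG) (hI : S_IDM) (hC : S_CARDY) (h2 : S_L2s) (hW : S_Wg)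
    (hQ : S_Prop) : S_U1A := by
  obtain ⟨M, q, hq, hC⟩ := car hC
  refine ⟨1 / 1000, by norm_num, fun l ε hl hε => ?_⟩
  obtain ⟨n, hn, hI⟩ := idm hI M (half_pos hε)
  refine ⟨l * (1 / n / 4), by positivity, fun s₀ hs₀ => ?_⟩
  obtain ⟨N, ρ, σ, p⟩ := par_exists hn (s := s₀ / (8 * l)) (by positivity)
  generalize 1 / n / 4 = κ at p ⊢
  generalize n + 3 = d at p
  have k1 := p.κpos
  have k2 := p.σκ
  have sd : ∀ u : ℂ, ‖u - ⟨1 + κ + d, N⟩‖ ≤ ρ + σ → u.im ≤ σ → 1 + κ / 2 ≤ u.re := fun u h1 h2 => by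
    linarith [(abs_le.1 (p.side h1 h2)).1]
  obtain ⟨μ, B, η, hμ, hη, hμl, H⟩ := joint hP hR h2 hW hC hl (half_pos hε)
    (by linarith : 0 < n) p.σpos p.ρpos.le fun u h1 h2 => Or.inl (by linarith [sd u h1 h2])
  refine ⟨μ, B, η, q, hμ, hη, hq, ?_⟩
  filter_upwards [H] with m H s hs K g f a w h
  have hx := x_mem h2 h hl
  obtain ⟨d1, d2⟩ := wd_bd h2 h hl
  have hD : 0 < wd g l := by linarith
  obtain ⟨a₀, a₁, a₂, a₃, G, g1, g2⟩ := p.geoA hx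
  obtain ⟨P, P', i₁, i₂, i₃, b, p1, p2, p3, p4, t1, t2, c0, c1⟩ := H s hs K g f a w h _ _ _ _ _ G
    (by linarith [hx.1]) (by linarith [hx.2]) (hI _ hx)
  simp only [List.forall_mem_cons] at c1
  simp only [al, wd] at t1
  refine ⟨P, P', i₁, i₂, i₃, b, p1, p3, by linarith [(abs_le.1 t1).1], fun z hz y hy => ?_,
    fun z hz y hy => ?_, fun z hz y hy => ?_⟩
  · obtain ⟨y1, y2, y3⟩ := c0 z hz y hy
    refine ⟨y1, y2, fun y4 => ?_⟩
    have e1 := nor_re hD y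
    have e2 := nor_im hD y
    have a1 : (nor g l y).im ≤ σ := by
      have := im_le hQ h y1 hμ.le y4
      refine le_of_mul_le_mul_left ?_ hD
      nlinarith [p.σpos]
    have a2 := sd _ y3 a1
    have a3 := p.low y3
    have e3 : (g y).re - (g (2 * l : ℝ)).re = wd g l * ((nor g l y).re - 1) := by
      rw [e1, al, wd]; push_cast; ring
    have a4 := cone h2 h (by positivity) (x := 2 * l) (by rw [abs_of_pos (by linarith)]; linarith)
      y1 (by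
        rw [e3, e2, abs_mul, abs_mul]
        refine mul_le_mul_of_nonneg_left (abs_le.2 ⟨?_, ?_⟩) (abs_nonneg _) <;>
          linarith [le_abs_self ((nor g l y).re - 1)])
    have a5 : 2 * l * (κ / 2) ≤ wd g l * ((nor g l y).re - 1) :=
      mul_le_mul d1 (by linarith) (by positivity) hD.le
    rw [e3, abs_of_nonneg (a := wd g l * _) (le_trans (by positivity) a5)] at a4
    nlinarith [(abs_le.1 a4).1]
  · obtain ⟨y1, y2⟩ := c1.1 z hz y hy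
    obtain ⟨a1, a2, a3, a4⟩ := g1 _ y2
    have e1 := nor_re hD y
    have e2 := nor_im hD y
    have e3 : wd g l * ((w - al g l) / wd g l) = w - al g l := mul_div_cancel₀ _ hD.ne'
    have e4 : 4 * l * (2 * (s₀ / (8 * l))) = s₀ := by field_simp; ring
    refine ⟨pos_of_im h y1 (by rw [e2]; positivity), ?_, ?_, ?_⟩
    · rw [e1, al]; nlinarith
    · rw [e1]; nlinarith
    · rw [e2, ← e4]; exact mul_le_mul d2 a4 a1.le (by positivity)
  · obtain ⟨y1, y2⟩ := c1.2.2.1 z hz y hy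
    exact neg_of_im h y1 (by rw [nor_im hD]; exact mul_neg_of_pos_of_neg hD (g2 _ y2))

theorem u1b (hP : S_POLY) (hR : S_REG) (hI : S_IDM) (hC : S_CARDY) (h2 : S_L2s) (hW : S_Wg)
    (hQ : S_Prop) : S_U1B := by
  obtain ⟨M, q, hq, hC⟩ := car hC
  refine ⟨1 / 1000, by norm_num, fun l ε hl hε => ?_⟩
  obtain ⟨n, hn, hI⟩ := idm hI M (half_pos hε)
  refine ⟨l * (1 / n / 4), by positivity, fun s₀ hs₀ => ?_⟩
  obtain ⟨N, ρ, σ, p⟩ := par_exists hn (s := s₀ / (8 * l)) (by positivity)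
  generalize 1 / n / 4 = κ at p ⊢
  generalize n + 3 = d at p
  have k1 := p.κpos
  have k2 := p.σκ
  have sd : ∀ u : ℂ, ‖u - ⟨-κ - d, N⟩‖ ≤ ρ + σ → u.im ≤ σ → u.re ≤ -(κ / 2) := fun u h1 h2 => by
    linarith [(abs_le.1 (p.side h1 h2)).2]
  obtain ⟨μ, B, η, hμ, hη, hμl, H⟩ := joint hP hR h2 hW hC hl (half_pos hε)
    (by linarith : 0 < n) p.σpos p.ρpos.le fun u h1 h2 => Or.inr (by linarith [sd u h1 h2])
  refine ⟨μ, B, η, q, hμ, hη, hq, ?_⟩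
  filter_upwards [H] with m H s hs K g f a w h
  have hx := x_mem h2 h hl
  obtain ⟨d1, d2⟩ := wd_bd h2 h hl
  have hD : 0 < wd g l := by linarith
  obtain ⟨a₀, a₁, a₂, a₃, G, g1, g2⟩ := p.geoB hx
  obtain ⟨P, P', i₁, i₂, i₃, b, p1, p2, p3, p4, t1, t2, c0, c1⟩ := H s hs K g f a w h _ _ _ _ _ G
    (by linarith [hx.1]) (by linarith [hx.2]) (hI _ hx)
  simp only [List.forall_mem_cons] at c1
  simp only [al, wd] at t2
  refine ⟨P, P', i₁, i₂, i₃, b, p2, p4, by linarith [(abs_le.1 t2).1], fun z hz y hy => ?_,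
    fun z hz y hy => ?_, fun z hz y hy => ?_⟩
  · obtain ⟨y1, y2, y3⟩ := c0 z hz y hy
    refine ⟨y1, y2, fun y4 => ?_⟩
    have e1 := nor_re hD y
    have e2 := nor_im hD y
    have a1 : (nor g l y).im ≤ σ := by
      have := im_le hQ h y1 hμ.le y4
      refine le_of_mul_le_mul_left ?_ hD
      nlinarith [p.σpos]
    have a2 := sd _ y3 a1
    have a3 := p.low y3
    have e3 : (g y).re - (g (-l : ℝ)).re = wd g l * (nor g l y).re := by
      rw [e1, al]; push_cast; ring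
    have a4 := cone h2 h (by positivity) (x := -l) (by rw [abs_neg, abs_of_pos hl]; linarith)
      y1 (by
        rw [e3, e2, abs_mul, abs_mul]
        refine mul_le_mul_of_nonneg_left (abs_le.2 ⟨?_, ?_⟩) (abs_nonneg _) <;>
          linarith [neg_le_abs (nor g l y).re])
    have a5 : 2 * l * (κ / 2) ≤ wd g l * -(nor g l y).re :=
      mul_le_mul d1 (by linarith) (by positivity) hD.le
    rw [e3, abs_of_nonpos (a := wd g l * _) (by nlinarith)] at a4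
    nlinarith [(abs_le.1 a4).2]
  · obtain ⟨y1, y2⟩ := c1.2.1 z hz y hy
    obtain ⟨a1, a2, a3, a4⟩ := g1 _ y2
    have e1 := nor_re hD y
    have e2 := nor_im hD y
    have e3 : wd g l * ((w - al g l) / wd g l) = w - al g l := mul_div_cancel₀ _ hD.ne'
    have e4 : 4 * l * (2 * (s₀ / (8 * l))) = s₀ := by field_simp; ring
    have e5 : (g (2 * l)).re = al g l + wd g l := by rw [al, wd]; ring
    refine ⟨pos_of_im h y1 (by rw [e2]; positivity), ?_, ?_, ?_⟩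
    · rw [e1]; nlinarith
    · rw [e1, e5]; nlinarith
    · rw [e2, ← e4]; exact mul_le_mul d2 a4 a1.le (by positivity)
  · obtain ⟨y1, y2⟩ := c1.2.2.2.1 z hz y hy
    exact neg_of_im h y1 (by rw [nor_im hD]; exact mul_neg_of_pos_of_neg hD (g2 _ y2))

end Pool.Agent.P.MP_6c8efb_pr.SLE.One
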