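import Pool.Agent.P.MP_6c8efb_pr.SLE.UTile
import Pool.Agent.P.MP_6c8efb_pr.Cardy.TDom

/-! Elementary properties of polyominoes. -/

open Set Metric

namespace Pool.Agent.P.MP_6c8efb_pr.SLE

theorem mem_sq1 {t : V} {z : ℂ} :
    z ∈ sq 1 t ↔ t.1 ≤ z.re ∧ z.re ≤ t.1 + 1 ∧ t.2 ≤ z.im ∧ z.im ≤ t.2 + 1 := by
  simp only [sq, one_mul, mem_ofPred_eq]

theorem mem_cl {P : Cardy.Dom} {z : ℂ} : z ∈ P.cl ↔ ∃ t ∈ P.D, z ∈ sq 1 t := by
  simp only [Cardy.Dom.cl, mem_iUnion, exists_prop, Complex.mem_reProdIm, mem_Icc, mem_sq1,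
    and_assoc]

theorem cx_add (x y : V) : cx (x + y) = cx x + cx y := by
  apply Complex.ext <;> simp [cx]

theorem mem_side {v : V} {d : Fin 4} {z : ℂ} :
    z ∈ segment ℝ (cx v) (cx (v + u d)) ↔ z ∈ sq 1 (fc v (d + 1)) ∧ z ∈ sq 1 (fc v d) := by
  rw [segment_eq_image', cx_add, add_sub_cancel_left]
  constructor
  · rintro ⟨r, ⟨h0, h1⟩, rfl⟩
    rcases cases4 d with rfl | rfl | rfl | rfl <;> simp [mem_sq1, cx] <;> grind
  · rintro ⟨h1, h2⟩
    rcases cases4 d with rfl | rfl | rfl | rfl <;> simp [mem_sq1] at h1 h2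
    · exact ⟨z.re - v.1, ⟨by linarith, by linarith⟩, by apply Complex.ext <;> simp [cx]; linarith⟩
    · exact ⟨z.im - v.2, ⟨by linarith, by linarith⟩, by apply Complex.ext <;> simp [cx]; linarith⟩
    · exact ⟨v.1 - z.re, ⟨by linarith, by linarith⟩, by apply Complex.ext <;> simp [cx]; linarith⟩
    · exact ⟨v.2 - z.im, ⟨by linarith, by linarith⟩, by apply Complex.ext <;> simp [cx]; linarith⟩

theorem mem_seg {c : ℕ → V} {i j : ℕ} {z : ℂ} :
    z ∈ seg c i j ↔ ∃ k, i ≤ k ∧ k < j ∧ z ∈ segment ℝ (cx (c k)) (cx (c (k + 1))) := by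
  simp only [seg, mem_iUnion, mem_Ico, exists_prop, and_assoc]

theorem seg_sub_cl (P : Cardy.Dom) (i j : ℕ) : seg P.c i j ⊆ P.cl := fun z hz => by
  obtain ⟨k, -, -, h⟩ := mem_seg.1 hz
  rw [P.step] at h
  exact mem_cl.2 ⟨_, P.fc_in k, (mem_side.1 h).1⟩

theorem isCompact_cl (P : Cardy.Dom) : IsCompact P.cl :=
  P.D.isCompact_biUnion fun _ _ => isCompact_Icc.reProdIm isCompact_Icc

/-- away from the boundary walk, all the tiles at a point of the polygon are in the domain -/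
theorem tile_mem {P : Cardy.Dom} {z : ℂ} (hz : z ∉ seg P.c 0 P.n) {t t' : V} (ht : t ∈ P.D)
    (h : z ∈ sq 1 t) (h' : z ∈ sq 1 t') : t' ∈ P.D := by
  have key : ∀ (v : V) (d : Fin 4), fc v (d + 1) ∈ P.D → z ∈ sq 1 (fc v (d + 1)) →
      z ∈ sq 1 (fc v d) → fc v d ∈ P.D := fun v d h1 h2 h3 => by
    by_contra h4
    obtain ⟨i, hi, rfl, rfl⟩ := P.bdry_lt h1 h4
    exact hz (mem_seg.2 ⟨i, Nat.zero_le _, hi, by rw [P.step]; exact mem_side.2 ⟨h2, h3⟩⟩)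
  have near : ∀ {a b : ℤ} {x : ℝ}, a ≤ x → x ≤ a + 1 → b ≤ x → x ≤ b + 1 →
      b = a ∨ b = a + 1 ∨ b = a - 1 := fun {a b x} h1 h2 h3 h4 => by
    have h5 : a ≤ b + 1 := by exact_mod_cast h1.trans h4
    have h6 : b ≤ a + 1 := by exact_mod_cast h3.trans h2
    omega
  obtain ⟨a, b⟩ := t
  obtain ⟨a', b'⟩ := t'
  have h1 := mem_sq1.1 h
  have h2 := mem_sq1.1 h'
  have h3 : z ∈ sq 1 (a', b) := mem_sq1.2 ⟨h2.1, h2.2.1, h1.2.2⟩
  have h4 : (a', b) ∈ P.D := by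
    obtain h5 | h5 | h5 := near h1.1 h1.2.1 h2.1 h2.2.1 <;> dsimp only at h5 <;> subst h5
    · exact ht
    · simpa using key (a + 1, b) 1 (by simpa using ht) (by simpa using h) (by simpa using h3)
    · simpa using key (a, b + 1) 3 (by simpa using ht) (by simpa using h) (by simpa using h3)
  obtain h5 | h5 | h5 := near h1.2.2.1 h1.2.2.2 h2.2.2.1 h2.2.2.2 <;> dsimp only at h5 <;> subst h5
  · exact h4
  · simpa using key (a' + 1, b + 1) 2 (by simpa using h4) (by simpa using h3) (by simpa using h')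
  · simpa using key (a', b) 0 (by simpa using h4) (by simpa using h3) (by simpa using h')

theorem mem_interior_cl {P : Cardy.Dom} {z : ℂ} (h : z ∈ P.cl) (hz : z ∉ seg P.c 0 P.n) :
    z ∈ interior P.cl := by
  obtain ⟨t, ht, h⟩ := mem_cl.1 h
  refine mem_interior.2 ⟨Ioo ((⌈z.re⌉ : ℝ) - 1) (⌊z.re⌋ + 1) ×ℂ Ioo ((⌈z.im⌉ : ℝ) - 1) (⌊z.im⌋ + 1),
    fun w hw => ?_, isOpen_Ioo.reProdIm isOpen_Ioo, ?_⟩
  · have key : ∀ {x y : ℝ}, y ∈ Ioo ((⌈x⌉ : ℝ) - 1) (⌊x⌋ + 1) → (⌊y⌋ : ℝ) ≤ x ∧ x ≤ ⌊y⌋ + 1 :=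
      fun {x y} h => by
        have h1 : ⌊y⌋ < ⌊x⌋ + 1 := Int.floor_lt.2 (by exact_mod_cast h.2)
        have h2 : ⌈x⌉ - 1 ≤ ⌊y⌋ := Int.le_floor.2 (by exact_mod_cast h.1.le)
        exact ⟨Int.le_floor.1 (by omega), by exact_mod_cast Int.ceil_le.1 (show _ ≤ ⌊y⌋ + 1 by omega)⟩
    refine mem_cl.2 ⟨(⌊w.re⌋, ⌊w.im⌋), tile_mem hz ht h (mem_sq1.2 ?_), mem_sq1.2 ?_⟩
    · exact ⟨(key hw.1).1, (key hw.1).2, key hw.2⟩
    · exact ⟨Int.floor_le _, (Int.lt_floor_add_one _).le, Int.floor_le _,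
        (Int.lt_floor_add_one _).le⟩
  · exact ⟨⟨by linarith [Int.ceil_lt_add_one z.re], Int.lt_floor_add_one _⟩,
      by linarith [Int.ceil_lt_add_one z.im], Int.lt_floor_add_one _⟩

theorem frontier_cl (P : Cardy.Dom) : frontier (interior P.cl) ⊆ seg P.c 0 P.n := fun z hz => by
  by_contra h
  exact hz.2 (by
    rw [interior_interior]
    exact mem_interior_cl (closure_minimal interior_subset (isCompact_cl P).isClosed hz.1) h)

/-- a domain is determined by its tiles and its base point -/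
theorem dom_ext {P P' : Cardy.Dom} (hD : P.D = P'.D) (h0 : P.c 0 = P'.c 0) : P = P' := by
  have h1 : ∀ i, P.c i = P'.c i → P.dir i = P'.dir i := fun i h => by
    obtain ⟨j, h2, h3⟩ := (P'.bdry _ _).1 ⟨hD ▸ P.fc_in i, hD ▸ P.fc_out i⟩
    exact h3.symm.trans (P'.dir_eq (h2.trans h))
  have h2 : ∀ i, P.c i = P'.c i := fun i => by
    induction i with
    | zero => exact h0
    | succ i ih => rw [P.step, P'.step, h1 i ih, ih]
  have h3 : P.n = P'.n := by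
    have h4 := P'.c_eq_iff.1 ((h2 _).symm.trans (P.close.trans h0))
    have h5 := P.c_eq_iff.1 ((h2 _).trans (P'.close.trans h0.symm))
    rw [Nat.zero_mod] at h4 h5
    exact Nat.dvd_antisymm (Nat.dvd_of_mod_eq_zero h5) (Nat.dvd_of_mod_eq_zero h4)
  have h4 : P.c = P'.c := funext h2
  have h5 : P.dir = P'.dir := funext fun i => h1 i (h2 i)
  cases P
  cases P'
  dsimp only at hD h3 h4 h5
  subst hD h3 h4 h5
  rfl

theorem dom_finite (B : ℝ) : {P : Cardy.Dom | P.cl ⊆ closedBall 0 B}.Finite := by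
  have hY : {x : V | cx x ∈ closedBall (0 : ℂ) B}.Finite := by
    refine ((finite_Icc (-⌈B⌉) ⌈B⌉).prod (finite_Icc (-⌈B⌉) ⌈B⌉)).subset fun x hx => ?_
    have h0 : ‖cx x‖ ≤ ⌈B⌉ := (mem_closedBall_zero_iff.1 hx).trans (Int.le_ceil B)
    have h1 : |(x.1 : ℝ)| ≤ ⌈B⌉ := (Complex.abs_re_le_norm (cx x)).trans h0
    have h2 : |(x.2 : ℝ)| ≤ ⌈B⌉ := (Complex.abs_im_le_norm (cx x)).trans h0
    exact ⟨abs_le.1 (by exact_mod_cast h1), abs_le.1 (by exact_mod_cast h2)⟩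
  refine Finite.of_finite_image (f := fun P : Cardy.Dom => ((P.D : Set V), P.c 0))
    ((hY.finite_subsets.prod hY).subset ?_) fun P _ P' _ h =>
      dom_ext (Finset.coe_injective (congrArg Prod.fst h)) (congrArg Prod.snd h)
  rintro _ ⟨P, hP, rfl⟩
  exact ⟨fun t ht => hP (mem_cl.2 ⟨t, ht, cx_mem_sq.2 (by omega)⟩),
    hP (seg_sub_cl P 0 1 (mem_seg.2 ⟨0, le_rfl, one_pos, left_mem_segment _ _ _⟩))⟩

theorem blow_c {P P' : Cardy.Dom} {m : ℕ} (h : P.Blow m P') (k r : ℕ) (hr : r ≤ m) :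
    P'.c (m * k + r) = m • P.c k + r • u (P.dir k) := by
  induction r with
  | zero => simpa using h.c k
  | succ r ih =>
    rw [← add_assoc, P'.step, ih (by omega), h.dir, Nat.mul_add_div (by omega),
      Nat.div_eq_of_lt (by omega), add_zero, succ_nsmul, add_assoc]

theorem cx_nsmul (m : ℕ) (x : V) : cx (m • x) = m * cx x := by
  apply Complex.ext <;> simp [cx]

theorem s_reg : S_REG := by
  refine ⟨fun P => ⟨isCompact_cl P, frontier_cl P, seg_sub_cl P _ _⟩, dom_finite,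
    fun P P' m hm h => ⟨fun t ht z hz => ?_, fun a a' i ha h1 h2 => ?_⟩⟩
  · rw [h.D] at ht
    simp only [Cardy.Dom.blowD, Finset.mem_biUnion, Finset.mem_product, Finset.mem_Ico] at ht
    obtain ⟨q, hq, ⟨h1, h2⟩, h3, h4⟩ := ht
    have h0 : (0 : ℝ) < m := by exact_mod_cast hm
    have key : ∀ {a b : ℤ} {x : ℝ}, m * a ≤ b → b < m * a + m → b ≤ x → x ≤ b + 1 →
        a ≤ x / m ∧ x / m ≤ a + 1 := fun {a b x} h1 h2 h3 h4 => by
      have h5 : ((m * a : ℤ) : ℝ) ≤ b := by exact_mod_cast h1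
      have h6 : ((b + 1 : ℤ) : ℝ) ≤ (m * a + m : ℤ) := by exact_mod_cast h2
      push_cast at h5 h6
      rw [le_div_iff₀ h0, div_le_iff₀ h0]
      constructor <;> linarith
    rw [mem_sq1] at hz
    refine mem_cl.2 ⟨q, hq, mem_sq1.2 ?_⟩
    rw [Complex.div_natCast_re, Complex.div_natCast_im]
    exact ⟨(key h1 h2 hz.1 hz.2.1).1, (key h1 h2 hz.1 hz.2.1).2, key h3 h4 hz.2.2.1 hz.2.2.2⟩
  · obtain ⟨k, r, h3, h4, h5, rfl⟩ : ∃ k r, a ≤ k ∧ k < a' ∧ r ≤ m ∧ i = m * k + r := by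
      rcases h2.eq_or_lt with rfl | h2
      · obtain ⟨k, rfl⟩ : ∃ k, a' = k + 1 := ⟨a' - 1, by omega⟩
        exact ⟨k, m, by omega, by omega, le_rfl, by ring⟩
      · exact ⟨i / m, i % m, (Nat.le_div_iff_mul_le hm).2 (by linarith),
          (Nat.div_lt_iff_lt_mul hm).2 (by linarith), (Nat.mod_lt _ hm).le,
          (Nat.div_add_mod _ _).symm⟩
    have h0 : (0 : ℝ) < m := by exact_mod_cast hm
    have h6 : (m : ℂ) ≠ 0 := by exact_mod_cast hm.ne'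
    refine mem_seg.2 ⟨k, h3, h4, ?_⟩
    rw [segment_eq_image', P.step, cx_add, add_sub_cancel_left, blow_c h k r h5, cx_add, cx_nsmul,
      cx_nsmul]
    refine ⟨r / m, ⟨by positivity, (div_le_one h0).2 (by exact_mod_cast h5)⟩, ?_⟩
    simp only [Complex.real_smul]
    push_cast
    field_simp

end Pool.Agent.P.MP_6c8efb_pr.SLE
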