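import Pool.Agent.P.MP_6c8efb_pr.SLE.UPar

/-! The crossing formula holds uniformly over the slit domains. -/

open Set Filter Topology Metric Complex
open scoped NNReal

namespace Pool.Agent.P.MP_6c8efb_pr.SLE

theorem lowerA (hFP : S_FP) (hU : S_U1A) (hR : S_REG) (hT : S_TILE) (hE : S_EXTA) (hLR : S_LR)
    (hDISC : S_DISC) (hCONT : S_CONT) (hEND : S_END) (hWf : L.S_Wf) (hWg : L.S_Wg) (hP : L.S_Prop)
    (h2 : L.S_L2s) (hC : L.S_Cont) : ∃ c₀ : ℝ, 0 < c₀ ∧ ∀ l ε : ℝ, 0 < l → 0 < ε →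
    ∀ᶠ δ : ℝ in 𝓝[>] 0, ∃ N : ℤ, ∀ (ξ : Cfg) (k : ℕ), L.Simple (pc (δ / 2) (fp ξ)) →
      L.hull (pc (δ / 2) (fp ξ)) (k + 1 : ℕ) ⊆ closedBall 0 (c₀ * l) →
      cardy (lam (pc (δ / 2) (fp ξ)) (k + 1 : ℕ) l) - ε ≤ cond (EvA ⌊l / δ⌋ ⌈2 * l / δ⌉ N) ξ k := by
  classical
  obtain ⟨c₁, c1, hU⟩ := hU
  obtain ⟨C, c, c0, hE⟩ := hE
  have m0 : 0 < min (c₁ / 13) (1 / 2000) := by positivity
  refine ⟨min (c₁ / 13) (1 / 2000), m0, fun l ε hl hε => ?_⟩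
  set r₀ := min (c₁ / 13) (1 / 2000) * l
  have r0 : 0 < r₀ := by positivity
  have r1 : 13 * r₀ ≤ c₁ * l := by have := min_le_left (c₁ / 13) (1 / 2000); simp only [r₀]; nlinarith
  have r2 : 2000 * r₀ ≤ l := by have := min_le_right (c₁ / 13) (1 / 2000); simp only [r₀]; nlinarith
  obtain ⟨κ', k0, hU⟩ := hU l (ε / 2) hl (half_pos hε)
  set κ := min κ' l
  have k1 : 0 < κ := lt_min k0 hl
  have k2 : κ ≤ κ' := min_le_left _ _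
  have k3 : κ ≤ l := min_le_right _ _
  obtain ⟨ρ', r', s₀, p1, p2, p3, p4, p5, p6, p7⟩ := params (C := C) hl k1 (half_pos hε) c0
  obtain ⟨μ, B, η, q, μ0, η0, q0, hU⟩ := hU s₀ p4
  obtain ⟨h₀, h0, hLR⟩ := hLR (10 * l) (κ / 8) (by positivity)
  filter_upwards [p7, mesh η0 q0 hU, ev_le h0, ev_le (a := μ / 6) (by positivity),
    ev_le (a := κ / 10) (by positivity)] with δ ⟨r, ρ, q1, q2, q3, q4, q5⟩ ⟨m, hm, m1, m2⟩ ⟨d0, d1⟩
    ⟨_, d2⟩ ⟨_, d3⟩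
  refine ⟨⌈(B + 2 * δ) / δ⌉ + ρ + ⌈2 * r₀ / δ⌉ + 10, fun ξ k hS hK => ?_⟩
  have hq := hFP ξ
  have hh := half_pos d0
  have S1 := small_of hC hS r0 hK r1
  have S2 := small_of hC hS r0 hK le_rfl
  have l2 : 100 * (13 * r₀) ≤ l := by linarith
  have r3 : 0 < 13 * r₀ := by positivity
  obtain ⟨e1, e2, e3⟩ := ends_near h2 S2 r3 l2
  have e4 := abs_le.1 S2.abs
  have hK' := hK.trans (closedBall_subset_closedBall (show r₀ ≤ 10 * l by linarith))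
  replace hLR := hLR (δ / 2) (fp ξ) (k + 1) hh (by linarith) hq hS hK'
  obtain ⟨P, P', i₁, i₂, i₃, hB, j1, j2, hTP, G1, G2, G3⟩ := hm _ m2 _ _ _ _ _ S1
  unfold lam
  set K := L.hull (pc (δ / 2) (fp ξ)) (k + 1 : ℕ)
  set g := L.gt (pc (δ / 2) (fp ξ)) (k + 1 : ℕ)
  set w := L.drv (pc (δ / 2) (fp ξ)) (k + 1 : ℕ)
  rw [abs_le] at e1 e2
  have fam' := fun x : Icc ((g (-l)).re + κ) (w - κ) =>
    have hx : |(x : ℝ)| ≤ 3 * l := abs_le.2 ⟨by linarith [x.2.1], by linarith [x.2.2]⟩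
    fam hDISC hCONT hEND hWf hWg hP hh hq (x := x) S2.hyd hK' p4 p5
      (fun z hz h => (e3 z hz).trans (by linarith)) (p6 x hx) p1 p2 q3 q2 q4
  choose s hs z Z Z1 Z2 Z3 Z4 using fam'
  have a1 := Int.floor_le (l / δ)
  have a2 := Int.sub_one_lt_floor (l / δ)
  have a3 := Int.ceil_lt_add_one (2 * r₀ / δ)
  rw [sub_lt_iff_lt_add, div_lt_iff₀ d0] at a2
  rw [← sub_lt_iff_lt_add, lt_div_iff₀ d0] at a3
  have Ra : ⌈2 * r₀ / δ⌉ ≤ ⌊l / δ⌋ := by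
    have : (⌈2 * r₀ / δ⌉ : ℝ) * δ ≤ ⌊l / δ⌋ * δ := by nlinarith
    exact_mod_cast le_of_mul_le_mul_right this d0
  have Rb : ⌈2 * r₀ / δ⌉ ≤ ⌈2 * l / δ⌉ :=
    Int.ceil_le_ceil (div_le_div_of_nonneg_right (by linarith) d0.le)
  have No : ∀ x, NoR (fp ξ) (k + 1) (z x) (Z x) ρ (Ico (-2 * ⌊l / δ⌋) 0) := fun x c₀ h0 c hc => by
    obtain ⟨u1, u2⟩ := Z3 x c₀ h0 c hc
    have u3 := abs_le.1 ((abs_re_le_norm _).trans u2)
    simp only [sub_re, ofReal_re] at u3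
    have u4 := (hLR c _ ((hCONT _ _ (k + 1) hh hq).1 c u1)).2
    have u5 : ¬(c ∈ Rgt (fp ξ) (k + 1) ∨ c.2 = 0 ∧ 0 ≤ c.1) := fun h => by
      have := u4 h
      change w - κ / 8 ≤ (g (cen (δ / 2) c)).re at this
      linarith [x.2.2]
    refine ⟨fun h => u5 (Or.inl h), fun h => ⟨not_lt.1 fun h' => ?_, not_le.1 fun h' =>
      u5 (Or.inr ⟨h, h'⟩)⟩⟩
    have u6 : (c.1 : ℝ) + 1 ≤ -2 * ⌊l / δ⌋ := by exact_mod_cast h'
    have u7 : (cen (δ / 2) c).re ≤ -l + δ := by rw [cen_re]; nlinarith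
    have := lip_re h2 S2 r3 l2 (z := cen (δ / 2) c) (z' := -l)
      (Or.inl ⟨by linarith, by simp; linarith⟩) d0.le (by simp; linarith)
      (by simp [cen_im, h, abs_of_pos hh]; linarith)
    linarith [x.2.1]
  have hQ := (hE ξ k _ _ ⌈(B + 2 * δ) / δ⌉ _ r ρ _ z Z q1 q2 (nm_of_hull d0 r0 hq hK) Ra Rb Z1
    (fun x c hc => by
      obtain ⟨c', u1, u2⟩ := Z2 x c hc
      refine ⟨c', u1, u2.imp_right fun u2 => u2.resolve_left (No x c hc c' ?_).1⟩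
      exact Conn.mono_set u1 fun y hy => ⟨(Z1 x hy).1.trans q2, (Z1 x hy).2⟩) No).trans q5
  obtain ⟨B1, B2⟩ := hR.2.2 P P' _ m1 hB
  have key : ∀ κ : ℤ, κ = 0 ∨ κ = 1 →
      {ω | (fun t => tl ω (t + (κ, 0))) ∈ P'.Crs κ 0 (q * m * i₁) (q * m * i₂) (q * m * i₃)} ⊆
      {ω | ∃ (x y : V) (i : Icc ((g (-l)).re + min κ' l) (w - min κ' l)), y.2 = 0 ∧
        ⌈2 * l / δ⌉ ≤ y.1 ∧ cv x ∈ Z i ∧
        Conn (fr (mg ξ k ω)) (Bx 0 ⌈(B + 2 * δ) / δ⌉) y x} := by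
    rintro ε₀ h01 ω ⟨i, j, i1, i2, i3, i4, i5, i6⟩
    have par : ∀ x : V, (x.1 + x.2) % 2 = ε₀ → ((x + (ε₀, 0)).1 + (x + (ε₀, 0)).2) % 2 = 0 :=
      fun x hx => by simp only [Prod.fst_add, Prod.snd_add]; omega
    have s1 := B2 0 i₁ i j1 i1 i2
    have s2 := B2 i₂ i₃ j j2 i3 i4
    have n1 := tp_near d0 m1 (P'.c i) h01
    have n2 := tp_near d0 m1 (P'.c j) h01
    rw [← cen_tv δ (par _ i5)] at n1
    rw [← cen_tv δ (par _ ((tconn_mod i6).trans i5))] at n2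
    obtain ⟨g1, g2, g3, g4⟩ := G2 _ s1 _ (n1.trans (by linarith))
    have g5 := G3 _ s2 _ (n2.trans (by linarith))
    obtain ⟨t, t1, t2⟩ := (tconn_corner i6).resolve_left fun e => by rw [e] at g1; linarith
    have cn := (hT.2 ω (mg ξ k ω) P'.D {v | ∃ a ∈ (fun z => ((δ * (q * m : ℕ) / 2 : ℝ) : ℂ) *
      (1 + I) * z) '' P.cl, ‖cen (δ / 2) (cv v) - a‖ ≤ 2 * δ} (ε₀, 0) _ _ i6 fun t ht =>
      fresh (μ := μ) d0 (by linarith) m1 (fun z hz y hy => (G1 z hz y hy).1)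
        (B1 t ht _ (by simp [sq, cx])) h01 ω).1 (par _ i5) fun t ht x hx hp =>
      ⟨_, ⟨_, B1 t ht _ hx, rfl⟩, by rw [cen_tv δ hp]; exact tp_near d0 m1 x h01⟩
    set y₀ := cen (δ / 2) (cv (tv (P'.c i + (ε₀, 0))))
    have yD := L.mem_D_of_Dsym (G1 _ (B1 t t1 _ t2) _ (n1.trans (by linarith))).1 g1
    let x : Icc ((g (-l)).re + κ) (w - κ) := ⟨(g y₀).re, by linarith, by linarith⟩
    obtain ⟨a, b, b1, b2, b3, b4⟩ := walk_to (α := -1) (β := 1) (cl := cv) (μ := μ) (B := B)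
      (Far := fun y => 2 * l + μ ≤ y.re) (K := K) (g := g) (s := s x) (x := x) (Z := Z x)
      (σ' := fr (mg ξ k ω)) (M := ⌈(B + 2 * δ) / δ⌉) d0 (fun v => rfl) (by norm_num) (by norm_num)
      (by rintro _ ⟨z, hz, rfl⟩ y hy; exact G1 z hz y hy) (by linarith)
      ((div_le_iff₀' d0).1 (Int.le_ceil _)) cn ⟨_, ⟨_, B1 t t1 _ t2, rfl⟩, n1⟩ g1 g5
      (by
        have : g y₀ - (x : ℝ) = (g y₀).im * I := by apply Complex.ext <;> simp [x]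
        rw [this, norm_mul, norm_I, mul_one, norm_real, Real.norm_eq_abs,
          abs_of_pos (S2.hyd.mg yD)]
        exact g4.trans_lt (hs x).1)
      (fun y f1 f2 f3 => by
        have := lip_re h2 S2 r3 l2 (z := 2 * l) (z' := y) (d := 2 * δ)
          (Or.inr ⟨by simp; linarith, by linarith⟩) (by linarith) (by simp; linarith)
          (by simpa [abs_of_pos f2] using f3)
        have f4 := re_le_norm (g y - (x : ℝ))
        simp only [sub_re, ofReal_re] at f4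
        linarith [(hs x).2, x.2.2])
      S2.hyd.dg.continuousOn (Z4 x) fun e f1 f2 f3 => by
        have f4 : ¬(e.1.2 < 0 ∨ (e.1.2 = 0 ∧ e.2 = true)) := by
          rintro (h | ⟨h, h'⟩)
          · omega
          · simp [hd, h', h] at f2
        rw [fr, if_neg f4]
        exact (Bool.and_eq_true_iff.1 f3).1
    refine ⟨a, b, x, b1, Int.ceil_le.2 ((div_le_iff₀ d0).2 ?_), b3, b4⟩
    simp only [cen_re, cv] at b2
    push_cast at b2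
    nlinarith
  have fin := mean_le (key 0 (Or.inl rfl)) (key 1 (Or.inr rfl))
    (F := {ω | mg ξ k ω ∈ EvA ⌊l / δ⌋ ⌈2 * l / δ⌉ (⌈(B + 2 * δ) / δ⌉ + ρ + ⌈2 * r₀ / δ⌉ + 10)}) hQ
  rw [hT.1, hT.1] at fin
  unfold TP at hTP
  unfold cond
  linarith

theorem lowerB (hFP : S_FP) (hU : S_U1B) (hR : S_REG) (hT : S_TILE) (hE : S_EXTB) (hLR : S_LR)
    (hDISC : S_DISC) (hCONT : S_CONT) (hEND : S_END) (hWf : L.S_Wf) (hWg : L.S_Wg) (hP : L.S_Prop)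
    (h2 : L.S_L2s) (hC : L.S_Cont) : ∃ c₀ : ℝ, 0 < c₀ ∧ ∀ l ε : ℝ, 0 < l → 0 < ε →
    ∀ᶠ δ : ℝ in 𝓝[>] 0, ∃ N : ℤ, ∀ (ξ : Cfg) (k : ℕ), L.Simple (pc (δ / 2) (fp ξ)) →
      L.hull (pc (δ / 2) (fp ξ)) (k + 1 : ℕ) ⊆ closedBall 0 (c₀ * l) →
      1 - cardy (lam (pc (δ / 2) (fp ξ)) (k + 1 : ℕ) l) - ε ≤
        cond (EvB ⌊l / δ⌋ ⌈2 * l / δ⌉ N) ξ k := by
  classical
  obtain ⟨c₁, c1, hU⟩ := hU
  obtain ⟨C, c, c0, hE⟩ := hE
  have m0 : 0 < min (c₁ / 13) (1 / 2000) := by positivity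
  refine ⟨min (c₁ / 13) (1 / 2000), m0, fun l ε hl hε => ?_⟩
  set r₀ := min (c₁ / 13) (1 / 2000) * l
  have r0 : 0 < r₀ := by positivity
  have r1 : 13 * r₀ ≤ c₁ * l := by have := min_le_left (c₁ / 13) (1 / 2000); simp only [r₀]; nlinarith
  have r2 : 2000 * r₀ ≤ l := by have := min_le_right (c₁ / 13) (1 / 2000); simp only [r₀]; nlinarith
  obtain ⟨κ', k0, hU⟩ := hU l (ε / 2) hl (half_pos hε)
  set κ := min κ' l
  have k1 : 0 < κ := lt_min k0 hl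
  have k2 : κ ≤ κ' := min_le_left _ _
  have k3 : κ ≤ l := min_le_right _ _
  obtain ⟨ρ', r', s₀, p1, p2, p3, p4, p5, p6, p7⟩ := params (C := C) hl k1 (half_pos hε) c0
  obtain ⟨μ, B, η, q, μ0, η0, q0, hU⟩ := hU s₀ p4
  obtain ⟨h₀, h0, hLR⟩ := hLR (10 * l) (κ / 8) (by positivity)
  filter_upwards [p7, mesh η0 q0 hU, ev_le h0, ev_le (a := μ / 6) (by positivity),
    ev_le (a := κ / 10) (by positivity)] with δ ⟨r, ρ, q1, q2, q3, q4, q5⟩ ⟨m, hm, m1, m2⟩ ⟨d0, d1⟩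
    ⟨_, d2⟩ ⟨_, d3⟩
  refine ⟨⌈(B + 2 * δ) / δ⌉ + ρ + ⌈2 * r₀ / δ⌉ + 10, fun ξ k hS hK => ?_⟩
  have hq := hFP ξ
  have hh := half_pos d0
  have S1 := small_of hC hS r0 hK r1
  have S2 := small_of hC hS r0 hK le_rfl
  have l2 : 100 * (13 * r₀) ≤ l := by linarith
  have r3 : 0 < 13 * r₀ := by positivity
  obtain ⟨e1, e2, e3⟩ := ends_near h2 S2 r3 l2
  have e4 := abs_le.1 S2.abs
  have hK' := hK.trans (closedBall_subset_closedBall (show r₀ ≤ 10 * l by linarith))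
  replace hLR := hLR (δ / 2) (fp ξ) (k + 1) hh (by linarith) hq hS hK'
  obtain ⟨P, P', i₁, i₂, i₃, hB, j1, j2, hTP, G1, G2, G3⟩ := hm _ m2 _ _ _ _ _ S1
  unfold lam
  set K := L.hull (pc (δ / 2) (fp ξ)) (k + 1 : ℕ)
  set g := L.gt (pc (δ / 2) (fp ξ)) (k + 1 : ℕ)
  set w := L.drv (pc (δ / 2) (fp ξ)) (k + 1 : ℕ)
  rw [abs_le] at e1 e2
  have fam' := fun x : Icc (w + κ) ((g (2 * l)).re - κ) =>
    have hx : |(x : ℝ)| ≤ 3 * l := abs_le.2 ⟨by linarith [x.2.1], by linarith [x.2.2]⟩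
    fam hDISC hCONT hEND hWf hWg hP hh hq (x := x) S2.hyd hK' p4 p5
      (fun z hz h => (e3 z hz).trans (by linarith)) (p6 x hx) p1 p2 q3 q2 q4
  choose s hs z Z Z1 Z2 Z3 Z4 using fam'
  have a1 := Int.floor_le (l / δ)
  have a2 := Int.sub_one_lt_floor (l / δ)
  have a3 := Int.ceil_lt_add_one (2 * r₀ / δ)
  rw [sub_lt_iff_lt_add, div_lt_iff₀ d0] at a2
  rw [← sub_lt_iff_lt_add, lt_div_iff₀ d0] at a3
  have Ra : ⌈2 * r₀ / δ⌉ ≤ ⌊l / δ⌋ := by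
    have : (⌈2 * r₀ / δ⌉ : ℝ) * δ ≤ ⌊l / δ⌋ * δ := by nlinarith
    exact_mod_cast le_of_mul_le_mul_right this d0
  have Rb : ⌈2 * r₀ / δ⌉ ≤ ⌈2 * l / δ⌉ :=
    Int.ceil_le_ceil (div_le_div_of_nonneg_right (by linarith) d0.le)
  have No : ∀ x, NoL (fp ξ) (k + 1) (z x) (Z x) ρ (Ico 0 (2 * ⌈2 * l / δ⌉ - 1)) :=
      fun x c₀ h0 c hc => by
    obtain ⟨u1, u2⟩ := Z3 x c₀ h0 c hc
    have u3 := abs_le.1 ((abs_re_le_norm _).trans u2)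
    simp only [sub_re, ofReal_re] at u3
    have u4 := (hLR c _ ((hCONT _ _ (k + 1) hh hq).1 c u1)).1
    have u5 : ¬(c ∈ Lft (fp ξ) (k + 1) ∨ c.2 = 0 ∧ c.1 < 0) := fun h => by
      have := u4 h
      change (g (cen (δ / 2) c)).re ≤ w + κ / 8 at this
      linarith [x.2.1]
    refine ⟨fun h => u5 (Or.inl h), fun h => ⟨not_lt.1 fun h' => u5 (Or.inr ⟨h, h'⟩),
      not_le.1 fun h' => ?_⟩⟩
    have u6 : 2 * (⌈2 * l / δ⌉ : ℝ) - 1 ≤ c.1 := by exact_mod_cast h'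
    have u8 := (div_le_iff₀ d0).1 (Int.le_ceil (2 * l / δ))
    have u7 : 2 * l - δ ≤ (cen (δ / 2) c).re := by rw [cen_re]; nlinarith
    have := lip_re h2 S2 r3 l2 (z := 2 * l) (z' := cen (δ / 2) c)
      (Or.inr ⟨by simp; linarith, by linarith⟩) d0.le (by simp; linarith)
      (by simp [cen_im, h, abs_of_pos hh]; linarith)
    linarith [x.2.2]
  have hQ := (hE ξ k _ _ ⌈(B + 2 * δ) / δ⌉ _ r ρ _ z Z q1 q2 (nm_of_hull d0 r0 hq hK) Ra Rb Z1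
    (fun x c hc => by
      obtain ⟨c', u1, u2⟩ := Z2 x c hc
      refine ⟨c', u1, u2.resolve_left (No x c hc c' ?_).1⟩
      exact Conn.mono_set u1 fun y hy => ⟨(Z1 x hy).1.trans q2, (Z1 x hy).2⟩) No).trans q5
  obtain ⟨B1, B2⟩ := hR.2.2 P P' _ m1 hB
  have key : ∀ κ : ℤ, κ = 0 ∨ κ = 1 →
      {ω | (fun t => tl ω (t + (1 - κ, 0))) ∈
        P'.Crs κ (q * m * i₁) (q * m * i₂) (q * m * i₃) (q * m * P.n)} ⊆
      {ω | ∃ (x y : V) (i : Icc (w + min κ' l) ((g (2 * l)).re - min κ' l)), y.2 = 0 ∧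
        y.1 < -⌊l / δ⌋ ∧ cf x ∈ Z i ∧
        Conn (du (mg ξ k ω)) (Bx 0 ⌈(B + 2 * δ) / δ⌉) y x} := by
    rintro ε₀ h01 ω ⟨i, j, i1, i2, i3, i4, i5, i6⟩
    have par : ∀ x : V, (x.1 + x.2) % 2 = ε₀ → 
        ((x + (1 - ε₀, 0)).1 + (x + (1 - ε₀, 0)).2) % 2 = 1 :=
      fun x hx => by simp only [Prod.fst_add, Prod.snd_add]; omega
    replace h01 : 1 - ε₀ = 0 ∨ 1 - ε₀ = 1 := by omega
    have s1 := B2 i₁ i₂ i j1 i1 i2
    have s2 := B2 i₃ P.n j j2 i3 i4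
    have n1 := tp_near d0 m1 (P'.c i) h01
    have n2 := tp_near d0 m1 (P'.c j) h01
    rw [← cen_tf δ (par _ i5)] at n1
    rw [← cen_tf δ (par _ ((tconn_mod i6).trans i5))] at n2
    obtain ⟨g1, g2, g3, g4⟩ := G2 _ s1 _ (n1.trans (by linarith))
    have g5 := G3 _ s2 _ (n2.trans (by linarith))
    obtain ⟨t, t1, t2⟩ := (tconn_corner i6).resolve_left fun e => by rw [e] at g1; linarith
    have cn := (hT.2 ω (mg ξ k ω) P'.D {v | ∃ a ∈ (fun z => ((δ * (q * m : ℕ) / 2 : ℝ) : ℂ) *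
      (1 + I) * z) '' P.cl, ‖cen (δ / 2) (cf v) - a‖ ≤ 2 * δ} (1 - ε₀, 0) _ _ i6 fun t ht =>
      fresh (μ := μ) d0 (by linarith) m1 (fun z hz y hy => (G1 z hz y hy).1)
        (B1 t ht _ (by simp [sq, cx])) h01 ω).2 (par _ i5) fun t ht x hx hp =>
      ⟨_, ⟨_, B1 t ht _ hx, rfl⟩, by rw [cen_tf δ hp]; exact tp_near d0 m1 x h01⟩
    set y₀ := cen (δ / 2) (cf (tf (P'.c i + (1 - ε₀, 0))))
    have yD := L.mem_D_of_Dsym (G1 _ (B1 t t1 _ t2) _ (n1.trans (by linarith))).1 g1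
    let x : Icc (w + κ) ((g (2 * l)).re - κ) := ⟨(g y₀).re, by linarith, by linarith⟩
    obtain ⟨a, b, b1, b2, b3, b4⟩ := walk_to (α := 0) (β := 2) (cl := cf) (μ := μ) (B := B)
      (Far := fun y => y.re ≤ -l - μ) (K := K) (g := g) (s := s x) (x := x) (Z := Z x)
      (σ' := du (mg ξ k ω)) (M := ⌈(B + 2 * δ) / δ⌉) d0 (fun v => by simp [cf]) (by norm_num) (by norm_num)
      (by rintro _ ⟨z, hz, rfl⟩ y hy; exact G1 z hz y hy) (by linarith)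
      ((div_le_iff₀' d0).1 (Int.le_ceil _)) cn ⟨_, ⟨_, B1 t t1 _ t2, rfl⟩, n1⟩ g1 g5
      (by
        have : g y₀ - (x : ℝ) = (g y₀).im * I := by apply Complex.ext <;> simp [x]
        rw [this, norm_mul, norm_I, mul_one, norm_real, Real.norm_eq_abs,
          abs_of_pos (S2.hyd.mg yD)]
        exact g4.trans_lt (hs x).1)
      (fun y f1 f2 f3 => by
        have := lip_re h2 S2 r3 l2 (z := y) (z' := -l) (d := 2 * δ)
          (Or.inl ⟨by linarith, by simp; linarith⟩) (by linarith) (by simp; linarith)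
          (by simpa [abs_of_pos f2] using f3)
        have f4 := (abs_le.1 (abs_re_le_norm (g y - (x : ℝ)))).1
        simp only [sub_re, ofReal_re] at f4
        linarith [(hs x).2, x.2.1])
      S2.hyd.dg.continuousOn (Z4 x) fun e f1 f2 f3 => by
        simp only [du, Bool.not_or, Bool.and_eq_true] at f3
        exact f3.1
    refine ⟨a, b, x, b1, ?_, b3, b4⟩
    simp only [cen_re, cf] at b2
    push_cast at b2
    rw [le_div_iff₀ d0] at a1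
    have : (b.1 : ℝ) * δ < -⌊l / δ⌋ * δ := by nlinarith
    exact_mod_cast lt_of_mul_lt_mul_right this d0.le
  have fin := mean_le (key 0 (Or.inl rfl)) (key 1 (Or.inr rfl))
    (F := {ω | mg ξ k ω ∈ EvB ⌊l / δ⌋ ⌈2 * l / δ⌉ (⌈(B + 2 * δ) / δ⌉ + ρ + ⌈2 * r₀ / δ⌉ + 10)}) hQ
  rw [hT.1, hT.1] at fin
  unfold TP at hTP
  unfold cond
  linarith

theorem loc_mg' {A : Set Cfg} (hA : MP_6c8efb_pr.Loc A) (ξ : Cfg) (k : ℕ) :
    MP_6c8efb_pr.Loc {ω | mg ξ k ω ∈ A} := by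
  obtain ⟨S, hS, h⟩ := hA
  refine ⟨S, hS, fun ω ω' e => h fun i hi => ?_⟩
  simp only [mg, e i hi]

theorem loc_EvA (a b M : ℤ) : MP_6c8efb_pr.Loc (EvA a b M) := by
  refine ⟨In (Bx 0 M), In_finite (Bx_finite 0 M), ?_⟩
  rintro ω ω' h ⟨x, y, h1, h2, h3, h4, h5, h6⟩
  refine ⟨x, y, h1, h2, h3, h4, h5, h6.mono subset_rfl fun e he => ?_⟩
  simp only [fr, h e he, imp_self]

theorem t_UNIF (hFP : S_FP) (hA : S_U1A) (hB : S_U1B) (hR : S_REG) (hT : S_TILE) (hE : S_EXTA)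
    (hE' : S_EXTB) (hD : S_DISJ) (hLR : S_LR) (hDISC : S_DISC) (hCONT : S_CONT) (hEND : S_END)
    (hWf : L.S_Wf) (hWg : L.S_Wg) (hP : L.S_Prop) (h2 : L.S_L2s) (hC : L.S_Cont) : S_UNIF := by
  obtain ⟨c₁, c1, h1⟩ := lowerA hFP hA hR hT hE hLR hDISC hCONT hEND hWf hWg hP h2 hC
  obtain ⟨c₂, c2, h3⟩ := lowerB hFP hB hR hT hE' hLR hDISC hCONT hEND hWf hWg hP h2 hC
  refine ⟨min c₁ c₂, lt_min c1 c2, fun l ε hl hε => ?_⟩
  filter_upwards [h1 l ε hl hε, h3 l ε hl hε] with δ ⟨N, h1⟩ ⟨N', h3⟩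
  refine ⟨_, loc_EvA ⌊l / δ⌋ ⌈2 * l / δ⌉ N, fun ξ k hS hK => ?_⟩
  have e1 := h1 ξ k hS (hK.trans (closedBall_subset_closedBall
    (mul_le_mul_of_nonneg_right (min_le_left _ _) hl.le)))
  have e2 := h3 ξ k hS (hK.trans (closedBall_subset_closedBall
    (mul_le_mul_of_nonneg_right (min_le_right _ _) hl.le)))
  have e3 : cond (EvB ⌊l / δ⌋ ⌈2 * l / δ⌉ N') ξ k ≤ 1 - cond (EvA ⌊l / δ⌋ ⌈2 * l / δ⌉ N) ξ k := by
    rw [cond, cond, ← Pr_compl _ (loc_mg' (loc_EvA _ _ _) ξ k)]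
    exact Pr_mono fun ω hω h => Set.disjoint_left.1 (hD _ _ N N') h hω
  rw [abs_le]
  constructor <;> linarith

end Pool.Agent.P.MP_6c8efb_pr.SLE
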