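import Pool.Agent.P.MP_6c8efb_pr.SLE.RCell

/-! A cell touching the path is next to a left cell or to a right cell. -/

namespace Pool.Agent.P.MP_6c8efb_pr.SLE

open Set DW RC

namespace RE

theorem coord {h : ℝ} (hh : 0 < h) {v c : V} {x y : ℝ} (H : pt h v 0 x y ∈ sq h c) :
    (c.1 : ℝ) ≤ v.1 + x ∧ v.1 + x ≤ c.1 + 1 ∧ (c.2 : ℝ) ≤ v.2 + y ∧ v.2 + y ≤ c.2 + 1 := by
  obtain ⟨h1, h2, h3, h4⟩ := H
  rw [pt_re] at h1 h2
  rw [pt_im] at h3 h4
  exact ⟨le_of_mul_le_mul_left h1 hh, le_of_mul_le_mul_left h2 hh, le_of_mul_le_mul_left h3 hh,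
    le_of_mul_le_mul_left h4 hh⟩

theorem l0 {m n : ℤ} (h1 : (m : ℝ) ≤ n) (h2 : (n : ℝ) ≤ m + 1) : m = n ∨ m = n - 1 := by
  have : m ≤ n := by exact_mod_cast h1
  have : n ≤ m + 1 := by exact_mod_cast h2
  omega

theorem l1 {m n : ℤ} {t : ℝ} (h0 : 0 < t) (h : t < 1) (h1 : (m : ℝ) ≤ n + t)
    (h2 : n + t ≤ m + 1) : m = n := by
  have : m < n + 1 := by exact_mod_cast (by linarith : (m : ℝ) < n + 1)
  have : n < m + 1 := by exact_mod_cast (by linarith : (n : ℝ) < m + 1)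
  omega

theorem vert {h : ℝ} (hh : 0 < h) {v c : V} {d : Fin 4} (H : pt h v d 0 0 ∈ sq h c) :
    ∃ e, c = fc v e := by
  rw [pt_zero, ← pt_zero h v 0] at H
  obtain ⟨h1, h2, h3, h4⟩ := coord hh H
  rw [add_zero] at h1 h2 h3 h4
  rcases l0 h1 h2 with a | a <;> rcases l0 h3 h4 with b | b
  exacts [⟨1, Prod.ext a b⟩, ⟨0, Prod.ext a b⟩, ⟨2, Prod.ext a b⟩, ⟨3, Prod.ext a b⟩]

theorem mid {h t : ℝ} (hh : 0 < h) {v c : V} {d : Fin 4} (h0 : 0 < t) (h1 : t < 1)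
    (H : pt h v d t 0 ∈ sq h c) : c = fc v d ∨ c = fc v (d + 1) := by
  have e : pt h v d t 0 = pt h v 0 (![t, 0, -t, 0] d) (![0, t, 0, -t] d) := by
    rcases cases4 d with rfl | rfl | rfl | rfl <;> simp [pt]
  rw [e] at H
  obtain ⟨a1, a2, a3, a4⟩ := coord hh H
  have l2 : ∀ m n : ℤ, (m : ℝ) ≤ n + -t → n + -t ≤ m + 1 → m = n - 1 := fun m n a b =>
    l1 (sub_pos.2 h1) (sub_lt_self 1 h0) (by push_cast; linarith) (by push_cast; linarith)
  rcases cases4 d with rfl | rfl | rfl | rfl <;>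
    simp only [Matrix.cons_val, Matrix.cons_val_zero, Matrix.cons_val_one, add_zero]
      at a1 a2 a3 a4
  · exact (l0 a3 a4).symm.imp (Prod.ext (l1 h0 h1 a1 a2)) (Prod.ext (l1 h0 h1 a1 a2))
  · exact (l0 a1 a2).imp (Prod.ext · (l1 h0 h1 a3 a4)) (Prod.ext · (l1 h0 h1 a3 a4))
  · exact (l0 a3 a4).imp (Prod.ext (l2 _ _ a1 a2)) (Prod.ext (l2 _ _ a1 a2))
  · exact (l0 a1 a2).symm.imp (Prod.ext · (l2 _ _ a3 a4)) (Prod.ext · (l2 _ _ a3 a4))

variable {q : ℕ → V} {k : ℕ}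

theorem both {v c : V} {e : Fin 4} (H : trace q k (edge v e) = true)
    (hc : c = fc v e ∨ c = fc v (e + 1)) : c ∈ Lft q k ∨ c ∈ Rgt q k := by
  obtain ⟨j, hj, d, h1, a⟩ := of_decide_eq_true H
  have key : c = fc (q j) (d + 1) ∨ c = fc (q j) d := by
    rcases ed_eq (c := (q j, d)) (c' := (v, e)) a with b | b <;> obtain ⟨rfl, rfl⟩ := b
    · exact hc.symm
    · rcases cases4 d with rfl | rfl | rfl | rfl <;> simpa [sub_eq_add_neg, Prod.ext_iff] using hc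
  exact key.imp (fun b => ⟨j, hj, d, h1, b⟩) fun b => ⟨j, hj, d, h1, b⟩

theorem cross {v : V} {e : Fin 4} {S : Set V} (H : ¬ trace q k (edge v e) = true)
    (h1 : fc v e ∈ S) (h2 : fc v (e + 1) ∈ S) : CC q k S (fc v e) (fc v (e + 1)) := by
  have e1 : fc v (e + 1) = fc v e + u (e + 1) := by
    rcases cases4 e with rfl | rfl | rfl | rfl <;> simp [sub_eq_add_neg, Prod.ext_iff]
  have e2 : dl (edge (fc v e) (e + 1)) = edge v e := by
    rcases cases4 e with rfl | rfl | rfl | rfl <;> simp [dl, sub_eq_add_neg]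
  rw [e1] at h2 ⊢
  exact Conn.one h1 h2 (by rw [du, e2]; simpa using H)

theorem round {v : V} {d : Fin 4} (hv : 1 ≤ v.2) (H : trace q k (edge v d) = true) (e : Fin 4) :
    ∃ c', (c' ∈ Lft q k ∨ c' ∈ Rgt q k) ∧ nm (fc v e) c' ≤ 1 ∧ 0 ≤ c'.2 ∧
      CC q k {fc v e, c'} (fc v e) c' := by
  have n : ∀ a b, nm (fc v a) (fc v b) ≤ 1 ∧ 0 ≤ (fc v b).2 := fun a b => by
    rcases cases4 a with rfl | rfl | rfl | rfl <;> rcases cases4 b with rfl | rfl | rfl | rfl <;>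
      simp [nm] <;> omega
  obtain ⟨e, rfl⟩ : ∃ e', e = e' + 1 := ⟨e - 1, by abel⟩
  by_cases a : trace q k (edge v (e + 1)) = true
  · exact ⟨_, both a (.inl rfl), (n _ _).1, (n 0 _).2, Conn.rfl'⟩
  by_cases b : trace q k (edge v e) = true
  · exact ⟨_, both b (.inr rfl), (n _ _).1, (n 0 _).2, Conn.rfl'⟩
  rcases (by decide : ∀ d e : Fin 4, d = e ∨ d = e + 1 ∨ d = e + 1 + 1 ∨ e = d + 1) d e with
    rfl | rfl | rfl | rfl
  · exact absurd H b
  · exact absurd H a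
  · exact ⟨_, both H (.inl rfl), (n _ _).1, (n 0 _).2, cross a (by simp) (by simp)⟩
  · exact ⟨_, both H (.inr rfl), (n _ _).1, (n 0 _).2, (cross b (by simp) (by simp)).symm'⟩

end RE

open RE

theorem t_END : S_END := by
  rintro h q k c hh H ⟨z, hz, hk⟩
  obtain ⟨dir, W⟩ := walk hh H
  have hi : 0 < z.im := by
    obtain ⟨t, ht, rfl⟩ := hk
    exact W.curve.pos t ht.1
  have up : ∀ m : ℤ, 0 < h * (m + 1) → 0 ≤ m := fun m a => by
    have : (0 : ℝ) < m + 1 := (mul_pos_iff_of_pos_left hh).1 a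
    have : 0 < m + 1 := by exact_mod_cast this
    omega
  obtain ⟨j, hj, τ, hτ, rfl⟩ := Walk.mem_hull hk
  have T : trace q k (edge (q j) (dir j)) = true := (trace_iff W).2 ⟨j, hj, rfl⟩
  rw [W.edge j hτ] at hz hi
  rcases τ.coe_nonneg.eq_or_lt with a | a
  · rw [← a] at hz hi
    obtain ⟨e, rfl⟩ := vert hh hz
    have := up ((q j).2 - 1) (by simpa [pt] using hi)
    exact round (by omega) T e
  rcases (show (τ : ℝ) ≤ 1 from hτ).eq_or_lt with b | b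
  · rw [b, ← zero_add (1 : ℝ), ← pt_step] at hz
    obtain ⟨e, rfl⟩ := vert hh hz
    rw [← edge_back] at T
    exact round (W.step j ▸ W.up (j + 1) (by omega)) T e
  · exact ⟨c, both T (mid hh a b hz), by simp [nm], up _ (hi.trans_le hz.2.2.2), Conn.rfl'⟩

end Pool.Agent.P.MP_6c8efb_pr.SLE
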