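import Pool.Agent.P.MP_6c8efb_pr.SLE.Iface
import Pool.Agent.P.MP_6c8efb_pr.Ann

/-! Elementary properties of the exploration path: simplicity, unbounded height, disjointness of
the two crossing events. -/

namespace Pool.Agent.P.MP_6c8efb_pr.SLE.T0

open Function

theorem path_succ (ω : Cfg) (k : ℕ) : path ω (k + 1) = step (bc ω) (path ω k) := by
  rw [path, iterate_succ_apply', ← path]

theorem path_zero (ω : Cfg) : path ω 0 = ((0, 0), 0) := rfl

theorem fp_succ (ω : Cfg) (k : ℕ) : fp ω (k + 1) = fv (path ω k) := rfl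

theorem fv0 (x : V) : fv (x, 0) = (2 * x.1, 2 * x.2 + 1) := by simp [fv]
theorem fv1 (x : V) : fv (x, 1) = (2 * x.1, 2 * x.2 + 2) := by simp [fv]
theorem fv2 (x : V) : fv (x, 2) = (2 * x.1 - 1, 2 * x.2 + 2) := by simp [fv, sub_eq_add_neg]
theorem fv3 (x : V) : fv (x, 3) = (2 * x.1 - 1, 2 * x.2 + 1) := by simp [fv, sub_eq_add_neg]

theorem fv_bd (c : D) : 2 * c.1.1 - 1 ≤ (fv c).1 ∧ (fv c).1 ≤ 2 * c.1.1 ∧
    2 * c.1.2 + 1 ≤ (fv c).2 ∧ (fv c).2 ≤ 2 * c.1.2 + 2 := by
  obtain ⟨x, d⟩ := c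
  rcases cases4 d with rfl | rfl | rfl | rfl <;> simp [fv0, fv1, fv2, fv3]

theorem fd_bd (c : D) : c.1.1 - 1 ≤ (fd c).1 ∧ (fd c).1 ≤ c.1.1 ∧
    c.1.2 - 1 ≤ (fd c).2 ∧ (fd c).2 ≤ c.1.2 := by
  obtain ⟨x, d⟩ := c
  rcases cases4 d with rfl | rfl | rfl | rfl <;> simp [fd]

theorem fv_inj : Injective fv := by
  rintro ⟨⟨a, b⟩, d⟩ ⟨⟨a', b'⟩, d'⟩ h
  rcases cases4 d with rfl | rfl | rfl | rfl <;> rcases cases4 d' with rfl | rfl | rfl | rfl <;>
    simp [fv0, fv1, fv2, fv3] at h ⊢ <;> omega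

theorem fv_ro (c : D) : fv (rot (opp c)) = fv c + u c.2 := by
  obtain ⟨x, d⟩ := c
  rcases cases4 d with rfl | rfl | rfl | rfl <;>
    simp [rot, opp, fv0, fv1, fv2, fv3, Prod.ext_iff] <;> omega

theorem fv_rot (c : D) : fv (rot c) = fv c + u (c.2 + 1) := by
  obtain ⟨x, d⟩ := c
  rcases cases4 d with rfl | rfl | rfl | rfl <;>
    simp [rot, fv0, fv1, fv2, fv3, Prod.ext_iff] <;> omega

theorem path_pos (ω : Cfg) (k : ℕ) : 0 ≤ (path ω k).1.2 := by
  induction k with
  | zero => exact le_rfl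
  | succ k ih =>
    rw [path_succ]
    generalize path ω k = x at ih
    by_cases b : bc ω (ed x) = true
    · rw [step_open b]
      have := bc_pos b
      rcases cases4 x.2 with e | e | e | e <;> simp [e, ed, rot, opp] at this ⊢ <;> omega
    · rw [step_closed b]; exact ih

/-- the darts below the negative axis -/
def WP (c : D) : Prop := c.1.2 = 0 ∧ (c.2 = 0 ∧ c.1.1 < 0 ∨ c.2 = 3 ∧ c.1.1 ≤ 0)

theorem wp_pred (ω : Cfg) {c : D} (h : WP c ∨ c = ((0, 0), 0)) :
    ∃ c', WP c' ∧ step (bc ω) c' = c := by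
  obtain ⟨⟨i, j⟩, d⟩ := c
  have k : ∀ i : ℤ, i ≤ 0 → ∃ c', WP c' ∧ step (bc ω) c' = ((i, 0), 0) := fun i hi =>
    ⟨((i, 0), 3), ⟨rfl, Or.inr ⟨rfl, hi⟩⟩, by
      rw [step_closed (by simp [ed, bc])]; rfl⟩
  rcases h with ⟨h1, ⟨h2, h3⟩ | ⟨h2, h3⟩⟩ | h
  · simp only at h1 h2 h3
    subst h1 h2
    exact k i h3.le
  · simp only at h1 h2 h3
    subst h1 h2
    refine ⟨((i - 1, 0), 0), ⟨rfl, Or.inl ⟨rfl, by simp only; omega⟩⟩, ?_⟩
    rw [step_open (by simp [ed, bc]; omega)]
    simp [rot, opp]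
  · rw [h]; exact k 0 le_rfl

theorem path_not_wp (ω : Cfg) (k : ℕ) : ¬ WP (path ω k) := by
  induction k with
  | zero => simp [path_zero, WP]
  | succ k ih =>
    intro h
    obtain ⟨c, h1, h2⟩ := wp_pred ω (Or.inl h)
    rw [path_succ] at h2
    exact ih (step_inj _ h2 ▸ h1)

theorem path_inj (ω : Cfg) : Injective (path ω) := by
  have k : ∀ j k, path ω j = path ω (j + k + 1) → False := fun j k => by
    induction j with
    | zero =>
      intro h
      obtain ⟨c, h1, h2⟩ := wp_pred ω (Or.inr rfl)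
      rw [← path_zero ω, h, path_succ] at h2
      exact path_not_wp ω _ (step_inj _ h2 ▸ h1)
    | succ j ih =>
      intro h
      rw [show j + 1 + k + 1 = j + k + 1 + 1 by ring, path_succ, path_succ ω (j + k + 1)] at h
      exact ih (step_inj _ h)
  intro a b h
  by_contra hab
  rcases lt_or_gt_of_ne hab with c | c
  · obtain ⟨m, rfl⟩ := Nat.exists_eq_add_of_lt c
    exact k _ _ h
  · obtain ⟨m, rfl⟩ := Nat.exists_eq_add_of_lt c
    exact k _ _ h.symm

theorem fp_pos (ω : Cfg) (j : ℕ) (hj : 1 ≤ j) : 1 ≤ (fp ω j).2 := by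
  obtain ⟨k, rfl⟩ := Nat.exists_eq_add_of_le' hj
  have h1 := fv_bd (path ω k)
  have h2 := path_pos ω k
  rw [fp_succ]
  omega

theorem s_fp : S_FP := fun ω => by
  refine ⟨rfl, rfl, fun j => ?_, fun a b h => ?_, fp_pos ω⟩
  · cases j with
    | zero => exact ⟨1, rfl⟩
    | succ j =>
      rw [fp_succ, fp_succ, path_succ]
      by_cases b : bc ω (ed (path ω j)) = true
      · rw [step_open b]; exact ⟨_, fv_ro _⟩
      · rw [step_closed b]; exact ⟨_, fv_rot _⟩
  · cases a with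
    | zero =>
      cases b with
      | zero => rfl
      | succ b =>
        have := fp_pos ω (b + 1) (by omega)
        rw [← h] at this
        simp [fp] at this
    | succ a =>
      cases b with
      | zero =>
        have := fp_pos ω (a + 1) (by omega)
        rw [h] at this
        simp [fp] at this
      | succ b => rw [path_inj ω (fv_inj h)]

/-- the path never goes below the negative axis -/
theorem fp_low (ω : Cfg) (j : ℕ) (h : (fp ω j).2 = 1) : 0 ≤ (fp ω j).1 := by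
  cases j with
  | zero => simp [fp] at h
  | succ j =>
    have h1 := path_not_wp ω j
    rw [fp_succ] at h ⊢
    generalize path ω j = c at h h1
    obtain ⟨⟨a, b⟩, d⟩ := c
    rcases cases4 d with rfl | rfl | rfl | rfl <;> simp [fv0, fv1, fv2, fv3, WP] at h h1 ⊢ <;> omega

theorem fd_low (ω : Cfg) (j : ℕ) (h : (fd (path ω j)).2 < 0) : 0 ≤ (fd (path ω j)).1 := by
  have h1 := path_not_wp ω j
  have h2 := path_pos ω j
  generalize path ω j = c at h h1 h2
  obtain ⟨⟨a, b⟩, d⟩ := c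
  rcases cases4 d with rfl | rfl | rfl | rfl <;> simp [fd, WP] at h h1 h2 ⊢ <;> omega

theorem dl_fc (x : V) (d : Fin 4) : dl (edge (fc x d) (d + 1)) = edge x d := by
  rcases cases4 d with rfl | rfl | rfl | rfl <;> simp [dl]

theorem fd_rot' (c : D) : fd (rot c) = fd c + u (c.2 + 1) := fc_succ _ _

theorem bc_open {ω : Cfg} {e : E} (h : bc ω e = true) :
    (e.1.2 = 0 ∧ e.2 = true ∧ e.1.1 < 0) ∨ (¬ (e.1.2 = 0 ∧ e.2 = true) ∧ ω e = true) := by
  unfold bc at h
  split_ifs at h with c1 c2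
  · exact Or.inl ⟨c2.1, c2.2, by simpa using h⟩
  · exact Or.inr ⟨c2, h⟩

theorem bc_closed {ω : Cfg} {e : E} (h : ¬ bc ω e = true) :
    e.1.2 < 0 ∨ (e.1.2 = 0 ∧ e.2 = true ∧ 0 ≤ e.1.1) ∨ ¬ ω e = true := by
  unfold bc at h
  split_ifs at h with c1 c2
  · exact Or.inl c1
  · exact Or.inr (Or.inl ⟨c2.1, c2.2, by simpa using h⟩)
  · exact Or.inr (Or.inr h)

theorem tr_open {R : ℕ} {ω : Cfg} {e : E} (h : tr R ω e = true) :
    (hd e).1 ≤ 0 ∨ (nm 0 e.1 ≤ R ∧ ω e = true) := by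
  unfold tr at h
  split_ifs at h with c1
  · exact Or.inr ⟨c1, h⟩
  · exact Or.inl (by simpa using h)

theorem tr_closed {R : ℕ} {ω : Cfg} {e : E} (h : ¬ tr R ω e = true) :
    0 < (hd e).1 ∨ (nm 0 e.1 ≤ R ∧ ¬ ω e = true) := by
  unfold tr at h
  split_ifs at h with c1
  · exact Or.inr ⟨c1, h⟩
  · exact Or.inl (by simpa using h)

theorem tr_strip (R : ℕ) (ω : Cfg) (k : ℕ) :
    (path (tr R ω) k).1.1 ≤ R + 1 ∧ -(R + 1 : ℤ) ≤ (fd (path (tr R ω) k)).1 := by
  induction k with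
  | zero => simp [path_zero, fd]; omega
  | succ k ih =>
    have hp := path_pos (tr R ω) k
    rw [path_succ]
    generalize path (tr R ω) k = c at ih hp
    obtain ⟨⟨i, j⟩, d⟩ := c
    by_cases b : bc (tr R ω) (ed ((i, j), d)) = true
    · rw [step_open b, fd_ro]
      refine ⟨?_, ih.2⟩
      rcases cases4 d with rfl | rfl | rfl | rfl <;> simp [rot, opp] at ih ⊢ <;> try omega
      rcases bc_open b with b | ⟨-, b⟩
      · simp [ed] at b; omega
      · rcases tr_open b with b | ⟨b, -⟩ <;> simp [ed, nm, abs_eq_max_neg] at b <;> omega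
    · rw [step_closed b]
      refine ⟨ih.1, ?_⟩
      rcases cases4 d with rfl | rfl | rfl | rfl <;> simp [rot, fd] at ih ⊢ <;> try omega
      rcases bc_closed b with b | b | b
      · simp [ed] at b hp; omega
      · simp [ed] at b
      · rcases tr_closed b with b | ⟨b, -⟩ <;> simp [ed, nm, abs_eq_max_neg] at b <;> omega

theorem s_unb : S_UNB := fun R ω M => by
  by_contra h
  push Not at h
  refine Set.infinite_range_of_injective (path_inj (tr R ω))
    (((Rc_finite (-(R + 1)) (R + 1) 0 M).prod (Set.toFinite (Set.univ : Set (Fin 4)))).subset ?_)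
  rintro _ ⟨k, rfl⟩
  have h1 := tr_strip R ω k
  have h2 := fd_bd (path (tr R ω) k)
  have h3 := path_pos (tr R ω) k
  have h4 := h (k + 1)
  have h5 := fv_bd (path (tr R ω) k)
  rw [fp_succ] at h4
  refine ⟨?_, trivial⟩
  simp only [mem_Rc]
  omega

theorem s_disj : S_DISJ := fun a b M M' => by
  rw [Set.disjoint_left]
  rintro ω ⟨x, y, x2, x1, x0, y2, y1, h⟩ ⟨f, g, f2, f1, f0, g2, g1, h'⟩
  obtain ⟨c, c1, c2⟩ := exists_chain h
  have op : ∀ e, c e ≠ 0 → ω e = true ∧ 0 ≤ e.1.2 ∧ ¬ (e.1.2 = 0 ∧ e.2 = true) := fun e he => by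
    have := (c1 e he).1
    unfold fr at this
    split_ifs at this with b
    exact ⟨this, by omega, fun b' => b (Or.inr b')⟩
  obtain ⟨J, j1, j2, j3⟩ := exists_J c (-M) fun e he => by
    have := (c1 e he).2.1.1
    simp only [nm, abs_eq_max_neg, Prod.fst_zero, Prod.snd_zero] at this
    omega
  have j4 : ∀ i j, 0 < j → J (i, j) - J (i, j - 1) + c ((i, j), true) = 0 := fun i j hj => by
    have : ∀ k, bd c (k, j) = 0 := fun k => by
      rw [c2, if_neg, if_neg, sub_zero] <;> rintro rfl <;> simp at x2 y2 <;> omega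
    rw [j3 j 0 (fun k _ => this k), this, ite_self]
  have J0 : ∀ i, J (i, 0) = (if x.1 ≤ i then 1 else 0) - if y.1 ≤ i then 1 else 0 :=
    ind_right (min (-M) (min x.1 y.1)) (fun i hi => by
      rw [j1 _ (by simp only; omega), if_neg (by omega), if_neg (by omega)]; rfl) fun i ih => by
      have h1 := j2 i 0
      have h2 := c2 (i, 0)
      have z1 : c ((i, 0), true) = 0 := by by_contra b; exact (op _ b).2.2 ⟨rfl, rfl⟩
      have z2 : c ((i - 1, 0), true) = 0 := by by_contra b; exact (op _ b).2.2 ⟨rfl, rfl⟩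
      have z3 : c ((i, 0 - 1), false) = 0 := by by_contra b; have := (op _ b).2.1; simp at this
      simp only [bd, edge0, edge1, edge2, edge3, z1, z2, z3, Prod.ext_iff, x2, y2, and_true] at h2
      split_ifs at h2 ih ⊢ <;> omega
  have key := h'.ind (p := fun w => J w = J f) rfl fun w d _ ha hb ho ih => by
    obtain ⟨v, d', b1, b2, b3⟩ := face_step w d
    have a1 := ha.1
    have a2 := hb.1
    have a3 := ha.2
    have a4 := hb.2
    simp only [nm, abs_eq_max_neg, Prod.fst_zero, Prod.snd_zero] at a1 a2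
    have := J_dart (y0 := 0) (y1 := M' + 1) j2 (fun i j h _ => j4 i j h) v d'
      (by rw [b1]; simp only [St]; omega) (by rw [b2]; simp only [St]; omega)
    have e : c (edge v d') = 0 := by
      by_contra b
      have := (op _ b).1
      rw [b3] at this
      simp [du, this] at ho
    rw [b1, b2, e] at this
    omega
  have e1 := J0 f.1
  have e2 := J0 g.1
  rw [← f2] at e1
  rw [← g2] at e2
  simp only [Prod.mk.eta] at e1 e2
  split_ifs at e1 e2 <;> omega

end Pool.Agent.P.MP_6c8efb_pr.SLE.T0
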