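import Pool.Agent.P.MP_6c8efb_pr.SLE.XCell
import Pool.Agent.P.MP_6c8efb_pr.SLE.REnd
import Pool.Agent.P.MP_6c8efb_pr.SLE.T0Basic

/-! Extension of open paths through the small crosscuts near the left side. -/

namespace Pool.Agent.P.MP_6c8efb_pr.SLE

open Set Classical

namespace Ext

theorem mem_Lft {ξ : Cfg} {k : ℕ} {c : V} (h : c ∈ Lft (fp ξ) (k + 1)) : c = (-1, 0) ∨ ∃ j < k,
    (bc ξ (ed (path ξ j)) = true ∧ c = ce (ed (path ξ j))) ∨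
      (¬ bc ξ (ed (path ξ j)) = true ∧ c = cv (path ξ j).1) := by
  obtain ⟨_ | j, hj, d, h1, rfl⟩ := h
  · obtain rfl : d = 1 := u_inj (add_left_cancel (h1.symm.trans (rfl : _ = fp ξ 0 + u 1)))
    exact Or.inl rfl
  refine Or.inr ⟨j, by omega, ?_⟩
  by_cases b : bc ξ (ed (path ξ j)) = true
  · obtain rfl := u_inj (add_left_cancel (h1.symm.trans (fp_open b)))
    exact Or.inl ⟨b, (ce_ed _).symm⟩
  · obtain rfl := u_inj (add_left_cancel (h1.symm.trans (fp_closed b)))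
    exact Or.inr ⟨b, by rw [cv_fv, add_assoc]; rfl⟩

theorem mem_Rgt {ξ : Cfg} {k : ℕ} {c : V} (h : c ∈ Rgt (fp ξ) (k + 1)) : c = (0, 0) ∨ ∃ j < k,
    (bc ξ (ed (path ξ j)) = true ∧ c = cf (fd (path ξ j))) ∨
      (¬ bc ξ (ed (path ξ j)) = true ∧ c = ce (ed (path ξ j))) := by
  obtain ⟨_ | j, hj, d, h1, rfl⟩ := h
  · obtain rfl : d = 1 := u_inj (add_left_cancel (h1.symm.trans (rfl : _ = fp ξ 0 + u 1)))
    exact Or.inl rfl
  refine Or.inr ⟨j, by omega, ?_⟩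
  by_cases b : bc ξ (ed (path ξ j)) = true
  · obtain rfl := u_inj (add_left_cancel (h1.symm.trans (fp_open b)))
    exact Or.inl ⟨b, (cf_fv _).symm⟩
  · obtain rfl := u_inj (add_left_cancel (h1.symm.trans (fp_closed b)))
    exact Or.inr ⟨b, (ce_ed _).symm⟩

theorem cc_step {q : ℕ → V} {k : ℕ} {S : Set V} {c₀ c : V} {d : Fin 4} (h : CC q k S c₀ c)
    (h1 : c ∉ Lft q k) (h2 : c ∉ Rgt q k) (h3 : c ∈ S) (h4 : c + u d ∈ S) :
    CC q k S c₀ (c + u d) := by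
  obtain ⟨v, e1, e2, -⟩ := RC.wall c d
  refine Conn.snoc h h3 h4 ?_
  rw [du, e1, Bool.not_eq_true', ← Bool.not_eq_true]
  exact fun b => (RE.both b (Or.inr e2)).elim h1 h2

theorem side_bd {q : ℕ → V} {k : ℕ} {R : ℤ} (hR : ∀ j ≤ k, nm 0 (q j) ≤ R) {c : V}
    (h : c ∈ Lft q k ∨ c ∈ Rgt q k) : -R - 1 ≤ c.1 := by
  obtain ⟨j, hj, d, rfl⟩ : ∃ j < k, ∃ d, c = fc (q j) d :=
    h.elim (fun ⟨j, a, _, _, b⟩ => ⟨j, a, _, b⟩) fun ⟨j, a, _, _, b⟩ => ⟨j, a, _, b⟩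
  have := hR j hj.le
  rcases cases4 d with rfl | rfl | rfl | rfl <;> simp [nm, abs_le] at this ⊢ <;> omega

theorem Conn.mem' {σ : Cfg} {S : Set V} {x y : V} (h : Conn σ S x y) (hn : y ≠ x) : y ∈ S :=
  (h.ind (p := fun z => z = x ∨ z ∈ S) (Or.inl rfl) fun _ _ _ _ h _ _ => Or.inr h).resolve_left hn

/-- the edges frozen in the primal statement -/
def FzA (ξ : Cfg) (k : ℕ) : Set E := {e | e ∈ expl ξ k ∨ ¬ Hi e}

theorem badA {ξ : Cfg} {k : ℕ} {a M R : ℤ} (hR : ∀ j ≤ k + 1, nm 0 (fp ξ j) ≤ R) (ha : R ≤ a)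
    (hM : R ≤ M) : ∀ j ≤ k, Bad (fz (FzA ξ k) (fr ξ) fun _ => false) a M
      (path ξ j).1 := by
  have R1 : 1 ≤ R := hR 1 (by omega)
  have bx : ∀ j ≤ k, (path ξ j).1 ∈ Bx 0 R := fun j hj => by
    have h1 := hR (j + 1) (by omega)
    have h2 := T0.fv_bd (path ξ j)
    have h3 := T0.path_pos ξ j
    refine ⟨?_, h3⟩
    simp only [fp, nm, abs_eq_max_neg, Prod.fst_zero, Prod.snd_zero] at h1 ⊢
    omega
  have sub : Bx 0 R ⊆ Bx 0 M := fun x h => ⟨h.1.trans hM, h.2⟩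
  intro j hj
  induction j with
  | zero => exact ⟨0, rfl, by simp; omega, le_rfl, Conn.rfl'⟩
  | succ j ih =>
    obtain ⟨s, s1, s2, s3, s4⟩ := ih (by omega)
    have b1 := bx j (by omega)
    have b2 := bx _ hj
    have m : ed (path ξ j) ∈ expl ξ k := mem_expl.2 ⟨j, hj, rfl⟩
    rw [path_succ] at b2 ⊢
    by_cases b : bc ξ (ed (path ξ j)) = true
    swap
    · rw [step_closed b]; exact ⟨s, s1, s2, s3, s4⟩
    rw [step_open b] at b2 ⊢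
    rcases T0.bc_open b with h | h
    · refine ⟨_, ?_, ?_, ?_, Conn.rfl'⟩ <;> replace b2 := b2.1 <;>
        rcases cases4 (path ξ j).2 with e | e | e | e <;>
        simp [e, ed, rot, opp, nm, abs_le] at h b2 ⊢ <;> omega
    · refine ⟨s, s1, s2, s3, s4.snoc (sub b1) (sub b2) ?_⟩
      have := bc_pos b
      show fz _ _ _ (ed (path ξ j)) = true
      rw [fz, if_pos (show _ ∈ FzA ξ k from Or.inl m), fr, if_neg (by push Not at h ⊢; exact ⟨this, h.1⟩), h.2]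

theorem not_Hi {e : E} : ¬ Hi e ↔ e.1.2 < 0 ∨ (e.1.2 = 0 ∧ e.2 = true) := by
  simp only [Hi, not_and_or, not_le, Classical.not_imp, Bool.not_eq_false]

theorem fzA (ξ ω : Cfg) (k : ℕ) :
    fz (FzA ξ k) (fr ξ) ω = fr (mg ξ k ω) := funext fun e => by
  by_cases h : e.1.2 < 0 ∨ (e.1.2 = 0 ∧ e.2 = true) <;> by_cases h' : e ∈ expl ξ k <;>
    simp only [fz, FzA, fr, mg, mem_ofPred, not_Hi, h, h', if_true, if_false, or_true, or_false]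

theorem gtA {ξ : Cfg} {k : ℕ} {a M R r ρ : ℤ} {z : V} {Z : Set V}
    (hR : ∀ j ≤ k + 1, nm 0 (fp ξ j) ≤ R) (ha : R ≤ a) (hM : R ≤ M) (hρ : r ≤ ρ) (h1 : Z ⊆ Bx z r)
    (h2 : ∀ c ∈ Z, ∃ c', CC (fp ξ) (k + 1) Z c c' ∧ (c' ∈ Lft (fp ξ) (k + 1) ∨ c'.2 = 0))
    (h3 : NoR (fp ξ) (k + 1) z Z ρ (Ico (-2 * a) 0)) :
    Gt (FzA ξ k) (fr ξ) a M r ρ z Z
      {c | ∃ c₀ ∈ Z, CC (fp ξ) (k + 1) (Bx z ρ) c₀ c} (Lft (fp ξ) (k + 1)) := by
  have st : ∀ c₀ ∈ Z, ∀ c, CC (fp ξ) (k + 1) (Bx z ρ) c₀ c → c ∉ Lft (fp ξ) (k + 1) → ∀ d,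
      c + u d ∈ Bx z ρ → CC (fp ξ) (k + 1) (Bx z ρ) c₀ (c + u d) := fun c₀ a1 c a2 a3 d a4 =>
    cc_step a2 a3 (h3 _ a1 _ a2).1 (Conn.mem a2 ⟨(h1 a1).1.trans hρ, (h1 a1).2⟩) a4
  have bad := badA hR ha hM
  refine ⟨fun c hc => ⟨(h1 hc).1, ⟨c, hc, Conn.rfl'⟩, ?_⟩,
    fun c ⟨c₀, a1, a2⟩ a3 d a4 a5 => ⟨c₀, a1, st _ a1 _ a2 a3 d ⟨a4, by omega⟩⟩, fun c hc a1 => ?_,
    fun e ⟨c₀, a1, a2⟩ a3 a4 => ?_, fun c ⟨c₀, a1, a2⟩ a3 a4 => ?_⟩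
  · obtain ⟨c', a1, a2⟩ := h2 c hc
    exact ⟨c', Conn.mono a1 subset_rfl fun _ _ _ => rfl, a2.imp_right fun h => by omega⟩
  · rcases mem_Lft hc with rfl | ⟨j, hj, ⟨b, rfl⟩ | ⟨-, rfl⟩⟩
    · simp at a1
    · have b1 := bad j hj.le
      have b2 := bad (j + 1) hj
      rw [path_succ, step_open b] at b2
      refine Or.inr ⟨_, rfl, ?_, ?_, fun _ => Or.inl (mem_expl.2 ⟨j, hj, rfl⟩)⟩ <;>
        rcases cases4 (path ξ j).2 with e | e | e | e <;>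
        simp [e, ed, rot, opp, Prod.add_def, ← sub_eq_add_neg] at b2 ⊢ <;> assumption
    · exact Or.inl ⟨_, rfl, bad j hj.le⟩
  · have m := a4.resolve_right (not_not.2 a3)
    have b : bc ξ e = true := by_contra fun b => (h3 _ a1 _ a2).1 (ce_mem_Rgt m b)
    have n := fun h => not_Hi.2 h a3
    rw [fr, if_neg n]
    exact ((T0.bc_open b).resolve_left fun h => n (Or.inr ⟨h.1, h.2.1⟩)).2
  · have R1 : 1 ≤ R := hR 1 (by omega)
    by_cases hl : c ∈ Lft (fp ξ) (k + 1)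
    · have := side_bd hR (Or.inl hl)
      exact ⟨by omega, fun h => absurd hl h⟩
    · have := (h3 _ a1 _ (st _ a1 _ a2 hl 3 ⟨(nm_lip ..).trans a4, by simp [a3]⟩)).2 (by simp [a3])
      simp at this
      exact ⟨by omega, fun _ => this.2⟩

theorem empty_le {C c : ℝ} {r ρ : ℤ} (C0 : 0 ≤ C) (hr : 1 ≤ r) (hρ : r ≤ ρ) :
    Q ∅ ≤ C * ((r : ℝ) / ρ) ^ c := by
  have r0 : (0 : ℝ) < r := by exact_mod_cast (by omega : 0 < r)
  have ρ0 : (0 : ℝ) < ρ := by exact_mod_cast (by omega : 0 < ρ)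
  simp only [Q, Pr, MeasureTheory.measureReal_empty]
  positivity

end Ext

open Ext

theorem t_EXTA : S_EXTA := by
  obtain ⟨C, c, c0, C0, h0, h⟩ := cell
  refine ⟨C, c, c0, fun ξ k a b M R r ρ ι z Z hr hρ hR ha hb h1 h2 h3 => ?_⟩
  rcases lt_or_ge ρ (12 * r) with h4 | h4
  · exact h0 _ r ρ hr hρ h4
  have R1 : 1 ≤ R := hR 1 (by omega)
  have nt : ∀ i (y : V), y.2 = 0 → b ≤ y.1 → cv y ∉ Z i := fun i y y1 y2 hy => by
    have G := gtA hR ha le_rfl hρ (h1 i) (h2 i) (h3 i)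
    have := (G.ax _ (G.hz _ hy).2.1 (by simp [cv, y1]) ((G.hz _ hy).1.trans_lt (by omega))).2
      fun hl => by
      rcases mem_Lft hl with e | ⟨j, hj, ⟨-, e⟩ | ⟨-, e⟩⟩
      · simp [cv, y1] at e
      · generalize ed (path ξ j) = e' at e
        obtain ⟨x, _ | _⟩ := e' <;> simp [cv, ce] at e <;> omega
      · have a1 : 2 ≤ R := by simpa [fp, path, step, bc, fv, nm] using hR 2 (by omega)
        have a2 := hR (j + 1) (by omega)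
        have a3 := T0.fv_bd (path ξ j)
        simp [cv, fp, nm, abs_le] at e a2
        omega
    simp only [cv] at this
    omega
  have mem : ∀ {σ x y i}, y.2 = 0 → b ≤ y.1 → cv x ∈ Z i → Conn σ (Bx 0 M) y x → x ∈ Bx 0 M :=
    fun y1 y2 x1 hp => Conn.mem' hp fun e => nt _ _ y1 y2 (e ▸ x1)
  rcases lt_or_ge M 0 with hM | hM
  · refine (Pr_mono (B := ∅) ?_).trans (empty_le C0 hr hρ)
    rintro ω ⟨⟨x, y, i, y1, y2, x1, hp⟩, -⟩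
    have := (mem y1 y2 x1 hp).1
    simp only [nm, abs_eq_max_neg] at this
    omega
  refine (Pr_mono ?_).trans (h (FzA ξ k) (fr ξ) a b M (M + ρ + R + 10) r ρ ι z Z
    (fun e he => ⟨Or.inr he, if_pos (not_Hi.1 he)⟩) (by omega) (by omega) hr h4 (by omega)
    fun i => ⟨_, _, gtA hR ha (by omega) hρ (h1 i) (h2 i) (h3 i)⟩)
  rintro ω ⟨⟨x, y, i, y1, y2, x1, hp⟩, hn⟩
  simp only [Ev, mem_ofPred, fzA]
  exact ⟨⟨y, x, ⟨y1, y2, mem_iUnion.2 ⟨i, x1⟩, mem y1 y2 x1 hp⟩, hp⟩, hn⟩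

end Pool.Agent.P.MP_6c8efb_pr.SLE
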