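import Pool.Agent.P.MP_6c8efb_pr.SLE.XA

/-! Extension of dual paths through the small crosscuts near the right side. -/

namespace Pool.Agent.P.MP_6c8efb_pr.SLE

open Set Classical

namespace Ext

/-- the edge crossed by an edge of the reflected dual lattice -/
def gB (e : E) : E := if e.2 then ((-e.1.1, e.1.2 - 1), false) else ((-e.1.1, e.1.2), true)

/-- a face as a vertex of the reflected dual lattice -/
def pv (f : V) : V := (-f.1, f.2 + 1)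

/-- the cells of the reflected dual lattice -/
def ti (c : V) : V := (-1 - c.1, c.2 - 1)

/-- the reflected direction -/
def rf : Fin 4 → Fin 4 := ![2, 1, 0, 3]

/-- the edges frozen in the dual statement -/
def FzB (ξ : Cfg) (k : ℕ) : Set E := {e | e.1.2 ≤ 0 ∨ gB e ∈ expl ξ k}

/-- the reflected dual configuration -/
def fB (ξ : Cfg) : Cfg := fun e =>
  if e.1.2 ≤ 0 then decide (e.1.2 = 0 ∧ e.2 = false) else !ξ (gB e)

theorem gB_inj : Function.Injective gB := by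
  rintro ⟨⟨x, y⟩, _ | _⟩ ⟨⟨x', y'⟩, _ | _⟩ h <;> simp [gB] at h ⊢ <;> omega

theorem pv_step (f : V) (d : Fin 4) :
    pv (f + u d) = pv f + u (rf d) ∧ gB (edge (pv f) (rf d)) = dl (edge f d) := by
  rcases cases4 d with rfl | rfl | rfl | rfl <;> simp [pv, rf, gB, dl, Prod.ext_iff] <;> omega

theorem ti_step (c : V) (d : Fin 4) : ti (c + u d) = ti c + u (rf d) := by
  rcases cases4 d with rfl | rfl | rfl | rfl <;> simp [ti, rf, Prod.ext_iff] <;> omega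

theorem ti_ce (e : E) : ti (ce e) = ce (gB e) := by
  obtain ⟨x, _ | _⟩ := e <;> simp [ti, ce, gB] <;> omega

theorem ti_cv (f : V) : ti (cv (pv f)) = cf f := by
  simp [ti, cv, pv, cf]; omega

theorem ti_inj : Function.Injective ti := fun a b h => by
  simp [ti, Prod.ext_iff] at h ⊢; omega

theorem fzB (ξ ω : Cfg) (k : ℕ) :
    fz (FzB ξ k) (fB ξ) (fun e => !ω (gB e)) = fB (mg ξ k ω) := funext fun e => by
  by_cases h : e.1.2 ≤ 0 <;> by_cases h' : gB e ∈ expl ξ k <;>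
    simp only [fz, FzB, fB, mg, mem_ofPred, h, h', if_true, if_false, or_true, or_false]

theorem Q_gB {A : Set Cfg} (h : MP_6c8efb_pr.Loc A) : Q {ω | (fun e => !ω (gB e)) ∈ A} = Q A :=
  (Pr_comp_inj (fun _ => hf) gB_inj (loc_pull h fun _ b => !b)).trans
    (Pr_equiv (fun _ => Equiv.boolNot) h)

theorem badB {ξ : Cfg} {k : ℕ} {b M R : ℤ} (hR : ∀ j ≤ k + 1, nm 0 (fp ξ j) ≤ R) (hb : R ≤ b)
    (hM : R + 1 ≤ M) : ∀ j ≤ k, Bad (fz (FzB ξ k) (fB ξ) fun _ => false) (b - 1) M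
      (pv (fd (path ξ j))) := by
  have R1 : 1 ≤ R := hR 1 (by omega)
  have bx : ∀ j ≤ k, pv (fd (path ξ j)) ∈ Bx 0 M ∧ (fd (path ξ j)).1 ≤ b - 1 ∨
      pv (fd (path ξ j)) ∈ Bx 0 M ∧ 0 ≤ (fd (path ξ j)).2 := fun j hj => by
    have h1 := hR (j + 1) (by omega)
    have h3 := T0.path_pos ξ j
    rcases cases4 (path ξ j).2 with e | e | e | e <;>
      simp [fp, fv, fd, pv, Bx, e, nm, abs_eq_max_neg] at h1 ⊢ <;> omega
  intro j hj
  induction j with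
  | zero => exact ⟨0, rfl, by simp; omega, le_rfl, Conn.rfl'⟩
  | succ j ih =>
    obtain ⟨s, s1, s2, s3, s4⟩ := ih (by omega)
    have b1 := (bx j (by omega)).elim And.left And.left
    have b2 := bx _ hj
    have b3 := T0.fd_low ξ (j + 1)
    have m : ed (path ξ j) ∈ expl ξ k := mem_expl.2 ⟨j, hj, rfl⟩
    rw [path_succ] at b2 b3 ⊢
    by_cases h : bc ξ (ed (path ξ j)) = true
    · rw [step_open h, fd_ro]; exact ⟨s, s1, s2, s3, s4⟩
    rw [step_closed h] at b2 b3 ⊢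
    have b4 := b2.elim And.left And.left
    by_cases h0 : (fd (rot (path ξ j))).2 < 0
    · have := b4.2
      have := b3 h0
      refine ⟨_, ?_, ?_, ?_, Conn.rfl'⟩ <;> simp only [pv] at * <;> omega
    rw [T0.fd_rot'] at b4 h0 ⊢
    obtain ⟨e1, e2⟩ := pv_step (fd (path ξ j)) ((path ξ j).2 + 1)
    replace e2 : _ = ed (path ξ j) := e2.trans (dl_fc _ _)
    rw [e1] at b4 ⊢
    refine ⟨s, s1, s2, s3, s4.snoc b1 b4 ?_⟩
    rw [fz, if_pos (show _ ∈ FzB ξ k from Or.inr (e2 ▸ m)), fB, e2]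
    have h1 := T0.bc_closed h
    have h2 := T0.path_pos ξ j
    clear s4 b1 b2 b3 b4 e1 e2 m h bx ih
    rcases cases4 (path ξ j).2 with e | e | e | e <;> split_ifs with h3 <;>
      simp [e, ed, fd, pv, rf] at h0 h1 h3 ⊢ <;>
      first
      | omega
      | exact h1.resolve_left (by omega)
      | exact (h1.resolve_left (by omega)).resolve_left (by omega)

theorem gtB {ξ : Cfg} {k : ℕ} {b M R r ρ : ℤ} {z : V} {Z : Set V}
    (hR : ∀ j ≤ k + 1, nm 0 (fp ξ j) ≤ R) (hb : R ≤ b) (hM : R + 1 ≤ M) (hρ : r ≤ ρ)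
    (h1 : Z ⊆ Bx z r)
    (h2 : ∀ c ∈ Z, ∃ c', CC (fp ξ) (k + 1) Z c c' ∧ (c' ∈ Rgt (fp ξ) (k + 1) ∨ c'.2 = 0))
    (h3 : NoL (fp ξ) (k + 1) z Z ρ (Ico 0 (2 * b - 1))) :
    Gt (FzB ξ k) (fB ξ) (b - 1) M r ρ (-1 - z.1, z.2 + 1) (ti ⁻¹' Z)
      {c | ∃ c₀ ∈ Z, CC (fp ξ) (k + 1) (Bx z ρ) c₀ (ti c)} (ti ⁻¹' Rgt (fp ξ) (k + 1)) := by
  have bad := badB hR hb hM
  have n : ∀ c, nm (-1 - z.1, z.2 + 1) c = nm z (ti c) := fun c => by
    simp only [nm, ti, abs_eq_max_neg]; omega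
  have R1 : 1 ≤ R := hR 1 (by omega)
  refine ⟨fun c hc => ⟨n c ▸ (h1 hc).1, ⟨_, hc, Conn.rfl'⟩, ?_⟩,
    fun c ⟨c₀, a1, a2⟩ a3 d a4 a5 => ⟨c₀, a1, ?_⟩, fun c hc a1 => ?_,
    fun e ⟨c₀, a1, a2⟩ a3 a4 => ?_, fun c ⟨c₀, a1, a2⟩ a3 a4 => ?_⟩
  · obtain ⟨c', a1, a2⟩ := h2 _ hc
    obtain ⟨g, rfl, hg⟩ := Conn.ind (p := fun g' => ∃ g, g' = ti g ∧
      Conn (fun _ => true) (ti ⁻¹' Z) c g) a1 ⟨c, rfl, Conn.rfl'⟩ (by
        rintro _ d - g1 g2 - ⟨g, rfl, hg⟩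
        have e : ti g + u d = ti (g + u (rf d)) := by
          rcases cases4 d with rfl | rfl | rfl | rfl <;> rw [ti_step] <;> rfl
        exact ⟨_, e, hg.snoc g1 (show ti _ ∈ Z from e ▸ g2) rfl⟩)
    exact ⟨g, hg, a2.imp_right fun h => by simp only [ti] at h; omega⟩
  · have m : ti (c + u d) ∈ Bx z ρ := ⟨n _ ▸ a4, by simp only [ti]; omega⟩
    rw [ti_step] at m ⊢
    exact cc_step a2 (h3 _ a1 _ a2).1 a3 (Conn.mem a2 ⟨(h1 a1).1.trans hρ, (h1 a1).2⟩) m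
  · rcases mem_Rgt hc with e | ⟨j, hj, ⟨-, e⟩ | ⟨h, e⟩⟩
    · exact Or.inl ⟨0, ti_inj (e.trans rfl), 0, rfl, by simp; omega, le_rfl, Conn.rfl'⟩
    · exact Or.inl ⟨_, ti_inj (e.trans (ti_cv _).symm), bad j hj.le⟩
    · have b1 := bad j hj.le
      have b2 := bad (j + 1) hj
      obtain ⟨e1, e2⟩ := pv_step (fd (path ξ j)) ((path ξ j).2 + 1)
      replace e2 : _ = ed (path ξ j) := e2.trans (dl_fc _ _)
      rw [path_succ, step_closed h, T0.fd_rot', e1] at b2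
      refine Or.inr ⟨_, ti_inj (e.trans (by rw [ti_ce, e2])), ?_, ?_,
        fun _ => Or.inr (e2 ▸ mem_expl.2 ⟨j, hj, rfl⟩)⟩ <;>
        generalize pv (fd (path ξ j)) = y at b1 b2 <;>
        rcases cases4 (rf ((path ξ j).2 + 1)) with e | e | e | e <;>
        simp [e, Prod.add_def, ← sub_eq_add_neg] at b2 ⊢ <;> assumption
  · rw [ti_ce] at a2
    rw [fB]
    split_ifs with h
    · exact decide_eq_true ⟨le_antisymm h a3.1, a3.2 (le_antisymm h a3.1)⟩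
    have := T0.bc_closed fun b => (h3 _ a1 _ a2).1 (ce_mem_Lft (a4.resolve_left h) b)
    obtain ⟨x, _ | _⟩ := e <;> simp [gB] at this h ⊢ <;>
      first
      | exact this.resolve_left (by omega)
      | exact (this.resolve_left (by omega)).resolve_left (by omega)
  · have := (h3 _ a1 _ a2).2 (by simp [ti, a3])
    simp only [ti, mem_Ico] at this
    exact ⟨by omega, fun _ => by omega⟩

theorem to_fB {σ : Cfg} {M : ℤ} {x y : V} (h0 : y.2 = 0) (hy : y ∈ Bx 0 M)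
    (h : Conn (du σ) (Bx 0 M) y x) : Conn (fB σ) (Bx 0 (M + 1)) (-y.1, 0) (pv x) := by
  have m : ∀ f ∈ Bx 0 M, pv f ∈ Bx 0 (M + 1) := fun f h => by
    simp [Bx, nm, pv, abs_le] at h ⊢; omega
  refine h.ind (p := fun x => Conn (fB σ) (Bx 0 (M + 1)) (-y.1, 0) (pv x)) ?_
    fun f d _ f1 f2 f3 ih => ?_
  · have e : pv y = (-y.1, 0) + u 1 := by simp [pv, h0]
    exact e ▸ Conn.one (by simp [Bx, nm, abs_le] at hy ⊢; omega) (e ▸ m y hy) (by simp [fB])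
  · obtain ⟨e1, e2⟩ := pv_step f d
    have := m _ f2
    rw [e1] at this ⊢
    refine ih.snoc (m f f1) this ?_
    rw [fB, e2, if_neg]
    · exact f3
    have a1 := f1.2
    have a2 := f2.2
    rcases cases4 d with rfl | rfl | rfl | rfl <;> simp [pv, rf] at a2 ⊢ <;> omega

theorem of_fB {σ : Cfg} {M : ℤ} {x y : V} (h : Conn (fB σ) (Bx 0 M) x y) :
    Conn (du σ) (Bx 0 M) (-x.1, max (x.2 - 1) 0) (-y.1, max (y.2 - 1) 0) := by
  refine h.ind (p := fun y => Conn (du σ) (Bx 0 M) (-x.1, max (x.2 - 1) 0)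
    (-y.1, max (y.2 - 1) 0)) Conn.rfl' fun g d _ g1 g2 g3 ih => ?_
  rw [fB] at g3
  split_ifs at g3 with h0
  · convert ih using 2 <;> rcases cases4 d with rfl | rfl | rfl | rfl <;> simp at g3 ⊢ <;> omega
  have e : ((-(g + u d).1, max ((g + u d).2 - 1) 0) : V) = (-g.1, max (g.2 - 1) 0) + u (rf d) ∧
      dl (edge (-g.1, max (g.2 - 1) 0) (rf d)) = gB (edge g d) := by
    rcases cases4 d with rfl | rfl | rfl | rfl <;> simp [rf, dl, gB] at h0 ⊢ <;> omega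
  have m : ∀ f ∈ Bx 0 M, ((-f.1, max (f.2 - 1) 0) : V) ∈ Bx 0 M := fun f h => by
    simp only [Bx, nm, mem_ofPred, abs_eq_max_neg, Prod.fst_zero, Prod.snd_zero] at h ⊢; omega
  have := m _ g2
  rw [e.1] at this ⊢
  exact ih.snoc (m g g1) this (by rw [du, e.2, g3])

end Ext

open Ext

theorem t_EXTB : S_EXTB := by
  obtain ⟨C, c, c0, C0, h0, h⟩ := cell
  refine ⟨C, c, c0, fun ξ k a b M R r ρ ι z Z hr hρ hR ha hb h1 h2 h3 => ?_⟩
  rcases lt_or_ge ρ (12 * r) with h4 | h4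
  · exact h0 _ r ρ hr hρ h4
  have R1 : 1 ≤ R := hR 1 (by omega)
  have nt : ∀ i (y : V), y.2 = 0 → y.1 < -a → cf y ∉ Z i := fun i y y1 y2 hy => by
    have a0 := (h1 i hy).1
    have a1 := nm_lip (z i) (cf y) 3
    have a2 := nm_lip (z i) (cf y + u 3) 3
    have m : cf y + u 3 ∈ Bx (z i) ρ := ⟨by omega, by simp [cf, y1]⟩
    have n : ∀ c : V, c.1 = 2 * y.1 → c ∉ Rgt (fp ξ) (k + 1) := fun c e h => by
      have := side_bd hR (Or.inr h); omega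
    have c1 := cc_step (S := Bx (z i) ρ) Conn.rfl' (h3 i _ hy _ Conn.rfl').1 (n _ rfl)
      ⟨by omega, (h1 i hy).2⟩ m
    have := ((h3 i _ hy _ (cc_step (d := 3) c1 (h3 i _ hy _ c1).1 (n _ (by simp [cf])) m
      ⟨by omega, by simp [cf, y1]⟩)).2 (by simp [cf, y1])).1
    simp [cf] at this
    omega
  have mem : ∀ {σ x y i}, y.2 = 0 → y.1 < -a → cf x ∈ Z i → Conn σ (Bx 0 M) y x → x ∈ Bx 0 M :=
    fun y1 y2 x1 hp => Conn.mem' hp fun e => nt _ _ y1 y2 (e ▸ x1)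
  rcases lt_or_ge M 0 with hM | hM
  · refine (Pr_mono (B := ∅) ?_).trans (empty_le C0 hr hρ)
    rintro ω ⟨⟨x, y, i, y1, y2, x1, hp⟩, -⟩
    have := (mem y1 y2 x1 hp).1
    simp only [nm, abs_eq_max_neg] at this
    omega
  refine (Pr_mono ?_).trans ((Q_gB (loc_Ev ..)).trans_le (h (FzB ξ k) (fB ξ) (b - 1) (a + 1) (M + 1)
    (M + ρ + R + 10) r ρ ι _ (fun i => ti ⁻¹' Z i) (fun e he => ?_) (by omega) (by omega) hr h4
    (by omega) fun i => ⟨_, _, gtB hR hb (by omega) hρ (h1 i) (h2 i) (h3 i)⟩))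
  · rintro ω ⟨⟨x, y, i, y1, y2, x1, hp⟩, hn⟩
    simp only [Ev, mem_ofPred, fzB]
    have m := mem y1 y2 x1 hp
    have k := to_fB y1 (hp.symm'.mem m) hp
    refine ⟨⟨_, _, ⟨rfl, by simp only; omega, mem_iUnion.2 ⟨i, show ti _ ∈ _ from ti_cv x ▸ x1⟩,
      by simp [Bx, nm, pv, abs_le] at m ⊢; omega⟩, k⟩, fun ⟨s, t, s1, s2, s3, t1, t2, k⟩ =>
      hn ⟨_, _, ?_, ?_, ?_, ?_, ?_, of_fB k⟩⟩ <;> simp only <;> omega
  · have := not_Hi.1 he
    exact ⟨Or.inl (by omega), by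
      rcases this with h | h <;> simp [fB, h, show e.1.2 ≤ 0 by omega]; omega⟩

end Pool.Agent.P.MP_6c8efb_pr.SLE
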