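import Pool.Agent.P.MP_6c8efb_pr.Cardy.BAll
import Pool.Agent.P.MP_6c8efb_pr.SLE.LAll
import Pool.Agent.P.MP_6c8efb_pr.SLE.T0Trans
import Pool.Agent.P.MP_6c8efb_pr.SLE.TGAll
import Pool.Agent.P.MP_6c8efb_pr.SLE.TFlat
import Pool.Agent.P.MP_6c8efb_pr.SLE.TAMain
import Pool.Agent.P.MP_6c8efb_pr.SLE.XA
import Pool.Agent.P.MP_6c8efb_pr.SLE.XB
import Pool.Agent.P.MP_6c8efb_pr.SLE.QPoly
import Pool.Agent.P.MP_6c8efb_pr.SLE.RLR
import Pool.Agent.P.MP_6c8efb_pr.SLE.REnd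
import Pool.Agent.P.MP_6c8efb_pr.SLE.UReg
import Pool.Agent.P.MP_6c8efb_pr.SLE.UIdm
import Pool.Agent.P.MP_6c8efb_pr.SLE.UOne
import Pool.Agent.P.MP_6c8efb_pr.SLE.UUnif
import Pool.Agent.P.MP_6c8efb_pr.SLE.GBasic
import Pool.Agent.P.MP_6c8efb_pr.SLE.Apx
import Pool.Agent.P.MP_6c8efb_pr.SLE.GMain2

/-! All the blocks together. -/

namespace Pool.Agent.P.MP_6c8efb_pr.SLE

open L

theorem all_LR : S_LR := t_LR all_Prop all_Wg all_L1 all_Rad all_Tipf all_Cont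

theorem all_CAP : S_CAP := t_CAP T0.s_fp T0.s_unb t_PC all_Exist all_Clock all_Cont

theorem all_BAS : S_BAS := t_BAS T0.s_fp all_CAP all_Cont

theorem all_RAD : S_RAD := Apx.rad T0.s_fp T0.s_t0 all_CAP all_Hgt all_Cont

theorem all_TIGHT : S_TIGHT :=
  TA.t_TIGHT T0.s_fp t_PC all_CAP all_BAS all_RAD T0.s_t1 (TG.t_GATE T0.s_fp T0.s_t1)
    (t_FLAT T0.s_fp) all_LR t_CONT all_Exist all_L1 all_Wg all_Wf all_Tip all_Cont all_Hgt

theorem all_UNIF : S_UNIF :=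
  t_UNIF T0.s_fp (One.u1a s_poly s_reg s_IDM Cardy.all_CARDY all_L2s all_Wg all_Prop)
    (One.u1b s_poly s_reg s_IDM Cardy.all_CARDY all_L2s all_Wg all_Prop) s_reg s_tile t_EXTA t_EXTB
    T0.s_disj all_LR t_DISC t_CONT t_END all_Wf all_Wg all_Prop all_L2s all_Cont

theorem all_APPROX : S_APPROX :=
  Apx.approx T0.s_fp all_CAP all_RAD all_UNIF all_L1s all_Tip all_Step all_Cont

theorem all_MAIN : S_MAIN2 :=
  main2 T0.s_fp T0.s_trans all_CAP all_BAS all_RAD all_TIGHT all_APPROX all_L1s all_Cont all_Closed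
    all_Uniq all_Ne all_Un0

end Pool.Agent.P.MP_6c8efb_pr.SLE
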