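import Pool.Agent.P.MP_6c8efb_pr.SLE.ApxB
import Pool.Agent.P.MP_6c8efb_pr.SLE.LIface

/-! The exponential tail of the radius, and the expansion of the cross ratio. -/

open Set Filter Topology MeasureTheory Metric
open scoped NNReal

namespace Pool.Agent.P.MP_6c8efb_pr.SLE.Apx

theorem Cv_apply (δ : ℝ) (ω : Cfg) (t : ℝ≥0) : Cv δ ω t = eta δ ω (tau δ ω t) := rfl

theorem floor_mem (t : ℝ≥0) : (t : ℝ) ∈ Icc ((⌊t⌋₊ : ℕ) : ℝ) ((⌊t⌋₊ : ℕ) + 1) :=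
  ⟨by exact_mod_cast Nat.floor_le (zero_le : 0 ≤ t), by exact_mod_cast (Nat.lt_floor_add_one t).le⟩

theorem im_le (hH : L.S_Hgt) (hC : L.S_Cont) {η : ℝ≥0 → ℂ} (h : L.CapPar η) {t T : ℝ≥0}
    (ht : t ≤ T) : (η t).im ≤ 2 * √T := by
  rcases eq_or_lt_of_le (zero_le : 0 ≤ t) with rfl | h0
  · rw [h.zero]; simp
  · have h1 := hH η h.toSimple 0 t h0
    rw [(hC.1 η h.toSimple).2.2.2.1 _ (h.pos t h0), h.clock, h.clock] at h1
    have h2 : (t : ℝ) ≤ T := ht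
    refine (abs_le_of_sq_le_sq' ?_ (by positivity)).2
    rw [mul_pow, Real.sq_sqrt T.coe_nonneg]
    simp only [NNReal.coe_zero] at h1
    linarith

theorem crit_le {A B : Set Cfg} (h : A ⊆ B) {x : ℝ} (hx : Q B ≤ x) : crit A ≤ ENNReal.ofReal x := by
  have : IsProbabilityMeasure crit := inferInstanceAs (IsProbabilityMeasure (PM fun _ => hf))
  refine (measure_mono h).trans ?_
  rw [← ofReal_measureReal (μ := crit)]
  exact ENNReal.ofReal_le_ofReal hx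

theorem rad (hF : S_FP) (hT : S_T0) (hK : S_CAP) (hH : L.S_Hgt) (hC : L.S_Cont) : S_RAD := by
  intro T
  obtain ⟨C, c, hc, hT⟩ := hT
  set H : ℝ := 2 * √T + 1 with hH'
  have hH1 : 1 ≤ H := by have := Real.sqrt_nonneg (T : ℝ); linarith
  refine ⟨max C 1 * Real.exp (c * H / (H + 1)), c / (H + 1), by positivity, ?_⟩
  filter_upwards [Ioc_mem_nhdsGT (zero_lt_two (α := ℝ))] with δ hδ r
  have hδ0 := hδ.1
  have e : max C 1 * Real.exp (c * H / (H + 1)) * Real.exp (-(c / (H + 1)) * r) =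
      max C 1 * Real.exp (-c * ((r - H) / (H + 1))) := by
    rw [mul_assoc, ← Real.exp_add]; congr 2; field_simp; ring
  rw [e]
  rcases le_total r H with hr | hr
  · refine crit_le (subset_univ _) ?_
    rw [Q, Pr_univ]
    refine one_le_mul_of_one_le_of_one_le (le_max_right _ _) (Real.one_le_exp ?_)
    have : (r - H) / (H + 1) ≤ 0 := div_nonpos_of_nonpos_of_nonneg (by linarith) (by linarith)
    nlinarith
  have hh : (1 : ℤ) ≤ ⌈2 / δ * H⌉ := Int.one_le_ceil_iff.2 (by positivity)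
  refine crit_le ?_ ((hT ⌈1 / δ ^ 2⌉₊ ⌈2 / δ * H⌉ ⌈2 / δ * (r - H)⌉ hh).trans ?_)
  · rintro ω ⟨t, ht, hr'⟩
    have hcap := (hK δ ω hδ0).2.1
    have him : ∀ j ≤ ⌊tau δ ω t⌋₊, (eta δ ω j).im ≤ 2 * √T := by
      intro j hj
      have h1 : (j : ℝ≥0) ≤ tau δ ω t := (Nat.cast_le.2 hj).trans (Nat.floor_le zero_le)
      have h2 := im_le hH hC hcap (((tau δ ω).symm_apply_le.2 h1).trans ht)
      rwa [Cv_apply, OrderIso.apply_symm_apply] at h2
    have hre : ∀ j : ℕ, (eta δ ω j).re = δ / 2 * (fp (tr ⌈1 / δ ^ 2⌉₊ ω) j).1 ∧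
        (eta δ ω j).im = δ / 2 * (fp (tr ⌈1 / δ ^ 2⌉₊ ω) j).2 := by
      intro j
      rw [eta, pc_nat, Complex.re_ofReal_mul, Complex.im_ofReal_mul]
      exact ⟨rfl, rfl⟩
    refine ⟨⌊tau δ ω t⌋₊, Int.ceil_le.2 ?_, fun j hj => ?_⟩
    · have h1 : ‖eta δ ω (tau δ ω t) - eta δ ω (⌊tau δ ω t⌋₊ : ℕ)‖ ≤ δ / 2 :=
        pc_near (by positivity) (hF _) ⌊tau δ ω t⌋₊ (by simp) (floor_mem _)
      have h2 := norm_sub_norm_le (eta δ ω (tau δ ω t)) (eta δ ω (⌊tau δ ω t⌋₊ : ℕ))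
      have h3 := Complex.norm_le_abs_re_add_abs_im (eta δ ω (⌊tau δ ω t⌋₊ : ℕ))
      rw [abs_of_nonneg ((hK δ ω hδ0).1.toCurve.im_nonneg _), (hre _).1, abs_mul,
        abs_of_pos (by positivity : 0 < δ / 2)] at h3
      have h4 := him _ le_rfl
      rw [Cv_apply] at hr'
      have h5 : r - H ≤ δ / 2 * |((fp (tr ⌈1 / δ ^ 2⌉₊ ω) ⌊tau δ ω t⌋₊).1 : ℝ)| := by
        linarith [hδ.2]
      rw [Int.cast_abs, div_mul_eq_mul_div, div_le_iff₀ hδ0]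
      linarith
    · have h1 := him j hj
      rw [(hre j).2] at h1
      have h2 : ((fp (tr ⌈1 / δ ^ 2⌉₊ ω) j).2 : ℝ) ≤ 2 / δ * H := by
        rw [div_mul_eq_mul_div, le_div_iff₀ hδ0]; linarith
      exact_mod_cast h2.trans (Int.le_ceil _)
  · refine (mul_le_mul_of_nonneg_right (le_max_left C 1) (Real.exp_pos _).le).trans
      (mul_le_mul_of_nonneg_left (Real.exp_le_exp.2 ?_) (by positivity))
    have h1 : 2 / δ * (r - H) ≤ ⌈2 / δ * (r - H)⌉ := Int.le_ceil _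
    have h2 : (⌈2 / δ * H⌉ : ℝ) ≤ 2 / δ * (H + 1) := by
      have := (Int.ceil_lt_add_one (2 / δ * H)).le
      have h3 : 1 ≤ 2 / δ := (one_le_div hδ0).2 hδ.2
      linarith
    have h3 : (0 : ℝ) < ⌈2 / δ * H⌉ := by exact_mod_cast hh
    have h4 : (r - H) / (H + 1) ≤ ⌈2 / δ * (r - H)⌉ / ⌈2 / δ * H⌉ := by
      rw [← mul_div_mul_left (r - H) (H + 1) (by positivity : 2 / δ ≠ 0)]
      exact div_le_div₀ ((by positivity : 0 ≤ 2 / δ * (r - H)).trans h1) h1 h3 h2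
    rw [mul_div_assoc]
    nlinarith

theorem near (h1 : L.S_L1s) (h2 : L.S_Tip) (h3 : L.S_Step) (hC : L.S_Cont) {η : ℝ≥0 → ℂ}
    (hη : L.Simple η) {s t : ℝ≥0} (hst : s ≤ t) {r l ρ ε u C r' N : ℝ} {F : ℝ → ℝ} (hr : 0 < r)
    (hb : ∀ v ≤ t, ‖η v‖ ≤ r) (hl : 4 * r ≤ l) (hl1 : 1 ≤ l) (hρ : 0 < ρ) (hρl : ρ < l)
    (hs : ∀ v ∈ Icc s t, ‖η v - η s‖ ≤ ρ) (he1 : 13 * L.om l ρ ≤ ε) (he2 : L.om l ρ ≤ 1)
    (hu : L.ct η s = 2 * u) (hC' : 48 ≤ C) (hr' : r ≤ r') (hN : |N - F (lam η t l)| ≤ ε) :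
    NearF F C l ε r' u (L.drv η s) N := by
  have hbl : ∀ v ≤ t, ‖η v‖ ≤ l := fun v hv => (hb v hv).trans (by linarith)
  have ho := L.om_pos hρ hρl
  have a1 := (hC.1 η hη).2.2.2.2.2.2.2.2 s t l ρ hst hbl hρ hρl hs
  have a2 := (h2 η hη).2.1 s t l ρ hbl hρ hρl hs
  have a3 := h3 η hη s t _ _ hst ho a2
  have a4 := a3.2.2.1 _ ho.le fun v hv => by
    have := (Complex.im_le_norm _).trans (a2 v hv)
    simpa using this
  have a5 := a3.1
  have hK : L.hull η t ⊆ closedBall ((0 : ℝ) : ℂ) r := by simpa using L.hull_subset_ball hb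
  obtain ⟨b1, b2, b3⟩ := h1 _ _ _ _ (hη.hyd t) (hη.sym t) 0 r hr hK
  have b4 := b2 r hr.le fun z hz => (Complex.im_le_norm z).trans (by simpa using hK hz)
  have hl0 : 0 < l := by linarith
  have c1 := b3 (-l) (by simpa [abs_of_pos hl0] using hl)
  have c2 := b3 (2 * l) (by simp [abs_of_pos hl0]; linarith)
  have d1 := (Complex.abs_re_le_norm _).trans c1
  have d2 := (Complex.abs_re_le_norm _).trans c2
  have e1 : (L.gt η t (-l) - -l - L.ct η t / (-l - (0 : ℝ))).re =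
      (L.gt η t (-l)).re + l + L.ct η t / l := by
    rw [show ((L.ct η t : ℂ) / (-l - (0 : ℝ))) = ((-(L.ct η t / l) : ℝ) : ℂ) by
      push_cast; rw [sub_zero, div_neg]]
    simp only [Complex.sub_re, Complex.neg_re, Complex.ofReal_re]; ring
  have e2 : (L.gt η t (2 * l) - 2 * l - L.ct η t / (2 * l - (0 : ℝ))).re =
      (L.gt η t (2 * l)).re - 2 * l - L.ct η t / (2 * l) := by
    rw [show ((L.ct η t : ℂ) / (2 * l - (0 : ℝ))) = ((L.ct η t / (2 * l) : ℝ) : ℂ) by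
      push_cast; rw [sub_zero], show (2 * l : ℂ) = ((2 * l : ℝ) : ℂ) by push_cast; rfl]
    simp only [Complex.sub_re, Complex.ofReal_re]
  have n1 : ‖(-l - (0 : ℝ) : ℂ)‖ ^ 2 = l ^ 2 := by simp
  have n2 : ‖(2 * l - (0 : ℝ) : ℂ)‖ ^ 2 = 4 * l ^ 2 := by simp [mul_pow]; norm_num
  rw [e1, n1] at d1
  rw [e2, n2] at d2
  have f1 : 12 * r * L.ct η t ≤ C * (1 + r') ^ 3 := by
    have : r ^ 3 ≤ (1 + r') ^ 3 := pow_le_pow_left₀ hr.le (by linarith) 3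
    have h48 : 12 * r * L.ct η t ≤ 48 * r ^ 3 := by nlinarith
    have : 0 ≤ r ^ 3 := by positivity
    nlinarith
  have f2 : 12 * r * L.ct η t / l ^ 2 ≤ C * (1 + r') ^ 3 / l ^ 2 :=
    div_le_div_of_nonneg_right f1 (by positivity)
  have f3 : 12 * r * L.ct η t / (4 * l ^ 2) ≤ 12 * r * L.ct η t / l ^ 2 :=
    div_le_div_of_nonneg_left (by positivity) (by positivity) (by nlinarith)
  have g0 : 0 ≤ (L.ct η t - 2 * u) / l := div_nonneg (by linarith) hl0.le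
  have g1 : (L.ct η t - 2 * u) / l ≤ ε := by
    refine (div_le_self (by linarith) hl1).trans ?_
    nlinarith
  have g2 : L.ct η t / l = 2 * u / l + (L.ct η t - 2 * u) / l := by field_simp; ring
  have g3 : L.ct η t / (2 * l) = u / l + (L.ct η t - 2 * u) / l / 2 := by field_simp; ring
  refine ⟨L.drv η t, (L.gt η t (-l)).re, (L.gt η t (2 * l)).re, a1.trans he1, ?_, ?_, hN⟩
  · rw [abs_le] at d1 ⊢; constructor <;> linarith [d1.1, d1.2]
  · rw [abs_le] at d2 ⊢; constructor <;> linarith [d2.1, d2.2]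

end Pool.Agent.P.MP_6c8efb_pr.SLE.Apx
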