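import Mathlib

/-!
Block L of the SLE project: definitions for the deterministic Loewner theory.
-/

namespace Pool.Agent.P.MP_6c8efb_pr.SLE.L

open Set Filter Topology Metric Complex
open scoped NNReal ComplexConjugate

/-- The open upper half-plane. -/
def HH : Set ℂ := {z | 0 < z.im}

/-- The Loewner equation driven by `W` and started at `z` has a solution on `[0,t]`. -/
def Alive (W : ℝ≥0 → ℝ) (t : ℝ≥0) (z : ℂ) : Prop :=
  ∃ G : ℝ → ℂ, G 0 = z ∧ ∀ s ∈ Icc (0 : ℝ) t, G s ≠ W s.toNNReal ∧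
    HasDerivWithinAt G (2 / (G s - W s.toNNReal)) (Icc (0 : ℝ) t) s

/-- The curve `γ` generates the Loewner chain driven by `W`. -/
def IsTrace (γ : ℝ≥0 → ℂ) (W : ℝ≥0 → ℝ) : Prop :=
  γ 0 = W 0 ∧ (∀ t, 0 ≤ (γ t).im) ∧ ∀ (t : ℝ≥0) (z : ℂ), 0 < z.im →
    (Alive W t z ↔ ¬ Bornology.IsBounded (connectedComponentIn (HH \ γ '' Iic t) z))

/-- `g` maps `HH \ K` conformally onto `HH` with inverse `f`, and `g z = z + a / z + o(1/z)`. -/
structure Hyd (K : Set ℂ) (g f : ℂ → ℂ) (a : ℝ) : Prop where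
  sub : K ⊆ HH
  bdd : Bornology.IsBounded K
  opn : IsOpen (HH \ K)
  dg : DifferentiableOn ℂ g (HH \ K)
  df : DifferentiableOn ℂ f HH
  mg : MapsTo g (HH \ K) HH
  mf : MapsTo f HH (HH \ K)
  fg : ∀ z ∈ HH \ K, f (g z) = z
  gf : ∀ w ∈ HH, g (f w) = w
  lim : ∀ ε : ℝ, 0 < ε → ∃ R : ℝ, ∀ z ∈ HH \ K, R ≤ ‖z‖ → ‖z * (g z - z) - a‖ ≤ ε
  loc : ∀ R : ℝ, ∃ M : ℝ, ∀ z ∈ HH \ K, ‖z‖ ≤ R → ‖g z‖ ≤ M

/-- The plane minus the closure of `K` and its mirror image. -/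
def Dsym (K : Set ℂ) : Set ℂ := {z | z ∉ closure K ∧ conj z ∉ closure K}

/-- `g` is a symmetric injective holomorphic map on `Dsym K`, with holomorphic inverse `f`. -/
structure Sym (K : Set ℂ) (g f : ℂ → ℂ) : Prop where
  dg : DifferentiableOn ℂ g (Dsym K)
  inj : InjOn g (Dsym K)
  cj : ∀ z ∈ Dsym K, g (conj z) = conj (g z)
  df : DifferentiableOn ℂ f (g '' Dsym K)
  fg : ∀ z ∈ Dsym K, f (g z) = z

/-- A canonical choice of the maps and of the half-plane capacity of `K`. -/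
noncomputable def trip (K : Set ℂ) : (ℂ → ℂ) × (ℂ → ℂ) × ℝ :=
  Classical.epsilon fun p => Hyd K p.1 p.2.1 p.2.2 ∧ Sym K p.1 p.2.1

noncomputable def gm (K : Set ℂ) : ℂ → ℂ := (trip K).1
noncomputable def fm (K : Set ℂ) : ℂ → ℂ := (trip K).2.1
noncomputable def cap (K : Set ℂ) : ℝ := (trip K).2.2

/-- The slit `η (0,t]`. -/
def hull (η : ℝ≥0 → ℂ) (t : ℝ≥0) : Set ℂ := η '' Ioc 0 t

noncomputable def gt (η : ℝ≥0 → ℂ) (t : ℝ≥0) : ℂ → ℂ := gm (hull η t)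
noncomputable def ft (η : ℝ≥0 → ℂ) (t : ℝ≥0) : ℂ → ℂ := fm (hull η t)
noncomputable def ct (η : ℝ≥0 → ℂ) (t : ℝ≥0) : ℝ := cap (hull η t)

/-- The driving function: image of the tip. -/
noncomputable def drv (η : ℝ≥0 → ℂ) (t : ℝ≥0) : ℝ :=
  (limUnder (𝓝[>] t) fun u => gt η t (η u)).re

/-- A simple curve from `0` in the upper half-plane. -/
structure Curve (η : ℝ≥0 → ℂ) : Prop where
  cont : Continuous η
  inj : Function.Injective η
  zero : η 0 = 0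
  pos : ∀ t, 0 < t → 0 < (η t).im

/-- A simple curve all of whose slits have mapping-out functions. -/
structure Simple (η : ℝ≥0 → ℂ) : Prop extends Curve η where
  hyd : ∀ t, Hyd (hull η t) (gt η t) (ft η t) (ct η t)
  sym : ∀ t, Sym (hull η t) (gt η t) (ft η t)

/-- A simple curve in the capacity parametrisation. -/
structure CapPar (η : ℝ≥0 → ℂ) : Prop extends Simple η where
  clock : ∀ t, ct η t = 2 * t

/-- Polygonal curve with vertices at the integer times. -/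
def Poly (η : ℝ≥0 → ℂ) : Prop :=
  ∀ (k : ℕ) (τ : ℝ≥0), τ ≤ 1 → η (k + τ) = η k + (τ : ℂ) * (η (k + 1) - η k)

/-- Discrete pairs (driving function, curve). -/
def Good : Set (C(ℝ≥0, ℝ) × C(ℝ≥0, ℂ)) := {p | CapPar p.2 ∧ ∀ t, p.1 t = drv p.2 t}

/-- The modulus given by the length-area argument. -/
noncomputable def om (R ρ : ℝ) : ℝ := 200 * R / √(Real.log (R / ρ))

/-- Every continuous zero-free function on `U` has a continuous logarithm. -/
def CLog (U : Set ℂ) : Prop := ∀ F : ℂ → ℂ, ContinuousOn F U → (∀ z ∈ U, F z ≠ 0) →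
  ∃ L : ℂ → ℂ, ContinuousOn L U ∧ ∀ z ∈ U, cexp (L z) = F z

/-- The complement of `S` in the Riemann sphere, seen in the chart `u = 1 / z`. -/
def Om (S : Set ℂ) : Set ℂ := {u | u = 0 ∨ u⁻¹ ∉ S}

/-- A thin triangle with apex `p` (excluded) around the direction `d`. -/
def Cone (p d : ℂ) (c l : ℝ) : Set ℂ :=
  {z | ∃ x y : ℝ, 0 < y ∧ y ≤ l ∧ |x| ≤ c * y ∧ z = p + (y + x * I) * d}

/-- The doubled slit. -/
def dbl (η : ℝ≥0 → ℂ) (t : ℝ≥0) : Set ℂ := {z | z ∈ η '' Iic t ∨ conj z ∈ η '' Iic t}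

/-- Near `p` the set `D` is radial. -/
def Rad (D : Set ℂ) (p : ℂ) : Prop := ∃ e : ℝ, 0 < e ∧ ∀ z ∈ D, ∀ l : ℝ, 1 ≤ l →
  l * ‖z - p‖ ≤ e → p + l * (z - p) ∈ D

/-- Length of the image under `F` of the part in `U` of the circle of centre `c` and radius `s`. -/
noncomputable def clen (F : ℂ → ℂ) (U : Set ℂ) (c : ℂ) (s : ℝ) : ENNReal :=
  ∫⁻ θ in {θ : ℝ | θ ∈ Ioo (-Real.pi) Real.pi ∧ c + s * cexp (θ * I) ∈ U},
    ENNReal.ofReal (‖deriv F (c + s * cexp (θ * I))‖ * s)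

/-- A solution of the Loewner equation on `[0,t]` that stays in the upper half-plane. -/
def Sol (W : ℝ≥0 → ℝ) (t : ℝ≥0) (G : ℝ → ℂ) : Prop := ∀ s ∈ Icc (0 : ℝ) t, 0 < (G s).im ∧
  HasDerivWithinAt G (2 / (G s - W s.toNNReal)) (Icc (0 : ℝ) t) s

/-- Projection on the half-plane `im ≥ c`. -/
noncomputable def pj (c : ℝ) (x : ℂ) : ℂ := x + (max (c - x.im) 0 : ℝ) * I

/-- A solution of the truncated equation. -/
def TSol (κ : ℂ) (c : ℝ) (W : ℝ → ℝ) (T : ℝ) (G : ℝ → ℂ) : Prop := ∀ s ∈ Icc (0 : ℝ) T,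
  HasDerivWithinAt G (κ / (pj c (G s) - W s)) (Icc (0 : ℝ) T) s

end Pool.Agent.P.MP_6c8efb_pr.SLE.L
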