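import Pool.Agent.P.MP_6c8efb_pr.SLE.MLevy

/-! Interface of the probabilistic block: tightness and the approximate martingale. -/

open MeasureTheory ProbabilityTheory Filter Topology
open scoped NNReal

namespace Pool.Agent.P.MP_6c8efb_pr.SLE

/-- continuous complex paths -/
abbrev PC := C(ℝ≥0, ℂ)

/-- paths with an oscillation larger than `ε` on a window shorter than `θ` before time `T` -/
def OscSet (E : Type) [PseudoMetricSpace E] (T : ℝ≥0) (θ ε : ℝ) : Set C(ℝ≥0, E) :=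
  {w | ∃ s t : ℝ≥0, s ≤ t ∧ t ≤ T ∧ (t : ℝ) - s < θ ∧ ε < dist (w t) (w s)}

variable {ι Ω : Type} [MeasurableSpace Ω]

/-- large oscillations on short windows are unlikely, uniformly along `l` -/
def TightOsc {E : Type} [PseudoMetricSpace E] (P : Measure Ω) (l : Filter ι)
    (X : ι → Ω → C(ℝ≥0, E)) : Prop :=
  ∀ (T : ℝ≥0) (ε ε' : ℝ), 0 < ε → 0 < ε' → ∃ θ : ℝ, 0 < θ ∧
    ∀ᶠ δ in l, P {ω | X δ ω ∈ OscSet E T θ ε} ≤ ENNReal.ofReal ε'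

/-- `N` is close to `F` of the cross ratio of the driving point `W` at capacity time `u` and of the
images `x`, `y` of the points `-L`, `2 L`, for a hull of radius at most `ρ` -/
def NearF (F : ℝ → ℝ) (C L ε ρ u W N : ℝ) : Prop :=
  ∃ w x y : ℝ, |w - W| ≤ ε ∧ |x - (-L - 2 * u / L)| ≤ ε + C * (1 + ρ) ^ 3 / L ^ 2 ∧
    |y - (2 * L + u / L)| ≤ ε + C * (1 + ρ) ^ 3 / L ^ 2 ∧ |N - F ((w - x) / (y - x))| ≤ ε

/-- the approximate martingale: `N` and `N'` are the conditional probabilities of the crossing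
event at the first steps of capacity at least `s` and `t` -/
def Approx (P : Measure Ω) (l : Filter ι) (W : ι → Ω → PR) (F : ℝ → ℝ) : Prop :=
  ∀ T : ℝ≥0, ∃ C c : ℝ, 0 < c ∧ ∀ (L ε : ℝ) (s t : ℝ≥0), 1 ≤ L → 0 < ε → s ≤ t → t ≤ T →
    ∀ᶠ δ in l, ∃ ρ N N' : Ω → ℝ, AEMeasurable ρ P ∧ AEMeasurable N P ∧ AEMeasurable N' P ∧
      (∀ r : ℝ, P {ω | r < ρ ω} ≤ ENNReal.ofReal (C * Real.exp (-c * r))) ∧
      (∀ ψ : PR → ℝ, Loc s ψ → ∫ ω, ψ (W δ ω) * N ω ∂P = ∫ ω, ψ (W δ ω) * N' ω ∂P) ∧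
      ∀ᵐ ω ∂P, (∀ u ≤ T, |W δ ω u| ≤ ρ ω) ∧ |N ω| ≤ 1 ∧ |N' ω| ≤ 1 ∧
        (C * (1 + ρ ω) ≤ L →
          NearF F C L ε (ρ ω) s (W δ ω s) (N ω) ∧ NearF F C L ε (ρ ω) t (W δ ω t) (N' ω))

/-- the differential equation of the crossing formula -/
def IsCardy (F : ℝ → ℝ) : Prop :=
  ∃ κ : ℝ, κ ≠ 0 ∧ ∀ x ∈ Set.Ioo (0 : ℝ) 1, HasDerivAt F (κ * (x * (1 - x)) ^ (-2 / 3 : ℝ)) x

/-- the main statement of the block -/
def S_M : Prop := ∀ (ι Ω : Type) [MeasurableSpace Ω] [MeasurableSpace PR] [BorelSpace PR]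
  [MeasurableSpace PC] [BorelSpace PC] (P : Measure Ω) [IsProbabilityMeasure P] (l : Filter ι)
  [l.NeBot] [l.IsCountablyGenerated] (W : ι → Ω → PR) (η : ι → Ω → PC) (Z : Set (PR × PC))
  (F : ℝ → ℝ), (∀ δ, AEMeasurable (W δ) P) → (∀ δ, AEMeasurable (η δ) P) →
  (∀ᶠ δ in l, ∀ᵐ ω ∂P, W δ ω 0 = 0 ∧ η δ ω 0 = 0 ∧ (W δ ω, η δ ω) ∈ Z) →
  Set.InjOn Prod.fst (closure Z) → TightOsc P l W → TightOsc P l η → IsCardy F → Approx P l W F →
  ∃ (ν : Measure (PR × PC)) (_ : IsProbabilityMeasure ν), (∀ᵐ p ∂ν, p ∈ closure Z) ∧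
    IsBrownianReal (fun t (p : PR × PC) => (√6)⁻¹ * p.1 t) ν ∧
    TendstoInDistribution η l Prod.snd (fun _ => P) ν

/-- a small perturbation in probability does not change the limit in law -/
def S_Slut : Prop := ∀ (ι Ω Ω' : Type) [MeasurableSpace Ω] [MeasurableSpace Ω']
  [MeasurableSpace PC] [BorelSpace PC] (P : Measure Ω) [IsProbabilityMeasure P] (ν : Measure Ω')
  [IsProbabilityMeasure ν] (l : Filter ι) [l.IsCountablyGenerated] (X Y : ι → Ω → PC)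
  (Γ : Ω' → PC), TendstoInDistribution X l Γ (fun _ => P) ν → (∀ δ, AEMeasurable (Y δ) P) →
  (∀ (T : ℝ≥0) (ε : ℝ), 0 < ε → ∀ᶠ δ in l,
    P {ω | ∃ t ≤ T, ε < dist (X δ ω t) (Y δ ω t)} ≤ ENNReal.ofReal ε) →
  TendstoInDistribution Y l Γ (fun _ => P) ν

end Pool.Agent.P.MP_6c8efb_pr.SLE
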