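import Mathlib

/-! The conformal map of the upper half plane onto the equilateral triangle with vertices
`0`, `1`, `exp (π i / 3)`, and Cardy's function. -/

open Complex Set Filter Topology MeasureTheory
open scoped Real

namespace Pool.Agent.P.MP_6c8efb_pr.SLE

/-- the regular factor of the Schwarz-Christoffel integral -/
noncomputable def dx (z : ℂ) : ℂ := ∫ s in (0 : ℝ)..1, (1 - (s : ℂ) ^ 3 * z) ^ ((-2 / 3 : ℝ) : ℂ)

/-- the Schwarz-Christoffel integral -/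
noncomputable def sc0 (z : ℂ) : ℂ := z ^ ((1 / 3 : ℝ) : ℂ) * dx z

/-- its real form -/
noncomputable def scA (y : ℝ) : ℝ := ∫ s in (0 : ℝ)..y, (1 - s ^ 3) ^ (-2 / 3 : ℝ)

/-- the side of the triangle -/
noncomputable def scB : ℝ := 2 * scA ((1 / 2) ^ (1 / 3 : ℝ))

/-- the conformal map onto the triangle -/
noncomputable def sc (z : ℂ) : ℂ := sc0 z / scB

/-- Cardy's function -/
noncomputable def cardy (x : ℝ) : ℝ := scA (x ^ (1 / 3 : ℝ)) / scB

/-- the third vertex of the triangle -/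
noncomputable def om : ℂ := exp (π / 3 * I)

theorem slit_aux {z : ℂ} (hz : z.im ≠ 0 ∨ z.re < 1) {s : ℝ} (hs : s ∈ Icc (0 : ℝ) 1) :
    1 - (s : ℂ) ^ 3 * z ∈ slitPlane := by
  have h1 : 0 ≤ s ^ 3 := pow_nonneg hs.1 3
  have h2 : s ^ 3 ≤ 1 := pow_le_one₀ hs.1 hs.2
  rw [← ofReal_pow, mem_slitPlane_iff, sub_re, sub_im, re_ofReal_mul, im_ofReal_mul, one_re, one_im]
  rcases h1.eq_or_lt with h | h
  · left; rw [← h]; norm_num
  rcases hz with hz | hz
  · right; simpa using ⟨fun e => by simp [e] at h, hz⟩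
  · left; nlinarith

theorem isOpen_W : IsOpen {z : ℂ | z.im ≠ 0 ∨ z.re < 1} :=
  (isOpen_ne_fun continuous_im continuous_const).union (isOpen_lt continuous_re continuous_const)

theorem dx_diff {z : ℂ} (hz : z.im ≠ 0 ∨ z.re < 1) : DifferentiableAt ℂ dx z := by
  obtain ⟨r, hr, hb⟩ := Metric.nhds_basis_closedBall.mem_iff.1 (isOpen_W.mem_nhds hz)
  have hc : ∀ c : ℂ, ContinuousOn (fun p : ℂ × ℝ => (1 - (p.2 : ℂ) ^ 3 * p.1) ^ c)
      (Metric.closedBall z r ×ˢ Icc 0 1) := fun c =>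
    ContinuousOn.cpow_const (by fun_prop) fun p hp => slit_aux (hb hp.1) hp.2
  have hc1 : ∀ (c : ℂ), ∀ x ∈ Metric.closedBall z r,
      ContinuousOn (fun s : ℝ => (1 - (s : ℂ) ^ 3 * x) ^ c) (Icc 0 1) := fun c x hx =>
    (hc c).comp (f := fun s : ℝ => (x, s)) (by fun_prop) fun s hs => ⟨hx, hs⟩
  have hI : uIoc (0 : ℝ) 1 ⊆ Icc 0 1 := by rw [uIoc_of_le zero_le_one]; exact Ioc_subset_Icc_self
  obtain ⟨C, hC⟩ := ((isCompact_closedBall z r).prod isCompact_Icc).exists_bound_of_continuousOn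
    (f := fun p : ℂ × ℝ => ((-2 / 3 : ℝ) : ℂ) * (1 - (p.2 : ℂ) ^ 3 * p.1) ^ (((-2 / 3 : ℝ) : ℂ) - 1) *
      (-(p.2 : ℂ) ^ 3)) ((continuousOn_const.mul (hc _)).mul (by fun_prop))
  refine (intervalIntegral.hasDerivAt_integral_of_dominated_loc_of_deriv_le
    (F := fun (x : ℂ) (s : ℝ) => (1 - (s : ℂ) ^ 3 * x) ^ ((-2 / 3 : ℝ) : ℂ))
    (F' := fun (x : ℂ) (s : ℝ) => ((-2 / 3 : ℝ) : ℂ) * (1 - (s : ℂ) ^ 3 * x) ^
      (((-2 / 3 : ℝ) : ℂ) - 1) * (-(s : ℂ) ^ 3)) (bound := fun _ => C)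
    (Metric.closedBall_mem_nhds z hr) ?_ ?_ ?_ (ae_of_all _ fun s hs x hx => hC (x, s) ⟨hx, hI hs⟩)
    intervalIntegrable_const (ae_of_all _ fun s hs x hx => ?_)).2.differentiableAt
  · filter_upwards [Metric.closedBall_mem_nhds z hr] with x hx
    exact ((hc1 _ x hx).mono hI).aestronglyMeasurable measurableSet_uIoc
  · exact (hc1 _ z (Metric.mem_closedBall_self hr.le)).intervalIntegrable_of_Icc zero_le_one
  · exact (((continuousOn_const.mul (hc1 _ z (Metric.mem_closedBall_self hr.le))).mul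
      (by fun_prop)).mono hI).aestronglyMeasurable measurableSet_uIoc
  · simpa using (((hasDerivAt_id x).const_mul ((s : ℂ) ^ 3)).const_sub 1).cpow_const
      (c := ((-2 / 3 : ℝ) : ℂ)) (slit_aux (hb hx) (hI hs))

theorem dx_real {x : ℝ} (hx : x < 1) :
    dx x = ((∫ s in (0 : ℝ)..1, (1 - s ^ 3 * x) ^ (-2 / 3 : ℝ) : ℝ) : ℂ) := by
  rw [dx, ← intervalIntegral.integral_ofReal]
  refine intervalIntegral.integral_congr fun s hs => ?_
  rw [uIcc_of_le zero_le_one] at hs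
  have h1 : 0 ≤ s ^ 3 := pow_nonneg hs.1 3
  have h2 : s ^ 3 ≤ 1 := pow_le_one₀ hs.1 hs.2
  rw [ofReal_cpow (by nlinarith)]
  push_cast
  rfl

theorem sc0_real {x : ℝ} (h0 : 0 ≤ x) (hx : x < 1) : sc0 x = scA (x ^ (1 / 3 : ℝ)) := by
  have h := intervalIntegral.mul_integral_comp_mul_left (a := 0) (b := 1)
    (f := fun s : ℝ => (1 - s ^ 3) ^ (-2 / 3 : ℝ)) (x ^ (1 / 3 : ℝ))
  have e : (x ^ (1 / 3 : ℝ)) ^ 3 = x := by
    rw [← Real.rpow_natCast, ← Real.rpow_mul h0]; norm_num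
  simp only [mul_pow, e, mul_comm x, mul_one, mul_zero] at h
  rw [sc0, dx_real hx, ← ofReal_cpow h0, ← ofReal_mul, scA, h]

theorem sc_real {x : ℝ} (h0 : 0 ≤ x) (hx : x < 1) : sc x = cardy x := by
  rw [sc, sc0_real h0 hx, cardy, ofReal_div]

theorem scA_cont : ContinuousOn (fun s : ℝ => (1 - s ^ 3) ^ (-2 / 3 : ℝ)) (Iio 1) :=
  ContinuousOn.rpow_const (by fun_prop) fun s hs => Or.inl (by
    have : s ^ 3 < 1 ^ 3 := (Odd.pow_lt_pow (by decide)).2 hs
    linarith)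

theorem scA_int {y : ℝ} (hy : y < 1) :
    IntervalIntegrable (fun s : ℝ => (1 - s ^ 3) ^ (-2 / 3 : ℝ)) volume 0 y :=
  (scA_cont.mono fun _ hs => lt_of_le_of_lt hs.2 (max_lt one_pos hy)).intervalIntegrable

theorem scA_deriv {x : ℝ} (h0 : 0 < x) (h1 : x < 1) : HasDerivAt (fun x => scA (x ^ (1 / 3 : ℝ)))
    (1 / 3 * (x * (1 - x)) ^ (-2 / 3 : ℝ)) x := by
  have hy : x ^ (1 / 3 : ℝ) < 1 := Real.rpow_lt_one h0.le h1 (by norm_num)
  have e : (x ^ (1 / 3 : ℝ)) ^ 3 = x := by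
    rw [← Real.rpow_natCast, ← Real.rpow_mul h0.le]; norm_num
  have h := (intervalIntegral.integral_hasDerivAt_right (scA_int hy)
    (scA_cont.stronglyMeasurableAtFilter isOpen_Iio _ hy)
    (scA_cont.continuousAt (Iio_mem_nhds hy))).comp x
      (Real.hasDerivAt_rpow_const (x := x) (p := 1 / 3) (Or.inl h0.ne'))
  refine h.congr_deriv ?_
  rw [e, Real.mul_rpow h0.le (by linarith)]
  norm_num
  ring

theorem scB_pos : 0 < scB := by
  have hy : (1 / 2 : ℝ) ^ (1 / 3 : ℝ) < 1 := Real.rpow_lt_one (by norm_num) (by norm_num) (by norm_num)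
  refine mul_pos two_pos (intervalIntegral.intervalIntegral_pos_of_pos_on (scA_int hy)
    (fun s hs => Real.rpow_pos_of_pos ?_ _) (by positivity))
  have : s ^ 3 < 1 ^ 3 := (Odd.pow_lt_pow (by decide)).2 (hs.2.trans hy)
  linarith

theorem cardy_deriv {x : ℝ} (h0 : 0 < x) (h1 : x < 1) :
    HasDerivAt cardy (1 / (3 * scB) * (x * (1 - x)) ^ (-2 / 3 : ℝ)) x := by
  refine ((scA_deriv h0 h1).div_const scB).congr_deriv ?_
  ring

theorem cardy_symm {x : ℝ} (h0 : 0 < x) (h1 : x < 1) : cardy x + cardy (1 - x) = 1 := by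
  have hd : ∀ y ∈ Ioo (0 : ℝ) 1, HasDerivAt (fun y => cardy y + cardy (1 - y)) 0 y := fun y hy => by
    refine ((cardy_deriv hy.1 hy.2).add ((cardy_deriv (x := 1 - y) (by linarith [hy.2])
      (by linarith [hy.1])).comp y ((hasDerivAt_id y).const_sub 1))).congr_deriv ?_
    rw [sub_sub_cancel, mul_comm y]
    ring
  rw [isOpen_Ioo.is_const_of_deriv_eq_zero isPreconnected_Ioo
    (fun y hy => (hd y hy).differentiableAt.differentiableWithinAt) (fun y hy => (hd y hy).deriv)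
    ⟨h0, h1⟩ (y := 1 / 2) ⟨by norm_num, by norm_num⟩, show (1 : ℝ) - 1 / 2 = 1 / 2 by norm_num,
    cardy, ← add_div, ← two_mul, ← scB, div_self scB_pos.ne']

theorem sc_diff {z : ℂ} (hz : z.im ≠ 0 ∨ 0 < z.re ∧ z.re < 1) : DifferentiableAt ℂ sc z :=
  ((differentiableAt_id.cpow_const (hz.symm.imp And.left id)).mul
    (dx_diff (hz.imp id And.right))).div_const _

theorem sc_symm {z : ℂ} (hz : z.im ≠ 0 ∨ 0 < z.re ∧ z.re < 1) : sc z + sc (1 - z) = 1 := by
  have ho : IsOpen {z : ℂ | z.im ≠ 0 ∨ 0 < z.re ∧ z.re < 1} :=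
    (isOpen_ne_fun continuous_im continuous_const).union
      ((isOpen_lt continuous_const continuous_re).inter (isOpen_lt continuous_re continuous_const))
  have hc : StarConvex ℝ (1 / 2 : ℂ) {z : ℂ | z.im ≠ 0 ∨ 0 < z.re ∧ z.re < 1} := by
    intro w hw a b ha hb hab
    simp only [mem_ofPred_eq, add_re, add_im, real_smul, re_ofReal_mul, im_ofReal_mul] at hw ⊢
    norm_num
    rcases hb.eq_or_lt with rfl | hb
    · right; constructor <;> linarith
    · exact hw.imp (fun h => ⟨hb.ne', h⟩) fun h => ⟨by nlinarith, by nlinarith⟩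
  have hd : DifferentiableOn ℂ (fun z => sc z + sc (1 - z))
      {z : ℂ | z.im ≠ 0 ∨ 0 < z.re ∧ z.re < 1} := fun w hw =>
    ((sc_diff hw).add ((sc_diff (z := 1 - w) (hw.imp (by simp) fun h => by
      simp [h.1, h.2])).comp w (by fun_prop))).differentiableWithinAt
  have h2 : (1 / 2 : ℂ) ∈ {z : ℂ | z.im ≠ 0 ∨ 0 < z.re ∧ z.re < 1} := by norm_num
  refine (hd.analyticOnNhd ho).eqOn_of_preconnected_of_frequently_eq analyticOnNhd_const
    (hc.isPathConnected h2).isConnected.isPreconnected h2 ?_ hz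
  have ht : Tendsto (fun x : ℝ => (x : ℂ)) (𝓝[≠] (1 / 2)) (𝓝[≠] (1 / 2)) :=
    tendsto_nhdsWithin_iff.2 ⟨(continuous_ofReal.tendsto' _ _ (by simp)).mono_left
      nhdsWithin_le_nhds, eventually_nhdsWithin_of_forall fun x hx h => hx (by
        have := congrArg re h
        simpa using this)⟩
  refine ht.frequently (Eventually.frequently (nhdsWithin_le_nhds ?_))
  filter_upwards [Ioo_mem_nhds (by norm_num : (0 : ℝ) < 1 / 2) (by norm_num : (1 / 2 : ℝ) < 1)]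
    with x hx
  rw [← ofReal_one, ← ofReal_sub, sc_real hx.1.le hx.2, sc_real (by linarith [hx.2])
    (by linarith [hx.1]), ← ofReal_add, cardy_symm hx.1 hx.2]

theorem sc0_bound {z : ℂ} (hz : z.re ≤ 1 / 2) : ‖sc0 z‖ ≤ 2 * π := by
  set ρ := ‖z‖ ^ (1 / 3 : ℝ) with hρ
  have hρ0 : 0 ≤ ρ := by positivity
  have e : ρ ^ 3 = ‖z‖ := by
    rw [hρ, ← Real.rpow_natCast, ← Real.rpow_mul (norm_nonneg _)]; norm_num
  have h1 : ‖dx z‖ ≤ ∫ s in (0 : ℝ)..1, 4 * (1 + (ρ * s) ^ 2)⁻¹ := by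
    refine intervalIntegral.norm_integral_le_of_norm_le zero_le_one (ae_of_all _ fun s hs => ?_)
      (Continuous.intervalIntegrable (continuous_const.mul (Continuous.inv₀ (by fun_prop)
        fun s => by positivity)) _ _)
    have s0 := hs.1.le
    have h2 : 0 ≤ s ^ 3 := pow_nonneg s0 3
    have h3 : s ^ 3 ≤ 1 := pow_le_one₀ s0 hs.2
    set w := (s : ℂ) ^ 3 * z with hw
    have h4 : w.re ≤ 1 / 2 := by rw [hw, ← ofReal_pow, re_ofReal_mul]; nlinarith
    have h5 : 1 / 2 ≤ ‖1 - w‖ := by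
      have := re_le_norm (1 - w)
      rw [sub_re, one_re] at this
      linarith
    have h6 : (ρ * s) ^ 3 ≤ ‖1 - w‖ := by
      have : ‖w‖ = (ρ * s) ^ 3 := by
        rw [hw, norm_mul, norm_pow, norm_real, Real.norm_of_nonneg s0, mul_pow, e, mul_comm]
      rw [← this, ← sq_le_sq₀ (norm_nonneg _) (norm_nonneg _), Complex.sq_norm, Complex.sq_norm,
        normSq_apply, normSq_apply]
      simp only [sub_re, sub_im, one_re, one_im]
      nlinarith
    obtain ⟨y, hy0, hy⟩ : ∃ y : ℝ, 0 < y ∧ y ^ 3 = ‖1 - w‖ := ⟨‖1 - w‖ ^ (1 / 3 : ℝ), by positivity,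
      by rw [← Real.rpow_natCast, ← Real.rpow_mul (norm_nonneg _)]; norm_num⟩
    rw [← hy] at h5 h6
    have h7 : ρ * s ≤ y := (pow_le_pow_iff_left₀ (by positivity) hy0.le three_ne_zero).1 h6
    have h8 : 3 / 4 ≤ y := (pow_le_pow_iff_left₀ (by positivity) hy0.le three_ne_zero).1
      (le_trans (by norm_num) h5)
    rw [norm_cpow_real, ← hy, ← Real.rpow_natCast, ← Real.rpow_mul hy0.le,
      show ((3 : ℕ) : ℝ) * (-2 / 3) = -(2 : ℕ) by norm_num, Real.rpow_neg hy0.le, Real.rpow_natCast,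
      ← div_eq_mul_inv, inv_eq_one_div, div_le_div_iff₀ (by positivity) (by positivity)]
    nlinarith [mul_nonneg hρ0 s0]
  rw [sc0, norm_mul, norm_cpow_real, ← hρ]
  refine (mul_le_mul_of_nonneg_left h1 hρ0).trans ?_
  rw [intervalIntegral.integral_const_mul, mul_left_comm,
    intervalIntegral.mul_integral_comp_mul_left (f := fun s => (1 + s ^ 2)⁻¹), integral_inv_one_add_sq]
  simp only [mul_zero, Real.arctan_zero]
  linarith [Real.arctan_lt_pi_div_two (ρ * 1)]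

theorem sc_bound {z : ℂ} (hz : z.im ≠ 0) : ‖sc z‖ ≤ 1 + 2 * π / scB := by
  have h : ∀ w : ℂ, w.re ≤ 1 / 2 → ‖sc w‖ ≤ 2 * π / scB := fun w hw => by
    rw [sc, norm_div, norm_real, Real.norm_of_nonneg scB_pos.le]
    exact div_le_div_of_nonneg_right (sc0_bound hw) scB_pos.le
  rcases le_total z.re (1 / 2) with h1 | h1
  · linarith [h z h1]
  · rw [eq_sub_of_add_eq (sc_symm (Or.inl hz))]
    refine (norm_sub_le _ _).trans ?_
    rw [norm_one]
    linarith [h (1 - z) (by simp; linarith)]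

theorem neg_lim {x : ℝ} (hx : x < 0) :
    Tendsto (fun z : ℂ => ((-z) ^ ((1 / 3 : ℝ) : ℂ) * dx z / scB).im) (𝓝 x) (𝓝 0) := by
  have h : ContinuousAt (fun z : ℂ => ((-z) ^ ((1 / 3 : ℝ) : ℂ) * dx z / scB).im) x :=
    continuous_im.continuousAt.comp (((continuousAt_id.neg.cpow continuousAt_const
      (Or.inl (by simpa using hx))).mul (dx_diff (Or.inr (by simp; linarith))).continuousAt).div_const _)
  convert h.tendsto
  rw [dx_real (by linarith), ← ofReal_neg, ← ofReal_cpow (by linarith), ← ofReal_mul, ← ofReal_div,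
    ofReal_im]

theorem cpow_up {z : ℂ} (hz : 0 < z.im) :
    z ^ ((1 / 3 : ℝ) : ℂ) = om * (-z) ^ ((1 / 3 : ℝ) : ℂ) := by
  have h0 : z ≠ 0 := by rintro rfl; simp at hz
  rw [cpow_def_of_ne_zero h0, cpow_def_of_ne_zero (neg_ne_zero.2 h0), om, ← exp_add, log, log,
    arg_neg_eq_arg_sub_pi_of_im_pos hz, norm_neg]
  congr 1
  push_cast
  ring

theorem om_ne : om ≠ 0 := exp_ne_zero _

theorem om_cube : om ^ 3 = -1 := by
  rw [om, ← exp_nat_mul, ← exp_pi_mul_I]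
  congr 1
  push_cast
  ring

theorem norm_om : ‖om‖ = 1 := by
  rw [om, show (π : ℂ) / 3 = ((π / 3 : ℝ) : ℂ) by push_cast; rfl, norm_exp_ofReal_mul_I]

theorem om_im : om.im ≠ 0 := by
  rw [om, show (π : ℂ) / 3 = ((π / 3 : ℝ) : ℂ) by push_cast; rfl, exp_ofReal_mul_I_im,
    Real.sin_pi_div_three]
  positivity

theorem sc_left {x : ℝ} (hx : x < 0) :
    Tendsto (fun z => (sc z / om).im) (𝓝[{z | 0 < z.im}] x) (𝓝 0) := by
  refine ((neg_lim hx).mono_left nhdsWithin_le_nhds).congr' ?_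
  filter_upwards [self_mem_nhdsWithin] with z hz
  rw [sc, sc0, cpow_up hz]
  congr 1
  field_simp [om_ne]

theorem sc_mid {x : ℝ} (h0 : 0 < x) (h1 : x < 1) : Tendsto sc (𝓝 x) (𝓝 (cardy x)) := by
  rw [← sc_real h0.le h1]
  exact (sc_diff (Or.inr (by simpa using ⟨h0, h1⟩))).continuousAt

theorem sc_right {x : ℝ} (hx : 1 < x) :
    Tendsto (fun z => ((sc z - 1) * om).im) (𝓝[{z | 0 < z.im}] x) (𝓝 0) := by
  have h := ((neg_lim (x := 1 - x) (by linarith)).comp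
    (Continuous.tendsto' (f := fun z : ℂ => 1 - z) (by fun_prop) x _ (by simp))).neg
  rw [neg_zero] at h
  refine (h.mono_left nhdsWithin_le_nhds).congr' ?_
  filter_upwards [self_mem_nhdsWithin] with z hz
  have h1 := cpow_up (z := -(1 - z)) (by simpa using hz)
  rw [eq_sub_of_add_eq (sc_symm (Or.inl (ne_of_gt hz))), sub_sub_cancel_left, Function.comp, h1,
    neg_neg, sc, sc0, ← neg_im]
  congr 1
  ring

end Pool.Agent.P.MP_6c8efb_pr.SLE
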