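import Pool.Agent.P.MP_6c8efb_pr.Path
import Pool.Agent.P.MP_6c8efb_pr.Cardy.BDefs
import Pool.Agent.P.MP_6c8efb_pr.SLE.Stmt
import Pool.Agent.P.MP_6c8efb_pr.SLE.LDefs
import Pool.Agent.P.MP_6c8efb_pr.SLE.MDefs
import Pool.Agent.P.MP_6c8efb_pr.SLE.USc

/-! Lattice objects shared by the blocks of the proof of convergence of the exploration path. -/

open Set Filter Topology
open scoped NNReal

namespace Pool.Agent.P.MP_6c8efb_pr.SLE

/-! ### The fine lattice: mesh one half, the origin being the point `(1 / 4, -3 / 4)` -/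

/-- the vertex of the fine lattice where a dart stands -/
def fv (c : D) : V := (2 * c.1.1, 2 * c.1.2) + ![(0, 1), (0, 2), (-1, 2), (-1, 1)] c.2

/-- the exploration path on the fine lattice, with one more first step -/
def fp (ω : Cfg) : ℕ → V
  | 0 => (0, 0)
  | k + 1 => fv (path ω k)

/-- a simple path of the fine lattice which starts upwards and stays above the bottom line -/
structure FP (q : ℕ → V) : Prop where
  zero : q 0 = (0, 0)
  one : q 1 = (0, 1)
  stp : ∀ j, ∃ d, q (j + 1) = q j + u d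
  inj : Function.Injective q
  pos : ∀ j, 1 ≤ j → 1 ≤ (q j).2

/-- the cells are the faces of the fine lattice, named by their lower left corner:
the cell of a vertex -/
def cv (x : V) : V := (2 * x.1 - 1, 2 * x.2 + 1)

/-- the cell of a face, named by its lower left corner -/
def cf (f : V) : V := (2 * f.1, 2 * f.2 + 2)

/-- the cell of an edge -/
def ce (e : E) : V := (e.1.1 + (hd e).1 - 1, e.1.2 + (hd e).2 + 1)

open Classical in
/-- the edges of the fine lattice used by the first `k` steps of `q` -/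
noncomputable def trace (q : ℕ → V) (k : ℕ) : Cfg :=
  fun e => decide (∃ j < k, ∃ d, q (j + 1) = q j + u d ∧ e = edge (q j) d)

/-- the cells `c` and `c'` are joined in `S` without crossing the first `k` steps of `q` -/
def CC (q : ℕ → V) (k : ℕ) (S : Set V) (c c' : V) : Prop := Conn (du (trace q k)) S c c'

/-- the cells on the left of the first `k` steps -/
def Lft (q : ℕ → V) (k : ℕ) : Set V :=
  {c | ∃ j < k, ∃ d, q (j + 1) = q j + u d ∧ c = fc (q j) (d + 1)}

/-- the cells on the right of the first `k` steps -/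
def Rgt (q : ℕ → V) (k : ℕ) : Set V :=
  {c | ∃ j < k, ∃ d, q (j + 1) = q j + u d ∧ c = fc (q j) d}

/-- the upper half of the ball for the sup norm -/
def Bx (z : V) (r : ℤ) : Set V := {c | nm z c ≤ r ∧ 0 ≤ c.2}

/-- a lattice point as a complex number -/
def cx (x : V) : ℂ := ⟨x.1, x.2⟩

/-- the closed cell in the lattice of mesh `h` -/
def sq (h : ℝ) (c : V) : Set ℂ :=
  {z | h * c.1 ≤ z.re ∧ z.re ≤ h * (c.1 + 1) ∧ h * c.2 ≤ z.im ∧ z.im ≤ h * (c.2 + 1)}

/-- the polygonal curve through the points of `q` in the lattice of mesh `h` -/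
noncomputable def pc (h : ℝ) (q : ℕ → V) : PC :=
  ⟨fun t => interp (fun k => h * cx (q k)) t, continuous_interp _⟩

/-! ### Truncation, time change, conditioning -/

/-- the configuration frozen outside a box -/
def tr (R : ℕ) (ω : Cfg) : Cfg := fun e =>
  if nm 0 e.1 ≤ R then ω e else decide ((hd e).1 ≤ 0)

/-- the curve of the truncated configuration, in the lattice time -/
noncomputable def eta (δ : ℝ) (ω : Cfg) : PC := pc (δ / 2) (fp (tr ⌈1 / δ ^ 2⌉₊ ω))

instance : Nonempty (ℝ≥0 ≃o ℝ≥0) := ⟨OrderIso.refl _⟩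

/-- the capacity time change -/
noncomputable def tau (δ : ℝ) (ω : Cfg) : ℝ≥0 ≃o ℝ≥0 :=
  Classical.epsilon fun φ : ℝ≥0 ≃o ℝ≥0 => L.CapPar (repar (eta δ ω) φ)

/-- the curve in the capacity time -/
noncomputable def Cv (δ : ℝ) (ω : Cfg) : PC := repar (eta δ ω) (tau δ ω)

/-- the driving function -/
noncomputable def Dv (δ : ℝ) (ω : Cfg) : PR := ContinuousMap.mkD (L.drv (Cv δ ω)) 0

/-- the edges seen by the first `k` steps of the exploration; they determine `fp ω` up to `k + 1` -/
def expl (ω : Cfg) (k : ℕ) : Finset E := (Finset.range k).image fun j => ed (path ω j)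

/-- the configuration equal to `ξ` on the edges seen by the first `k` steps in `ξ`, and to `ω`
elsewhere -/
def mg (ξ : Cfg) (k : ℕ) (ω : Cfg) : Cfg := fun e => if e ∈ expl ξ k then ξ e else ω e

/-- the conditional probability of `A` given the first `k` steps -/
noncomputable def cond (A : Set Cfg) (ξ : Cfg) (k : ℕ) : ℝ := Q {ω | mg ξ k ω ∈ A}

/-- `X k ω` only depends on the points `fp ω j`, `j ≤ k` -/
def Adapted {β : Type} (X : ℕ → Cfg → β) : Prop :=
  ∀ k ω ω', (∀ j ≤ k, fp ω j = fp ω' j) → X k ω = X k ω'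

/-! ### The crossing events -/

/-- the edges of the real axis and below are removed -/
def fr (ω : Cfg) : Cfg := fun e =>
  if e.1.2 < 0 ∨ (e.1.2 = 0 ∧ e.2 = true) then false else ω e

/-- open crossing from `[-a, 0]` to `[b, ∞)` -/
def EvA (a b M : ℤ) : Set Cfg := {ω | ∃ x y : V, x.2 = 0 ∧ -a ≤ x.1 ∧ x.1 ≤ 0 ∧ y.2 = 0 ∧ b ≤ y.1 ∧
  Conn (fr ω) (Bx 0 M) x y}

/-- dual crossing from `[0, b]` to `(-∞, -a]` -/
def EvB (a b M : ℤ) : Set Cfg := {ω | ∃ x y : V, x.2 = 0 ∧ 0 ≤ x.1 ∧ x.1 < b ∧ y.2 = 0 ∧ y.1 < -a ∧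
  Conn (du ω) (Bx 0 M) x y}

/-! ### Polyominoes and crossings of tiles -/

/-- the part of the boundary between two indices -/
def seg (c : ℕ → V) (i j : ℕ) : Set ℂ := ⋃ k ∈ Ico i j, segment ℝ (cx (c k)) (cx (c (k + 1)))

/-- the mean of the crossing probabilities on the two sublattices -/
noncomputable def TP (P : Cardy.Dom) (a a' b b' : ℕ) : ℝ :=
  (Arm.Pt (P.Crs 0 a a' b b') + Arm.Pt (P.Crs 1 a a' b b')) / 2

/-- the tiles of a bond configuration: the point `p` stands for `p (1 + i) / 2` -/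
def tl (ω : Cfg) (t : V) : Bool :=
  if (t.1 + t.2) % 2 = 0 then ω (((t.1 - t.2) / 2, (t.1 + t.2) / 2), false)
  else !ω (((t.1 - t.2 - 1) / 2, (t.1 + t.2 + 1) / 2), true)

/-- the vertex at an even point -/
def tv (p : V) : V := ((p.1 - p.2) / 2, (p.1 + p.2) / 2)

/-- the face centred at an odd point -/
def tf (p : V) : V := ((p.1 - p.2 - 1) / 2, (p.1 + p.2 - 1) / 2)

/-- the edge which is a diagonal of the tile `t` -/
def te (t : V) : E :=
  if (t.1 + t.2) % 2 = 0 then (((t.1 - t.2) / 2, (t.1 + t.2) / 2), false)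
  else (((t.1 - t.2 - 1) / 2, (t.1 + t.2 + 1) / 2), true)

end Pool.Agent.P.MP_6c8efb_pr.SLE
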