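import Pool.Agent.P.MP_6c8efb_pr.SLE.MDefs

/-! Tightness of laws of paths from bounds on oscillations. -/

open MeasureTheory ProbabilityTheory Filter Topology Set
open scoped NNReal ENNReal

namespace Pool.Agent.P.MP_6c8efb_pr.SLE

namespace TightA

variable {E : Type} [MetricSpace E]

theorem isOpen_osc (T : ℝ≥0) (θ ε : ℝ) : IsOpen (OscSet E T θ ε) := by
  have : OscSet E T θ ε = ⋃ s : ℝ≥0, ⋃ t : ℝ≥0, ⋃ _ : s ≤ t ∧ t ≤ T ∧ (t : ℝ) - s < θ,
      {w : C(ℝ≥0, E) | ε < dist (w t) (w s)} := by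
    ext w; simp [OscSet, and_assoc]
  rw [this]
  exact isOpen_iUnion fun s => isOpen_iUnion fun t => isOpen_iUnion fun _ =>
    isOpen_lt continuous_const ((continuous_eval_const t).dist (continuous_eval_const s))

theorem osc_mono (T : ℝ≥0) {θ θ' : ℝ} (h : θ ≤ θ') (ε : ℝ) : OscSet E T θ ε ⊆ OscSet E T θ' ε :=
  fun _ ⟨s, t, h1, h2, h3, h4⟩ => ⟨s, t, h1, h2, h3.trans_le h, h4⟩

theorem iInter_osc (T : ℝ≥0) {ε : ℝ} (hε : 0 < ε) :
    ⋂ k : ℕ, OscSet E T (1 / (k + 1)) ε = ∅ := by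
  refine eq_empty_of_forall_notMem fun w hw => ?_
  obtain ⟨δ, hδ, h⟩ := Metric.uniformContinuousOn_iff.1
    ((isCompact_Icc (a := 0) (b := T)).uniformContinuousOn_of_continuous
      w.continuous.continuousOn) ε hε
  obtain ⟨k, hk⟩ := exists_nat_one_div_lt hδ
  obtain ⟨s, t, h1, h2, h3, h4⟩ := mem_iInter.1 hw k
  refine lt_asymm h4 (h t ⟨zero_le, h2⟩ s ⟨zero_le, h1.trans h2⟩ ?_)
  rw [NNReal.dist_eq, abs_of_nonneg (sub_nonneg.2 (by exact_mod_cast h1))]
  exact h3.trans hk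

theorem compact [ProperSpace E] (x : E) {θ : ℕ → ℝ} (hθ : ∀ m, 0 < θ m) :
    IsCompact {w : C(ℝ≥0, E) | w 0 = x ∧ ∀ m : ℕ, w ∉ OscSet E m (θ m) (1 / (m + 1))} := by
  set K := {w : C(ℝ≥0, E) | w 0 = x ∧ ∀ m : ℕ, w ∉ OscSet E m (θ m) (1 / (m + 1))} with hK
  have hcl : IsClosed K := by
    have : K = {w : C(ℝ≥0, E) | w 0 = x} ∩ ⋂ m : ℕ, (OscSet E m (θ m) (1 / (m + 1)))ᶜ := by
      ext w; simp [hK]
    rw [this]
    exact (isClosed_eq (continuous_eval_const 0) continuous_const).inter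
      (isClosed_iInter fun m => (isOpen_osc _ _ _).isClosed_compl)
  have key : ∀ w ∈ K, ∀ (m : ℕ) (s t : ℝ≥0), s ≤ m → t ≤ m → dist s t < θ m →
      dist (w s) (w t) ≤ 1 / (m + 1) := by
    intro w hw m s t hs ht hst
    rw [NNReal.dist_eq, abs_lt] at hst
    by_contra h
    rcases le_total s t with h1 | h1
    · exact hw.2 m ⟨s, t, h1, ht, by linarith [hst.1], by rw [dist_comm]; exact not_le.1 h⟩
    · exact hw.2 m ⟨t, s, h1, hs, hst.2, not_le.1 h⟩
  have heq : Equicontinuous ((↑) : K → ℝ≥0 → E) := by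
    intro t
    rw [Metric.equicontinuousAt_iff]
    intro ε hε
    obtain ⟨k, hk⟩ := exists_nat_one_div_lt hε
    obtain ⟨j, hj⟩ := exists_nat_ge ((t : ℝ) + 1)
    refine ⟨min 1 (θ (k + j)), lt_min one_pos (hθ _), fun s hs w => ?_⟩
    have h1 := hs.trans_le (min_le_left _ _)
    rw [NNReal.dist_eq, abs_lt] at h1
    refine (key w w.2 (k + j) t s ?_ ?_ ?_).trans_lt (lt_of_le_of_lt ?_ hk)
    · rw [← NNReal.coe_le_coe]; push_cast; linarith [Nat.cast_nonneg (α := ℝ) k]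
    · rw [← NNReal.coe_le_coe]; push_cast; linarith [Nat.cast_nonneg (α := ℝ) k, h1.2]
    · rw [dist_comm]; exact hs.trans_le (min_le_right _ _)
    · gcongr; omega
  have hbd : ∀ t : ℝ≥0, ∃ R, ∀ w ∈ K, dist (w t) x ≤ R := by
    intro t
    obtain ⟨m, hm⟩ := exists_nat_ge t
    obtain ⟨N, hN⟩ := exists_nat_gt ((t : ℝ) / θ m)
    have hN0 : (0 : ℝ) < N := lt_of_le_of_lt (div_nonneg t.2 (hθ m).le) hN
    have hN' : (N : ℝ≥0) ≠ 0 := by exact_mod_cast hN0.ne'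
    refine ⟨N, fun w hw => ?_⟩
    have h1 : ∀ j ≤ N, (j : ℝ≥0) * (t / N) ≤ m := fun j hj =>
      le_trans (by gcongr) ((mul_div_cancel₀ t hN').trans_le hm)
    have h2 := dist_le_range_sum_of_dist_le (f := fun j : ℕ => w (j * (t / N))) N (d := fun _ => 1)
      fun {j} hj => (key w hw m _ _ (h1 j hj.le) (h1 (j + 1) hj) (by
        rw [NNReal.dist_eq]
        push_cast
        rw [show (j : ℝ) * (t / N) - (j + 1) * (t / N) = -(t / N) by ring, abs_neg,
          abs_of_nonneg (by positivity), div_lt_iff₀ hN0, mul_comm]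
        exact (div_lt_iff₀ (hθ m)).1 hN)).trans (by
        rw [div_le_one (by positivity)]; linarith [Nat.cast_nonneg (α := ℝ) m])
    simp only [Nat.cast_zero, zero_mul, mul_div_cancel₀ t hN', hw.1, Finset.sum_const,
      Finset.card_range, nsmul_eq_mul, mul_one] at h2
    rwa [dist_comm]
  have : T2Space (UniformOnFun ℝ≥0 E {S | IsCompact S}) := UniformOnFun.t2Space_of_covering
    (eq_univ_iff_forall.2 fun t => mem_sUnion_of_mem (mem_singleton t) isCompact_singleton)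
  have := ArzelaAscoli.isCompact_closure_of_isClosedEmbedding (𝔖 := {S : Set ℝ≥0 | IsCompact S})
    (F := ((↑) : C(ℝ≥0, E) → ℝ≥0 → E)) (fun _ h => h)
    ContinuousMap.isUniformEmbedding_toUniformOnFunIsCompact.isClosedEmbedding (s := K)
    (fun S _ => heq.equicontinuousOn S) fun S _ t _ => by
      obtain ⟨R, hR⟩ := hbd t
      exact ⟨Metric.closedBall x R, isCompact_closedBall x R, fun w hw => hR w hw⟩
  rwa [hcl.closure_eq] at this

theorem tight [ProperSpace E] [MeasurableSpace C(ℝ≥0, E)] [BorelSpace C(ℝ≥0, E)]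
    (μ : ℕ → Measure C(ℝ≥0, E)) [∀ n, IsFiniteMeasure (μ n)] (x : E) (h0 : ∀ n, ∀ᵐ w ∂μ n, w 0 = x)
    (h : ∀ (T : ℝ≥0) (ε ε' : ℝ), 0 < ε → 0 < ε' → ∃ θ : ℝ, 0 < θ ∧
      ∀ᶠ n in atTop, μ n (OscSet E T θ ε) ≤ ENNReal.ofReal ε') : IsTightMeasureSet (range μ) := by
  have h1 : ∀ (T : ℝ≥0) (ε : ℝ) (ε' : ℝ≥0), 0 < ε → 0 < ε' → ∃ θ : ℝ, 0 < θ ∧
      ∀ n, μ n (OscSet E T θ ε) ≤ ε' := by
    intro T ε ε' hε hε'
    obtain ⟨θ, hθ, h2⟩ := h T ε ε' hε hε'
    obtain ⟨N, hN⟩ := eventually_atTop.1 h2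
    have h3 : ∀ n, ∀ᶠ k : ℕ in atTop, μ n (OscSet E T (1 / (k + 1)) ε) ≤ ε' := fun n => by
      have := tendsto_measure_iInter_atTop (μ := μ n) (s := fun k : ℕ => OscSet E T (1 / (k + 1)) ε)
        (fun k => (isOpen_osc _ _ _).measurableSet.nullMeasurableSet)
        (fun a b hab => osc_mono T (by gcongr) ε) ⟨0, measure_ne_top _ _⟩
      rw [iInter_osc T hε, measure_empty] at this
      exact this.eventually_le_const (by exact_mod_cast hε')
    obtain ⟨k, hk⟩ := ((eventually_all_finset (Finset.range N)).2 fun n _ => h3 n).exists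
    refine ⟨min θ (1 / (k + 1)), lt_min hθ (by positivity), fun n => ?_⟩
    rcases lt_or_ge n N with hn | hn
    · exact (measure_mono (osc_mono T (min_le_right _ _) ε)).trans (hk n (Finset.mem_range.2 hn))
    · exact (measure_mono (osc_mono T (min_le_left _ _) ε)).trans (by simpa using hN n hn)
  rw [isTightMeasureSet_iff_exists_isCompact_measure_compl_le]
  intro ε hε
  obtain ⟨e, he, hs⟩ := ENNReal.exists_pos_sum_of_countable hε.ne' ℕ
  choose θ hθ h2 using fun m : ℕ => h1 m (1 / (m + 1)) (e m) (by positivity) (he m)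
  refine ⟨_, compact x hθ, ?_⟩
  rintro _ ⟨n, rfl⟩
  refine le_trans (measure_mono_ae (t := ⋃ m : ℕ, OscSet E m (θ m) (1 / (m + 1))) ?_)
    ((measure_iUnion_le _).trans ((ENNReal.tsum_le_tsum fun m => h2 m n).trans hs.le))
  filter_upwards [h0 n] with w hw h3
  by_contra h4
  exact h3 ⟨hw, fun m hm => h4 (mem_iUnion.2 ⟨m, hm⟩)⟩

end TightA

end Pool.Agent.P.MP_6c8efb_pr.SLE
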