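import Pool.Agent.P.MP_6c8efb_pr.SLE.MMart
import Pool.Agent.P.MP_6c8efb_pr.SLE.MTight

/-! Tightness and the approximate martingale give the limit law. -/

open MeasureTheory ProbabilityTheory Filter Topology Set
open scoped NNReal BoundedContinuousFunction

namespace Pool.Agent.P.MP_6c8efb_pr.SLE

namespace MainA

theorem uniq [MeasurableSpace PR] [BorelSpace PR] [MeasurableSpace PC] [BorelSpace PC]
    {S : Set (PR × PC)} (hS : IsClosed S) (hi : InjOn Prod.fst S) {a : ℝ} (ha : a ≠ 0)
    {ν ν' : Measure (PR × PC)} [IsProbabilityMeasure ν] (h : ∀ᵐ p ∂ν, p ∈ S) (h' : ∀ᵐ p ∂ν', p ∈ S)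
    (b : IsBrownianReal (fun t (p : PR × PC) => a * p.1 t) ν)
    (b' : IsBrownianReal (fun t (p : PR × PC) => a * p.1 t) ν') : ν = ν' := by
  have hc : ∀ t, Continuous fun p : PR × PC => a * p.1 t := fun t =>
    continuous_const.mul ((LevyA.cont_ev t).comp continuous_fst)
  have hE : Measurable fun (p : PR × PC) (t : ℝ≥0) => a * p.1 t :=
    measurable_pi_lambda _ fun t => (hc t).measurable
  have h1 : ν.map (fun (p : PR × PC) (t : ℝ≥0) => a * p.1 t) =
      ν'.map fun (p : PR × PC) (t : ℝ≥0) => a * p.1 t := by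
    have k := isProjectiveLimit_map (P := ν) (X := fun t (p : PR × PC) => a * p.1 t) hE.aemeasurable
    have k' := isProjectiveLimit_map (P := ν') (X := fun t (p : PR × PC) => a * p.1 t)
      hE.aemeasurable
    simp only [fun I => (b.hasLaw I).map_eq] at k
    simp only [fun I => (b'.hasLaw I).map_eq] at k'
    exact k.unique k'
  set q := TopologicalSpace.denseSeq ℝ≥0
  set e : PR × PC → ℕ → ℝ := fun p n => a * p.1 (q n) with he
  have ce : Continuous e := continuous_pi fun n => hc _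
  have hr : Measurable fun (f : ℝ≥0 → ℝ) (n : ℕ) => f (q n) := by fun_prop
  have h2 : ν.map e = ν'.map e := by
    have := congrArg (Measure.map fun (f : ℝ≥0 → ℝ) (n : ℕ) => f (q n)) h1
    rwa [Measure.map_map hr hE, Measure.map_map hr hE] at this
  have ie : InjOn e S := fun p hp p' hp' hpp => hi hp hp' (ContinuousMap.coe_injective
    ((TopologicalSpace.denseRange_denseSeq ℝ≥0).equalizer p.1.continuous p'.1.continuous
      (funext fun n => mul_left_cancel₀ ha (congrFun hpp n))))
  ext A hA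
  have hm : MeasurableSet (e '' (A ∩ S)) := (hA.inter hS.measurableSet).image_of_continuousOn_injOn
    ce.continuousOn (ie.mono inter_subset_right)
  have k : ∀ p ∈ S, p ∈ A ↔ p ∈ e ⁻¹' (e '' (A ∩ S)) := fun p hp =>
    ⟨fun hA => ⟨p, ⟨hA, hp⟩, rfl⟩, fun ⟨p', hp', hpp⟩ => ie hp'.2 hp hpp ▸ hp'.1⟩
  rw [measure_congr (eventuallyEq_set.2 (h.mono k)), measure_congr (eventuallyEq_set.2 (h'.mono k)),
    ← Measure.map_apply ce.measurable hm, ← Measure.map_apply ce.measurable hm, h2]

theorem ae_closed {X : Type} [TopologicalSpace X] [MeasurableSpace X] [OpensMeasurableSpace X]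
    [HasOuterApproxClosed X] {μ : ℕ → ProbabilityMeasure X} {ν : ProbabilityMeasure X}
    (h : Tendsto μ atTop (𝓝 ν)) {S : Set X} (hS : IsClosed S)
    (hμ : ∀ n, ∀ᵐ p ∂(μ n : Measure X), p ∈ S) : ∀ᵐ p ∂(ν : Measure X), p ∈ S := by
  have := ProbabilityMeasure.le_liminf_measure_open_of_tendsto h hS.isOpen_compl
  have e : ∀ n, (μ n : Measure X) Sᶜ = 0 := hμ
  simp only [e, liminf_const] at this
  exact nonpos_iff_eq_zero.1 this

theorem tight_map {ι Ω E : Type} [MeasurableSpace Ω] [MetricSpace E] [ProperSpace E]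
    [MeasurableSpace C(ℝ≥0, E)] [BorelSpace C(ℝ≥0, E)] {P : Measure Ω} [IsProbabilityMeasure P]
    {l : Filter ι} {X : ι → Ω → C(ℝ≥0, E)} (hX : ∀ δ, AEMeasurable (X δ) P) (hT : TightOsc P l X)
    {k : ℕ → ι} (hk : Tendsto k atTop l) {x : E} (h0 : ∀ n, ∀ᵐ ω ∂P, X (k n) ω 0 = x) :
    IsTightMeasureSet (range fun n => P.map (X (k n))) := by
  refine TightA.tight _ x (fun n => (ae_map_iff (hX _) ?_).2 (h0 n)) fun T ε ε' hε hε' => ?_
  · exact (isClosed_eq (continuous_eval_const 0) continuous_const).measurableSet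
  · obtain ⟨θ, hθ, h⟩ := hT T ε ε' hε hε'
    refine ⟨θ, hθ, (hk.eventually h).mono fun n hn => ?_⟩
    rwa [Measure.map_apply_of_aemeasurable (hX _) (TightA.isOpen_osc _ _ _).measurableSet]

end MainA

open MainA in
theorem s_M : S_M := by
  intro ι Ω _ _ _ _ _ P _ l _ _ W η Z F hW hη h0 hZ tW tη hF hA
  have hp : ∀ δ, AEMeasurable (fun ω => (W δ ω, η δ ω)) P := fun δ => (hW δ).prodMk (hη δ)
  set law : ι → ProbabilityMeasure (PR × PC) := fun δ =>
    ⟨P.map fun ω => (W δ ω, η δ ω), Measure.isProbabilityMeasure_map (hp δ)⟩ with hlaw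
  have sub : ∀ ns : ℕ → ι, Tendsto ns atTop l → ∃ (ν : ProbabilityMeasure (PR × PC)) (ms : ℕ → ℕ),
      (∀ᵐ p ∂(ν : Measure (PR × PC)), p ∈ closure Z) ∧
      IsBrownianReal (fun t (p : PR × PC) => (√6)⁻¹ * p.1 t) ν ∧
      Tendsto (fun n => law (ns (ms n))) atTop (𝓝 ν) := by
    intro ns hns
    obtain ⟨N, hN⟩ := eventually_atTop.1 (hns.eventually h0)
    have hns' : Tendsto (fun n => ns (n + N)) atTop l := hns.comp (tendsto_add_atTop_nat N)
    have hN' := fun n => hN (n + N) (Nat.le_add_left N n)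
    have t1 := tight_map hW tW hns' fun n => (hN' n).mono fun ω h => h.1
    have t2 := tight_map hη tη hns' fun n => (hN' n).mono fun ω h => h.2.1
    have t3 : IsCompact (closure (range fun n => law (ns (n + N)))) := by
      refine isCompact_closure_of_isTightMeasureSet (.prodMk (t1.subset ?_) (t2.subset ?_))
      · rintro _ ⟨_, ⟨_, ⟨n, rfl⟩, rfl⟩, rfl⟩
        exact ⟨n, (Measure.fst_map_prodMk₀ (hη _)).symm⟩
      · rintro _ ⟨_, ⟨_, ⟨n, rfl⟩, rfl⟩, rfl⟩
        exact ⟨n, (Measure.snd_map_prodMk₀ (hW _)).symm⟩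
    obtain ⟨ν, -, φ, hφ, hν⟩ := t3.tendsto_subseq (x := fun n => law (ns (n + N)))
      fun n => subset_closure ⟨n, rfl⟩
    have hk : Tendsto (fun n => ns (φ n + N)) atTop l := hns'.comp hφ.tendsto_atTop
    have c0 : IsClosed {p : PR × PC | p.1 0 = 0} :=
      isClosed_eq ((LevyA.cont_ev 0).comp continuous_fst) continuous_const
    have a1 := ae_closed hν isClosed_closure (S := closure Z) fun n =>
      (ae_map_iff (hp _) isClosed_closure.measurableSet).2
        ((hN' _).mono fun ω h => subset_closure h.2.2)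
    have a2 := ae_closed hν c0 fun n =>
      (ae_map_iff (hp _) c0.measurableSet).2 ((hN' _).mono fun ω h => h.1)
    have : IsProbabilityMeasure ((ν : Measure (PR × PC)).map Prod.fst) :=
      Measure.isProbabilityMeasure_map measurable_fst.aemeasurable
    have hM : Mart ((ν : Measure (PR × PC)).map Prod.fst) 6 := by
      refine mart (l := atTop) (W := fun n => W (ns (φ n + N))) (fun n => hW _) (fun f => ?_) hF
        fun T => ?_
      · have := ProbabilityMeasure.tendsto_iff_forall_integral_tendsto.1 hν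
          (f.compContinuous ⟨Prod.fst, continuous_fst⟩)
        rw [integral_map measurable_fst.aemeasurable f.continuous.aestronglyMeasurable]
        refine this.congr fun n => ?_
        exact integral_map (hp _) (f.continuous.comp continuous_fst).aestronglyMeasurable
      · obtain ⟨C, c, hc, h⟩ := hA T
        exact ⟨C, c, hc, fun L ε s t h1 h2 h3 h4 => hk.eventually (h L ε s t h1 h2 h3 h4)⟩
    have hB := levy (by norm_num) ((ae_map_iff measurable_fst.aemeasurable
      (isClosed_eq (LevyA.cont_ev 0) continuous_const).measurableSet).2 a2) hM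
    exact ⟨ν, fun n => φ n + N, a1, ⟨⟨fun I => (hB.hasLaw I).comp
      ⟨measurable_fst.aemeasurable, rfl⟩⟩, ae_of_all _ fun p => by fun_prop⟩, hν⟩
  obtain ⟨ns₀, hns₀⟩ := exists_seq_tendsto l
  obtain ⟨ν, -, a1, a2, -⟩ := sub ns₀ hns₀
  have hl : Tendsto law l (𝓝 ν) := tendsto_of_subseq_tendsto fun ns hns => by
    obtain ⟨ν', ms, b1, b2, b3⟩ := sub ns hns
    have : ν = ν' := ProbabilityMeasure.toMeasure_injective
      (uniq isClosed_closure hZ (by positivity) a1 b1 a2 b2)
    exact ⟨ms, this ▸ b3⟩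
  have hd : TendstoInDistribution (fun δ ω => (W δ ω, η δ ω)) l id (fun _ => P) ν :=
    ⟨hp, aemeasurable_id, by simp only [Measure.map_id]; exact hl⟩
  exact ⟨ν, inferInstance, a1, a2, hd.continuous_comp continuous_snd⟩

end Pool.Agent.P.MP_6c8efb_pr.SLE
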