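import Pool.Agent.P.MP_6c8efb_pr.SLE.ApxC
import Pool.Agent.P.MP_6c8efb_pr.SLE.MMain
import Pool.Agent.P.MP_6c8efb_pr.SLE.MSlut

/-! The final assembly of the convergence of the exploration path. -/

open Set Filter Topology MeasureTheory Metric
open scoped NNReal

namespace Pool.Agent.P.MP_6c8efb_pr.SLE

namespace Glu

theorem nm_le (x : V) : (nm 0 x : ℝ) ≤ ‖cx x‖ := by
  have h1 := Complex.abs_re_le_norm (cx x)
  have h2 := Complex.abs_im_le_norm (cx x)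
  simp only [nm, Prod.fst_zero, Prod.snd_zero, sub_zero, Int.cast_max, Int.cast_abs]
  exact max_le h1 h2

theorem le_nm (x : V) : ‖cx x‖ ≤ 2 * nm 0 x := by
  have h1 := Complex.norm_le_abs_re_add_abs_im (cx x)
  have h2 := le_max_left |(x.1 : ℝ)| |(x.2 : ℝ)|
  have h3 := le_max_right |(x.1 : ℝ)| |(x.2 : ℝ)|
  simp only [nm, Prod.fst_zero, Prod.snd_zero, sub_zero, Int.cast_max, Int.cast_abs]
  exact h1.trans (by simp only [cx]; linarith)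

theorem norm_pc {δ : ℝ} (hδ : 0 < δ) (q : ℕ → V) (j : ℕ) :
    ‖pc (δ / 2) q j‖ = δ / 2 * ‖cx (q j)‖ := by
  rw [Apx.pc_nat, norm_mul, Complex.norm_real, Real.norm_eq_abs, abs_of_pos (half_pos hδ)]

theorem le_box {δ a : ℝ} (hδ : 0 < δ) (ha : a * δ ≤ 1) {n : ℤ} (hn : δ * n ≤ a) :
    n ≤ (⌈1 / δ ^ 2⌉₊ : ℕ) := by
  have h1 : (n : ℝ) ≤ 1 / δ ^ 2 := by
    rw [le_div_iff₀ (by positivity)]
    nlinarith [mul_le_mul_of_nonneg_right hn hδ.le]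
  exact_mod_cast h1.trans (Nat.le_ceil _)

/-- the truncation is not seen before a fixed capacity time -/
theorem close (hB : S_BAS) (hR : S_RAD) (T : ℝ≥0) (ε : ℝ) (hε : 0 < ε) : ∀ᶠ δ in 𝓝[>] (0 : ℝ),
    crit {ω | ∃ t ≤ T, ε < dist (Cv δ ω t) (repar (curve δ ω) (tau δ ω) t)} ≤
      ENNReal.ofReal ε := by
  obtain ⟨C, c, hc, hR⟩ := hR T
  have h0 : Tendsto (fun r : ℝ => C * Real.exp (-c * r)) atTop (𝓝 (C * 0)) :=
    (Real.tendsto_exp_atBot.comp (tendsto_id.const_mul_atTop_of_neg (neg_lt_zero.2 hc))).const_mul C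
  rw [mul_zero] at h0
  obtain ⟨r, hr, hr1⟩ := ((h0.eventually_le_const hε).and (eventually_ge_atTop 1)).exists
  filter_upwards [hR, Ioc_mem_nhdsGT (half_pos hε),
    Ioc_mem_nhdsGT (by positivity : 0 < 1 / (2 * r))] with δ h1 h2 h3
  refine le_trans (measure_mono ?_) ((h1 r).trans (ENNReal.ofReal_le_ofReal hr))
  rintro ω ⟨t, ht, h4⟩
  by_contra hn
  have h5 : ∀ u ≤ T, ‖Cv δ ω u‖ ≤ r := fun u hu => not_lt.1 fun h => hn ⟨u, hu, h⟩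
  have h6 : ∀ j ≤ ⌊tau δ ω t⌋₊, nm 0 (fp (tr ⌈1 / δ ^ 2⌉₊ ω) j) ≤ (⌈1 / δ ^ 2⌉₊ : ℕ) := by
    intro j hj
    have k1 : (j : ℝ≥0) ≤ tau δ ω t := (Nat.cast_le.2 hj).trans (Nat.floor_le zero_le)
    have k2 := h5 _ (((tau δ ω).symm_apply_le.2 k1).trans ht)
    rw [Apx.Cv_apply, OrderIso.apply_symm_apply, eta, norm_pc h2.1] at k2
    refine le_box (a := 2 * r) h2.1 ?_ ?_
    · have := h3.2
      rwa [le_div_iff₀ (by positivity), mul_comm] at this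
    · nlinarith [mul_le_mul_of_nonneg_left (nm_le (fp (tr ⌈1 / δ ^ 2⌉₊ ω) j)) h2.1.le]
  have h7 : Cv δ ω t = pc (δ / 2) (fp ω) (tau δ ω t) :=
    Apx.pc_agree _ (hB.2.2.1 _ ω _ (Or.inl h6)).1 (by
      push_cast; exact (Nat.lt_floor_add_one _).le)
  have h8 := hB.2.2.2.2.2.1 δ ω (tau δ ω t) h2.1.le
  rw [h7, dist_comm] at h4
  have h9 : ε < 2 * δ := h4.trans_le h8
  linarith [h2.2]

/-- at a large capacity time the curve has left a given ball -/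
theorem leave (h1 : L.S_L1s) {η : ℝ≥0 → ℂ} (h : L.CapPar η) {ρ : ℝ} (hρ : 0 < ρ) {T : ℝ≥0}
    (hT : 2 * ρ ^ 2 < T) : ∃ u ≤ T, ρ < ‖η u‖ := by
  by_contra hn
  have h2 : ∀ u ≤ T, ‖η u‖ ≤ ρ := fun u hu => not_lt.1 fun h => hn ⟨u, hu, h⟩
  have h3 := (h1 _ _ _ _ (h.hyd T) (h.sym T) 0 ρ hρ (by simpa using L.hull_subset_ball h2)).2.1 ρ
    hρ.le (by
      rintro _ ⟨u, hu, rfl⟩
      exact (le_abs_self _).trans ((Complex.abs_im_le_norm _).trans (h2 u hu.2)))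
  rw [h.clock] at h3
  nlinarith

/-- uniform transience -/
theorem trans (hF : S_FP) (hK : S_CAP) (hB : S_BAS) (hT : S_TRANS) (h1 : L.S_L1s) (r ε : ℝ)
    (hε : 0 < ε) : ∃ T : ℝ≥0, ∀ᶠ δ in 𝓝[>] (0 : ℝ),
      crit {ω | ∃ t, T ≤ t ∧ ‖repar (curve δ ω) (tau δ ω) t‖ ≤ r} ≤ ENNReal.ofReal ε := by
  obtain ⟨C, c, hc, hT⟩ := hT
  have h0 : Tendsto (fun N : ℕ => C * ((1 : ℝ) / N) ^ c) atTop (𝓝 (C * 0)) :=
    (tendsto_one_div_atTop_nhds_zero_nat.rpow_const_nhds_zero hc).const_mul C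
  rw [mul_zero] at h0
  obtain ⟨N, hN, hN1⟩ := ((h0.eventually_le_const hε).and (eventually_ge_atTop 1)).exists
  have hN2 : (1 : ℝ) ≤ N := by exact_mod_cast hN1
  obtain ⟨A, hA, hrA⟩ : ∃ A : ℝ, 3 ≤ A ∧ r + 3 ≤ A :=
    ⟨|r| + 3, by linarith [abs_nonneg r], by linarith [le_abs_self r]⟩
  have hAN : 0 < 3 * A * N := by positivity
  refine ⟨⟨2 * (3 * A * N + 1) ^ 2 + 1, by positivity⟩, ?_⟩
  filter_upwards [Ioc_mem_nhdsGT zero_lt_one, Ioc_mem_nhdsGT (one_div_pos.2 hAN)] with δ h2 h3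
  have hδ := h2.1
  have k0 : (1 : ℤ) ≤ ⌈2 * A / δ⌉ := Int.one_le_ceil_iff.2 (by positivity)
  have k1 : δ * (⌈2 * A / δ⌉ : ℤ) ≤ 3 * A := by
    have := mul_le_mul_of_nonneg_left (Int.ceil_lt_add_one (2 * A / δ)).le hδ.le
    rw [mul_add, mul_div_cancel₀ _ hδ.ne'] at this
    linarith [h2.2]
  have k2 : δ * ((N : ℤ) * ⌈2 * A / δ⌉ : ℤ) ≤ 3 * A * N := by
    push_cast
    nlinarith [mul_le_mul_of_nonneg_right k1 (Nat.cast_nonneg (α := ℝ) N)]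
  have k3 : (N : ℤ) * ⌈2 * A / δ⌉ ≤ (⌈1 / δ ^ 2⌉₊ : ℕ) := by
    refine le_box hδ ?_ k2
    have := h3.2
    rwa [le_div_iff₀ hAN, mul_comm] at this
  have k4 : ⌈2 * A / δ⌉ ≤ (N : ℤ) * ⌈2 * A / δ⌉ :=
    le_mul_of_one_le_left (by omega) (by exact_mod_cast hN1)
  refine Apx.crit_le ?_ ((hT _ _ k0 k4).trans (le_trans (le_of_eq ?_) hN))
  · rintro ω ⟨t, ht, h4⟩
    obtain ⟨v, hv, h5⟩ := leave h1 (hK δ ω hδ).2.1 (ρ := 3 * A * N + 1) (by positivity)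
      (T := ⟨2 * (3 * A * N + 1) ^ 2 + 1, by positivity⟩) (lt_add_one _)
    have h6 : ∃ j, (N : ℤ) * ⌈2 * A / δ⌉ ≤ nm 0 (fp (tr ⌈1 / δ ^ 2⌉₊ ω) j) ∧
        j ≤ ⌊tau δ ω t⌋₊ := by
      refine ⟨⌊tau δ ω v⌋₊, ?_, Nat.floor_mono ((tau δ ω).monotone (hv.trans ht))⟩
      have e1 : ‖eta δ ω (tau δ ω v) - eta δ ω (⌊tau δ ω v⌋₊ : ℕ)‖ ≤ δ / 2 :=
        Apx.pc_near (by positivity) (hF _) ⌊tau δ ω v⌋₊ (by simp) (Apx.floor_mem _)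
      have e2 := norm_sub_norm_le (eta δ ω (tau δ ω v)) (eta δ ω (⌊tau δ ω v⌋₊ : ℕ))
      have e3 : ‖eta δ ω (⌊tau δ ω v⌋₊ : ℕ)‖ = _ := norm_pc hδ _ _
      have e4 := mul_le_mul_of_nonneg_left (le_nm (fp (tr ⌈1 / δ ^ 2⌉₊ ω) ⌊tau δ ω v⌋₊)) hδ.le
      rw [Apx.Cv_apply] at h5
      have e5 : δ * ((N : ℤ) * ⌈2 * A / δ⌉ : ℤ) ≤
          δ * (nm 0 (fp (tr ⌈1 / δ ^ 2⌉₊ ω) ⌊tau δ ω v⌋₊) : ℤ) := by linarith [h2.2]
      exact_mod_cast le_of_mul_le_mul_left e5 hδ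
    classical
    obtain ⟨h7, h8⟩ := Nat.find_spec h6
    refine ⟨Nat.find h6, ⌊tau δ ω t⌋₊, h8, ?_, ?_⟩
    · have hm := fun j => Nat.find_min h6 (m := j)
      generalize Nat.find h6 = j at h7 h8 hm
      cases j with
      | zero => exact h7
      | succ i =>
        rwa [← (hB.2.2.1 _ ω i (Or.inl fun j hj => ?_)).1 _ le_rfl]
        exact (not_le.1 fun h => hm j (by omega) ⟨h, by omega⟩).le.trans k3
    · have e1 : ‖pc (δ / 2) (fp ω) (⌊tau δ ω t⌋₊ : ℕ) - pc (δ / 2) (fp ω) (tau δ ω t)‖ ≤ δ / 2 :=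
        Apx.pc_near (by positivity) (hF _) ⌊tau δ ω t⌋₊ (Apx.floor_mem _) (by simp)
      have e2 := norm_sub_norm_le (pc (δ / 2) (fp ω) (⌊tau δ ω t⌋₊ : ℕ))
        (pc (δ / 2) (fp ω) (tau δ ω t))
      have e3 := hB.2.2.2.2.2.1 δ ω (tau δ ω t) hδ.le
      rw [dist_comm, dist_eq_norm] at e3
      have e4 := norm_sub_norm_le (pc (δ / 2) (fp ω) (tau δ ω t)) (curve δ ω (tau δ ω t))
      have e5 : ‖curve δ ω (tau δ ω t)‖ ≤ r := h4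
      have e6 := mul_le_mul_of_nonneg_left (nm_le (fp ω ⌊tau δ ω t⌋₊)) hδ.le
      rw [norm_pc hδ] at e2
      have e7 : (nm 0 (fp ω ⌊tau δ ω t⌋₊) : ℝ) ≤ 2 * A / δ := by
        rw [le_div_iff₀ hδ]; linarith [h2.2]
      exact_mod_cast e7.trans (Int.le_ceil _)
  · have : ((⌈2 * A / δ⌉ : ℤ) : ℝ) ≠ 0 := by exact_mod_cast (by omega : ⌈2 * A / δ⌉ ≠ 0)
    congr 2
    push_cast
    field_simp

theorem isCardy : IsCardy cardy :=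
  ⟨1 / (3 * scB), by have := scB_pos; positivity, fun _ hx => cardy_deriv hx.1 hx.2⟩

end Glu

theorem main (hF : S_FP) (hT : S_TRANS) (hK : S_CAP) (hB : S_BAS) (hR : S_RAD) (hTi : S_TIGHT)
    (hA : S_APPROX) (h1 : L.S_L1s) (hC : L.S_Cont) (hCl : L.S_Closed) (hU : L.S_Uniq) :
    S_MAIN := by
  intro _ _
  borelize PR
  have hP : IsProbabilityMeasure crit := inferInstanceAs (IsProbabilityMeasure (PM fun _ => hf))
  obtain ⟨ν, hν, a1, a2, a3⟩ := s_M ℝ Cfg crit (𝓝[>] 0) Dv Cv L.Good cardy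
    (fun δ => (hB.2.2.2.1 δ).2.2.2.measurable.aemeasurable)
    (fun δ => (hB.2.2.2.1 δ).2.2.1.measurable.aemeasurable)
    (eventually_mem_nhdsWithin.mono fun δ hδ => ae_of_all _ fun ω => by
      obtain ⟨-, b1, b2⟩ := hK δ ω hδ
      exact ⟨(b2 0).1.trans (hC.1 _ b1.toSimple).2.2.2.2.2.1, b1.zero, b1, fun t => (b2 t).1⟩)
    hU hTi.2 hTi.1 Glu.isCardy hA
  have a4 := s_Slut ℝ Cfg _ crit ν (𝓝[>] 0) Cv (fun δ ω => repar (curve δ ω) (tau δ ω)) _ a3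
    (fun δ => (hB.2.2.2.2.2.2 δ).2.aemeasurable) (Glu.close hB hR)
  refine ⟨PR × PC, inferInstance, ν, hν, fun t p => (√6)⁻¹ * p.1 t, Prod.snd, a2, measurable_snd,
    a1.mono fun p hp => ?_, ⟨tau, hP, a4⟩, fun F f1 f2 f3 => ?_⟩
  · have e : (fun t => √6 * ((√6)⁻¹ * p.1 t)) = p.1 :=
      funext fun t => mul_inv_cancel_left₀ (by positivity) _
    rw [e]
    exact hCl p hp
  · refine s_B ℝ Cfg _ crit ν (𝓝[>] 0) _ curve _ a4 (Glu.trans hF hK hB hT h1)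
      (fun δ ω => cdist_repar _ _) F f1 f2 fun γ ε hε => ?_
    obtain ⟨r, hr, h2⟩ := f3 γ ε hε
    exact ⟨r, hr, fun γ' h => by rw [abs_sub_comm]; exact h2 γ' (by rwa [cdist_comm])⟩

end Pool.Agent.P.MP_6c8efb_pr.SLE
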