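import Pool.Agent.P.MP_6c8efb_pr.SLE.LDefs
import Pool.Agent.P.MP_56bcbf_an.Koebe

/-!
Block L of the SLE project: toolbox.
-/

namespace Pool.Agent.P.MP_6c8efb_pr.SLE.L

open Set Filter Topology Metric Complex
open scoped NNReal ComplexConjugate

theorem mem_HH {z : ℂ} : z ∈ HH ↔ 0 < z.im := Iff.rfl

theorem isOpen_HH : IsOpen HH := isOpen_lt continuous_const continuous_im

theorem convex_HH : Convex ℝ HH := convex_halfSpace_im_gt 0

theorem closure_HH : closure HH = {z | 0 ≤ z.im} := closure_setOfPred_lt_im 0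

theorem frontier_HH : frontier HH = {z | z.im = 0} := frontier_setOfPred_lt_im 0

theorem neBot_HH {z : ℂ} (hz : 0 ≤ z.im) : (𝓝[HH] z).NeBot :=
  mem_closure_iff_nhdsWithin_neBot.1 (by rw [closure_HH]; exact hz)

/-- Harnack type estimate for functions with nonnegative real part. -/
theorem harn_re {p : ℂ → ℂ} {c z : ℂ} {R : ℝ} (hp : DifferentiableOn ℂ p (ball c R))
    (h0 : ∀ w ∈ ball c R, 0 ≤ (p w).re) (hz : z ∈ ball c R) :
    ‖p z - p c‖ ≤ 2 * (p c).re * ‖z - c‖ / (R - ‖z - c‖) := by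
  have hz' : ‖z - c‖ < R := by simpa [dist_eq_norm] using hz
  have hR : 0 < R := (norm_nonneg _).trans_lt hz'
  have hm : ∀ w ∈ ball (0 : ℂ) R, c + w ∈ ball c R := fun w hw => by
    simpa [dist_eq_norm] using hw
  have key : ∀ e : ℝ, 0 < e → ‖p z - p c‖ ≤ 2 * ((p c).re + e) * ‖z - c‖ / (R - ‖z - c‖) := by
    intro e he
    have hc := h0 c (mem_ball_self hR)
    have := borelCaratheodory_zero (f := fun w => p c - p (c + w)) (M := (p c).re + e) (R := R)
      (z := z - c) (by linarith)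
      ((differentiableOn_const _).sub (hp.comp (by fun_prop) hm))
      (fun w hw => by
        have := h0 _ (hm w hw)
        simp only [mem_ofPred_eq, sub_re]; linarith) hR (by simpa using hz') (by simp)
    rw [norm_sub_rev]
    simpa using this
  have hc : ContinuousAt (fun e : ℝ => 2 * ((p c).re + e) * ‖z - c‖ / (R - ‖z - c‖)) 0 := by
    fun_prop (disch := exact (sub_pos.2 hz').ne')
  have := ge_of_tendsto (hc.tendsto.mono_left (nhdsWithin_le_nhds (s := Ioi 0)))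
    (eventually_nhdsWithin_of_forall key)
  simpa using this

/-- Harnack type estimate for functions with nonnegative imaginary part. -/
theorem harn_im {p : ℂ → ℂ} {c z : ℂ} {R : ℝ} (hp : DifferentiableOn ℂ p (ball c R))
    (h0 : ∀ w ∈ ball c R, 0 ≤ (p w).im) (hz : z ∈ ball c R) :
    ‖p z - p c‖ ≤ 2 * (p c).im * ‖z - c‖ / (R - ‖z - c‖) := by
  have := harn_re (p := fun w => -I * p w) (hp.const_mul _) (fun w hw => by simpa using h0 w hw) hz
  rw [← mul_sub, norm_mul] at this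
  simpa using this

theorem harn_deriv {p : ℂ → ℂ} {c : ℂ} {R : ℝ} (hR : 0 < R) (hp : DifferentiableOn ℂ p (ball c R))
    (h0 : ∀ w ∈ ball c R, 0 ≤ (p w).im) : ‖deriv p c‖ ≤ 2 * (p c).im / R := by
  have hd := (hp.differentiableAt (ball_mem_nhds c hR)).hasDerivAt
  have h1 := (hasDerivAt_iff_tendsto_slope.1 hd).norm
  have h2 : Tendsto (fun z : ℂ => 2 * (p c).im / (R - ‖z - c‖)) (𝓝[≠] c)
      (𝓝 (2 * (p c).im / R)) := by
    have hc : ContinuousAt (fun z : ℂ => 2 * (p c).im / (R - ‖z - c‖)) c := by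
      fun_prop (disch := simpa using hR.ne')
    simpa using hc.tendsto.mono_left nhdsWithin_le_nhds
  refine le_of_tendsto_of_tendsto h1 h2 ?_
  filter_upwards [self_mem_nhdsWithin, mem_nhdsWithin_of_mem_nhds (ball_mem_nhds c hR)]
    with z hz hb
  have hz0 : 0 < ‖z - c‖ := norm_pos_iff.2 (sub_ne_zero.2 hz)
  have := harn_im hp h0 hb
  rw [slope_def_field, norm_div, div_le_iff₀ hz0]
  calc _ ≤ _ := this
    _ = _ := by ring

/-- The part of the half-plane outside a disc with real centre is connected. -/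
theorem preconn_ext (x s : ℝ) : IsPreconnected {w ∈ HH | s < ‖w - x‖} := by
  have : {w ∈ HH | s < ‖w - x‖} = (fun p : ℝ × ℝ => (x : ℂ) + p.1 * cexp (p.2 * I)) ''
      (Ioi (max s 0) ×ˢ Ioo 0 Real.pi) := by
    ext w
    constructor
    · rintro ⟨hw, hs⟩
      have h0 : 0 < (w - x).im := by simpa [mem_HH] using hw
      have hne : w - x ≠ 0 := fun h => by simp [h] at h0
      refine ⟨(‖w - x‖, arg (w - x)), ⟨max_lt hs (norm_pos_iff.2 hne), ?_, ?_⟩, ?_⟩
      · exact lt_of_le_of_ne (arg_nonneg_iff.2 h0.le) fun h => h0.ne' (arg_eq_zero_iff.1 h.symm).2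
      · exact lt_of_le_of_ne (arg_le_pi _) fun h => h0.ne' (arg_eq_pi_iff.1 h).2
      · simp only [norm_mul_exp_arg_mul_I]; ring
    · rintro ⟨⟨r, θ⟩, ⟨hr, h1, h2⟩, rfl⟩
      have hr0 : 0 < r := (le_max_right _ _).trans_lt hr
      refine ⟨?_, ?_⟩
      · simp only [mem_HH, add_im, ofReal_im, im_ofReal_mul, exp_ofReal_mul_I_im, zero_add]
        exact mul_pos hr0 (Real.sin_pos_of_pos_of_lt_pi h1 h2)
      · simp only [add_sub_cancel_left, norm_mul, norm_real, norm_exp_ofReal_mul_I, mul_one,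
          Real.norm_eq_abs, abs_of_pos hr0]
        exact (le_max_left _ _).trans_lt hr
  rw [this]
  exact (isPreconnected_Ioi.prod isPreconnected_Ioo).image _ (by fun_prop)

/-- A connected set that avoids a circle and has a point outside is outside. -/
theorem outside_of_preconn {Z : Set ℂ} (hZ : IsPreconnected Z) {c : ℂ} {s : ℝ}
    (h1 : ∀ z ∈ Z, ‖z - c‖ ≠ s) (h2 : ∃ z ∈ Z, s < ‖z - c‖) : ∀ z ∈ Z, s < ‖z - c‖ := by
  intro z hz
  obtain ⟨z', hz', hs⟩ := h2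
  by_contra hc
  obtain ⟨y, hy, he⟩ := hZ.intermediate_value hz hz'
    (f := fun z => ‖z - c‖) (by fun_prop) ⟨not_lt.1 hc, hs.le⟩
  exact h1 y hy he

/-! ### Mapping-out functions -/

section
variable {K : Set ℂ} {g f : ℂ → ℂ} {a : ℝ}

theorem Hyd.injOn_g (h : Hyd K g f a) : InjOn g (HH \ K) := fun x hx y hy e => by
  rw [← h.fg x hx, ← h.fg y hy, e]

theorem Hyd.injOn_f (h : Hyd K g f a) : InjOn f HH := fun x hx y hy e => by
  rw [← h.gf x hx, ← h.gf y hy, e]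

theorem Hyd.image_f (h : Hyd K g f a) : f '' HH = HH \ K :=
  Subset.antisymm h.mf.image_subset fun z hz => ⟨g z, h.mg hz, h.fg z hz⟩

theorem Hyd.image_g (h : Hyd K g f a) : g '' (HH \ K) = HH :=
  Subset.antisymm h.mg.image_subset fun z hz => ⟨f z, h.mf hz, h.gf z hz⟩

theorem Hyd.diffAt_g (h : Hyd K g f a) {z : ℂ} (hz : z ∈ HH \ K) : DifferentiableAt ℂ g z :=
  h.dg.differentiableAt (h.opn.mem_nhds hz)

theorem Hyd.diffAt_f (h : Hyd K g f a) {z : ℂ} (hz : z ∈ HH) : DifferentiableAt ℂ f z :=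
  h.df.differentiableAt (isOpen_HH.mem_nhds hz)

theorem Hyd.preconn (h : Hyd K g f a) : IsPreconnected (HH \ K) := by
  rw [← h.image_f]; exact convex_HH.isPreconnected.image _ h.df.continuousOn

theorem Hyd.exists_radius (h : Hyd K g f a) : ∃ R : ℝ, 0 < R ∧ K ⊆ closedBall 0 R := by
  obtain ⟨R, hR, h⟩ := h.bdd.subset_closedBall_lt 0 0
  exact ⟨R, hR, h⟩

theorem hyd_empty : Hyd ∅ id id 0 where
  sub := empty_subset _
  bdd := Bornology.isBounded_empty
  opn := by simpa using isOpen_HH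
  dg := differentiableOn_id
  df := differentiableOn_id
  mg := fun _ hz => hz.1
  mf := fun _ hz => ⟨hz, fun h => h⟩
  fg := fun _ _ => rfl
  gf := fun _ _ => rfl
  lim := fun ε hε => ⟨0, fun z _ _ => by simpa using hε.le⟩
  loc := fun R => ⟨R, fun _ _ h => h⟩

theorem isOpen_Dsym (K : Set ℂ) : IsOpen (Dsym K) :=
  isClosed_closure.isOpen_compl.inter (isClosed_closure.isOpen_compl.preimage continuous_conj)

theorem conj_mem_Dsym {z : ℂ} (hz : z ∈ Dsym K) : conj z ∈ Dsym K := ⟨hz.2, by simpa using hz.1⟩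

theorem Hyd.closure_im (h : Hyd K g f a) {z : ℂ} (hz : z ∈ closure K) : 0 ≤ z.im := by
  have := closure_mono h.sub hz
  rwa [closure_HH] at this

theorem Hyd.sub_Dsym (h : Hyd K g f a) : HH \ K ⊆ Dsym K := by
  intro z hz
  refine ⟨fun hc => ?_, fun hc => ?_⟩
  · obtain ⟨y, hy, hk⟩ := mem_closure_iff.1 hc _ h.opn hz
    exact hy.2 hk
  · have := h.closure_im hc
    have h2 : 0 < z.im := hz.1
    simp only [conj_im] at this; linarith

theorem mem_D_of_Dsym {z : ℂ} (hz : z ∈ Dsym K) (h0 : 0 < z.im) : z ∈ HH \ K :=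
  ⟨h0, fun hk => hz.1 (subset_closure hk)⟩

theorem mem_Dsym_of_lt {x r : ℝ} (hK : K ⊆ closedBall (x : ℂ) r) {z : ℂ} (hz : r < ‖z - x‖) :
    z ∈ Dsym K := by
  have hc : closure K ⊆ closedBall (x : ℂ) r := closure_minimal hK isClosed_closedBall
  refine ⟨fun h => ?_, fun h => ?_⟩
  · have := hc h
    rw [mem_closedBall, dist_eq_norm] at this; linarith
  · have := hc h
    rw [mem_closedBall, dist_eq_norm, ← norm_conj] at this
    simp only [map_sub, conj_conj, conj_ofReal] at this; linarith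

/-- A bound on a continuous function passes from the upper half-plane to a real point. -/
theorem le_of_HH {φ : ℂ → ℝ} {x : ℂ} {b : ℝ} (hx : 0 ≤ x.im) (hc : ContinuousAt φ x)
    (h : ∀ᶠ z in 𝓝 x, z ∈ HH → φ z ≤ b) : φ x ≤ b := by
  have := neBot_HH hx
  exact le_of_tendsto (hc.tendsto.mono_left nhdsWithin_le_nhds)
    (eventually_nhdsWithin_iff.2 h : ∀ᶠ z in 𝓝[HH] x, φ z ≤ b)

end

/-! ### Curves -/

section
variable {η : ℝ≥0 → ℂ}

theorem hull_zero (η : ℝ≥0 → ℂ) : hull η 0 = ∅ := by simp [hull]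

theorem hull_mono (η : ℝ≥0 → ℂ) {s t : ℝ≥0} (h : s ≤ t) : hull η s ⊆ hull η t :=
  image_mono (Ioc_subset_Ioc_right h)

theorem D_anti (η : ℝ≥0 → ℂ) {s t : ℝ≥0} (h : s ≤ t) : HH \ hull η t ⊆ HH \ hull η s :=
  sdiff_subset_sdiff_right (hull_mono η h)

theorem Curve.im_nonneg (h : Curve η) (t : ℝ≥0) : 0 ≤ (η t).im := by
  rcases eq_or_lt_of_le (zero_le : 0 ≤ t) with rfl | ht
  · simp [h.zero]
  · exact (h.pos t ht).le

theorem Curve.mem_D (h : Curve η) {s u : ℝ≥0} (hu : s < u) : η u ∈ HH \ hull η s :=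
  ⟨h.pos u ((zero_le : 0 ≤ s).trans_lt hu), fun ⟨v, hv, e⟩ => by
    rw [h.inj e] at hv; exact absurd hv.2 (not_le.2 hu)⟩

theorem Curve.tip_not_mem (h : Curve η) (s : ℝ≥0) : η s ∉ HH \ hull η s := by
  rintro ⟨h1, h2⟩
  rcases eq_or_lt_of_le (zero_le : 0 ≤ s) with rfl | hs
  · simp [mem_HH, h.zero] at h1
  · exact h2 ⟨s, ⟨hs, le_rfl⟩, rfl⟩

theorem Curve.hull_diff (h : Curve η) (s t : ℝ≥0) : hull η t \ hull η s = η '' Ioc s t := by
  rw [hull, hull, ← image_sdiff h.inj]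
  congr 1
  ext u
  simp only [Set.mem_sdiff, mem_Ioc, not_and, not_le]
  exact ⟨fun h => ⟨h.2 h.1.1, h.1.2⟩, fun h => ⟨⟨(zero_le : 0 ≤ s).trans_lt h.1, h.2⟩, fun _ => h.1⟩⟩

theorem Curve.D_eq (h : Curve η) (t : ℝ≥0) : HH \ η '' Iic t = HH \ hull η t := by
  ext z
  refine ⟨fun hz => ⟨hz.1, fun ⟨u, hu, e⟩ => hz.2 ⟨u, hu.2, e⟩⟩, fun hz => ⟨hz.1, ?_⟩⟩
  rintro ⟨u, hu, rfl⟩
  rcases eq_or_lt_of_le (zero_le : 0 ≤ u) with rfl | h0
  · have := hz.1
    simp [mem_HH, h.zero] at this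
  · exact hz.2 ⟨u, ⟨h0, hu⟩, rfl⟩

theorem isCompact_Iic' (t : ℝ≥0) : IsCompact (Iic t) := by
  rw [← Icc_bot]; exact isCompact_Icc

theorem exists_bound (hc : Continuous η) (T : ℝ≥0) : ∃ R : ℝ, 0 < R ∧ ∀ u ≤ T, ‖η u‖ ≤ R := by
  obtain ⟨R, hR, h⟩ := ((isCompact_Iic' T).image hc).isBounded.subset_closedBall_lt 0 0
  exact ⟨R, hR, fun u hu => by simpa using h ⟨u, hu, rfl⟩⟩

theorem hull_subset_ball {t : ℝ≥0} {R : ℝ} (h : ∀ u ≤ t, ‖η u‖ ≤ R) :
    hull η t ⊆ closedBall 0 R := by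
  rintro _ ⟨u, hu, rfl⟩; simpa using h u hu.2

/-- Uniform continuity on `[0,T]`. -/
theorem unif_cont {E : Type} [NormedAddCommGroup E] {γ : ℝ≥0 → E} (hc : Continuous γ) (T : ℝ≥0)
    {ρ : ℝ} (hρ : 0 < ρ) : ∃ δ : ℝ, 0 < δ ∧ ∀ s u : ℝ≥0, s ≤ T → u ≤ T → |(u : ℝ) - s| ≤ δ →
      ‖γ u - γ s‖ ≤ ρ := by
  obtain ⟨δ, hδ, h⟩ := Metric.uniformContinuousOn_iff_le.1
    ((isCompact_Iic' T).uniformContinuousOn_of_continuous hc.continuousOn) ρ hρ
  exact ⟨δ, hδ, fun s u hs hu hd => by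
    simpa [dist_eq_norm] using h u hu s hs (by simpa [NNReal.dist_eq] using hd)⟩

end

theorem om_pos {R ρ : ℝ} (h0 : 0 < ρ) (h : ρ < R) : 0 < om R ρ :=
  div_pos (by linarith) (Real.sqrt_pos.2 (Real.log_pos ((one_lt_div h0).2 h)))

theorem om_small {R ε : ℝ} (hR : 0 < R) (hε : 0 < ε) : ∃ ρ : ℝ, 0 < ρ ∧ ρ < R ∧ om R ρ ≤ ε := by
  have hq : 0 < 200 * R / ε := by positivity
  have he : 1 < Real.exp ((200 * R / ε) ^ 2) := Real.one_lt_exp_iff.2 (by positivity)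
  refine ⟨R / Real.exp ((200 * R / ε) ^ 2), by positivity, div_lt_self hR he, le_of_eq ?_⟩
  rw [om, div_div_cancel₀ hR.ne', Real.log_exp, Real.sqrt_sq hq.le]
  field_simp

theorem isOpen_Om {S : Set ℂ} (hb : Bornology.IsBounded S) (hc : IsClosed S) : IsOpen (Om S) := by
  rw [isOpen_iff_mem_nhds]
  intro u hu
  by_cases h0 : u = 0
  · subst h0
    obtain ⟨R, hR, h⟩ := hb.subset_ball_lt 0 0
    filter_upwards [ball_mem_nhds (0 : ℂ) (inv_pos.2 hR)] with v hv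
    by_cases hv0 : v = 0
    · exact Or.inl hv0
    · refine Or.inr fun hs => ?_
      have h1 := h hs
      rw [mem_ball_zero_iff] at h1 hv
      rw [norm_inv, inv_lt_comm₀ (norm_pos_iff.2 hv0) hR] at h1
      linarith
  · have := (continuousAt_inv₀ h0).preimage_mem_nhds (hc.isOpen_compl.mem_nhds (hu.resolve_left h0))
    filter_upwards [this] with v hv using Or.inr hv

/-- A continuous logarithm of a holomorphic function is holomorphic. -/
theorem CLog.holo {U : Set ℂ} (h : CLog U) (hU : IsOpen U) {F : ℂ → ℂ}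
    (hF : DifferentiableOn ℂ F U) (h0 : ∀ z ∈ U, F z ≠ 0) :
    ∃ L : ℂ → ℂ, DifferentiableOn ℂ L U ∧ ∀ z ∈ U, cexp (L z) = F z := by
  obtain ⟨L, hL, he⟩ := h F hF.continuousOn h0
  refine ⟨L, fun z hz => DifferentiableAt.differentiableWithinAt ?_, he⟩
  have hn := hU.mem_nhds hz
  have h1 : DifferentiableAt ℂ (fun w => L z + log (F w / F z)) z := by
    refine (differentiableAt_const _).add (DifferentiableAt.clog
      ((hF.differentiableAt hn).div_const _) ?_)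
    simp [h0 z hz]
  refine h1.congr_of_eventuallyEq ?_
  have hc : ContinuousAt (fun w => (L w - L z).im) z := by
    have := hL.continuousAt hn
    fun_prop
  have : ∀ᶠ w in 𝓝 z, (L w - L z).im ∈ Ioo (-Real.pi) Real.pi :=
    hc.eventually_mem (Ioo_mem_nhds (by simpa using Real.pi_pos) (by simpa using Real.pi_pos))
  filter_upwards [this, hn] with w hw hwU
  rw [← he w hwU, ← he z hz, ← exp_sub, log_exp hw.1 hw.2.le]
  ring

/-- Holomorphic square roots. -/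
theorem CLog.sqrt {U : Set ℂ} (h : CLog U) (hU : IsOpen U) {F : ℂ → ℂ}
    (hF : DifferentiableOn ℂ F U) (h0 : ∀ z ∈ U, F z ≠ 0) :
    ∃ r : ℂ → ℂ, DifferentiableOn ℂ r U ∧ ∀ z ∈ U, r z ^ 2 = F z := by
  obtain ⟨L, hL, he⟩ := h.holo hU hF h0
  refine ⟨fun z => cexp (L z / 2), (hL.div_const _).cexp, fun z hz => ?_⟩
  rw [← he z hz, sq, ← exp_add]; congr 1; ring

theorem Sol.continuousOn {W : ℝ≥0 → ℝ} {t : ℝ≥0} {G : ℝ → ℂ} (h : Sol W t G) :
    ContinuousOn G (Icc 0 t) := fun s hs => (h s hs).2.continuousWithinAt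

theorem Sol.mono {W : ℝ≥0 → ℝ} {t v : ℝ≥0} {G : ℝ → ℂ} (h : Sol W t G) (hv : v ≤ t) :
    Sol W v G := fun s hs =>
  have e : Icc (0 : ℝ) v ⊆ Icc (0 : ℝ) t := Icc_subset_Icc_right (NNReal.coe_le_coe.2 hv)
  ⟨(h s (e hs)).1, (h s (e hs)).2.mono e⟩

theorem toNNReal_le {t : ℝ≥0} {s : ℝ} (hs : s ∈ Icc (0 : ℝ) t) : s.toNNReal ≤ t :=
  Real.toNNReal_le_iff_le_coe.2 hs.2

/-- Points of the closure are uniform limits on bounded time intervals. -/
theorem approx {p : C(ℝ≥0, ℝ) × C(ℝ≥0, ℂ)} (hp : p ∈ closure Good) (T : ℝ≥0) {δ : ℝ}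
    (hδ : 0 < δ) : ∃ η : ℝ≥0 → ℂ, CapPar η ∧
      ∀ u ≤ T, |p.1 u - drv η u| ≤ δ ∧ ‖p.2 u - η u‖ ≤ δ := by
  have hc : Continuous fun q : C(ℝ≥0, ℝ) × C(ℝ≥0, ℂ) =>
      (q.1.restrict (Icc 0 T), q.2.restrict (Icc 0 T)) :=
    ((ContinuousMap.continuous_restrict _).comp continuous_fst).prodMk
      ((ContinuousMap.continuous_restrict _).comp continuous_snd)
  obtain ⟨q, hq, hg⟩ := mem_closure_iff_nhds.1 hp _
    (hc.continuousAt.preimage_mem_nhds (ball_mem_nhds _ hδ))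
  rw [mem_preimage, mem_ball, Prod.dist_eq, max_lt_iff] at hq
  refine ⟨q.2, hg.1, fun u hu => ⟨?_, ?_⟩⟩
  · have := (ContinuousMap.dist_apply_le_dist (⟨u, zero_le, hu⟩ : Icc 0 T)).trans hq.1.le
    rw [← hg.2 u, abs_sub_comm]
    simpa [Real.dist_eq] using this
  · have := (ContinuousMap.dist_apply_le_dist (⟨u, zero_le, hu⟩ : Icc 0 T)).trans hq.2.le
    rw [norm_sub_rev]
    simpa [dist_eq_norm] using this

end Pool.Agent.P.MP_6c8efb_pr.SLE.L
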