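import Pool.Agent.P.MP_6c8efb_pr.SLE.LIface

/-!
Block L: the height of the image of a piece of the curve.
-/

namespace Pool.Agent.P.MP_6c8efb_pr.SLE.L

open Set Filter Topology Metric Complex MeasureTheory
open scoped NNReal ComplexConjugate

theorem hgt_im (z : ℂ) (x : ℝ) : z.im ≤ ‖z - x‖ := by
  simpa using (le_abs_self _).trans (Complex.abs_im_le_norm (z - x))

theorem hgt_loc (hTip : S_Tip) (hStep : S_Step) {η : ℝ≥0 → ℂ} (h : Simple η) {v u : ℝ≥0}
    (hv : v < u) {ε : ℝ} (hε : 0 < ε) : ∀ᶠ v' in 𝓝[>] v,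
      (gt η v (η u)).im ^ 2 + (2 + ε) * ct η v ≤ (gt η v' (η u)).im ^ 2 + (2 + ε) * ct η v' := by
  have y0 : 0 < (gt η v (η u)).im := (h.hyd v).mg (h.toCurve.mem_D hv)
  set y := (gt η v (η u)).im with hy
  set r := min (y / 4) (ε * y / 24) with hr
  have r0 : 0 < r := lt_min (by positivity) (by positivity)
  have r1 : 4 * r ≤ y := by linarith [min_le_left (y / 4) (ε * y / 24)]
  have r2 : 24 * r ≤ ε * y := by linarith [min_le_right (y / 4) (ε * y / 24)]
  obtain ⟨δ, δ0, hδ⟩ := (hTip η h).2.2 u r r0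
  have o1 : IsOpen {v' : ℝ≥0 | (v' : ℝ) - v < δ} := isOpen_lt (by fun_prop) continuous_const
  filter_upwards [self_mem_nhdsWithin, mem_nhdsWithin_of_mem_nhds (Iio_mem_nhds hv),
    mem_nhdsWithin_of_mem_nhds (o1.mem_nhds (by simpa using δ0))] with v' h1 h2 h3
  obtain ⟨d0, -, -, -, s5⟩ := hStep η h v v' (drv η v) r (le_of_lt h1) r0 fun w hw =>
    hδ v w hw.1 (hw.2.trans (le_of_lt h2)) (by
      have : (w : ℝ) ≤ v' := hw.2
      have : (v' : ℝ) - v < δ := h3
      linarith)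
  have N1 : y ≤ ‖gt η v (η u) - drv η v‖ := hgt_im _ _
  have s6 := (s5 _ (h.toCurve.mem_D h2)).2 (r1.trans N1)
  have y1 : 0 < (gt η v' (η u)).im := (h.hyd v').mg (h.toCurve.mem_D h2)
  set ze := gt η v (η u) - drv η v with hze
  set d := ct η v' - ct η v with hd
  set N := ‖ze‖ with hN
  have N0 : 0 < N := y0.trans_le N1
  have e1 : ((d : ℂ) / ze).im = -(d * y / N ^ 2) := by
    rw [Complex.div_im, hN, Complex.sq_norm]
    simp [hze, hy]
  have e2 := (neg_le_abs _).trans ((Complex.abs_im_le_norm _).trans s6)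
  rw [Complex.sub_im, Complex.sub_im, e1, ← hy] at e2
  set t := d / N ^ 2 with ht
  have t0 : 0 ≤ t := by positivity
  have e3 : d * y / N ^ 2 = t * y := by rw [ht]; ring
  have e4 : 12 * r * d / N ^ 2 = 12 * r * t := by rw [ht]; ring
  have e5 : t * y ^ 2 ≤ d := by
    rw [ht, div_mul_eq_mul_div, div_le_iff₀ (by positivity)]
    exact mul_le_mul_of_nonneg_left (pow_le_pow_left₀ y0.le N1 2) d0
  rw [e3, e4] at e2
  set Y := (gt η v' (η u)).im
  have e6 : y ^ 2 - 2 * y * (y - Y) ≤ Y ^ 2 := by nlinarith [sq_nonneg (y - Y)]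
  have e7 : y * (y - Y) ≤ y * (t * y + 12 * r * t) :=
    mul_le_mul_of_nonneg_left (by linarith) y0.le
  have e8 : t * y * (24 * r) ≤ t * y * (ε * y) :=
    mul_le_mul_of_nonneg_left r2 (by positivity)
  have e9 : ε * (t * y ^ 2) ≤ ε * d := mul_le_mul_of_nonneg_left e5 hε.le
  nlinarith

theorem s_Hgt (hTip : S_Tip) (hStep : S_Step) (hCont : S_Cont) : S_Hgt := by
  intro η h s u hsu
  obtain ⟨c1, c2, -, -, -, -, c3, -⟩ := hCont.1 η h
  have D0 : 0 ≤ ct η u - ct η s := sub_nonneg.2 (c2.monotone hsu.le)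
  refine le_of_forall_pos_le_add fun e e0 => ?_
  set ε := e / 2 / (ct η u - ct η s + 1) with hε
  have ε0 : 0 < ε := by positivity
  have ε1 : ε * (ct η u - ct η s) ≤ e / 2 := by
    rw [hε, div_mul_eq_mul_div, div_le_iff₀ (by positivity)]
    nlinarith
  set r := min 1 (e / 2) with hr
  have r0 : 0 < r := lt_min one_pos (by positivity)
  have r1 : r ^ 2 ≤ e / 2 := by
    nlinarith [min_le_left 1 (e / 2), min_le_right 1 (e / 2)]
  obtain ⟨δ, δ0, hδ⟩ := (hTip η h).2.2 u r r0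
  set v := max s (u - δ.toNNReal) with hv
  have v1 : v < u := max_lt hsu (tsub_lt_self (zero_le.trans_lt hsu) (Real.toNNReal_pos.2 δ0))
  have v2 : (u : ℝ) - v ≤ δ := by
    have h1 : u ≤ v + δ.toNNReal := le_tsub_add.trans (add_le_add_left (le_max_right _ _) _)
    have h2 : (u : ℝ) ≤ v + δ.toNNReal := by exact_mod_cast h1
    rw [Real.coe_toNNReal _ δ0.le] at h2
    linarith
  set ψ : ℝ≥0 → ℝ := fun w => (gt η w (η u)).im ^ 2 + (2 + ε) * ct η w with hψ
  have cψ : ContinuousOn ψ (Icc s v) :=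
    ((Complex.continuous_im.comp_continuousOn ((c3 v _ (h.toCurve.mem_D v1)).mono
      Icc_subset_Iic_self)).pow 2).add (continuous_const.mul c1).continuousOn
  have key : Icc s v ⊆ ψ ⁻¹' Ici (ψ s) := by
    refine IsClosed.Icc_subset_of_forall_mem_nhdsWithin ?_ (le_refl (ψ s)) fun w hw => ?_
    · rw [inter_comm]
      exact cψ.preimage_isClosed_of_isClosed isClosed_Icc isClosed_Ici
    · exact (hgt_loc hTip hStep h (hw.2.2.trans v1) ε0).mono fun w' hw' => le_trans hw.1 hw'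
  have k1 : ψ s ≤ ψ v := key (right_mem_Icc.2 (le_max_left _ _))
  have k2 := (hgt_im _ _).trans (hδ v u v1 le_rfl v2)
  have k3 : 0 < (gt η v (η u)).im := (h.hyd v).mg (h.toCurve.mem_D v1)
  have k4 := pow_le_pow_left₀ k3.le k2 2
  have k5 := mul_le_mul_of_nonneg_left (c2.monotone v1.le) (by positivity : 0 ≤ 2 + ε)
  simp only [hψ] at k1
  nlinarith

end Pool.Agent.P.MP_6c8efb_pr.SLE.L
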