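import Pool.Agent.P.MP_6c8efb_pr.SLE.LIface

/-!
Block L of the SLE project: from the Riemann map of the doubled domain to the mapping-out
function (Joukowski map).
-/

namespace Pool.Agent.P.MP_6c8efb_pr.SLE.L

open Set Filter Topology Metric Complex
open scoped NNReal ComplexConjugate

theorem jou_im_eq (s : ℂ) : (s + s⁻¹).im = s.im * (1 - (normSq s)⁻¹) := by
  rw [add_im, inv_im]; ring

theorem jou_fac {s : ℂ} (h1 : ‖s‖ < 1) (h0 : s ≠ 0) : 1 - (normSq s)⁻¹ < 0 := by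
  have hp : 0 < normSq s := normSq_pos.2 h0
  have h2 : normSq s < 1 := by
    rw [normSq_eq_norm_sq]
    nlinarith [norm_nonneg s]
  have := (one_lt_inv₀ hp).2 h2
  linarith

theorem jou_im {s : ℂ} (h1 : ‖s‖ < 1) (h2 : s.im < 0) : 0 < (s + s⁻¹).im := by
  have h0 : s ≠ 0 := fun h => by simp [h] at h2
  rw [jou_im_eq]
  exact mul_pos_of_neg_of_neg h2 (jou_fac h1 h0)

theorem jou_inj {s s' : ℂ} (h1 : ‖s‖ < 1) (h1' : ‖s'‖ < 1) (h0 : s ≠ 0) (h0' : s' ≠ 0)
    (e : s + s⁻¹ = s' + s'⁻¹) : s = s' := by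
  have h : (s - s') * (s * s' - 1) = 0 := by
    field_simp at e
    linear_combination e
  rcases mul_eq_zero.1 h with h | h
  · exact sub_eq_zero.1 h
  · have h2 : ‖s * s'‖ = 1 := by rw [sub_eq_zero.1 h]; simp
    rw [norm_mul] at h2
    nlinarith [norm_nonneg s, norm_nonneg s']

theorem jou_root {s w : ℂ} (hw : 0 < w.im) (h1 : ‖s‖ < 1) (h0 : s ≠ 0) (e : s + s⁻¹ = w) :
    s.im < 0 := by
  rw [← e, jou_im_eq] at hw
  by_contra hc
  have := mul_nonpos_of_nonneg_of_nonpos (not_lt.1 hc) (jou_fac h1 h0).le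
  linarith

theorem jou_surj {w : ℂ} (hw : 0 < w.im) : ∃ s : ℂ, ‖s‖ < 1 ∧ s.im < 0 ∧ s + s⁻¹ = w := by
  obtain ⟨r, hr⟩ := IsAlgClosed.exists_pow_nat_eq (w ^ 2 - 4) (n := 2) (by norm_num)
  have hp : (w + r) / 2 * ((w - r) / 2) = 1 := by linear_combination (-1 / 4 : ℂ) * hr
  set s := (w + r) / 2 with hs
  have h0 : s ≠ 0 := left_ne_zero_of_mul_eq_one hp
  have hi : s⁻¹ = (w - r) / 2 := inv_eq_of_mul_eq_one_right hp
  have e : s + s⁻¹ = w := by rw [hi, hs]; ring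
  rcases lt_trichotomy ‖s‖ 1 with h | h | h
  · exact ⟨s, h, jou_root hw h h0 e, e⟩
  · exfalso
    rw [← e, jou_im_eq, normSq_eq_norm_sq, h] at hw
    simp at hw
  · have h' : ‖s⁻¹‖ < 1 := by rw [norm_inv]; exact inv_lt_one_of_one_lt₀ h
    have e' : s⁻¹ + s⁻¹⁻¹ = w := by rw [inv_inv, add_comm, e]
    exact ⟨s⁻¹, h', jou_root hw h' (inv_ne_zero h0) e', e'⟩

/-- The difference quotient at `0` of a symmetric function is symmetric. -/
theorem jou_sym {U : Set ℂ} {F : ℂ → ℂ} (hU : IsOpen U) (h0 : (0 : ℂ) ∈ U)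
    (hd : DifferentiableOn ℂ F U) (hs : ∀ u ∈ U, F (conj u) = conj (F u)) :
    ∀ u ∈ U, dslope F 0 (conj u) = conj (dslope F 0 u) := by
  have hF0 : conj (F 0) = F 0 := by simpa using (hs 0 h0).symm
  have key : ∀ u ∈ U, u ≠ 0 → dslope F 0 (conj u) = conj (dslope F 0 u) := by
    intro u hu hu0
    have hc : conj u ≠ 0 := by simpa using hu0
    rw [dslope_of_ne _ hc, dslope_of_ne _ hu0, slope_def_field, slope_def_field, hs u hu]
    simp [hF0]
  intro u hu
  by_cases hu0 : u = 0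
  · subst hu0
    have hn := hU.mem_nhds h0
    have hc : ContinuousAt (dslope F 0) 0 :=
      (((differentiableOn_dslope hn).2 hd).differentiableAt hn).continuousAt
    have t1 : Tendsto (fun u : ℂ => dslope F 0 (conj u)) (𝓝[≠] 0) (𝓝 (dslope F 0 0)) := by
      have : Tendsto (fun u : ℂ => conj u) (𝓝 0) (𝓝 0) := by
        simpa using (continuous_conj.tendsto (0 : ℂ))
      exact (hc.tendsto.comp this).mono_left nhdsWithin_le_nhds
    have t2 : Tendsto (fun u : ℂ => conj (dslope F 0 u)) (𝓝[≠] 0) (𝓝 (conj (dslope F 0 0))) :=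
      ((continuous_conj.tendsto _).comp hc.tendsto).mono_left nhdsWithin_le_nhds
    have t3 : Tendsto (fun u : ℂ => dslope F 0 (conj u)) (𝓝[≠] 0) (𝓝 (conj (dslope F 0 0))) := by
      refine t2.congr' ?_
      filter_upwards [self_mem_nhdsWithin, mem_nhdsWithin_of_mem_nhds hn] with u h1 h2
      exact (key u h2 h1).symm
    simpa using tendsto_nhds_unique t1 t3
  · exact key u hu hu0

theorem jou_mul (F : ℂ → ℂ) (u : ℂ) : F u = F 0 + u * dslope F 0 u := by
  have := sub_smul_dslope F 0 u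
  rw [sub_zero, smul_eq_mul] at this
  rw [this]; ring

/-- The expansion of the Joukowski map composed with `ψ` at the origin. -/
theorem jou_exp {U : Set ℂ} {ψ : ℂ → ℂ} {l : ℝ} (hU : IsOpen U) (h0 : (0 : ℂ) ∈ U)
    (hd : DifferentiableOn ℂ ψ U) (hi : InjOn ψ U) (hψ : ψ 0 = 0) (hl : 0 < l)
    (hdl : deriv ψ 0 = l) (hs : ∀ u ∈ U, ψ (conj u) = conj (ψ u)) :
    ∃ (μ a : ℝ) (E : ℂ → ℂ), ContinuousAt E 0 ∧ E 0 = a ∧ ∀ u ∈ U, u ≠ 0 →
      u⁻¹ * (l * (ψ u + (ψ u)⁻¹) + μ - u⁻¹) = E u := by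
  have hn := hU.mem_nhds h0
  have hl' : (l : ℂ) ≠ 0 := by exact_mod_cast hl.ne'
  set q := dslope ψ 0 with hq
  have dq : DifferentiableOn ℂ q U := (differentiableOn_dslope hn).2 hd
  have q0 : q 0 = l := by rw [hq, dslope_same, hdl]
  have eq : ∀ u, ψ u = u * q u := fun u => by rw [jou_mul ψ u, hψ, zero_add]
  have qne : ∀ u ∈ U, q u ≠ 0 := by
    intro u hu hc
    have : u = 0 := hi hu h0 (by rw [eq u, hc, mul_zero, hψ])
    rw [this, q0] at hc
    exact hl' hc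
  have sq : ∀ u ∈ U, q (conj u) = conj (q u) := jou_sym hU h0 hd hs
  set k : ℂ → ℂ := fun u => l / q u with hk
  have dk : DifferentiableOn ℂ k U := (differentiableOn_const _).div dq qne
  have k0 : k 0 = 1 := by simp only [hk, q0]; exact div_self hl'
  have sk : ∀ u ∈ U, k (conj u) = conj (k u) := fun u hu => by simp [hk, sq u hu]
  set k1 := dslope k 0 with hk1
  have dk1 : DifferentiableOn ℂ k1 U := (differentiableOn_dslope hn).2 dk
  have sk1 : ∀ u ∈ U, k1 (conj u) = conj (k1 u) := jou_sym hU h0 dk sk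
  set k2 := dslope k1 0 with hk2
  have dk2 : DifferentiableOn ℂ k2 U := (differentiableOn_dslope hn).2 dk1
  have sk2 : ∀ u ∈ U, k2 (conj u) = conj (k2 u) := jou_sym hU h0 dk1 sk1
  have r1 : ((k1 0).re : ℂ) = k1 0 := conj_eq_iff_re.1 (by simpa using (sk1 0 h0).symm)
  have r2 : ((k2 0).re : ℂ) = k2 0 := conj_eq_iff_re.1 (by simpa using (sk2 0 h0).symm)
  refine ⟨-(k1 0).re, (k2 0).re + l ^ 2, fun u => k2 u + l * q u, ?_, ?_, ?_⟩
  · exact (dk2.differentiableAt hn).continuousAt.add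
      (continuousAt_const.mul (dq.differentiableAt hn).continuousAt)
  · push_cast
    rw [r2, q0]; ring
  · intro u hu hu0
    have e1 : k u = 1 + u * k1 u := by rw [jou_mul k u, k0]
    have e2 : k1 u = k1 0 + u * k2 u := jou_mul k1 u
    have e3 : (l : ℂ) * (ψ u)⁻¹ = u⁻¹ * k u := by
      simp only [hk, eq u, mul_inv]; ring
    push_cast
    rw [r1, mul_add, e3, e1, e2, eq u]
    field_simp
    ring

theorem s_Jou : S_Jou := by
  intro S ψ l hS h0S _ hd hb hψ hl hdl hs him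
  have hU : IsOpen (Om S) := isOpen_Om hS.isBounded hS.isClosed
  have h0 : (0 : ℂ) ∈ Om S := Or.inl rfl
  obtain ⟨μ, a, E, hE, hE0, he⟩ := jou_exp hU h0 hd hb.injOn hψ hl hdl hs
  set D := HH \ (S ∩ HH) with hD
  have hDo : IsOpen D := by
    have : D = HH ∩ Sᶜ := by
      ext z
      simp only [hD, Set.mem_sdiff, mem_inter_iff, mem_compl_iff]
      tauto
    rw [this]; exact isOpen_HH.inter hS.isClosed.isOpen_compl
  have z0 : ∀ z ∈ D, z ≠ 0 := fun z hz h => by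
    have := hz.1
    simp [h, mem_HH] at this
  have zU : ∀ z ∈ D, z⁻¹ ∈ Om S := fun z hz =>
    Or.inr (by rw [inv_inv]; exact fun h => hz.2 ⟨h, hz.1⟩)
  have zim : ∀ z ∈ D, (ψ z⁻¹).im < 0 := fun z hz => by
    rw [him _ (zU z hz), inv_im]
    exact div_neg_of_neg_of_pos (neg_neg_of_pos hz.1) (normSq_pos.2 (z0 z hz))
  have zn : ∀ z ∈ D, ‖ψ z⁻¹‖ < 1 := fun z hz => by simpa using hb.mapsTo (zU z hz)
  have zne : ∀ z ∈ D, ψ z⁻¹ ≠ 0 := fun z hz h => by
    have := zim z hz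
    simp [h] at this
  set g : ℂ → ℂ := fun z => l * (ψ z⁻¹ + (ψ z⁻¹)⁻¹) + μ with hg
  have hl' : (l : ℂ) ≠ 0 := by exact_mod_cast hl.ne'
  have dψ : DifferentiableOn ℂ (fun z => ψ z⁻¹) D :=
    hd.comp (differentiableOn_id.inv z0) zU
  have dg : DifferentiableOn ℂ g D :=
    ((dψ.add (dψ.inv zne)).const_mul _).add_const _
  have mg : MapsTo g D HH := fun z hz => by
    have := jou_im (zn z hz) (zim z hz)
    simp only [hg, mem_HH, add_im (_ * _), im_ofReal_mul, ofReal_im, add_zero]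
    positivity
  have ig : InjOn g D := fun z hz z' hz' e => by
    have e1 := mul_left_cancel₀ hl' (add_right_cancel e)
    have e2 := jou_inj (zn z hz) (zn z' hz') (zne z hz) (zne z' hz') e1
    exact inv_injective (hb.injOn (zU z hz) (zU z' hz') e2)
  have sg : g '' D = HH := by
    refine Subset.antisymm mg.image_subset fun w hw => ?_
    have hw' : 0 < ((w - μ) / l).im := by
      rw [div_ofReal_im]
      have : 0 < w.im := hw
      simpa using div_pos this hl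
    obtain ⟨s, s1, s2, s3⟩ := jou_surj hw'
    obtain ⟨u, hu, rfl⟩ := hb.surjOn (mem_ball_zero_iff.2 s1)
    have u1 : u.im < 0 := (him u hu).1 s2
    have u0 : u ≠ 0 := fun h => by simp [h] at u1
    refine ⟨u⁻¹, ⟨?_, fun h => hu.resolve_left u0 h.1⟩, ?_⟩
    · rw [mem_HH, inv_im]
      exact div_pos (neg_pos.2 u1) (normSq_pos.2 u0)
    · simp only [hg, inv_inv, s3]
      field_simp
      ring
  obtain ⟨f, df, hf⟩ := MP_56bcbf_an.exists_inverse hDo dg ig
  rw [sg] at df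
  have pre : ∀ w ∈ HH, ∃ z ∈ D, g z = w := fun w hw => by rw [← sg] at hw; exact hw
  refine ⟨g, f, a, inter_subset_right, hS.isBounded.subset inter_subset_left, hDo, dg, df, mg,
    fun w hw => ?_, hf, fun w hw => ?_, fun ε hε => ?_, fun R => ?_⟩
  · obtain ⟨z, hz, rfl⟩ := pre w hw
    rw [hf z hz]; exact hz
  · obtain ⟨z, hz, rfl⟩ := pre w hw
    rw [hf z hz]
  · obtain ⟨δ, hδ, h⟩ := Metric.continuousAt_iff.1 hE ε hε
    refine ⟨2 / δ, fun z hz hR => ?_⟩
    have h1 := he z⁻¹ (zU z hz) (inv_ne_zero (z0 z hz))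
    rw [inv_inv] at h1
    have h2 : dist z⁻¹ 0 < δ := by
      rw [dist_zero_right, norm_inv, inv_lt_comm₀ (norm_pos_iff.2 (z0 z hz)) hδ]
      refine lt_of_lt_of_le ?_ hR
      rw [div_eq_mul_inv]
      linarith [inv_pos.2 hδ]
    have h3 := h h2
    rw [hE0, ← h1, dist_eq_norm] at h3
    exact h3.le
  · have he0 : 0 < (|R| + 1)⁻¹ := by positivity
    have h1 : ψ '' (ball 0 (|R| + 1)⁻¹ ∩ Om S) ∈ 𝓝 (ψ 0) :=
      MP_56bcbf_an.nhds_le_map hU hd hb.injOn h0
        (image_mem_map (inter_mem (ball_mem_nhds _ he0) (hU.mem_nhds h0)))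
    rw [hψ] at h1
    obtain ⟨c, hc, h2⟩ := Metric.mem_nhds_iff.1 h1
    refine ⟨l * (1 + c⁻¹) + |μ|, fun z hz hR => ?_⟩
    have h3 : c ≤ ‖ψ z⁻¹‖ := by
      by_contra h
      obtain ⟨u, hu, e⟩ := h2 (mem_ball_zero_iff.2 (not_le.1 h))
      have e' := hb.injOn hu.2 (zU z hz) e
      have h4 := hu.1
      rw [e', mem_ball_zero_iff, norm_inv,
        inv_lt_inv₀ (norm_pos_iff.2 (z0 z hz)) (by positivity)] at h4
      linarith [le_abs_self R]
    have h4 : ‖(ψ z⁻¹)⁻¹‖ ≤ c⁻¹ := by rw [norm_inv]; exact inv_anti₀ hc h3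
    have h5 : ‖ψ z⁻¹ + (ψ z⁻¹)⁻¹‖ ≤ 1 + c⁻¹ :=
      (norm_add_le _ _).trans (add_le_add (zn z hz).le h4)
    refine (norm_add_le _ _).trans (add_le_add ?_ (by simp))
    rw [norm_mul, norm_real, Real.norm_eq_abs, abs_of_pos hl]
    exact mul_le_mul_of_nonneg_left h5 hl.le

end Pool.Agent.P.MP_6c8efb_pr.SLE.L
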