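import Pool.Agent.P.MP_6c8efb_pr.SLE.LIface

/-!
The doubled slit domains of a polygonal curve.
-/

namespace Pool.Agent.P.MP_6c8efb_pr.SLE.L

open Set Filter Topology Metric Complex
open scoped NNReal ComplexConjugate

theorem polyl_univ : CLog univ := by
  intro F hF h0
  have := (convex_univ (𝕜 := ℝ) (E := ℂ)).contractibleSpace univ_nonempty
  obtain ⟨L, h1, h2⟩ := Complex.exists_continuousOn_eqOn_exp_comp
    (show IsSimplyConnected (univ : Set ℂ) from SimplyConnectedSpace.ofContractible _) isOpen_univ hF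
    (by rintro ⟨z, hz, e⟩; exact h0 z hz e)
  exact ⟨L, h1, fun z hz => h2 hz⟩

variable {η : ℝ≥0 → ℂ}

theorem polyl_compact (h : Curve η) (t : ℝ≥0) : IsCompact (dbl η t) := by
  have h1 := (isCompact_Iic' t).image h.cont
  have : dbl η t = η '' Iic t ∪ conj '' (η '' Iic t) := by
    ext z
    refine or_congr Iff.rfl ⟨fun hz => ⟨_, hz, conj_conj z⟩, ?_⟩
    rintro ⟨w, hw, rfl⟩
    simpa using hw
  rw [this]
  exact h1.union (h1.image continuous_conj)

theorem polyl_cone {p d z : ℂ} {c l : ℝ} (hz : z ∈ Cone (conj p) (conj d) c l) :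
    conj z ∈ Cone p d c l := by
  obtain ⟨x, y, h1, h2, h3, rfl⟩ := hz
  exact ⟨-x, y, h1, h2, by rwa [abs_neg], by simp⟩

theorem polyl_seg (hP : Poly η) (k : ℕ) {τ : ℝ≥0} (hτ : τ ≤ 1) :
    segment ℝ (η k) (η k + (τ : ℝ) * (η (k + 1) - η k)) = η '' Icc (k : ℝ≥0) (k + τ) := by
  rw [segment_eq_image']
  ext z
  constructor
  · rintro ⟨s, hs, rfl⟩
    lift s to ℝ≥0 using hs.1
    have h1 : s ≤ 1 := hs.2
    refine ⟨k + s * τ, ⟨le_self_add, ?_⟩, ?_⟩
    · exact add_le_add le_rfl (mul_le_of_le_one_left' h1)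
    · rw [hP k _ (mul_le_one' h1 hτ)]
      simp [mul_assoc]
  · rintro ⟨u, hu, rfl⟩
    obtain ⟨v, rfl⟩ := exists_add_of_le hu.1
    have hv : v ≤ τ := le_of_add_le_add_left hu.2
    refine ⟨v / τ, ⟨by positivity, div_le_one_of_le₀ hv τ.2⟩, ?_⟩
    rw [hP k v (hv.trans hτ)]
    rcases eq_or_ne τ 0 with rfl | h0
    · simp [le_antisymm hv zero_le]
    · have : ((τ : ℝ) : ℂ) ≠ 0 := by exact_mod_cast h0
      simp only [add_sub_cancel_left, real_smul]
      push_cast
      field_simp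

theorem polyl_cseg (p q z : ℂ) : z ∈ segment ℝ (conj p) (conj q) ↔ conj z ∈ segment ℝ p q := by
  constructor
  · rintro ⟨a, b, h1, h2, h3, rfl⟩
    exact ⟨a, b, h1, h2, h3, by simp⟩
  · rintro ⟨a, b, h1, h2, h3, e⟩
    exact ⟨a, b, h1, h2, h3, by simpa using congrArg conj e⟩

theorem polyl_step (hSlit : S_Slit) (hCone : S_Cone) (h : Curve η) (hP : Poly η) (k : ℕ)
    (ih : CLog (Om (dbl η k)) ∧ IsPreconnected (Om (dbl η k))) {τ : ℝ≥0} (hτ : τ ≤ 1) :
    CLog (Om (dbl η (k + τ))) ∧ IsPreconnected (Om (dbl η (k + τ))) := by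
  obtain ⟨c, l, hc, hl, hs⟩ := hCone η h hP k
  have hK := polyl_compact h k
  have hd : η (k + 1) - η k ≠ 0 := fun e => by simpa using h.inj (sub_eq_zero.1 e)
  have h0 : (0 : ℂ) ∈ dbl η k := Or.inl ⟨0, mem_Iic.2 zero_le, h.zero⟩
  have hneg : ∀ z : ℂ, ∀ u, 0 < z.im → η u ≠ conj z := fun z u hz e => by
    have := h.im_nonneg u
    rw [e, conj_im] at this
    linarith
  have A := hSlit _ (η k) _ c l τ hK.isBounded hK.isClosed h0 (Or.inl ⟨k, self_mem_Iic, rfl⟩) hd hc hl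
    τ.2 hτ (Set.disjoint_left.2 fun z hz hz' => hz'.elim (hs hz).2
      fun ⟨u, _, e⟩ => hneg z u (hs hz).1 e) ih.1 ih.2
  rw [polyl_seg hP k hτ] at A
  have hK' := hK.union (isCompact_Icc.image h.cont (s := Icc (k : ℝ≥0) (k + τ)))
  have B := hSlit _ (conj (η k)) (conj (η (k + 1) - η k)) c l τ hK'.isBounded hK'.isClosed
    (Or.inl h0) (Or.inl (Or.inr ⟨k, self_mem_Iic, (conj_conj _).symm⟩)) ((map_ne_zero _).2 hd) hc hl τ.2 hτ
    (Set.disjoint_left.2 fun z hz hz' => by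
      have h1 := hs (polyl_cone hz)
      rcases hz' with (⟨u, _, e⟩ | hz') | ⟨u, _, e⟩
      · exact hneg _ u h1.1 (by simpa using e)
      · exact h1.2 hz'
      · exact hneg _ u h1.1 (by simpa using e)) A.1 A.2
  have e : dbl η (k + τ) = dbl η k ∪ η '' Icc (k : ℝ≥0) (k + τ) ∪ segment ℝ (conj (η k))
      (conj (η k) + (τ : ℝ) * conj (η (k + 1) - η k)) := by
    have e1 : conj (η k) + (τ : ℝ) * conj (η (k + 1) - η k) =
        conj (η k + (τ : ℝ) * (η (k + 1) - η k)) := by simp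
    have e2 : η '' Iic (k + τ) = η '' Iic k ∪ η '' Icc (k : ℝ≥0) (k + τ) := by
      rw [← image_union, Iic_union_Icc_eq_Iic le_self_add]
    ext z
    simp only [dbl, mem_union, mem_ofPred_eq, e1, polyl_cseg, polyl_seg hP k hτ, e2]
    tauto
  rwa [e]

theorem s_PolyL (hSlit : S_Slit) (hCone : S_Cone) : S_PolyL := by
  intro η h hP t
  have key : ∀ k : ℕ, CLog (Om (dbl η k)) ∧ IsPreconnected (Om (dbl η k)) := fun k => by
    induction k with
    | zero =>
      have : Om (dbl η (0 : ℕ)) = univ := eq_univ_of_forall fun u => by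
        by_contra hu
        replace hu : ¬ u = 0 ∧ u⁻¹ ∈ dbl η (0 : ℕ) := by simpa only [Om, mem_ofPred_eq, not_or,
          not_not] using hu
        rcases hu.2 with ⟨v, hv, e⟩ | ⟨v, hv, e⟩
        all_goals
          rw [le_antisymm (show v ≤ 0 by simpa using hv) zero_le, h.zero] at e
          exact hu.1 (by simpa using e.symm)
      rw [this]
      exact ⟨polyl_univ, isPreconnected_univ⟩
    | succ k ih => simpa using polyl_step hSlit hCone h hP k ih le_rfl
  have := polyl_step hSlit hCone h hP ⌊t⌋₊ (key _) (τ := t - ⌊t⌋₊)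
    (tsub_le_iff_left.2 (Nat.lt_floor_add_one t).le)
  rwa [add_tsub_cancel_of_le (Nat.floor_le zero_le)] at this

end Pool.Agent.P.MP_6c8efb_pr.SLE.L
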