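import Pool.Agent.P.MP_6c8efb_pr.SLE.MDefs

/-! Expansion of the crossing formula for distant marked points. -/

open Filter Topology Set

namespace Pool.Agent.P.MP_6c8efb_pr.SLE

namespace ExpA

theorem mv {g g' : ℝ → ℝ} {a h B : ℝ} (hd : ∀ x, |x - a| ≤ |h| → HasDerivAt g (g' x) x)
    (hb : ∀ x, |x - a| ≤ |h| → |g' x| ≤ B) : |g (a + h) - g a| ≤ B * |h| := by
  have := (convex_closedBall a |h|).norm_image_sub_le_of_norm_hasDerivWithin_le (f := g) (f' := g')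
    (C := B) (fun x hx => (hd x hx).hasDerivWithinAt) (fun x hx => hb x hx)
    (Metric.mem_closedBall_self (abs_nonneg h)) (y := a + h)
    (show |a + h - a| ≤ |h| by rw [add_sub_cancel_left])
  simpa using this

theorem taylor {F : ℝ → ℝ} (hF : IsCardy F) : ∃ a₀ a₁ K r : ℝ, a₁ ≠ 0 ∧ 0 ≤ K ∧ 0 < r ∧
    ∀ h, |h| ≤ r → |F (1 / 3 + h) - (a₀ + a₁ * (h - h ^ 2 / 2))| ≤ K * |h| ^ 3 := by
  obtain ⟨κ, hκ, hF⟩ := hF
  set f : ℝ → ℝ := fun x => κ * (x * (1 - x)) ^ (-2 / 3 : ℝ) with hf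
  set f' : ℝ → ℝ := fun x => κ * ((1 - 2 * x) * (-2 / 3) * (x * (1 - x)) ^ (-2 / 3 - 1 : ℝ))
    with hf'
  have hd : ∀ x ∈ Ioo (0 : ℝ) 1, HasDerivAt f (f' x) x := fun x hx => by
    have h1 : HasDerivAt (fun x : ℝ => x * (1 - x)) (1 - 2 * x) x := by
      refine ((hasDerivAt_id' x).fun_mul ((hasDerivAt_id' x).const_sub 1)).congr_deriv ?_
      ring
    exact (h1.rpow_const (Or.inl (mul_pos hx.1 (sub_pos.2 hx.2)).ne')).const_mul κ
  have hc : ContDiffAt ℝ 1 f' (1 / 3) := by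
    refine contDiffAt_const.mul (ContDiffAt.mul (by fun_prop)
      (ContDiffAt.rpow_const_of_ne (by fun_prop) (by norm_num)))
  obtain ⟨K, t, ht, hK⟩ := hc.exists_lipschitzOnWith
  obtain ⟨r, hr, hrt⟩ := Metric.nhds_basis_closedBall.mem_iff.1
    (inter_mem ht (Ioo_mem_nhds (a := 0) (b := 1) (by norm_num) (by norm_num)))
  have e : f' (1 / 3) = -f (1 / 3) := by
    simp only [hf, hf']
    rw [Real.rpow_sub_one (by norm_num)]
    ring
  have h1 : ∀ h, |h| ≤ r → |f (1 / 3 + h) - f (1 / 3) * (1 - h)| ≤ K * |h| ^ 2 := fun h hh => by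
    have := mv (g := fun x => f x + f (1 / 3) * x) (g' := fun x => f' x + f (1 / 3) * 1) (a := 1 / 3)
      (h := h) (B := K * |h|)
      (fun x hx => (hd x (hrt (hx.trans hh)).2).add ((hasDerivAt_id x).const_mul _)) fun x hx => by
        have := hK.dist_le_mul x (hrt (hx.trans hh)).1 (1 / 3)
          (hrt (Metric.mem_closedBall_self hr.le)).1
        rw [Real.dist_eq, Real.dist_eq, e, sub_neg_eq_add] at this
        rw [mul_one]
        exact this.trans (by gcongr)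
    convert this using 1
    · congr 1; ring
    · ring
  refine ⟨F (1 / 3), f (1 / 3), K, r, mul_ne_zero hκ (Real.rpow_pos_of_pos (by norm_num) _).ne',
    K.2, hr, fun h hh => ?_⟩
  have := mv (g := fun x => F x - f (1 / 3) * ((x - 1 / 3) - (x - 1 / 3) ^ 2 / 2))
    (g' := fun x => f x - f (1 / 3) * (1 - (x - 1 / 3))) (a := 1 / 3) (h := h) (B := K * |h| ^ 2)
    (fun x hx => by
      refine (hF x (hrt (hx.trans hh)).2).sub (HasDerivAt.const_mul _ ?_)
      refine (((hasDerivAt_id' x).sub_const (1 / 3)).fun_sub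
        ((((hasDerivAt_id' x).sub_const (1 / 3)).fun_pow 2).div_const 2)).congr_deriv ?_
      norm_num) fun x hx => by
      have := h1 (x - 1 / 3) (hx.trans hh)
      rw [add_sub_cancel] at this
      exact this.trans (by gcongr)
  convert this using 1
  · congr 1; ring
  · ring

theorem ratio {a b e₁ e₂ e₃ z m A : ℝ} (hA : 1 ≤ A) (hz : 0 ≤ z) (hz' : A * z ≤ 1 / 100)
    (hm : z ^ 3 ≤ m) (hm' : A * m ≤ 1 / 50) (ha : |a| ≤ z) (hb : 0 ≤ b) (hb' : b ≤ A * z ^ 2)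
    (h1 : |e₁| ≤ m) (h2 : |e₂| ≤ A * m) (h3 : |e₃| ≤ A * m) {h : ℝ}
    (hh : h = (1 + a + 2 * b + e₁ - e₂) / (3 + 3 * b + e₃ - e₂) - 1 / 3) :
    |h| ≤ z + 6 * (A * m) ∧ |h - h ^ 2 / 2 - (a / 3 + (b - a ^ 2 / 6) / 3)| ≤ 13 * (A * m) := by
  have hm0 : 0 ≤ m := (pow_nonneg hz 3).trans hm
  have hz1 : z ≤ 1 / 100 := by nlinarith
  have hmA : m ≤ A * m := by nlinarith
  have hAz3 : A * z ^ 3 ≤ A * m := by gcongr
  have hbz : b ≤ z / 100 := by nlinarith
  set n := A * m with hn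
  have ha' := abs_le.1 ha
  have h1' := abs_le.1 h1
  have h2' := abs_le.1 h2
  have h3' := abs_le.1 h3
  have hD : 1 ≤ 3 + 3 * b + e₃ - e₂ := by linarith [h2'.2, h3'.1]
  have hbz3 : b * z ≤ n := by nlinarith
  have hd : |h - (a + b) / 3| ≤ 6 * n := by
    have e : h - (a + b) / 3 = (e₁ - e₂ - a * b - b * b - (1 + a + b) * (e₃ - e₂) / 3) /
        (3 + 3 * b + e₃ - e₂) := by
      have hD0 : 3 + 3 * b + e₃ - e₂ ≠ 0 := by linarith
      rw [hh, eq_div_iff hD0, sub_mul, sub_mul, div_mul_cancel₀ _ hD0]; ring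
    rw [e, abs_div, abs_of_pos (by linarith : 0 < 3 + 3 * b + e₃ - e₂)]
    refine (div_le_self (abs_nonneg _) hD).trans ?_
    have k1 : |a * b| ≤ n := by
      rw [abs_mul, abs_of_nonneg hb, mul_comm]
      exact (mul_le_mul_of_nonneg_left ha hb).trans hbz3
    have k2 : b * b ≤ n := (mul_le_mul_of_nonneg_left (by linarith) hb).trans hbz3
    have k3 : |(1 + a + b) * (e₃ - e₂)| ≤ 2 * (2 * n) := by
      rw [abs_mul]
      exact mul_le_mul (abs_le.2 ⟨by linarith [ha'.1], by linarith [ha'.2]⟩)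
        (abs_le.2 ⟨by linarith [h2'.2, h3'.1], by linarith [h2'.1, h3'.2]⟩) (abs_nonneg _) (by norm_num)
    have k1' := abs_le.1 k1
    have k3' := abs_le.1 k3
    have := mul_self_nonneg b
    rw [abs_le]
    constructor <;> linarith [k1'.1, k1'.2, k3'.1, k3'.2, h1'.1, h1'.2, h2'.1, h2'.2]
  have hd' := abs_le.1 hd
  have hn0 : 0 ≤ n := hm0.trans hmA
  refine ⟨abs_le.2 ⟨by linarith [hd'.1, ha'.1], by linarith [hd'.2, ha'.2]⟩, ?_⟩
  have k4 : |(h - a / 3) * (h + a / 3)| ≤ (b + 6 * n) * (z + 6 * n) := by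
    rw [abs_mul]
    exact mul_le_mul (abs_le.2 ⟨by linarith [hd'.1], by linarith [hd'.2]⟩)
      (abs_le.2 ⟨by linarith [hd'.1, ha'.1], by linarith [hd'.2, ha'.2]⟩) (abs_nonneg _)
      (by linarith)
  have k5 : (b + 6 * n) * (z + 6 * n) ≤ 14 * n := by nlinarith
  have k6 := abs_le.1 (k4.trans k5)
  rw [abs_le]
  constructor <;> linarith [k6.1, k6.2, hd'.1, hd'.2]

end ExpA

open ExpA in
theorem expand {F : ℝ → ℝ} (hF : IsCardy F) : ∃ a₀ a₁ : ℝ, a₁ ≠ 0 ∧ ∀ T C : ℝ, 0 ≤ T →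
    ∃ C' ε₀ : ℝ, 0 ≤ C' ∧ 0 < ε₀ ∧ ∀ L ε ρ u W N : ℝ, 1 ≤ L → 0 < ε → ε ≤ ε₀ → 0 ≤ u → u ≤ T →
      |W| ≤ ρ → |N| ≤ 1 → (C * (1 + ρ) ≤ L → NearF F C L ε ρ u W N) →
      |N - (a₀ + a₁ * (W / L / 3 + (u - W ^ 2 / 6) / L ^ 2 / 3))| ≤
        C' * (ε + (1 + ρ) ^ 3 / L ^ 3) := by
  obtain ⟨a₀, a₁, K, r, ha₁, hK, hr, hT⟩ := taylor hF
  refine ⟨a₀, a₁, ha₁, fun T C hT0 => ?_⟩
  set A := |C| + T + 1 with hA
  have hA1 : 1 ≤ A := by linarith [abs_nonneg C]
  set z₀ := min r 1 / (100 * A) with hz₀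
  have hz0 : 0 < z₀ := by positivity
  have hAz : A * z₀ = min r 1 / 100 := by rw [hz₀]; field_simp
  have hr1 := min_le_left r 1
  have hr2 := min_le_right r 1
  have hz01 : z₀ ≤ 1 / 100 := by linarith [le_mul_of_one_le_left hz0.le hA1]
  refine ⟨(1 + K * (28 * A) + |a₁| * (13 * A)) + (1 + |a₀| + |a₁| * (1 + A)) / z₀ ^ 3, z₀,
    by positivity, hz0, fun L ε ρ u W N hL hε hε' hu hu' hW hN hnear => ?_⟩
  have hL0 : 0 < L := by linarith
  have hρ : 0 ≤ ρ := (abs_nonneg _).trans hW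
  set z := (1 + ρ) / L with hz
  have hzp : 0 < z := by positivity
  rw [← div_pow, ← hz]
  have ha : |W / L| ≤ z := by
    rw [abs_div, abs_of_pos hL0, hz]; gcongr; linarith
  have hb : u / L ^ 2 ≤ A * z ^ 2 := by
    rw [hz, div_pow, ← mul_div_assoc]
    gcongr
    have : 1 ≤ (1 + ρ) ^ 2 := one_le_pow₀ (by linarith)
    exact (by linarith [abs_nonneg C] : u ≤ A).trans (le_mul_of_one_le_right (by linarith) this)
  have e0 : (u - W ^ 2 / 6) / L ^ 2 = u / L ^ 2 - (W / L) ^ 2 / 6 := by field_simp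
  have hb0 : 0 ≤ u / L ^ 2 := by positivity
  rw [e0, add_mul]
  rcases le_total z z₀ with hzz | hzz
  · have hAz' : A * z ≤ min r 1 / 100 := by rw [← hAz]; gcongr
    obtain ⟨w, x, y, h1, h2, h3, h4⟩ := hnear (by
      have : 1 + ρ = z * L := by rw [hz]; field_simp
      rw [this, ← mul_assoc]
      refine mul_le_of_le_one_left hL0.le ?_
      have : C * z ≤ A * z := by gcongr; linarith [le_abs_self C]
      linarith)
    have hz3 : z ^ 3 ≤ z := pow_le_of_le_one hzp.le (by linarith) (by norm_num)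
    have hm : A * (ε + z ^ 3) ≤ min r 1 / 50 := by
      have j1 : A * ε ≤ A * z₀ := by gcongr
      have j2 : A * z ^ 3 ≤ A * z := by gcongr
      linarith
    have he : ∀ v : ℝ, |v| ≤ ε + C * (1 + ρ) ^ 3 / L ^ 2 → |v / L| ≤ A * (ε + z ^ 3) := by
      intro v hv
      rw [abs_div, abs_of_pos hL0, div_le_iff₀ hL0]
      have e1 : C * (1 + ρ) ^ 3 / L ^ 2 = C * z ^ 3 * L := by rw [hz]; field_simp
      have e2 : C * z ^ 3 ≤ A * z ^ 3 := by gcongr; linarith [le_abs_self C]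
      have e3 : ε ≤ A * ε * L := (le_mul_of_one_le_left hε.le hA1).trans
        (le_mul_of_one_le_right (by positivity) hL)
      have e4 := mul_le_mul_of_nonneg_right e2 hL0.le
      rw [mul_add, add_mul]
      linarith
    obtain ⟨k1, k2⟩ := ratio (a := W / L) (b := u / L ^ 2) (e₁ := (w - W) / L)
      (e₂ := (x - (-L - 2 * u / L)) / L) (e₃ := (y - (2 * L + u / L)) / L) (m := ε + z ^ 3) hA1
      hzp.le (by linarith) (by linarith) (by linarith) ha hb0 hb (by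
        rw [abs_div, abs_of_pos hL0]
        exact (div_le_self (abs_nonneg _) hL).trans (h1.trans (by linarith [pow_pos hzp 3])))
      (he _ h2) (he _ h3) (h := (w - x) / (y - x) - 1 / 3) (by
        rw [← div_div_div_cancel_right₀ hL0.ne' (w - x)]
        congr 2 <;> field_simp <;> ring)
    set h := (w - x) / (y - x) - 1 / 3 with hh
    set m := ε + z ^ 3 with hm'
    have hm0 : 0 < m := by positivity
    have k3 := hT h (by linarith [le_mul_of_one_le_left hzp.le hA1])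
    rw [hh, add_sub_cancel, ← hh] at k3
    have k4 : |h| ^ 3 ≤ 28 * A * m := by
      have j1 : |h| ^ 3 ≤ (z + 6 * (A * m)) ^ 3 := by gcongr
      have j2 : (z + 6 * (A * m)) ^ 3 ≤ 4 * (z ^ 3 + (6 * (A * m)) ^ 3) := by
        have : 0 ≤ (z + 6 * (A * m)) * (z - 6 * (A * m)) ^ 2 := by positivity
        linarith
      have j3 : (6 * (A * m)) ^ 3 ≤ 6 * (A * m) :=
        pow_le_of_le_one (by positivity) (by linarith) (by norm_num)
      have j4 : z ^ 3 ≤ A * m := (by linarith : z ^ 3 ≤ m).trans (le_mul_of_one_le_left hm0.le hA1)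
      linarith
    have k5 : |a₁ * (h - h ^ 2 / 2 - (W / L / 3 + (u / L ^ 2 - (W / L) ^ 2 / 6) / 3))| ≤
        |a₁| * (13 * (A * m)) := by rw [abs_mul]; gcongr
    have k6 := mul_le_mul_of_nonneg_left k4 hK
    have k7 : 0 ≤ (1 + |a₀| + |a₁| * (1 + A)) / z₀ ^ 3 * m := by positivity
    have k8 : ε ≤ m := by linarith [pow_pos hzp 3]
    rw [abs_le] at h4 k3 k5 ⊢
    constructor <;> linarith [h4.1, h4.2, k3.1, k3.2, k5.1, k5.2, mul_nonneg hK hm0.le]
  · set y := z / z₀ with hy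
    have hy1 : 1 ≤ y := (one_le_div hz0).2 hzz
    have hzy : z ≤ y := by
      rw [hy, le_div_iff₀ hz0]; exact mul_le_of_le_one_right hzp.le (by linarith)
    have y1 : 1 ≤ y ^ 3 := one_le_pow₀ hy1
    have y2 : y ≤ y ^ 3 := le_self_pow₀ hy1 (by norm_num)
    have y3 : z ^ 2 ≤ y ^ 3 := (pow_le_pow_left₀ hzp.le hzy 2).trans (pow_le_pow_right₀ hy1 (by norm_num))
    have k1 : (W / L) ^ 2 ≤ z ^ 2 := by rw [← sq_abs]; gcongr
    have k2 : |W / L / 3 + (u / L ^ 2 - (W / L) ^ 2 / 6) / 3| ≤ (1 + A) * y ^ 3 := by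
      have := abs_le.1 ha
      have : A * z ^ 2 ≤ A * y ^ 3 := by gcongr
      have := sq_nonneg (W / L)
      rw [abs_le]; constructor <;> linarith
    have k3 : |a₁ * (W / L / 3 + (u / L ^ 2 - (W / L) ^ 2 / 6) / 3)| ≤ |a₁| * ((1 + A) * y ^ 3) := by
      rw [abs_mul]; gcongr
    have k4 : (1 + |a₀| + |a₁| * (1 + A)) * y ^ 3 ≤
        (1 + |a₀| + |a₁| * (1 + A)) / z₀ ^ 3 * (ε + z ^ 3) := by
      rw [hy, div_pow, div_mul_eq_mul_div, mul_div_assoc]
      gcongr; linarith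
    have k5 : 0 ≤ (1 + K * (28 * A) + |a₁| * (13 * A)) * (ε + z ^ 3) := by positivity
    have k6 : |a₀| ≤ |a₀| * y ^ 3 := le_mul_of_one_le_right (abs_nonneg _) y1
    rw [abs_le] at hN k3 ⊢
    constructor <;> linarith [hN.1, hN.2, k3.1, k3.2, le_abs_self a₀, neg_abs_le a₀]

end Pool.Agent.P.MP_6c8efb_pr.SLE
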