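import Mathlib

/-! The characterisation of Brownian motion by two martingale identities. -/

open MeasureTheory ProbabilityTheory Filter Topology Finset
open scoped NNReal

namespace Pool.Agent.P.MP_6c8efb_pr.SLE

/-- continuous real paths -/
abbrev PR := C(ℝ≥0, ℝ)

/-- bounded continuous functions of the path up to time `s` -/
def Loc {E : Type} [NormedAddCommGroup E] (s : ℝ≥0) (ψ : PR → E) : Prop :=
  Continuous ψ ∧ (∃ K, ∀ w, ‖ψ w‖ ≤ K) ∧ ∀ w w' : PR, (∀ u ≤ s, w u = w' u) → ψ w = ψ w'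

/-- the two martingale identities -/
structure Mart [MeasurableSpace PR] (μ : Measure PR) (c : ℝ) : Prop where
  sup : ∀ T, ∃ M : PR → ℝ, MemLp M 2 μ ∧ ∀ᵐ w ∂μ, ∀ t ≤ T, |w t| ≤ M w
  m1 : ∀ s t, s ≤ t → ∀ ψ : PR → ℝ, Loc s ψ → ∫ w, ψ w * (w t - w s) ∂μ = 0
  m2 : ∀ s t, s ≤ t → ∀ ψ : PR → ℝ, Loc s ψ →
    ∫ w, ψ w * (w t ^ 2 - w s ^ 2 - c * (t - s)) ∂μ = 0

namespace LevyA

theorem cont_ev (t : ℝ≥0) : Continuous fun w : PR => w t := continuous_eval_const t

theorem rem_le (x : ℝ) : ‖Complex.exp (x * Complex.I) - (1 + x * Complex.I - x ^ 2 / 2)‖ ≤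
    4 * x ^ 2 * min 1 |x| := by
  rcases le_total |x| 1 with h | h
  · have h1 := Complex.exp_bound (x := x * Complex.I) (by simpa using h) (n := 3) (by norm_num)
    have h2 : ∑ m ∈ range 3, (x * Complex.I) ^ m / (m.factorial : ℂ) =
        1 + x * Complex.I - x ^ 2 / 2 := by
      simp [sum_range_succ, Nat.factorial, mul_pow]; ring
    rw [h2] at h1
    rw [min_eq_right h]
    refine h1.trans ?_
    simp only [norm_mul, Complex.norm_real, Real.norm_eq_abs, Complex.norm_I, mul_one]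
    rw [← sq_abs x]
    norm_num [Nat.factorial]
    have : 0 ≤ |x| ^ 3 := by positivity
    nlinarith [sq_abs x]
  · rw [min_eq_left h]
    have h1 : ‖(1 + x * Complex.I - x ^ 2 / 2 : ℂ)‖ ≤ 1 + |x| + x ^ 2 / 2 := by
      refine (norm_sub_le _ _).trans (add_le_add ((norm_add_le _ _).trans ?_) ?_)
      · simp
      · simp
    have h2 := norm_sub_le (Complex.exp (x * Complex.I)) (1 + x * Complex.I - x ^ 2 / 2)
    rw [Complex.norm_exp_ofReal_mul_I] at h2
    nlinarith [sq_abs x]

/-- a continuous cutoff -/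
noncomputable def chi (ε x : ℝ) : ℝ := max 0 (2 * |x| / ε - 1)

/-- the increments along a partition -/
def inc (s h : ℝ≥0) (j : ℕ) (w : PR) : ℝ := w (s + (j + 1 : ℕ) * h) - w (s + j * h)

/-- detects a large increment before step `j` -/
noncomputable def phi (ε : ℝ) (s h : ℝ≥0) (j : ℕ) (w : PR) : ℝ :=
  min 1 (∑ i ∈ range j, chi ε (inc s h i w))

theorem phi_nonneg (ε : ℝ) (s h : ℝ≥0) (j : ℕ) (w : PR) : 0 ≤ phi ε s h j w :=
  le_min zero_le_one (sum_nonneg fun _ _ => le_max_left _ _)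

theorem phi_le (ε : ℝ) (s h : ℝ≥0) (j : ℕ) (w : PR) : phi ε s h j w ≤ 1 := min_le_left _ _

theorem phi_mono (ε : ℝ) (s h : ℝ≥0) (w : PR) {i j : ℕ} (hij : i ≤ j) :
    phi ε s h i w ≤ phi ε s h j w :=
  min_le_min le_rfl (sum_le_sum_of_subset_of_nonneg (range_mono hij) fun _ _ _ => le_max_left _ _)

theorem le_step (s h : ℝ≥0) {i j : ℕ} (hij : i ≤ j) : s + i * h ≤ s + j * h := by
  gcongr

theorem cont_inc (s h : ℝ≥0) (j : ℕ) : Continuous (inc s h j) := (cont_ev _).sub (cont_ev _)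

theorem loc_phi (ε a : ℝ) (s h : ℝ≥0) (j : ℕ) : Loc (s + j * h) fun w => a + phi ε s h j w := by
  refine ⟨continuous_const.add (continuous_const.min (continuous_finsetSum _ fun i _ => ?_)),
    ⟨|a| + 1, fun w => (abs_add_le _ _).trans ?_⟩, fun w w' hw => ?_⟩
  · have := cont_inc s h i
    unfold chi; fun_prop
  · rw [abs_of_nonneg (phi_nonneg ..)]; linarith [phi_le ε s h j w]
  · simp only [phi, inc]
    congr 2
    refine sum_congr rfl fun i hi => ?_
    rw [hw _ (le_step s h (mem_range.1 hi)), hw _ (le_step s h (mem_range.1 hi).le)]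

theorem lind {ε θ M : ℝ} (hε : 0 < ε) (s h : ℝ≥0) (w : PR) (n : ℕ)
    (hM : ∀ t ≤ s + n * h, |w t| ≤ M) :
    ∑ j ∈ range n, 4 * (θ * inc s h j w) ^ 2 * min 1 |θ * inc s h j w| ≤
      4 * θ ^ 2 * (4 * M ^ 2 * phi ε s h n w +
        ∑ j ∈ range n, (ε * |θ| + phi ε s h j w) * inc s h j w ^ 2) := by
  induction n with
  | zero => simp [phi]
  | succ n ih =>
    have h1 := ih fun t ht => hM t (ht.trans (le_step s h n.le_succ))
    rw [sum_range_succ, sum_range_succ]
    set x := inc s h n w with hx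
    have h2 := phi_mono ε s h w n.le_succ
    have h3 := phi_nonneg ε s h n w
    have h4 := phi_le ε s h n w
    have h5 : x ^ 2 * min 1 |θ * x| ≤ 4 * M ^ 2 * (phi ε s h (n + 1) w - phi ε s h n w) +
        (ε * |θ| + phi ε s h n w) * x ^ 2 := by
      have h6 : 0 ≤ ε * |θ| := by positivity
      rcases le_total |x| ε with h7 | h7
      · have h8 : min 1 |θ * x| ≤ ε * |θ| := by
          refine (min_le_right _ _).trans ?_
          rw [abs_mul, mul_comm]; gcongr
        have h9 := mul_le_mul_of_nonneg_left h8 (sq_nonneg x)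
        have : 0 ≤ 4 * M ^ 2 * (phi ε s h (n + 1) w - phi ε s h n w) :=
          mul_nonneg (by positivity) (by linarith)
        nlinarith [mul_nonneg h3 (sq_nonneg x)]
      · have h8 : phi ε s h (n + 1) w = 1 := by
          refine min_eq_left ?_
          rw [sum_range_succ]
          have h9 : 1 ≤ chi ε x := le_max_of_le_right (by
            rw [le_sub_iff_add_le, le_div_iff₀ hε]; linarith)
          have : 0 ≤ ∑ i ∈ range n, chi ε (inc s h i w) := sum_nonneg fun _ _ => le_max_left _ _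
          linarith
        have h9 : |x| ≤ 2 * M := (abs_sub _ _).trans (by
          linarith [hM _ le_rfl, hM _ (le_step s h n.le_succ)])
        have h10 : x ^ 2 ≤ 4 * M ^ 2 := by
          rw [← sq_abs x]; nlinarith [abs_nonneg x]
        have h11 := mul_le_mul_of_nonneg_left (min_le_left 1 |θ * x|) (sq_nonneg x)
        rw [h8]
        nlinarith [mul_nonneg h6 (sq_nonneg x), mul_le_mul_of_nonneg_right h10 (sub_nonneg.2 h4)]
    have h6 := mul_le_mul_of_nonneg_left h5 (by positivity : 0 ≤ 4 * θ ^ 2)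
    nlinarith

theorem phi_zero {ε : ℝ} (hε : 0 < ε) (s d : ℝ≥0) (w : PR) :
    ∀ᶠ n : ℕ in atTop, phi ε s (d / n) n w = 0 := by
  obtain ⟨δ, hδ, h⟩ := Metric.uniformContinuousOn_iff.1
    ((isCompact_Icc (a := 0) (b := s + d)).uniformContinuousOn_of_continuous
      w.continuous.continuousOn) (ε / 2) (by positivity)
  filter_upwards [(tendsto_const_div_atTop_nhds_zero_nat (d : ℝ)).eventually_lt_const hδ,
    eventually_gt_atTop 0] with n hn hn0
  have hn' : (n : ℝ≥0) ≠ 0 := by exact_mod_cast hn0.ne'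
  rw [phi, sum_eq_zero fun i hi => ?_, min_eq_right zero_le_one]
  have h1 : ∀ j ≤ n, s + j * (d / n) ∈ Set.Icc 0 (s + d) := fun j hj =>
    ⟨zero_le, (le_step s _ hj).trans_eq (by rw [mul_div_cancel₀ _ hn'])⟩
  have h2 := h _ (h1 (i + 1) (mem_range.1 hi)) _ (h1 i (mem_range.1 hi).le) (by
    rw [NNReal.dist_eq]
    push_cast
    rw [show (s : ℝ) + (i + 1) * (d / n) - (s + i * (d / n)) = d / n by ring,
      abs_of_nonneg (by positivity)]
    exact hn)
  rw [Real.dist_eq] at h2
  refine max_eq_left ?_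
  rw [sub_nonpos, div_le_one hε, inc]
  linarith

variable [MeasurableSpace PR] [BorelSpace PR] {μ : Measure PR} {c : ℝ}

theorem memLp_ev (h : Mart μ c) (t : ℝ≥0) : MemLp (fun w : PR => w t) 2 μ := by
  obtain ⟨M, hM, h1⟩ := h.sup t
  exact hM.of_le (cont_ev t).aestronglyMeasurable
    (h1.mono fun w hw => (hw t le_rfl).trans (le_abs_self _))

theorem int_mul {E : Type} [NormedRing E] {s : ℝ≥0} {ψ : PR → E} (hψ : Loc s ψ) {f : PR → E}
    (hf : Integrable f μ) : Integrable (fun w => ψ w * f w) μ := by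
  obtain ⟨K, hK⟩ := hψ.2.1
  exact hf.bdd_mul (c := K) hψ.1.aestronglyMeasurable (ae_of_all _ hK)

theorem m1' (h : Mart μ c) {s t : ℝ≥0} (hst : s ≤ t) {ψ : PR → ℝ} (hψ : Loc s ψ) :
    ∫ w, ψ w * (w s * (w t - w s)) ∂μ = 0 := by
  obtain ⟨K, hK⟩ := hψ.2.1
  have h1 : ∀ n : ℕ, Loc s fun w => ψ w * max (-(n : ℝ)) (min n (w s)) := fun n => by
    refine ⟨hψ.1.mul (continuous_const.max (continuous_const.min (cont_ev s))),
      ⟨K * n, fun w => ?_⟩, fun w w' hw => by
        beta_reduce; rw [hψ.2.2 w w' hw, hw s le_rfl]⟩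
    rw [norm_mul]
    refine mul_le_mul (hK w) (abs_le.2 ⟨le_max_left _ _, max_le ?_ (min_le_left _ _)⟩)
      (norm_nonneg _) ((norm_nonneg _).trans (hK w))
    linarith [Nat.cast_nonneg (α := ℝ) n]
  have h2 := int_mul hψ ((memLp_ev h s).integrable_mul ((memLp_ev h t).sub (memLp_ev h s)))
  have h3 := tendsto_integral_of_dominated_convergence (μ := μ)
    (F := fun (n : ℕ) (w : PR) => ψ w * max (-(n : ℝ)) (min n (w s)) * (w t - w s))
    (f := fun w => ψ w * (w s * (w t - w s))) (fun w => ‖ψ w * (w s * (w t - w s))‖)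
    (fun n => ((h1 n).1.mul ((cont_ev t).sub (cont_ev s))).aestronglyMeasurable) h2.norm
    (fun n => ae_of_all _ fun w => by
      rw [mul_assoc, norm_mul, norm_mul, norm_mul, norm_mul]
      gcongr
      have := Nat.cast_nonneg (α := ℝ) n
      rw [Real.norm_eq_abs, Real.norm_eq_abs]
      exact abs_le.2 ⟨le_max_of_le_right (le_min (by linarith [abs_nonneg (w s)]) (neg_abs_le _)),
        max_le (by linarith [abs_nonneg (w s)]) ((min_le_right _ _).trans (le_abs_self _))⟩)
    (ae_of_all _ fun w => by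
      refine tendsto_const_nhds.congr' ?_
      filter_upwards [tendsto_natCast_atTop_atTop.eventually_ge_atTop |w s|] with n hn
      rw [min_eq_right ((le_abs_self _).trans hn), max_eq_right (by linarith [neg_abs_le (w s)]),
        mul_assoc])
  simp only [h.m1 s t hst _ (h1 _)] at h3
  exact tendsto_nhds_unique h3 tendsto_const_nhds

theorem int_sq (h : Mart μ c) (s t : ℝ≥0) : Integrable (fun w : PR => (w t - w s) ^ 2) μ :=
  ((memLp_ev h t).sub (memLp_ev h s)).integrable_sq

variable [IsProbabilityMeasure μ]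

theorem m2' (h : Mart μ c) {s t : ℝ≥0} (hst : s ≤ t) {ψ : PR → ℝ} (hψ : Loc s ψ) :
    ∫ w, ψ w * ((w t - w s) ^ 2 - c * (t - s)) ∂μ = 0 := by
  have h1 : Integrable (fun w : PR => ψ w * (w s * (w t - w s))) μ :=
    int_mul hψ ((memLp_ev h s).integrable_mul ((memLp_ev h t).sub (memLp_ev h s)))
  have h2 : Integrable (fun w : PR => ψ w * (w t ^ 2 - w s ^ 2 - c * (t - s))) μ :=
    int_mul hψ (((memLp_ev h t).integrable_sq.sub (memLp_ev h s).integrable_sq).sub
      (integrable_const (c * (t - s))))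
  have h3 : ∀ w : PR, ψ w * ((w t - w s) ^ 2 - c * (t - s)) =
      ψ w * (w t ^ 2 - w s ^ 2 - c * (t - s)) - 2 * (ψ w * (w s * (w t - w s))) := fun w => by ring
  simp only [h3]
  rw [integral_sub h2 (h1.const_mul 2), integral_const_mul, m1' h hst hψ, h.m2 s t hst ψ hψ]
  simp

omit [IsProbabilityMeasure μ] in
theorem cx {s : ℝ≥0} {f : PR → ℝ} (hf : Integrable f μ)
    (h : ∀ ψ : PR → ℝ, Loc s ψ → ∫ w, ψ w * f w ∂μ = 0) {ψ : PR → ℂ} (hψ : Loc s ψ) :
    ∫ w, ψ w * f w ∂μ = 0 := by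
  have h1 : Integrable (fun w => ψ w * (f w : ℂ)) μ := int_mul hψ hf.ofReal
  obtain ⟨K, hK⟩ := hψ.2.1
  apply Complex.ext
  · have := h (fun w => (ψ w).re) ⟨Complex.continuous_re.comp hψ.1,
      ⟨K, fun w => (Complex.abs_re_le_norm _).trans (hK w)⟩, fun w w' hw => by
        beta_reduce; rw [hψ.2.2 w w' hw]⟩
    rw [← RCLike.re_to_complex, ← integral_re h1]
    simpa using this
  · have := h (fun w => (ψ w).im) ⟨Complex.continuous_im.comp hψ.1,
      ⟨K, fun w => (Complex.abs_im_le_norm _).trans (hK w)⟩, fun w w' hw => by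
        beta_reduce; rw [hψ.2.2 w w' hw]⟩
    rw [← RCLike.im_to_complex, ← integral_im h1]
    simpa using this

theorem one_step (h : Mart μ c) {s t : ℝ≥0} (hst : s ≤ t) {ψ : PR → ℂ} (hψ : Loc s ψ) {K : ℝ}
    (hK : ∀ w, ‖ψ w‖ ≤ K) (θ : ℝ) :
    ‖∫ w, ψ w * Complex.exp ((θ * (w t - w s) : ℝ) * Complex.I) ∂μ -
      (1 - c * θ ^ 2 * (t - s) / 2 : ℝ) * ∫ w, ψ w ∂μ‖ ≤
      K * ∫ w : PR, 4 * (θ * (w t - w s)) ^ 2 * min 1 |θ * (w t - w s)| ∂μ := by
  have i0 : Integrable ψ μ := by simpa using int_mul hψ (integrable_const (μ := μ) (1 : ℂ))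
  have i1 : Integrable (fun w : PR => w t - w s) μ :=
    ((memLp_ev h t).sub (memLp_ev h s)).integrable one_le_two
  have i2 : Integrable (fun w : PR => (w t - w s) ^ 2 - c * (t - s)) μ :=
    (int_sq h s t).sub (integrable_const (c * (t - s)))
  have hc : Continuous fun w : PR => θ * (w t - w s) :=
    continuous_const.mul ((cont_ev t).sub (cont_ev s))
  have i3 : Integrable (fun w : PR => Complex.exp ((θ * (w t - w s) : ℝ) * Complex.I)) μ :=
    Integrable.of_bound (Continuous.aestronglyMeasurable (by fun_prop)) 1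
      (ae_of_all _ fun w => (Complex.norm_exp_ofReal_mul_I _).le)
  have e1 := cx i1 (h.m1 s t hst) hψ
  have e2 := cx i2 (fun ψ hψ => m2' h hst hψ) hψ
  have j1 : Integrable (fun w : PR => ψ w * ((w t - w s : ℝ) : ℂ)) μ := int_mul hψ i1.ofReal
  have j2 : Integrable (fun w : PR => ψ w * (((w t - w s) ^ 2 - c * (t - s) : ℝ) : ℂ)) μ :=
    int_mul hψ i2.ofReal
  have key : ∫ w, ψ w * Complex.exp ((θ * (w t - w s) : ℝ) * Complex.I) ∂μ -
      (1 - c * θ ^ 2 * (t - s) / 2 : ℝ) * ∫ w, ψ w ∂μ =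
      ∫ w, ψ w * (Complex.exp ((θ * (w t - w s) : ℝ) * Complex.I) -
        (1 + (θ * (w t - w s) : ℝ) * Complex.I - ((θ * (w t - w s) : ℝ) : ℂ) ^ 2 / 2)) ∂μ := by
    have : ∀ w : PR, ψ w * (Complex.exp ((θ * (w t - w s) : ℝ) * Complex.I) -
        (1 + (θ * (w t - w s) : ℝ) * Complex.I - ((θ * (w t - w s) : ℝ) : ℂ) ^ 2 / 2)) =
        ψ w * Complex.exp ((θ * (w t - w s) : ℝ) * Complex.I) -
          ((1 - c * θ ^ 2 * (t - s) / 2 : ℝ) * ψ w + (θ * Complex.I) * (ψ w * (w t - w s : ℝ)) -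
            (θ ^ 2 / 2) * (ψ w * ((w t - w s) ^ 2 - c * (t - s) : ℝ))) := fun w => by
      push_cast; ring
    simp only [this]
    rw [integral_sub (int_mul hψ i3)
        (by exact ((i0.const_mul _).add (j1.const_mul _)).sub (j2.const_mul _)),
      integral_sub (by exact (i0.const_mul _).add (j1.const_mul _)) (j2.const_mul _),
      integral_add (i0.const_mul _) (j1.const_mul _), integral_const_mul, integral_const_mul,
      integral_const_mul, e1, e2]
    simp
  rw [key, ← integral_const_mul]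
  refine norm_integral_le_of_norm_le (Integrable.const_mul ?_ _) (ae_of_all _ fun w => ?_)
  · refine ((int_sq h s t).const_mul (4 * θ ^ 2)).mono'
      (Continuous.aestronglyMeasurable (by fun_prop)) (ae_of_all _ fun w => ?_)
    rw [Real.norm_eq_abs, abs_of_nonneg (by positivity)]
    calc _ ≤ 4 * (θ * (w t - w s)) ^ 2 * 1 := by gcongr; exact min_le_left _ _
      _ = _ := by ring
  · rw [norm_mul]
    exact mul_le_mul (hK w) (rem_le _) (norm_nonneg _) ((norm_nonneg _).trans (hK w))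

omit [MeasurableSpace PR] [BorelSpace PR] in
theorem tele {a : ℕ → ℂ} {r : ℕ → ℝ} {q : ℂ} (hq : ‖q‖ ≤ 1)
    (h : ∀ j, ‖a (j + 1) - q * a j‖ ≤ r j) (n : ℕ) : ‖a n - q ^ n * a 0‖ ≤ ∑ j ∈ range n, r j := by
  induction n with
  | zero => simp
  | succ n ih =>
    rw [sum_range_succ, show a (n + 1) - q ^ (n + 1) * a 0 =
      q * (a n - q ^ n * a 0) + (a (n + 1) - q * a n) by ring]
    refine (norm_add_le _ _).trans (add_le_add ?_ (h n))
    rw [norm_mul]
    exact (mul_le_of_le_one_left (norm_nonneg _) hq).trans ih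

theorem sum_rem (h : Mart μ c) (hc : 0 ≤ c) {ε : ℝ} (hε : 0 < ε) (θ : ℝ) (s k : ℝ≥0) (n : ℕ)
    {M : PR → ℝ} (hM : MemLp M 2 μ) (hM' : ∀ᵐ w ∂μ, ∀ t ≤ s + n * k, |w t| ≤ M w) :
    ∑ j ∈ range n, ∫ w : PR, 4 * (θ * inc s k j w) ^ 2 * min 1 |θ * inc s k j w| ∂μ ≤
      4 * θ ^ 2 * (∫ w, (4 * M w ^ 2 + c * (n * k)) * phi ε s k n w ∂μ +
        ε * |θ| * (c * (n * k))) := by
  have iq : ∀ j, Integrable (fun w => inc s k j w ^ 2) μ := fun j => int_sq h _ _
  have i1 : ∀ j, Integrable (fun w : PR =>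
      4 * (θ * inc s k j w) ^ 2 * min 1 |θ * inc s k j w|) μ := fun j => by
    have := cont_inc s k j
    refine ((iq j).const_mul (4 * θ ^ 2)).mono'
      (Continuous.aestronglyMeasurable (by fun_prop)) (ae_of_all _ fun w => ?_)
    rw [Real.norm_eq_abs, abs_of_nonneg (by positivity)]
    calc _ ≤ 4 * (θ * inc s k j w) ^ 2 * 1 := by gcongr; exact min_le_left _ _
      _ = _ := by ring
  have ip : ∀ j, Integrable (phi ε s k j) μ := fun j => by
    simpa using int_mul (loc_phi ε 0 s k j) (integrable_const (μ := μ) (1 : ℝ))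
  have i2 : ∀ j, Integrable (fun w => (ε * |θ| + phi ε s k j w) * inc s k j w ^ 2) μ := fun j =>
    int_mul (loc_phi ε _ s k j) (iq j)
  have i3 : Integrable (fun w => 4 * M w ^ 2 * phi ε s k n w) μ := by
    simpa [mul_comm] using int_mul (loc_phi ε 0 s k n) (hM.integrable_sq.const_mul 4)
  have e : ∀ j ∈ range n, ∫ w, (ε * |θ| + phi ε s k j w) * inc s k j w ^ 2 ∂μ ≤
      c * k * (ε * |θ| + ∫ w, phi ε s k n w ∂μ) := fun j hj => by
    have h1 := m2' h (le_step s k j.le_succ) (loc_phi ε (ε * |θ|) s k j)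
    have h2 : ∀ w : PR, (ε * |θ| + phi ε s k j w) * ((w (s + (j.succ : ℕ) * k) - w (s + j * k)) ^ 2 -
        c * (((s + (j.succ : ℕ) * k : ℝ≥0) : ℝ) - (s + j * k : ℝ≥0))) =
        (ε * |θ| + phi ε s k j w) * inc s k j w ^ 2 - c * k * (ε * |θ| + phi ε s k j w) :=
      fun w => by simp only [inc]; push_cast; ring
    simp only [h2] at h1
    rw [integral_sub (i2 j) (Integrable.const_mul (by exact (integrable_const _).add (ip j)) _),
      sub_eq_zero, integral_const_mul, integral_add (integrable_const _) (ip j)] at h1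
    rw [h1]
    simp only [integral_const, probReal_univ, smul_eq_mul, one_mul]
    gcongr
    · exact ip j
    · exact ip n
    · exact fun w => phi_mono ε s k w (mem_range.1 hj).le
  rw [← integral_finsetSum _ fun j _ => i1 j]
  refine (integral_mono_ae (integrable_finsetSum _ fun j _ => i1 j)
    (Integrable.const_mul (by exact i3.add (integrable_finsetSum _ fun j _ => i2 j)) (4 * θ ^ 2))
    (hM'.mono fun w hw => lind hε s k w n hw)).trans ?_
  rw [integral_const_mul]
  gcongr
  rw [integral_add i3 (integrable_finsetSum _ fun j _ => i2 j), integral_finsetSum _ fun j _ => i2 j]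
  simp only [add_mul]
  rw [integral_add i3 ((ip n).const_mul _), integral_const_mul (c * (n * k))]
  have := sum_le_card_nsmul _ _ _ e
  simp only [add_mul, card_range, nsmul_eq_mul] at this
  linarith

theorem key (h : Mart μ c) (hc : 0 ≤ c) {s t : ℝ≥0} (hst : s ≤ t) {ψ : PR → ℂ} (hψ : Loc s ψ)
    (θ : ℝ) : ∫ w, ψ w * Complex.exp ((θ * (w t - w s) : ℝ) * Complex.I) ∂μ =
      Real.exp (-(c * θ ^ 2 * (t - s) / 2)) * ∫ w, ψ w ∂μ := by
  obtain ⟨d, rfl⟩ := exists_add_of_le hst
  obtain ⟨K, hK⟩ := hψ.2.1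
  have hK0 : 0 ≤ K := (norm_nonneg _).trans (hK 0)
  obtain ⟨M, hM, hM'⟩ := h.sup (s + d)
  set x : ℝ := -(c * θ ^ 2 * d / 2) with hx
  rw [show -(c * θ ^ 2 * (((s + d : ℝ≥0) : ℝ) - s) / 2) = x by rw [hx]; push_cast; ring]
  set A := ∫ w, ψ w * Complex.exp ((θ * (w (s + d) - w s) : ℝ) * Complex.I) ∂μ with hA
  have main : ∀ ε : ℝ, 0 < ε → ‖A - Real.exp x * ∫ w, ψ w ∂μ‖ ≤
      K * (4 * θ ^ 2 * (0 + ε * |θ| * (c * d))) := by
    intro ε hε
    have l1 : Tendsto (fun n : ℕ => ‖A - ((1 + x / n : ℝ) : ℂ) ^ n * ∫ w, ψ w ∂μ‖) atTop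
        (𝓝 ‖A - Real.exp x * ∫ w, ψ w ∂μ‖) := by
      refine (tendsto_const_nhds.sub (Tendsto.mul_const _ ?_)).norm
      simpa only [Function.comp_def, Complex.ofReal_pow] using
        (Complex.continuous_ofReal.tendsto _).comp (Real.tendsto_one_add_div_pow_exp x)
    have l2 : Tendsto (fun n : ℕ => ∫ w, (4 * M w ^ 2 + c * d) * phi ε s (d / n) n w ∂μ) atTop
        (𝓝 0) := by
      have i1 : Integrable (fun w => 4 * M w ^ 2 + c * d) μ :=
        (hM.integrable_sq.const_mul 4).add (integrable_const _)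
      have := tendsto_integral_of_dominated_convergence (μ := μ)
        (F := fun (n : ℕ) w => (4 * M w ^ 2 + c * d) * phi ε s (d / n) n w) (f := fun _ => 0)
        (fun w => ‖4 * M w ^ 2 + c * d‖)
        (fun n => i1.aestronglyMeasurable.mul (by
          simpa using (loc_phi ε 0 s (d / n) n).1.aestronglyMeasurable)) i1.norm
        (fun n => ae_of_all _ fun w => by
          rw [norm_mul]
          exact mul_le_of_le_one_right (norm_nonneg _) (by
            rw [Real.norm_eq_abs, abs_of_nonneg (phi_nonneg ..)]; exact phi_le ..))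
        (ae_of_all _ fun w => tendsto_const_nhds.congr' ((phi_zero hε s d w).mono fun n hn => by
          simp [hn]))
      simpa using this
    refine le_of_tendsto_of_tendsto l1
      (((l2.add_const (ε * |θ| * (c * d))).const_mul (4 * θ ^ 2)).const_mul K) ?_
    filter_upwards [eventually_gt_atTop 0, tendsto_natCast_atTop_atTop.eventually_ge_atTop (-x)]
      with n hn0 hn
    have hn' : (n : ℝ≥0) ≠ 0 := by exact_mod_cast hn0.ne'
    have hnr : (0 : ℝ) < n := by exact_mod_cast hn0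
    have hd : (n : ℝ≥0) * (d / n) = d := mul_div_cancel₀ _ hn'
    have hd' : (n : ℝ) * (d / n : ℝ≥0) = d := by exact_mod_cast hd
    have hx0 : x ≤ 0 := by rw [hx, neg_nonpos]; positivity
    have t1 := tele (a := fun j => ∫ w, ψ w *
        Complex.exp ((θ * (w (s + j * (d / n)) - w s) : ℝ) * Complex.I) ∂μ)
      (r := fun j => K * ∫ w : PR, 4 * (θ * inc s (d / n) j w) ^ 2 *
        min 1 |θ * inc s (d / n) j w| ∂μ) (q := ((1 + x / n : ℝ) : ℂ)) (by
        rw [Complex.norm_real, Real.norm_eq_abs, abs_le]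
        have h1 : x / n ≤ 0 := div_nonpos_of_nonpos_of_nonneg hx0 hnr.le
        have h2 : -1 ≤ x / n := by rw [le_div_iff₀ hnr]; linarith
        constructor <;> linarith) (fun j => by
        have hl : Loc (s + j * (d / n)) fun w : PR => ψ w *
            Complex.exp ((θ * (w (s + j * (d / n)) - w s) : ℝ) * Complex.I) := by
          have := cont_ev s
          have := cont_ev (s + j * (d / n))
          refine ⟨hψ.1.mul (by fun_prop), ⟨K, fun w => ?_⟩, fun w w' hw => ?_⟩
          · rw [norm_mul, Complex.norm_exp_ofReal_mul_I, mul_one]; exact hK w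
          · beta_reduce
            rw [hψ.2.2 w w' fun u hu => hw u (hu.trans le_self_add), hw _ le_rfl, hw s le_self_add]
        have := one_step h (le_step s (d / n) j.le_succ) hl (K := K) (fun w => by
          rw [norm_mul, Complex.norm_exp_ofReal_mul_I, mul_one]; exact hK w) θ
        convert this using 4
        · funext w
          rw [mul_assoc, ← Complex.exp_add]
          congr 2; push_cast; ring
        · rw [hx]; push_cast; ring
        · rfl) n
    simp only [hd, Nat.cast_zero, zero_mul, add_zero, sub_self, mul_zero, Complex.ofReal_zero,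
      Complex.exp_zero, mul_one] at t1
    refine t1.trans ?_
    rw [← mul_sum]
    have t2 := sum_rem h hc hε θ s (d / n) n hM (by rwa [hd])
    rw [hd'] at t2
    exact mul_le_mul_of_nonneg_left t2 hK0
  rw [← sub_eq_zero, ← norm_le_zero_iff]
  have l3 : Tendsto (fun ε : ℝ => K * (4 * θ ^ 2 * (0 + ε * |θ| * (c * d)))) (𝓝[>] 0) (𝓝 0) := by
    refine Tendsto.mono_left (Continuous.tendsto' (by fun_prop) _ _ (by simp)) nhdsWithin_le_nhds
  exact ge_of_tendsto l3 (eventually_mem_nhdsWithin.mono main)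

theorem joint (h : Mart μ c) (hc : 0 ≤ c) (n : ℕ) : ∀ (t : Fin (n + 1) → ℝ≥0), Monotone t →
    ∀ θ : Fin n → ℝ, ∫ w : PR, Complex.exp ((∑ i, θ i * (w (t i.succ) - w (t i.castSucc)) : ℝ) *
      Complex.I) ∂μ = ∏ i, (Real.exp (-(c * θ i ^ 2 * (t i.succ - t i.castSucc) / 2)) : ℂ) := by
  induction n with
  | zero => intro t _ θ; simp
  | succ n ih =>
    intro t ht θ
    have h1 := ih (fun i => t i.castSucc) (fun a b hab => ht (by simpa using hab))
      fun i => θ i.castSucc
    have hl : Loc (t (Fin.last n).castSucc) fun w : PR => Complex.exp ((∑ i : Fin n, θ i.castSucc *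
        (w (t i.succ.castSucc) - w (t i.castSucc.castSucc)) : ℝ) * Complex.I) := by
      have := cont_ev
      refine ⟨by fun_prop, ⟨1, fun w => (Complex.norm_exp_ofReal_mul_I _).le⟩, fun w w' hw => ?_⟩
      beta_reduce
      congr 3
      refine sum_congr rfl fun i _ => ?_
      rw [hw _ (ht (by simp [Fin.le_last])),
        hw _ (ht (Fin.castSucc_le_castSucc_iff.2 (Fin.le_last _)))]
    have h2 := key h hc (ht (Fin.castSucc_le_succ (Fin.last n))) hl (θ (Fin.last n))
    rw [h1] at h2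
    rw [Fin.prod_univ_castSucc, mul_comm]
    convert h2 using 3
    · rw [← Complex.exp_add, Fin.sum_univ_castSucc]
      congr 1; push_cast; simp only [Fin.succ_castSucc]; ring
    · rw [Fin.succ_castSucc]

theorem incr (h : Mart μ c) (hc : 0 ≤ c) {s t : ℝ≥0} (hst : s ≤ t) (a θ : ℝ) :
    charFun (μ.map fun w : PR => a * w t - a * w s) θ =
      Real.exp (-(c * (θ * a) ^ 2 * (t - s) / 2)) := by
  have := cont_ev
  have h1 := key h hc hst (ψ := fun _ => 1) ⟨continuous_const, ⟨1, by simp⟩, fun _ _ _ => rfl⟩ (θ * a)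
  rw [charFun_apply_real, integral_map (Continuous.aemeasurable (by fun_prop))
    (Continuous.aestronglyMeasurable (by fun_prop))]
  simp only [one_mul, integral_const, probReal_univ, one_smul, mul_one] at h1
  rw [← h1]
  congr 1; funext w; congr 2; push_cast; ring

end LevyA

open LevyA in
/-- the characterisation of Brownian motion -/
theorem levy [MeasurableSpace PR] [BorelSpace PR] {μ : Measure PR} [IsProbabilityMeasure μ] {c : ℝ}
    (hc : 0 < c) (h0 : ∀ᵐ w ∂μ, w 0 = 0) (h : Mart μ c) :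
    IsBrownianReal (fun t (w : PR) => (√c)⁻¹ * w t) μ := by
  have := cont_ev
  have hcc : ∀ θ : ℝ, c * (θ * (√c)⁻¹) ^ 2 = θ ^ 2 := fun θ => by
    rw [mul_pow, inv_pow, Real.sq_sqrt hc.le]; field_simp
  refine ⟨HasIndepIncrements.isPreBrownianReal_of_hasLaw (fun t => ⟨?_, ?_⟩) fun n t ht => ?_,
    ae_of_all _ fun w => by fun_prop⟩
  · exact Continuous.aemeasurable (by fun_prop)
  · have e : (fun w : PR => (√c)⁻¹ * w t) =ᵐ[μ] fun w => (√c)⁻¹ * w t - (√c)⁻¹ * w 0 :=
      h0.mono fun w hw => by simp [hw]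
    have : IsProbabilityMeasure (μ.map fun w : PR => (√c)⁻¹ * w t - (√c)⁻¹ * w 0) :=
      Measure.isProbabilityMeasure_map (Continuous.aemeasurable (by fun_prop))
    rw [Measure.map_congr e]
    refine Measure.ext_of_charFun (funext fun θ => ?_)
    rw [incr h hc.le zero_le, charFun_gaussianReal, hcc, Complex.ofReal_exp]
    congr 1; push_cast; ring
  · rw [iIndepFun_iff_charFun_pi fun i => Continuous.aemeasurable (by fun_prop)]
    intro θ
    simp only [fun i : Fin n => incr h hc.le (ht (Fin.castSucc_le_succ i)) (√c)⁻¹ (θ i)]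
    rw [← joint h hc.le n t ht, charFun_apply, integral_map (Continuous.aemeasurable (by fun_prop))
      (Continuous.aestronglyMeasurable (by fun_prop))]
    congr 1; funext w; congr 3
    rw [PiLp.inner_apply]
    exact sum_congr rfl fun i _ => by simp; ring

end Pool.Agent.P.MP_6c8efb_pr.SLE
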