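import Pool.Agent.P.MP_6c8efb_pr.SLE.MExp

/-! The limit of the driving functions satisfies the two martingale identities. -/

open MeasureTheory Filter Topology Set
open scoped NNReal BoundedContinuousFunction

namespace Pool.Agent.P.MP_6c8efb_pr.SLE

namespace MartA

theorem mom (C : ℝ) {c : ℝ} (hc : 0 < c) : ∃ B : ℝ, 0 ≤ B ∧ ∀ (Ω : Type) [MeasurableSpace Ω]
    (P : Measure Ω) (ρ : Ω → ℝ), AEMeasurable ρ P → (∀ᵐ ω ∂P, 0 ≤ ρ ω) →
    (∀ r : ℝ, P {ω | r < ρ ω} ≤ ENNReal.ofReal (C * Real.exp (-c * r))) →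
    Integrable (fun ω => (1 + ρ ω) ^ 3) P ∧ ∫ ω, (1 + ρ ω) ^ 3 ∂P ≤ B := by
  set a : ℕ → ℝ := fun k => ((k : ℝ) + 2) ^ 3 * (|C| * Real.exp (-c * (k - 1))) with ha
  have ha0 : ∀ k, 0 ≤ a k := fun k => by positivity
  have hs : Summable a := by
    refine (((summable_nat_add_iff 2).2 (Real.summable_pow_mul_exp_neg_nat_mul 3 hc)).mul_left
      (|C| * Real.exp (3 * c))).congr fun k => ?_
    have : Real.exp (-c * (k - 1)) = Real.exp (3 * c) * Real.exp (-c * ((k + 2 : ℕ) : ℝ)) := by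
      rw [← Real.exp_add]; congr 1; push_cast; ring
    simp only [ha, this]
    push_cast; ring
  refine ⟨∑' k, a k, tsum_nonneg ha0, fun Ω _ P ρ hρ h0 ht => ?_⟩
  have hm : ∀ k : ℕ, NullMeasurableSet {ω | (k : ℝ) - 1 < ρ ω} P := fun k =>
    nullMeasurableSet_lt aemeasurable_const hρ
  have key : ∫⁻ ω, ENNReal.ofReal ((1 + ρ ω) ^ 3) ∂P ≤ ENNReal.ofReal (∑' k, a k) := by
    rw [ENNReal.ofReal_tsum_of_nonneg ha0 hs]
    calc _ ≤ ∫⁻ ω, ∑' k : ℕ, {ω | (k : ℝ) - 1 < ρ ω}.indicator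
            (fun _ => ENNReal.ofReal (((k : ℝ) + 2) ^ 3)) ω ∂P := by
          refine lintegral_mono_ae (h0.mono fun ω hω => le_trans ?_ (ENNReal.le_tsum ⌊ρ ω⌋₊))
          rw [indicator_of_mem (s := {ω' | (⌊ρ ω⌋₊ : ℝ) - 1 < ρ ω'})
            (show (⌊ρ ω⌋₊ : ℝ) - 1 < ρ ω by linarith [Nat.floor_le hω])]
          exact ENNReal.ofReal_le_ofReal (pow_le_pow_left₀ (by linarith)
            (by linarith [Nat.lt_floor_add_one (ρ ω)]) 3)
      _ ≤ _ := by
          rw [lintegral_tsum fun k => aemeasurable_const.indicator₀ (hm k)]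
          refine ENNReal.tsum_le_tsum fun k => ?_
          rw [lintegral_indicator_const₀ (hm k), ha, ENNReal.ofReal_mul (by positivity)]
          gcongr
          exact (ht _).trans (ENNReal.ofReal_le_ofReal (by gcongr; exact le_abs_self C))
  have hn : 0 ≤ᵐ[P] fun ω => (1 + ρ ω) ^ 3 := h0.mono fun ω hω => by positivity
  have hi : Integrable (fun ω => (1 + ρ ω) ^ 3) P :=
    ⟨((aemeasurable_const.add hρ).pow_const 3).aestronglyMeasurable,
      (hasFiniteIntegral_iff_ofReal hn).2 (key.trans_lt ENNReal.ofReal_lt_top)⟩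
  rw [← ofReal_integral_eq_lintegral_ofReal hi hn] at key
  exact ⟨hi, (ENNReal.ofReal_le_ofReal_iff (tsum_nonneg ha0)).1 key⟩

/-- truncation at level `K` -/
noncomputable def clamp {X : Type} [TopologicalSpace X] (f : X → ℝ) (hf : Continuous f) (K : ℝ) :
    X →ᵇ ℝ :=
  BoundedContinuousFunction.ofNormedAddCommGroup (fun w => max (-|K|) (min (f w) |K|))
    (by fun_prop) |K| fun w => abs_le.2 ⟨le_max_left _ _,
      max_le (by linarith [abs_nonneg K]) (min_le_right _ _)⟩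

theorem clamp_sub {X : Type} [TopologicalSpace X] {f : X → ℝ} (hf : Continuous f) {K g : ℝ} {w : X}
    (hg : 0 ≤ g) (h : |f w| ≤ K + g) : |f w - clamp f hf K w| ≤ g := by
  have := abs_le.1 h
  have := le_abs_self K
  have := abs_nonneg K
  show |f w - max (-|K|) (min (f w) |K|)| ≤ g
  rw [abs_le, max_def, min_def]
  split_ifs <;> constructor <;> linarith

variable {ι Ω X : Type} [MeasurableSpace Ω] [TopologicalSpace X] [MeasurableSpace X]
  [OpensMeasurableSpace X] {P : Measure Ω} [IsProbabilityMeasure P] {l : Filter ι} [l.NeBot]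
  {W : ι → Ω → X} {μ : Measure X} [IsProbabilityMeasure μ]

theorem int_bcf {V : Ω → X} (hV : AEMeasurable V P) (f : X →ᵇ ℝ) : Integrable (fun ω => f (V ω)) P :=
  .of_bound (f.continuous.measurable.comp_aemeasurable hV).aestronglyMeasurable ‖f‖
    (.of_forall fun _ => f.norm_coe_le_norm _)

theorem ui (hW : ∀ δ, AEMeasurable (W δ) P)
    (hw : ∀ f : X →ᵇ ℝ, Tendsto (fun δ => ∫ ω, f (W δ ω) ∂P) l (𝓝 (∫ w, f w ∂μ))) {G : X → ℝ}
    (hG : Continuous G) (h0 : ∀ w, 0 ≤ G w) {B : ℝ}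
    (hB : ∀ᶠ δ in l, Integrable (fun ω => G (W δ ω)) P ∧ ∫ ω, G (W δ ω) ∂P ≤ B) {f : X → ℝ}
    (hf : Continuous f) (hd : ∀ η : ℝ, 0 < η → ∃ K, ∀ w, |f w| ≤ K + η * G w) :
    Integrable f μ ∧ (∀ᶠ δ in l, Integrable (fun ω => f (W δ ω)) P) ∧
      Tendsto (fun δ => ∫ ω, f (W δ ω) ∂P) l (𝓝 (∫ w, f w ∂μ)) := by
  have hk : ∀ (k : ℕ) w, clamp G hG k w = min (G w) k := fun k w => by
    show max (-|(k : ℝ)|) (min (G w) |(k : ℝ)|) = _
    rw [Nat.abs_cast, max_eq_right (le_min (by linarith [h0 w]) (by linarith))]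
  have h1 : ∀ k : ℕ, ∫ w, clamp G hG k w ∂μ ≤ B := fun k =>
    le_of_tendsto (hw _) (hB.mono fun δ hδ => (integral_mono (int_bcf (hW δ) _) hδ.1 fun ω =>
      (hk k _).trans_le (min_le_left _ _)).trans hδ.2)
  have hB0 : 0 ≤ B := hB.exists.elim fun δ hδ => (integral_nonneg fun ω => h0 _).trans hδ.2
  have key : ∫⁻ w, ENNReal.ofReal (G w) ∂μ ≤ ENNReal.ofReal B := by
    refine le_of_tendsto' (lintegral_tendsto_of_tendsto_of_monotone
      (f := fun (k : ℕ) w => ENNReal.ofReal (clamp G hG k w))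
      (fun k => (clamp G hG k).continuous.measurable.ennreal_ofReal.aemeasurable)
      (.of_forall fun w i j hij => ?_) (.of_forall fun w => ?_)) fun k => ?_
    · simp only [hk]
      exact ENNReal.ofReal_le_ofReal (min_le_min le_rfl (by exact_mod_cast hij))
    · refine tendsto_const_nhds.congr' ((eventually_ge_atTop ⌈G w⌉₊).mono fun k hk' => ?_)
      simp only [hk, min_eq_left (Nat.ceil_le.1 hk')]
    · rw [← ofReal_integral_eq_lintegral_ofReal ((clamp G hG k).integrable μ)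
        (.of_forall fun w => (le_min (h0 w) k.cast_nonneg).trans_eq (hk k w).symm)]
      exact ENNReal.ofReal_le_ofReal (h1 k)
  have hi : Integrable G μ := ⟨hG.aestronglyMeasurable,
    (hasFiniteIntegral_iff_ofReal (.of_forall h0)).2 (key.trans_lt ENNReal.ofReal_lt_top)⟩
  rw [← ofReal_integral_eq_lintegral_ofReal hi (.of_forall h0),
    ENNReal.ofReal_le_ofReal_iff hB0] at key
  obtain ⟨K₁, hK₁⟩ := hd 1 one_pos
  have i1 : Integrable f μ := ((integrable_const K₁).add (hi.const_mul 1)).mono'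
    hf.aestronglyMeasurable (.of_forall hK₁)
  have i2 : ∀ᶠ δ in l, Integrable (fun ω => f (W δ ω)) P := hB.mono fun δ hδ =>
    ((integrable_const K₁).add (hδ.1.const_mul 1)).mono'
      (hf.measurable.comp_aemeasurable (hW δ)).aestronglyMeasurable (.of_forall fun ω => hK₁ _)
  refine ⟨i1, i2, Metric.tendsto_nhds.2 fun ε hε => ?_⟩
  set η := ε / (3 * (B + 1)) with hη
  have hη0 : 0 < η := by positivity
  have hηB : η * B < ε / 3 := by
    rw [hη, div_mul_eq_mul_div, div_lt_div_iff₀ (by positivity) (by norm_num)]; nlinarith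
  obtain ⟨K, hK⟩ := hd η hη0
  have hc := fun w => clamp_sub hf (mul_nonneg hη0.le (h0 w)) (hK w)
  filter_upwards [hB, i2, Metric.tendsto_nhds.1 (hw (clamp f hf K)) (ε / 3) (by positivity)]
    with δ h2 h3 h4
  have j1 := norm_integral_le_of_norm_le (f := fun w => f w - clamp f hf K w) (hi.const_mul η)
    (.of_forall hc)
  have j2 := norm_integral_le_of_norm_le (f := fun ω => f (W δ ω) - clamp f hf K (W δ ω))
    (h2.1.const_mul η) (.of_forall fun ω => hc (W δ ω))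
  rw [integral_sub i1 ((clamp f hf K).integrable μ), integral_const_mul] at j1
  rw [integral_sub h3 (int_bcf (hW δ) _), integral_const_mul] at j2
  have j3 := mul_le_mul_of_nonneg_left key hη0.le
  have j4 := mul_le_mul_of_nonneg_left h2.2 hη0.le
  rw [Real.norm_eq_abs, abs_le] at j1 j2
  rw [Real.dist_eq, abs_lt] at h4 ⊢
  constructor <;> linarith [j1.1, j1.2, j2.1, j2.2, h4.1, h4.2]

/-- the maximum of the path up to time `T` -/
noncomputable def sup (T : ℝ≥0) (w : PR) : ℝ := ‖w.restrict (Icc 0 T)‖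

theorem cont_sup (T : ℝ≥0) : Continuous (sup T) := (ContinuousMap.continuous_restrict _).norm

theorem le_sup {T t : ℝ≥0} (h : t ≤ T) (w : PR) : |w t| ≤ sup T w :=
  (w.restrict (Icc 0 T)).norm_coe_le_norm ⟨t, zero_le, h⟩

theorem sup_le {T : ℝ≥0} {w : PR} {ρ : ℝ} (h : ∀ u ≤ T, |w u| ≤ ρ) : sup T w ≤ ρ :=
  (ContinuousMap.norm_le _ ((abs_nonneg _).trans (h 0 zero_le))).2 fun u => h u u.2.2

theorem dom {D x η : ℝ} (hD : 0 ≤ D) (hx : 0 ≤ x) (hη : 0 < η) :
    D * x ^ 2 ≤ D * (D / η) ^ 2 + η * x ^ 3 := by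
  rcases le_total x (D / η) with h | h
  · exact le_add_of_le_of_nonneg (by gcongr) (by positivity)
  · rw [div_le_iff₀ hη] at h
    refine le_add_of_nonneg_of_le (by positivity) ?_
    calc D * x ^ 2 ≤ x * η * x ^ 2 := by gcongr
      _ = _ := by ring

theorem zero {x y D : ℝ} (h : ∀ L : ℝ, 1 ≤ L → |L * x - y| ≤ D / L) : x = 0 ∧ y = 0 := by
  have k : ∀ z E : ℝ, (∀ L : ℝ, 1 ≤ L → |z| ≤ E / L) → z = 0 := fun z E hz =>
    abs_nonpos_iff.1 (ge_of_tendsto (tendsto_const_nhds.div_atTop tendsto_id)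
      ((eventually_ge_atTop 1).mono hz))
  have hx : x = 0 := k x (2 * D) fun L hL => by
    have h1 := abs_le.1 (h L hL)
    have h2 := abs_le.1 (h (2 * L) (by linarith))
    have e : D / (2 * L) = D / L / 2 := by rw [div_div, mul_comm]
    have h3 : |x| ≤ |L * x| := by
      rw [abs_mul, abs_of_pos (by linarith : 0 < L)]
      exact le_mul_of_one_le_left (abs_nonneg _) hL
    rw [e] at h2
    refine h3.trans ?_
    rw [mul_div_assoc, abs_le]
    constructor <;> linarith [h1.1, h1.2, h2.1, h2.2]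
  exact ⟨hx, k y D fun L hL => by simpa [hx] using h L hL⟩

end MartA

open MartA in
theorem mart {ι Ω : Type} [MeasurableSpace Ω] [MeasurableSpace PR] [BorelSpace PR] {P : Measure Ω}
    [IsProbabilityMeasure P] {l : Filter ι} [l.NeBot] {W : ι → Ω → PR} {μ : Measure PR}
    [IsProbabilityMeasure μ] {F : ℝ → ℝ} (hW : ∀ δ, AEMeasurable (W δ) P)
    (hw : ∀ f : PR →ᵇ ℝ, Tendsto (fun δ => ∫ ω, f (W δ ω) ∂P) l (𝓝 (∫ w, f w ∂μ)))
    (hF : IsCardy F) (hA : Approx P l W F) : Mart μ 6 := by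
  obtain ⟨a₀, a₁, ha₁, hE⟩ := expand hF
  have hU : ∀ (T : ℝ≥0) (f : PR → ℝ) (D : ℝ), 0 ≤ D → Continuous f →
      (∀ w, |f w| ≤ D * (1 + sup T w) ^ 2) →
      Integrable f μ ∧ (∀ᶠ δ in l, Integrable (fun ω => f (W δ ω)) P) ∧
        Tendsto (fun δ => ∫ ω, f (W δ ω) ∂P) l (𝓝 (∫ w, f w ∂μ)) := by
    intro T f D hD hf hfD
    obtain ⟨C, c, hc, hT⟩ := hA T
    obtain ⟨B, -, hB⟩ := mom C hc
    have h0 : ∀ w, 0 ≤ 1 + sup T w := fun w => add_nonneg zero_le_one (norm_nonneg _)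
    have hG : Continuous fun w => (1 + sup T w) ^ 3 := (continuous_const.add (cont_sup T)).pow 3
    refine ui (B := B) hW hw hG (fun w => pow_nonneg (h0 w) 3) ?_ hf fun η hη =>
      ⟨_, fun w => (hfD w).trans (dom hD (h0 w) hη)⟩
    filter_upwards [hT 1 1 T T le_rfl one_pos le_rfl le_rfl] with δ ⟨ρ, N, N', h1, _, _, h2, _, h3⟩
    obtain ⟨i1, i2⟩ := hB Ω P ρ h1 (h3.mono fun ω h => (abs_nonneg _).trans (h.1 0 zero_le)) h2
    have h4 : ∀ᵐ ω ∂P, (1 + sup T (W δ ω)) ^ 3 ≤ (1 + ρ ω) ^ 3 := h3.mono fun ω h =>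
      pow_le_pow_left₀ (h0 _) (by linarith [sup_le h.1]) 3
    have i3 : Integrable (fun ω => (1 + sup T (W δ ω)) ^ 3) P := i1.mono'
      (hG.measurable.comp_aemeasurable (hW δ)).aestronglyMeasurable
      (h4.mono fun ω h => (abs_of_nonneg (pow_nonneg (h0 _) 3)).trans_le h)
    exact ⟨i3, (integral_mono_ae i3 i1 h4).trans i2⟩
  have main : ∀ s t : ℝ≥0, s ≤ t → ∀ ψ : PR → ℝ, Loc s ψ →
      ∫ w, ψ w * (w t - w s) ∂μ = 0 ∧ ∫ w, ψ w * (w t ^ 2 - w s ^ 2 - 6 * (t - s)) ∂μ = 0 := by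
    intro s t hst ψ hψ
    obtain ⟨K, hK⟩ := hψ.2.1
    have hK0 : 0 ≤ K := (norm_nonneg _).trans (hK 0)
    have hst' : (s : ℝ) ≤ t := hst
    have c1 := LevyA.cont_ev s
    have c2 := LevyA.cont_ev t
    have c3 := hψ.1
    obtain ⟨-, i1, l1⟩ := hU t (fun w => ψ w * (w t - w s)) (K * 2) (by positivity) (by fun_prop)
      fun w => by
        have j1 := abs_le.1 (le_sup le_rfl w (T := t))
        have j2 := abs_le.1 (le_sup hst w)
        rw [abs_mul, mul_assoc]
        refine mul_le_mul (hK w) (abs_le.2 ⟨?_, ?_⟩) (abs_nonneg _) hK0 <;>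
          nlinarith [j1.1, j1.2, j2.1, j2.2, sq_nonneg (sup t w)]
    obtain ⟨-, i2, l2⟩ := hU t (fun w => ψ w * (w t ^ 2 - w s ^ 2 - 6 * (t - s))) (K * (1 + 6 * t))
      (by positivity) (by fun_prop) fun w => by
        have j0 := (abs_nonneg _).trans (le_sup hst w)
        have j1 := sq_le_sq' (abs_le.1 (le_sup le_rfl w (T := t))).1 (abs_le.1 (le_sup le_rfl w)).2
        have j2 := sq_le_sq' (abs_le.1 (le_sup hst w)).1 (abs_le.1 (le_sup hst w)).2
        have j3 : (t : ℝ) ≤ t * (1 + sup t w) ^ 2 :=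
          le_mul_of_one_le_right t.2 (one_le_pow₀ (by linarith))
        rw [abs_mul, mul_assoc]
        refine mul_le_mul (hK w) (abs_le.2 ⟨?_, ?_⟩) (abs_nonneg _) hK0 <;>
          nlinarith [sq_nonneg (w t), sq_nonneg (w s), s.2, t.2]
    obtain ⟨C, c, hc, hT⟩ := hA t
    obtain ⟨B, hB0, hB⟩ := mom C hc
    obtain ⟨C', ε₀, hC', hε₀, hE'⟩ := hE t C t.2
    set x := ∫ w, ψ w * (w t - w s) ∂μ
    set y := ∫ w, ψ w * (w t ^ 2 - w s ^ 2 - 6 * (t - s)) ∂μ
    have hL : ∀ L : ℝ, 1 ≤ L → ∀ ε, 0 < ε → ε ≤ ε₀ →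
        |a₁ / (3 * L) * x - a₁ / (18 * L ^ 2) * y| ≤ 2 * K * C' * (ε + B / L ^ 3) := by
      intro L hL ε hε hε'
      refine le_of_tendsto ((l1.const_mul _).sub (l2.const_mul _)).abs ?_
      filter_upwards [i1, i2, hT L ε s t hL hε hst le_rfl] with δ j1 j2
        ⟨ρ, N, N', h1, h2, h3, h4, h5, h6⟩
      obtain ⟨j3, j4⟩ := hB Ω P ρ h1 (h6.mono fun ω h => (abs_nonneg _).trans (h.1 0 zero_le)) h4
      have hm := hψ.1.measurable.comp_aemeasurable (hW δ)
      have j5 : Integrable (fun ω => ψ (W δ ω) * N ω) P := .of_bound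
        (hm.mul h2).aestronglyMeasurable (K * 1) (h6.mono fun ω h =>
          (norm_mul_le _ _).trans (mul_le_mul (hK _) h.2.1 (norm_nonneg _) hK0))
      have j6 : Integrable (fun ω => ψ (W δ ω) * N' ω) P := .of_bound
        (hm.mul h3).aestronglyMeasurable (K * 1) (h6.mono fun ω h =>
          (norm_mul_le _ _).trans (mul_le_mul (hK _) h.2.2.1 (norm_nonneg _) hK0))
      have j7 := norm_integral_le_of_norm_le (f := fun ω =>
        a₁ / (3 * L) * (ψ (W δ ω) * (W δ ω t - W δ ω s)) -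
          a₁ / (18 * L ^ 2) * (ψ (W δ ω) * (W δ ω t ^ 2 - W δ ω s ^ 2 - 6 * (t - s))) -
          (ψ (W δ ω) * N' ω - ψ (W δ ω) * N ω))
        (((integrable_const ε).add (j3.div_const (L ^ 3))).const_mul (2 * K * C'))
        (h6.mono fun ω h => by
          have k1 := abs_le.1 (hE' L ε (ρ ω) s _ _ hL hε hε' s.2 hst' (h.1 s hst) h.2.1
            fun hh => (h.2.2.2 hh).1)
          have k2 := abs_le.1 (hE' L ε (ρ ω) t _ _ hL hε hε' t.2 le_rfl (h.1 t le_rfl) h.2.2.1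
            fun hh => (h.2.2.2 hh).2)
          have e : a₁ / (3 * L) * (ψ (W δ ω) * (W δ ω t - W δ ω s)) -
              a₁ / (18 * L ^ 2) * (ψ (W δ ω) * (W δ ω t ^ 2 - W δ ω s ^ 2 - 6 * (t - s))) -
              (ψ (W δ ω) * N' ω - ψ (W δ ω) * N ω) = ψ (W δ ω) *
              ((N ω - (a₀ + a₁ * (W δ ω s / L / 3 + (s - W δ ω s ^ 2 / 6) / L ^ 2 / 3))) -
              (N' ω - (a₀ + a₁ * (W δ ω t / L / 3 + (t - W δ ω t ^ 2 / 6) / L ^ 2 / 3)))) := by
            field_simp; ring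
          rw [e, norm_mul, mul_comm 2, mul_assoc, mul_assoc]
          exact mul_le_mul (hK _) (abs_le.2 ⟨by simp only [Pi.add_apply]; linarith [k1.1, k2.2],
            by simp only [Pi.add_apply]; linarith [k1.2, k2.1]⟩) (norm_nonneg _) hK0)
      rw [integral_sub ((j1.const_mul _).sub' (j2.const_mul _)) (j6.sub' j5), integral_sub j6 j5,
        h5 ψ hψ, sub_self, sub_zero, integral_sub (j1.const_mul _) (j2.const_mul _),
        integral_const_mul, integral_const_mul, integral_const_mul] at j7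
      refine j7.trans ?_
      simp only [Pi.add_apply]
      rw [integral_add (integrable_const ε) (j3.div_const _), integral_div, integral_const,
        probReal_univ, one_smul]
      gcongr
    have := zero (x := 6 * x) (y := y) (D := 36 * K * C' * B / |a₁|) fun L hL1 => by
      have h1 : |a₁ / (3 * L) * x - a₁ / (18 * L ^ 2) * y| ≤ 2 * K * C' * (0 + B / L ^ 3) := by
        refine ge_of_tendsto (x := 𝓝[>] 0) (((tendsto_nhdsWithin_of_tendsto_nhds
          tendsto_id).add_const _).const_mul _) ?_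
        filter_upwards [Ioc_mem_nhdsGT hε₀] with ε hε using hL L hL1 ε hε.1 hε.2
      have h2 : a₁ / (3 * L) * x - a₁ / (18 * L ^ 2) * y = a₁ / (18 * L ^ 2) * (L * (6 * x) - y) := by
        field_simp; ring
      have h3 := abs_pos.2 ha₁
      rw [h2, abs_mul, abs_div, abs_of_pos (by positivity : 0 < 18 * L ^ 2), ← le_div_iff₀'
        (by positivity)] at h1
      refine h1.trans_eq ?_
      field_simp; ring
    exact ⟨by linarith [this.1], this.2⟩
  refine ⟨fun T => ⟨sup T, (memLp_two_iff_integrable_sq (cont_sup T).aestronglyMeasurable).2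
    (hU T (fun w => sup T w ^ 2) 1 zero_le_one ((cont_sup T).pow 2) fun w => ?_).1, .of_forall fun w t ht => le_sup ht w⟩,
    fun s t h ψ hψ => (main s t h ψ hψ).1, fun s t h ψ hψ => (main s t h ψ hψ).2⟩
  have : 0 ≤ sup T w := norm_nonneg _
  rw [abs_of_nonneg (sq_nonneg _)]
  nlinarith

end Pool.Agent.P.MP_6c8efb_pr.SLE
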