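import Pool.Agent.P.MP_6c8efb_pr.SLE.QWalk

/-! Winding sums of closed polygons, and their transfer through a conformal map. -/

open Complex Set Metric
open scoped Real

namespace Pool.Agent.P.MP_6c8efb_pr.SLE

/-- the winding sum of the polygon `p 0, ..., p n` around `w` -/
noncomputable def wn (p : ℕ → ℂ) (n : ℕ) (w : ℂ) : ℂ :=
  ∑ i ∈ Finset.range n, log ((p (i + 1) - w) / (p i - w))

theorem seg_log {p q w : ℂ} {L : ℂ → ℂ} (hL : ContinuousOn L (segment ℝ p q))
    (he : ∀ v ∈ segment ℝ p q, exp (L v) = v - w) : log ((q - w) / (p - w)) = L q - L p := by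
  have hp := left_mem_segment ℝ p q
  have h0 : ∀ v ∈ segment ℝ p q, v - w ≠ 0 := fun v hv => he v hv ▸ exp_ne_zero _
  have hs : ∀ v ∈ segment ℝ p q, (v - w) / (p - w) ∈ slitPlane := fun v hv => by
    by_contra h
    simp only [mem_slitPlane_iff, not_or, not_lt, not_not] at h
    obtain ⟨s, hs⟩ : ∃ s : ℝ, (v - w) / (p - w) = (-s : ℝ) :=
      ⟨-((v - w) / (p - w)).re, Complex.ext (by simp) (by simpa using h.2)⟩
    have h1 : 0 ≤ s := by simpa [hs] using h.1
    have h2 : (1 + s : ℂ) ≠ 0 := by exact_mod_cast (by positivity : 1 + s ≠ 0)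
    rw [div_eq_iff (h0 p hp)] at hs
    refine h0 w ((convex_segment p q).segment_subset hv hp
      ⟨1 / (1 + s), s / (1 + s), by positivity, by positivity, by field_simp, ?_⟩) (sub_self w)
    simp only [real_smul]
    push_cast at hs ⊢
    field_simp
    linear_combination hs
  refine isCoveringMap_exp.eqOn_of_comp_eqOn (g₁ := fun v => log ((v - w) / (p - w)))
    (g₂ := fun v => L v - L p) (convex_segment p q).isPreconnected
    (ContinuousOn.clog (by fun_prop) hs) (hL.sub continuousOn_const) (fun v hv => Subtype.ext ?_) hp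
    (by simp [h0 p hp]) (right_mem_segment ℝ p q)
  simp only [Function.comp_apply]
  rw [exp_log (slitPlane_ne_zero (hs v hv)), exp_sub, he v hv, he p hp]

theorem wn_eq {p : ℕ → ℂ} {n : ℕ} {w : ℂ} {L : ℕ → ℂ → ℂ}
    (hL : ∀ i < n, ContinuousOn (L i) (segment ℝ (p i) (p (i + 1))))
    (he : ∀ i < n, ∀ v ∈ segment ℝ (p i) (p (i + 1)), exp (L i v) = v - w) :
    wn p n w = ∑ i ∈ Finset.range n, (L i (p (i + 1)) - L i (p i)) :=
  Finset.sum_congr rfl fun i hi => seg_log (hL i (Finset.mem_range.1 hi)) (he i (Finset.mem_range.1 hi))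

theorem log_ball {F : ℂ → ℂ} {c : ℂ} {R : ℝ} (hR : 0 < R) (hF : ContinuousOn F (ball c R))
    (h0 : ∀ z ∈ ball c R, F z ≠ 0) :
    ∃ l : ℂ → ℂ, ContinuousOn l (ball c R) ∧ ∀ z ∈ ball c R, exp (l z) = F z := by
  have := (convex_ball c R).contractibleSpace (nonempty_ball.2 hR)
  exact exists_continuousOn_eqOn_exp_comp (U := ball c R)
    (inferInstance : SimplyConnectedSpace (ball c R)) isOpen_ball hF
    (by rintro ⟨z, hz, h⟩; exact h0 z hz h)

variable {φ ψ : ℂ → ℂ} {c₀ : ℂ} {ρ θ R : ℝ} {p : ℕ → ℂ} {a : ℕ → ℝ} {n : ℕ}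

theorem mem_ball_of_near {z : ℂ} {t : ℝ} (hρ : 0 ≤ ρ) (hR : ρ + θ < R)
    (h : ‖z - circleMap c₀ ρ t‖ ≤ θ) : z ∈ ball c₀ R := by
  have h1 := norm_sub_le_norm_sub_add_norm_sub z (circleMap c₀ ρ t) c₀
  rw [circleMap_sub_center, norm_circleMap_zero, abs_of_nonneg hρ] at h1
  exact mem_ball_iff_norm.2 (by linarith)

theorem wn_out (hρ : 0 < ρ) (hθ : 0 ≤ θ) (hR : ρ + θ < R) (hφ : ContinuousOn φ (ball c₀ R))
    (hψ : ∀ z ∈ ball c₀ R, ContinuousAt ψ (φ z)) (hc : p n = p 0)
    (hs : ∀ i < n, ∀ v ∈ segment ℝ (p i) (p (i + 1)),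
      ‖ψ v - circleMap c₀ ρ (a i)‖ ≤ θ ∧ φ (ψ v) = v)
    {w : ℂ} (hw : ∀ z ∈ ball c₀ R, φ z ≠ w) : wn p n w = 0 := by
  obtain ⟨l, h1, h2⟩ := log_ball (F := fun z => φ z - w) (by linarith)
    (hφ.sub continuousOn_const) fun z hz => sub_ne_zero.2 (hw z hz)
  have hb := fun i hi v hv => mem_ball_of_near hρ.le hR (hs i hi v hv).1
  rw [wn_eq (L := fun _ v => l (ψ v)) (fun i hi => h1.comp (fun v hv => by
      simpa only [(hs i hi v hv).2] using (hψ _ (hb i hi v hv)).continuousWithinAt) (hb i hi))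
    fun i hi v hv => by rw [h2 _ (hb i hi v hv), (hs i hi v hv).2],
    Finset.sum_range_sub fun i => l (ψ (p i)), hc, sub_self]

theorem wn_in (hθ : 0 ≤ θ) (hR : ρ + θ < R) (hφ : DifferentiableOn ℂ φ (ball c₀ R))
    (hψ : ∀ z ∈ ball c₀ R, DifferentiableAt ℂ ψ (φ z) ∧ ψ (φ z) = z) (hc : p n = p 0)
    (ha : a n = a 0 + 2 * π) (hg : ∀ i < n, |a (i + 1) - a i| ≤ π)
    (hs : ∀ i < n, ∀ v ∈ segment ℝ (p i) (p (i + 1)),
      ‖ψ v - circleMap c₀ ρ (a i)‖ ≤ θ ∧ φ (ψ v) = v)
    {z : ℂ} (hz : ‖z - c₀‖ < ρ - θ) : wn p n (φ z) = 2 * π * I := by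
  have hρ : 0 < ρ := by linarith [norm_nonneg (z - c₀)]
  have hzb : z ∈ ball c₀ R := mem_ball_iff_norm.2 (by linarith)
  have hn := isOpen_ball.mem_nhds hzb
  obtain ⟨l, h1, h2⟩ := log_ball (F := dslope φ z) (by linarith)
    ((differentiableOn_dslope hn).2 hφ).continuousOn fun y hy => by
      rcases eq_or_ne y z with rfl | h
      · have h3 := ((hψ y hy).1.hasDerivAt.comp y (hφ.differentiableAt hn).hasDerivAt).unique
          ((hasDerivAt_id y).congr_of_eventuallyEq
            (Filter.mem_of_superset hn fun x hx => (hψ x hx).2))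
        rw [dslope_same]
        intro h4
        simp [h4] at h3
      · rw [dslope_of_ne _ h, slope_def_field]
        exact div_ne_zero (sub_ne_zero.2 fun e => h (by rw [← (hψ y hy).2, e, (hψ z hzb).2]))
          (sub_ne_zero.2 h)
  have hb := fun i hi v hv => mem_ball_of_near hρ.le hR (hs i hi v hv).1
  have hne : ∀ t, circleMap 0 ρ t ≠ 0 := fun t => circleMap_ne_center hρ.ne'
  have hre : ∀ t y, ‖y - circleMap c₀ ρ t‖ ≤ θ → 0 < ((y - z) / circleMap 0 ρ t).re := by
    intro t y hy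
    have e : (y - z) / circleMap 0 ρ t =
        1 + (y - circleMap c₀ ρ t - (z - c₀)) / circleMap 0 ρ t := by
      rw [← circleMap_sub_center c₀ ρ t, one_add_div (by rw [circleMap_sub_center]; exact hne t)]
      ring
    have h3 : ‖(y - circleMap c₀ ρ t - (z - c₀)) / circleMap 0 ρ t‖ < 1 := by
      rw [norm_div, norm_circleMap_zero, abs_of_pos hρ, div_lt_one hρ]
      linarith [norm_sub_le (y - circleMap c₀ ρ t) (z - c₀)]
    rw [e, add_re, one_re]
    linarith [(abs_lt.1 ((abs_re_le_norm _).trans_lt h3)).1]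
  set m : ℝ → ℂ → ℂ := fun t y => log ((y - z) / circleMap 0 ρ t) + (Real.log ρ + t * I) with hm
  have hme : ∀ t y, ‖y - circleMap c₀ ρ t‖ ≤ θ → exp (m t y) = y - z := fun t y hy => by
    have h3 := hre t y hy
    rw [hm, exp_add, exp_log fun e => by simp [e] at h3, exp_add, ← ofReal_exp, Real.exp_log hρ,
      ← circleMap_zero, div_mul_cancel₀ _ (hne t)]
  have hmi : ∀ t y, ‖y - circleMap c₀ ρ t‖ ≤ θ → |(m t y).im - t| < π / 2 := fun t y hy => by
    simpa [hm, log_im] using abs_arg_lt_pi_div_two_iff.2 (Or.inl (hre t y hy))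
  have hn0 : 0 < n := Nat.pos_of_ne_zero fun e => by
    rw [e] at ha
    linarith [Real.pi_pos]
  have hv : ∀ i ≤ n, ‖ψ (p i) - circleMap c₀ ρ (a i)‖ ≤ θ := fun i hi => by
    rcases hi.eq_or_lt with rfl | h
    · rw [hc, ha, periodic_circleMap]
      exact (hs 0 hn0 _ (left_mem_segment ..)).1
    · exact (hs i h _ (left_mem_segment ..)).1
  have hstep : ∀ i < n, m (a i) (ψ (p (i + 1))) = m (a (i + 1)) (ψ (p (i + 1))) := fun i hi => by
    have h3 := (hs i hi _ (right_mem_segment ..)).1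
    obtain ⟨k, hk⟩ := exp_eq_exp_iff_exists_int.1 ((hme _ _ h3).trans (hme _ _ (hv _ hi)).symm)
    have h4 := abs_lt.1 (hmi _ _ h3)
    have h5 := abs_lt.1 (hmi _ _ (hv _ hi))
    have h6 := abs_le.1 (hg i hi)
    have h7 := congrArg im hk
    simp only [add_im, mul_im, mul_re, intCast_re, intCast_im, re_ofNat, im_ofNat, ofReal_re,
      ofReal_im, I_re, I_im] at h7
    have h8 : (k : ℝ) < 1 := by nlinarith [Real.pi_pos]
    have h9 : (-1 : ℝ) < k := by nlinarith [Real.pi_pos]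
    have : k = 0 := by
      have h10 : k < 1 := by exact_mod_cast h8
      have h11 : -1 < k := by exact_mod_cast h9
      omega
    simpa [this] using hk
  have hψc : ∀ i < n, ContinuousOn ψ (segment ℝ (p i) (p (i + 1))) := fun i hi v hv => by
    simpa only [(hs i hi v hv).2] using (hψ _ (hb i hi v hv)).1.continuousAt.continuousWithinAt
  rw [wn_eq (L := fun i v => l (ψ v) + m (a i) (ψ v)) (fun i hi => (h1.comp (hψc i hi) (hb i hi)).add
      ((((hψc i hi).sub continuousOn_const).div_const _ |>.clog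
        fun v hv => Or.inl (hre _ _ (hs i hi v hv).1)).add continuousOn_const))
    fun i hi v hv => by
      rw [exp_add, h2 _ (hb i hi v hv), hme _ _ (hs i hi v hv).1, mul_comm, ← smul_eq_mul,
        sub_smul_dslope, (hs i hi v hv).2],
    Finset.sum_congr rfl fun i hi => by rw [hstep i (Finset.mem_range.1 hi)],
    Finset.sum_range_sub fun i => l (ψ (p i)) + m (a i) (ψ (p i)), hc, ha, hm]
  simp only [periodic_circleMap 0 ρ (a 0)]
  push_cast
  ring

end Pool.Agent.P.MP_6c8efb_pr.SLE
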