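import Pool.Agent.P.MP_6c8efb_pr.SLE.UReg
import Pool.Agent.P.MP_6c8efb_pr.SLE.QWind

/-! The index of a cell with respect to a closed lattice walk; the domain bounded by a simple
closed walk. -/

open Complex Set Metric Filter Topology
open scoped Real

namespace Pool.Agent.P.MP_6c8efb_pr.SLE

variable {c : ℕ → V} {n : ℕ}

/-- the index of the cell `y` with respect to the closed walk `c 0, ..., c n` -/
def idx (c : ℕ → V) (n : ℕ) (y : V) : ℤ := ∑ i ∈ Finset.range n,
  if (c i).1 ≤ y.1 then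
    (if (c i).2 = y.2 + 1 ∧ (c (i + 1)).2 = y.2 then 1
    else if (c i).2 = y.2 ∧ (c (i + 1)).2 = y.2 + 1 then -1 else 0)
  else 0

/-- the net number of passages from `v` in the direction `e` -/
def fl (c : ℕ → V) (n : ℕ) (v : V) (e : Fin 4) : ℤ := ∑ i ∈ Finset.range n,
  ((if c i = v ∧ c (i + 1) = v + u e then 1 else 0) - if c i = v + u e ∧ c (i + 1) = v then 1 else 0)

theorem idx_jump (hs : ∀ i < n, ∃ d, c (i + 1) = c i + u d) (hc : c n = c 0) (v : V) (e : Fin 4) :
    idx c n (fc v (e + 1)) - idx c n (fc v e) = fl c n v e := by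
  have h := Finset.sum_range_sub (fun i => if (c i).2 = v.2 then
    (if e = 0 ∧ (c i).1 ≤ v.1 then 1 else if e = 2 ∧ (c i).1 < v.1 then -1 else 0) else (0 : ℤ)) n
  rw [hc, sub_self] at h
  rw [idx, idx, fl, ← Finset.sum_sub_distrib, ← sub_eq_zero, ← Finset.sum_sub_distrib]
  refine Eq.trans (Finset.sum_congr rfl fun i hi => ?_) h
  obtain ⟨d, hd⟩ := hs i (Finset.mem_range.1 hi)
  rw [hd]
  generalize c i = p
  obtain ⟨a, b⟩ := p
  obtain ⟨x, y⟩ := v
  clear h hd
  rcases cases4 e with rfl | rfl | rfl | rfl <;> rcases cases4 d with rfl | rfl | rfl | rfl <;>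
    simp only [a01, a11, a21, a31, fc0, fc1, fc2, fc3, u0, u1, u2, u3, Prod.mk_add_mk,
      Prod.mk.injEq, Fin.reduceEq, true_and, false_and, if_false] <;> grind

theorem fl_zero {v : V} {e : Fin 4} (h1 : ∀ i < n, c i = v → c (i + 1) ≠ v + u e)
    (h2 : ∀ i < n, c i = v + u e → c (i + 1) ≠ v) : fl c n v e = 0 :=
  Finset.sum_eq_zero fun i hi => by
    rw [if_neg fun h => h1 i (Finset.mem_range.1 hi) h.1 h.2,
      if_neg fun h => h2 i (Finset.mem_range.1 hi) h.1 h.2, sub_self]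

theorem succ_eq (hc : c n = c 0) (hi : InjOn c (Iio n)) {i j : ℕ} (h1 : i < n) (h2 : j < n)
    (h : c (i + 1) = c j) : j = i + 1 ∨ j = 0 ∧ i + 1 = n := by
  rcases (Nat.succ_le_of_lt h1).eq_or_lt with e | e
  · exact Or.inr ⟨hi h2 (show 0 < n by omega) (by rw [← h, ← hc]; exact congrArg c e), e⟩
  · exact Or.inl (hi e h2 h).symm

theorem fl_one (hc : c n = c 0) (hi : InjOn c (Iio n)) (hn : 3 ≤ n) {i : ℕ} {d : Fin 4}
    (h : i < n) (hd : c (i + 1) = c i + u d) : fl c n (c i) d = 1 := by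
  rw [fl, Finset.sum_sub_distrib, Finset.sum_eq_single i, if_pos ⟨rfl, hd⟩, Finset.sum_eq_zero,
    sub_zero]
  · refine fun j hj => if_neg fun e => ?_
    have h1 := succ_eq hc hi h (Finset.mem_range.1 hj) (hd.trans e.1.symm)
    have h2 := succ_eq hc hi (Finset.mem_range.1 hj) h e.2
    omega
  · exact fun j hj e => if_neg fun e' => e (hi (Finset.mem_range.1 hj) h e'.1)
  · exact fun e => absurd (Finset.mem_range.2 h) e

theorem u_inj_q {d e : Fin 4} (h : u d = u e) : d = e := by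
  rcases cases4 e with rfl | rfl | rfl | rfl <;> rcases cases4 d with rfl | rfl | rfl | rfl <;>
    simp at h ⊢

/-- the index of a simple closed walk takes two values -/
theorem jordan (hs : ∀ i < n, ∃ d, c (i + 1) = c i + u d) (hc : c n = c 0) (hi : InjOn c (Iio n))
    (hn : 3 ≤ n) : ∃ L : ℤ, ∀ y, idx c n y = L ∨ idx c n y = L - 1 := by
  choose! d hd using hs
  have hj := idx_jump (fun i hi => ⟨_, hd i hi⟩) hc
  have h1 : ∀ i < n, idx c n (fc (c i) (d i + 1)) = idx c n (fc (c 0) (d 0 + 1)) := fun i h => by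
    induction i with
    | zero => rfl
    | succ i ih =>
      have h2 : ∀ e, e ≠ d i + 2 → e ≠ d (i + 1) →
          idx c n (fc (c (i + 1)) (e + 1)) = idx c n (fc (c (i + 1)) e) := fun e h2 h3 => by
        rw [← sub_eq_zero, hj]
        refine fl_zero (fun j hj e1 e2 => h3 ?_) fun j hj e1 e2 => h2 ?_
        · rw [hi hj h e1, hd _ h] at e2
          exact (u_inj_q (add_left_cancel e2)).symm
        · rw [show j = i by have := succ_eq hc hi hj h e2; omega,
            ← u_back (c i) (d i), ← hd i (by omega)] at e1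
          exact (u_inj_q (add_left_cancel e1)).symm
      have h4 : d (i + 1) ≠ d i + 2 := fun e => by
        have h5 := hd _ h
        rw [e, hd i (by omega), u_back] at h5
        have := succ_eq hc hi h (show i < n by omega) h5
        omega
      rw [← ih (by omega), ← fc_step' (c i), ← hd i (by omega)]
      revert h2 h4
      generalize d (i + 1) = e
      generalize d i = e'
      intro h2 h4
      have k0 := h2 0
      have k1 := h2 1
      have k2 := h2 2
      have k3 := h2 3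
      rcases cases4 e with rfl | rfl | rfl | rfl <;> rcases cases4 e' with rfl | rfl | rfl | rfl <;>
        simp_all
  refine ⟨_, fun y => all_vertices (p := fun y => idx c n y = idx c n (fc (c 0) (d 0 + 1)) ∨
    idx c n y = idx c n (fc (c 0) (d 0 + 1)) - 1) (fun f e h => ?_) (Or.inl rfl) y⟩
  obtain ⟨v, e', h2, h3, -⟩ := face_step f e
  by_cases h4 : ∃ i < n, c i = v ∧ c (i + 1) = v + u e'
  · obtain ⟨i, h4, rfl, h5⟩ := h4
    rw [← h3, u_inj_q (add_left_cancel (h5.symm.trans (hd i h4)))]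
    exact Or.inl (h1 i h4)
  by_cases h5 : ∃ i < n, c i = v + u e' ∧ c (i + 1) = v
  · obtain ⟨i, h5, h6, h7⟩ := h5
    have h8 := hj (c i) (d i)
    rw [fl_one hc hi hn h5 (hd i h5), h1 i h5] at h8
    have h9 : d i = e' + 2 :=
      u_inj_q (add_left_cancel ((hd i h5).symm.trans (by rw [h7, h6, u_back])))
    rw [h9, h6, fc_step', h3] at h8
    omega
  · have h6 := hj v e'
    rw [fl_zero (fun i hi e1 e2 => h4 ⟨i, hi, e1, e2⟩) fun i hi e1 e2 => h5 ⟨i, hi, e1, e2⟩,
      h2, h3] at h6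
    omega

theorem idx_finite (hs : ∀ i < n, ∃ d, c (i + 1) = c i + u d) (hc : c n = c 0) :
    {y | idx c n y ≠ 0}.Finite := by
  obtain ⟨M, hM⟩ : ∃ M : ℤ, ∀ i ≤ n, |(c i).1| ≤ M ∧ |(c i).2| ≤ M := by
    obtain ⟨M, hM⟩ := ((finite_Iic n).image fun i => max |(c i).1| |(c i).2|).bddAbove
    exact ⟨M, fun i hi => max_le_iff.1 (hM ⟨i, hi, rfl⟩)⟩
  refine (Rc_finite (-M) M (-M) M).subset fun y hy => by_contra fun h => hy ?_
  have h0 := Finset.sum_range_sub (fun i => if (c i).2 ≤ y.2 ∧ M < y.1 then (1 : ℤ) else 0) n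
  rw [hc, sub_self] at h0
  rw [← h0]
  refine Finset.sum_congr rfl fun i hi => ?_
  obtain ⟨d, hd⟩ := hs i (Finset.mem_range.1 hi)
  have h1 := hM i (Finset.mem_range.1 hi).le
  have h2 := hM (i + 1) (Finset.mem_range.1 hi)
  have h3 := lip_snd (c i) d
  rw [← hd] at h3
  simp only [abs_le, mem_Rc] at h h1 h2 h3
  split_ifs <;> omega

theorem exists_dom {dir : ℕ → Fin 4} (hn : 3 ≤ n) (hs : ∀ i, c (i + 1) = c i + u (dir i))
    (hp : ∀ i, dir (i + n) = dir i) (hc : c n = c 0) (hi : InjOn c (Iio n))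
    (h1 : ∃ y, idx c n y = 1) : ∃ P : Cardy.Dom, P.n = n ∧ P.c = c ∧ P.dir = dir ∧
      ∀ y, y ∈ P.D ↔ idx c n y = 1 := by
  have hs' : ∀ i < n, ∃ d, c (i + 1) = c i + u d := fun i _ => ⟨_, hs i⟩
  have hf := idx_finite hs' hc
  obtain ⟨L, hL⟩ := jordan hs' hc hi hn
  obtain ⟨y1, h1⟩ := h1
  obtain ⟨y0, h0⟩ := hf.infinite_compl.nonempty
  have hv : ∀ y, idx c n y = 0 ∨ idx c n y = 1 := fun y => by
    have h2 := hL y
    have h3 := hL y1
    have h4 := hL y0
    simp only [mem_compl_iff, mem_ofPred_eq, not_not] at h0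
    omega
  have hD : ∀ y, y ∈ hf.toFinset ↔ idx c n y = 1 := fun y => by
    have := hv y
    simp only [Finite.mem_toFinset, mem_ofPred_eq]
    omega
  have hcp : ∀ i, c (i + n) = c i := fun i => by
    induction i with
    | zero => simpa using hc
    | succ i ih => rw [Nat.add_right_comm, hs, hs, ih, hp]
  refine ⟨⟨hf.toFinset, n, c, dir, by omega, hs, hp, hc, fun i h j h' e => hi h h' e,
    fun v d => ?_⟩, rfl, rfl, rfl, hD⟩
  have h2 := idx_jump hs' hc v d
  have h3 := hv (fc v (d + 1))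
  have h4 := hv (fc v d)
  rw [hD, hD]
  constructor
  · intro h
    by_contra h5
    have : fl c n v d ≤ 0 := Finset.sum_nonpos fun i _ => by
      rw [if_neg fun e => h5 ⟨i, e.1, u_inj_q (add_left_cancel (e.1 ▸ (hs i).symm.trans e.2))⟩]
      split_ifs <;> norm_num
    omega
  · rintro ⟨i, rfl, rfl⟩
    rw [← Function.Periodic.map_mod_nat hcp i, ← Function.Periodic.map_mod_nat hp i] at h2 h3 h4 ⊢
    rw [fl_one hc hi hn (Nat.mod_lt _ (by omega)) (hs _)] at h2
    omega

theorem step_log (p y : V) (d : Fin 4) {w : ℂ} (h1 : w.re = y.1 + 1 / 2) (h2 : w.im = y.2 + 1 / 2) :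
    log ((cx (p + u d) - w) / (cx p - w)) = log (cx (p + u d) - w) - log (cx p - w) +
      2 * π * I * (if p.1 ≤ y.1 then (if p.2 = y.2 + 1 ∧ (p + u d).2 = y.2 then 1
        else if p.2 = y.2 ∧ (p + u d).2 = y.2 + 1 then -1 else 0) else 0 : ℤ) := by
  have k1 := lip_fst p d
  have k2 := lip_snd p d
  have k3 : (p + u d).1 = p.1 ∨ (p + u d).2 = p.2 := by
    rcases cases4 d with rfl | rfl | rfl | rfl <;> simp
  generalize p + u d = q at *
  rw [abs_le] at k1 k2
  have up : ∀ x : V, y.2 + 1 ≤ x.2 → w.im < (cx x).im := fun x h => by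
    have : (y.2 + 1 : ℝ) ≤ x.2 := by exact_mod_cast h
    simp only [cx]; linarith
  have dn : ∀ x : V, x.2 ≤ y.2 → (cx x).im < w.im := fun x h => by
    have : (x.2 : ℝ) ≤ y.2 := by exact_mod_cast h
    simp only [cx]; linarith
  have plain : ∀ S : Set ℂ, Convex ℝ S → cx p ∈ S → cx q ∈ S → (∀ v ∈ S, v - w ∈ slitPlane) →
      log ((cx q - w) / (cx p - w)) = log (cx q - w) - log (cx p - w) := fun S hS a b h =>
    seg_log (L := fun v => log (v - w))
      (ContinuousOn.clog (by fun_prop) fun v hv => h v (hS.segment_subset a b hv))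
      fun v hv => exp_log (slitPlane_ne_zero (h v (hS.segment_subset a b hv)))
  by_cases a1 : y.1 + 1 ≤ p.1 ∧ y.1 + 1 ≤ q.1
  · have rt : ∀ x : V, y.1 + 1 ≤ x.1 → w.re < (cx x).re := fun x h => by
      have : (y.1 + 1 : ℝ) ≤ x.1 := by exact_mod_cast h
      simp only [cx]; linarith
    rw [plain _ (convex_halfSpace_re_gt w.re) (rt p a1.1) (rt q a1.2) fun v hv =>
      Or.inl (by simpa using hv), if_neg (by omega)]
    simp
  by_cases a2 : y.2 + 1 ≤ p.2 ∧ y.2 + 1 ≤ q.2
  · rw [plain _ (convex_halfSpace_im_gt w.im) (up p a2.1) (up q a2.2) fun v hv =>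
      Or.inr (by simpa [sub_eq_zero] using ne_of_gt hv), if_neg (show ¬ (_ ∧ _) by omega),
      if_neg (show ¬ (_ ∧ _) by omega)]
    simp
  by_cases a3 : p.2 ≤ y.2 ∧ q.2 ≤ y.2
  · rw [plain _ (convex_halfSpace_im_lt w.im) (dn p a3.1) (dn q a3.2) fun v hv =>
      Or.inr (by simpa [sub_eq_zero] using ne_of_lt hv), if_neg (show ¬ (_ ∧ _) by omega),
      if_neg (show ¬ (_ ∧ _) by omega)]
    simp
  have lf : ∀ x : V, x.1 ≤ y.1 → (cx x).re < w.re := fun x h => by
    have : (x.1 : ℝ) ≤ y.1 := by exact_mod_cast h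
    simp only [cx]; linarith
  have h : ∀ v ∈ segment ℝ (cx p) (cx q), -(v - w) ∈ slitPlane := fun v hv => Or.inl (by
    simpa using (convex_halfSpace_re_lt w.re).segment_subset (lf p (by omega)) (lf q (by omega)) hv)
  have e1 : ∀ z : ℂ, 0 < z.im → log (-z) + π * I = log z := fun z hz => by
    rw [log, log, arg_neg_eq_arg_sub_pi_of_im_pos hz, norm_neg]; push_cast; ring
  have e2 : ∀ z : ℂ, z.im < 0 → log (-z) + π * I = log z + 2 * π * I := fun z hz => by
    rw [log, log, arg_neg_eq_arg_add_pi_of_im_neg hz, norm_neg]; push_cast; ring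
  rw [seg_log (L := fun v => log (-(v - w)) + π * I)
    ((ContinuousOn.clog (by fun_prop) h).add continuousOn_const) fun v hv => by
      rw [exp_add, exp_log (slitPlane_ne_zero (h v hv)), exp_pi_mul_I]; ring, if_pos (by omega)]
  by_cases a4 : p.2 = y.2 + 1 ∧ q.2 = y.2
  · rw [if_pos a4, e2 _ (by simpa using dn q a4.2.le), e1 _ (by simpa using up p a4.1.ge)]
    push_cast; ring
  · rw [if_neg a4, if_pos (by omega), e1 _ (by simpa using up q (by omega)),
      e2 _ (by simpa using dn p (by omega))]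
    push_cast; ring

theorem wn_idx (hs : ∀ i < n, ∃ d, c (i + 1) = c i + u d) (hc : c n = c 0) (y : V) {w : ℂ}
    (h1 : w.re = y.1 + 1 / 2) (h2 : w.im = y.2 + 1 / 2) :
    wn (fun i => cx (c i)) n w = 2 * π * I * idx c n y := by
  have h := Finset.sum_range_sub (fun i => log (cx (c i) - w)) n
  rw [hc, sub_self] at h
  rw [wn, idx, Int.cast_sum, Finset.mul_sum, ← zero_add (Finset.sum _ fun i => 2 * π * I * _), ← h,
    ← Finset.sum_add_distrib]
  refine Finset.sum_congr rfl fun i hi => ?_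
  obtain ⟨d, hd⟩ := hs i (Finset.mem_range.1 hi)
  rw [hd]
  exact step_log _ y d h1 h2

end Pool.Agent.P.MP_6c8efb_pr.SLE
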