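import Pool.Agent.P.MP_6c8efb_pr.Defs

/-! A simple closed lattice walk following a closed curve. -/

open Complex Set

namespace Pool.Agent.P.MP_6c8efb_pr.SLE

/-- a lattice point as a complex number -/
def zc (x : V) : ℂ := ⟨x.1, x.2⟩

/-- a closed lazy walk following the curve `γ` once around -/
structure Fol (γ : ℝ → ℂ) (T : ℝ) (n : ℕ) (c : ℕ → V) (a : ℕ → ℝ) : Prop where
  cl : c n = c 0
  per : a n = a 0 + T
  a0 : 0 ≤ a 0
  le : ∀ i < n, a i ≤ T
  st : ∀ i < n, |(c (i + 1)).1 - (c i).1| + |(c (i + 1)).2 - (c i).2| ≤ 1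
  mono : ∀ i < n, a i ≤ a (i + 1)
  gap : ∀ i < n, a (i + 1) ≤ a i + T / 2
  near : ∀ i ≤ n, ‖zc (c i) - γ (a i)‖ ≤ 2

theorem floor_near {x y : ℝ} (h : |x - y| ≤ 1 / 2) : |⌊x⌋ - ⌊y⌋| ≤ 1 := by
  obtain ⟨h1, h2⟩ := abs_le.1 h
  have h3 : ⌊x⌋ ≤ ⌊y + 1⌋ := Int.floor_le_floor (by linarith)
  have h4 : ⌊y⌋ ≤ ⌊x + 1⌋ := Int.floor_le_floor (by linarith)
  rw [Int.floor_add_one] at h3 h4
  rw [abs_le]
  omega

theorem exists_fol {γ : ℝ → ℂ} {T : ℝ} (hT : 0 < T) (hγ : Continuous γ)
    (hp : Function.Periodic γ T) : ∃ n c a, Fol γ T n c a := by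
  obtain ⟨δ, hδ, h⟩ := Metric.uniformContinuousOn_iff_le.1
    ((isCompact_Icc (a := 0) (b := 2 * T)).uniformContinuousOn_of_continuous hγ.continuousOn)
    (1 / 2) (by norm_num)
  obtain ⟨N, hN⟩ := exists_nat_ge (T / δ + 2)
  have hN2 : (2 : ℝ) ≤ N := by linarith [div_pos hT hδ]
  have hs : 0 < T / N := by positivity
  have hs1 : T / N ≤ δ := by
    rw [div_le_iff₀ (by positivity), mul_comm, ← div_le_iff₀ hδ]; linarith
  have hs2 : T / N ≤ T / 2 := by gcongr
  have hs3 : N * (T / N) = T := by field_simp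
  set s := T / N
  have hk : ∀ j k : ℕ, j ≤ N → j ≤ k → k ≤ j + 1 → ‖γ (k * s) - γ (j * s)‖ ≤ 1 / 2 := by
    intro j k hj h1 h2
    have h3 : (j : ℝ) ≤ N := by exact_mod_cast hj
    have h4 : (j : ℝ) ≤ k := by exact_mod_cast h1
    have h5 : (k : ℝ) ≤ j + 1 := by exact_mod_cast h2
    rw [← dist_eq_norm]
    refine h _ ⟨by positivity, by nlinarith⟩ _ ⟨by positivity, by nlinarith⟩ ?_
    rw [Real.dist_eq, abs_le]
    constructor <;> nlinarith
  have hre : ∀ j k : ℕ, j ≤ N → j ≤ k → k ≤ j + 1 → |(γ (k * s)).re - (γ (j * s)).re| ≤ 1 / 2 :=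
    fun j k hj h1 h2 => (abs_re_le_norm (_ - _)).trans (hk j k hj h1 h2)
  have him : ∀ j k : ℕ, j ≤ N → j ≤ k → k ≤ j + 1 → |(γ (k * s)).im - (γ (j * s)).im| ≤ 1 / 2 :=
    fun j k hj h1 h2 => (abs_im_le_norm (_ - _)).trans (hk j k hj h1 h2)
  have e1 : (2 * N + 1) / 2 = N := by omega
  have e2 : 2 * N / 2 = N := by omega
  have e3 : γ T = γ 0 := by simpa using hp 0
  refine ⟨2 * N, fun i => (⌊(γ (((i + 1) / 2 : ℕ) * s)).re⌋, ⌊(γ ((i / 2 : ℕ) * s)).im⌋),
    fun i => (i / 2 : ℕ) * s, by simp [e1, e2, hs3, e3], by simp [hs3], by simp,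
    fun i hi => ?_, fun i hi => ?_, fun i hi => ?_, fun i hi => ?_, fun i hi => ?_⟩
  · rw [← hs3]
    gcongr
    omega
  · rcases Nat.even_or_odd' i with ⟨k, rfl | rfl⟩
    · have h1 : (2 * k + 1) / 2 = 2 * k / 2 := by omega
      simp only [h1, sub_self, abs_zero, add_zero]
      exact floor_near (hre _ _ (by omega) (by omega) (by omega))
    · have h1 : (2 * k + 1 + 1 + 1) / 2 = (2 * k + 1 + 1) / 2 := by omega
      simp only [h1, sub_self, abs_zero, zero_add]
      exact floor_near (him _ _ (by omega) (by omega) (by omega))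
  · gcongr
    omega
  · have : (((i + 1) / 2 : ℕ) : ℝ) ≤ (i / 2 : ℕ) + 1 := by exact_mod_cast (by omega)
    nlinarith
  · have h1 := abs_le.1 (hre (i / 2) ((i + 1) / 2) (by omega) (by omega) (by omega))
    have h2 := Int.floor_le (γ (((i + 1) / 2 : ℕ) * s)).re
    have h3 := Int.lt_floor_add_one (γ (((i + 1) / 2 : ℕ) * s)).re
    have h4 := Int.floor_le (γ ((i / 2 : ℕ) * s)).im
    have h5 := Int.lt_floor_add_one (γ ((i / 2 : ℕ) * s)).im
    rw [← sq_le_sq₀ (norm_nonneg _) zero_le_two, Complex.sq_norm, normSq_apply]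
    simp only [zc, sub_re, sub_im]
    nlinarith [h1.1, h1.2]

theorem Fol.le_of_le {γ : ℝ → ℂ} {T : ℝ} {n : ℕ} {c : ℕ → V} {a : ℕ → ℝ} (h : Fol γ T n c a)
    {i j : ℕ} (hij : i ≤ j) (hj : j ≤ n) : a i ≤ a j := by
  induction j, hij using Nat.le_induction with
  | base => exact le_rfl
  | succ k _ ih => exact (ih (by omega)).trans (h.mono k (by omega))

theorem norm_zc_le {x y : V} (h : |x.1 - y.1| + |x.2 - y.2| ≤ 1) : ‖zc x - zc y‖ ≤ 1 :=
  (norm_le_abs_re_add_abs_im _).trans (by simp only [zc, sub_re, sub_im]; exact_mod_cast h)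

/-- a closed curve whose far apart parameters have far apart values is followed by a simple
closed lattice walk -/
theorem exists_walk {γ : ℝ → ℂ} {T θ : ℝ} (hT : 0 < T) (hθ : 4 * θ ≤ T) (hγ : Continuous γ)
    (hp : Function.Periodic γ T)
    (hs : ∀ s t, s ≤ t → t ≤ s + T → ‖γ t - γ s‖ ≤ 5 → t - s ≤ θ ∨ T - θ ≤ t - s) :
    ∃ n c a, Fol γ T n c a ∧ (∀ i < n, ∃ d, c (i + 1) = c i + u d) ∧
      (∀ i < n, ∀ j < n, c i = c j → i = j) ∧ ∀ i < n, a (i + 1) ≤ a i + θ := by
  classical
  have hex := exists_fol hT hγ hp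
  obtain ⟨c, a, h⟩ := Nat.find_spec hex
  have hmin : ∀ m < Nat.find hex, ∀ c a, ¬ Fol γ T m c a := fun m hm c a h =>
    Nat.find_min hex hm ⟨c, a, h⟩
  set n := Nat.find hex
  have hcl : ∀ i ≤ n, ∀ j ≤ n, ‖zc (c j) - zc (c i)‖ ≤ 1 → ‖γ (a j) - γ (a i)‖ ≤ 5 := by
    intro i hi j hj h1
    have := norm_sub_le_norm_sub_add_norm_sub (γ (a j)) (zc (c j)) (γ (a i))
    have := norm_sub_le_norm_sub_add_norm_sub (zc (c j)) (zc (c i)) (γ (a i))
    linarith [h.near i hi, h.near j hj, norm_sub_rev (γ (a j)) (zc (c j))]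
  have hg : ∀ i < n, a (i + 1) ≤ a i + θ := fun i hi => by
    have h1 := h.gap i hi
    rcases hs _ _ (h.mono i hi) (by linarith) (hcl i hi.le _ hi (norm_zc_le (h.st i hi))) with h2 | h2
    · linarith
    · linarith
  have key : ∀ i j, i < j → j < n → c i ≠ c j := by
    intro i j hij hj e
    have h0 := h.le_of_le (Nat.zero_le i) (by omega)
    have h1 := h.le_of_le hij.le hj.le
    have h2 := h.le_of_le hj.le le_rfl
    have h3 := h.per
    rcases hs _ _ h1 (by linarith) (hcl i (by omega) j hj.le (by simp [e])) with h4 | h4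
    · have e1 : n - (j - i) + (j - i) = n := by omega
      refine hmin (n - (j - i)) (by omega) (fun k => c (if k ≤ i then k else k + (j - i)))
        (fun k => a (if k ≤ i then k else k + (j - i))) ⟨?_, ?_, by simpa using h.a0,
        fun k hk => h.le _ (by split_ifs <;> omega), fun k hk => ?_,
        fun k hk => h.le_of_le (by split_ifs <;> omega) (by split_ifs <;> omega), fun k hk => ?_,
        fun k hk => h.near _ (by split_ifs <;> omega)⟩
      · simp only [Nat.zero_le, if_true]
        rw [if_neg (by omega), e1, h.cl]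
      · simp only [Nat.zero_le, if_true]
        rw [if_neg (by omega), e1, h.per]
      · rcases lt_trichotomy k i with h5 | rfl | h5
        · simpa only [if_pos h5.le, if_pos (Nat.succ_le_of_lt h5)] using h.st k (by omega)
        · simpa only [le_refl, if_true, if_neg (Nat.not_succ_le_self k), e,
            show k + 1 + (j - k) = j + 1 by omega] using h.st j hj
        · simpa only [if_neg h5.not_ge, if_neg (show ¬ k + 1 ≤ i by omega), Nat.add_right_comm k 1]
            using h.st (k + (j - i)) (by omega)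
      · rcases lt_trichotomy k i with h5 | rfl | h5
        · simpa only [if_pos h5.le, if_pos (Nat.succ_le_of_lt h5)] using h.gap k (by omega)
        · simp only [le_refl, if_true, if_neg (Nat.not_succ_le_self k),
            show k + 1 + (j - k) = j + 1 by omega]
          linarith [hg j hj]
        · simpa only [if_neg h5.not_ge, if_neg (show ¬ k + 1 ≤ i by omega), Nat.add_right_comm k 1]
            using h.gap (k + (j - i)) (by omega)
    · have e1 : j - i + i = j := by omega
      refine hmin (j - i) (by omega) (fun k => c (k + i))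
        (fun k => if k < j - i then a (k + i) else a i + T) ⟨by simp [e1, e], by simp [hij],
        by simpa [hij] using h.a0.trans h0, fun k hk => ?_, fun k hk => ?_, fun k hk => ?_,
        fun k hk => ?_, fun k hk => ?_⟩
      · simpa only [if_pos hk] using h.le _ (by omega)
      · simpa only [Nat.add_right_comm k 1] using h.st (k + i) (by omega)
      · simp only [if_pos hk]
        split_ifs
        · exact h.le_of_le (by omega) (by omega)
        · linarith [h.le (k + i) (by omega), h.a0]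
      · simp only [if_pos hk]
        split_ifs
        · simpa only [Nat.add_right_comm k 1] using h.gap (k + i) (by omega)
        · have h5 := hg (k + i) (by omega)
          rw [show k + i + 1 = j by omega] at h5
          linarith
      · split_ifs
        · exact h.near _ (by omega)
        · rw [show k + i = j by omega, hp, ← e]
          exact h.near _ (by omega)
  have hinj : ∀ i < n, ∀ j < n, c i = c j → i = j := fun i hi j hj e => by
    rcases lt_trichotomy i j with h1 | h1 | h1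
    · exact absurd e (key i j h1 hj)
    · exact h1
    · exact absurd e.symm (key j i h1 hi)
  refine ⟨n, c, a, h, fun i hi => ?_, hinj, hg⟩
  have hne : c (i + 1) ≠ c i := fun e => by
    rcases (Nat.succ_le_of_lt hi).eq_or_lt with h1 | h1
    · have h2 : i = 0 := hinj i hi 0 (by omega) (by rw [← e, ← h.cl]; exact congrArg c h1)
      have h3 := h.gap i hi
      rw [show i + 1 = n from h1, h.per, h2] at h3
      linarith
    · exact absurd (hinj _ h1 _ hi e) (by omega)
  have h1 := h.st i hi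
  have h2 : ¬ ((c (i + 1)).1 = (c i).1 ∧ (c (i + 1)).2 = (c i).2) := fun e => hne (Prod.ext e.1 e.2)
  simp only [Fin.exists_fin_succ, u, Matrix.cons_val_zero, Matrix.cons_val_succ, IsEmpty.exists_iff,
    or_false, Prod.ext_iff, Prod.fst_add, Prod.snd_add]
  rcases abs_cases ((c (i + 1)).1 - (c i).1) with h4 | h4 <;>
    rcases abs_cases ((c (i + 1)).2 - (c i).2) with h5 | h5 <;> omega

end Pool.Agent.P.MP_6c8efb_pr.SLE
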