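import Pool.Agent.P.MP_6c8efb_pr.SLE.LDefs
import Pool.Agent.P.MP_6c8efb_pr.Lat

/-! Polygonal curves through simple lattice walks and the paths that hug them. -/

namespace Pool.Agent.P.MP_6c8efb_pr.SLE.DW

open Set Complex Metric L
open scoped NNReal

/-- a lattice point as a complex number -/
def tc (v : V) : ℂ := v.1 + v.2 * I

/-- the unit vectors -/
def ua (d : Fin 4) : ℂ := tc (u d)

@[simp] theorem tc_re (v : V) : (tc v).re = v.1 := by simp [tc]
@[simp] theorem tc_im (v : V) : (tc v).im = v.2 := by simp [tc]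
theorem tc_add (v w : V) : tc (v + w) = tc v + tc w := by simp [tc]; ring
@[simp] theorem ua0 : ua 0 = 1 := by simp [ua, tc]
@[simp] theorem ua1 : ua 1 = I := by simp [ua, tc]
@[simp] theorem ua2 : ua 2 = -1 := by simp [ua, tc]
@[simp] theorem ua3 : ua 3 = -I := by simp [ua, tc]

theorem ua_add (d e : Fin 4) : ua (d + e) = ua d * ua e := by
  have e3 : ∀ d : Fin 4, d + 3 = d - 1 := by decide
  rcases cases4 d with rfl | rfl | rfl | rfl <;> rcases cases4 e with rfl | rfl | rfl | rfl <;>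
    simp [e3]

theorem norm_ua (d : Fin 4) : ‖ua d‖ = 1 := by
  rcases cases4 d with rfl | rfl | rfl | rfl <;> simp

theorem ua_ne (d : Fin 4) : ua d ≠ 0 := fun h => by simpa [h] using norm_ua d

/-- the point with coordinates `x`, `y` in the frame at `v` in direction `e` -/
noncomputable def pt (h : ℝ) (v : V) (e : Fin 4) (x y : ℝ) : ℂ := h * (tc v + (x + y * I) * ua e)

theorem dirs {x y σ : ℝ} {d e : Fin 4} (h : (x + y * I) * ua e = σ * ua d) :
    (x = 0 ∨ y = 0) ∧ (0 < x → (0 < σ ∧ e = d) ∨ (σ < 0 ∧ e = d + 2)) := by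
  obtain ⟨m, rfl⟩ : ∃ m, d = e + m := ⟨d - e, by abel⟩
  rw [ua_add, mul_comm (ua e), ← mul_assoc] at h
  have h' := mul_right_cancel₀ (ua_ne e) h
  have e2 : e + 2 + 2 = e := (by decide : ∀ e : Fin 4, e + 2 + 2 = e) e
  rcases cases4 m with rfl | rfl | rfl | rfl <;> simp [Complex.ext_iff] at h' <;>
    obtain ⟨h1, h2⟩ := h'
  · exact ⟨.inr h2, fun hx => .inl ⟨h1 ▸ hx, by simp⟩⟩
  · exact ⟨.inl h1, fun hx => absurd h1 hx.ne'⟩
  · exact ⟨.inr h2, fun hx => .inr ⟨by linarith, e2.symm⟩⟩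
  · exact ⟨.inl h1, fun hx => absurd h1 hx.ne'⟩

theorem near {v p : V} {d : Fin 4} {w : ℂ} {τ : ℝ} (h0 : 0 ≤ τ) (h1 : τ ≤ 1) (hr : |w.re| < 1)
    (hi : |w.im| < 1) (h : tc v + w = tc p + τ * ua d) :
    (v = p ∧ w = τ * ua d) ∨ (v = p + u d ∧ w = (τ - 1 : ℝ) * ua d) := by
  have key : v = p ∨ v = p + u d := by
    obtain ⟨a, b⟩ := v
    obtain ⟨a', b'⟩ := p
    rw [abs_lt] at hr hi
    have l : ∀ m n : ℤ, (m : ℝ) < n + 1 → m ≤ n := fun m n h => by
      have : m < n + 1 := by exact_mod_cast h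
      omega
    have l2 : ∀ m n : ℤ, (m : ℝ) < n + 2 → m ≤ n + 1 := fun m n h => by
      have : m < n + 2 := by exact_mod_cast h
      omega
    rcases cases4 d with rfl | rfl | rfl | rfl <;> simp [Complex.ext_iff] at h <;>
      obtain ⟨h2, h3⟩ := h <;> simp only [u0, u1, u2, u3, Prod.mk_add_mk, Prod.mk.injEq]
    · have := l a' a (by linarith); have := l2 a a' (by linarith)
      have := l b b' (by linarith); have := l b' b (by linarith); omega
    · have := l b' b (by linarith); have := l2 b b' (by linarith)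
      have := l a a' (by linarith); have := l a' a (by linarith); omega
    · have := l a a' (by linarith); have := l2 a' a (by linarith)
      have := l b b' (by linarith); have := l b' b (by linarith); omega
    · have := l b b' (by linarith); have := l2 b' b (by linarith)
      have := l a a' (by linarith); have := l a' a (by linarith); omega
  rcases key with rfl | rfl
  · exact .inl ⟨rfl, add_left_cancel h⟩
  · refine .inr ⟨rfl, ?_⟩
    rw [tc_add] at h
    push_cast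
    unfold ua at h ⊢
    linear_combination h

theorem frame_lt {x y : ℝ} (hx : |x| < 1) (hy : |y| < 1) (e : Fin 4) :
    |((x + y * I) * ua e).re| < 1 ∧ |((x + y * I) * ua e).im| < 1 := by
  rcases cases4 e with rfl | rfl | rfl | rfl <;> simp [hx, hy]

theorem norm_pt_sub {h : ℝ} (hh : 0 ≤ h) (v : V) (e : Fin 4) (x y x' y' : ℝ) :
    ‖pt h v e x y - pt h v e x' y'‖ ≤ h * (|x - x'| + |y - y'|) := by
  have : pt h v e x y - pt h v e x' y' = h * ((((x - x' : ℝ) : ℂ) + (y - y' : ℝ) * I) * ua e) := by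
    simp only [pt]; push_cast; ring
  rw [this, norm_mul, norm_mul, norm_ua, mul_one, norm_real, Real.norm_of_nonneg hh]
  refine mul_le_mul_of_nonneg_left ((norm_add_le _ _).trans (le_of_eq ?_)) hh
  rw [norm_mul, norm_I, mul_one, norm_real, norm_real, Real.norm_eq_abs, Real.norm_eq_abs]

theorem pt_zero (h : ℝ) (v : V) (e : Fin 4) : pt h v e 0 0 = h * tc v := by simp [pt]

theorem pt_rot (h : ℝ) (v : V) (e : Fin 4) (x y : ℝ) : pt h v (e + 1) x y = pt h v e (-y) x := by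
  simp only [pt, ua_add, ua1]; push_cast
  linear_combination (h * y * ua e : ℂ) * I_mul_I

theorem pt_step (h : ℝ) (v : V) (e : Fin 4) (x y : ℝ) :
    pt h (v + u e) e x y = pt h v e (x + 1) y := by
  simp only [pt, tc_add, ua]; push_cast; ring

/-- straight links in a frame -/
theorem link {S : Set ℂ} {h : ℝ} {v : V} {e : Fin 4} {x y x' y' : ℝ}
    (H : ∀ t ∈ Icc (0 : ℝ) 1, pt h v e (x + t * (x' - x)) (y + t * (y' - y)) ∈ S) :
    JoinedIn S (pt h v e x y) (pt h v e x' y') := by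
  refine JoinedIn.ofLine (f := fun t : ℝ => pt h v e (x + t * (x' - x)) (y + t * (y' - y)))
    (Continuous.continuousOn (by unfold pt; fun_prop)) (by simp) (by simp) ?_
  rintro _ ⟨t, ht, rfl⟩
  exact H t ht

/-- `η` is the polygonal curve through the simple lattice walk `q`, scaled by `h` -/
structure Walk (h : ℝ) (q : ℕ → V) (dir : ℕ → Fin 4) (η : ℝ≥0 → ℂ) : Prop where
  hpos : 0 < h
  step : ∀ j, q (j + 1) = q j + u (dir j)
  inj : Function.Injective q
  zero : q 0 = 0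
  dir0 : dir 0 = 1
  up : ∀ j, 1 ≤ j → 1 ≤ (q j).2
  poly : Poly η
  val : ∀ j : ℕ, η j = h * tc (q j)

theorem split (t : ℝ≥0) : ∃ (j : ℕ) (τ : ℝ≥0), τ < 1 ∧ t = j + τ :=
  ⟨⌊t⌋₊, t - ⌊t⌋₊, by
    rw [tsub_lt_iff_left (Nat.floor_le zero_le)]; exact Nat.lt_floor_add_one t,
    (add_tsub_cancel_of_le (Nat.floor_le zero_le)).symm⟩

theorem poly_cont {η : ℝ≥0 → ℂ} (h : Poly η) : Continuous η := by
  have key : ∀ n : ℕ, ContinuousOn η (Iic n) := fun n => by
    induction n with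
    | zero => exact Subsingleton.continuousOn (fun a ha b hb => by simp_all) η
    | succ n ih =>
      have e : (Iic ((n + 1 : ℕ) : ℝ≥0)) = Iic (n : ℝ≥0) ∪ Icc (n : ℝ≥0) (n + 1) := by
        rw [Iic_union_Icc_eq_Iic (by simp)]; simp
      rw [e]
      refine ih.union_of_isClosed (ContinuousOn.congr (f := fun t : ℝ≥0 =>
        η n + (((t - n : ℝ≥0) : ℝ) : ℂ) * (η (n + 1) - η n)) (by fun_prop) fun t ht => ?_)
        isClosed_Iic isClosed_Icc
      have := h n (t - n) (by rw [tsub_le_iff_left]; exact ht.2)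
      rwa [add_tsub_cancel_of_le ht.1] at this
  refine continuous_iff_continuousAt.2 fun t => ?_
  exact (key (⌊t⌋₊ + 1)).continuousAt (Iic_mem_nhds (by simpa using Nat.lt_floor_add_one t))

namespace Walk

variable {h : ℝ} {q : ℕ → V} {dir : ℕ → Fin 4} {η : ℝ≥0 → ℂ} (W : Walk h q dir η)
include W

theorem edge (j : ℕ) {τ : ℝ≥0} (hτ : τ ≤ 1) : η (j + τ) = pt h (q j) (dir j) τ 0 := by
  have := W.val (j + 1)
  push_cast at this
  rw [W.poly j τ hτ, this, W.val j, W.step, tc_add]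
  simp only [pt, ua]; push_cast; ring

theorem no_back (j : ℕ) : dir (j + 1) ≠ dir j + 2 := fun e => by
  have : q (j + 2) = q j := by rw [W.step (j + 1), e, W.step j, u_back]
  have := W.inj this
  omega

theorem hit {v : V} {e : Fin 4} {x y : ℝ} (hx : |x| < 1) (hy : |y| < 1) {j : ℕ} {τ : ℝ≥0}
    (hτ : τ ≤ 1) (H : pt h v e x y = η (j + τ)) :
    (v = q j ∧ (x + y * I) * ua e = (τ : ℝ) * ua (dir j)) ∨
      (v = q (j + 1) ∧ (x + y * I) * ua e = ((τ : ℝ) - 1 : ℝ) * ua (dir j)) := by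
  rw [W.edge j hτ, pt, pt] at H
  have H' := mul_left_cancel₀ (ofReal_ne_zero.2 W.hpos.ne') H
  rw [W.step]
  exact near τ.2 hτ (frame_lt hx hy e).1 (frame_lt hx hy e).2 (by simpa using H')

theorem curve : Curve η where
  cont := poly_cont W.poly
  zero := by simpa [W.zero, tc] using W.val 0
  inj := by
    have key : ∀ (j k : ℕ) (σ τ : ℝ≥0), σ < 1 → τ < 1 → τ ≤ σ → η (j + σ) = η (k + τ) →
        j + σ = k + τ := fun j k σ τ hσ hτ hle H => by
      have hσ' : |(σ : ℝ)| < 1 := by rw [NNReal.abs_eq]; exact hσ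
      have hτ' : (τ : ℝ) - 1 < 0 := sub_neg.2 hτ
      rw [W.edge j hσ.le] at H
      rcases W.hit hσ' (by simp) hτ.le H with ⟨e1, e2⟩ | ⟨e1, e2⟩
      · obtain rfl := W.inj e1
        have := mul_right_cancel₀ (ua_ne _) e2
        simp only [ofReal_zero, zero_mul, add_zero, ofReal_inj, NNReal.coe_inj] at this
        rw [this]
      · obtain rfl := W.inj e1
        have hn := congrArg norm e2
        simp only [ofReal_zero, zero_mul, add_zero, norm_mul, norm_ua, mul_one, norm_real,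
          Real.norm_eq_abs, abs_of_neg hτ', NNReal.abs_eq] at hn
        have hle' : (τ : ℝ) ≤ σ := hle
        rcases (dirs e2).2 (by linarith) with ⟨a, -⟩ | ⟨-, a⟩
        · linarith
        · exact absurd a (W.no_back k)
    intro s t H
    obtain ⟨j, σ, hσ, rfl⟩ := split s
    obtain ⟨k, τ, hτ, rfl⟩ := split t
    rcases le_total τ σ with a | a
    · exact key j k σ τ hσ hτ a H
    · exact (key k j τ σ hτ hσ a H.symm).symm
  pos := fun t ht => by
    obtain ⟨j, τ, hτ, rfl⟩ := split t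
    have h0 : (0 : ℝ) ≤ τ := τ.2
    have h1 : (τ : ℝ) < 1 := hτ
    rw [W.edge j hτ.le, pt, im_ofReal_mul]
    refine mul_pos W.hpos ?_
    rcases Nat.eq_zero_or_pos j with rfl | hj
    · simpa [W.zero, W.dir0] using ht
    · have : (1 : ℝ) ≤ (q j).2 := by exact_mod_cast W.up j hj
      have h2 := (abs_lt.1 (frame_lt (x := τ) (y := 0) (by rwa [NNReal.abs_eq]) (by simp)
        (dir j)).2).1
      rw [add_im, tc_im]
      linarith

omit W in
theorem mem_hull {k : ℕ} {z : ℂ} (hz : z ∈ hull η k) :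
    ∃ j < k, ∃ τ : ℝ≥0, τ ≤ 1 ∧ z = η (j + τ) := by
  obtain ⟨t, ⟨h0, h1⟩, rfl⟩ := hz
  obtain ⟨j, τ, hτ, rfl⟩ := split t
  rcases lt_or_ge j k with a | a
  · exact ⟨j, a, τ, hτ.le, rfl⟩
  · have a' : (k : ℝ≥0) ≤ j := by exact_mod_cast a
    have e : (j : ℝ≥0) + τ = k := le_antisymm h1 (a'.trans le_self_add)
    rw [e] at h0 ⊢
    have h2 : 0 < k := by exact_mod_cast h0
    obtain ⟨i, rfl⟩ : ∃ i, k = i + 1 := ⟨k - 1, by omega⟩
    exact ⟨i, by omega, 1, le_rfl, by simp⟩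

/-- points in the interior of a cell are not on the curve -/
theorem cell_out (k : ℕ) (v : V) (e : Fin 4) {x y : ℝ} (hx : |x| < 1) (hy : |y| < 1)
    (hx0 : x ≠ 0) (hy0 : y ≠ 0) : pt h v e x y ∉ hull η k := fun hz => by
  obtain ⟨j, -, τ, hτ, H⟩ := mem_hull hz
  rcases W.hit hx hy hτ H with ⟨-, e2⟩ | ⟨-, e2⟩ <;> rcases (dirs e2).1 with a | a <;> contradiction

/-- a direction at a vertex of the walk that is not used by the walk -/
theorem free_out {k i : ℕ} {e : Fin 4} (h1 : e ≠ dir i + 2) (h2 : i + 1 < k → e ≠ dir (i + 1))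
    {x y : ℝ} (hx0 : 0 < x) (hx : x < 1) (hy : |y| < 1) :
    pt h (q (i + 1)) e x y ∉ hull η k := fun hz => by
  obtain ⟨j, hj, τ, hτ, H⟩ := mem_hull hz
  have h0 : (0 : ℝ) ≤ τ := τ.2
  have h1' : (τ : ℝ) ≤ 1 := hτ
  rcases W.hit (by rwa [abs_of_pos hx0]) hy hτ H with ⟨e1, e2⟩ | ⟨e1, e2⟩
  · obtain rfl := W.inj e1
    rcases (dirs e2).2 hx0 with ⟨-, a⟩ | ⟨a, -⟩
    · exact h2 hj a
    · linarith
  · obtain rfl : i = j := by have := W.inj e1; omega
    rcases (dirs e2).2 hx0 with ⟨a, -⟩ | ⟨-, a⟩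
    · linarith
    · exact h1 a

theorem pt_pos {j : ℕ} (hj : 1 ≤ j) (e : Fin 4) {x y : ℝ} (hx : |x| < 1) (hy : |y| < 1) :
    pt h (q j) e x y ∈ HH := by
  have : (1 : ℝ) ≤ (q j).2 := by exact_mod_cast W.up j hj
  have h2 := (abs_lt.1 (frame_lt hx hy e).2).1
  show 0 < (pt h (q j) e x y).im
  rw [pt, im_ofReal_mul, add_im, tc_im]
  exact mul_pos W.hpos (by linarith)

theorem high {j : ℕ} (hj : 1 ≤ j) {τ : ℝ≥0} (hτ : τ ≤ 1) : h ≤ (η (j + τ)).im := by
  have h1 : (1 : ℝ) ≤ (q j).2 := by exact_mod_cast W.up j hj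
  have h2 : (1 : ℝ) ≤ (q (j + 1)).2 := by exact_mod_cast W.up (j + 1) (by omega)
  have h3 := W.val (j + 1)
  have h0 : (0 : ℝ) ≤ τ := τ.2
  have h4 : (τ : ℝ) ≤ 1 := hτ
  push_cast at h3
  rw [W.poly j τ hτ, h3, W.val j]
  simp only [add_im, im_ofReal_mul, sub_im, tc_im]
  nlinarith [mul_nonneg (mul_nonneg W.hpos.le h0) (sub_nonneg.2 h2),
    mul_nonneg (mul_nonneg W.hpos.le (sub_nonneg.2 h4)) (sub_nonneg.2 h1)]

/-- points of the lowest row off the imaginary axis are not on the curve -/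
theorem axis_out (k : ℕ) {z : ℂ} (h0 : 0 < z.im) (h1 : z.im < h) (h2 : z.re ≠ 0) :
    z ∈ HH \ hull η k := ⟨h0, fun hz => by
  obtain ⟨j, -, τ, hτ, rfl⟩ := mem_hull hz
  rcases Nat.eq_zero_or_pos j with rfl | hj
  · rw [W.edge 0 hτ] at h2
    simp [pt, W.zero, W.dir0] at h2
  · exact absurd (W.high hj hτ) (not_le.2 h1)⟩

end Walk

/-- the two sides: `r = 1`, `s = 1` is left and `r = 3`, `s = -1` is right -/
def Side (r : Fin 4) (s : ℝ) : Prop := (r = 1 ∧ s = 1) ∨ (r = 3 ∧ s = -1)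

/-- the quadrant between the directions `e` and `e + r` lies on the side `r` of a walk that
arrives in direction `d` and leaves in direction `d'` -/
def Sec (r d d' e : Fin 4) : Prop :=
  e = d + r ∨ (d' ≠ d + r ∧ e = d) ∨ (d' ≠ d + r ∧ d' ≠ d ∧ e = d - r)

variable {r : Fin 4} {s : ℝ}

theorem Side.sq (H : Side r s) : s * s = 1 := by rcases H with ⟨-, rfl⟩ | ⟨-, rfl⟩ <;> norm_num

theorem Side.abs (H : Side r s) (x : ℝ) : |s * x| = |x| := by
  rcases H with ⟨-, rfl⟩ | ⟨-, rfl⟩ <;> simp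

theorem Side.ne (H : Side r s) : s ≠ 0 := fun e => by simpa [e] using H.sq

theorem Side.pt (H : Side r s) (h : ℝ) (v : V) (e : Fin 4) (x y : ℝ) :
    pt h v (e + r) x y = pt h v e (-(s * y)) (s * x) := by
  rcases H with ⟨rfl, rfl⟩ | ⟨rfl, rfl⟩
  · simpa using pt_rot h v e x y
  · rw [show e + 3 = e + 1 + 1 + 1 from (by decide : ∀ e : Fin 4, e + 3 = e + 1 + 1 + 1) e,
      pt_rot, pt_rot, pt_rot]
    simp

theorem Side.sec (H : Side r s) {d d' : Fin 4} (h : d' ≠ d + 2) : Sec r d d' d' := by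
  rcases H with ⟨rfl, -⟩ | ⟨rfl, -⟩ <;> unfold Sec <;> revert d d' <;> decide

namespace Walk

variable {h ε : ℝ} {q : ℕ → V} {dir : ℕ → Fin 4} {η : ℝ≥0 → ℂ} (W : Walk h q dir η)
  (H : Side r s) (h0 : 0 < ε) (h1 : ε < 1) {k : ℕ} {S : Set ℂ}
include W H h0 h1

theorem rot_link {i : ℕ} {e : Fin 4} (a1 : e ≠ dir i + 2) (a2 : e ≠ dir (i + 1))
    (hS : ∀ y ∈ HH \ hull η k, ‖y - η (i + 1 : ℕ)‖ ≤ 2 * ε * h → y ∈ S) :
    JoinedIn S (pt h (q (i + 1)) e ε (s * ε)) (pt h (q (i + 1)) (e - r) ε (s * ε)) := by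
  have e1 : pt h (q (i + 1)) (e - r) ε (s * ε) = pt h (q (i + 1)) e ε (-(s * ε)) := by
    conv_rhs => rw [← sub_add_cancel e r, H.pt]
    rw [mul_neg, neg_neg, ← mul_assoc, H.sq, one_mul]
  rw [e1]
  refine link fun t ht => ?_
  have b : |s * ε + t * (-(s * ε) - s * ε)| ≤ ε := by
    rw [show s * ε + t * (-(s * ε) - s * ε) = s * (ε * (1 - 2 * t)) by ring, H.abs, abs_le]
    constructor <;> nlinarith [ht.1, ht.2]
  simp only [sub_self, mul_zero, add_zero]
  refine hS _ ⟨W.pt_pos (by omega) e (by rwa [abs_of_pos h0]) (b.trans_lt h1),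
    W.free_out a1 (fun _ => a2) h0 h1 (b.trans_lt h1)⟩ ?_
  rw [W.val, ← pt_zero h _ e]
  refine (norm_pt_sub W.hpos.le _ _ _ _ _ _).trans ?_
  rw [sub_zero, sub_zero, abs_of_pos h0]
  nlinarith [W.hpos]

theorem around {i : ℕ} {e : Fin 4} (a : Sec r (dir i) (dir (i + 1)) e)
    (hS : ∀ y ∈ HH \ hull η k, ‖y - η (i + 1 : ℕ)‖ ≤ 2 * ε * h → y ∈ S)
    (h2 : pt h (q (i + 1)) (dir i + r) ε (s * ε) ∈ S) :
    JoinedIn S (pt h (q (i + 1)) (dir i + r) ε (s * ε)) (pt h (q (i + 1)) e ε (s * ε)) := by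
  have b1 : dir i + r ≠ dir i + 2 := by rcases H with ⟨rfl, -⟩ | ⟨rfl, -⟩ <;> simp
  have b2 : dir i ≠ dir i + 2 := by simp
  rcases a with rfl | ⟨a1, rfl⟩ | ⟨a1, a2, rfl⟩
  · exact JoinedIn.refl h2
  · simpa using W.rot_link H h0 h1 b1 a1.symm hS
  · exact JoinedIn.trans (by simpa using W.rot_link H h0 h1 b1 a1.symm hS)
      (W.rot_link H h0 h1 b2 a2.symm hS)

theorem edge_link {j : ℕ} (hε : ε ≤ 1 / 2)
    (hS : ∀ y ∈ HH \ hull η k, ∀ τ : ℝ≥0, τ ≤ 1 → ‖y - η (j + τ)‖ ≤ ε * h → y ∈ S) :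
    JoinedIn S (pt h (q j) (dir j) ε (s * ε)) (pt h (q (j + 1)) (dir j + r) ε (s * ε)) := by
  rw [H.pt, W.step, pt_step, ← mul_assoc, H.sq]
  refine link fun t ht => ?_
  simp only [sub_self, mul_zero, add_zero]
  set x := ε + t * (-(1 * ε) + 1 - ε) with hx
  have x0 : 0 < x := by nlinarith [ht.1, ht.2]
  have x1 : x < 1 := by nlinarith [ht.1, ht.2]
  have b : |s * ε| < 1 := by rwa [H.abs, abs_of_pos h0]
  have b' : |x| < 1 := by rwa [abs_of_pos x0]
  refine hS _ ⟨?_, W.cell_out k _ _ b' b x0.ne' (mul_ne_zero H.ne h0.ne')⟩ (.mk x x0.le) x1.le ?_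
  · rcases Nat.eq_zero_or_pos j with rfl | hj
    · show 0 < (pt h (q 0) (dir 0) x (s * ε)).im
      simpa [pt, W.zero, W.dir0] using mul_pos W.hpos x0
    · exact W.pt_pos hj _ b' b
  · rw [W.edge j (τ := .mk x x0.le) x1.le]
    refine (norm_pt_sub W.hpos.le _ _ _ _ _ _).trans (le_of_eq ?_)
    rw [NNReal.coe_mk, sub_self, sub_zero, H.abs, abs_of_pos h0, abs_zero, zero_add, mul_comm]

/-- the hugging path -/
theorem hug (hε : ε ≤ 1 / 2) {m : ℕ}
    (hS : ∀ y ∈ HH \ hull η k, ∀ t : ℝ≥0, t ≤ m → ‖y - η t‖ ≤ 2 * ε * h → y ∈ S)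
    (h2 : pt h (q 0) (dir 0) ε (s * ε) ∈ S) {j : ℕ} (hj : j ≤ m) :
    JoinedIn S (pt h (q 0) (dir 0) ε (s * ε)) (pt h (q j) (dir j) ε (s * ε)) := by
  induction j with
  | zero => exact JoinedIn.refl h2
  | succ j ih =>
    have hj' : ((j + 1 : ℕ) : ℝ≥0) ≤ m := by exact_mod_cast hj
    have l := W.edge_link H h0 h1 hε (k := k) (j := j) (S := S) fun y hy τ hτ hn =>
      hS y hy (j + τ) (le_trans (by push_cast; gcongr) hj') (by nlinarith [W.hpos])
    exact ((ih (by omega)).trans l).trans (W.around H h0 h1 (H.sec (W.no_back j))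
      (fun y hy hn => hS y hy _ hj' hn) l.target_mem)

/-- from the hugging path to a point of a cell on the side `r` -/
theorem to_cell (hε : ε ≤ 1 / 2) {i : ℕ} {e : Fin 4} (a : Sec r (dir i) (dir (i + 1)) e)
    {x y : ℝ} (hx : x ∈ Icc (0 : ℝ) 1) (hy : y ∈ Icc (0 : ℝ) 1)
    (hz : pt h (q (i + 1)) e x (s * y) ∈ HH \ hull η k) :
    JoinedIn ((HH \ hull η k) ∩ closedBall (η (i + 1 : ℕ)) (2 * h))
      (pt h (q i) (dir i) ε (s * ε)) (pt h (q (i + 1)) e x (s * y)) := by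
  have hp := W.hpos
  have l := W.edge_link H h0 h1 hε (k := k) (j := i)
    (S := (HH \ hull η k) ∩ closedBall (η (i + 1 : ℕ)) (2 * h)) fun y hy τ hτ hn => ⟨hy, by
      have b : ‖η (i + τ) - η (i + 1 : ℕ)‖ ≤ h := by
        have t0 : (0 : ℝ) ≤ τ := τ.2
        have t1 : (τ : ℝ) ≤ 1 := hτ
        push_cast
        rw [W.edge i hτ, W.edge i le_rfl]
        refine (norm_pt_sub hp.le _ _ _ _ _ _).trans ?_
        rw [sub_self, abs_zero, add_zero, NNReal.coe_one, abs_of_nonpos (by linarith)]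
        nlinarith
      rw [mem_closedBall_iff_norm]
      nlinarith [norm_sub_le_norm_sub_add_norm_sub y (η (i + τ)) (η (i + 1 : ℕ))]⟩
  refine (l.trans (W.around H h0 h1 a (fun y hy hn => ⟨hy, ?_⟩) l.target_mem)).trans
    (link fun t ht => ?_)
  · rw [mem_closedBall_iff_norm]; nlinarith
  rw [show s * ε + t * (s * y - s * ε) = s * (ε + t * (y - ε)) by ring]
  have b : ∀ x ∈ Icc (0 : ℝ) 1, 0 ≤ ε + t * (x - ε) ∧ ε + t * (x - ε) ≤ 1 ∧
      (t < 1 → 0 < ε + t * (x - ε) ∧ ε + t * (x - ε) < 1) := fun x hx =>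
    ⟨by nlinarith [ht.1, ht.2, hx.1], by nlinarith [ht.1, ht.2, hx.2],
      fun a => ⟨by nlinarith [ht.1, hx.1], by nlinarith [ht.1, hx.2]⟩⟩
  constructor
  · rcases ht.2.eq_or_lt with rfl | a
    · simpa using hz
    · obtain ⟨x0, x1⟩ := (b x hx).2.2 a
      obtain ⟨y0, y1⟩ := (b y hy).2.2 a
      have c1 : |ε + t * (x - ε)| < 1 := by rwa [abs_of_pos x0]
      have c2 : |s * (ε + t * (y - ε))| < 1 := by rwa [H.abs, abs_of_pos y0]
      exact ⟨W.pt_pos (by omega) _ c1 c2, W.cell_out k _ _ c1 c2 x0.ne' (mul_ne_zero H.ne y0.ne')⟩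
  · rw [mem_closedBall_iff_norm, W.val, ← pt_zero h _ e]
    refine (norm_pt_sub hp.le _ _ _ _ _ _).trans ?_
    rw [sub_zero, sub_zero, H.abs, abs_of_nonneg (b x hx).1, abs_of_nonneg (b y hy).1]
    nlinarith [(b x hx).2.1, (b y hy).2.1]

end Walk

end Pool.Agent.P.MP_6c8efb_pr.SLE.DW
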