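import Pool.Agent.P.MP_6c8efb_pr.SLE.Iface
import Pool.Agent.P.MP_6c8efb_pr.SLE.RWalk

/-! Chains of cells and connected subsets of the slit half-plane. -/

namespace Pool.Agent.P.MP_6c8efb_pr.SLE

open Set Complex Metric Filter Topology DW
open scoped NNReal

namespace RC

theorem cx_eq (v : V) : cx v = tc v := Complex.ext (by simp [cx]) (by simp [cx])

theorem u_inj {d e : Fin 4} (h : u d = u e) : d = e := by revert d e; decide

theorem pc_nat (h : ℝ) (q : ℕ → V) (j : ℕ) : pc h q j = h * tc (q j) := by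
  show interp (fun k => h * cx (q k)) ((j : ℝ≥0) : ℝ) = _
  rw [interp_of_mem _ j (by simp), cx_eq]; simp

theorem walk {h : ℝ} {q : ℕ → V} (hh : 0 < h) (H : FP q) :
    ∃ dir, Walk h q dir (pc h q) := by
  choose dir hd using H.stp
  refine ⟨dir, hh, hd, H.inj, H.zero, u_inj ?_, H.pos, fun k τ hτ => ?_, pc_nat h q⟩
  · have := hd 0
    rw [zero_add, H.one, H.zero] at this
    exact (zero_add _).symm.trans this.symm
  · have e := pc_nat h q (k + 1)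
    push_cast at e
    rw [e, pc_nat]
    show interp (fun k => h * cx (q k)) (((k : ℝ≥0) + τ : ℝ≥0) : ℝ) = _
    rw [interp_of_mem _ k ⟨by simp, by simpa using hτ⟩, cx_eq, cx_eq]
    simp

theorem pt_re (h : ℝ) (v : V) (x y : ℝ) : (pt h v 0 x y).re = h * (v.1 + x) := by simp [pt]
theorem pt_im (h : ℝ) (v : V) (x y : ℝ) : (pt h v 0 x y).im = h * (v.2 + y) := by simp [pt]

theorem mem_sq {h : ℝ} (hh : 0 < h) {c : V} {z : ℂ} :
    z ∈ sq h c ↔ ∃ x ∈ Icc (0 : ℝ) 1, ∃ y ∈ Icc (0 : ℝ) 1, z = pt h c 0 x y := by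
  constructor
  · rintro ⟨h1, h2, h3, h4⟩
    refine ⟨z.re / h - c.1, ⟨?_, ?_⟩, z.im / h - c.2, ⟨?_, ?_⟩, Complex.ext ?_ ?_⟩
    · rw [sub_nonneg, le_div_iff₀' hh]; exact h1
    · rw [sub_le_iff_le_add', div_le_iff₀' hh]; exact h2
    · rw [sub_nonneg, le_div_iff₀' hh]; exact h3
    · rw [sub_le_iff_le_add', div_le_iff₀' hh]; exact h4
    · rw [pt_re]; field_simp; ring
    · rw [pt_im]; field_simp; ring
  · rintro ⟨x, hx, y, hy, rfl⟩
    refine ⟨?_, ?_, ?_, ?_⟩ <;> simp only [pt_re, pt_im] <;>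
      nlinarith [hx.1, hx.2, hy.1, hy.2]

theorem pt_left (h : ℝ) (v : V) (e : Fin 4) (x y : ℝ) : pt h v e x y =
    pt h (fc v (e + 1)) 0 (![x, 1 - y, 1 - x, y] e) (![y, x, 1 - y, 1 - x] e) := by
  rcases cases4 e with rfl | rfl | rfl | rfl <;> apply Complex.ext <;>
    simp [pt, sub_eq_add_neg]

theorem pt_right (h : ℝ) (v : V) (e : Fin 4) (x y : ℝ) :
    pt h v e x (-y) = pt h v (e - 1) y x := by
  conv_lhs => rw [← sub_add_cancel e 1, pt_rot, neg_neg]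

theorem mem_left {h : ℝ} (hh : 0 < h) {v : V} {e : Fin 4} {z : ℂ} :
    z ∈ sq h (fc v (e + 1)) ↔ ∃ x ∈ Icc (0 : ℝ) 1, ∃ y ∈ Icc (0 : ℝ) 1, z = pt h v e x y := by
  have s : ∀ x ∈ Icc (0 : ℝ) 1, 1 - x ∈ Icc (0 : ℝ) 1 := fun x hx =>
    ⟨by linarith [hx.2], by linarith [hx.1]⟩
  rw [mem_sq hh]
  constructor
  · rintro ⟨x, hx, y, hy, rfl⟩
    rcases cases4 e with rfl | rfl | rfl | rfl
    · exact ⟨x, hx, y, hy, by rw [pt_left h v]; simp⟩
    · exact ⟨y, hy, 1 - x, s x hx, by rw [pt_left h v]; simp⟩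
    · exact ⟨1 - x, s x hx, 1 - y, s y hy, by rw [pt_left h v]; simp⟩
    · exact ⟨1 - y, s y hy, x, hx, by rw [pt_left h v]; simp⟩
  · rintro ⟨x, hx, y, hy, rfl⟩
    refine ⟨_, ?_, _, ?_, pt_left h v e x y⟩ <;> rcases cases4 e with rfl | rfl | rfl | rfl <;>
      simp only [Matrix.cons_val, Matrix.cons_val_zero, Matrix.cons_val_one, hx, hy, s]

theorem mem_right {h : ℝ} (hh : 0 < h) {v : V} {e : Fin 4} {z : ℂ} :
    z ∈ sq h (fc v e) ↔ ∃ x ∈ Icc (0 : ℝ) 1, ∃ y ∈ Icc (0 : ℝ) 1, z = pt h v e x (-y) := by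
  conv_lhs => rw [← sub_add_cancel e 1]
  simp only [mem_left hh, pt_right]
  exact ⟨fun ⟨x, hx, y, hy, e⟩ => ⟨y, hy, x, hx, e⟩, fun ⟨x, hx, y, hy, e⟩ => ⟨y, hy, x, hx, e⟩⟩

theorem pt_inj {h : ℝ} (hh : 0 < h) {v : V} {e : Fin 4} {x y x' y' : ℝ}
    (H : pt h v e x y = pt h v e x' y') : x = x' ∧ y = y' := by
  have := mul_right_cancel₀ (ua_ne e)
    (add_left_cancel (mul_left_cancel₀ (ofReal_ne_zero.2 hh.ne') H))
  simpa [Complex.ext_iff] using this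

/-- the edge of the fine lattice between two neighbouring cells -/
theorem wall (a : V) (d : Fin 4) : ∃ v, dl (edge a d) = edge v (d + 1) ∧
    a = fc v (d + 1 + 1) ∧ a + u d = fc v (d + 1) := by
  obtain ⟨a, b⟩ := a
  rcases cases4 d with rfl | rfl | rfl | rfl
  · exact ⟨(a + 1, b), by simp [dl]⟩
  · exact ⟨(a + 1, b + 1), by simp [dl]⟩
  · exact ⟨(a, b + 1), by simp [dl, sub_eq_add_neg]⟩
  · exact ⟨(a, b), by simp [dl, sub_eq_add_neg]⟩

/-- the centre of a cell -/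
noncomputable def ctr (h : ℝ) (c : V) : ℂ := pt h c 0 (1 / 2) (1 / 2)

theorem ctr_left (h : ℝ) (v : V) (e : Fin 4) :
    pt h v e (1 / 2) (1 / 2) = ctr h (fc v (e + 1)) := by
  rw [pt_left, ctr]
  rcases cases4 e with rfl | rfl | rfl | rfl <;> simp only [Matrix.cons_val] <;> norm_num

theorem ctr_right (h : ℝ) (v : V) (e : Fin 4) :
    pt h v e (1 / 2) (-(1 / 2)) = ctr h (fc v e) := by
  rw [pt_right, ctr_left, sub_add_cancel]

theorem cover {h : ℝ} (hh : 0 < h) (z : ℂ) : z ∈ sq h (⌊z.re / h⌋, ⌊z.im / h⌋) :=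
  ⟨(le_div_iff₀' hh).1 (Int.floor_le _), (div_le_iff₀' hh).1 (Int.lt_floor_add_one _).le,
    (le_div_iff₀' hh).1 (Int.floor_le _), (div_le_iff₀' hh).1 (Int.lt_floor_add_one _).le⟩

theorem loc1 {h : ℝ} (hh : 0 < h) (x : ℝ) : ∀ᶠ y in 𝓝 x, ∀ a : ℤ,
    (h * a ≤ y → h * a ≤ x) ∧ (y ≤ h * (a + 1) → x ≤ h * (a + 1)) := by
  have h1 : x < h * (⌊x / h⌋ + 1) := (div_lt_iff₀' hh).1 (Int.lt_floor_add_one _)
  have h2 : h * (⌈x / h⌉ - 1) < x := (lt_div_iff₀' hh).1 (by linarith [Int.ceil_lt_add_one (x / h)])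
  filter_upwards [Ioo_mem_nhds h2 h1] with y hy a
  refine ⟨fun b => (le_div_iff₀' hh).1 (Int.le_floor.1 ?_), fun b => (div_le_iff₀' hh).1 ?_⟩
  · have : (a : ℝ) < ⌊x / h⌋ + 1 := lt_of_mul_lt_mul_left (b.trans_lt hy.2) hh.le
    have : a < ⌊x / h⌋ + 1 := by exact_mod_cast this
    omega
  · have : (⌈x / h⌉ - 1 : ℝ) < a + 1 := lt_of_mul_lt_mul_left (hy.1.trans_le b) hh.le
    have : ⌈x / h⌉ - 1 < a + 1 := by exact_mod_cast this
    have : ⌈x / h⌉ ≤ a + 1 := by omega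
    exact_mod_cast Int.ceil_le.1 this

theorem loc2 {h : ℝ} (hh : 0 < h) (z : ℂ) : ∀ᶠ w in 𝓝 z, ∀ c, w ∈ sq h c → z ∈ sq h c := by
  filter_upwards [continuous_re.continuousAt.eventually (loc1 hh z.re),
    continuous_im.continuousAt.eventually (loc1 hh z.im)] with w h1 h2 c hc
  exact ⟨(h1 _).1 hc.1, (h1 _).2 hc.2.1, (h2 _).1 hc.2.2.1, (h2 _).2 hc.2.2.2⟩

variable {h : ℝ} {q : ℕ → V} {dir : ℕ → Fin 4} {η : ℝ≥0 → ℂ} (W : Walk h q dir η) {k : ℕ}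
include W

theorem trace_iff {e : E} : trace q k e = true ↔ ∃ j < k, e = edge (q j) (dir j) := by
  simp only [trace, decide_eq_true_eq]
  refine exists_congr fun j => and_congr_right fun _ => ⟨?_, fun a => ⟨_, W.step j, a⟩⟩
  rintro ⟨d, a, rfl⟩
  rw [u_inj (add_left_cancel (a.symm.trans (W.step j)))]

theorem in_hull {j : ℕ} (hj : j < k) {x : ℝ} (hx : x ∈ Icc (0 : ℝ) 1)
    (hz : pt h (q j) (dir j) x 0 ∈ L.HH) : pt h (q j) (dir j) x 0 ∈ L.hull η k := by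
  have e := W.edge j (τ := .mk x hx.1) hx.2
  rw [NNReal.coe_mk] at e
  refine ⟨_, ⟨pos_iff_ne_zero.2 fun a => ?_, ?_⟩, e⟩
  · rw [← e, a, W.curve.zero] at hz
    exact lt_irrefl (0 : ℝ) hz
  · have : ((j + 1 : ℕ) : ℝ≥0) ≤ k := by exact_mod_cast hj
    exact le_trans (by push_cast; gcongr; exact hx.2) this

theorem mem_of_trace {v : V} {e : Fin 4} (H : trace q k (edge v e) = true) {x : ℝ}
    (hx : x ∈ Icc (0 : ℝ) 1) (hz : pt h v e x 0 ∈ L.HH) : pt h v e x 0 ∈ L.hull η k := by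
  obtain ⟨j, hj, a⟩ := (trace_iff W).1 H
  rcases ed_eq (c := (q j, dir j)) (c' := (v, e)) a with b | b <;> obtain ⟨rfl, rfl⟩ := b
  · exact in_hull W hj hx hz
  · have e : pt h (q j + u (dir j)) (dir j + 2) x 0 = pt h (q j) (dir j) (1 - x) 0 := by
      rw [show dir j + 2 = dir j + 1 + 1 from (by decide : ∀ e : Fin 4, e + 2 = e + 1 + 1) _,
        pt_rot, pt_rot, pt_step]
      simp [sub_eq_neg_add]
    rw [e] at hz ⊢
    exact in_hull W hj ⟨by linarith [hx.2], by linarith [hx.1]⟩ hz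

theorem trace_of_mem {v : V} {e : Fin 4} {x y : ℝ} (hx0 : 0 < x) (hx : x < 1) (hy : |y| < 1)
    (hz : pt h v e x y ∈ L.hull η k) : trace q k (edge v e) = true := by
  obtain ⟨j, hj, τ, hτ, H⟩ := Walk.mem_hull hz
  have h0 : (0 : ℝ) ≤ τ := τ.2
  have h1 : (τ : ℝ) ≤ 1 := hτ
  refine (trace_iff W).2 ⟨j, hj, ?_⟩
  rcases W.hit (by rwa [abs_of_pos hx0]) hy hτ H with ⟨rfl, e2⟩ | ⟨rfl, e2⟩ <;>
    rcases (dirs e2).2 hx0 with ⟨a, rfl⟩ | ⟨a, rfl⟩
  · rfl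
  · linarith
  · linarith
  · rw [W.step, edge_back]

theorem step_cc {S : Set V} {z : ℂ} (hz : z ∈ L.HH \ L.hull η k) (hS : ∀ y, z ∈ sq h y → y ∈ S)
    {a : V} {d : Fin 4} (h1 : z ∈ sq h a) (h2 : z ∈ sq h (a + u d)) : CC q k S a (a + u d) := by
  refine Conn.one (hS _ h1) (hS _ h2) ?_
  obtain ⟨v, e1, e2, e3⟩ := wall a d
  rw [e3, mem_right W.hpos] at h2
  rw [e2, mem_left W.hpos] at h1
  obtain ⟨x, hx, y, hy, rfl⟩ := h1
  obtain ⟨x', -, y', hy', e⟩ := h2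
  obtain rfl : y = 0 := by linarith [(pt_inj W.hpos e).2, hy.1, hy'.1]
  rw [du, e1, Bool.not_eq_true', ← Bool.not_eq_true]
  exact fun a => hz.2 (mem_of_trace W a hx hz.1)

/-- the cells containing a point of the domain are joined -/
theorem same_cc {S : Set V} {z : ℂ} (hz : z ∈ L.HH \ L.hull η k) (hS : ∀ y, z ∈ sq h y → y ∈ S)
    {a b : V} (h1 : z ∈ sq h a) (h2 : z ∈ sq h b) : CC q k S a b := by
  have l : ∀ m n : ℤ, ∀ x : ℝ, h * m ≤ x → x ≤ h * (n + 1) → m ≤ n + 1 := fun m n x a b => by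
    exact_mod_cast le_of_mul_le_mul_left (a.trans b) W.hpos
  obtain ⟨a1, a2⟩ := a
  obtain ⟨b1, b2⟩ := b
  have h3 : z ∈ sq h (b1, a2) := ⟨h2.1, h2.2.1, h1.2.2⟩
  have := l _ _ _ h1.1 h2.2.1
  have := l _ _ _ h2.1 h1.2.1
  have := l _ _ _ h1.2.2.1 h2.2.2.2
  have := l _ _ _ h2.2.2.1 h1.2.2.2
  refine Conn.trans' (y := (b1, a2)) ?_ ?_
  · obtain rfl | rfl | rfl : b1 = a1 ∨ b1 = a1 + 1 ∨ b1 = a1 + -1 := by omega
    · exact Conn.rfl'
    · simpa [CC] using step_cc W hz hS (d := 0) h1 (by simpa using h3)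
    · simpa [CC] using step_cc W hz hS (d := 2) h1 (by simpa using h3)
  · obtain rfl | rfl | rfl : b2 = a2 ∨ b2 = a2 + 1 ∨ b2 = a2 + -1 := by omega
    · exact Conn.rfl'
    · simpa [CC] using step_cc W hz hS (d := 1) h3 (by simpa using h2)
    · simpa [CC] using step_cc W hz hS (d := 3) h3 (by simpa using h2)

theorem open_mem (c : V) (hc : 0 ≤ c.2) {x y : ℝ} (hx : x ∈ Ioo (0 : ℝ) 1)
    (hy : y ∈ Ioo (0 : ℝ) 1) : pt h c 0 x y ∈ sq h c ∩ (L.HH \ L.hull η k) := by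
  have : (0 : ℝ) ≤ c.2 := by exact_mod_cast hc
  refine ⟨(mem_sq W.hpos).2 ⟨x, Ioo_subset_Icc_self hx, y, Ioo_subset_Icc_self hy, rfl⟩, ?_,
    W.cell_out k _ _ (by rw [abs_of_pos hx.1]; exact hx.2) (by rw [abs_of_pos hy.1]; exact hy.2)
      hx.1.ne' hy.1.ne'⟩
  show 0 < (pt h c 0 x y).im
  rw [pt_im]
  exact mul_pos W.hpos (by linarith [hy.1])

/-- a point of a cell is joined to any inner point -/
theorem to_open {c : V} {z : ℂ} (hz : z ∈ sq h c ∩ (L.HH \ L.hull η k)) {a b : ℝ}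
    (ha : a ∈ Ioo (0 : ℝ) 1) (hb : b ∈ Ioo (0 : ℝ) 1) :
    JoinedIn (sq h c ∩ (L.HH \ L.hull η k)) (pt h c 0 a b) z := by
  have hc : 0 ≤ c.2 := by
    have : (0 : ℝ) < c.2 + 1 := (mul_pos_iff_of_pos_left W.hpos).1
      (lt_of_lt_of_le hz.2.1 hz.1.2.2.2)
    have : 0 < c.2 + 1 := by exact_mod_cast this
    omega
  obtain ⟨x, hx, y, hy, rfl⟩ := (mem_sq W.hpos).1 hz.1
  refine link fun t ht => ?_
  rcases ht.2.eq_or_lt with rfl | a
  · simpa using hz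
  · exact open_mem W c hc
      ⟨by nlinarith [ht.1, hx.1, ha.1], by nlinarith [ht.1, hx.2, ha.2]⟩
      ⟨by nlinarith [ht.1, hy.1, hb.1], by nlinarith [ht.1, hy.2, hb.2]⟩

theorem cross_cell {a : V} {d : Fin 4} (h1 : 0 ≤ a.2) (h2 : 0 ≤ (a + u d).2)
    (H : du (trace q k) (edge a d) = true) :
    JoinedIn ((sq h a ∪ sq h (a + u d)) ∩ (L.HH \ L.hull η k)) (ctr h a) (ctr h (a + u d)) := by
  obtain ⟨v, e1, e2, e3⟩ := wall a d
  rw [du, e1, Bool.not_eq_true', ← Bool.not_eq_true] at H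
  have m : (1 / 2 : ℝ) ∈ Ioo (0 : ℝ) 1 := by norm_num
  have p1 : 0 < (ctr h a).im := (open_mem W (k := k) a h1 m m).2.1
  have p2 : 0 < (ctr h (a + u d)).im := (open_mem W (k := k) _ h2 m m).2.1
  rw [e3] at p2 ⊢
  rw [e2] at p1 ⊢
  rw [← ctr_left] at p1 ⊢
  rw [← ctr_right] at p2 ⊢
  refine link fun t ht => ⟨?_, ?_, fun b => H (trace_of_mem W (by norm_num) (by norm_num)
    (abs_lt.2 ⟨by linarith [ht.2], by linarith [ht.1]⟩) b)⟩
  · rcases le_total t (1 / 2) with b | b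
    · exact .inl ((mem_left W.hpos).2 ⟨_, by norm_num, _, ⟨by linarith, by linarith [ht.1]⟩, rfl⟩)
    · refine .inr ((mem_right W.hpos).2 ⟨1 / 2, by norm_num, t - 1 / 2,
        ⟨by linarith, by linarith [ht.2]⟩, ?_⟩)
      congr 1 <;> ring
  · have e : (pt h v (d + 1) (1 / 2 + t * (1 / 2 - 1 / 2)) (1 / 2 + t * (-(1 / 2) - 1 / 2))).im =
        (1 - t) * (pt h v (d + 1) (1 / 2) (1 / 2)).im +
          t * (pt h v (d + 1) (1 / 2) (-(1 / 2))).im := by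
      simp [pt]; ring
    show 0 < Complex.im _
    rw [e]
    rcases ht.1.eq_or_lt with rfl | b
    · simpa using p1
    · nlinarith [mul_pos b p2, mul_nonneg (sub_nonneg.2 ht.2) p1.le]

end RC

open RC

theorem joined_pre {S : Set ℂ} {z w : ℂ} (h : JoinedIn S z w) :
    ∃ Z, IsPreconnected Z ∧ z ∈ Z ∧ w ∈ Z ∧ Z ⊆ S :=
  ⟨range h.somePath, isPreconnected_range h.somePath.continuous, ⟨0, by simp⟩, ⟨1, by simp⟩,
    range_subset_iff.2 h.somePath_mem⟩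

theorem t_PC : S_PC := fun _ _ hh H =>
  let ⟨_, W⟩ := walk hh H
  ⟨W.curve, W.poly⟩

theorem t_DISC : S_DISC := by
  intro h q k Z hh H hZ hD c c' ⟨z, hz, hc⟩ ⟨z', hz', hc'⟩
  obtain ⟨dir, W⟩ := walk hh H
  have s := fun x (hx : x ∈ Z) a b => same_cc W (S := {y | (Z ∩ sq h y).Nonempty}) (hD hx)
    (fun y hy => ⟨x, hx, hy⟩) (a := a) (b := b)
  refine hZ.induction₂ (fun x y => ∀ a b, x ∈ sq h a → y ∈ sq h b →
    CC q k {y | (Z ∩ sq h y).Nonempty} a b) (fun x hx => ?_) (fun x y w _ _ _ h1 h2 a b ha hb =>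
      (h1 a _ ha (cover hh y)).trans' (h2 _ b (cover hh y) hb))
    (fun x y _ _ h1 a b ha hb => (h1 b a hb ha).symm') hz hz' c c' hc hc'
  filter_upwards [nhdsWithin_le_nhds (loc2 hh x)] with y hy a b ha hb
  exact s x hx a b ha (hy b hb)

theorem t_CONT : S_CONT := by
  intro h q k hh H
  obtain ⟨dir, W⟩ := walk hh H
  have m : (1 / 2 : ℝ) ∈ Ioo (0 : ℝ) 1 := by norm_num
  refine ⟨fun c hc => ?_, fun S c c' z z' hS hc hz hz' => ?_⟩
  · convert open_mem W (k := k) c hc m m using 1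
    apply Complex.ext <;> simp [pt, cx]
  set T := (⋃ y ∈ {y | CC q k S c y}, sq h y) ∩ (L.HH \ L.hull (pc h q) k)
  have s : ∀ y, CC q k S c y → sq h y ⊆ ⋃ y ∈ {y | CC q k S c y}, sq h y := fun y hy =>
    subset_biUnion_of_mem (u := sq h) hy
  have key : JoinedIn T z (ctr h c') := by
    refine Conn.ind (p := fun y => JoinedIn T z (ctr h y)) hc
      ((to_open W hz m m).symm.mono (inter_subset_inter_left _ (s c Conn.rfl'))) ?_
    intro a d ha h1 h2 ho ih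
    exact ih.trans ((cross_cell W (hS _ h1) (hS _ h2) ho).mono
      (inter_subset_inter_left _ (union_subset (s _ ha) (s _ (ha.snoc h1 h2 ho)))))
  obtain ⟨Z, a1, a2, a3, a4⟩ :=
    joined_pre (key.trans ((to_open W hz' m m).mono (inter_subset_inter_left _ (s c' hc))))
  exact ⟨Z, a1, a2, a3, fun x hx => (a4 hx).2, fun x hx => (a4 hx).1⟩

end Pool.Agent.P.MP_6c8efb_pr.SLE
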