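import Pool.Agent.P.MP_6c8efb_pr.SLE.T0Basic

/-! Long excursions of the exploration path at a low height are exponentially unlikely. -/

namespace Pool.Agent.P.MP_6c8efb_pr.SLE.T0

/-- the vertices on the left of a piece of the exploration path are joined by open edges -/
theorem seg_conn {ω ω' : Cfg} {S : Set V} {j k : ℕ} (h : j ≤ k)
    (hS : ∀ i, j ≤ i → i ≤ k → (path ω i).1 ∈ S)
    (ho : ∀ i, j ≤ i → i < k → bc ω (ed (path ω i)) = true → ω' (ed (path ω i)) = true) :
    Conn ω' S (path ω j).1 (path ω k).1 := by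
  induction k, h using Nat.le_induction with
  | base => exact Conn.rfl'
  | succ k hk ih =>
    have a1 := ih (fun i b1 b2 => hS i b1 (by omega)) fun i b1 b2 => ho i b1 (by omega)
    have a2 := hS (k + 1) (by omega) le_rfl
    rw [path_succ] at a2 ⊢
    by_cases b : bc ω (ed (path ω k)) = true
    · rw [step_open b] at a2 ⊢
      exact a1.snoc (hS k hk (by omega)) a2 (ho k hk (by omega) b)
    · rw [step_closed b]; exact a1

/-- the faces on the right of a piece of the exploration path are joined across closed edges -/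
theorem seg_dual {ω ω' : Cfg} {S : Set V} {j k : ℕ} (h : j ≤ k)
    (hS : ∀ i, j ≤ i → i ≤ k → fd (path ω i) ∈ S)
    (ho : ∀ i, j ≤ i → i < k → ¬ bc ω (ed (path ω i)) = true → ¬ ω' (ed (path ω i)) = true) :
    Conn (du ω') S (fd (path ω j)) (fd (path ω k)) := by
  induction k, h using Nat.le_induction with
  | base => exact Conn.rfl'
  | succ k hk ih =>
    have a1 := ih (fun i b1 b2 => hS i b1 (by omega)) fun i b1 b2 => ho i b1 (by omega)
    have a2 := hS (k + 1) (by omega) le_rfl
    rw [path_succ] at a2 ⊢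
    by_cases b : bc ω (ed (path ω k)) = true
    · rw [step_open b, fd_ro]; exact a1
    · rw [step_closed b, fd_rot'] at a2 ⊢
      refine a1.snoc (hS k hk (by omega)) a2 ?_
      have := ho k hk (by omega) b
      simpa [du, fd, dl_fc, ed] using this

theorem hc_exp : ∃ C c : ℝ, 1 ≤ C ∧ 0 < c ∧ ∀ w h : ℤ, 1 ≤ h →
    hc w h ≤ C * Real.exp (-c * w / h) := by
  obtain ⟨c, c0, hq⟩ := hc_short 1
  set q := max (1 - c) (1 / 2) with q_def
  have q0 : 0 < q := by positivity
  have q1 : q < 1 := max_lt (by linarith) (by norm_num)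
  have lq : Real.log q < 0 := Real.log_neg q0 q1
  refine ⟨q⁻¹, -Real.log q / 5, (one_le_inv₀ q0).2 q1.le, by linarith, fun w h hh => ?_⟩
  have h0 : (0 : ℝ) < h := by exact_mod_cast (by omega : 0 < h)
  obtain ⟨K, k1, k2⟩ : ∃ K : ℕ, (0 < K → K * (2 * h + 3) ≤ w) ∧ w ≤ (K + 1) * (5 * h) := by
    refine ⟨(w / (2 * h + 3)).toNat, fun b => ?_, ?_⟩
    · rw [Int.toNat_of_nonneg (by omega)]
      exact Int.ediv_mul_le _ (by omega)
    · have a1 := Int.lt_ediv_add_one_mul_self w (show 0 < 2 * h + 3 by omega)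
      have a2 := Int.self_le_toNat (w / (2 * h + 3))
      have a3 := Int.natCast_nonneg (w / (2 * h + 3)).toNat
      nlinarith
  have h1 := Pr_forall_indep (fun _ => hf) (Finset.range K)
    (A := fun k => HC (k * (2 * h + 3)) (k * (2 * h + 3) + 2 * (h + 1)) 0 h)
    (S := fun k => In (Rc (k * (2 * h + 3)) (k * (2 * h + 3) + 2 * (h + 1)) 0 h))
    (fun k _ => loc_HC ..) (fun k _ => dep_conn _ _) fun k _ l _ hkl => by
      refine In_disjoint (Set.disjoint_left.2 fun z h1 h2 => ?_)
      simp only [mem_Rc] at h1 h2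
      rcases lt_or_gt_of_ne hkl with b | b
      · have : (k : ℤ) + 1 ≤ l := by exact_mod_cast b
        nlinarith
      · have : (l : ℤ) + 1 ≤ k := by exact_mod_cast b
        nlinarith
  have h2 : hc w h ≤ q ^ K := by
    refine (Pr_mono (B := {ω | ∀ k ∈ Finset.range K,
      ω ∈ HC (k * (2 * h + 3)) (k * (2 * h + 3) + 2 * (h + 1)) 0 h}) ?_).trans (h1.le.trans ?_)
    · rintro ω ⟨x, y, ⟨a1, a2, a3⟩, a4⟩ k hk
      have b0 := Finset.mem_range.1 hk
      have b1 : (k : ℤ) + 1 ≤ K := by exact_mod_cast b0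
      have b2 := k1 (by omega)
      have b3 : (0 : ℤ) ≤ k * (2 * h + 3) := by positivity
      obtain ⟨x', y', d1, d2, d3, d4⟩ := a4.strip lip_fst (a := k * (2 * h + 3))
        (b := k * (2 * h + 3) + 2 * (h + 1)) (by omega) (by omega) (by nlinarith)
      have := d3.mem a1
      refine ⟨x', y', ⟨?_, d1, d2⟩, d4.mono_set fun z hz => ?_⟩
      · simp only [mem_Rc] at this ⊢; omega
      · simp only [mem_Rc, Set.mem_inter_iff, Set.mem_ofPred_eq] at hz ⊢; omega
    · have := Finset.prod_le_prod (s := Finset.range K) (g := fun _ => q)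
        (f := fun k : ℕ => Pr (fun _ => hf)
          (HC (k * (2 * h + 3)) (k * (2 * h + 3) + 2 * (h + 1)) 0 h))
        (fun _ _ => Pr_nonneg _ _) fun k _ => by
          refine (Q_HC ..).le.trans (le_trans ?_ (le_max_left _ _))
          refine le_trans (hc_mono (by omega) (by omega) ?_) (hq (h + 1) (by omega))
          push_cast; omega
      simpa using this
  refine h2.trans ?_
  have k3 : (w : ℝ) ≤ (K + 1) * (5 * h) := by exact_mod_cast k2
  have k4 : (w : ℝ) / h ≤ (K + 1) * 5 := by rw [div_le_iff₀ h0]; linarith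
  rw [← Real.exp_log q0, ← Real.exp_nat_mul, ← Real.exp_neg, ← Real.exp_add, Real.log_exp,
    Real.exp_le_exp, mul_div_assoc]
  nlinarith

theorem s_t0 : S_T0 := by
  obtain ⟨C, c, C1, c0, hq⟩ := hc_exp
  refine ⟨2 * C * Real.exp (2 * c), c / 2, by positivity, fun R h l hh => ?_⟩
  have h0 : (1 : ℝ) ≤ h := by exact_mod_cast hh
  have key : ∀ w : ℤ, l ≤ 2 * w + 4 → C * Real.exp (-c * w / h) + C * Real.exp (-c * w / h) ≤
      2 * C * Real.exp (2 * c) * Real.exp (-(c / 2) * l / h) := fun w hw => by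
    have a1 : (l : ℝ) ≤ 2 * w + 4 := by exact_mod_cast hw
    have a2 : Real.exp (-c * w / h) ≤ Real.exp (2 * c) * Real.exp (-(c / 2) * l / h) := by
      rw [← Real.exp_add, Real.exp_le_exp, div_le_iff₀ (by linarith), add_mul,
        div_mul_cancel₀ _ (by linarith)]
      nlinarith
    nlinarith
  by_cases hl : l ≤ 4
  · refine (Pr_le_one _ _).trans (le_trans ?_ (key 0 (by omega)))
    simp only [Int.cast_zero, mul_zero, zero_div, Real.exp_zero]
    linarith
  refine le_trans ?_ (key ((l - 1) / 2 - 1) (by omega))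
  refine (Pr_mono (B := HC 1 ((l - 1) / 2) 0 h ∪ {ω | du ω ∈ HC (-((l - 1) / 2)) (-1) 0 h})
    ?_).trans ((Pr_union_le _ _ _).trans (add_le_add ((Q_HC ..).le.trans ?_)
      ((Q_du (loc_HC ..)).le.trans ((Q_HC ..).le.trans ?_))))
  · rintro ω ⟨k, a1, a2⟩
    cases k with
    | zero => simp [fp] at a1; omega
    | succ k =>
    have a3 : ∀ j ≤ k, 0 ≤ (path (tr R ω) j).1.2 ∧ (path (tr R ω) j).1.2 ≤ h := fun j hj => by
      have b1 := a2 (j + 1) (by omega)
      have b2 := fv_bd (path (tr R ω) j)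
      have b3 := path_pos (tr R ω) j
      rw [fp_succ] at b1
      omega
    have a4 := fv_bd (path (tr R ω) k)
    have a5 := fd_bd (path (tr R ω) k)
    rw [fp_succ, abs_eq_max_neg] at a1
    by_cases b : 0 ≤ (fv (path (tr R ω) k)).1
    · left
      obtain ⟨x, y, d1, d2, d3, d4⟩ := (seg_conn (ω := tr R ω) (ω' := bc (tr R ω))
        (S := {z | 0 ≤ z.2 ∧ z.2 ≤ h}) k.zero_le (fun i _ hi => a3 i hi) fun _ _ _ b => b).strip
        lip_fst (a := 1) (b := (l - 1) / 2) (by omega) (by simp [path_zero]) (by omega)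
      have := d3.mem (a3 0 k.zero_le)
      refine ⟨x, y, ⟨?_, d1, d2⟩, d4.mono (fun z hz => ?_) fun e he ho => ?_⟩
      · simp only [mem_Rc, Set.mem_ofPred_eq] at this ⊢; omega
      · simp only [mem_Rc, Set.mem_inter_iff, Set.mem_ofPred_eq] at hz ⊢; omega
      · have e1 := he.1.2.1
        have e2 := he.2.2.1
        rcases bc_open ho with g | ⟨-, g⟩
        · omega
        · rcases tr_open g with g | g
          · omega
          · exact g.2
    · right
      have a6 : ∀ i ≤ k, fd (path (tr R ω) i) ∈ {z : V | (z.2 < 0 → 0 ≤ z.1) ∧ z.2 ≤ h} :=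
        fun i hi => ⟨fd_low _ i, by
          have := a3 i hi
          have := fd_bd (path (tr R ω) i)
          omega⟩
      obtain ⟨x, y, d1, d2, d3, d4⟩ := (seg_dual (ω := tr R ω) (ω' := bc (tr R ω))
        k.zero_le (fun i _ hi => a6 i hi) fun _ _ _ b => b).symm'.strip
        lip_fst (a := -((l - 1) / 2)) (b := -1) (by omega) (by omega) (by simp [path_zero, fd])
      have := d3.mem (a6 k le_rfl)
      refine ⟨x, y, ⟨?_, d1, d2⟩, d4.mono (fun z hz => ?_) fun e he ho => ?_⟩
      · simp only [mem_Rc, Set.mem_ofPred_eq] at this ⊢; omega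
      · simp only [mem_Rc, Set.mem_inter_iff, Set.mem_ofPred_eq] at hz ⊢; omega
      · have e1 := he.2.2.2
        have e2 := he.2.1.1
        have e3 : (hd (dl e)).1 ≤ (hd e).1 + 1 := by
          obtain ⟨v, t⟩ := e
          cases t <;> simp [dl]
        simp only [du, Bool.not_eq_true'] at ho ⊢
        rcases bc_closed (ω := tr R ω) (e := dl e) (by simp [ho]) with g | g | g
        · simp only [dl] at g; omega
        · simp only [dl] at g; omega
        · rcases tr_closed g with g | g
          · omega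
          · simpa using g.2
  · have := hq ((l - 1) / 2 - 1) h hh
    simpa using this
  · have := hq ((l - 1) / 2 - 1) h hh
    rw [show -1 - -((l - 1) / 2) = (l - 1) / 2 - 1 by ring]
    simpa using this

end Pool.Agent.P.MP_6c8efb_pr.SLE.T0
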