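import Pool.Agent.P.MP_6c8efb_pr.SLE.T0Tail
import Pool.Agent.P.MP_6c8efb_pr.Cardy.NCnt
import Pool.Agent.P.MP_a3bdf6_co.Menger

/-! The number of macroscopic steps of the exploration path in a bounded region is tight. -/

namespace Pool.Agent.P.MP_6c8efb_pr.SLE.T0

open Pool.Agent.P.MP_6c8efb_pr.Cardy (DN mem_DN Pr_DN loc_DN)

/-- crossings of an annulus which avoid any small set give disjoint crossings -/
theorem dn_of_cut {ω ω' : Cfg} {S : Set V} {z : V} {r R : ℤ} {n : ℕ} (hr : r ≤ R)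
    (hω : ∀ e ∈ In (S ∩ An z r R), ω' e = true → ω e = true)
    (h : ∀ Y : Finset V, Y.card < n → ∃ x y, x ∈ S \ Y ∧ nm z x ≤ r ∧ R ≤ nm z y ∧
      Conn ω' (S \ Y) x y) : ω ∈ DN (Arm1 z r R) n := by
  classical
  let B := (An_finite z r R).toFinset
  have mB : ∀ x, x ∈ B ↔ x ∈ An z r R := fun x => Set.Finite.mem_toFinset _
  obtain ⟨T, ⟨t1, t2⟩, t3⟩ := MP_a3bdf6_co.menger_aux n
    ((B ×ˢ B).filter fun p => ∃ d, p.2 = p.1 + u d ∧ ω (edge p.1 d) = true)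
    (B.filter fun x => nm z x ≤ r) (B.filter fun x => R ≤ nm z x) fun Y hY => by
      obtain ⟨x, y, a1, a2, a3, a4⟩ := h Y hY
      obtain ⟨x', y', b1, b2, b3, b4⟩ := a4.strip (nm_lip' z) hr a2 a3
      refine ⟨x', Finset.mem_filter.2 ⟨(mB _).2 ⟨b1.ge, by omega⟩, b1.le⟩, y',
        Finset.mem_filter.2 ⟨(mB _).2 ⟨by omega, b2.le⟩, b2.ge⟩, ?_⟩
      refine b4.ind (p := fun w => MP_a3bdf6_co.Rch _ _ x' w) (.refl (b3.mem a1).2)
        fun a d _ ha hb ho ih => ih.tail (Finset.mem_filter.2 ⟨Finset.mem_product.2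
          ⟨(mB _).2 ha.2, (mB _).2 hb.2⟩, d, rfl,
          hω _ (edge_mem_In.2 ⟨⟨ha.1.1, ha.2⟩, hb.1.1, hb.2⟩) ho⟩) hb.1.2
  refine mem_DN T (fun P e => ω e && decide (e ∈ In {w | w ∈ P})) (fun P hP => ⟨fun e => ?_, ?_⟩)
    (fun P hP P' hP' hne e a b => ?_) t3.ge
  · exact Bool.and_le_left _ _
  · obtain ⟨-, a, ha, b, hb, hw⟩ := t1 P hP
    refine ⟨a, b, ⟨(Finset.mem_filter.1 ha).2, (Finset.mem_filter.1 hb).2⟩, ?_⟩
    have : ∀ L : Set V, (∀ w ∈ P, w ∈ L) →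
        Conn (fun e => ω e && decide (e ∈ In L)) Set.univ a b := fun L hL => by
      clear ha hb hP
      induction hw with
      | single => exact Conn.rfl'
      | cons h1 h2 ih =>
        obtain ⟨-, d, e1, e2⟩ := Finset.mem_filter.1 h1
        simp only at e1 e2
        subst e1
        refine (Conn.one (Set.mem_univ _) (Set.mem_univ _) ?_).trans' (ih fun w hw => hL w (by simp [hw]))
        simp [e2, edge_mem_In, hL _ List.mem_cons_self,
          hL _ (List.mem_cons_of_mem _ h2.head_mem)]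
    exact this _ fun _ h => h
  · simp only [Bool.and_eq_true, decide_eq_true_eq] at a b
    exact hne (t2 P hP P' hP' _ a.2.1 b.2.1)

/-- among many disjoint intervals of time, one avoids a given small set -/
theorem avoid (ω : Cfg) {φ : D → V} (hφ : ∀ c c', φ c = φ c' → c.2 = c'.2 → c = c') {κ : ℕ → ℕ}
    (hκ : Monotone κ) (I : Finset ℕ) (Y : Finset V) (h : 4 * Y.card < I.card) :
    ∃ i ∈ I, ∀ j, κ i ≤ j → j < κ (i + 1) → φ (path ω j) ∉ Y := by
  by_contra c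
  push Not at c
  choose! j j1 j2 j3 using c
  have := Finset.card_le_card_of_injOn (s := I) (t := Y ×ˢ (Finset.univ : Finset (Fin 4)))
    (fun i => (φ (path ω (j i)), (path ω (j i)).2)) (fun i hi => by simp [j3 i hi])
    fun i hi i' hi' e => by
      have e1 := path_inj ω (hφ _ _ (Prod.ext_iff.1 e).1 (Prod.ext_iff.1 e).2)
      have a1 := j1 i hi
      have a2 := j2 i hi
      have a3 := j1 i' hi'
      have a4 := j2 i' hi'
      by_contra b
      rcases lt_or_gt_of_ne b with b | b <;> have := hκ (Nat.succ_le_of_lt b) <;>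
        simp only [Nat.succ_eq_add_one] at this <;> omega
  simp at this
  omega

theorem grid {r K : ℤ} (hr : 0 < r) {a : V} (h : nm 0 a ≤ K * r) :
    ∃ γ ∈ Finset.Icc (-K) K ×ˢ Finset.Icc (-K) K, nm (r * γ.1, r * γ.2) a ≤ r - 1 := by
  simp only [nm, Prod.fst_zero, Prod.snd_zero, sub_zero, max_le_iff, abs_le] at h
  refine ⟨(a.1 / r, a.2 / r), ?_, ?_⟩
  · simp only [Finset.mem_product, Finset.mem_Icc, Int.le_ediv_iff_mul_le hr]
    exact ⟨⟨by linarith, Int.ediv_le_of_le_mul hr h.1.2⟩, by linarith,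
      Int.ediv_le_of_le_mul hr h.2.2⟩
  · have a1 := Int.mul_ediv_add_emod a.1 r
    have a2 := Int.mul_ediv_add_emod a.2 r
    have a3 := Int.emod_nonneg a.1 hr.ne'
    have a4 := Int.emod_nonneg a.2 hr.ne'
    have a5 := Int.emod_lt_of_pos a.1 hr
    have a6 := Int.emod_lt_of_pos a.2 hr
    simp only [nm, max_le_iff, abs_le]
    refine ⟨⟨?_, ?_⟩, ?_, ?_⟩ <;> linarith

theorem fp_bd (ω : Cfg) (j : ℕ) : 2 * (path ω (j - 1)).1.1 - 1 ≤ (fp ω j).1 ∧
    (fp ω j).1 ≤ 2 * (path ω (j - 1)).1.1 ∧ 2 * (path ω (j - 1)).1.2 ≤ (fp ω j).2 ∧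
    (fp ω j).2 ≤ 2 * (path ω (j - 1)).1.2 + 2 := by
  cases j with
  | zero => simp [fp, path_zero]
  | succ j =>
    have := fv_bd (path ω j)
    rw [fp_succ, Nat.add_sub_cancel]
    omega

theorem fp_lip (ω : Cfg) (j : ℕ) : nm (fp ω j) (fp ω (j + 1)) ≤ 1 := by
  obtain ⟨d, h⟩ := (s_fp ω).stp j
  have := nm_lip (fp ω j) (fp ω j) d
  rw [h]
  simpa [nm] using this

theorem nm_le {a b : V} {r : ℤ} :
    nm a b ≤ r ↔ a.1 - r ≤ b.1 ∧ b.1 ≤ a.1 + r ∧ a.2 - r ≤ b.2 ∧ b.2 ≤ a.2 + r := by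
  simp only [nm, abs_eq_max_neg]; omega

theorem le_nm {a b : V} {r : ℤ} :
    r ≤ nm a b ↔ b.1 ≤ a.1 - r ∨ a.1 + r ≤ b.1 ∨ b.2 ≤ a.2 - r ∨ a.2 + r ≤ b.2 := by
  simp only [nm, abs_eq_max_neg]; omega

/-- the two ends are on both sides of an annulus which meets at most one half of the axis -/
def Sep (z : V) (r : ℤ) (a b : V) : Prop := (4 * r ≤ z.1 ∨ 4 * r ≤ z.2 ∨ z.1 ≤ -(4 * r)) ∧
  (nm z a ≤ r - 1 ∧ 3 * r + 1 ≤ nm z b ∨ nm z b ≤ r - 1 ∧ 3 * r + 1 ≤ nm z a)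

theorem exists_sep {r K : ℤ} (hr : 0 < r) {a b : V} (ha : nm 0 a ≤ K * r) (hb : nm 0 b ≤ K * r)
    (a0 : 0 ≤ a.2) (b0 : 0 ≤ b.2) (h : 18 * r ≤ nm a b) :
    ∃ γ ∈ Finset.Icc (-K) K ×ˢ Finset.Icc (-K) K, Sep (r * γ.1, r * γ.2) r a b := by
  by_cases c : 9 * r ≤ nm 0 a
  · obtain ⟨γ, g1, g2⟩ := grid hr ha
    refine ⟨γ, g1, ?_, Or.inl ⟨g2, ?_⟩⟩ <;> generalize (r * γ.1, r * γ.2) = z at g2 <;>
      simp only [nm_le, le_nm, Prod.fst_zero, Prod.snd_zero] at g2 c h ⊢ <;> omega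
  · obtain ⟨γ, g1, g2⟩ := grid hr hb
    refine ⟨γ, g1, ?_, Or.inr ⟨g2, ?_⟩⟩ <;> generalize (r * γ.1, r * γ.2) = z at g2 <;>
      simp only [nm_le, le_nm, Prod.fst_zero, Prod.snd_zero] at g2 c h ⊢ <;> omega

theorem many {ω : Cfg} {z : V} {r : ℤ} (hr : 0 < r) {κ : ℕ → ℕ} (hκ : Monotone κ) {I : Finset ℕ}
    {n : ℕ} (hI : 4 * n < I.card) (h : ∀ i ∈ I, κ i < κ (i + 1) ∧
      Sep z r (path ω (κ i)).1 (path ω (κ (i + 1) - 1)).1) :
    ω ∈ DN (Arm1 z r (3 * r)) n ∨ du ω ∈ DN (Arm1 z r (3 * r)) n := by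
  by_cases c : 4 * r ≤ z.1 ∨ 4 * r ≤ z.2
  · refine Or.inl (dn_of_cut (ω' := bc ω) (S := Set.univ) (by omega) (fun e he ho => ?_)
      fun Y hY => ?_)
    · have := he.1.2.2
      rw [nm_le] at this
      rcases bc_open ho with g | g
      · omega
      · exact g.2
    · obtain ⟨i, hi, a1⟩ := avoid ω (φ := Prod.fst) (fun c c' => Prod.ext) hκ I Y (by omega)
      obtain ⟨a2, -, a3⟩ := h i hi
      have a4 := seg_conn (ω := ω) (ω' := bc ω) (S := Set.univ \ Y) (j := κ i) (k := κ (i + 1) - 1)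
        (by omega) (fun j b1 b2 => ⟨trivial, a1 j b1 (by omega)⟩) fun _ _ _ b => b
      rcases a3 with a3 | a3
      · exact ⟨_, _, ⟨trivial, a1 _ le_rfl a2⟩, by omega, by omega, a4⟩
      · exact ⟨_, _, ⟨trivial, a1 _ (by omega) (by omega)⟩, by omega, by omega, a4.symm'⟩
  · obtain ⟨i0, hi0⟩ : I.Nonempty := Finset.card_pos.1 (by omega)
    have c2 := (h i0 hi0).2.1
    refine Or.inr (dn_of_cut (ω' := du (bc ω)) (S := {f | f.2 < 0 → 0 ≤ f.1}) (by omega)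
      (fun e he ho => ?_) fun Y hY => ?_)
    · have e1 := he.2.2.2
      have e2 := he.2.1
      simp only [nm_le, Set.mem_ofPred_eq] at e1 e2
      simp only [du, Bool.not_eq_true'] at ho ⊢
      rcases bc_closed (ω := ω) (e := dl e) (by simp [ho]) with g | g | g
      · simp only [dl] at g; omega
      · simp only [dl] at g; omega
      · simpa using g
    · obtain ⟨i, hi, a1⟩ := avoid ω (φ := fd) (by
        rintro ⟨x, d⟩ ⟨x', d'⟩ e1 (rfl : d = d')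
        rcases cases4 d with rfl | rfl | rfl | rfl <;> simp [fd, Prod.ext_iff] at e1 ⊢ <;> omega)
        hκ I Y (by omega)
      obtain ⟨a2, -, a3⟩ := h i hi
      have a4 := seg_dual (ω := ω) (ω' := bc ω) (S := {f | f.2 < 0 → 0 ≤ f.1} \ Y) (j := κ i)
        (k := κ (i + 1) - 1) (by omega) (fun j b1 b2 => ⟨fd_low ω j, a1 j b1 (by omega)⟩)
        fun _ _ _ b => b
      have a5 := fd_bd (path ω (κ i))
      have a6 := fd_bd (path ω (κ (i + 1) - 1))
      simp only [nm_le, le_nm] at a3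
      rcases a3 with a3 | a3
      · refine ⟨_, _, ⟨fd_low ω _, a1 _ le_rfl a2⟩, ?_, ?_, a4⟩ <;>
          simp only [nm_le, le_nm] <;> omega
      · refine ⟨_, _, ⟨fd_low ω _, a1 _ (by omega) (by omega)⟩, ?_, ?_, a4.symm'⟩ <;>
          simp only [nm_le, le_nm] <;> omega

theorem s_t1 : S_T1 := fun A ε hε => by
  classical
  obtain ⟨q, q0, q1, hq⟩ := ann_one
  set G := Finset.Icc (-(80 * A : ℤ)) (80 * A) ×ˢ Finset.Icc (-(80 * A : ℤ)) (80 * A) with hG
  obtain ⟨n, hn⟩ := exists_pow_lt_of_lt_one (show 0 < ε / (2 * G.card + 1) by positivity) q1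
  refine ⟨G.card * (4 * n) + 1, 80, fun m hm => ?_⟩
  obtain ⟨r, r1, r2, r3⟩ : ∃ r : ℤ, 2 ≤ r ∧ 40 * r ≤ m ∧ m ≤ 80 * r := ⟨m / 40, by omega⟩
  have hA : A * m ≤ 80 * A * r := by nlinarith [Int.natCast_nonneg A]
  refine (Pr_mono (B := {ω | ∃ γ ∈ G, ω ∈ DN (Arm1 (r * γ.1, r * γ.2) r (3 * r)) n ∪
    {ω | du ω ∈ DN (Arm1 (r * γ.1, r * γ.2) r (3 * r)) n}}) ?_).trans
    ((Pr_exists_le _ _ _).trans ?_)
  · rintro ω ⟨k, k1, k2, k3⟩
    have key : ∀ i, i < G.card * (4 * n) + 1 → ∃ γ ∈ G, k i - 1 < k (i + 1) - 1 ∧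
        Sep (r * γ.1, r * γ.2) r (path ω (k i - 1)).1 (path ω (k (i + 1) - 1 - 1)).1 := by
      intro i hi
      have a1 := k3 i hi
      have a2 := k1 (Nat.le_succ i)
      have a3 := k1 (Nat.succ_le_of_lt hi)
      simp only [Nat.succ_eq_add_one] at a2 a3
      have a4 : k i ≠ k (i + 1) := fun e => by
        rw [e] at a1
        simp [nm] at a1
        omega
      obtain ⟨j, hj⟩ : ∃ j, k (i + 1) = j + 1 := ⟨k (i + 1) - 1, by omega⟩
      have a5 := k2 (k i) (by omega)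
      have a6 := k2 j (by omega)
      have a7 := fp_lip ω j
      have a8 := fp_bd ω (k i)
      have a9 := fp_bd ω j
      rw [hj] at a1 ⊢
      rw [Nat.add_sub_cancel]
      have b1 : 18 * r ≤ nm (path ω (k i - 1)).1 (path ω (j - 1)).1 := by
        simp only [nm_le, le_nm] at a1 a7 ⊢
        omega
      have b2 := path_pos ω (k i - 1)
      have b3 := path_pos ω (j - 1)
      obtain ⟨γ, g1, g2⟩ := exists_sep (K := 80 * A) (by omega)
        (by simp only [nm_le, Prod.fst_zero, Prod.snd_zero] at a5 ⊢; omega)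
        (by simp only [nm_le, Prod.fst_zero, Prod.snd_zero] at a6 ⊢; omega) b2 b3 b1
      refine ⟨γ, g1, ?_, g2⟩
      by_contra b
      rw [show j - 1 = k i - 1 by omega] at b1
      simp [nm] at b1
      omega
    choose! f f1 f2 using key
    obtain ⟨γ, g1, g2⟩ := Finset.exists_lt_card_fiber_of_mul_lt_card_of_maps_to
      (s := Finset.range (G.card * (4 * n) + 1)) (t := G) (f := f) (n := 4 * n)
      (fun i hi => f1 i (Finset.mem_range.1 hi)) (by simp)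
    exact ⟨γ, g1, many (κ := fun i => k i - 1) (by omega)
      (fun i j h => Nat.sub_le_sub_right (k1 h) 1) g2 fun i hi => by
        rw [Finset.mem_filter, Finset.mem_range] at hi
        exact hi.2 ▸ f2 i hi.1⟩
  · have b : ∀ z, Q (DN (Arm1 z r (3 * r)) n) ≤ q ^ n := fun z =>
      (Pr_DN _ (loc_Arm1 z (by omega)) (up_Arm1 ..) n).trans
        (pow_le_pow_left₀ (Pr_nonneg _ _) (hq z r r1) n)
    refine (Finset.sum_le_card_nsmul _ _ (q ^ n + q ^ n) fun γ _ => (Pr_union_le _ _ _).trans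
      (add_le_add (b _) ((Q_du (loc_DN (loc_Arm1 _ (by omega)) n)).le.trans (b _)))).trans ?_
    rw [lt_div_iff₀ (by positivity)] at hn
    rw [nsmul_eq_mul]
    nlinarith [pow_pos q0 n]

end Pool.Agent.P.MP_6c8efb_pr.SLE.T0
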