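import Pool.Agent.P.MP_6c8efb_pr.SLE.LDefs

/-! Tightness assembly: the deterministic core, for an abstract map `g : D → HH`. -/

namespace Pool.Agent.P.MP_6c8efb_pr.SLE.TA

open Set Filter Topology Metric Complex L
open scoped NNReal

/-- intermediate values on a right neighbourhood of `τ` for a function with a limit at `τ` -/
theorem ivt_right {φ : ℝ≥0 → ℝ} {τ u : ℝ≥0} {a c : ℝ} (hu : τ < u)
    (hc : ContinuousOn φ (Ioc τ u)) (hl : Tendsto φ (𝓝[>] τ) (𝓝 a)) (h1 : a < c) (h2 : c ≤ φ u) :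
    ∃ v ∈ Ioc τ u, φ v = c := by
  have h3 : ∀ᶠ v in 𝓝[>] τ, φ v < c ∧ v ∈ Ioc τ u :=
    (hl.eventually (gt_mem_nhds h1)).and (Ioc_mem_nhdsGT hu)
  obtain ⟨v, hv, hv'⟩ := h3.exists
  obtain ⟨w, hw, e⟩ := intermediate_value_Icc hv'.2
    (hc.mono fun x hx => ⟨hv'.1.trans_le hx.1, hx.2⟩) ⟨hv.le, h2⟩
  exact ⟨w, ⟨hv'.1.trans_le hw.1, hw.2⟩, e⟩

/-- A connected subset of `D` joining the inside of a half circle to its outside meets the image
of the half circle. -/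
theorem sep {D Z : Set ℂ} {g f : ℂ → ℂ} {x z a b : ℂ} {s r : ℝ} (hg : ContinuousOn g D)
    (hH : MapsTo g D HH) (hfg : ∀ y ∈ D, f (g y) = y)
    (hf : ∀ w ∈ HH, ‖w - x‖ = s → ‖f w - z‖ ≤ r) (hZ : IsPreconnected Z) (hZD : Z ⊆ D)
    (ha : a ∈ Z) (hb : b ∈ Z) (h1 : ‖g a - x‖ ≤ s) (h2 : s ≤ ‖g b - x‖) :
    ∃ y ∈ Z, ‖y - z‖ ≤ r := by
  obtain ⟨y, hy, e⟩ := hZ.intermediate_value ha hb
    (f := fun y => ‖g y - x‖) (((hg.mono hZD).sub continuousOn_const).norm) ⟨h1, h2⟩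
  exact ⟨y, hy, by simpa [hfg y (hZD hy)] using hf _ (hH (hZD hy)) e⟩

/-- The flat case: the image of the curve goes far to one side while staying low, so that it
crosses the small half circles. -/
theorem cross {φ : ℝ≥0 → ℂ} {τ u₀ : ℝ≥0} {W e σ s : ℝ} (hc : ContinuousOn φ (Ioc τ u₀))
    (htip : Tendsto φ (𝓝[>] τ) (𝓝 W)) (hh : ∀ u ∈ Ioc τ u₀, |(φ u).im| ≤ s) (he : |e| = 1)
    (hσ : 0 < σ) (hs : s < σ / 3) (hu₀ : τ < u₀) (hfar : σ / 3 ≤ e * ((φ u₀).re - W)) :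
    ∃ u ∈ Ioc τ u₀, ‖φ u - (W + e * (σ / 3) : ℝ)‖ = s := by
  have hee : e * e = 1 := by rw [← abs_mul_abs_self, he]; norm_num
  set x₀ : ℝ := W + e * (σ / 3) with hx₀
  obtain ⟨u₁, hu₁, e₁⟩ : ∃ v ∈ Ioc τ u₀, e * ((φ v).re - W) = σ / 3 := by
    refine ivt_right (φ := fun v => e * ((φ v).re - W)) (a := 0) hu₀ ?_ ?_ (by positivity) hfar
    · exact continuousOn_const.mul ((continuous_re.comp_continuousOn hc).sub continuousOn_const)
    · have := ((continuous_re.tendsto _).comp htip).sub_const W |>.const_mul e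
      simpa using this
  have hre : (φ u₁).re = x₀ := by
    have : e * (e * ((φ u₁).re - W)) = e * (σ / 3) := by rw [e₁]
    rw [← mul_assoc, hee] at this
    rw [hx₀]; linarith
  have hin : ‖φ u₁ - x₀‖ ≤ s := by
    have h2 : φ u₁ - x₀ = ((φ u₁).im : ℝ) * I := by
      apply Complex.ext <;> simp [hre]
    rw [h2, norm_mul, norm_I, mul_one, norm_real, Real.norm_eq_abs]
    exact hh _ hu₁
  have hWx : ‖(W : ℂ) - x₀‖ = σ / 3 := by
    rw [← ofReal_sub, norm_real, Real.norm_eq_abs, hx₀, show W - (W + e * (σ / 3)) = -(e * (σ / 3))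
      by ring, abs_neg, abs_mul, he, one_mul, abs_of_pos (by positivity)]
  obtain ⟨u, hu, eu⟩ : ∃ v ∈ Ioc τ u₁, -‖φ v - x₀‖ = -s := by
    refine ivt_right (φ := fun v => -‖φ v - x₀‖) (a := -(σ / 3)) hu₁.1 ?_ ?_ (by linarith)
      (by linarith)
    · exact (((hc.mono (Ioc_subset_Ioc_right hu₁.2)).sub continuousOn_const).norm).neg
    · rw [← hWx]; exact (htip.sub_const _).norm.neg
  exact ⟨u, ⟨hu.1, hu.2.trans hu₁.2⟩, by linarith⟩

/-- the length-area bound can be made small -/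
theorem small {C η a : ℝ} (hC : 0 < C) (hη : 0 < η) (ha : 0 < a) :
    ∃ s : ℝ, 0 < s ∧ s < a ∧ C / √(Real.log (a / s)) ≤ η := by
  have hq : 0 < C / η := by positivity
  have he : 1 < Real.exp ((C / η) ^ 2) := Real.one_lt_exp_iff.2 (by positivity)
  refine ⟨a / Real.exp ((C / η) ^ 2), by positivity, div_lt_self ha he, le_of_eq ?_⟩
  rw [div_div_cancel₀ ha.ne', Real.log_exp, Real.sqrt_sq hq.le]
  field_simp

end Pool.Agent.P.MP_6c8efb_pr.SLE.TA
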