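import Mathlib

/-! Tightness assembly: successive steps of a given size along a sequence of points. -/

namespace Pool.Agent.P.MP_6c8efb_pr.SLE.TA

open Set
open scoped NNReal

/-- the first index after `k` at distance at least `ε` from the point of index `k` -/
noncomputable def nxt (P : ℕ → ℂ) (ε : ℝ) (k : ℕ) : ℕ := sInf {j | k < j ∧ ε ≤ ‖P j - P k‖}

/-- the successive steps -/
noncomputable def sto (P : ℕ → ℂ) (ε : ℝ) (i : ℕ) : ℕ := (nxt P ε)^[i] 0

/-- the sequence leaves every ball after every index -/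
def Unb (P : ℕ → ℂ) : Prop := ∀ (k : ℕ) (r : ℝ), ∃ j, k < j ∧ r ≤ ‖P j‖

variable {P P' : ℕ → ℂ} {ε : ℝ}

theorem sto_succ (i : ℕ) : sto P ε (i + 1) = nxt P ε (sto P ε i) :=
  Function.iterate_succ_apply' _ _ _

theorem nxt_spec (h : Unb P) (k : ℕ) : k < nxt P ε k ∧ ε ≤ ‖P (nxt P ε k) - P k‖ := by
  obtain ⟨j, h1, h2⟩ := h k (ε + ‖P k‖)
  exact Nat.sInf_mem (s := {j | k < j ∧ ε ≤ ‖P j - P k‖})
    ⟨j, h1, by linarith [norm_sub_norm_le (P j) (P k)]⟩

theorem nxt_min {k j : ℕ} (h1 : k ≤ j) (h2 : j < nxt P ε k) (hε : 0 < ε) : ‖P j - P k‖ < ε := by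
  rcases h1.eq_or_lt with rfl | h1
  · simpa using hε
  · exact not_le.1 fun h => absurd (Nat.sInf_le (s := {j | k < j ∧ ε ≤ ‖P j - P k‖}) ⟨h1, h⟩)
      (not_le.2 h2)

theorem sto_strictMono (h : Unb P) : StrictMono (sto P ε) :=
  strictMono_nat_of_lt_succ fun i => by rw [sto_succ]; exact (nxt_spec h _).1

theorem sto_step (h : Unb P) (i : ℕ) : ε ≤ ‖P (sto P ε (i + 1)) - P (sto P ε i)‖ := by
  rw [sto_succ]; exact (nxt_spec h _).2

theorem nxt_loc (h : Unb P) {k : ℕ} (he : ∀ j ≤ nxt P ε k, P' j = P j) :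
    nxt P' ε k = nxt P ε k := by
  obtain ⟨h1, h2⟩ := nxt_spec (ε := ε) h k
  have hm : nxt P ε k ∈ {j | k < j ∧ ε ≤ ‖P' j - P' k‖} :=
    ⟨h1, by rwa [he _ le_rfl, he _ h1.le]⟩
  refine le_antisymm (Nat.sInf_le hm) ?_
  have h3 := Nat.sInf_mem ⟨_, hm⟩
  have h4 : nxt P' ε k ≤ nxt P ε k := Nat.sInf_le hm
  refine Nat.sInf_le ⟨h3.1, ?_⟩
  have h5 := h3.2
  rwa [show sInf {j | k < j ∧ ε ≤ ‖P' j - P' k‖} = nxt P' ε k from rfl, he _ h4, he _ h1.le] at h5

/-- the steps are stopping times -/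
theorem sto_loc (h : Unb P) {i : ℕ} (he : ∀ j ≤ sto P ε i, P' j = P j) :
    sto P' ε i = sto P ε i := by
  induction i with
  | zero => rfl
  | succ i ih =>
    have h1 : sto P ε i ≤ sto P ε (i + 1) := (sto_strictMono h i.lt_succ_self).le
    rw [sto_succ, ih fun j hj => he j (hj.trans h1), sto_succ]
    exact nxt_loc h fun j hj => he j (by rwa [sto_succ])

/-- A large oscillation contains a whole step. -/
theorem osc_step (h : Unb P) (hε : 0 < ε) {η : ℝ≥0 → ℂ} {δ : ℝ}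
    (hη : ∀ (k : ℕ) (x : ℝ≥0), (k : ℝ≥0) ≤ x → x ≤ k + 1 → ‖η x - P k‖ ≤ δ) {a b : ℝ≥0} (hab : a ≤ b)
    (hosc : 3 * ε + 4 * δ < ‖η b - η a‖) :
    ∃ i, a ≤ sto P ε i ∧ (sto P ε (i + 1) : ℝ≥0) ≤ b := by
  have hm := sto_strictMono (ε := ε) h
  have near : ∀ (i : ℕ) (x : ℝ≥0), (sto P ε i : ℝ≥0) ≤ x → x ≤ sto P ε (i + 1) →
      ‖η x - P (sto P ε i)‖ ≤ ε + δ := by
    intro i x h1 h2
    have hlt := hm i.lt_succ_self
    obtain ⟨k, k1, k2, k3, k4⟩ : ∃ k : ℕ, sto P ε i ≤ k ∧ k < sto P ε (i + 1) ∧ (k : ℝ≥0) ≤ x ∧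
        x ≤ k + 1 := by
      rcases h2.eq_or_lt with e | h2
      · obtain ⟨m, hm'⟩ : ∃ m, sto P ε (i + 1) = m + 1 := ⟨sto P ε (i + 1) - 1, by
          have : sto P ε i < sto P ε (i + 1) := hlt
          omega⟩
        have : sto P ε i < sto P ε (i + 1) := hlt
        refine ⟨m, by omega, by omega, ?_, ?_⟩ <;> rw [e, hm'] <;> simp
      · exact ⟨⌊x⌋₊, Nat.le_floor h1, (Nat.floor_lt zero_le).2 h2, Nat.floor_le zero_le,
          (Nat.lt_floor_add_one x).le⟩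
    have h3 := nxt_min (P := P) k1 (by rwa [← sto_succ]) hε
    linarith [norm_sub_le_norm_sub_add_norm_sub (η x) (P k) (P (sto P ε i)), hη k x k3 k4]
  have hex : ∃ i, a ≤ (sto P ε i : ℝ≥0) := ⟨⌈a⌉₊, (Nat.le_ceil a).trans (by exact_mod_cast hm.le_apply)⟩
  classical
  refine ⟨Nat.find hex, Nat.find_spec hex, ?_⟩
  by_contra hn
  have hb : b ≤ sto P ε (Nat.find hex + 1) := (not_le.1 hn).le
  have hδ : 0 ≤ δ := (norm_nonneg _).trans (hη 0 0 (by simp) (by simp))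
  rcases hi : Nat.find hex with _ | i
  · rw [hi] at hb
    have h0 : ((sto P ε 0 : ℕ) : ℝ≥0) = 0 := by simp [sto]
    have h1 := near 0 a (by rw [h0]; exact zero_le) (hab.trans hb)
    have h2 := near 0 b (by rw [h0]; exact zero_le) hb
    have h3 := norm_sub_le_norm_sub_add_norm_sub (η b) (P (sto P ε 0)) (η a)
    rw [norm_sub_rev (P _)] at h3
    linarith
  · rw [hi] at hb
    have ha : a ≤ sto P ε (i + 1) := hi ▸ Nat.find_spec hex
    have ha' : (sto P ε i : ℝ≥0) ≤ a := (not_le.1 (Nat.find_min hex (by omega))).le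
    have h1 := near i a ha' ha
    rcases le_total b (sto P ε (i + 1)) with h2 | h2
    · have h3 := near i b (ha'.trans hab) h2
      have h4 := norm_sub_le_norm_sub_add_norm_sub (η b) (P (sto P ε i)) (η a)
      rw [norm_sub_rev (P _)] at h4
      linarith
    · have h3 := near (i + 1) b h2 hb
      have h4 := near i (sto P ε (i + 1)) (by exact_mod_cast (hm i.lt_succ_self).le) le_rfl
      have h5 := hη (sto P ε (i + 1)) (sto P ε (i + 1)) le_rfl (by simp)
      have h6 := norm_sub_le_norm_sub_add_norm_sub (η b) (P (sto P ε (i + 1))) (η a)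
      have h7 := norm_sub_le_norm_sub_add_norm_sub (P (sto P ε (i + 1))) (η (sto P ε (i + 1))) (η a)
      have h8 := norm_sub_le_norm_sub_add_norm_sub (η (sto P ε (i + 1))) (P (sto P ε i)) (η a)
      rw [norm_sub_rev (P _)] at h8
      rw [norm_sub_rev] at h5
      linarith

/-- The same, with a step which does not start at the index `0`. -/
theorem osc_step' (h : Unb P) (hε : 0 < ε) {η : ℝ≥0 → ℂ} {δ : ℝ}
    (hη : ∀ (k : ℕ) (x : ℝ≥0), (k : ℝ≥0) ≤ x → x ≤ k + 1 → ‖η x - P k‖ ≤ δ) {a b : ℝ≥0} (hab : a ≤ b)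
    (hosc : 3 * ε + 6 * δ < ‖η b - η a‖) :
    ∃ i, 1 ≤ sto P ε i ∧ a ≤ sto P ε i ∧ (sto P ε (i + 1) : ℝ≥0) ≤ b := by
  have hδ : 0 ≤ δ := (norm_nonneg _).trans (hη 0 0 (by simp) (by simp))
  have h1 : ‖η (max a (min b 1)) - η a‖ ≤ 2 * δ := by
    rcases le_total (min b 1) a with h2 | h2
    · rw [max_eq_left h2, sub_self, norm_zero]; positivity
    · rw [max_eq_right h2]
      have h3 := hη 0 (min b 1) (by simp) (by simp)
      have h4 := hη 0 a (by simp) (by simpa using h2.trans (min_le_right _ _))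
      have h5 := norm_sub_le_norm_sub_add_norm_sub (η (min b 1)) (P 0) (η a)
      rw [norm_sub_rev (P 0)] at h5
      linarith
  obtain ⟨i, h2, h3⟩ := osc_step h hε hη (a := max a (min b 1)) (max_le hab (min_le_left _ _))
    (by linarith [norm_sub_le_norm_sub_add_norm_sub (η b) (η (max a (min b 1))) (η a)])
  refine ⟨i, ?_, (le_max_left _ _).trans h2, h3⟩
  have h4 : sto P ε i < sto P ε (i + 1) := sto_strictMono h i.lt_succ_self
  have h5 : (1 : ℝ≥0) ≤ b := le_trans (by exact_mod_cast (by omega : 1 ≤ sto P ε (i + 1))) h3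
  rw [min_eq_right h5] at h2
  exact_mod_cast (le_max_right _ _).trans h2

end Pool.Agent.P.MP_6c8efb_pr.SLE.TA
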