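import Pool.Agent.P.MP_6c8efb_pr.SLE.Iface
import Pool.Agent.P.MP_6c8efb_pr.SLE.TAStep

/-! Tightness assembly: elementary geometry of the fine lattice. -/

namespace Pool.Agent.P.MP_6c8efb_pr.SLE.TA

open Set Complex
open scoped NNReal

variable {h : ℝ} {q : ℕ → V}

/-- the points of the path in the lattice of mesh `h` -/
noncomputable def pt (h : ℝ) (q : ℕ → V) (k : ℕ) : ℂ := h * cx (q k)

theorem pc_nat (h : ℝ) (q : ℕ → V) (k : ℕ) : pc h q k = pt h q k := by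
  simp [pc, interp, pt]

theorem pc_edge {k : ℕ} {d : Fin 4} (e : q (k + 1) = q k + u d) {x : ℝ≥0} (h1 : (k : ℝ≥0) ≤ x)
    (h2 : x ≤ k + 1) : pc h q x =
      ⟨h * ((q k).1 + ((x : ℝ) - k) * (u d).1), h * ((q k).2 + ((x : ℝ) - k) * (u d).2)⟩ := by
  have h3 : (x : ℝ) ∈ Icc (k : ℝ) (k + 1) := ⟨by exact_mod_cast h1, by exact_mod_cast h2⟩
  change interp (fun k => (h : ℂ) * cx (q k)) x = _
  rw [interp_of_mem _ k h3, e]
  apply Complex.ext <;> simp [cx] <;> ring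

theorem pc_near (hh : 0 ≤ h) (H : FP q) (k : ℕ) (x : ℝ≥0) (h1 : (k : ℝ≥0) ≤ x) (h2 : x ≤ k + 1) :
    ‖pc h q x - pt h q k‖ ≤ h := by
  obtain ⟨d, e⟩ := H.stp k
  have h3 : (0 : ℝ) ≤ x - k := sub_nonneg.2 (by exact_mod_cast h1)
  have h4 : (x : ℝ) - k ≤ 1 := sub_le_iff_le_add'.2 (by exact_mod_cast h2)
  refine (norm_le_abs_re_add_abs_im _).trans ?_
  have h5 : h * ((x : ℝ) - k) ≤ h := by nlinarith
  have h6 : 0 ≤ h * ((x : ℝ) - k) := by positivity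
  rw [pc_edge e h1 h2]
  fin_cases d <;> simp [pt, cx, u] <;> rw [abs_le] <;> constructor <;> nlinarith

theorem pc_sq (hh : 0 ≤ h) {k : ℕ} {d : Fin 4} (e : q (k + 1) = q k + u d) {x : ℝ≥0}
    (h1 : (k : ℝ≥0) ≤ x) (h2 : x ≤ k + 1) : pc h q x ∈ sq h (fc (q k) d) := by
  have h3 : (0 : ℝ) ≤ x - k := sub_nonneg.2 (by exact_mod_cast h1)
  have h4 : (x : ℝ) - k ≤ 1 := sub_le_iff_le_add'.2 (by exact_mod_cast h2)
  have h5 : h * ((x : ℝ) - k) ≤ h := by nlinarith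
  have h6 : 0 ≤ h * ((x : ℝ) - k) := by positivity
  rw [pc_edge e h1 h2]
  fin_cases d <;> simp [sq, u] <;> refine ⟨?_, ?_⟩ <;> try refine ⟨?_, ?_⟩
  all_goals nlinarith

theorem nm_le (hh : 0 ≤ h) (a b : V) : h * nm a b ≤ ‖(h : ℂ) * cx b - h * cx a‖ := by
  have h1 := abs_re_le_norm ((h : ℂ) * cx b - h * cx a)
  have h2 := abs_im_le_norm ((h : ℂ) * cx b - h * cx a)
  simp only [cx, sub_re, re_ofReal_mul, sub_im, im_ofReal_mul, ← mul_sub, abs_mul,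
    abs_of_nonneg hh] at h1 h2 ⊢
  rw [nm]; push_cast
  rcases le_total |(b.1 : ℝ) - a.1| |(b.2 : ℝ) - a.2| with h3 | h3
  · rwa [max_eq_right h3]
  · rwa [max_eq_left h3]

theorem le_nm (hh : 0 ≤ h) (a b : V) : ‖(h : ℂ) * cx b - h * cx a‖ ≤ 2 * h * nm a b := by
  refine (norm_le_abs_re_add_abs_im _).trans ?_
  simp only [cx, sub_re, re_ofReal_mul, sub_im, im_ofReal_mul, ← mul_sub, abs_mul,
    abs_of_nonneg hh]
  rw [nm]; push_cast
  nlinarith [le_max_left |(b.1 : ℝ) - a.1| |(b.2 : ℝ) - a.2|,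
    le_max_right |(b.1 : ℝ) - a.1| |(b.2 : ℝ) - a.2|]

theorem sq_near {c : V} {z : ℂ} (hz : z ∈ sq h c) : ‖z - h * cx c‖ ≤ 2 * h := by
  obtain ⟨h1, h2, h3, h4⟩ := hz
  refine (norm_le_abs_re_add_abs_im _).trans ?_
  simp only [cx, sub_re, re_ofReal_mul, sub_im, im_ofReal_mul]
  have h5 : |z.re - h * c.1| ≤ h := abs_le.2 ⟨by linarith, by linarith⟩
  have h6 : |z.im - h * c.2| ≤ h := abs_le.2 ⟨by linarith, by linarith⟩
  linarith

theorem round (hh : 0 < h) (z : ℂ) : ∃ c : V, ‖z - h * cx c‖ ≤ 2 * h := by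
  refine ⟨(⌊z.re / h⌋, ⌊z.im / h⌋), sq_near ⟨?_, ?_, ?_, ?_⟩⟩
  · exact (le_div_iff₀' hh).1 (Int.floor_le _)
  · exact (div_le_iff₀' hh).1 (Int.lt_floor_add_one _).le
  · exact (le_div_iff₀' hh).1 (Int.floor_le _)
  · exact (div_le_iff₀' hh).1 (Int.lt_floor_add_one _).le

theorem finite_ball (hh : 0 < h) (r : ℝ) : {c : V | ‖(h : ℂ) * cx c‖ ≤ r}.Finite := by
  refine ((finite_Icc (-⌈r / h⌉) ⌈r / h⌉).prod (finite_Icc (-⌈r / h⌉) ⌈r / h⌉)).subset fun c hc => ?_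
  have h1 := nm_le hh.le 0 c
  have h2 : cx 0 = 0 := by simp [cx, Complex.ext_iff]
  rw [h2, mul_zero, sub_zero] at h1
  have h3 : (nm 0 c : ℝ) ≤ ⌈r / h⌉ := ((le_div_iff₀' hh).2 (h1.trans hc)).trans (Int.le_ceil _)
  have h4 : nm 0 c ≤ ⌈r / h⌉ := by exact_mod_cast h3
  simp only [nm, Prod.fst_zero, sub_zero, Prod.snd_zero, max_le_iff, abs_le] at h4
  exact ⟨h4.1, h4.2⟩

theorem unb (hh : 0 < h) (H : FP q) : Unb (pt h q) := by
  intro k r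
  by_contra hn
  push Not at hn
  exact (Ioi_infinite k).image H.inj.injOn
    ((finite_ball hh r).subset (by rintro _ ⟨j, hj, rfl⟩; exact (hn j hj).le))

theorem nm_zero_le (hh : 0 < h) {k : ℕ} {R : ℝ} {M : ℤ} (h1 : ‖pt h q k‖ ≤ R) (h2 : R ≤ h * M) :
    nm 0 (q k) ≤ M := by
  have h3 := nm_le hh.le 0 (q k)
  have h4 : cx 0 = 0 := by simp [cx, Complex.ext_iff]
  rw [h4, mul_zero, sub_zero] at h3
  have : (nm 0 (q k) : ℝ) ≤ M := le_of_mul_le_mul_left ((h3.trans h1).trans h2) hh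
  exact_mod_cast this

theorem pc_congr {q' : ℕ → V} {k : ℕ} (e : ∀ j ≤ k, q j = q' j) {x : ℝ≥0} (hx : x ≤ k) :
    pc h q x = pc h q' x := by
  rcases hx.eq_or_lt with rfl | hx
  · rw [pc_nat, pc_nat, pt, pt, e k le_rfl]
  · have h1 : ⌊(x : ℝ)⌋₊ < k := (Nat.floor_lt x.2).2 (by exact_mod_cast hx)
    change interp (fun k => (h : ℂ) * cx (q k)) x = interp (fun k => (h : ℂ) * cx (q' k)) x
    simp only [interp, e _ h1.le, e _ (Nat.succ_le_of_lt h1)]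

theorem hull_congr {η η' : ℝ≥0 → ℂ} {t : ℝ≥0} (e : ∀ x ≤ t, η x = η' x) :
    L.hull η t = L.hull η' t := image_congr fun x hx => e x hx.2

end Pool.Agent.P.MP_6c8efb_pr.SLE.TA
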