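import Pool.Agent.P.MP_6c8efb_pr.SLE.LIface
import Pool.Agent.P.MP_6c8efb_pr.SLE.TACore
import Pool.Agent.P.MP_6c8efb_pr.SLE.TALat

/-! Tightness assembly: a step of small capacity gives a gate or a flat crossing. -/

namespace Pool.Agent.P.MP_6c8efb_pr.SLE.TA

open Set Complex Metric Filter Topology
open scoped NNReal

variable {h : ℝ} {q : ℕ → V}

theorem cc_mem {k : ℕ} {S : Set V} {c c' : V} (hc : c ∈ S) (H : CC q k S c c') : c' ∈ S := by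
  rcases Relation.ReflTransGen.cases_tail H with rfl | ⟨_, _, h⟩
  · exact hc
  · exact h.2.1

/-- the gate -/
theorem gate (hC : S_CONT) (hL : L.S_L1) (hh : 0 < h) (H : FP q) (hS : L.Simple (pc h q))
    {k k' : ℕ} {z : ℂ} {W r₁ s ε : ℝ} {M m r : ℤ} (hk : k < k') (hbox : ∀ j ≤ k', nm 0 (q j) ≤ M)
    (hf : ∀ w ∈ L.HH, ‖w - W‖ = s → ‖L.ft (pc h q) k w - z‖ ≤ r₁)
    (hin : ∀ u ∈ Ioc (k : ℝ≥0) k', ‖L.gt (pc h q) k (pc h q u) - W‖ ≤ s)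
    (hstep : ε ≤ ‖pt h q k' - pt h q k‖) (hm : 4 * h * m + 5 * h ≤ ε) (hr : r₁ + 4 * h ≤ h * r)
    (hrm : r < m) : Gate q M m r := by
  obtain ⟨c, hc⟩ := round hh z
  obtain ⟨t, ht1, ht2, ht⟩ : ∃ t, k < t ∧ t ≤ k' ∧ (ε - h) / 2 ≤ ‖pt h q t - z‖ := by
    by_contra hn
    push Not at hn
    have h1 := hn k' hk le_rfl
    have h2 := hn (k + 1) k.lt_succ_self hk
    have h3 := pc_near hh.le H k (k + 1 : ℕ) (by simp) (by simp)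
    rw [pc_nat] at h3
    have h4 := norm_sub_le_norm_sub_add_norm_sub (pt h q k') (pt h q (k + 1)) (pt h q k)
    have h5 := norm_sub_le_norm_sub_add_norm_sub (pt h q k') z (pt h q (k + 1))
    rw [norm_sub_rev z] at h5
    linarith
  have hmt : m ≤ nm c (q t) := by
    have h1 := le_nm hh.le c (q t)
    have h2 := norm_sub_le_norm_sub_add_norm_sub (pt h q t) (h * cx c) z
    rw [norm_sub_rev (h * cx c) z] at h2
    have h3 : h * m ≤ h * nm c (q t) := by rw [pt] at h2 ht; linarith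
    exact_mod_cast le_of_mul_le_mul_left h3 hh
  have hpos : 0 ≤ (q t).2 := (zero_le_one.trans (H.pos t (by omega)))
  refine ⟨k, t, c, 1, ht1.le, fun j hj => hbox j (hj.trans ht2), hmt, hpos, ?_⟩
  by_contra hinf
  have hy := hS.hyd k
  obtain ⟨ρ, hρ, hK⟩ := hy.exists_radius
  obtain ⟨c', hc', hfar⟩ : ∃ c', CC q k {y | r < nm c y ∧ 0 ≤ y.2} (q t) c' ∧
      ¬‖(h : ℂ) * cx c'‖ ≤ s + 12 * ρ + |W| + 2 * h := by
    by_contra hn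
    push Not at hn
    exact hinf ((finite_ball hh _).subset hn)
  have h0 : q t ∈ {y : V | r < nm c y ∧ 0 ≤ y.2} := ⟨by omega, hpos⟩
  obtain ⟨hC1, hC2⟩ := hC h q k hh H
  have hz' := hC1 c' (cc_mem h0 hc').2
  have htD : pc h q t ∈ sq h (q t) ∩ (L.HH \ L.hull (pc h q) k) := by
    refine ⟨?_, hS.toCurve.mem_D (by exact_mod_cast ht1)⟩
    rw [pc_nat]
    simp only [sq, pt, cx, mem_ofPred_eq, re_ofReal_mul, im_ofReal_mul]
    exact ⟨le_rfl, by linarith, le_rfl, by linarith⟩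
  obtain ⟨Z, hZ, z1, z2, hZD, hZS⟩ := hC2 _ _ _ _ _ (fun y hy => hy.2) hc' htD hz'
  obtain ⟨y, hy1, hy2⟩ := sep hy.dg.continuousOn hy.mg hy.fg hf hZ hZD z1 z2
    (hin _ ⟨by exact_mod_cast ht1, by exact_mod_cast ht2⟩) (by
      have h1 := ((hL _ _ _ _ hy).1 0 ρ hρ (by simpa using hK)).2.2.2 _ hz'.2
      have h2 := sq_near hz'.1
      set w := (h : ℂ) * (cx c' + ⟨1 / 2, 1 / 2⟩)
      have h3 := norm_sub_norm_le (h * cx c') w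
      rw [norm_sub_rev] at h3
      have h4 := norm_sub_norm_le w (L.gt (pc h q) k w)
      rw [norm_sub_rev] at h4
      have h5 := norm_sub_norm_le (L.gt (pc h q) k w) W
      rw [norm_real, Real.norm_eq_abs] at h5
      linarith [not_le.1 hfar])
  obtain ⟨y', hy', hyy⟩ := mem_iUnion₂.1 (hZS hy1)
  have h1 : (r : ℝ) + 1 ≤ nm c y' := by exact_mod_cast (cc_mem h0 hy').1
  have h2 := nm_le hh.le c y'
  have h3 := sq_near hyy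
  have h4 := norm_sub_le_norm_sub_add_norm_sub (h * cx y') y (h * cx c)
  have h5 := norm_sub_le_norm_sub_add_norm_sub y z (h * cx c)
  rw [norm_sub_rev _ y] at h4
  nlinarith

/-- the image of some half circle around `x` is close to the point `c` -/
def Ctr (f : ℂ → ℂ) (x s₀ s₁ r h : ℝ) (c : V) : Prop :=
  ∃ s, s₀ ≤ s ∧ s ≤ s₁ ∧ ∀ w ∈ L.HH, ‖w - x‖ = s → ‖f w - h * cx c‖ ≤ r

/-- the centre of the small crosscut -/
noncomputable def ctr (h s₀ σ r e : ℝ) (q : ℕ → V) (k : ℕ) : V :=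
  Classical.epsilon (Ctr (L.ft (pc h q) k) (L.drv (pc h q) k + e * (σ / 3)) s₀ (σ / 10) r h)

/-- the cells of the small crosscut -/
def cel (h σ e : ℝ) (z : V) (r : ℤ) (q : ℕ → V) (k : ℕ) : Set V :=
  {c | c ∈ Bx z r ∧ ∃ p ∈ sq h c ∩ (L.HH \ L.hull (pc h q) k),
    ‖L.gt (pc h q) k p - (L.drv (pc h q) k + e * (σ / 3) : ℝ)‖ ≤ σ / 10}

/-- near the crosscut all cells are mapped to one side of the driving point -/
theorem side (hC : S_CONT) (hW : L.S_Wg) (hh : 0 < h) (H : FP q) (hS : L.Simple (pc h q))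
    {k : ℕ} {z : V} {σ e R ρ : ℝ} {r r' : ℤ} (he : |e| = 1) (hK : L.hull (pc h q) k ⊆ closedBall 0 R)
    (hz : ‖(h : ℂ) * cx z‖ ≤ R) (hρ : 0 < ρ) (hρR : ρ < R) (hom : L.om R ρ ≤ σ / 10) (hr : r ≤ r')
    (hr' : 2 * h * r' + 2 * h ≤ ρ) {c₀ c : V} (h0 : c₀ ∈ cel h σ e z r q k)
    (hc : CC q k (Bx z r') c₀ c) : ∃ p ∈ sq h c ∩ (L.HH \ L.hull (pc h q) k),
      2 * σ / 15 ≤ e * ((L.gt (pc h q) k p).re - L.drv (pc h q) k) := by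
  obtain ⟨h1, p, hp, h2⟩ := h0
  have h3 : c₀ ∈ Bx z r' := ⟨h1.1.trans hr, h1.2⟩
  obtain ⟨hC1, hC2⟩ := hC h q k hh H
  have hz' := hC1 c (cc_mem h3 hc).2
  obtain ⟨Z, hZ, z1, z2, hZD, hZS⟩ := hC2 _ _ _ _ _ (fun y hy => hy.2) hc hp hz'
  refine ⟨_, hz', ?_⟩
  set w := (h : ℂ) * (cx c + ⟨1 / 2, 1 / 2⟩)
  have h4 := (hW _ _ _ _ (hS.hyd k) R ρ _ hK hz hρ hρR).1 Z hZD (fun y hy => by
    obtain ⟨y', hy', hyy⟩ := mem_iUnion₂.1 (hZS hy)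
    have a1 : (nm z y' : ℝ) ≤ r' := by exact_mod_cast (cc_mem h3 hy').1
    have a2 := le_nm hh.le z y'
    have a3 := sq_near hyy
    have a4 := norm_sub_le_norm_sub_add_norm_sub y (h * cx y') (h * cx z)
    rw [mem_closedBall, dist_eq_norm]
    nlinarith) hZ _ z2 _ z1
  set x₀ : ℝ := L.drv (pc h q) k + e * (σ / 3) with hx₀
  have h5 : ‖L.gt (pc h q) k w - x₀‖ ≤ σ / 5 := by
    linarith [norm_sub_le_norm_sub_add_norm_sub (L.gt (pc h q) k w) (L.gt (pc h q) k p) x₀]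
  have h6 : |(L.gt (pc h q) k w).re - x₀| ≤ σ / 5 := by
    simpa using (abs_re_le_norm (L.gt (pc h q) k w - x₀)).trans h5
  have h7 : |e * ((L.gt (pc h q) k w).re - x₀)| ≤ σ / 5 := by rwa [abs_mul, he, one_mul]
  have hee : e * e = 1 := by rw [← abs_mul_abs_self, he]; norm_num
  have h8 : e * ((L.gt (pc h q) k w).re - L.drv (pc h q) k) =
      e * ((L.gt (pc h q) k w).re - x₀) + (e * e) * (σ / 3) := by rw [hx₀]; ring
  rw [h8, hee]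
  linarith [(abs_le.1 h7).1]

/-- the path visits the crosscut -/
theorem visit (hT : L.S_Tip) (hh : 0 < h) (H : FP q) (hS : L.Simple (pc h q))
    {k : ℕ} {u₀ : ℝ≥0} {z : V} {σ e R s₀ r : ℝ} {r' : ℤ} (he : |e| = 1) (hσ : 0 < σ)
    (hu₀ : (k : ℝ≥0) < u₀) (hR : ∀ u ≤ u₀, ‖pc h q u‖ ≤ R)
    (hlow : ∀ u ∈ Ioc (k : ℝ≥0) u₀, (L.gt (pc h q) k (pc h q u)).im ≤ s₀)
    (hfar : σ / 3 ≤ e * ((L.gt (pc h q) k (pc h q u₀)).re - L.drv (pc h q) k))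
    (hz : Ctr (L.ft (pc h q) k) (L.drv (pc h q) k + e * (σ / 3)) s₀ (σ / 10) r h z)
    (hr : r + 2 * h ≤ h * r') :
    ‖(h : ℂ) * cx z‖ ≤ R + r ∧ ∃ j, k ≤ j ∧ ∃ d, fc (q j) d ∈ cel h σ e z r' q k := by
  obtain ⟨s, s1, s2, hf⟩ := hz
  have hy := hS.hyd k
  have hD : ∀ u ∈ Ioc (k : ℝ≥0) u₀, pc h q u ∈ L.HH \ L.hull (pc h q) k :=
    fun u hu => hS.toCurve.mem_D hu.1
  obtain ⟨v, hv, ev⟩ := cross (φ := fun u => L.gt (pc h q) k (pc h q u)) (s := s)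
    (hy.dg.continuousOn.comp hS.cont.continuousOn hD) ((hT _ hS).1 k)
    (fun u hu => by rw [abs_of_pos (hy.mg (hD u hu))]; exact (hlow u hu).trans s1) he hσ
    (by linarith) hu₀ hfar
  have h1 := hf _ (hy.mg (hD v hv)) ev
  rw [hy.fg _ (hD v hv)] at h1
  refine ⟨?_, ⌊v⌋₊, Nat.le_floor hv.1.le, ?_⟩
  · have h2 := norm_sub_norm_le (h * cx z) (pc h q v)
    rw [norm_sub_rev] at h2
    linarith [hR v hv.2]
  obtain ⟨d, e'⟩ := H.stp ⌊v⌋₊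
  have h2 := pc_sq hh.le e' (Nat.floor_le zero_le) (Nat.lt_floor_add_one v).le
  refine ⟨d, ⟨?_, ?_⟩, _, ⟨h2, hD v hv⟩, ev.le.trans s2⟩
  · have a1 := nm_le hh.le z (fc (q ⌊v⌋₊) d)
    have a2 := sq_near h2
    have a3 := norm_sub_le_norm_sub_add_norm_sub (h * cx (fc (q ⌊v⌋₊) d)) (pc h q v) (h * cx z)
    rw [norm_sub_rev _ (pc h q v)] at a3
    have : (nm z (fc (q ⌊v⌋₊) d) : ℝ) ≤ r' := le_of_mul_le_mul_left (by linarith) hh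
    exact_mod_cast this
  · have a1 : 0 < h * (((fc (q ⌊v⌋₊) d).2 : ℝ) + 1) := lt_of_lt_of_le (hD v hv).1 h2.2.2.2
    have a2 : (0 : ℝ) < (fc (q ⌊v⌋₊) d).2 + 1 := (mul_pos_iff_of_pos_left hh).1 a1
    have a3 : 0 < (fc (q ⌊v⌋₊) d).2 + 1 := by exact_mod_cast a2
    omega

/-- a half circle with a small image -/
theorem wf (hF : L.S_Wf) (hC : L.S_Cont) {η : ℝ≥0 → ℂ} (hS : L.Simple η) {t : ℝ≥0}
    {R x s₀ s₁ r : ℝ} (hR : 0 < R) (hb : ∀ u ≤ t, ‖η u‖ ≤ R) (hx : |x - L.drv η t| ≤ 1) (h0 : 0 < s₀)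
    (h1 : s₀ < s₁) (h2 : s₁ ≤ 1) (hr : 7 * (25 * R + 2) / √(Real.log (s₁ / s₀)) ≤ r) :
    ∃ s ∈ Ioo s₀ s₁, ∃ z, ∀ w ∈ L.HH, ‖w - x‖ = s → ‖L.ft η t w - z‖ ≤ r := by
  obtain ⟨s, hs, h3⟩ := hF _ _ _ _ _ _ _ _ (hS.hyd t) (hS.hyd t) R x s₀ s₁ (L.hull_subset_ball hb)
    (L.hull_subset_ball hb) hR h0 h1
  have h4 := (hC.1 η hS).2.2.2.2.2.2.2.1 t R hR hb
  have h5 : |x| ≤ 13 * R + 1 := by linarith [abs_sub_abs_le_abs_sub x (L.drv η t)]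
  have h6 := h0.trans hs.1
  refine ⟨s, hs, L.ft η t (x + s * I), fun w hw e => ?_⟩
  refine (h3 w hw _ (by simpa [L.HH] using h6) e (by simp [abs_of_pos h6])).1.trans (le_trans ?_ hr)
  exact div_le_div_of_nonneg_right (by linarith) (Real.sqrt_nonneg _)

/-- the event of a flat crossing after the step `k` -/
def Fl (h s₀ σ r e : ℝ) (r' ρ' : ℤ) (q : ℕ → V) (k : ℕ) : Prop :=
  1 ≤ k ∧ cel h σ e (ctr h s₀ σ r e q k) r' q k ⊆ Bx (ctr h s₀ σ r e q k) r' ∧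
    (NoL q k (ctr h s₀ σ r e q k) (cel h σ e (ctr h s₀ σ r e q k) r' q k) ρ' (Ici 0) ∨
      NoR q k (ctr h s₀ σ r e q k) (cel h σ e (ctr h s₀ σ r e q k) r' q k) ρ' (Iio 0)) ∧
    ∃ j, k ≤ j ∧ ∃ d, fc (q j) d ∈ cel h σ e (ctr h s₀ σ r e q k) r' q k

/-- the deterministic statement -/
theorem det (hC : S_CONT) (hL : L.S_L1) (hW : L.S_Wg) (hF : L.S_Wf) (hT : L.S_Tip)
    (hCt : L.S_Cont) (hH : L.S_Hgt) (hh : 0 < h) (H : FP q) (hS : L.Simple (pc h q))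
    {R ε r₁ σ ρ r s₀ : ℝ} {M m rG r' ρ' : ℤ} (N : ℕ) (hR : 0 < R) (hM : R ≤ h * M) (hm0 : 0 ≤ m)
    (hm : 4 * h * m + 5 * h ≤ ε) (hrG : r₁ + 4 * h ≤ h * rG) (hrm : rG < m) (hσ : 0 < σ) (hσ1 : σ < 1)
    (hr₁ : 7 * (25 * R + 2) / √(Real.log (1 / σ)) ≤ r₁) (hρ : 0 < ρ) (hρ1 : ρ < R + 1)
    (hom : L.om (R + 1) ρ ≤ σ / 10) (hs₀ : 0 < s₀) (hs₁ : s₀ < σ / 10) (hr1 : r ≤ 1)
    (hr : 7 * (25 * R + 2) / √(Real.log (σ / 10 / s₀)) ≤ r / 2) (hhr : 4 * h ≤ r)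
    (hr' : r + 2 * h ≤ h * r') (hrρ : r' ≤ ρ') (hρ' : 2 * h * ρ' + 2 * h ≤ ρ)
    (hLR : ∀ k : ℕ, L.hull (pc h q) k ⊆ closedBall 0 R →
      ∀ (c : V) (z : ℂ), z ∈ sq h c ∩ (L.HH \ L.hull (pc h q) k) →
      (c ∈ Lft q k ∨ c.2 = 0 ∧ c.1 < 0 → (L.gt (pc h q) k z).re ≤ L.drv (pc h q) k + σ / 10) ∧
      (c ∈ Rgt q k ∨ c.2 = 0 ∧ 0 ≤ c.1 → L.drv (pc h q) k - σ / 10 ≤ (L.gt (pc h q) k z).re))
    {a b : ℝ≥0} (hab : a ≤ b) (hb : ∀ x ≤ b, ‖pc h q x‖ ≤ R)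
    (hcap : L.ct (pc h q) b - L.ct (pc h q) a ≤ s₀ ^ 2 / 2)
    (hosc : 3 * ε + 6 * h < ‖pc h q b - pc h q a‖) :
    Steps q M m N ∨ Gate q M m rG ∨ ∃ i < N, Fl h s₀ σ r 1 r' ρ' q (sto (pt h q) ε i) ∨
      Fl h s₀ σ r (-1) r' ρ' q (sto (pt h q) ε i) := by
  have hm0' : (0 : ℝ) ≤ m := by exact_mod_cast hm0
  have hε : 0 < ε := by nlinarith
  have hU := unb hh H
  have hmono := sto_strictMono (ε := ε) hU
  obtain ⟨i, hi1, hi2, hi3⟩ := osc_step' hU hε (pc_near hh.le H) hab hosc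
  have hbox : ∀ j ≤ sto (pt h q) ε (i + 1), nm 0 (q j) ≤ M := fun j hj =>
    nm_zero_le hh (by rw [← pc_nat]; exact hb _ (le_trans (by exact_mod_cast hj) hi3)) hM
  rcases le_or_gt N i with hN | hN
  · refine Or.inl ⟨sto (pt h q) ε, hmono.monotone,
      fun j hj => hbox j (hj.trans (hmono.monotone (by omega))), fun j _ => ?_⟩
    have h1 := (sto_step (ε := ε) hU j).trans (le_nm hh.le _ _)
    have h2 : (m : ℝ) ≤ nm (q (sto (pt h q) ε j)) (q (sto (pt h q) ε (j + 1))) :=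
      le_of_mul_le_mul_left (by nlinarith) hh
    exact_mod_cast h2
  right
  have hkk : sto (pt h q) ε i < sto (pt h q) ε (i + 1) := hmono i.lt_succ_self
  have hstep := sto_step (ε := ε) hU i
  set k := sto (pt h q) ε i
  set k' := sto (pt h q) ε (i + 1)
  have hkb : (k : ℝ≥0) ≤ b := le_trans (by exact_mod_cast hkk.le) hi3
  have hbk : ∀ x ≤ (k : ℝ≥0), ‖pc h q x‖ ≤ R := fun x hx => hb x (hx.trans hkb)
  have hy := hS.hyd k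
  have hct := (hCt.1 _ hS).2.1.monotone
  have hlow : ∀ u ∈ Ioc (k : ℝ≥0) k', (L.gt (pc h q) k (pc h q u)).im ≤ s₀ := fun u hu => by
    have h1 := hH _ hS k u hu.1
    have h2 := hct (hu.2.trans hi3)
    have h3 := hct hi2
    exact (abs_le_of_sq_le_sq' (by linarith) hs₀.le).2
  have key : ∀ e : ℝ, |e| = 1 → ∀ u ∈ Ioc (k : ℝ≥0) k',
      σ / 3 ≤ e * ((L.gt (pc h q) k (pc h q u)).re - L.drv (pc h q) k) →
      (∀ c₀ ∈ cel h σ e (ctr h s₀ σ r e q k) r' q k, ∀ c, CC q k (Bx (ctr h s₀ σ r e q k) ρ') c₀ c →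
        ∃ p ∈ sq h c ∩ (L.HH \ L.hull (pc h q) k),
          2 * σ / 15 ≤ e * ((L.gt (pc h q) k p).re - L.drv (pc h q) k)) ∧
      ∃ j, k ≤ j ∧ ∃ d, fc (q j) d ∈ cel h σ e (ctr h s₀ σ r e q k) r' q k := by
    intro e he u hu hfar
    obtain ⟨s, hs, z, hz⟩ := wf hF hCt hS (x := L.drv (pc h q) k + e * (σ / 3)) hR hbk
      (by rw [add_sub_cancel_left, abs_mul, he, abs_of_pos (by positivity)]; linarith) hs₀ hs₁
      (by linarith) hr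
    obtain ⟨c, hc⟩ := round hh z
    have h1 : Ctr (L.ft (pc h q) k) (L.drv (pc h q) k + e * (σ / 3)) s₀ (σ / 10) r h
        (ctr h s₀ σ r e q k) := Classical.epsilon_spec ⟨c, s, hs.1.le, hs.2.le, fun w hw ew => by
      linarith [norm_sub_le_norm_sub_add_norm_sub (L.ft (pc h q) k w) z (h * cx c), hz w hw ew]⟩
    obtain ⟨h2, h3⟩ := visit hT hh H hS he hσ hu.1 (fun x hx => hb x ((hx.trans hu.2).trans hi3))
      (fun x hx => hlow x ⟨hx.1, hx.2.trans hu.2⟩) hfar h1 hr'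
    exact ⟨fun c₀ h0 c hc => side hC hW hh H hS he
      ((L.hull_subset_ball hbk).trans (closedBall_subset_closedBall (by linarith)))
      (by linarith) hρ hρ1 hom hrρ hρ' h0 hc, h3⟩
  have hlr := hLR k (L.hull_subset_ball hbk)
  by_cases h1 : ∃ u ∈ Ioc (k : ℝ≥0) k',
      σ / 3 ≤ 1 * ((L.gt (pc h q) k (pc h q u)).re - L.drv (pc h q) k)
  · obtain ⟨u, hu, h1⟩ := h1
    obtain ⟨h2, h3⟩ := key 1 abs_one u hu h1
    refine Or.inr ⟨i, hN, Or.inl ⟨hi1, fun c hc => hc.1, Or.inl fun c₀ h0 c hc => ?_, h3⟩⟩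
    obtain ⟨p, hp, h4⟩ := h2 c₀ h0 c hc
    have h5 := (hlr c p hp).1
    exact ⟨fun h6 => by linarith [h5 (Or.inl h6)], fun h6 => not_lt.1 fun h7 => by
      linarith [h5 (Or.inr ⟨h6, h7⟩)]⟩
  by_cases h2 : ∃ u ∈ Ioc (k : ℝ≥0) k',
      σ / 3 ≤ -1 * ((L.gt (pc h q) k (pc h q u)).re - L.drv (pc h q) k)
  · obtain ⟨u, hu, h2⟩ := h2
    obtain ⟨h2, h3⟩ := key (-1) (by simp) u hu h2
    refine Or.inr ⟨i, hN, Or.inr ⟨hi1, fun c hc => hc.1, Or.inr fun c₀ h0 c hc => ?_, h3⟩⟩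
    obtain ⟨p, hp, h4⟩ := h2 c₀ h0 c hc
    have h5 := (hlr c p hp).2
    exact ⟨fun h6 => by linarith [h5 (Or.inl h6)], fun h6 => not_le.1 fun h7 => by
      linarith [h5 (Or.inr ⟨h6, h7⟩)]⟩
  push Not at h1 h2
  obtain ⟨s, hs, z, hz⟩ := wf hF hCt hS (x := L.drv (pc h q) k) hR hbk (by simp) hσ hσ1 le_rfl hr₁
  refine Or.inl (gate hC hL hh H hS hkk hbox hz (fun u hu => ?_) hstep hm hrG hrm)
  refine (norm_le_abs_re_add_abs_im _).trans ?_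
  have h3 : 0 < (L.gt (pc h q) k (pc h q u)).im := hy.mg (hS.toCurve.mem_D hu.1)
  have h4 : |(L.gt (pc h q) k (pc h q u)).re - L.drv (pc h q) k| ≤ σ / 3 :=
    abs_le.2 ⟨by linarith [h2 u hu], by linarith [h1 u hu]⟩
  simp only [sub_re, ofReal_re, sub_im, ofReal_im, sub_zero, abs_of_pos h3]
  linarith [hlow u hu, hs.1]

end Pool.Agent.P.MP_6c8efb_pr.SLE.TA
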