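import Pool.Agent.P.MP_6c8efb_pr.SLE.TGDefs

/-! Elementary facts on the fine edges. -/

open Set Function

namespace Pool.Agent.P.MP_6c8efb_pr.SLE.TG

variable {ω : Cfg}

theorem nm_tri (x y z : V) : nm x z ≤ nm x y + nm y z := by
  simp only [nm, abs_eq_max_neg]; omega

theorem nm_comm (x y : V) : nm x y = nm y x := by
  simp only [nm, abs_eq_max_neg]; omega

theorem nm_fc (v : V) (d : Fin 4) : nm v (fc v d) ≤ 1 ∧ v.2 - 1 ≤ (fc v d).2 := by
  rcases cases4 d with rfl | rfl | rfl | rfl <;> simp [nm]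

theorem fe_inj {c c' : D} {b b' : Bool} (h : fe c b = fe c' b') : c = c' ∧ b = b' := by
  obtain ⟨⟨x, y⟩, d⟩ := c
  obtain ⟨⟨x', y'⟩, d'⟩ := c'
  cases b <;> cases b' <;> rcases cases4 d with rfl | rfl | rfl | rfl <;>
    rcases cases4 d' with rfl | rfl | rfl | rfl <;> simp [fe, fv] at h ⊢ <;> omega

theorem one {τ : Cfg} {S : Set V} {v : V} {d : Fin 4} (h1 : fc v d ∈ S)
    (h2 : fc v (d + 1) ∈ S) (h : ¬ τ (edge v d) = true) :
    Conn (du τ) S (fc v d) (fc v (d + 1)) := by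
  rw [fc_succ] at h2 ⊢
  exact Conn.one h1 h2 (by simpa [du, dl_fc] using h)

theorem st_eq (ω : Cfg) (j : ℕ) :
    ∃ d, st ω j = edge (xp ω j) d ∧ xp ω (j + 1) = xp ω j + u d := by
  by_cases b : bc ω (ed (path ω j)) = true
  · exact ⟨_, by simp [st, fe, b, xp], fp_open b⟩
  · exact ⟨_, by simp [st, fe, b, xp], fp_closed b⟩

theorem st_ends {j : ℕ} {v : V} {d : Fin 4} (h : edge v d = st ω j) :
    (v = xp ω j ∧ v + u d = xp ω (j + 1)) ∨ (v = xp ω (j + 1) ∧ v + u d = xp ω j) := by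
  obtain ⟨d', h1, h2⟩ := st_eq ω j
  rcases ed_eq (c := (xp ω j, d')) (c' := (v, d)) (h.trans h1) with b | b <;>
    obtain ⟨rfl, rfl⟩ := Prod.mk.inj b
  · exact Or.inl ⟨rfl, h2.symm⟩
  · exact Or.inr ⟨h2.symm, u_back _ _⟩

theorem xp_inj (hq : FP (fp ω)) : Injective (xp ω) := fun i j h =>
  Nat.succ_injective (hq.inj (a₁ := i + 1) (a₂ := j + 1) h)

theorem xp_zero (ω : Cfg) : xp ω 0 = (0, 1) := by simp [xp, path, fv]

theorem xp_pos (hq : FP (fp ω)) (j : ℕ) :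
    1 ≤ (xp ω j).2 ∧ ¬ ((xp ω j).2 = 1 ∧ (xp ω j).1 < 0) := by
  refine ⟨hq.pos (j + 1) (by omega), fun h => ?_⟩
  have k : ∀ j (x : ℤ), x < 0 → path ω j ≠ ((x, 0), 0) := fun j x hx => by
    cases j with
    | zero => simp [path, Prod.ext_iff]; omega
    | succ j => exact west' hq hx.le j
  rcases Int.emod_two_eq_zero_or_one (xp ω j).1 with b | b
  · refine k j ((xp ω j).1 / 2) (by omega) (fv_inj ?_)
    change xp ω j = _
    ext <;> simp [fv] <;> omega
  · have : path ω j = ((((xp ω j).1 + 1) / 2, 0), 3) := fv_inj (by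
      change xp ω j = _
      ext <;> simp [fv] <;> omega)
    refine west' hq (x := ((xp ω j).1 + 1) / 2) (by omega) j ?_
    rw [path_succ, this, step_closed (by simp [bc, ed])]
    simp [rot]

theorem Mo.ne {κ : Bool} {e : E} (h : Mo ω κ e) (c : D) : e ≠ fe c (bc ω (ed c)) := by
  obtain ⟨c', h1, rfl⟩ := h
  intro b
  obtain ⟨rfl, h2⟩ := fe_inj b
  rw [h1] at h2
  cases κ <;> simp at h2

theorem west_fe (ω : Cfg) {x : ℤ} (hx : x < 0) : ∃ c, ((x, 1), true) = fe c (bc ω (ed c)) := by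
  rcases Int.emod_two_eq_zero_or_one x with b | b
  · refine ⟨((x / 2, 0), 0), ?_⟩
    have : x / 2 < 0 := by omega
    simp [fe, fv, bc, ed, this]; omega
  · refine ⟨(((x + 1) / 2, 0), 3), ?_⟩
    simp [fe, fv, bc, ed]; omega

theorem bl_iff {s : ℕ} {e : E} :
    bl ω s e = true ↔ (∃ j < s, e = st ω j) ∨ (e.2 = true ∧ e.1.2 = 1 ∧ e.1.1 < 0) := by
  simp only [bl, decide_eq_true_eq]

theorem fu_iff {s : ℕ} {e : E} : fu ω s e = true ↔ ∃ j, s ≤ j ∧ e = st ω j := by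
  simp only [fu, decide_eq_true_eq]

theorem wa_iff {κ : Bool} {e : E} : wa ω κ e = true ↔ ¬ Mo ω κ e := by
  simp only [wa, decide_eq_true_eq]

theorem Mo.bl {κ : Bool} {e : E} (h : Mo ω κ e) (s : ℕ) : ¬ bl ω s e = true := by
  rw [bl_iff]
  rintro (⟨j, -, b⟩ | ⟨b1, b2, b3⟩)
  · exact h.ne _ b
  · obtain ⟨c, hc⟩ := west_fe ω b3
    exact h.ne c (by rw [← hc]; ext <;> simp [b1, b2])

theorem Mo.fu {κ : Bool} {e : E} (h : Mo ω κ e) (s : ℕ) : ¬ fu ω s e = true := by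
  rw [fu_iff]
  rintro ⟨j, -, b⟩
  exact h.ne _ b

theorem st_inj (hq : FP (fp ω)) : Injective (st ω) := fun _ _ h =>
  xp_inj hq (congrArg fv (fe_inj h).1)

theorem conn_du_mono {τ τ' : Cfg} {S T : Set V} {p p' : V} (h : Conn (du τ) S p p') (hS : S ⊆ T)
    (hτ : ∀ e, τ' e = true → τ e = true) : Conn (du τ') T p p' :=
  h.mono hS fun e _ b => by
    simp only [du, Bool.not_eq_true'] at b ⊢
    exact Bool.eq_false_iff.2 fun a => by simp [hτ _ a] at b

theorem Conn.ends {τ : Cfg} {S : Set V} {p p' : V} (h : Conn τ S p p') (hp : p ≠ p') :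
    p ∈ S ∧ p' ∈ S := by
  have k : ∀ {p p' : V}, Conn τ S p p' → p' = p ∨ p' ∈ S := fun h =>
    h.ind (p := fun y => y = _ ∨ y ∈ S) (Or.inl rfl) fun _ _ _ _ hb _ _ => Or.inr hb
  exact ⟨(k h.symm').resolve_left hp, (k h).resolve_left hp.symm⟩

/-- the cell of colour `κ` of a dart -/
def sw (κ : Bool) (c : D) : V := if κ then cv c.1 else cf (fd c)

theorem wl_nat (ω : Cfg) (κ : Bool) (j : ℕ) : wl ω κ j = sw κ (path ω j) := by
  simp [wl, sw]

theorem sw_fc (κ : Bool) (c : D) : ∃ d, sw κ c = fc (fv c) d := by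
  cases κ
  · exact ⟨_, cf_fv c⟩
  · exact ⟨_, cv_fv c⟩

theorem wl_near (ω : Cfg) (κ : Bool) (j : ℕ) : nm (xp ω j) (wl ω κ j) ≤ 1 := by
  obtain ⟨d, h⟩ := sw_fc κ (path ω j)
  rw [wl_nat, h]
  exact (nm_fc _ _).1

theorem wl_pos (hq : FP (fp ω)) (κ : Bool) (i : ℤ) : 0 ≤ (wl ω κ i).2 := by
  rcases lt_or_ge i 0 with h | h
  · cases κ <;> simp [wl, h]
  · lift i to ℕ using h
    obtain ⟨d, h⟩ := sw_fc κ (path ω i)
    have h1 := (nm_fc (xp ω i) d).2
    have h2 := (xp_pos hq i).1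
    rw [wl_nat, h]
    exact le_trans (by omega) h1

/-- the two cells of a dart are joined in front of it -/
theorem front {τ : Cfg} {S : Set V} {c : D} (h : ∀ b, ¬ τ (fe c b) = true)
    (hS : ∀ d, fc (fv c) d ∈ S) (κ κ' : Bool) : Conn (du τ) S (sw κ c) (sw κ' c) := by
  have h1 : Conn (du τ) S (sw false c) (sw true c) := by
    have a := (one (hS _) (hS _) (h true)).trans' (one (hS _) (hS _) (h false))
    simp only [sw, cv_fv, cf_fv]
    simpa [add_assoc] using a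
  cases κ <;> cases κ'
  exacts [Conn.rfl', h1, h1.symm', Conn.rfl']

/-- every cell around a dart is joined to one of the two cells through an edge of one colour -/
theorem around_sw (ω : Cfg) (c : D) (d : Fin 4) : ∃ κ, nm (fc (fv c) d) (sw κ c) ≤ 1 ∧
    ∀ (τ : Cfg) (S : Set V), (∀ e, Mo ω κ e → ¬ τ e = true) → fc (fv c) d ∈ S → sw κ c ∈ S →
      Conn (du τ) S (fc (fv c) d) (sw κ c) := by
  have n : ∀ κ, nm (fc (fv c) d) (sw κ c) ≤ 1 := fun κ => by
    obtain ⟨d', h⟩ := sw_fc κ c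
    rw [h]
    rcases cases4 d with rfl | rfl | rfl | rfl <;> rcases cases4 d' with rfl | rfl | rfl | rfl <;>
      simp [nm]
  have e1 : sw true c = fc (fv c) (c.2 + 2) := cv_fv c
  have e0 : sw false c = fc (fv c) c.2 := cf_fv c
  obtain ⟨x, k⟩ := c
  have hd := (by decide : ∀ d k : Fin 4, d = k ∨ d = k + 1 ∨ d = k + 2 ∨ d = k + 3) d k
  rcases hd with rfl | rfl | rfl | rfl
  · exact ⟨false, n _, fun _ _ _ _ _ => by rw [e0]; exact Conn.rfl'⟩
  · refine ⟨bc ω (ed (x, k)), n _, fun τ S h h1 h2 => ?_⟩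
    have a := h _ ⟨(x, k), rfl, rfl⟩
    cases b : bc ω (ed (x, k)) <;> rw [b] at a h2
    · rw [e0] at h2 ⊢
      exact (one h2 h1 a).symm'
    · have e := (by decide : ∀ k : Fin 4, k + 2 = k + 1 + 1) k
      rw [e1, e] at h2 ⊢
      exact one h1 h2 a
  · exact ⟨true, n _, fun _ _ _ _ _ => by rw [e1]; exact Conn.rfl'⟩
  · refine ⟨bc ω (ed (x, k + 3)), n _, fun τ S h h1 h2 => ?_⟩
    cases b : bc ω (ed (x, k + 3)) <;> rw [b] at h h2
    · have a := h _ ⟨opp (x, k + 3), by rw [ed_opp, b], rfl⟩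
      have e : fe (opp (x, k + 3)) (!false) = edge (fv (x, k)) (k + 3) := by
        rcases cases4 k with rfl | rfl | rfl | rfl <;> simp [fe, fv, opp] <;> omega
      have e' := (by decide : ∀ k : Fin 4, k = k + 3 + 1) k
      rw [e] at a
      rw [e0] at h2 ⊢
      simpa only [← e'] using one h1 (by rw [← e']; exact h2) a
    · have a := h _ ⟨(x, k + 3), b, rfl⟩
      have e : fe (x, k + 3) (!true) = edge (fv (x, k)) (k + 2) := by
        rcases cases4 k with rfl | rfl | rfl | rfl <;> simp [fe, fv] <;> omega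
      have e' := (by decide : ∀ k : Fin 4, k + 3 = k + 2 + 1) k
      rw [e] at a
      rw [e1] at h2 ⊢
      rw [e'] at h1 ⊢
      exact (one h2 h1 a).symm'

end Pool.Agent.P.MP_6c8efb_pr.SLE.TG
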