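import Pool.Agent.P.MP_6c8efb_pr.SLE.TStop

/-! Definitions and intermediate statements for the estimate of the probability of a gate. -/

open Set Function

namespace Pool.Agent.P.MP_6c8efb_pr.SLE.TG

/-! ### Flows and their stream functions -/

/-- `c` is a unit flow from `p` to infinity -/
def Flow (c : E → ℤ) (p : V) : Prop := ∀ x, bd c x = if x = p then 1 else 0

/-- a unit flow leaves `p` through the open edges of `τ` -/
def Out (τ : Cfg) (p : V) : Prop := ∃ c, Flow c p ∧ ∀ e, c e ≠ 0 → τ e = true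

/-- `J`, a function of the faces, jumps by `c` across the edges -/
def Jmp (c : E → ℤ) (J : V → ℤ) : Prop :=
  ∀ v d, J (fc v (d + 1)) - J (fc v d) = sg d * c (edge v d)

def S_OutConn : Prop := ∀ (τ : Cfg) (S : Set V) (p p' : V), Conn τ S p p' → Out τ p' → Out τ p

def S_OutPath : Prop := ∀ (τ : Cfg) (s : ℕ → V) (dir : ℕ → Fin 4), Injective s →
  (∀ n, s (n + 1) = s n + u (dir n)) → (∀ n, τ (edge (s n) (dir n)) = true) → Out τ (s 0)

def S_Prim : Prop := ∀ c : E → ℤ, (∀ x, bd c x = 0) → ∃ J, Jmp c J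

/-- the stream function is constant along a chain of faces which does not cross the flow -/
def S_JConn : Prop := ∀ (c : E → ℤ) (J : V → ℤ) (τ : Cfg) (S : Set V) (p p' : V), Jmp c J →
  (∀ e : E, e.1 ∈ S → ot e ∈ S → ¬ τ e = true → c e = 0) → Conn (du τ) S p p' → J p = J p'

/-- a third flow which crosses neither chain -/
def S_Two : Prop := ∀ (a b a' : E → ℤ) (y : V) (φ : V → ℤ) (τ τ' : Cfg) (S : Set V) (p p' : V),
  Flow a y → Flow b y → Flow a' y → Jmp (a - b) φ → Conn (du τ) S p p' → Conn (du τ') univ p p' →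
  (∀ e : E, e.1 ∈ S → ot e ∈ S → ¬ τ e = true → a e = 0 ∧ a' e = 0) →
  (∀ e : E, ¬ τ' e = true → b e = 0 ∧ a' e = 0) → φ p = φ p'

/-- a finite set around the source -/
def S_Dec : Prop := ∀ (a b : E → ℤ) (y : V) (φ : V → ℤ) (τ : Cfg) (S W Z : Set V), Flow a y →
  Jmp (a - b) φ → Z.Finite → y ∈ Z → (∀ e : E, e.1 ∈ S → ot e ∈ S → a e = 0) →
  (∀ v d, v ∈ Z → v + u d ∉ Z → (b (edge v d) = 0 ∧ fc v d ∈ W ∧ fc v (d + 1) ∈ W) ∨
    (¬ τ (edge v d) = true ∧ fc v d ∈ S ∧ fc v (d + 1) ∈ S)) →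
  ∃ m ∈ W, ∃ m' ∈ W, Conn (du τ) S m m' ∧ φ m ≠ φ m'

/-- a ray which avoids a box -/
def S_Ray : Prop := ∀ (y z : V) (n : ℤ), n + 2 ≤ nm z y →
  ∃ a, Flow a y ∧ ∀ e : E, nm z e.1 ≤ n → a e = 0

/-! ### Pieces of a sequence -/

/-- the number of steps of size `l` completed at time `j`, and the time of the last one -/
def an (x : ℕ → V) (l : ℤ) : ℕ → ℕ × ℕ
  | 0 => (0, 0)
  | j + 1 => if l ≤ nm (x (an x l j).2) (x (j + 1)) then ((an x l j).1 + 1, j + 1) else an x l j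

def S_An : Prop := ∀ (x : ℕ → V) (l : ℤ), 0 < l →
  (∀ x' j, (∀ i ≤ j, x i = x' i) → an x l j = an x' l j) ∧
  Monotone (fun j => (an x l j).1) ∧
  (∀ i n j, i ≤ n → n ≤ j → (an x l i).1 = (an x l j).1 → nm (x i) (x n) ≤ 2 * l) ∧
  ∀ (j N : ℕ), N ≤ (an x l j).1 → ∃ k : ℕ → ℕ, Monotone k ∧ k N ≤ j ∧
    ∀ i < N, l ≤ nm (x (k i)) (x (k (i + 1)))

/-! ### The strand and its walls -/

/-- the edge of the fine lattice followed from `c` when the edge of `c` is in the state `b` -/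
def fe (c : D) (b : Bool) : E := edge (fv c) (if b then c.2 else c.2 + 1)

/-- the position after `j` steps -/
def xp (ω : Cfg) (j : ℕ) : V := fv (path ω j)

/-- the fine edge of the step number `j` -/
def st (ω : Cfg) (j : ℕ) : E := fe (path ω j) (bc ω (ed (path ω j)))

open Classical in
/-- the fine edges of the first `s` steps and of the line below the negative half axis -/
noncomputable def bl (ω : Cfg) (s : ℕ) : Cfg := fun e =>
  decide ((∃ j < s, e = st ω j) ∨ (e.2 = true ∧ e.1.2 = 1 ∧ e.1.1 < 0))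

open Classical in
/-- the fine edges of the steps after time `t` -/
noncomputable def fu (ω : Cfg) (t : ℕ) : Cfg := fun e => decide (∃ j, t ≤ j ∧ e = st ω j)

/-- the fine edges between two cells of colour `κ` -/
def Mo (ω : Cfg) (κ : Bool) (e : E) : Prop := ∃ c, bc ω (ed c) = κ ∧ e = fe c (!κ)

open Classical in
/-- the fine edges which are not between two cells of colour `κ` -/
noncomputable def wa (ω : Cfg) (κ : Bool) : Cfg := fun e => decide (¬ Mo ω κ e)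

/-- the cells of the wall of colour `κ` -/
def wl (ω : Cfg) (κ : Bool) (i : ℤ) : V :=
  if i < 0 then (if κ then (i - 1, 1) else (-i, 0))
  else if κ then cv (path ω i.toNat).1 else cf (fd (path ω i.toNat))

/-- the label of the piece of the wall -/
def lab (ω : Cfg) (l : ℤ) (i : ℤ) : ℤ := if i < 0 then i / l else (an (xp ω) l i.toNat).1

/-- a short link from the tip to the wall -/
def Lk (ω : Cfg) (r : ℤ) (κ : Bool) (s : ℕ) (i : ℤ) : Prop :=
  i ≤ s ∧ Conn (du (bl ω s)) (Bx (xp ω s) r) (wl ω κ s) (wl ω κ i)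

/-- a short link between two given pieces -/
def Hit (l r : ℤ) (κ : Bool) (a b : ℤ) (s : ℕ) (ω : Cfg) : Prop :=
  lab ω l s = b ∧ ∃ i, lab ω l i = a ∧ Lk ω r κ s i

/-- the vertices of the fine lattice not yet visited, outside a box -/
def Fr (ω : Cfg) (t : ℕ) (z : V) (r : ℤ) : Set V :=
  {v | 1 ≤ v.2 ∧ ¬ (v.2 = 1 ∧ v.1 < 0) ∧ r < nm z v ∧ ∀ j < t, v ≠ xp ω j}

/-- the gate, in terms of vertices of the fine lattice -/
def Gt (ω : Cfg) (t : ℕ) (z : V) (r : ℤ) : Prop :=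
  {v | Conn (fun _ => true) (Fr ω t z r) (xp ω t) v}.Finite

def S_Gt : Prop := ∀ (ω : Cfg) (R m r : ℤ), FP (fp ω) → 1 ≤ R → 0 ≤ r → r + 4 ≤ m →
  Gate (fp ω) R m r → ∃ t z, (∀ j ≤ t, nm 0 (xp ω j) ≤ R) ∧ m - 1 ≤ nm z (xp ω t) ∧ Gt ω t z (r + 1)

/-- consecutive cells of a wall are joined through cells of the same colour -/
def S_Wall : Prop := ∀ (ω : Cfg) (κ : Bool) (S : Set V) (i i' : ℤ), i ≤ i' →
  (∀ n, i ≤ n → n ≤ i' → ∀ m, nm (wl ω κ n) m ≤ 2 → m ∈ S) →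
  Conn (du (wa ω κ)) S (wl ω κ i) (wl ω κ i')

/-- the gate gives a link with a jump of the stream function -/
def S_Link : Prop := ∀ (ω : Cfg) (t : ℕ) (z : V) (r n : ℤ) (a b : E → ℤ) (φ : V → ℤ), FP (fp ω) →
  0 ≤ r → r + 10 ≤ n → n + 2 ≤ nm z (xp ω t) → Gt ω t z r → Flow a (xp ω t) →
  (∀ e : E, nm z e.1 ≤ n → a e = 0) → (∀ e, b e ≠ 0 → fu ω t e = true) → Jmp (a - b) φ →
  ∃ (κ : Bool) (s : ℕ) (i : ℤ), s < t ∧ nm z (xp ω s) ≤ r + 4 ∧ Lk ω (2 * r + 10) κ s i ∧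
    φ (wl ω κ s) ≠ φ (wl ω κ i)

/-- far from the link, a step along an old edge of the other colour opens a way out -/
def S_Way : Prop := ∀ (ω : Cfg) (κ : Bool) (s j t : ℕ) (r : ℤ) (τ : Cfg), FP (fp ω) → s ≤ j → j < t →
  (∀ n, j ≤ n → n ≤ t → r + 2 ≤ nm (xp ω s) (xp ω n)) →
  (ed (path ω j) ∈ expl ω s ∨ (ed (path ω j)).1.2 < 0 ∨
    ((ed (path ω j)).1.2 = 0 ∧ (ed (path ω j)).2 = true)) → bc ω (ed (path ω j)) = !κ →
  (∀ e : E, ¬ Mo ω κ e → (bl ω s e = true ∨ ¬ (e.1 ∈ Bx (xp ω s) r ∧ ot e ∈ Bx (xp ω s) r)) →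
    τ e = true) → Out τ (xp ω t)

/-- a piece of the path which avoids the old edges of one colour gives a fresh arm -/
def S_Seg : Prop := ∀ (ω : Cfg) (κ : Bool) (s j t : ℕ) (r ρ : ℤ), j ≤ t →
  nm (xp ω s) (xp ω j) ≤ 2 * r → 2 * ρ ≤ nm (xp ω s) (xp ω t) →
  (∀ n, j ≤ n → n < t → (ed (path ω n) ∈ expl ω s ∨ (ed (path ω n)).1.2 < 0 ∨
    ((ed (path ω n)).1.2 = 0 ∧ (ed (path ω n)).2 = true)) → bc ω (ed (path ω n)) = κ) →
  ω ∈ Fresh (expl ω s) (path ω s).1 (r + 2) (ρ - 2)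

/-- the deterministic part -/
def S_Det : Prop := ∀ (ω : Cfg) (R l r : ℤ) (N : ℕ), FP (fp ω) → 0 ≤ r → r + 20 ≤ l → 1 ≤ R →
  Gate (fp ω) R (10 * l) r → Steps (fp ω) R l N ∨ ∃ (κ : Bool) (a b : ℤ) (s : ℕ),
    -(R / l) - 5 ≤ a ∧ a < N ∧ 0 ≤ b ∧ b < N ∧ Hit l (2 * r + 12) κ a b s ω ∧
    (∀ s' < s, ¬ Hit l (2 * r + 12) κ a b s' ω) ∧
    ω ∈ Fresh (expl ω s) (path ω s).1 (r + 10) l

/-- the links are determined by the past -/
def S_Adp : Prop := ∀ (l r : ℤ) (κ : Bool) (a b : ℤ) (s : ℕ) (ω ω' : Cfg), 0 < l →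
  (∀ j ≤ s, path ω j = path ω' j) → Hit l r κ a b s ω → Hit l r κ a b s ω'

/-- the probabilistic part -/
def S_Fin : Prop := S_FP → S_T1 → S_Adp → S_Det → S_GATE

end Pool.Agent.P.MP_6c8efb_pr.SLE.TG
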