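import Pool.Agent.P.MP_6c8efb_pr.SLE.TGLink

/-! The deterministic part of the estimate of the probability of a gate. -/

open Set Function

namespace Pool.Agent.P.MP_6c8efb_pr.SLE.TG

theorem det_lab {ω : Cfg} {l : ℤ} (hAn : S_An) (hl : 0 < l) (κ : Bool) {i j n : ℤ} (h1 : i ≤ n)
    (h2 : n ≤ j) (h : lab ω l i = lab ω l j) : nm (wl ω κ i) (wl ω κ n) ≤ 2 * l + 2 := by
  rcases lt_or_ge j 0 with b | b
  · simp only [lab, b, show i < 0 by omega, if_true] at h
    have e1 := Int.emod_add_mul_ediv i l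
    have e2 := Int.emod_add_mul_ediv j l
    have := Int.emod_nonneg i hl.ne'
    have := Int.emod_lt_of_pos j hl
    rw [h] at e1
    rw [wl_neg ω κ (by omega), wl_neg ω κ (by omega)]
    cases κ <;> simp [nm, abs_le] <;> omega
  rcases lt_or_ge i 0 with b' | b'
  · simp only [lab, b', not_lt.2 b, if_true, if_false] at h
    have := Int.ediv_neg_of_neg_of_pos b' hl
    omega
  lift i to ℕ using b'
  lift j to ℕ using b
  lift n to ℕ using by omega
  simp only [lab, not_lt.2 (Nat.cast_nonneg _), if_false, Int.toNat_natCast, Nat.cast_inj] at h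
  have := (hAn (xp ω) l hl).2.2.1 i n j (by omega) (by omega) h
  have := wl_near ω κ i
  have := wl_near ω κ n
  have := nm_tri (wl ω κ i) (xp ω i) (wl ω κ n)
  have := nm_tri (xp ω i) (xp ω n) (wl ω κ n)
  have := nm_comm (wl ω κ i) (xp ω i)
  omega

theorem s_Det (hGt : S_Gt) (hRay : S_Ray) (hOP : S_OutPath) (hP : S_Prim) (hJ : S_JConn)
    (hTwo : S_Two) (hAn : S_An) (hW : S_Wall) (hL : S_Link) (hWay : S_Way) (hSeg : S_Seg) :
    S_Det := by
  classical
  intro ω R l r N hq hr hl hR hG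
  have l0 : 0 < l := by omega
  obtain ⟨t, z, hB, hy, hG⟩ := hGt ω R _ r hq hR hr (by omega) hG
  obtain ⟨a, ha, ha0⟩ := hRay (xp ω t) z (10 * l - 3) (by omega)
  choose dir d1 d2 using st_eq ω
  obtain ⟨b, hb, hb0⟩ := hOP (fu ω t) (fun n => xp ω (t + n)) (fun n => dir (t + n))
    (fun i j h => by simpa using xp_inj hq h) (fun n => d2 _)
    fun n => fu_iff.2 ⟨t + n, by omega, (d1 _).symm⟩
  obtain ⟨φ, hφ⟩ := hP (a - b) fun x => by
    have h1 := ha x
    have h2 := hb x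
    simp only [bd, Pi.sub_apply, add_zero] at h1 h2 ⊢
    omega
  obtain ⟨κ, s, i, s1, s2, s3, s4⟩ := hL ω t z (r + 1) (10 * l - 3) a b φ hq (by omega) (by omega)
    (by omega) hG ha ha0 hb0 hφ
  rw [show 2 * (r + 1) + 10 = 2 * r + 12 by ring] at s3
  obtain ⟨-, a2, -, a4⟩ := hAn (xp ω) l l0
  by_cases hN : N ≤ (an (xp ω) l t).1
  · obtain ⟨k, k1, k2, k3⟩ := a4 t N hN
    refine Or.inl ⟨fun i => k i + 1, fun _ _ h => Nat.succ_le_succ (k1 h), fun j hj => ?_, k3⟩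
    cases j with
    | zero => simp [fp, nm]; omega
    | succ j => exact hB j (by simp only at hj; omega)
  have ln : ∀ j : ℕ, lab ω l j = (an (xp ω) l j).1 := fun j => by simp [lab]
  have lt : ∀ j : ℕ, j ≤ t → 0 ≤ lab ω l j ∧ lab ω l j < N := fun j hj => by
    have := a2 hj
    simp only at this
    rw [ln]; omega
  have w1 := (Conn.ends s3.2 fun e => s4 (by rw [e])).2.1
  have ex : ∃ s', Hit l (2 * r + 12) κ (lab ω l i) (lab ω l s) s' ω := ⟨s, rfl, i, rfl, s3⟩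
  obtain ⟨σ, hσ⟩ : ∃ σ, σ = Nat.find ex := ⟨_, rfl⟩
  have σ1 : σ ≤ s := hσ ▸ Nat.find_min' ex ⟨rfl, i, rfl, s3⟩
  have σ2 := hσ ▸ Nat.find_spec ex
  have q0 : 0 ≤ R / l := Int.ediv_nonneg (by omega) l0.le
  refine Or.inr ⟨κ, lab ω l i, lab ω l s, σ, ?_, ?_, (lt s s1.le).1, (lt s s1.le).2, σ2,
    fun s' h => Nat.find_min ex (hσ ▸ h), ?_⟩
  · rcases lt_or_ge i 0 with h | h
    · have h1 := hB s s1.le
      have h2 := nm_tri 0 (xp ω s) (wl ω κ i)
      have h3 : -i - 1 ≤ nm 0 (wl ω κ i) := by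
        rw [wl_neg ω κ h.le]
        cases κ <;> simp only [nm, abs_eq_max_neg] <;> simp <;> omega
      have h4 := Int.lt_mul_ediv_self_add (x := R) l0
      simp only [lab, h, if_true]
      refine Int.le_ediv_of_mul_le l0 ?_
      linarith
    · lift i to ℕ using h
      have := lt i (by have := s3.1; omega)
      omega
  · rcases lt_or_ge i 0 with h | h
    · have := Int.ediv_neg_of_neg_of_pos h l0
      simp only [lab, h, if_true]
      omega
    · lift i to ℕ using h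
      exact (lt i (by have := s3.1; omega)).2
  obtain ⟨σ3, i0, σ4, σ5, σ6⟩ := σ2
  have wall : ∀ i j : ℤ, i ≤ j → lab ω l i = lab ω l j → nm z (wl ω κ i) ≤ 7 * l ∨
      nm z (wl ω κ j) ≤ 5 * l → φ (wl ω κ i) = φ (wl ω κ j) := fun i j h1 h2 h3 => by
    refine hJ _ φ _ {m | nm z m ≤ 10 * l - 3} _ _ hφ (fun e b1 _ b3 => ?_)
      (hW ω κ _ i j h1 fun n n1 n2 m hm => ?_)
    · have : b e = 0 := by_contra fun b4 =>
        Mo.fu (not_not.1 fun b => b3 (wa_iff.2 b)) t (hb0 e b4)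
      simp [ha0 e b1, this]
    · have := det_lab hAn l0 κ n1 n2 h2
      have := det_lab hAn l0 κ h1 le_rfl h2
      have := nm_tri z (wl ω κ n) m
      have := nm_tri z (wl ω κ i) (wl ω κ n)
      have := nm_tri z (wl ω κ j) (wl ω κ i)
      have := nm_comm (wl ω κ j) (wl ω κ i)
      change nm z m ≤ _
      omega
  have t1 := nm_tri z (xp ω s) (wl ω κ i)
  have t2 := nm_tri z (xp ω s) (wl ω κ s)
  have t3 := wl_near ω κ s
  have e1 := wall σ s (by omega) σ3 (Or.inr (by omega))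
  have e2 : φ (wl ω κ i0) = φ (wl ω κ i) := by
    rcases le_total i0 i with h | h
    · exact wall _ _ h σ4 (Or.inr (by omega))
    · exact (wall _ _ h σ4.symm (Or.inl (by omega))).symm
  have t4 : nm (xp ω σ) (xp ω s) ≤ 2 * l :=
    (hAn (xp ω) l l0).2.2.1 σ s s σ1 le_rfl (by simpa [ln] using σ3)
  have t5 := nm_tri z (xp ω s) (xp ω σ)
  have t6 := nm_comm (xp ω s) (xp ω σ)
  have t7 := nm_tri z (xp ω σ) (xp ω t)
  obtain ⟨j, hj⟩ : ∃ j, j = Nat.findGreatest (fun j => nm (xp ω σ) (xp ω j) ≤ 2 * r + 13) t :=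
    ⟨_, rfl⟩
  have z0 : nm (xp ω σ) (xp ω σ) ≤ 2 * r + 13 := by simp [nm]; omega
  have j1 : σ ≤ j := hj ▸ Nat.le_findGreatest (by omega) z0
  have j2 : nm (xp ω σ) (xp ω j) ≤ 2 * r + 13 :=
    hj ▸ Nat.findGreatest_spec (P := fun j => nm (xp ω σ) (xp ω j) ≤ 2 * r + 13) (m := σ)
      (by omega) z0
  have j3 : ∀ n, j < n → n ≤ t → 2 * r + 12 + 2 ≤ nm (xp ω σ) (xp ω n) := fun n n1 n2 => by
    have := Nat.findGreatest_is_greatest (hj ▸ n1) n2
    omega
  have j4 : j < t := (hj ▸ Nat.findGreatest_le t : j ≤ t).lt_of_ne fun e => by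
    rw [e] at j2; omega
  have j5 := nm_lip (xp ω σ) (xp ω j) (dir j)
  rw [← d2] at j5
  have := hSeg ω κ σ (j + 1) t (r + 8) (l + 2) j4 (by omega) (by omega) fun n n1 n2 n3 => by
    by_contra n4
    obtain ⟨a', h1, h2⟩ := hWay ω κ σ n t (2 * r + 12) (fun e => decide (¬ Mo ω κ e ∧
      (bl ω σ e = true ∨ ¬ (e.1 ∈ Bx (xp ω σ) (2 * r + 12) ∧ ot e ∈ Bx (xp ω σ) (2 * r + 12)))))
      hq (by omega) n2 (fun m m1 m2 => j3 m (by omega) m2) n3
      (by revert n4; cases bc ω (ed (path ω n)) <;> cases κ <;> simp)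
      fun e h1 h2 => decide_eq_true ⟨h1, h2⟩
    refine s4 (e1.symm.trans (Eq.trans ?_ e2))
    refine hTwo a b a' _ φ _ _ _ _ _ ha hb h1 hφ σ6
      (hW ω κ univ i0 σ σ5 fun _ _ _ _ _ => trivial).symm' (fun e b1 b2 b3 => ⟨ha0 e ?_, ?_⟩)
      fun e b1 => ?_
    · have := nm_tri z (xp ω σ) e.1
      have := b1.1
      omega
    · exact by_contra fun b4 => (of_decide_eq_true (h2 e b4)).2.elim b3 fun b5 => b5 ⟨b1, b2⟩
    · have b2 : Mo ω κ e := not_not.1 fun b => b1 (wa_iff.2 b)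
      exact ⟨by_contra fun b4 => b2.fu t (hb0 e b4),
        by_contra fun b4 => (of_decide_eq_true (h2 e b4)).1 b2⟩
  rwa [show r + 8 + 2 = r + 10 by ring, add_sub_cancel_right] at this

end Pool.Agent.P.MP_6c8efb_pr.SLE.TG
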