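import Pool.Agent.P.MP_6c8efb_pr.SLE.TGBasic

/-! A gate gives a link with a jump of the stream function. -/

open Set Function

namespace Pool.Agent.P.MP_6c8efb_pr.SLE.TG

variable {ω : Cfg}

theorem wl_neg (ω : Cfg) (κ : Bool) {i : ℤ} (h : i ≤ 0) :
    wl ω κ i = if κ then (i - 1, 1) else (-i, 0) := by
  rcases h.eq_or_lt with rfl | h
  · cases κ <;> simp [wl, path, cv, cf, fd]
  · simp [wl, h]

/-- the cells next to the walls -/
def link_W (ω : Cfg) (t : ℕ) : Set V := {m | ∃ (κ : Bool) (i : ℤ), i ≤ t ∧ nm m (wl ω κ i) ≤ 1 ∧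
  ∀ (τ : Cfg) (S : Set V), (∀ e, Mo ω κ e → ¬ τ e = true) → m ∈ S → wl ω κ i ∈ S →
    Conn (du τ) S m (wl ω κ i)}

theorem link_x {t j : ℕ} (h : j ≤ t) (d : Fin 4) : fc (xp ω j) d ∈ link_W ω t := by
  obtain ⟨κ, h1, h2⟩ := around_sw ω (path ω j) d
  rw [← wl_nat] at h1 h2
  exact ⟨κ, j, by exact_mod_cast h, h1, h2⟩

theorem link_w {t : ℕ} (κ : Bool) {i : ℤ} (h : i ≤ 0) {m : V}
    (hm : m = if κ then (i - 1, 1) else (-i, 0)) : m ∈ link_W ω t := by
  rw [← wl_neg ω κ h] at hm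
  subst hm
  exact ⟨κ, i, by omega, by simp [nm], fun _ _ _ _ _ => Conn.rfl'⟩

theorem link_bd (hq : FP (fp ω)) {t : ℕ} {z v : V} {r : ℤ} {d : Fin 4} (hv : v ∈ Fr ω t z r)
    (hd : v + u d ∉ Fr ω t z r) (hy : r + 2 ≤ nm z (xp ω t)) :
    (¬ fu ω t (edge v d) = true ∧ fc v d ∈ link_W ω t ∧ fc v (d + 1) ∈ link_W ω t) ∨
      (¬ bl ω t (edge v d) = true ∧ fc v d ∈ Bx z (r + 2) ∧ fc v (d + 1) ∈ Bx z (r + 2)) := by
  obtain ⟨v1, v2, v3, v4⟩ := hv
  have v0 : v = (0, 1) → v = xp ω 0 := fun h => by rw [h, xp_zero]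
  by_cases h4 : nm z (v + u d) ≤ r
  · have h5 := abs_le.1 (nm_lip' z v d)
    have h6 : ∀ d', fc v d' ∈ Bx z (r + 2) := fun d' => by
      have := nm_tri z v (fc v d')
      have := nm_fc v d'
      exact ⟨by omega, by omega⟩
    have h7 : ∀ j ≤ t, v ≠ xp ω j := fun j hj b => by
      rcases hj.eq_or_lt with rfl | hj
      · rw [← b] at hy; omega
      · exact v4 j hj b
    refine Or.inr ⟨?_, h6 _, h6 _⟩
    rw [bl_iff]
    rintro (⟨j, hj, b⟩ | ⟨b1, b2, b3⟩)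
    · exact (st_ends b).elim (fun b => h7 j hj.le b.1) fun b => h7 (j + 1) hj b.1
    · refine h7 0 (Nat.zero_le _) (v0 ?_)
      obtain ⟨x, y⟩ := v
      rcases cases4 d with rfl | rfl | rfl | rfl <;> simp at * <;> omega
  refine Or.inl ⟨?_, ?_⟩
  · rw [fu_iff]
    rintro ⟨j, hj, b⟩
    obtain ⟨j', hj', b'⟩ : ∃ j', t ≤ j' ∧ v + u d = xp ω j' :=
      (st_ends b).elim (fun b => ⟨_, by omega, b.2⟩) fun b => ⟨_, hj, b.2⟩
    refine hd ⟨b' ▸ (xp_pos hq j').1, b' ▸ (xp_pos hq j').2, not_le.1 h4, fun i hi e => ?_⟩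
    have := xp_inj hq (b'.symm.trans e)
    omega
  by_cases h5 : ∃ j < t, v + u d = xp ω j
  · obtain ⟨j, hj, b⟩ := h5
    rw [← fc_step v d, ← fc_step' v d, b]
    exact ⟨link_x hj.le _, link_x hj.le _⟩
  by_cases h6 : v = (0, 1)
  · rw [v0 h6]
    exact ⟨link_x (Nat.zero_le _) _, link_x (Nat.zero_le _) _⟩
  have h7 : ¬ (1 ≤ (v + u d).2 ∧ ¬ ((v + u d).2 = 1 ∧ (v + u d).1 < 0)) := fun b =>
    hd ⟨b.1, b.2, not_le.1 h4, fun j hj e => h5 ⟨j, hj, e⟩⟩
  obtain ⟨x, y⟩ := v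
  clear hd v3 v4 v0 h4 h5
  rcases cases4 d with rfl | rfl | rfl | rfl <;> simp at v1 v2 h6 h7 ⊢
  · omega
  · omega
  · omega
  · by_cases b : y = 1
    · exact ⟨link_w false (i := -x + 1) (by omega) (by simp; omega),
        link_w false (i := -x) (by omega) (by simp; omega)⟩
    · exact ⟨link_w true (i := x) (by omega) (by simp; omega),
        link_w true (i := x + 1) (by omega) (by simp; omega)⟩

theorem link_mo {c : D} {b : Bool} (h : ¬ b = bc ω (ed c)) : Mo ω (!b) (fe c b) :=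
  ⟨c, by revert h; cases bc ω (ed c) <;> cases b <;> simp, by simp⟩

theorem s_Link (hJ : S_JConn) (hD : S_Dec) (hW : S_Wall) : S_Link := by
  intro ω t z r n a b φ hq hr hn hy hG ha ha0 hb hφ
  have hc : ∀ {τ : Cfg} {S : Set V} {p p' : V}, (∀ m ∈ S, nm z m ≤ n) →
      (∀ e, ¬ τ e = true → ¬ fu ω t e = true) → Conn (du τ) S p p' → φ p = φ p' :=
    fun {τ S p p'} h1 h2 h3 => hJ _ φ τ S p p' hφ (fun e b1 _ b3 => by
      have : b e = 0 := by_contra fun b4 => h2 e b3 (hb e b4)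
      simp [ha0 e (h1 _ b1), this]) h3
  have hy0 : xp ω t ∈ Fr ω t z r := ⟨(xp_pos hq t).1, (xp_pos hq t).2, by omega,
    fun j hj e => hj.ne' (xp_inj hq e)⟩
  obtain ⟨m, ⟨κ, i, m1, m2, m3⟩, m', ⟨κ', i', n1, n2, n3⟩, h1, h2⟩ :=
    hD a b _ φ (bl ω t) (Bx z (r + 2)) (link_W ω t) _ ha hφ hG (mem_ofPred_eq ▸ Conn.rfl')
      (fun e h _ => ha0 e (h.1.trans (by omega))) fun v d hv hd => by
        rw [mem_ofPred_eq] at hv hd
        have hv' := Conn.mem hv hy0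
        refine (link_bd hq hv' (fun b => hd (Conn.snoc hv hv' b rfl)) (by omega)).imp_left
          fun h => ⟨by_contra fun b4 => h.1 (hb _ b4), h.2⟩
  obtain ⟨e1, e2⟩ := Conn.ends h1 fun e => h2 (by rw [e])
  have sub : Bx z (r + 2) ⊆ Bx z (r + 3) := fun _ h => ⟨h.1.trans (by omega), h.2⟩
  have w1 : wl ω κ i ∈ Bx z (r + 3) := ⟨by have := nm_tri z m (wl ω κ i); have := e1.1; omega,
    wl_pos hq _ _⟩
  have w2 : wl ω κ' i' ∈ Bx z (r + 3) := ⟨by have := nm_tri z m' (wl ω κ' i'); have := e2.1; omega,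
    wl_pos hq _ _⟩
  have big : ∀ m ∈ Bx z (r + 3), nm z m ≤ n := fun _ h => h.1.trans (by omega)
  have h3 : Conn (du (bl ω t)) (Bx z (r + 3)) (wl ω κ i) (wl ω κ' i') :=
    ((m3 _ _ (fun _ h => h.bl t) (sub e1) w1).symm'.trans' (h1.mono_set sub)).trans'
      (n3 _ _ (fun _ h => h.bl t) (sub e2) w2)
  have h4 : φ (wl ω κ i) ≠ φ (wl ω κ' i') := by
    rwa [← hc big (fun _ => id) (m3 _ _ (fun _ h => h.fu t) (sub e1) w1),
      ← hc big (fun _ => id) (n3 _ _ (fun _ h => h.fu t) (sub e2) w2)]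
  clear m2 m3 n2 n3 h1 h2 e1 e2 sub
  wlog hi : i ≤ i' generalizing κ κ' i i'
  · exact this κ' i' n1 κ i m1 w2 w1 h3.symm' h4.symm (by omega)
  have fr : ∀ s : ℕ, nm z (xp ω s) ≤ r + 4 → s ≤ t →
      s < t ∧ φ (wl ω κ s) = φ (wl ω κ' s) := fun s s1 s2 => by
    have s3 : s < t := s2.lt_of_ne fun e => by subst e; omega
    refine ⟨s3, ?_⟩
    rw [wl_nat, wl_nat]
    refine hc (S := {m | nm z m ≤ n}) (fun _ h => h) (fun _ => id) (front (fun κ0 => ?_)
      (fun d => ?_) _ _)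
    · by_cases e : κ0 = bc ω (ed (path ω s))
      · rw [fu_iff]
        rintro ⟨j, j1, j2⟩
        have := st_inj hq (a₁ := s) (a₂ := j) (by rw [← j2, st, ← e])
        omega
      · exact (link_mo e).fu t
    · have := nm_tri z (xp ω s) (fc (xp ω s) d)
      have := nm_fc (xp ω s) d
      change nm z (fc (xp ω s) d) ≤ n
      omega
  rcases lt_or_ge i' 0 with h0 | h0
  · exfalso
    have wall : ∀ (κ : Bool) (i j : ℤ), i ≤ j → j ≤ 0 → nm z (wl ω κ i) ≤ r + 3 →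
        nm z (wl ω κ j) ≤ r + 3 → φ (wl ω κ i) = φ (wl ω κ j) := fun κ i j b1 b2 b3 b4 => by
      refine hc (S := {m | nm z m ≤ n}) (fun _ h => h)
        (fun e h => Mo.fu (not_not.1 fun b => h (wa_iff.2 b)) t) (hW ω κ _ i j b1 fun l l1 l2 m hm => ?_)
      have := nm_tri z (wl ω κ l) m
      have : nm z (wl ω κ l) ≤ r + 3 := by
        rw [wl_neg ω κ (by omega)] at b3 b4 ⊢
        cases κ <;> simp [nm, abs_le] at b3 b4 ⊢ <;> omega
      change nm z m ≤ n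
      omega
    by_cases e : κ = κ'
    · subst e
      exact h4 (wall κ i i' hi h0.le w1.1 w2.1)
    · have k : ∀ κ0, nm z (wl ω κ0 0) ≤ r + 3 := fun κ0 => by
        have b3 := w1.1
        have b4 := w2.1
        rw [wl_neg ω _ (by omega)] at b3 b4 ⊢
        cases κ <;> cases κ' <;> cases κ0 <;> simp [nm, abs_le] at b3 b4 e ⊢ <;> omega
      have a := nm_tri z (wl ω κ 0) (xp ω 0)
      have a' := wl_near ω κ 0
      rw [nm_comm] at a'
      have a2 := (fr 0 (by have := k κ; push_cast at a'; omega) (Nat.zero_le _)).2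
      exact h4 ((wall κ i 0 (by omega) le_rfl w1.1 (k _)).trans
        (a2.trans (wall κ' i' 0 h0.le le_rfl w2.1 (k _)).symm))
  lift i' to ℕ using h0 with s
  have a := nm_tri z (wl ω κ' s) (xp ω s)
  have a' := wl_near ω κ' s
  rw [nm_comm] at a'
  have s1 : nm z (xp ω s) ≤ r + 4 := by have := w2.1; omega
  obtain ⟨s2, s3⟩ := fr s s1 (by exact_mod_cast n1)
  refine ⟨κ, s, i, s2, s1, ⟨hi, Conn.trans' (y := wl ω κ' s) ?_ (conn_du_mono h3.symm'
    (fun m hm => ⟨?_, hm.2⟩) fun e => ?_)⟩, by rw [s3]; exact h4.symm⟩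
  · rw [wl_nat, wl_nat]
    refine front (fun κ0 => ?_) (fun d => ?_) _ _
    · by_cases e : κ0 = bc ω (ed (path ω s))
      · rw [bl_iff]
        rintro (⟨j, j1, j2⟩ | ⟨b1, b2, b3⟩)
        · have := st_inj hq (a₁ := s) (a₂ := j) (by rw [← j2, st, ← e])
          omega
        · obtain ⟨d, d1, d2⟩ := st_eq ω s
          have p1 := xp_pos hq s
          have p2 := xp_pos hq (s + 1)
          rw [e, ← st, d1] at b1 b2 b3
          rw [d2] at p2
          generalize xp ω s = v at *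
          rcases cases4 d with rfl | rfl | rfl | rfl <;> simp at b1 b2 b3 p1 p2 <;> omega
      · exact (link_mo e).bl s
    · have p1 := nm_fc (xp ω s) d
      have := (xp_pos hq s).1
      exact ⟨p1.1.trans (by omega), le_trans (by omega) p1.2⟩
  · have := nm_tri (xp ω s) z m
    have := nm_comm (xp ω s) z
    have := hm.1
    omega
  · rw [bl_iff, bl_iff]
    exact Or.imp_left fun ⟨j, j1, j2⟩ => ⟨j, by omega, j2⟩

end Pool.Agent.P.MP_6c8efb_pr.SLE.TG
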