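import Pool.Agent.P.MP_6c8efb_pr.SLE.TFlat
import Pool.Agent.P.MP_a3bdf6_co.Menger
import Pool.Agent.P.MP_3aa27f_pr.BK

/-! The path does not make many long steps in a bounded box. -/

open Set Filter Function

namespace Pool.Agent.P.MP_6c8efb_pr.SLE

/-- `n` disjoint occurrences -/
def DP (A : Set Cfg) : ℕ → Set Cfg
  | 0 => univ
  | n + 1 => MP_3aa27f_pr.DO A (DP A n)

theorem loc_DP {A : Set Cfg} (h : MP_6c8efb_pr.Loc A) (n : ℕ) : MP_6c8efb_pr.Loc (DP A n) := by
  induction n with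
  | zero => exact ⟨∅, finite_empty, fun _ _ _ _ => trivial⟩
  | succ n ih => exact MP_3aa27f_pr.Loc.DO h ih

theorem Q_DP {A : Set Cfg} (h : MP_6c8efb_pr.Loc A) (hu : IsUpperSet A) (n : ℕ) :
    Q (DP A n) ≤ Q A ^ n := by
  induction n with
  | zero => simpa using Pr_le_one _ _
  | succ n ih =>
    have h1 : Q (DP A (n + 1)) ≤ Q A * Q (DP A n) :=
      MP_3aa27f_pr.BK (fun _ => hf) h (loc_DP h n) hu (by
        cases n with
        | zero => exact isUpperSet_univ
        | succ n => exact MP_3aa27f_pr.DO_upper _ _)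
    rw [pow_succ']
    exact h1.trans (mul_le_mul_of_nonneg_left ih (Pr_nonneg _ _))

open Classical in
/-- only the edges of `S` are kept -/
noncomputable def rs (ω : Cfg) (S : Set E) : Cfg := fun e => ω e && decide (e ∈ S)

theorem mem_DP {κ : Type} {A : Set Cfg} (S : κ → Set E) (T : Finset κ) :
    (∀ i ∈ T, ∀ j ∈ T, i ≠ j → Disjoint (S i) (S j)) → ∀ ω, (∀ i ∈ T, rs ω (S i) ∈ A) →
    ω ∈ DP A T.card := by
  classical
  induction T using Finset.induction_on with
  | empty => exact fun _ _ _ => trivial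
  | insert i T hi ih =>
    intro hd ω h
    rw [Finset.card_insert_of_notMem hi]
    refine ⟨rs ω (S i), rs ω (S i)ᶜ, fun e => ?_, fun e => ?_, fun e a b => ?_, h i (by simp),
      ih (fun a ha b hb => hd a (by simp [ha]) b (by simp [hb])) _ fun j hj => ?_⟩
    · simp only [rs]; cases ω e <;> simp
    · simp only [rs]; cases ω e <;> simp
    · simp [rs] at a b; exact b.2 a.2
    · have e : rs (rs ω (S i)ᶜ) (S j) = rs ω (S j) := funext fun e => by
        by_cases he : e ∈ S j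
        · have := Set.disjoint_right.1 (hd i (by simp) j (by simp [hj]) fun b => hi (b ▸ hj)) he
          simp [rs, he, this]
        · simp [rs, he]
      rw [e]
      exact h j (by simp [hj])

/-- the annulus is crossed outside every set of less than `n` points -/
def MA (n : ℕ) (z : V) (r R : ℤ) : Set Cfg := {ω | ∀ Y : Finset V, Y.card < n →
  ∃ x y, nm z x = r ∧ nm z y = R ∧ x ∉ Y ∧ Conn ω (An z r R \ Y) x y}

open MP_a3bdf6_co in
theorem MA_sub (n : ℕ) (z : V) {r R : ℤ} (h : r ≤ R) : MA n z r R ⊆ DP (Arm1 z r R) n := by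
  classical
  intro ω hω
  let U := (An_finite z r R).toFinset
  obtain ⟨T, ⟨h1, h2⟩, rfl⟩ := menger_aux n
    ((U ×ˢ U).filter fun p => ∃ d, p.2 = p.1 + u d ∧ ω (edge p.1 d) = true)
    (U.filter fun x => nm z x = r) (U.filter fun x => nm z x = R) fun Y hY => by
      obtain ⟨x, y, a1, a2, a3, a4⟩ := hω Y hY
      refine ⟨x, by simp [U, An, a1, h], y, by simp [U, An, a2, h], ?_⟩
      exact a4.ind (p := fun y => MP_a3bdf6_co.Rch _ {z | z ∉ Y} x y)
        (MP_a3bdf6_co.Rch.refl a3) fun a d _ b1 b2 b3 ih =>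
        ih.tail (by simpa [U, b1.1, b2.1] using ⟨d, rfl, b3⟩) b2.2
  refine mem_DP (fun P => In {x | x ∈ P}) T (fun P hP P' hP' ne => In_disjoint
    (Set.disjoint_left.2 fun x a b => ne (h2 P hP P' hP' x a b))) ω fun P hP => ?_
  obtain ⟨-, a, ha, b, hb, hw⟩ := h1 P hP
  refine ⟨a, b, ⟨(Finset.mem_filter.1 ha).2.le, (Finset.mem_filter.1 hb).2.ge⟩, ?_⟩
  have : ∀ l : List V, P ⊆ l → Conn (rs ω (In {x | x ∈ l})) univ a b := by
    clear ha hb hP
    induction hw with
    | single => exact fun _ _ => Conn.rfl'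
    | cons c1 c2 ih =>
      intro l hl
      obtain ⟨d, c4, c3⟩ := (Finset.mem_filter.1 c1).2
      dsimp only at c3 c4
      subst c4
      refine (Conn.one (mem_univ _) (mem_univ _) ?_).trans' (ih l fun x hx => hl (by simp [hx]))
      simp only [rs, c3, Bool.true_and, decide_eq_true_eq]
      exact edge_mem_In.2 ⟨hl (by simp), hl (by simp [c2.head_mem])⟩
  exact this P (List.Subset.refl _)

theorem walk_open {ω : Cfg} {S : Set V} {i j : ℕ} (hij : i ≤ j)
    (h : ∀ l, i ≤ l → l ≤ j → (path ω l).1 ∈ S) : Conn (bc ω) S (path ω i).1 (path ω j).1 := by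
  induction j, hij using Nat.le_induction with
  | base => exact Conn.rfl'
  | succ j hj ih =>
    have h1 := ih fun l a b => h l a (by omega)
    have h2 := h (j + 1) (by omega) le_rfl
    rw [path_succ] at h2 ⊢
    by_cases b : bc ω (ed (path ω j)) = true
    · rw [step_open b] at h2 ⊢
      exact h1.snoc (h j hj (by omega)) h2 b
    · rw [step_closed b]; exact h1

theorem walk_dual {ω : Cfg} {S : Set V} {i j : ℕ} (hij : i ≤ j)
    (h : ∀ l, i ≤ l → l ≤ j → fd (path ω l) ∈ S) :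
    Conn (du (bc ω)) S (fd (path ω i)) (fd (path ω j)) := by
  induction j, hij using Nat.le_induction with
  | base => exact Conn.rfl'
  | succ j hj ih =>
    have h1 := ih fun l a b => h l a (by omega)
    have h2 := h (j + 1) (by omega) le_rfl
    rw [path_succ] at h2 ⊢
    by_cases b : bc ω (ed (path ω j)) = true
    · rw [step_open b, fd_ro]; exact h1
    rw [step_closed b, show fd (rot (path ω j)) = fd (path ω j) + u ((path ω j).2 + 1) from
      fc_succ _ _] at h2 ⊢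
    refine h1.snoc (h j hj (by omega)) h2 ?_
    simp only [du, fd, dl_fc]
    simpa [ed] using b

theorem fd_pos {ω : Cfg} (hq : FP (fp ω)) (l : ℕ) :
    0 ≤ (fd (path ω l)).2 ∨ 0 ≤ (fd (path ω l)).1 := by
  have h1 := path_pos hq l
  have h2 := fun x hx => west' (x := x) hq hx l
  have h3 : ∀ x < 0, path ω l ≠ ((x, 0), 0) := fun x hx => by
    cases l with
    | zero => simp [path, Prod.ext_iff]; omega
    | succ l => exact west' hq hx.le l
  rw [path_succ] at h2
  generalize path ω l = c at *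
  obtain ⟨⟨x, y⟩, d⟩ := c
  by_contra b
  rcases cases4 d with rfl | rfl | rfl | rfl <;> simp [fd] at b h1 <;> try omega
  · obtain rfl : y = 0 := by omega
    exact h3 x b.2 rfl
  · obtain rfl : y = 0 := by omega
    exact h2 x (by omega) (step_closed (by simp [bc, ed]))

/-- the vertex or the face of a dart -/
def pt (b : Prop) [Decidable b] (c : D) : V := if b then c.1 else fd c

/-- the configuration or its dual -/
def cfg (b : Prop) [Decidable b] (ω : Cfg) : Cfg := if b then ω else du ω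

theorem cross_det {ω : Cfg} (hq : FP (fp ω)) {g : V} {r R : ℤ} (hr : r ≤ R) (hg : 2 * R + 2 ≤ nm 0 g)
    (r0 : 0 ≤ r) (g0 : 0 ≤ g.2) {i j : ℕ} (hij : i ≤ j) {Y : Finset V}
    (h : nm g (path ω i).1 < r ∧ R < nm g (path ω j).1 ∨
      nm g (path ω j).1 < r ∧ R < nm g (path ω i).1)
    (hY : ∀ l, i ≤ l → l ≤ j → pt (0 ≤ g.1) (path ω l) ∉ Y) :
    ∃ x y, nm g x = r ∧ nm g y = R ∧ x ∉ Y ∧ Conn (cfg (0 ≤ g.1) ω) (An g r R \ Y) x y := by
  have key : ∀ {η η' : Cfg} {S : Set V} {x y : V}, Conn η S x y → x ∈ S → y ∈ S → S ⊆ (Y : Set V)ᶜ →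
      (nm g x ≤ r ∧ R ≤ nm g y ∨ nm g y ≤ r ∧ R ≤ nm g x) →
      (∀ e ∈ In (S ∩ An g r R), η e = true → η' e = true) →
      ∃ x y, nm g x = r ∧ nm g y = R ∧ x ∉ Y ∧ Conn η' (An g r R \ Y) x y := by
    intro η η' S x y a1 a2 a3 a4 a5 a6
    rcases a5 with a5 | a5
    · obtain ⟨x', y', b1, b2, b3, b4⟩ := a1.strip (nm_lip' g) hr a5.1 a5.2
      exact ⟨x', y', b1, b2, a4 (b3.mem a2), b4.mono (fun w hw => ⟨hw.2, a4 hw.1⟩) a6⟩
    · obtain ⟨x', y', b1, b2, b3, b4⟩ := a1.symm'.strip (nm_lip' g) hr a5.1 a5.2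
      exact ⟨x', y', b1, b2, a4 (b3.mem a3), b4.mono (fun w hw => ⟨hw.2, a4 hw.1⟩) a6⟩
  unfold pt at hY
  unfold cfg
  obtain ⟨g1, g2⟩ := g
  split_ifs at hY ⊢ with b
  · refine key (walk_open hij hY) (hY i le_rfl hij) (hY j hij le_rfl) subset_rfl (by omega) ?_
    rintro ⟨⟨x, y⟩, t⟩ ⟨⟨-, -, c1⟩, -⟩ c2
    unfold bc at c2
    split_ifs at c2 with c3 c4
    · simp [nm, abs_eq_max_neg] at c1 c2 c4 hg b
      omega
    · exact c2
  · have hS : ∀ l, i ≤ l → l ≤ j → fd (path ω l) ∈ (Y : Set V)ᶜ ∩ {f | 0 ≤ f.2 ∨ 0 ≤ f.1} :=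
      fun l a b => ⟨hY l a b, fd_pos hq l⟩
    have n1 : ∀ c : D, |nm (g1, g2) (fd c) - nm (g1, g2) c.1| ≤ 1 := fun ⟨v, d⟩ => by
      rcases cases4 d with rfl | rfl | rfl | rfl <;> simp [fd, nm, abs_eq_max_neg] <;> omega
    have n2 := abs_le.1 (n1 (path ω i))
    have n3 := abs_le.1 (n1 (path ω j))
    refine key (walk_dual hij hS) (hS i le_rfl hij) (hS j hij le_rfl) inter_subset_left
      (by omega) ?_
    rintro ⟨⟨x, y⟩, t⟩ ⟨⟨⟨-, c0⟩, -, c1⟩, ⟨-, c0'⟩, -, c1'⟩ c2
    simp only [du] at c2 ⊢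
    unfold bc at c2
    split_ifs at c2 with c3 c4
    · cases t <;> simp [nm, abs_eq_max_neg, dl] at c0 c1 c0' c1' c3 hg b g0 <;> omega
    · cases t <;> simp [nm, abs_eq_max_neg, dl] at c0 c1 c0' c1' c4 hg b
      omega
    · exact c2

theorem pt_inj {b : Prop} [Decidable b] {c c' : D} (h : pt b c = pt b c') (h' : c.2 = c'.2) :
    c = c' := by
  obtain ⟨⟨x, y⟩, d⟩ := c
  obtain ⟨⟨x', y'⟩, d'⟩ := c'
  obtain rfl : d = d' := h'
  unfold pt at h
  split_ifs at h
  · simp_all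
  · rcases cases4 d with rfl | rfl | rfl | rfl <;> simp [fd] at h ⊢ <;> omega

theorem nm_fv (c c' : D) : nm (fv c) (fv c') ≤ 2 * nm c.1 c'.1 + 1 ∧
    (nm 0 (fv c) ≤ 2 * nm 0 c.1 + 2 ∧ 2 * nm 0 c.1 ≤ nm 0 (fv c) + 2) := by
  obtain ⟨⟨x, y⟩, d⟩ := c
  obtain ⟨⟨x', y'⟩, d'⟩ := c'
  constructor
  · rcases cases4 d with rfl | rfl | rfl | rfl <;> rcases cases4 d' with rfl | rfl | rfl | rfl <;>
      simp [fv, nm, abs_eq_max_neg] <;> omega
  · rcases cases4 d with rfl | rfl | rfl | rfl <;> simp [fv, nm, abs_eq_max_neg] <;> omega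

/-- a grid point close to a given point -/
theorem exists_grid {s L R : ℤ} (hs : 0 < s) {v v' : V} (h1 : nm 0 v ≤ L * s) (h2 : 0 ≤ v.2)
    (h3 : 2 * R + 2 + s ≤ nm 0 v) (h4 : R + s ≤ nm v v') :
    ∃ p ∈ Finset.Icc (-L) L ×ˢ Finset.Icc (-L) L, 2 * R + 2 ≤ nm 0 (s * p.1, s * p.2) ∧
      0 ≤ s * p.2 ∧ nm (s * p.1, s * p.2) v < s ∧ R < nm (s * p.1, s * p.2) v' := by
  obtain ⟨x, y⟩ := v
  obtain ⟨x', y'⟩ := v'
  have a1 := Int.mul_ediv_add_emod x s
  have a2 := Int.mul_ediv_add_emod y s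
  have a3 := Int.emod_nonneg x hs.ne'
  have a4 := Int.emod_nonneg y hs.ne'
  have a5 := Int.emod_lt_of_pos x hs
  have a6 := Int.emod_lt_of_pos y hs
  have a7 := mul_nonneg hs.le (Int.ediv_nonneg h2 hs.le)
  simp only [nm, abs_eq_max_neg, Prod.fst_zero, Prod.snd_zero] at *
  refine ⟨(x / s, y / s), ?_, by dsimp only; omega, a7, by dsimp only; omega,
    by dsimp only; omega⟩
  simp only [Finset.mem_product, Finset.mem_Icc]
  exact ⟨⟨Int.le_ediv_of_mul_le hs (by rw [neg_mul]; omega),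
    Int.ediv_le_of_le_mul hs (by omega)⟩, Int.le_ediv_of_mul_le hs (by rw [neg_mul]; omega),
    Int.ediv_le_of_le_mul hs (by omega)⟩

theorem steps_det {ω : Cfg} (hq : FP (fp ω)) {A m s R L : ℤ} {n N : ℕ} (hs : 10 ≤ s) (hR : s ≤ R)
    (hm : 40 * R ≤ m) (hL : A + 2 ≤ 2 * (L * s))
    (hN : (Finset.Icc (-L) L ×ˢ Finset.Icc (-L) L).card * n * 8 < N) (h : Steps (fp ω) A m (2 * N)) :
    ∃ p ∈ Finset.Icc (-L) L ×ˢ Finset.Icc (-L) L,
      cfg (0 ≤ s * p.1) ω ∈ MA n (s * p.1, s * p.2) s R := by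
  classical
  by_contra b
  simp only [MA, mem_ofPred_eq, not_exists, not_and, not_forall] at b
  choose! Y hY hY' using b
  set G := Finset.Icc (-L) L ×ˢ Finset.Icc (-L) L
  obtain ⟨k, k1, k2, k3⟩ := h
  have lt : ∀ i < 2 * N, k i < k (i + 1) := fun i hi => (k1 i.le_succ).lt_of_ne fun e => by
    have := k3 i hi
    rw [← e] at this
    simp [nm] at this
    omega
  have ex : ∀ i < N, ∃ l, k (2 * i + 1) ≤ l + 1 ∧ l + 1 ≤ k (2 * i + 1 + 1) ∧ ∃ p ∈ G,
      pt (0 ≤ s * p.1) (path ω l) ∈ Y p := fun i hi => by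
    have a1 := lt (2 * i) (by omega)
    have a2 := lt (2 * i + 1) (by omega)
    have a3 := k3 (2 * i + 1) (by omega)
    have a4 := k2 _ (k1 (by omega : 2 * i + 1 ≤ 2 * N))
    have a5 := k2 _ (k1 (by omega : 2 * i + 1 + 1 ≤ 2 * N))
    obtain ⟨a, ea⟩ : ∃ a, k (2 * i + 1) = a + 1 := ⟨k (2 * i + 1) - 1, by omega⟩
    obtain ⟨a', ea'⟩ : ∃ a, k (2 * i + 1 + 1) = a + 1 := ⟨k (2 * i + 1 + 1) - 1, by omega⟩
    simp only [ea, ea', fp] at a3 a4 a5
    have n1 := nm_fv (path ω a) (path ω a')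
    have n2 := nm_fv (path ω a') (path ω a)
    have n3 : nm (fv (path ω a)) (fv (path ω a')) ≤ nm 0 (fv (path ω a)) + nm 0 (fv (path ω a')) ∧
        nm (path ω a).1 (path ω a').1 = nm (path ω a').1 (path ω a).1 := by
      simp only [nm, abs_eq_max_neg, Prod.fst_zero, Prod.snd_zero]; omega
    obtain ⟨p, hp, b1, b2, b3⟩ : ∃ p ∈ G, 2 * R + 2 ≤ nm 0 (s * p.1, s * p.2) ∧ 0 ≤ s * p.2 ∧
        (nm (s * p.1, s * p.2) (path ω a).1 < s ∧ R < nm (s * p.1, s * p.2) (path ω a').1 ∨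
          nm (s * p.1, s * p.2) (path ω a').1 < s ∧ R < nm (s * p.1, s * p.2) (path ω a).1) := by
      by_cases c : m ≤ 2 * nm 0 (fv (path ω a))
      · obtain ⟨p, hp, b1, b2, b3⟩ := exists_grid (L := L) (R := R) (s := s) (v := (path ω a).1)
          (v' := (path ω a').1) (by omega) (by omega) (path_pos hq a) (by omega) (by omega)
        exact ⟨p, hp, b1, b2, Or.inl b3⟩
      · obtain ⟨p, hp, b1, b2, b3⟩ := exists_grid (L := L) (R := R) (s := s) (v := (path ω a').1)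
          (v' := (path ω a).1) (by omega) (by omega) (path_pos hq a') (by omega) (by omega)
        exact ⟨p, hp, b1, b2, Or.inr b3⟩
    by_contra c
    obtain ⟨x, y, c1, c2, c3, c4⟩ := cross_det hq hR b1 (by omega) b2 (by omega : a ≤ a')
      (Y := Y p) b3 fun l d1 d2 d3 => c ⟨l, by omega, by omega, p, hp, d3⟩
    exact hY' p hp x y c1 c2 c3 c4
  choose! l l1 l2 p p1 p2 using ex
  have cd := Finset.card_le_card_of_injOn (s := Finset.range N)
    (t := G.biUnion Y ×ˢ (Finset.univ : Finset (Fin 4 × Bool)))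
    (fun i => (pt (0 ≤ s * (p i).1) (path ω (l i)), (path ω (l i)).2, decide (0 ≤ s * (p i).1)))
    (fun i hi => by
      have := Finset.mem_range.1 hi
      simpa using ⟨_, _, p1 i this, p2 i this⟩)
    fun i hi j hj e => by
      have hi := Finset.mem_range.1 hi
      have hj := Finset.mem_range.1 hj
      simp only [Prod.mk.injEq, decide_eq_decide] at e
      obtain ⟨e1, e2, e3⟩ := e
      have e4 : path ω (l i) = path ω (l j) := pt_inj (b := 0 ≤ s * (p i).1) (by
        rw [e1]; simp only [pt, e3]) e2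
      have e5 : l i + 1 = l j + 1 := hq.inj (by simp only [fp, e4])
      have := l1 i hi
      have := l1 j hj
      have := l2 i hi
      have := l2 j hj
      rcases lt_trichotomy i j with c | c | c
      · have := k1 (by omega : 2 * i + 1 + 1 ≤ 2 * j)
        have := lt (2 * j) (by omega)
        omega
      · exact c
      · have := k1 (by omega : 2 * j + 1 + 1 ≤ 2 * i)
        have := lt (2 * i) (by omega)
        omega
  have c2 := Finset.card_biUnion_le_card_mul G Y n fun p hp => (hY p hp).le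
  simp only [Finset.card_range, Finset.card_product (G.biUnion Y), Finset.card_univ,
    Fintype.card_prod, Fintype.card_fin, Fintype.card_bool] at cd
  omega

theorem t_T1 (hFP : S_FP) : S_T1 := by
  intro A ε hε
  obtain ⟨K, K1, hK⟩ := ann_small (ε := 1 / 2) (by norm_num)
  set L : ℤ := 80 * A * K + 1 with hL
  set G := Finset.Icc (-L) L ×ˢ Finset.Icc (-L) L
  obtain ⟨n, hn⟩ := exists_pow_lt_of_lt_one (by positivity : 0 < ε / (G.card + 1))
    (by norm_num : (1 / 2 : ℝ) < 1)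
  refine ⟨2 * (G.card * n * 8 + 1), 400 * K, fun m hm => ?_⟩
  have K0 : (0 : ℤ) < 40 * K := by omega
  have s1 : 10 ≤ m / (40 * K) := Int.le_ediv_of_mul_le K0 (by omega)
  have s2 := Int.mul_ediv_add_emod m (40 * K)
  have s3 := Int.emod_nonneg m K0.ne'
  have s4 := Int.emod_lt_of_pos m K0
  generalize m / (40 * K) = s at *
  have sR : s ≤ K * s := le_mul_of_one_le_left (by omega) (by omega)
  have h1 := Pr_exists_le (fun _ => hf) G fun p =>
    {ω | cfg (0 ≤ s * p.1) ω ∈ DP (Arm1 (s * p.1, s * p.2) s (K * s)) n}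
  refine le_trans (Pr_mono fun ω hω => ?_) (h1.trans ?_)
  · obtain ⟨p, hp, b⟩ := steps_det (hFP ω) s1 sR (by linarith) (L := L) (by
      have : m ≤ 80 * (K * s) := by nlinarith
      have := mul_le_mul_of_nonneg_left this (Int.natCast_nonneg A)
      have : 0 ≤ A * (K * s) := by positivity
      rw [hL]; nlinarith) (Nat.lt_succ_self _) hω
    exact ⟨p, hp, MA_sub n _ sR b⟩
  · refine (Finset.sum_le_card_nsmul _ _ ((1 / 2) ^ n) fun p _ => ?_).trans ?_
    · have a1 := Q_DP (loc_Arm1 (s * p.1, s * p.2) sR) (up_Arm1 ..) n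
      have a2 := pow_le_pow_left₀ (Pr_nonneg _ _) (hK (s * p.1, s * p.2) s (K * s) (by omega) le_rfl) n
      refine le_trans (le_of_eq ?_) (a1.trans a2)
      unfold cfg
      split_ifs
      exacts [rfl, Q_du (loc_DP (loc_Arm1 _ sR) n)]
    · rw [lt_div_iff₀ (by positivity)] at hn
      rw [nsmul_eq_mul]
      nlinarith [pow_pos (by norm_num : (0 : ℝ) < 1 / 2) n]

end Pool.Agent.P.MP_6c8efb_pr.SLE
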