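import Pool.Agent.P.MP_6c8efb_pr.Ann
import Pool.Agent.P.MP_6c8efb_pr.SLE.Iface

/-! Fresh events at a stopping time, and the cells along the exploration path. -/

open Set Filter Function

namespace Pool.Agent.P.MP_6c8efb_pr.SLE

theorem Q_exists_le {E : ℕ → Set Cfg} {κ : ℝ} (h : ∀ n, Q {ω | ∃ k < n, ω ∈ E k} ≤ κ) :
    Q {ω | ∃ k, ω ∈ E k} ≤ κ := by
  have e : {ω | ∃ k, ω ∈ E k} = ⋃ n, {ω | ∃ k < n, ω ∈ E k} := by
    ext ω
    simp only [mem_iUnion, mem_ofPred_eq]
    exact ⟨fun ⟨k, hk⟩ => ⟨k + 1, k, by omega, hk⟩, fun ⟨_, k, _, hk⟩ => ⟨k, hk⟩⟩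
  have k0 : 0 ≤ κ := (Pr_nonneg _ _).trans (h 0)
  have m : Monotone fun n => {ω | ∃ k < n, ω ∈ E k} :=
    fun n m hnm ω ⟨k, h1, h2⟩ => ⟨k, h1.trans_le hnm, h2⟩
  rw [e, Q, Pr, MeasureTheory.measureReal_def, m.measure_iUnion]
  refine ENNReal.toReal_le_of_le_ofReal k0 (iSup_le fun n => ?_)
  rw [← MeasureTheory.ofReal_measureReal]
  exact ENNReal.ofReal_le_ofReal (h n)

theorem path_succ (ω : Cfg) (k : ℕ) : path ω (k + 1) = step (bc ω) (path ω k) :=
  iterate_succ_apply' _ _ _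

theorem mem_expl {ω : Cfg} {k : ℕ} {e : E} : e ∈ expl ω k ↔ ∃ j < k, ed (path ω j) = e := by
  simp [expl]

theorem path_congr {ω ω' : Cfg} {k : ℕ} (h : ∀ e ∈ expl ω k, ω e = ω' e) :
    ∀ j ≤ k, path ω j = path ω' j := by
  intro j hj
  induction j with
  | zero => rfl
  | succ j ih =>
    rw [path_succ, path_succ, ← ih (by omega)]
    refine step_congr ?_
    simp only [bc, h _ (mem_expl.2 ⟨j, hj, rfl⟩)]

theorem path_nm (ω : Cfg) (j : ℕ) : nm 0 (path ω j).1 ≤ j := by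
  induction j with
  | zero => simp [path, nm]
  | succ j ih =>
    rw [path_succ]
    by_cases b : bc ω (ed (path ω j)) = true
    · rw [step_open b]
      have := nm_lip 0 (path ω j).1 (path ω j).2
      simp only [rot, opp]
      omega
    · rw [step_closed b]
      simp only [rot]
      omega

/-- functions of the first `k` steps are local -/
theorem locF_of_path {β : Type*} {X : Cfg → β} {k : ℕ}
    (h : ∀ ω ω', (∀ j ≤ k, path ω j = path ω' j) → X ω = X ω') : LocF X := by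
  refine ⟨Rc (-(k + 1)) (k + 1) (-(k + 1)) (k + 1) ×ˢ univ, (Rc_finite ..).prod (toFinite _),
    fun ω ω' hω => h _ _ (path_congr fun e he => hω e ⟨?_, trivial⟩)⟩
  obtain ⟨j, hj, rfl⟩ := mem_expl.1 he
  have := path_nm ω j
  generalize path ω j = c at this
  obtain ⟨⟨a, b⟩, d⟩ := c
  simp only [nm, abs_eq_max_neg] at this
  rcases cases4 d with rfl | rfl | rfl | rfl <;> simp [ed, mem_Rc] at this ⊢ <;> omega

theorem expl_congr {ω ω' : Cfg} {k : ℕ} (h : ∀ j ≤ k, path ω j = path ω' j) :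
    expl ω k = expl ω' k :=
  Finset.image_congr fun j hj => by
    simp only [Finset.coe_range, mem_Iio] at hj
    simp only [h j hj.le]

theorem Adapted.path {β : Type} {X : ℕ → Cfg → β} (h : Adapted X) {k : ℕ} {ω ω' : Cfg}
    (hω : ∀ j ≤ k, path ω j = path ω' j) : X (k + 1) ω = X (k + 1) ω' :=
  h _ _ _ fun j hj => by
    cases j with
    | zero => rfl
    | succ j => simp only [fp, hω j (by omega)]

/-- an event chosen after `k` steps which only depends on the unexplored edges -/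
theorem Q_fresh {S : Cfg → Prop} {B : Cfg → Set Cfg} {k : ℕ} {κ : ℝ}
    (hS : ∀ ω ω', (∀ j ≤ k, path ω j = path ω' j) → S ω = S ω')
    (hB : ∀ ω ω', (∀ j ≤ k, path ω j = path ω' j) → B ω = B ω')
    (h : ∀ ω, S ω → MP_6c8efb_pr.Loc (B ω) ∧ Dep (B ω) (expl ω k : Set E)ᶜ ∧ Q (B ω) ≤ κ) :
    Q {ω | S ω ∧ ω ∈ B ω} ≤ κ * Q {ω | S ω} := by
  have hX : ∀ ω ω', (∀ j ≤ k, path ω j = path ω' j) →
      (B ω, expl ω k, S ω) = (B ω', expl ω' k, S ω') := fun ω ω' b => by
    rw [hS ω ω' b, hB ω ω' b, expl_congr b]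
  have := Pr_cond_le (fun _ => hf) (locF_of_path hX)
    {c | c ∈ range (fun ω => (B ω, expl ω k, S ω)) ∧ c.2.2}
    (A := fun c => c.1) (S := fun c => c.2.1) (T := fun c => (c.2.1 : Set E)ᶜ)
    (by rintro _ ⟨⟨ω, rfl⟩, b⟩; exact (h ω b).1)
    (by
      rintro c - ω ω' hω rfl
      exact (hX _ _ (path_congr hω)).symm)
    (by rintro _ ⟨⟨ω, rfl⟩, b⟩; exact (h ω b).2.1) (fun _ _ => disjoint_compl_right) (κ := κ)
    (by rintro _ ⟨⟨ω, rfl⟩, b⟩; exact (h ω b).2.2)
  refine le_trans (Pr_mono ?_) (this.trans_eq ?_)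
  · exact fun ω b => ⟨⟨⟨ω, rfl⟩, b.1⟩, b.2⟩
  congr 2
  exact Set.ext fun ω => ⟨fun b => b.2, fun b => ⟨⟨ω, rfl⟩, b⟩⟩

/-- the same at a stopping time -/
theorem Q_stop {S : ℕ → Cfg → Prop} {B : ℕ → Cfg → Set Cfg} {κ : ℝ} (k0 : 0 ≤ κ)
    (hS : ∀ k ω ω', (∀ j ≤ k, path ω j = path ω' j) → S k ω = S k ω')
    (hB : ∀ k ω ω', (∀ j ≤ k, path ω j = path ω' j) → B k ω = B k ω')
    (hu : ∀ ω k k', S k ω → S k' ω → k = k')
    (h : ∀ k ω, S k ω → MP_6c8efb_pr.Loc (B k ω) ∧ Dep (B k ω) (expl ω k : Set E)ᶜ ∧ Q (B k ω) ≤ κ) :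
    Q {ω | ∃ k, S k ω ∧ ω ∈ B k ω} ≤ κ := by
  refine Q_exists_le (E := fun k => {ω | S k ω ∧ ω ∈ B k ω}) fun n => ?_
  have h1 := Pr_exists_le (fun _ => hf) (Finset.range n) fun k => {ω | S k ω ∧ ω ∈ B k ω}
  have h2 := sum_Pr_le (fun _ => hf) (Finset.range n) (A := fun k => {ω | S k ω}) (B := univ)
    (fun k _ l _ hkl => Set.disjoint_left.2 fun ω a b => hkl (hu ω k l a b))
    (fun k _ => (locF_of_path (hS k)).loc {p | p}) fun _ _ => subset_univ _
  have h3 := Finset.sum_le_sum (s := Finset.range n) fun k _ => Q_fresh (hS k) (hB k) (h k)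
  rw [← Finset.mul_sum] at h3
  simp only [Finset.mem_range] at h1
  rw [Pr_univ] at h2
  exact h1.trans (h3.trans (mul_le_of_le_one_right k0 h2))

/-- the edges of `X` are closed -/
def shut (X : Finset E) (ω : Cfg) : Cfg := fun e => ω e && decide (e ∉ X)

/-- the edges of `X` are opened -/
def opn (X : Finset E) (ω : Cfg) : Cfg := fun e => ω e || decide (e ∈ X)

/-- an open or a dual arm which does not use the edges of `X` -/
def Fresh (X : Finset E) (z : V) (r R : ℤ) : Set Cfg :=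
  {ω | shut X ω ∈ Arm1 z r R ∨ du (opn X ω) ∈ Arm1 z r R}

theorem loc_pull {A : Set Cfg} (h : MP_6c8efb_pr.Loc A) (g : E → Bool → Bool) :
    MP_6c8efb_pr.Loc {ω : Cfg | (fun e => g e (ω e)) ∈ A} :=
  let ⟨S, hS, h⟩ := h
  ⟨S, hS, fun _ _ hω => h fun e he => by simp only [hω e he]⟩

theorem fresh_facts (X : Finset E) (z : V) {r R : ℤ} (h : r ≤ R) :
    MP_6c8efb_pr.Loc (Fresh X z r R) ∧ Dep (Fresh X z r R) (X : Set E)ᶜ ∧ Q (Fresh X z r R) ≤ 2 * Q (Arm1 z r R) := by
  refine ⟨(loc_pull (loc_Arm1 z h) fun e b => b && decide (e ∉ X)).union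
    (loc_pull (loc_du (loc_Arm1 z h)) fun e b => b || decide (e ∈ X)), fun ω ω' hω b => ?_, ?_⟩
  · have e1 : shut X ω = shut X ω' := funext fun e => by
      by_cases he : e ∈ X
      · simp [shut, he]
      · simp [shut, hω e he]
    have e2 : opn X ω = opn X ω' := funext fun e => by
      by_cases he : e ∈ X
      · simp [opn, he]
      · simp [opn, hω e he]
    simp only [Fresh, mem_ofPred_eq] at b ⊢
    rwa [← e1, ← e2]
  · have h1 := Pr_union_le (fun _ => hf) (Arm1 z r R) {ω | du ω ∈ Arm1 z r R}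
    have h2 := Q_du_Arm1 z h
    have h3 : Fresh X z r R ⊆ Arm1 z r R ∪ {ω | du ω ∈ Arm1 z r R} := fun ω b =>
      b.imp (up_Arm1 z r R fun e => by simp only [shut]; cases ω e <;> simp)
        (up_Arm1 z r R fun e => by simp only [du, opn]; cases ω (dl e) <;> simp)
    refine (Pr_mono h3).trans (h1.trans ?_)
    simp only [Q] at h2 ⊢; linarith

/-! ### Cells around the path -/

theorem dl_fc (v : V) (d : Fin 4) : dl (edge (fc v d) (d + 1)) = edge v d := by
  rcases cases4 d with rfl | rfl | rfl | rfl <;> simp [dl]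

theorem u_inj {d d' : Fin 4} (h : u d = u d') : d = d' := by
  rcases cases4 d with rfl | rfl | rfl | rfl <;> rcases cases4 d' with rfl | rfl | rfl | rfl <;>
    simp at h ⊢

theorem trace_iff {q : ℕ → V} {k : ℕ} {e : E} :
    trace q k e = true ↔ ∃ j < k, ∃ d, q (j + 1) = q j + u d ∧ e = edge (q j) d := by
  simp [trace]

theorem cc_one {q : ℕ → V} {k : ℕ} {S : Set V} {v : V} {d : Fin 4} (h1 : fc v d ∈ S)
    (h2 : fc v (d + 1) ∈ S) (h : ¬ trace q k (edge v d) = true) :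
    CC q k S (fc v d) (fc v (d + 1)) := by
  rw [fc_succ] at h2 ⊢
  exact Conn.one h1 h2 (by simpa [du, dl_fc] using h)

/-- the cells around a point of the path visited at time at least `k` are joined -/
theorem cc_around {q : ℕ → V} (hq : Injective q) {k i : ℕ} (hi : k ≤ i) {S : Set V}
    (hS : ∀ d, fc (q i) d ∈ S) (d d' : Fin 4) : CC q k S (fc (q i) d) (fc (q i) d') := by
  have key : ∀ d, trace q k (edge (q i) d) = true → q (i - 1) = q i + u d := fun d b => by
    obtain ⟨j, hj, d', h1, h2⟩ := trace_iff.1 b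
    rcases ed_eq (c := (q j, d')) (c' := (q i, d)) h2 with h3 | h3
    · have := hq (congrArg Prod.fst h3)
      omega
    · obtain ⟨h4, rfl⟩ := Prod.mk.inj h3
      obtain rfl : i = j + 1 := hq (h4.trans h1.symm)
      rw [h1, u_back]; rfl
  obtain ⟨d0, h0⟩ : ∃ d0, ∀ d, d ≠ d0 → ¬ trace q k (edge (q i) d) = true := by
    by_cases b : ∃ d0, trace q k (edge (q i) d0) = true
    · obtain ⟨d0, b⟩ := b
      exact ⟨d0, fun d hd b' => hd (u_inj (add_left_cancel ((key d b').symm.trans (key d0 b))))⟩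
    · exact ⟨0, fun d _ b' => b ⟨d, b'⟩⟩
  have a : ∀ d, d ≠ d0 → CC q k S (fc (q i) d) (fc (q i) (d + 1)) := fun d hd =>
    cc_one (hS _) (hS _) (h0 d hd)
  have b : ∀ d, CC q k S (fc (q i) (d0 + 1)) (fc (q i) d) := fun d => by
    have a1 := a (d0 + 1) (by rcases cases4 d0 with rfl | rfl | rfl | rfl <;> simp)
    have a2 := a (d0 + 1 + 1) (by rcases cases4 d0 with rfl | rfl | rfl | rfl <;> simp)
    have a3 := a (d0 + 1 + 1 + 1) (by rcases cases4 d0 with rfl | rfl | rfl | rfl <;> simp)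
    have a4 := a1.trans' a2
    have a5 := a4.trans' a3
    rcases cases4 d0 with rfl | rfl | rfl | rfl <;> rcases cases4 d with rfl | rfl | rfl | rfl <;>
      first | exact Conn.rfl' | exact a1 | exact a4 | exact a5
  exact (b d).symm'.trans' (b d')

/-- the cells along a later piece of the path are joined -/
theorem cc_along {q : ℕ → V} (hq : FP q) {k i j : ℕ} (hi : k ≤ i) (hj : i ≤ j) {S : Set V}
    (hS : ∀ l, i ≤ l → l ≤ j → ∀ d, fc (q l) d ∈ S) (d d' : Fin 4) :
    CC q k S (fc (q i) d) (fc (q j) d') := by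
  induction j, hj using Nat.le_induction generalizing d' with
  | base => exact cc_around hq.inj hi (hS i le_rfl le_rfl) d d'
  | succ j hj ih =>
    obtain ⟨e, he⟩ := hq.stp j
    have h1 := ih (fun l a b => hS l a (by omega)) e
    rw [← fc_step (q j), ← he] at h1
    exact h1.trans' (cc_around hq.inj (by omega) (hS _ (by omega) le_rfl) _ _)

theorem fv_closed (c : D) : fv (rot c) = fv c + u (c.2 + 1) := by
  obtain ⟨⟨a, b⟩, d⟩ := c
  rcases cases4 d with rfl | rfl | rfl | rfl <;> simp [fv, rot] <;> omega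

theorem fv_open (c : D) : fv (rot (opp c)) = fv c + u c.2 := by
  obtain ⟨⟨a, b⟩, d⟩ := c
  rcases cases4 d with rfl | rfl | rfl | rfl <;> simp [fv, rot, opp] <;> omega

theorem ce_ed (c : D) : ce (ed c) = fc (fv c) (c.2 + 1) := by
  obtain ⟨⟨a, b⟩, d⟩ := c
  rcases cases4 d with rfl | rfl | rfl | rfl <;> simp [fv, ce, ed] <;> omega

theorem cv_fv (c : D) : cv c.1 = fc (fv c) (c.2 + 2) := by
  obtain ⟨⟨a, b⟩, d⟩ := c
  rcases cases4 d with rfl | rfl | rfl | rfl <;> simp [fv, cv] <;> omega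

theorem cf_fv (c : D) : cf (fd c) = fc (fv c) c.2 := by
  obtain ⟨⟨a, b⟩, d⟩ := c
  rcases cases4 d with rfl | rfl | rfl | rfl <;> simp [fv, cf, fd] <;> omega

theorem fv_inj : Injective fv := by
  rintro ⟨⟨a, b⟩, d⟩ ⟨⟨a', b'⟩, d'⟩ h
  rcases cases4 d with rfl | rfl | rfl | rfl <;> rcases cases4 d' with rfl | rfl | rfl | rfl <;>
    simp [fv] at h ⊢ <;> omega

theorem fp_open {ω : Cfg} {l : ℕ} (h : bc ω (ed (path ω l)) = true) :
    fp ω (l + 1 + 1) = fp ω (l + 1) + u (path ω l).2 := by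
  simp only [fp, path_succ, step_open h, fv_open]

theorem fp_closed {ω : Cfg} {l : ℕ} (h : ¬ bc ω (ed (path ω l)) = true) :
    fp ω (l + 1 + 1) = fp ω (l + 1) + u ((path ω l).2 + 1) := by
  simp only [fp, path_succ, step_closed h, fv_closed]

theorem ce_mem_Lft {ω : Cfg} {k : ℕ} {e : E} (he : e ∈ expl ω k) (h : bc ω e = true) :
    ce e ∈ Lft (fp ω) (k + 1) := by
  obtain ⟨l, hl, rfl⟩ := mem_expl.1 he
  exact ⟨l + 1, by omega, _, fp_open h, ce_ed _⟩

theorem ce_mem_Rgt {ω : Cfg} {k : ℕ} {e : E} (he : e ∈ expl ω k) (h : ¬ bc ω e = true) :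
    ce e ∈ Rgt (fp ω) (k + 1) := by
  obtain ⟨l, hl, rfl⟩ := mem_expl.1 he
  exact ⟨l + 1, by omega, _, fp_closed h, ce_ed _⟩

/-- the path never comes below the negative half axis -/
theorem west {ω : Cfg} (hq : FP (fp ω)) (n : ℕ) : ∀ j, path ω (j + 1) ≠ ((-(n : ℤ), 0), 0) := by
  induction n with
  | zero =>
    intro j h
    have : fp ω (j + 1 + 1) = fp ω (0 + 1) := by simp only [fp, h]; rfl
    have := hq.inj this
    omega
  | succ n ih =>
    intro j h
    refine ih (j + 2) ?_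
    rw [path_succ, path_succ, h, step_open (c := ((-((n + 1 : ℕ) : ℤ), 0), 0)) (by simp [bc, ed]; omega),
      step_closed (by simp [bc, ed, rot, opp])]
    simp [rot, opp]

theorem west' {ω : Cfg} (hq : FP (fp ω)) {x : ℤ} (hx : x ≤ 0) (j : ℕ) :
    path ω (j + 1) ≠ ((x, 0), 0) := by
  have := west hq (-x).toNat j
  rwa [Int.toNat_of_nonneg (by omega), neg_neg] at this

theorem path_pos {ω : Cfg} (hq : FP (fp ω)) (j : ℕ) : 0 ≤ (path ω j).1.2 := by
  have := hq.pos (j + 1) (by omega)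
  simp only [fp] at this
  generalize path ω j = c at this
  obtain ⟨⟨a, b⟩, d⟩ := c
  rcases cases4 d with rfl | rfl | rfl | rfl <;> simp [fv] at this ⊢ <;> omega

/-- the fine edge below an edge of the real axis is never used -/
theorem not_trace_axis {ω : Cfg} (hq : FP (fp ω)) (k : ℕ) (x : ℤ) :
    ¬ trace (fp ω) k ((2 * x, 1), true) = true := fun b => by
  obtain ⟨j, -, d, h1, h2⟩ := trace_iff.1 b
  have e0 : fv ((x, 0), 0) = (2 * x, 1) := by simp [fv]
  have e1 : fv ((x + 1, 0), 3) = (2 * x + 1, 1) := by simp [fv]; omega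
  cases j with
  | zero => rcases cases4 d with rfl | rfl | rfl | rfl <;> simp [fp] at h2
  | succ j =>
    rcases ed_eq (c := ((2 * x, 1), 0)) (c' := (fp ω (j + 1), d)) h2.symm with h3 | h3
    · obtain ⟨h4, rfl⟩ := Prod.mk.inj h3
      have h5 : path ω j = ((x, 0), 0) := fv_inj (h4.trans e0.symm)
      by_cases hx : x < 0
      · cases j with
        | zero => simp [path, Prod.ext_iff] at h5; omega
        | succ j => exact west' hq hx.le j h5
      · rw [fp_closed (by simp [h5, bc, ed, hx]), h5] at h1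
        simp at h1
    · obtain ⟨h4, rfl⟩ := Prod.mk.inj h3
      have h5 : path ω j = ((x + 1, 0), 3) := fv_inj (h4.trans (by simp [e1]))
      rw [fp_closed (by simp [h5, bc, ed]), h5] at h1
      simp at h1

end Pool.Agent.P.MP_6c8efb_pr.SLE
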