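import Pool.Agent.P.MP_6c8efb_pr.SLE.Iface
import Pool.Agent.P.MP_6c8efb_pr.SLE.LIface

/-! Short crosscuts of a slit domain, seen as sets of cells. -/

open Set Filter Topology Metric Complex
open scoped NNReal

namespace Pool.Agent.P.MP_6c8efb_pr.SLE

/-- the centre of a cell -/
noncomputable def cen (h : ℝ) (c : V) : ℂ := (h : ℂ) * (cx c + ⟨1 / 2, 1 / 2⟩)

theorem cen_re (h : ℝ) (c : V) : (cen h c).re = h * (c.1 + 1 / 2) := by simp [cen, cx]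
theorem cen_im (h : ℝ) (c : V) : (cen h c).im = h * (c.2 + 1 / 2) := by simp [cen, cx]

theorem nm_le_iff {x y : V} {n : ℤ} : nm x y ≤ n ↔ |y.1 - x.1| ≤ n ∧ |y.2 - x.2| ≤ n := max_le_iff

theorem nm_tri (x y z : V) : nm x z ≤ nm x y + nm y z := by
  have h1 := nm_le_iff.1 (le_refl (nm x y))
  have h2 := nm_le_iff.1 (le_refl (nm y z))
  rw [nm_le_iff]
  simp only [abs_le] at h1 h2 ⊢
  omega

theorem sq_cover {h : ℝ} (hh : 0 < h) (z : ℂ) : z ∈ sq h (⌊z.re / h⌋, ⌊z.im / h⌋) :=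
  ⟨(le_div_iff₀' hh).1 (Int.floor_le _), (div_le_iff₀' hh).1 (Int.lt_floor_add_one _).le,
    (le_div_iff₀' hh).1 (Int.floor_le _), (div_le_iff₀' hh).1 (Int.lt_floor_add_one _).le⟩

theorem sq_near {h : ℝ} (hh : 0 < h) {c c' : V} {z z' : ℂ} {n : ℤ} (hz : z ∈ sq h c)
    (hz' : z' ∈ sq h c') (hn : nm c c' ≤ n) : ‖z' - z‖ ≤ 2 * h * (n + 1) := by
  obtain ⟨h1, h2⟩ := nm_le_iff.1 hn
  have h1' : |(c'.1 : ℝ) - c.1| ≤ n := by exact_mod_cast h1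
  have h2' : |(c'.2 : ℝ) - c.2| ≤ n := by exact_mod_cast h2
  obtain ⟨a1, a2, a3, a4⟩ := hz
  obtain ⟨b1, b2, b3, b4⟩ := hz'
  rw [abs_le] at h1' h2'
  have e1 : |(z' - z).re| ≤ h * (n + 1) := by
    rw [sub_re, abs_le]; constructor <;> nlinarith
  have e2 : |(z' - z).im| ≤ h * (n + 1) := by
    rw [sub_im, abs_le]; constructor <;> nlinarith
  linarith [norm_le_abs_re_add_abs_im (z' - z)]

theorem sq_nm {h : ℝ} (hh : 0 < h) {c c' : V} {z z' : ℂ} {n : ℤ} (hz : z ∈ sq h c)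
    (hz' : z' ∈ sq h c') (hn : ‖z' - z‖ + h ≤ h * n) : nm c c' ≤ n := by
  obtain ⟨a1, a2, a3, a4⟩ := hz
  obtain ⟨b1, b2, b3, b4⟩ := hz'
  have e1 := abs_le.1 (abs_re_le_norm (z' - z))
  have e2 := abs_le.1 (abs_im_le_norm (z' - z))
  rw [sub_re] at e1
  rw [sub_im] at e2
  have k : ∀ a : ℤ, h * a ≤ h * n → a ≤ n := fun a ha => by
    exact_mod_cast le_of_mul_le_mul_left ha hh
  rw [nm_le_iff, abs_le, abs_le]
  refine ⟨⟨?_, k _ ?_⟩, ?_, k _ ?_⟩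
  · have := k (c.1 - c'.1) (by push_cast; nlinarith); omega
  · push_cast; nlinarith
  · have := k (c.2 - c'.2) (by push_cast; nlinarith); omega
  · push_cast; nlinarith

theorem sq_row {h : ℝ} (hh : 0 < h) {c : V} {z : ℂ} (hz : z ∈ sq h c) (h0 : 0 < z.im) : 0 ≤ c.2 := by
  have : (0 : ℝ) < c.2 + 1 := (mul_pos_iff_of_pos_left hh).1 (h0.trans_le hz.2.2.2)
  have : (0 : ℤ) < c.2 + 1 := by exact_mod_cast this
  omega

theorem isCompact_sq (h : ℝ) (c : V) : IsCompact (sq h c) := by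
  have : sq h c = Icc (h * c.1) (h * (c.1 + 1)) ×ℂ Icc (h * c.2) (h * (c.2 + 1)) := by
    ext z; simp [sq, mem_reProdIm, and_assoc]
  rw [this]; exact isCompact_Icc.reProdIm isCompact_Icc

theorem Bx_finite (z : V) (r : ℤ) : (Bx z r).Finite :=
  (ball_finite z univ r).subset fun _ hc => ⟨trivial, hc.1⟩

theorem preconn_semi (x : ℝ) {s : ℝ} (hs : 0 < s) :
    IsPreconnected {w ∈ L.HH | ‖w - x‖ = s} := by
  have : {w ∈ L.HH | ‖w - x‖ = s} =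
      (fun θ : ℝ => (x : ℂ) + s * cexp (θ * I)) '' Ioo 0 Real.pi := by
    ext w
    constructor
    · rintro ⟨h1, h2⟩
      have h3 : 0 < (w - x).im := by simpa [L.mem_HH] using h1
      refine ⟨arg (w - x), ⟨?_, ?_⟩, ?_⟩
      · refine lt_of_le_of_ne (arg_nonneg_iff.2 h3.le) fun e => ?_
        exact h3.ne' (arg_eq_zero_iff.1 e.symm).2
      · exact arg_lt_pi_iff.2 (Or.inr h3.ne')
      · have := norm_mul_exp_arg_mul_I (w - x)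
        rw [h2] at this
        simp only [this]; ring
    · rintro ⟨θ, hθ, rfl⟩
      refine ⟨?_, by simp [abs_of_pos hs]⟩
      have := Real.sin_pos_of_pos_of_lt_pi hθ.1 hθ.2
      simp only [L.mem_HH, add_im, ofReal_im, zero_add, im_ofReal_mul, exp_ofReal_mul_I_im]
      positivity
  rw [this]
  exact isPreconnected_Ioo.image _ (by fun_prop)

theorem low_semi (x : ℝ) {s δ : ℝ} (hs : 0 < s) (hδ : 0 < δ) :
    ∃ w ∈ L.HH, ‖w - x‖ = s ∧ w.im ≤ δ := by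
  have h1 : 0 < min 1 (δ / s) := lt_min one_pos (div_pos hδ hs)
  refine ⟨x + s * cexp ((min 1 (δ / s) : ℝ) * I), ?_, by simp [abs_of_pos hs], ?_⟩
  · have := Real.sin_pos_of_pos_of_lt_pi h1 ((min_le_left _ _).trans_lt (by linarith [Real.pi_gt_three]))
    simp only [L.mem_HH, add_im, ofReal_im, zero_add, im_ofReal_mul, exp_ofReal_mul_I_im]
    positivity
  · simp only [add_im, ofReal_im, zero_add, im_ofReal_mul, exp_ofReal_mul_I_im]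
    have := (Real.sin_le h1.le).trans (min_le_right _ _)
    rwa [le_div_iff₀' hs] at this

/-- the crosscut around `x` as a set of cells -/
theorem fam (hDISC : S_DISC) (hCONT : S_CONT) (hEND : S_END) (hWf : L.S_Wf) (hWg : L.S_Wg)
    (hP : L.S_Prop) {h : ℝ} {q : ℕ → V} {k : ℕ} (hh : 0 < h) (hq : FP q) {g f : ℂ → ℂ}
    {a R ρ' r' s₀ s₁ x : ℝ} (H : L.Hyd (L.hull (pc h q) k) g f a)
    (hK : L.hull (pc h q) k ⊆ closedBall 0 R) (hs₀ : 0 < s₀) (hs : s₀ < s₁)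
    (hx : ∀ w ∈ L.HH, ‖w‖ ≤ |x| + s₁ → ‖f w‖ ≤ R)
    (hr' : 7 * (|x| + s₁ + 12 * R) / √(Real.log (s₁ / s₀)) ≤ r') (hρ0 : 0 < ρ') (hρR : ρ' < R)
    {r ρ : ℤ} (hr : r' + 4 * h ≤ h * r) (hrρ : r ≤ ρ) (hρ : 2 * h * (ρ + 1) ≤ ρ') :
    ∃ s ∈ Ioo s₀ s₁, ∃ (z : V) (Z : Set V), Z ⊆ Bx z r ∧
      (∀ c ∈ Z, ∃ c', CC q k Z c c' ∧ (c' ∈ Lft q k ∨ c' ∈ Rgt q k ∨ c'.2 = 0)) ∧
      (∀ c₀ ∈ Z, ∀ c, CC q k (Bx z ρ) c₀ c → 0 ≤ c.2 ∧ ‖g (cen h c) - x‖ ≤ s₁ + L.om R ρ') ∧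
      ∀ (c : V) (y : ℂ), segment ℝ (cen h c) y ⊆ L.HH \ L.hull (pc h q) k →
        ‖y - cen h c‖ ≤ 2 * h → ‖g y - x‖ = s → c ∈ Z := by
  set K := L.hull (pc h q) k
  have hR : 0 < R := hρ0.trans hρR
  obtain ⟨s, hs1, hw⟩ := hWf K g f a K g f a H H R x s₀ s₁ hK hK hR hs₀ hs
  have s0 : 0 < s := hs₀.trans hs1.1
  set C : Set ℂ := f '' {w ∈ L.HH | ‖w - x‖ = s}
  have CD : C ⊆ L.HH \ K := by rintro _ ⟨w, hw, rfl⟩; exact H.mf hw.1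
  have Cp : IsPreconnected C := (preconn_semi x s0).image _ (H.df.continuousOn.mono fun w hw => hw.1)
  have Cg : ∀ y ∈ C, ‖g y - x‖ = s := by rintro _ ⟨w, hw, rfl⟩; rw [H.gf w hw.1]; exact hw.2
  have t0 : (x + s * I : ℂ) ∈ {w ∈ L.HH | ‖w - x‖ = s} :=
    ⟨by simpa [L.mem_HH] using s0, by simp [abs_of_pos s0]⟩
  set y₀ := f (x + s * I)
  have y0R : ‖y₀‖ ≤ R := hx _ t0.1 (by
    have := norm_add_le (x + s * I - x : ℂ) x
    rw [t0.2, sub_add_cancel, norm_real, Real.norm_eq_abs] at this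
    linarith [hs1.2])
  have Cr : ∀ y ∈ C, ‖y - y₀‖ ≤ r' := by
    rintro _ ⟨w, hw', rfl⟩; exact (hw w hw'.1 _ t0.1 hw'.2 t0.2).1.trans hr'
  set z : V := (⌊y₀.re / h⌋, ⌊y₀.im / h⌋)
  have yz : y₀ ∈ sq h z := sq_cover hh y₀
  have near : ∀ (c : V) (y : ℂ), y ∈ sq h c → 0 < y.im → ‖y - y₀‖ ≤ r' + 2 * h →
      c ∈ Bx z (r - 1) := fun c y h1 h2 h3 =>
    ⟨sq_nm hh yz h1 (by push_cast; linarith), sq_row hh h1 h2⟩
  have sub1 : Bx z (r - 1) ⊆ Bx z r := fun c hc => ⟨hc.1.trans (by omega), hc.2⟩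
  have Z0 : ∀ c, (C ∩ sq h c).Nonempty → c ∈ Bx z (r - 1) := fun c ⟨y, h1, h2⟩ =>
    near c y h2 (CD h1).1 ((Cr y h1).trans (by linarith))
  set Z : Set V := {c | ∃ c₀, (C ∩ sq h c₀).Nonempty ∧ CC q k (Bx z r) c₀ c}
  have ZB : Z ⊆ Bx z r := fun c ⟨c₀, h1, h2⟩ => Conn.mem h2 (sub1 (Z0 c₀ h1))
  have Z1 : ∀ c, (C ∩ sq h c).Nonempty → c ∈ Z := fun c hc => ⟨c, hc, Conn.rfl'⟩
  refine ⟨s, hs1, z, Z, ZB, ?_, ?_, ?_⟩
  · obtain ⟨c₁, h1, ζ, h2, h3⟩ : ∃ c₁, (C ∩ sq h c₁).Nonempty ∧ ∃ ζ ∈ sq h c₁, ζ ∉ L.HH \ K := by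
      by_contra hc
      push Not at hc
      have fin : {c | (C ∩ sq h c).Nonempty}.Finite := (Bx_finite z (r - 1)).subset Z0
      have cp : IsCompact (⋃ c ∈ {c | (C ∩ sq h c).Nonempty}, sq h c) :=
        fin.isCompact_biUnion fun c _ => isCompact_sq h c
      obtain ⟨ε, hε, he⟩ := cp.exists_cthickening_subset_open H.opn
        (iUnion₂_subset fun c hc' y hy => hc c hc' y hy)
      obtain ⟨δ, hδ, hd⟩ := (hP K g f a H).2.1 ε (|x| + s) hε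
      obtain ⟨w, w1, w2, w3⟩ := low_semi x s0 hδ
      obtain ⟨b, b1, b2⟩ := hd w w1 (by
        have := norm_add_le (w - x : ℂ) x
        rw [w2, sub_add_cancel, norm_real, Real.norm_eq_abs] at this
        linarith) w3
      refine b1 (he (mem_cthickening_of_dist_le b (f w) ε _ ?_ (by rwa [dist_comm, dist_eq_norm])))
      exact mem_biUnion (x := (⌊(f w).re / h⌋, ⌊(f w).im / h⌋))
        ⟨f w, ⟨w, ⟨w1, w2⟩, rfl⟩, sq_cover hh _⟩ (sq_cover hh _)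
    obtain ⟨c₂, h4, h5⟩ : ∃ c₂, CC q k Z c₁ c₂ ∧ (c₂ ∈ Lft q k ∨ c₂ ∈ Rgt q k ∨ c₂.2 = 0) := by
      by_cases h6 : ζ ∈ K
      · obtain ⟨c₂, e1, e2, e3, e4⟩ := hEND h q k c₁ hh hq ⟨ζ, h2, h6⟩
        have e5 : c₂ ∈ Bx z r := ⟨by have := nm_tri z c₁ c₂; have := (Z0 c₁ h1).1; omega, e3⟩
        have e6 : c₂ ∈ Z := ⟨c₁, h1, Conn.mono_set e4 (by
          rintro _ (rfl | rfl); exacts [sub1 (Z0 _ h1), e5])⟩
        exact ⟨c₂, Conn.mono_set e4 (by rintro _ (rfl | rfl); exacts [Z1 _ h1, e6]),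
          e1.imp_right Or.inl⟩
      · refine ⟨c₁, Conn.rfl', Or.inr (Or.inr (le_antisymm ?_ (Z0 c₁ h1).2))⟩
        have e1 : ζ.im ≤ 0 := not_lt.1 fun e => h3 ⟨e, h6⟩
        have e2 : (c₁.2 : ℝ) ≤ 0 := by
          by_contra e
          nlinarith [h2.2.2.1, mul_pos hh (not_le.1 e)]
        exact_mod_cast e2
    rintro c ⟨c₀, e1, e2⟩
    refine ⟨c₂, Conn.trans' ?_ h4, h5⟩
    refine Conn.trans' (Conn.symm' (Conn.mono_set (Conn.cl e2) fun y hy => ⟨c₀, e1, hy.2⟩)) ?_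
    exact Conn.mono_set (hDISC h q k C hh hq Cp CD c₀ c₁ e1 h1) Z1
  · rintro c₀ ⟨c₁, ⟨y, y1, y2⟩, e2⟩ c e3
    have sub2 : Bx z r ⊆ Bx z ρ := fun c hc => ⟨hc.1.trans hrρ, hc.2⟩
    have e4 : CC q k (Bx z ρ) c₁ c := Conn.trans' (Conn.mono_set e2 sub2) e3
    have e5 : c₁ ∈ Bx z ρ := sub2 (sub1 (Z0 c₁ ⟨y, y1, y2⟩))
    have e6 := (Conn.mem e4 e5).2
    obtain ⟨Y, Y1, Y2, Y3, Y4, Y5⟩ := (hCONT h q k hh hq).2 (Bx z ρ) c₁ c y _ (fun _ hy => hy.2) e4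
      ⟨y2, CD y1⟩ ((hCONT h q k hh hq).1 c e6)
    refine ⟨e6, ?_⟩
    have e7 := (hWg K g f a H R ρ' y₀ hK y0R hρ0 hρR).1 Y Y4 (fun w hw => by
      obtain ⟨c', e8, e9⟩ := mem_iUnion₂.1 (Y5 hw)
      rw [mem_closedBall, dist_eq_norm]
      exact (sq_near hh yz e9 (Conn.mem e8 e5).1).trans hρ) Y1 _ Y3 y Y2
    have e8 := norm_add_le (g (cen h c) - g y) (g y - x)
    rw [sub_add_sub_cancel, Cg y y1] at e8
    exact e8.trans (by rw [add_comm]; exact add_le_add hs1.2.le e7)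
  · intro c y h1 h2 h3
    have yD := h1 (right_mem_segment ℝ _ _)
    have yC : y ∈ C := ⟨g y, ⟨H.mg yD, h3⟩, H.fg y yD⟩
    have hc : cen h c ∈ sq h c := by
      refine ⟨?_, ?_, ?_, ?_⟩ <;> simp only [cen_re, cen_im] <;> nlinarith
    refine ⟨_, ⟨y, yC, sq_cover hh y⟩, Conn.mono_set (hDISC h q k _ hh hq
      (convex_segment _ _).isPreconnected h1 _ c ⟨y, right_mem_segment ℝ _ _, sq_cover hh y⟩
      ⟨_, left_mem_segment ℝ _ _, hc⟩) ?_⟩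
    rintro c' ⟨w, w1, w2⟩
    refine sub1 (near c' w w2 (h1 w1).1 ?_)
    have e1 : ‖w - y‖ ≤ 2 * h := by
      have := segment_subset_closedBall_right (cen h c) y w1
      rw [mem_closedBall, dist_eq_norm, dist_eq_norm, norm_sub_rev (cen h c)] at this
      exact this.trans h2
    have e2 := norm_add_le (w - y) (y - y₀)
    rw [sub_add_sub_cancel] at e2
    linarith [Cr y yC]

end Pool.Agent.P.MP_6c8efb_pr.SLE
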