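import Pool.Agent.P.MP_6c8efb_pr.SLE.Iface
import Pool.Agent.P.MP_6c8efb_pr.SLE.LIface

/-! Uniform estimates for the maps of a small hull. -/

open Set Filter Topology Metric Complex
open scoped ComplexConjugate

namespace Pool.Agent.P.MP_6c8efb_pr.SLE.One

open L

variable {K : Set ℂ} {g f : ℂ → ℂ} {a w r : ℝ}

theorem far (h : Small K g f a w r) {z : ℂ} (hz : r < ‖z‖) : z ∈ Dsym K :=
  mem_Dsym_of_lt (x := 0) (by simpa using h.sub) (by simpa using hz)

theorem disp (h2 : S_L2s) (h : Small K g f a w r) (hr : 0 < r) {z : ℂ} (hz : z ∈ Dsym K) :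
    ‖g z - z‖ ≤ 12 * r := h2 K g f a h.hyd h.sym 0 r hr (by simpa using h.sub) z hz

theorem im_pos (h : Small K g f a w r) {z : ℂ} (hz : z ∈ Dsym K) (h0 : 0 < z.im) :
    0 < (g z).im := h.hyd.mg (mem_D_of_Dsym hz h0)

theorem im_neg (h : Small K g f a w r) {z : ℂ} (hz : z ∈ Dsym K) (h0 : z.im < 0) :
    (g z).im < 0 := by
  have := im_pos h (conj_mem_Dsym hz) (by simpa using h0)
  rw [h.sym.cj z hz] at this
  simpa using this

theorem im_zero (h : Small K g f a w r) {z : ℂ} (hz : z ∈ Dsym K) (h0 : z.im = 0) :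
    (g z).im = 0 := by
  have := h.sym.cj z hz
  rw [conj_eq_iff_im.2 h0] at this
  exact conj_eq_iff_im.1 this.symm

theorem pos_of_im (h : Small K g f a w r) {z : ℂ} (hz : z ∈ Dsym K) (h0 : 0 < (g z).im) :
    0 < z.im := by
  rcases lt_trichotomy z.im 0 with h1 | h1 | h1
  · linarith [im_neg h hz h1]
  · linarith [im_zero h hz h1]
  · exact h1

theorem neg_of_im (h : Small K g f a w r) {z : ℂ} (hz : z ∈ Dsym K) (h0 : (g z).im < 0) :
    z.im < 0 := by
  rcases lt_trichotomy z.im 0 with h1 | h1 | h1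
  · exact h1
  · linarith [im_zero h hz h1]
  · linarith [im_pos h hz h1]

theorem im_le (hP : S_Prop) (h : Small K g f a w r) {z : ℂ} (hz : z ∈ Dsym K) {μ : ℝ} (hμ : 0 ≤ μ)
    (h0 : z.im ≤ μ) : (g z).im ≤ μ := by
  rcases lt_trichotomy z.im 0 with h1 | h1 | h1
  · linarith [im_neg h hz h1]
  · linarith [im_zero h hz h1]
  · have hD := mem_D_of_Dsym hz h1
    have := (hP K g f a h.hyd).2.2.2.2.1 _ (h.hyd.mg hD)
    rw [h.hyd.fg z hD] at this
    linarith

theorem sch (h2 : S_L2s) (h : Small K g f a w r) (hr : 0 < r) {z y : ℂ} (hz : 200 * r ≤ ‖z‖)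
    (hy : y ∈ Dsym K) : ‖g y - y - (g z - z)‖ ≤ ‖y - z‖ / 4 := by
  have hb : ∀ v ∈ Dsym K, ‖g v - v - (g z - z)‖ ≤ 24 * r := fun v hv =>
    (norm_sub_le _ _).trans (by linarith [disp h2 h hr hv, disp h2 h hr (far h (z := z) (by linarith))])
  rcases lt_or_ge ‖y - z‖ (100 * r) with h1 | h1
  · have hs : ball z (100 * r) ⊆ Dsym K := fun v hv => far h (by
      have := norm_sub_norm_le z v
      rw [mem_ball, dist_comm, dist_eq_norm] at hv
      linarith)
    have := dist_le_div_mul_dist_of_mapsTo_ball (f := fun v => g v - v) (c := z) (R₂ := 24 * r)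
      ((h.sym.dg.mono hs).sub differentiableOn_id)
      (fun v hv => by rw [mem_closedBall, dist_eq_norm]; exact hb v (hs hv))
      (by rw [mem_ball, dist_eq_norm]; exact h1)
    rw [dist_eq_norm, dist_eq_norm, show 24 * r / (100 * r) = 24 / 100 by field_simp] at this
    linarith [norm_nonneg (y - z)]
  · linarith [hb y hy]

theorem img (h2 : S_L2s) (h : Small K g f a w r) (hr : 0 < r) {v : ℂ}
    (hv : 0 < v.im ∨ 14 * r ≤ ‖v‖) : v ∈ g '' Dsym K := by
  have up : ∀ v : ℂ, 0 < v.im → v ∈ g '' Dsym K := fun v hv =>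
    ⟨f v, h.hyd.sub_Dsym (h.hyd.mf hv), h.hyd.gf v hv⟩
  rcases lt_trichotomy v.im 0 with h1 | h1 | h1
  · obtain ⟨z, hz, e⟩ := up (conj v) (by simpa using h1)
    exact ⟨conj z, conj_mem_Dsym hz, by rw [h.sym.cj z hz, e, conj_conj]⟩
  · have h3 : 14 * r ≤ |v.re| := by
      rw [abs_re_eq_norm.2 h1]
      exact hv.resolve_left (by rw [h1]; exact lt_irrefl _)
    have hs : ∀ x ∈ Icc (v.re - 12 * r) (v.re + 12 * r), (x : ℂ) ∈ Dsym K := fun x hx => far h (by
      rw [norm_real, Real.norm_eq_abs]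
      have := abs_sub_abs_le_abs_sub v.re x
      have : |v.re - x| ≤ 12 * r := abs_le.2 ⟨by linarith [hx.2], by linarith [hx.1]⟩
      linarith)
    have hc : ContinuousOn (fun x : ℝ => (g x).re) (Icc (v.re - 12 * r) (v.re + 12 * r)) :=
      continuous_re.comp_continuousOn
        (h.sym.dg.continuousOn.comp continuous_ofReal.continuousOn hs)
    have hd : ∀ x ∈ Icc (v.re - 12 * r) (v.re + 12 * r), |(g x).re - x| ≤ 12 * r := fun x hx => by
      simpa using (abs_re_le_norm _).trans (disp h2 h hr (hs x hx))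
    have hle : v.re - 12 * r ≤ v.re + 12 * r := by linarith
    have hm : v.re ∈ Icc (g (v.re - 12 * r : ℝ)).re (g (v.re + 12 * r : ℝ)).re :=
      ⟨by linarith [(abs_le.1 (hd _ (left_mem_Icc.2 hle))).2],
        by linarith [(abs_le.1 (hd _ (right_mem_Icc.2 hle))).1]⟩
    obtain ⟨x, hx, e⟩ := intermediate_value_Icc hle hc hm
    exact ⟨x, hs x hx, Complex.ext e (by rw [im_zero h (hs x hx) (ofReal_im x), h1])⟩
  · exact up v h1

theorem inv (h : Small K g f a w r) {v : ℂ} (hv : v ∈ g '' Dsym K) :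
    f v ∈ Dsym K ∧ g (f v) = v := by
  obtain ⟨z, hz, rfl⟩ := hv
  rw [h.sym.fg z hz]; exact ⟨hz, rfl⟩

/-- a uniform modulus of continuity -/
theorem modu (h2 : S_L2s) (hW : S_Wg) {r B c ν : ℝ} (hr : 0 < r) (hB : 0 ≤ B) (hc : 0 < c)
    (hν : 0 < ν) : ∃ μ : ℝ, 0 < μ ∧ ∀ K g f a w, Small K g f a w r → ∀ v : ℂ, ‖v‖ ≤ B →
      (c ≤ v.im ∨ 300 * r ≤ ‖v‖) → ∀ y : ℂ, ‖y - f v‖ ≤ μ → y ∈ Dsym K ∧ ‖g y - v‖ ≤ ν := by
  obtain ⟨ρ, hρ, hρR, ho⟩ := om_small (R := B + 12 * r) (by linarith)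
    (lt_min hν (half_pos hc))
  refine ⟨min ρ (min r (ν / 2)), by positivity, fun K g f a w h v hv hs y hy => ?_⟩
  obtain ⟨hy1, hy2, hy3⟩ : ‖y - f v‖ ≤ ρ ∧ ‖y - f v‖ ≤ r ∧ ‖y - f v‖ ≤ ν / 2 := by
    simpa only [le_min_iff] using hy
  obtain ⟨i1, i2⟩ := inv h (img h2 h hr (v := v) (hs.imp (hc.trans_le ·) fun h => by linarith))
  have hd := disp h2 h hr i1
  rw [i2] at hd
  rcases hs with hs | hs
  · have hD : f v ∈ HH \ K := h.hyd.mf (hc.trans_le hs)
    obtain ⟨w1, w2⟩ := hW K g f a h.hyd (B + 12 * r) ρ (f v)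
      (h.sub.trans (closedBall_subset_closedBall (by linarith)))
      (by linarith [norm_sub_norm_le (f v) v, norm_sub_rev (f v) v]) hρ hρR
    have hb : closedBall (f v) ρ ⊆ HH \ K := fun b hb => by
      by_contra hn
      have := w2 _ hD (mem_closedBall_self hρ.le) ⟨b, hb, hn⟩
      rw [i2] at this
      linarith [min_le_right ν (c / 2)]
    have hy' : y ∈ closedBall (f v) ρ := by rwa [mem_closedBall, dist_eq_norm]
    have := w1 _ hb subset_rfl (convex_closedBall _ _).isPreconnected y hy' _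
      (mem_closedBall_self hρ.le)
    rw [i2] at this
    exact ⟨h.hyd.sub_Dsym (hb hy'), this.trans (ho.trans (min_le_left _ _))⟩
  · have h1 : 288 * r ≤ ‖f v‖ := by linarith [norm_sub_norm_le v (f v)]
    have hyD : y ∈ Dsym K := far h (by linarith [norm_sub_norm_le (f v) y, norm_sub_rev (f v) y])
    have := sch h2 h hr (z := f v) (by linarith) hyD
    rw [i2] at this
    refine ⟨hyD, ?_⟩
    have e : g y - v = g y - y - (v - f v) + (y - f v) := by ring
    rw [e]
    linarith [norm_add_le (g y - y - (v - f v)) (y - f v)]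

/-- points whose image is in a cone at the image of a far real point -/
theorem cone (h2 : S_L2s) (h : Small K g f a w r) (hr : 0 < r) {x : ℝ} (hx : 200 * r ≤ |x|)
    {y : ℂ} (hy : y ∈ Dsym K) (hc : |(g y).im| ≤ |(g y).re - (g x).re|) :
    |y.re - x - ((g y).re - (g x).re)| ≤ 2 / 3 * |(g y).re - (g x).re| := by
  have hx' : 200 * r ≤ ‖(x : ℂ)‖ := by simpa using hx
  have h0 := im_zero h (far h (z := x) (by linarith)) (ofReal_im x)
  have h1 := sch h2 h hr hx' hy
  have h3 : ‖g y - g x‖ ≤ 2 * |(g y).re - (g x).re| := by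
    have := norm_le_abs_re_add_abs_im (g y - g x)
    rw [sub_re, sub_im, h0, sub_zero] at this
    linarith
  have e : y - x = g y - g x - (g y - y - (g x - x)) := by ring
  have h4 : ‖y - x‖ ≤ ‖g y - g x‖ + ‖g y - y - (g x - x)‖ := by
    conv_lhs => rw [e]
    exact norm_sub_le _ _
  have h5 := abs_re_le_norm (g y - y - (g x - x))
  simp only [sub_re, ofReal_re] at h5
  rw [show y.re - x - ((g y).re - (g x).re) = -((g y).re - y.re - ((g x).re - x)) by ring, abs_neg]
  linarith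

end Pool.Agent.P.MP_6c8efb_pr.SLE.One
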