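import Pool.Agent.P.MP_6c8efb_pr.SLE.UOneA

/-! A polyomino close to the image of a large disc, and the identification of the limit. -/

open Set Filter Topology Metric Complex
open scoped Real

namespace Pool.Agent.P.MP_6c8efb_pr.SLE.One

/-- the points close to an arc of the circle -/
def arcP (c : ℂ) (ρ σ a b : ℝ) : Set ℂ := {u | ∃ θ ∈ Icc a b, ‖u - (c + ρ * exp (θ * I))‖ ≤ σ}

theorem arcP_mono (c : ℂ) (ρ : ℝ) {σ σ' : ℝ} (h : σ ≤ σ') (a b : ℝ) :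
    arcP c ρ σ a b ⊆ arcP c ρ σ' a b := fun _ ⟨θ, h1, h2⟩ => ⟨θ, h1, h2.trans h⟩

/-- a disc with four marked angles which looks like the half plane in the window of size `n` -/
structure Geo (n : ℝ) (c : ℂ) (ρ σ x a₀ a₁ a₂ a₃ : ℝ) : Prop where
  pos : 0 < σ
  le : σ ≤ ρ
  g0 : a₀ + σ / ρ ≤ a₁
  g1 : a₁ + σ / ρ ≤ a₂
  g2 : a₂ + σ / ρ ≤ a₃
  g3 : a₃ + σ / ρ ≤ a₀ + 2 * π
  big : ∀ u : ℂ, ‖u‖ ≤ n → 1 / n ≤ u.im → ‖u - c‖ < ρ - σ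
  low : ∀ u : ℂ, ‖u - c‖ ≤ ρ + σ → -(1 / n) < u.im
  h0 : ∀ u ∈ arcP c ρ σ a₀ a₁, -(1 / n) < u.re ∧ u.re < x + 1 / n
  h1 : ∀ u ∈ arcP c ρ σ a₁ a₂, x - 1 / n < u.re ∧ u.re < 1 + 1 / n
  h2 : ∀ u ∈ arcP c ρ σ a₂ a₃, ‖u‖ ≤ n → 1 - 1 / n < u.re
  h3 : ∀ u ∈ arcP c ρ σ a₃ (a₀ + 2 * π), ‖u‖ ≤ n → u.re < 1 / n

/-- the raw form of the crossing formula -/
structure Raw (M : ℝ) (P : Cardy.Dom) (i₁ i₂ i₃ : ℕ) (f : ℂ → ℂ) (t : ℝ) : Prop where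
  cont : ContinuousOn f P.cl
  diff : DifferentiableOn ℂ f (interior P.cl)
  bd : ∀ z ∈ P.cl, ‖f z‖ ≤ M
  mid : ∀ z ∈ seg P.c 0 i₂, (f z).im = 0
  right : ∀ z ∈ seg P.c i₂ i₃, ((f z - 1) * om).im = 0
  left : ∀ z ∈ seg P.c i₃ P.n, (f z / om).im = 0
  le : ∀ z ∈ seg P.c 0 i₁, (f z).re ≤ t
  ge : ∀ z ∈ seg P.c i₁ i₂, t ≤ (f z).re

/-- the identification statement in the window of size `n` -/
def Idm (M ε n x : ℝ) : Prop := ∀ (U : Set ℂ) (h : ℂ → ℂ) (t : ℝ), Near M n U h →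
  (∀ z ∈ frontier U, ‖z‖ ≤ n → 1 / n ≤ z.re → z.re ≤ x - 1 / n → (h z).re ≤ t) →
  (∀ z ∈ frontier U, ‖z‖ ≤ n → x + 1 / n ≤ z.re → z.re ≤ 1 - 1 / n → t ≤ (h z).re) →
  |t - cardy x| ≤ ε

theorem seg_split (c : ℕ → V) (i j k : ℕ) : seg c i k ⊆ seg c i j ∪ seg c j k := by
  intro z hz
  obtain ⟨m, hm, h⟩ := mem_iUnion₂.1 hz
  rcases lt_or_ge m j with h1 | h1
  · exact Or.inl (mem_iUnion₂.2 ⟨m, ⟨hm.1, h1⟩, h⟩)
  · exact Or.inr (mem_iUnion₂.2 ⟨m, ⟨h1, hm.2⟩, h⟩)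

theorem seg_mono (c : ℕ → V) {i j i' j' : ℕ} (h : i' ≤ i) (h' : j ≤ j') :
    seg c i j ⊆ seg c i' j' := biUnion_subset_biUnion_left (Ico_subset_Ico h h')

theorem norm_exp_sub (s t : ℝ) : ‖exp (s * I) - exp (t * I)‖ ≤ |s - t| := by
  have e : exp (s * I) - exp (t * I) = exp (t * I) * (exp (I * (s - t : ℝ)) - 1) := by
    rw [mul_sub, ← Complex.exp_add]; push_cast; ring_nf
  rw [e, norm_mul, norm_exp_ofReal_mul_I, one_mul]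
  exact Real.norm_exp_I_mul_ofReal_sub_one_le

theorem arc_sub {Φ : ℂ → ℂ} {c : ℂ} {ρ ν a b : ℝ} (hρ : 0 < ρ) (hν : 0 ≤ ν) (hab : a ≤ b) :
    arcN (fun ζ => Φ (c + ρ * ζ)) ν a b ⊆ Φ '' arcP c ρ (2 * ν * ρ) a b := by
  rintro _ ⟨ζ, ⟨θ, hθ, h⟩, rfl⟩
  obtain ⟨θ', h1, h2⟩ : ∃ θ' ∈ Icc a b, |θ - θ'| ≤ ν := by
    rcases le_total θ a with h1 | h1
    · exact ⟨a, left_mem_Icc.2 hab, abs_le.2 ⟨by linarith [hθ.1], by linarith⟩⟩
    rcases le_total θ b with h2 | h2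
    · exact ⟨θ, ⟨h1, h2⟩, by simpa using hν⟩
    · exact ⟨b, right_mem_Icc.2 hab, abs_le.2 ⟨by linarith, by linarith [hθ.2]⟩⟩
  refine ⟨_, ⟨θ', h1, ?_⟩, rfl⟩
  rw [show c + ρ * ζ - (c + ρ * exp (θ' * I)) = ρ * (ζ - exp (θ' * I)) by ring, norm_mul,
    norm_real, Real.norm_eq_abs, abs_of_pos hρ]
  have := norm_sub_le_norm_sub_add_norm_sub ζ (exp (θ * I)) (exp (θ' * I))
  have := norm_exp_sub θ θ'
  nlinarith

theorem arcP_sub {c : ℂ} {ρ σ a b : ℝ} (hρ : 0 < ρ) {u : ℂ} (h : u ∈ arcP c ρ σ a b) :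
    ‖u - c‖ ≤ ρ + σ := by
  obtain ⟨θ, -, h⟩ := h
  have := norm_sub_le_norm_sub_add_norm_sub u (c + ρ * exp (θ * I)) c
  rw [add_sub_cancel_left, norm_mul, norm_exp_ofReal_mul_I, norm_real, Real.norm_eq_abs,
    abs_of_pos hρ] at this
  linarith

theorem core (hP : S_POLY) (hR : S_REG) {n ρ σ x a₀ a₁ a₂ a₃ M ε : ℝ} {c : ℂ}
    (G : Geo n c ρ σ x a₀ a₁ a₂ a₃) (hn : 0 < n) (hx1 : 0 ≤ x) (hx2 : x ≤ 1) (hI : Idm M ε n x)
    {Φ : ℂ → ℂ} (hd : DifferentiableOn ℂ Φ (ball c (ρ + σ))) (hi : InjOn Φ (ball c (ρ + σ)))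
    (hk : ∀ u ∈ ball c (ρ + σ / 2), ball (Φ u) 10 ⊆ Φ '' ball u (σ / 100)) :
    ∃ (P : Cardy.Dom) (i₁ i₂ i₃ : ℕ), 0 < i₁ ∧ i₁ < i₂ ∧ i₂ < i₃ ∧ i₃ < P.n ∧
      P.Cvx 0 ∧ P.Cvx i₂ ∧ P.Cvx i₃ ∧ P.cl ⊆ Φ '' ball c (ρ + σ / 2) ∧
      seg P.c 0 i₁ ⊆ Φ '' arcP c ρ (σ / 2) a₀ a₁ ∧ seg P.c i₁ i₂ ⊆ Φ '' arcP c ρ (σ / 2) a₁ a₂ ∧
      seg P.c i₂ i₃ ⊆ Φ '' arcP c ρ (σ / 2) a₂ a₃ ∧
      seg P.c i₃ P.n ⊆ Φ '' arcP c ρ (σ / 2) a₃ (a₀ + 2 * π) ∧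
      ∀ f t, Raw M P i₁ i₂ i₃ f t → |t - cardy x| ≤ ε := by
  have hσ := G.pos
  have hρ : 0 < ρ := hσ.trans_le G.le
  have hρ' : (ρ : ℂ) ≠ 0 := by exact_mod_cast hρ.ne'
  have nrm : ∀ ζ ζ' : ℂ, dist (c + ρ * ζ) (c + ρ * ζ') = ρ * dist ζ ζ' := fun ζ ζ' => by
    rw [dist_eq_norm, dist_eq_norm, show c + ρ * ζ - (c + ρ * ζ') = ρ * (ζ - ζ') by ring, norm_mul,
      norm_real, Real.norm_eq_abs, abs_of_pos hρ]
  have im : ∀ (ζ : ℂ) (s : ℝ), (fun ζ => Φ (c + ρ * ζ)) '' ball ζ s =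
      Φ '' ball (c + ρ * ζ) (ρ * s) := fun ζ s => by
    rw [← image_image Φ fun ζ => c + ρ * ζ]
    congr 1
    ext u
    constructor
    · rintro ⟨v, hv, rfl⟩
      rw [mem_ball, nrm]; exact mul_lt_mul_of_pos_left hv hρ
    · intro hu
      have e : c + ρ * ((u - c) / ρ) = u := by field_simp; ring
      refine ⟨(u - c) / ρ, ?_, e⟩
      rw [mem_ball, ← e, nrm] at hu
      exact lt_of_mul_lt_mul_left hu hρ.le
  have mp : ∀ s : ℝ, MapsTo (fun ζ => c + ρ * ζ) (ball (0 : ℂ) (1 + s / ρ)) (ball c (ρ + s)) :=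
    fun s ζ hζ => by
      have := mul_lt_mul_of_pos_left (mem_ball.1 hζ) hρ
      rw [← nrm, mul_zero, add_zero, mul_add, mul_one, mul_div_cancel₀ _ hρ.ne'] at this
      exact this
  have e100 : 100 * (σ / ρ / 100) = σ / ρ := by ring
  have hq : 0 < σ / ρ := div_pos hσ hρ
  obtain ⟨P, i₁, i₂, i₃, p1, p2, p3, p4, p5, p6, p7, q1, q2, q3, q4, q5, q6⟩ :=
    hP (fun ζ => Φ (c + ρ * ζ)) (σ / ρ) (σ / ρ / 100) a₀ a₁ a₂ a₃ (by positivity) e100.le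
      ((div_le_one hρ).2 G.le) (by rw [e100]; exact G.g0) (by rw [e100]; exact G.g1)
      (by rw [e100]; exact G.g2) (by rw [e100]; exact G.g3)
      (hd.comp (by fun_prop) (mp σ))
      (hi.comp (fun _ _ _ _ h => mul_left_cancel₀ hρ' (add_left_cancel h)) (mp σ))
      fun ζ hζ => by
        rw [im, show ρ * (σ / ρ / 100) = σ / 100 by field_simp]
        exact hk _ (mp (σ / 2) (by rwa [show σ / 2 / ρ = σ / ρ / 2 by ring]))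
  rw [im, mul_zero, add_zero] at q1 q2
  rw [show ρ * (1 - 20 * (σ / ρ / 100)) = ρ - σ / 5 by field_simp; ring] at q1
  rw [show ρ * (1 + 20 * (σ / ρ / 100)) = ρ + σ / 5 by field_simp; ring] at q2
  have ar : ∀ {a b : ℝ}, a + σ / ρ ≤ b → arcN (fun ζ => Φ (c + ρ * ζ)) (20 * (σ / ρ / 100)) a b ⊆
      Φ '' arcP c ρ (σ / 2) a b := fun h =>
    (arc_sub hρ (by positivity) (by linarith)).trans (image_mono (arcP_mono _ _ (by
      rw [show 2 * (20 * (σ / ρ / 100)) * ρ = 2 * σ / 5 by field_simp; ring]; linarith) _ _))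
  replace q3 := q3.trans (ar G.g0)
  replace q4 := q4.trans (ar G.g1)
  replace q5 := q5.trans (ar G.g2)
  replace q6 := q6.trans (ar G.g3)
  refine ⟨P, i₁, i₂, i₃, p1, p2, p3, p4, p5, p6, p7,
    q2.trans (image_mono (ball_subset_ball (by linarith))), q3, q4, q5, q6, fun f t H => ?_⟩
  obtain ⟨r1, r2, -⟩ := hR.1 P
  set U := ball c (ρ + σ) ∩ Φ ⁻¹' interior P.cl with hU
  have hUo : IsOpen U := hd.continuousOn.isOpen_inter_preimage isOpen_ball isOpen_interior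
  have hU1 : U ⊆ ball c (ρ + σ / 5) := fun u hu => by
    obtain ⟨v, hv, e⟩ := q2 (interior_subset hu.2)
    rwa [← hi (ball_subset_ball (by linarith) hv) hu.1 e]
  have hU2 : closure U ⊆ ball c (ρ + σ) :=
    (closure_minimal (hU1.trans ball_subset_closedBall) isClosed_closedBall).trans
      (closedBall_subset_ball (by linarith))
  have hU3 : MapsTo Φ (closure U) (closure (interior P.cl)) := fun u hu =>
    ((hd.continuousOn.mono hU2 u hu).mono subset_closure).mem_closure hu fun v hv => hv.2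
  have hU4 : MapsTo Φ (closure U) P.cl :=
    hU3.mono_right (closure_minimal interior_subset r1.isClosed)
  have loc : ∀ u ∈ frontier U, ∀ {S : Set ℂ} {a b : ℝ}, S ⊆ Φ '' arcP c ρ (σ / 2) a b → Φ u ∈ S →
      u ∈ arcP c ρ σ a b := fun u hu S a b hS h => by
    obtain ⟨v, hv, e⟩ := hS h
    have := arcP_sub hρ hv
    rw [← hi (by rw [mem_ball, dist_eq_norm]; linarith) (hU2 hu.1) e]
    exact arcP_mono _ _ (by linarith) _ _ hv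
  have cs : ∀ u ∈ frontier U, ‖u‖ ≤ n →
      (Φ u ∈ seg P.c 0 i₁ ∧ -(1 / n) < u.re ∧ u.re < x + 1 / n) ∨
      (Φ u ∈ seg P.c i₁ i₂ ∧ x - 1 / n < u.re ∧ u.re < 1 + 1 / n) ∨
      (Φ u ∈ seg P.c i₂ i₃ ∧ 1 - 1 / n < u.re) ∨ (Φ u ∈ seg P.c i₃ P.n ∧ u.re < 1 / n) := by
    intro u hu hun
    have h0 : Φ u ∈ seg P.c 0 P.n := r2 (by
      rw [isOpen_interior.frontier_eq]
      exact ⟨hU3 hu.1, fun h => (hUo.frontier_eq ▸ hu).2 ⟨hU2 hu.1, h⟩⟩)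
    rcases seg_split _ _ i₁ _ h0 with h | h
    · exact Or.inl ⟨h, G.h0 u (loc u hu q3 h)⟩
    rcases seg_split _ _ i₂ _ h with h | h
    · exact Or.inr (Or.inl ⟨h, G.h1 u (loc u hu q4 h)⟩)
    rcases seg_split _ _ i₃ _ h with h | h
    · exact Or.inr (Or.inr (Or.inl ⟨h, G.h2 u (loc u hu q5 h) hun⟩))
    · exact Or.inr (Or.inr (Or.inr ⟨h, G.h3 u (loc u hu q6 h) hun⟩))
  have hn' : 0 < 1 / n := by positivity
  refine hI U (f ∘ Φ) t ⟨hUo, ⟨H.diff.comp (hd.mono inter_subset_left) fun u hu => hu.2,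
    H.cont.comp (hd.continuousOn.mono hU2) hU4⟩, fun u hu => H.bd _ (interior_subset hu.2),
    fun u h1 h2 => ?_, fun u hu _ => G.low u (by simpa [dist_eq_norm] using (mem_ball.1 hu.1).le),
    fun u hu h1 h2 => ?_, fun u hu h1 h2 h3 => ?_, fun u hu h1 h2 => ?_⟩
    (fun u hu h1 h2 h3 => ?_) fun u hu h1 h2 h3 => ?_
  · have := G.big u h1 h2
    exact ⟨by rw [mem_ball, dist_eq_norm]; linarith,
      q1 ⟨u, by rw [mem_ball, dist_eq_norm]; linarith, rfl⟩⟩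
  · rcases cs u hu h1 with h | h | h | h
    · linarith [h.2.1]
    · linarith [h.2.1]
    · linarith [h.2]
    · exact H.left _ h.1
  · rcases cs u hu h1 with h | h | h | h
    · exact H.mid _ (seg_mono _ le_rfl p2.le h.1)
    · exact H.mid _ (seg_mono _ p1.le le_rfl h.1)
    · linarith [h.2]
    · linarith [h.2]
  · rcases cs u hu h1 with h | h | h | h
    · linarith [h.2.2]
    · linarith [h.2.2]
    · exact H.right _ h.1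
    · linarith [h.2]
  · rcases cs u hu h1 with h | h | h | h
    · exact H.le _ h.1
    · linarith [h.2.1]
    · linarith [h.2]
    · linarith [h.2]
  · rcases cs u hu h1 with h | h | h | h
    · linarith [h.2.2]
    · exact H.ge _ h.1
    · linarith [h.2]
    · linarith [h.2]

end Pool.Agent.P.MP_6c8efb_pr.SLE.One
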