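import Pool.Agent.P.MP_6c8efb_pr.SLE.UOneB

/-! The geometry of a large disc which crosses the real line with a small angle. -/

open Set Filter Topology Metric Complex
open scoped Real

namespace Pool.Agent.P.MP_6c8efb_pr.SLE.One

/-- the parameters of the disc -/
structure Par (n κ d s N ρ σ : ℝ) : Prop where
  hn : 10 ≤ n
  hκ : κ = 1 / n / 4
  hd : d = n + 3
  sq : N ^ 2 + d ^ 2 = ρ ^ 2
  ρpos : 0 < ρ
  dN : d ≤ N
  dep : ρ - N ≤ κ / 8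
  hgt : 4 * d + 4 ≤ N * s
  big : (n + d + 2) ^ 2 + n ^ 2 + 1 < 2 * N * (1 / n)
  σpos : 0 < σ
  σρ : ρ * σ ≤ κ / 100
  σs : σ ≤ s

theorem par_exists {n s : ℝ} (hn : 10 ≤ n) (hs : 0 < s) :
    ∃ N ρ σ, Par n (1 / n / 4) (n + 3) s N ρ σ := by
  have hn0 : 0 < n := by linarith
  obtain ⟨N, h1, h2, h3, h4⟩ : ∃ N : ℝ, n + 3 ≤ N ∧ (n + 3) ^ 2 / (1 / n / 4 / 8) ≤ N ∧
      (4 * (n + 3) + 4) / s ≤ N ∧ ((n + (n + 3) + 2) ^ 2 + n ^ 2 + 1) * n ≤ N :=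
    ((eventually_ge_atTop _).and ((eventually_ge_atTop _).and ((eventually_ge_atTop _).and
      (eventually_ge_atTop _)))).exists
  have hN : 0 < N := by linarith
  have hρ : 0 < √(N ^ 2 + (n + 3) ^ 2) := Real.sqrt_pos.2 (by positivity)
  have e := Real.sq_sqrt (x := N ^ 2 + (n + 3) ^ 2) (by positivity)
  refine ⟨N, √(N ^ 2 + (n + 3) ^ 2), min s (1 / n / 4 / 100 / √(N ^ 2 + (n + 3) ^ 2)), hn, rfl,
    rfl, e.symm, hρ, h1, ?_, (div_le_iff₀ hs).1 h3, ?_, by positivity, ?_, min_le_left _ _⟩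
  · rw [div_le_iff₀ (by positivity)] at h2
    rw [sub_le_iff_le_add]
    refine Real.sqrt_le_iff.2 ⟨by positivity, ?_⟩
    have : 0 < 1 / n / 4 / 8 := by positivity
    nlinarith
  · rw [← le_div_iff₀ hn0] at h4
    have : 0 < N / n := by positivity
    rw [mul_one_div, mul_div_assoc]
    linarith
  · rw [mul_comm, ← le_div_iff₀ hρ]; exact min_le_right _ _

namespace Par

variable {n κ d s N ρ σ : ℝ} (h : Par n κ d s N ρ σ)
include h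

theorem κpos : 0 < κ := by have := h.hn; rw [h.hκ]; positivity

theorem κle : κ ≤ 1 / 40 := by
  have := one_div_le_one_div_of_le (by norm_num) h.hn
  linarith [h.hκ]

theorem d13 : 13 ≤ d := by linarith [h.hd, h.hn]

theorem Nρ : N ≤ ρ := by
  refine (abs_le_of_sq_le_sq' ?_ h.ρpos.le).2
  nlinarith [h.sq]

theorem σκ : σ ≤ κ / 100 := by
  have := h.σρ
  have := h.σpos
  nlinarith [h.d13, h.dN, h.Nρ]

theorem low {c₁ : ℝ} {u : ℂ} (hu : ‖u - ⟨c₁, N⟩‖ ≤ ρ + σ) : -(κ / 4) ≤ u.im := by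
  have := (abs_le.1 ((abs_im_le_norm _).trans hu)).1
  simp only [sub_im] at this
  linarith [h.dep, h.σκ, h.κpos]

theorem side {c₁ : ℝ} {u : ℂ} (hu : ‖u - ⟨c₁, N⟩‖ ≤ ρ + σ) (h0 : u.im ≤ σ) :
    |u.re - c₁| ≤ d + κ / 2 := by
  have h1 : ‖u - ⟨c₁, N⟩‖ ^ 2 ≤ (ρ + σ) ^ 2 := pow_le_pow_left₀ (norm_nonneg _) hu 2
  rw [Complex.sq_norm, normSq_apply] at h1
  simp only [sub_re, sub_im] at h1
  have := h.κpos
  have := h.d13
  refine abs_le_of_sq_le_sq ?_ (by positivity)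
  have h2 : N * u.im ≤ ρ * σ := (mul_le_mul_of_nonneg_left h0 (by linarith [h.dN])).trans
    (mul_le_mul_of_nonneg_right h.Nρ h.σpos.le)
  have h3 : σ * σ ≤ ρ * σ := mul_le_mul_of_nonneg_right
    (by linarith [h.σκ, h.κle, h.dN, h.Nρ]) h.σpos.le
  nlinarith [h.sq, h.σρ, sq_nonneg u.im]

theorem bigd {c₁ : ℝ} (hc : |c₁| ≤ d + 2) {u : ℂ} (hu : ‖u‖ ≤ n) (h0 : 1 / n ≤ u.im) :
    ‖u - ⟨c₁, N⟩‖ < ρ - σ := by
  have := h.d13
  refine lt_of_pow_lt_pow_left₀ 2 (by linarith [h.σκ, h.κle, h.dN, h.Nρ]) ?_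
  rw [Complex.sq_norm, normSq_apply]
  simp only [sub_re, sub_im]
  have h1 : |u.re - c₁| ≤ n + d + 2 := (abs_sub _ _).trans (by linarith [abs_re_le_norm u])
  have h2 : (u.re - c₁) ^ 2 ≤ (n + d + 2) ^ 2 := sq_le_sq' (abs_le.1 h1).1 (abs_le.1 h1).2
  have h3 : |u.im| ≤ n := (abs_im_le_norm u).trans hu
  have h4 : u.im ^ 2 ≤ n ^ 2 := sq_le_sq' (abs_le.1 h3).1 (abs_le.1 h3).2
  have h5 : N * (1 / n) ≤ N * u.im := mul_le_mul_of_nonneg_left h0 (by linarith [h.dN])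
  nlinarith [h.sq, h.σρ, h.big, h.κle, sq_nonneg σ, sq_nonneg d]

end Par

/-- the angle of the point of the lower half circle with abscissa `X` -/
noncomputable def ang (c₁ ρ X : ℝ) : ℝ := -Real.arccos ((X - c₁) / ρ)

theorem ang_nonpos (c₁ ρ X : ℝ) : ang c₁ ρ X ≤ 0 := neg_nonpos.2 (Real.arccos_nonneg _)

theorem le_ang' (c₁ ρ X : ℝ) : -π ≤ ang c₁ ρ X := neg_le_neg (Real.arccos_le_pi _)

theorem ang_self (c₁ ρ : ℝ) : ang c₁ ρ c₁ = -(π / 2) := by simp [ang]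

theorem cos_ang {c₁ ρ X : ℝ} (hρ : 0 < ρ) (h : |X - c₁| ≤ ρ) :
    c₁ + ρ * Real.cos (ang c₁ ρ X) = X := by
  rw [ang, Real.cos_neg, Real.cos_arccos (by rw [le_div_iff₀ hρ]; linarith [(abs_le.1 h).1])
    ((div_le_one hρ).2 (abs_le.1 h).2)]
  field_simp; ring

theorem cos_mono {a b : ℝ} (ha : -π ≤ a) (hb : b ≤ 0) (h : a ≤ b) : Real.cos a ≤ Real.cos b := by
  rw [← Real.cos_neg a, ← Real.cos_neg b]
  exact Real.cos_le_cos_of_nonneg_of_le_pi (by linarith) (by linarith) (by linarith)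

theorem ge_of_ang {c₁ ρ X θ : ℝ} (hρ : 0 < ρ) (h : |X - c₁| ≤ ρ) (h1 : ang c₁ ρ X ≤ θ)
    (h2 : θ ≤ 0) : X ≤ c₁ + ρ * Real.cos θ := by
  have := cos_mono (le_ang' _ _ _) h2 h1
  have := cos_ang hρ h
  nlinarith

theorem le_of_ang {c₁ ρ X θ : ℝ} (hρ : 0 < ρ) (h : |X - c₁| ≤ ρ) (h1 : θ ≤ ang c₁ ρ X)
    (h2 : -π ≤ θ) : c₁ + ρ * Real.cos θ ≤ X := by
  have := cos_mono h2 (ang_nonpos _ _ _) h1
  have := cos_ang hρ h
  nlinarith

theorem ang_gap {c₁ ρ X X' σ : ℝ} (hρ : 0 < ρ) (hσ : 0 ≤ σ) (h : |X - c₁| ≤ ρ)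
    (h' : |X' - c₁| ≤ ρ) (hX : X + σ ≤ X') : ang c₁ ρ X + σ / ρ ≤ ang c₁ ρ X' := by
  have h1 : ang c₁ ρ X ≤ ang c₁ ρ X' :=
    neg_le_neg (Real.arccos_le_arccos (div_le_div_of_nonneg_right (by linarith) hρ.le))
  have h2 := (le_abs_self _).trans (Real.abs_cos_sub_cos_le (ang c₁ ρ X') (ang c₁ ρ X))
  rw [abs_of_nonneg (by linarith)] at h2
  have h3 := cos_ang hρ h
  have h4 := cos_ang hρ h'
  rw [← le_sub_iff_add_le', div_le_iff₀ hρ]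
  nlinarith

theorem arc_xy {c₁ N ρ σ a b : ℝ} {u : ℂ} (h : u ∈ arcP ⟨c₁, N⟩ ρ σ a b) : ∃ θ ∈ Icc a b,
    |u.re - (c₁ + ρ * Real.cos θ)| ≤ σ ∧ |u.im - (N + ρ * Real.sin θ)| ≤ σ := by
  obtain ⟨θ, h1, h2⟩ := h
  refine ⟨θ, h1, ?_, ?_⟩
  · simpa [exp_ofReal_mul_I_re] using (abs_re_le_norm _).trans h2
  · simpa [exp_ofReal_mul_I_im] using (abs_im_le_norm _).trans h2

namespace Par

variable {n κ d s N ρ σ : ℝ} (h : Par n κ d s N ρ σ)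
include h

theorem circ (θ : ℝ) : (N + ρ * Real.sin θ) * (N - ρ * Real.sin θ) =
    (ρ * Real.cos θ) ^ 2 - d ^ 2 := by
  have := Real.sin_sq_add_cos_sq θ
  have e := h.sq
  linear_combination e - ρ ^ 2 * this

theorem low_arc {c₁ X X' : ℝ} (hX : |X - c₁| ≤ ρ) (hX' : |X' - c₁| ≤ ρ) {u : ℂ}
    (hu : u ∈ arcP ⟨c₁, N⟩ ρ σ (ang c₁ ρ X) (ang c₁ ρ X')) : ∃ p q v : ℝ, X ≤ p ∧ p ≤ X' ∧
      |u.re - p| ≤ σ ∧ |u.im - q| ≤ σ ∧ N ≤ v ∧ v ≤ 2 * ρ ∧ q * v = (p - c₁) ^ 2 - d ^ 2 := by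
  obtain ⟨θ, h1, h2, h3⟩ := arc_xy hu
  have a1 := (le_ang' _ _ _).trans h1.1
  have a2 := h1.2.trans (ang_nonpos _ _ _)
  have a3 := Real.sin_nonpos_of_nonpos_of_neg_pi_le a2 a1
  have a4 := Real.neg_one_le_sin θ
  have := h.ρpos
  refine ⟨_, _, N - ρ * Real.sin θ, ge_of_ang h.ρpos hX h1.1 a2, le_of_ang h.ρpos hX' h1.2 a1,
    h2, h3, by nlinarith, by nlinarith [h.Nρ], ?_⟩
  rw [h.circ, add_sub_cancel_left]

theorem above {q v e y : ℝ} (h1 : N ≤ v) (h2 : v ≤ 2 * ρ) (h3 : q * v = e ^ 2 - d ^ 2)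
    (h4 : d + κ ≤ |e|) (h5 : |e| ≤ d + 2) (hy : |y - q| ≤ σ) : 0 < y ∧ y ≤ 2 * s := by
  rw [← sq_abs e] at h3
  have := h.d13
  have := h.κpos
  have hv : 0 < v := by linarith [h.dN]
  have a1 : σ < q := by
    refine lt_of_mul_lt_mul_right ?_ hv.le
    have : σ * v ≤ σ * (2 * ρ) := mul_le_mul_of_nonneg_left h2 h.σpos.le
    nlinarith [h.σρ]
  have a2 : q ≤ s := by
    refine le_of_mul_le_mul_right ?_ hv
    have : s * N ≤ s * v := mul_le_mul_of_nonneg_left h1 (h.σpos.le.trans h.σs)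
    nlinarith [h.hgt, abs_nonneg e]
  constructor <;> linarith [(abs_le.1 hy).1, (abs_le.1 hy).2, h.σs]

theorem below {q v e y : ℝ} (h1 : N ≤ v) (h2 : v ≤ 2 * ρ) (h3 : q * v = e ^ 2 - d ^ 2)
    (h4 : |e| ≤ d - κ) (hy : |y - q| ≤ σ) : y < 0 := by
  rw [← sq_abs e] at h3
  have := h.d13
  have := h.κpos
  have := h.κle
  have hv : 0 < v := by linarith [h.dN]
  have a1 : q < -σ := by
    refine lt_of_mul_lt_mul_right ?_ hv.le
    have : σ * v ≤ σ * (2 * ρ) := mul_le_mul_of_nonneg_left h2 h.σpos.le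
    nlinarith [h.σρ, abs_nonneg e]
  linarith [(abs_le.1 hy).2]

theorem up {θ : ℝ} (h1 : 0 ≤ θ) (h2 : θ ≤ π) {u : ℂ} (hu : |u.im - (N + ρ * Real.sin θ)| ≤ σ) :
    n < ‖u‖ := by
  have := mul_nonneg h.ρpos.le (Real.sin_nonneg_of_nonneg_of_le_pi h1 h2)
  linarith [(abs_le.1 hu).1, im_le_norm u, h.dN, h.hd, h.σκ, h.κle]

theorem geoA {x : ℝ} (hx : x ∈ Icc (1 / 4 : ℝ) (3 / 4)) : ∃ a₀ a₁ a₂ a₃,
    Geo n ⟨1 + κ + d, N⟩ ρ σ x a₀ a₁ a₂ a₃ ∧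
    (∀ u ∈ arcP ⟨1 + κ + d, N⟩ ρ σ a₀ a₁,
      0 < u.im ∧ κ / 2 ≤ u.re ∧ u.re ≤ x - κ / 2 ∧ u.im ≤ 2 * s) ∧
    ∀ u ∈ arcP ⟨1 + κ + d, N⟩ ρ σ a₂ a₃, u.im < 0 := by
  have k1 := h.κpos
  have k2 := h.κle
  have k3 := h.σκ
  have k4 := h.σpos
  have k5 := h.d13
  have k6 := h.hκ
  have k7 := h.hd
  have hρ := h.ρpos
  have k8 : d + 2 ≤ ρ := by nlinarith [h.big, h.Nρ, h.hn, h.dN]
  have x1 := hx.1
  have x2 := hx.2
  have r : ∀ X : ℝ, 0 ≤ X → X ≤ 1 + κ + d → |X - (1 + κ + d)| ≤ ρ := fun X h1 h2 =>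
    abs_le.2 ⟨by linarith, by linarith⟩
  have r0 := r κ (by linarith) (by linarith)
  have r1 := r (x - κ) (by linarith) (by linarith)
  have r2 := r (1 + 2 * κ) (by linarith) (by linarith)
  have r3 := r _ (by linarith) le_rfl
  have hπ := Real.pi_gt_three
  have hq : σ / ρ ≤ 1 := (div_le_one hρ).2 (by linarith)
  refine ⟨_, _, _, _, ⟨k4, by linarith, ang_gap hρ k4.le r0 r1 (by linarith),
    ang_gap hρ k4.le r1 r2 (by linarith), ang_gap hρ k4.le r2 r3 (by linarith), ?_,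
    fun u => h.bigd (abs_le.2 ⟨by linarith, by linarith⟩), fun u hu => by linarith [h.low hu],
    fun u hu => ?_, fun u hu => ?_, fun u hu _ => ?_, fun u hu hn => ?_⟩, fun u hu => ?_,
    fun u hu => ?_⟩
  · rw [ang_self]; linarith [le_ang' (1 + κ + d) ρ κ]
  · obtain ⟨p, q, v, p1, p2, p3, -⟩ := h.low_arc r0 r1 hu
    constructor <;> linarith [(abs_le.1 p3).1, (abs_le.1 p3).2]
  · obtain ⟨p, q, v, p1, p2, p3, -⟩ := h.low_arc r1 r2 hu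
    constructor <;> linarith [(abs_le.1 p3).1, (abs_le.1 p3).2]
  · obtain ⟨p, q, v, p1, p2, p3, -⟩ := h.low_arc r2 r3 hu
    linarith [(abs_le.1 p3).1]
  · obtain ⟨θ, t1, t2, t3⟩ := arc_xy hu
    rw [ang_self] at t1
    rcases le_total θ (π / 2) with h1 | h1
    · have := mul_nonneg hρ.le (Real.cos_nonneg_of_neg_pi_div_two_le_of_le t1.1 h1)
      linarith [(abs_le.1 t2).1, re_le_norm u]
    rcases le_total θ π with h2 | h2
    · linarith [h.up (by linarith) h2 t3]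
    · have := le_of_ang hρ r0 (θ := θ - 2 * π) (by linarith [t1.2]) (by linarith)
      rw [Real.cos_sub_two_pi] at this
      linarith [(abs_le.1 t2).2]
  · obtain ⟨p, q, v, p1, p2, p3, p4, p5, p6, p7⟩ := h.low_arc r0 r1 hu
    have := h.above p5 p6 p7 (by rw [abs_of_nonpos (by linarith)]; linarith)
      (by rw [abs_of_nonpos (by linarith)]; linarith) p4
    exact ⟨this.1, by linarith [(abs_le.1 p3).1], by linarith [(abs_le.1 p3).2], this.2⟩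
  · obtain ⟨p, q, v, p1, p2, p3, p4, p5, p6, p7⟩ := h.low_arc r2 r3 hu
    exact h.below p5 p6 p7 (by rw [abs_of_nonpos (by linarith)]; linarith) p4

theorem geoB {x : ℝ} (hx : x ∈ Icc (1 / 4 : ℝ) (3 / 4)) : ∃ a₀ a₁ a₂ a₃,
    Geo n ⟨-κ - d, N⟩ ρ σ x a₀ a₁ a₂ a₃ ∧
    (∀ u ∈ arcP ⟨-κ - d, N⟩ ρ σ a₁ a₂,
      0 < u.im ∧ x + κ / 2 ≤ u.re ∧ u.re ≤ 1 - κ / 2 ∧ u.im ≤ 2 * s) ∧
    ∀ u ∈ arcP ⟨-κ - d, N⟩ ρ σ a₃ (a₀ + 2 * π), u.im < 0 := by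
  have k1 := h.κpos
  have k2 := h.κle
  have k3 := h.σκ
  have k4 := h.σpos
  have k5 := h.d13
  have k6 := h.hκ
  have k7 := h.hd
  have hρ := h.ρpos
  have k8 : d + 2 ≤ ρ := by nlinarith [h.big, h.Nρ, h.hn, h.dN]
  have x1 := hx.1
  have x2 := hx.2
  have r : ∀ X : ℝ, -κ - d ≤ X → X ≤ 1 → |X - (-κ - d)| ≤ ρ := fun X h1 h2 =>
    abs_le.2 ⟨by linarith, by linarith⟩
  have r0 := r (-2 * κ) (by linarith) (by linarith)
  have r1 := r (x + κ) (by linarith) (by linarith)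
  have r2 := r (1 - κ) (by linarith) (by linarith)
  have r3 := r _ le_rfl (by linarith)
  have hπ := Real.pi_gt_three
  have hq : σ / ρ ≤ 1 := (div_le_one hρ).2 (by linarith)
  have sh : ∀ u ∈ arcP ⟨-κ - d, N⟩ ρ σ (ang (-κ - d) ρ (-κ - d) + 2 * π)
      (ang (-κ - d) ρ (-2 * κ) + 2 * π),
      u ∈ arcP ⟨-κ - d, N⟩ ρ σ (ang (-κ - d) ρ (-κ - d)) (ang (-κ - d) ρ (-2 * κ)) := by
    rintro u ⟨θ, t1, t2⟩
    refine ⟨θ - 2 * π, ⟨by linarith [t1.1], by linarith [t1.2]⟩, ?_⟩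
    rwa [show ((θ - 2 * π : ℝ) : ℂ) * I = θ * I - 2 * π * I by push_cast; ring,
      Complex.exp_periodic.sub_eq]
  refine ⟨_, _, _, ang (-κ - d) ρ (-κ - d) + 2 * π, ⟨k4, by linarith,
    ang_gap hρ k4.le r0 r1 (by linarith), ang_gap hρ k4.le r1 r2 (by linarith), ?_,
    by linarith [ang_gap hρ k4.le r3 r0 (by linarith)],
    fun u => h.bigd (abs_le.2 ⟨by linarith, by linarith⟩), fun u hu => by linarith [h.low hu],
    fun u hu => ?_, fun u hu => ?_, fun u hu hn => ?_, fun u hu _ => ?_⟩, fun u hu => ?_,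
    fun u hu => ?_⟩
  · rw [ang_self]; linarith [ang_nonpos (-κ - d) ρ (1 - κ)]
  · obtain ⟨p, q, v, p1, p2, p3, -⟩ := h.low_arc r0 r1 hu
    constructor <;> linarith [(abs_le.1 p3).1, (abs_le.1 p3).2]
  · obtain ⟨p, q, v, p1, p2, p3, -⟩ := h.low_arc r1 r2 hu
    constructor <;> linarith [(abs_le.1 p3).1, (abs_le.1 p3).2]
  · obtain ⟨θ, t1, t2, t3⟩ := arc_xy hu
    rw [ang_self] at t1
    rcases le_total θ 0 with h1 | h1
    · linarith [ge_of_ang hρ r2 t1.1 h1, (abs_le.1 t2).1]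
    rcases le_total θ π with h2 | h2
    · linarith [h.up h1 h2 t3]
    · have := mul_nonneg hρ.le (neg_nonneg.2
        (Real.cos_nonpos_of_pi_div_two_le_of_le (x := θ) (by linarith) (by linarith [t1.2])))
      linarith [(abs_le.1 t2).2, (abs_le.1 ((abs_re_le_norm u).trans hn)).1]
  · obtain ⟨p, q, v, p1, p2, p3, -⟩ := h.low_arc r3 r0 (sh u hu)
    linarith [(abs_le.1 p3).2]
  · obtain ⟨p, q, v, p1, p2, p3, p4, p5, p6, p7⟩ := h.low_arc r1 r2 hu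
    have := h.above p5 p6 p7 (by rw [abs_of_nonneg (by linarith)]; linarith)
      (by rw [abs_of_nonneg (by linarith)]; linarith) p4
    exact ⟨this.1, by linarith [(abs_le.1 p3).1], by linarith [(abs_le.1 p3).2], this.2⟩
  · obtain ⟨p, q, v, p1, p2, p3, p4, p5, p6, p7⟩ := h.low_arc r3 r0 (sh u hu)
    exact h.below p5 p6 p7 (by rw [abs_of_nonneg (by linarith)]; linarith) p4

end Par

end Pool.Agent.P.MP_6c8efb_pr.SLE.One
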