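import Pool.Agent.P.MP_6c8efb_pr.SLE.UWalk

/-! Choice of the parameters and common part of the two lower bounds. -/

open Set Filter Topology Metric Complex
open scoped NNReal

namespace Pool.Agent.P.MP_6c8efb_pr.SLE

theorem ev_le {a : ℝ} (ha : 0 < a) : ∀ᶠ δ in 𝓝[>] (0 : ℝ), 0 < δ ∧ δ ≤ a :=
  Ioc_mem_nhdsGT ha

theorem params {l κ ε C c : ℝ} (hl : 0 < l) (hκ : 0 < κ) (hε : 0 < ε) (hc : 0 < c) :
    ∃ ρ' r' s₀ : ℝ, 0 < ρ' ∧ ρ' < 10 * l ∧ L.om (10 * l) ρ' ≤ κ / 8 ∧ 0 < s₀ ∧ s₀ < κ / 8 ∧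
      (∀ x : ℝ, |x| ≤ 3 * l → 7 * (|x| + κ / 8 + 12 * (10 * l)) / √(Real.log (κ / 8 / s₀)) ≤ r') ∧
      ∀ᶠ δ in 𝓝[>] (0 : ℝ), ∃ r ρ : ℤ, 1 ≤ r ∧ r ≤ ρ ∧ r' + 4 * (δ / 2) ≤ δ / 2 * r ∧
        2 * (δ / 2) * (ρ + 1) ≤ ρ' ∧ C * ((r : ℝ) / ρ) ^ c ≤ ε := by
  obtain ⟨ρ', h1, h2, h3⟩ := L.om_small (R := 10 * l) (ε := κ / 8) (by positivity) (by positivity)
  obtain ⟨θ, t0, t1, t2⟩ : ∃ θ : ℝ, 0 < θ ∧ θ ≤ 1 ∧ |C| * θ ^ c ≤ ε := by
    have p : 0 < ε / (|C| + 1) := by positivity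
    refine ⟨min 1 ((ε / (|C| + 1)) ^ c⁻¹), by positivity, min_le_left _ _, ?_⟩
    have := Real.rpow_le_rpow (by positivity) (min_le_right 1 ((ε / (|C| + 1)) ^ c⁻¹)) hc.le
    rw [Real.rpow_inv_rpow p.le hc.ne'] at this
    refine (mul_le_mul_of_nonneg_left this (abs_nonneg C)).trans ?_
    rw [mul_div_assoc', div_le_iff₀ (by positivity)]
    nlinarith [abs_nonneg C]
  set r' := θ * ρ' / 8
  have r0 : 0 < r' := by positivity
  set Y := 7 * (3 * l + κ / 8 + 12 * (10 * l))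
  have Y0 : 0 < Y := by positivity
  refine ⟨ρ', r', κ / 8 * Real.exp (-(Y / r') ^ 2), h1, h2, h3, by positivity, ?_, fun x hx => ?_, ?_⟩
  · exact mul_lt_of_lt_one_right (by positivity)
      (Real.exp_lt_one_iff.2 (neg_lt_zero.2 (by positivity)))
  · rw [div_mul_cancel_left₀ (by positivity), ← Real.exp_neg, Real.log_exp, neg_neg,
      Real.sqrt_sq (by positivity), div_le_iff₀ (by positivity), mul_div_cancel₀ _ r0.ne']
    simp only [Y]; linarith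
  · filter_upwards [ev_le (a := r' / 5) (by positivity), ev_le (a := ρ' / 8) (by positivity)]
      with δ ⟨d0, d1⟩ ⟨_, d2⟩
    have a1 := Int.le_ceil ((r' + 2 * δ) / (δ / 2))
    have a2 := Int.ceil_lt_add_one ((r' + 2 * δ) / (δ / 2))
    have b1 := Int.floor_le (ρ' / δ - 1)
    have b2 := Int.sub_one_lt_floor (ρ' / δ - 1)
    generalize ⌈(r' + 2 * δ) / (δ / 2)⌉ = r at a1 a2
    generalize ⌊ρ' / δ - 1⌋ = ρ at b1 b2
    rw [div_le_iff₀ (by positivity)] at a1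
    rw [← sub_lt_iff_lt_add, lt_div_iff₀ (by positivity)] at a2
    rw [le_sub_iff_add_le, le_div_iff₀ d0] at b1
    rw [sub_sub, sub_lt_iff_lt_add, div_lt_iff₀ d0] at b2
    have r1 : (0 : ℝ) < r := by
      by_contra h
      nlinarith [mul_nonneg (neg_nonneg.2 (not_lt.1 h)) d0.le]
    have ρ0 : (0 : ℝ) < ρ := by
      by_contra h
      nlinarith [mul_nonneg (neg_nonneg.2 (not_lt.1 h)) d0.le]
    have rat : (r : ℝ) ≤ θ * ρ := by
      refine le_of_mul_le_mul_right ?_ d0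
      have : θ * (ρ' / 2) ≤ θ * (ρ * δ) := mul_le_mul_of_nonneg_left (by linarith) t0.le
      simp only [r'] at *
      nlinarith
    have r2 : (0 : ℤ) < r := by exact_mod_cast r1
    refine ⟨r, ρ, r2, ?_, by linarith, by linarith, ?_⟩
    · exact_mod_cast rat.trans (mul_le_of_le_one_left ρ0.le t1)
    · refine ((mul_le_mul_of_nonneg_right (le_abs_self C) (by positivity)).trans
        (mul_le_mul_of_nonneg_left ?_ (abs_nonneg C))).trans t2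
      exact Real.rpow_le_rpow (by positivity) ((div_le_iff₀ ρ0).2 rat) hc.le

theorem mesh {η : ℝ} {q : ℕ} (hη : 0 < η) (hq : 0 < q) {p : ℕ → Prop} (h : ∀ᶠ m in atTop, p m) :
    ∀ᶠ δ : ℝ in 𝓝[>] (0 : ℝ), ∃ m, p m ∧ 0 < q * m ∧ δ * (q * m : ℕ) / 2 ∈ Icc (η / 2) η := by
  have q0 : (0 : ℝ) < q := by exact_mod_cast hq
  have t : Tendsto (fun δ : ℝ => ⌊2 * η / q * δ⁻¹⌋₊) (𝓝[>] 0) atTop :=
    tendsto_nat_floor_atTop.comp (tendsto_inv_nhdsGT_zero.const_mul_atTop (by positivity))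
  filter_upwards [t.eventually h, t.eventually_gt_atTop 0, ev_le (a := η / q) (by positivity)]
    with δ h1 h2 ⟨d0, d1⟩
  have a1 := Nat.floor_le (a := 2 * η / q * δ⁻¹) (by positivity)
  have a2 := Nat.lt_floor_add_one (2 * η / q * δ⁻¹)
  refine ⟨_, h1, Nat.mul_pos hq h2, ?_⟩
  generalize ⌊2 * η / q * δ⁻¹⌋₊ = m at a1 a2
  rw [← div_eq_mul_inv, le_div_iff₀ d0, le_div_iff₀ q0] at a1
  rw [← div_eq_mul_inv, div_lt_iff₀ d0, div_lt_iff₀ q0] at a2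
  rw [le_div_iff₀ q0] at d1
  push_cast
  constructor <;> nlinarith

theorem tconn_mod {τ : Arm.TC} {T : Set V} {p p' : V} (h : Arm.TConn τ T p p') :
    (p'.1 + p'.2) % 2 = (p.1 + p.2) % 2 := by
  induction h with
  | refl => rfl
  | tail _ h2 ih =>
    obtain ⟨t, -, e⟩ := h2
    rw [← ih]
    unfold Arm.ends at e
    split_ifs at e <;> rcases e with e | e <;> obtain ⟨rfl, rfl⟩ := Prod.mk.inj e <;> simp only <;>
      omega

theorem tconn_corner {τ : Arm.TC} {T : Set V} {p p' : V} (h : Arm.TConn τ T p p') :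
    p = p' ∨ ∃ t ∈ T, cx p ∈ sq 1 t := by
  refine (Relation.ReflTransGen.cases_head h).imp_right ?_
  rintro ⟨x, ⟨t, ht, e⟩, -⟩
  refine ⟨t, ht, ?_⟩
  unfold Arm.ends at e
  split_ifs at e <;> rcases e with e | e <;> obtain ⟨rfl, rfl⟩ := Prod.mk.inj e <;> simp [sq, cx]

theorem small_of (hC : L.S_Cont) {η : ℝ≥0 → ℂ} (H : L.Simple η) {t : ℝ≥0} {r r' : ℝ} (hr : 0 < r)
    (h : L.hull η t ⊆ closedBall 0 r) (hr' : 13 * r ≤ r') :
    Small (L.hull η t) (L.gt η t) (L.ft η t) (L.ct η t) (L.drv η t) r' := by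
  refine ⟨H.hyd t, H.sym t, h.trans (closedBall_subset_closedBall (by linarith)), le_trans
    ((hC.1 η H).2.2.2.2.2.2.2.1 t r hr fun u hu => ?_) hr'⟩
  rcases eq_or_lt_of_le (zero_le : 0 ≤ u) with rfl | h0
  · simp [H.zero, hr.le]
  · simpa using h ⟨u, ⟨h0, hu⟩, rfl⟩

theorem nm_of_hull {δ r : ℝ} (hδ : 0 < δ) (hr : 0 < r) {q : ℕ → V} (hq : FP q) {k : ℕ}
    (h : L.hull (pc (δ / 2) q) k ⊆ closedBall 0 r) : ∀ j ≤ k, nm 0 (q j) ≤ ⌈2 * r / δ⌉ := by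
  intro j hj
  have p0 : (0 : ℝ) ≤ 2 * r / δ := by positivity
  rcases j.eq_zero_or_pos with rfl | h0
  · simpa [hq.zero, nm] using Int.ceil_nonneg p0
  have e0 : pc (δ / 2) q j = (δ / 2 : ℝ) * cx (q j) := by
    show interp (fun k => ((δ / 2 : ℝ) : ℂ) * cx (q k)) (j : ℝ≥0) = _
    rw [interp_of_mem _ j (by simp)]
    simp
  have e := h ⟨j, ⟨by exact_mod_cast h0, by exact_mod_cast hj⟩, e0⟩
  rw [mem_closedBall_zero_iff] at e
  have e1 := (abs_re_le_norm _).trans e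
  have e2 := (abs_im_le_norm _).trans e
  simp only [re_ofReal_mul, im_ofReal_mul, cx, abs_mul, abs_of_pos (half_pos hδ)] at e1 e2
  have k : ∀ n : ℤ, δ / 2 * |(n : ℝ)| ≤ r → |n| ≤ ⌈2 * r / δ⌉ := fun n hn => by
    have : ((|n| : ℤ) : ℝ) ≤ ⌈2 * r / δ⌉ := by
      refine le_trans ?_ (Int.le_ceil _)
      rw [le_div_iff₀ hδ]; push_cast; linarith
    exact_mod_cast this
  exact nm_le_iff.2 ⟨by simpa using k _ e1, by simpa using k _ e2⟩

theorem ends_near (h2 : L.S_L2s) {K : Set ℂ} {g f : ℂ → ℂ} {a w r l : ℝ} (H : Small K g f a w r)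
    (hr : 0 < r) (hl : 100 * r ≤ l) : |(g (-l)).re + l| ≤ l / 8 ∧ |(g (2 * l)).re - 2 * l| ≤ l / 8 ∧
      ∀ z ∈ L.HH, ‖f z‖ ≤ ‖z‖ + l := by
  have hK : K ⊆ closedBall ((0 : ℝ) : ℂ) r := by simpa using H.sub
  have l0 : 0 < l := by linarith
  have k := h2 K g f a H.hyd H.sym 0 r hr hK
  refine ⟨?_, ?_, fun z hz => ?_⟩
  · have := (abs_re_le_norm _).trans (k (-l) (L.mem_Dsym_of_lt hK (by
      simp only [ofReal_zero, sub_zero, norm_neg, norm_real, Real.norm_eq_abs, abs_of_pos l0]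
      linarith)))
    simp only [add_re, ofReal_re, sub_neg_eq_add] at this
    linarith
  · have := (abs_re_le_norm _).trans (k (2 * l) (L.mem_Dsym_of_lt hK (by
      simp only [ofReal_zero, sub_zero, norm_mul, norm_real, Real.norm_eq_abs, abs_of_pos l0,
        norm_ofNat]
      linarith)))
    simp only [sub_re, mul_re, re_ofNat, ofReal_re, im_ofNat, ofReal_im, mul_zero, sub_zero] at this
    linarith
  · have := k (f z) (H.hyd.sub_Dsym (H.hyd.mf hz))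
    rw [H.hyd.gf z hz] at this
    have e := norm_sub_norm_le (f z) z
    rw [norm_sub_rev] at e
    linarith

/-- the edges of the tiles of the polyomino have not been explored -/
theorem fresh {δ μ : ℝ} (hδ : 0 < δ) (hμ : 6 * δ ≤ μ) {m : ℕ} (hm : 0 < m) {ξ : Cfg} {k : ℕ}
    {A : Set ℂ} (hA : ∀ z ∈ A, ∀ y : ℂ, ‖y - (δ * m / 2 : ℝ) * (1 + I) * z‖ ≤ μ →
      y ∈ L.Dsym (L.hull (pc (δ / 2) (fp ξ)) (k + 1 : ℕ))) {t : V} (ht : cx t / m ∈ A) {κ : ℤ}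
    (hκ : κ = 0 ∨ κ = 1) (ω : Cfg) : mg ξ k ω (te (t + (κ, 0))) = ω (te (t + (κ, 0))) := by
  refine if_neg fun h => ?_
  obtain ⟨y, y1, y2⟩ := expl_near hδ h
  refine (hA _ ht y ?_).1 (subset_closure y1)
  have := norm_add_le (y - tp δ (t + (κ, 0))) (tp δ (t + (κ, 0)) - (δ * m / 2 : ℝ) * (1 + I) * (cx t / m))
  rw [sub_add_sub_cancel] at this
  linarith [tp_near hδ hm t hκ]

theorem mean_le {X₀ X₁ E F : Set Cfg} {ε : ℝ} (h0 : X₀ ⊆ E) (h1 : X₁ ⊆ E)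
    (h : Q (E ∩ Fᶜ) ≤ ε) : (Q X₀ + Q X₁) / 2 - ε ≤ Q F := by
  have : Q E ≤ Q (E ∩ Fᶜ) + Q F :=
    le_trans (Pr_mono fun ω hω => by by_cases e : ω ∈ F; exacts [Or.inr e, Or.inl ⟨hω, e⟩])
      (Pr_union_le _ _ _)
  have e0 : Q X₀ ≤ Q E := Pr_mono h0
  have e1 : Q X₁ ≤ Q E := Pr_mono h1
  linarith

end Pool.Agent.P.MP_6c8efb_pr.SLE
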