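import Pool.Agent.P.MP_6c8efb_pr.SLE.Iface

/-! Tiles and bonds. -/

open Set

namespace Pool.Agent.P.MP_6c8efb_pr.SLE

open Arm (TC TConn)

/-- the dual edge of a tile -/
def td (t : V) : E :=
  if (t.1 + t.2) % 2 = 0 then (((t.1 - t.2) / 2 - 1, (t.1 + t.2) / 2), true)
  else (((t.1 - t.2 - 1) / 2, (t.1 + t.2 - 1) / 2), false)

theorem dl_td (t : V) : dl (td t) = te t := by
  unfold td te
  split_ifs with h
  · simp [dl]
  · simp only [dl, hd_false, Bool.not_false, Prod.mk.injEq, and_true, true_and]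
    omega

theorem te_inj : Function.Injective te := by
  rintro ⟨a, b⟩ ⟨c, d⟩ h
  unfold te at h
  split_ifs at h <;> simp only [Prod.mk.injEq, and_true, and_false, reduceCtorEq] at * <;> omega

theorem tl_even {t : V} (h : (t.1 + t.2) % 2 = 0) (ω : Cfg) : tl ω t = ω (te t) := by
  simp [tl, te, h]

theorem tl_odd {t : V} (h : (t.1 + t.2) % 2 ≠ 0) (ω : Cfg) : tl ω t = !ω (te t) := by
  rw [tl, te, if_neg h, if_neg h]

theorem tl_congr {ω ω' : Cfg} {t : V} (h : ω (te t) = ω' (te t)) : tl ω t = tl ω' t := by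
  by_cases h1 : (t.1 + t.2) % 2 = 0
  · rw [tl_even h1, tl_even h1, h]
  · rw [tl_odd h1, tl_odd h1, h]

theorem tf_eq {p : V} (h : (p.1 + p.2) % 2 = 1) : tf p = tv p := by
  simp only [tf, tv, Prod.mk.injEq]
  omega

/-- the ends of the edge of a tile are the two even corners -/
theorem te_ends (t : V) : if (t.1 + t.2) % 2 = 0 then
    (te t).1 = tv t ∧ hd (te t) = tv (t + (1, 1))
    else (te t).1 = tv (t + (0, 1)) ∧ hd (te t) = tv (t + (1, 0)) := by
  unfold te tv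
  split_ifs with h <;> simp only [hd_false, hd_true, Prod.mk.injEq, Prod.fst_add, Prod.snd_add,
    true_and] <;> omega

/-- the ends of the dual edge of a tile are the two odd corners -/
theorem td_ends (t : V) : if (t.1 + t.2) % 2 = 0 then
    (td t).1 = tf (t + (0, 1)) ∧ hd (td t) = tf (t + (1, 0))
    else (td t).1 = tf t ∧ hd (td t) = tf (t + (1, 1)) := by
  unfold td tf
  split_ifs with h <;> simp only [hd_false, hd_true, Prod.mk.injEq, Prod.fst_add, Prod.snd_add,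
    true_and] <;> omega

theorem conn_edge {ω : Cfg} {S : Set V} {e : E} (he : e ∈ In S) (h : ω e = true) :
    Conn ω S e.1 (hd e) := by
  obtain ⟨⟨a, b⟩, _ | _⟩ := e
  · simpa using Conn.one (ω := ω) (S := S) (x := (a, b)) (d := 1) he.1 (by simpa using he.2) h
  · simpa using Conn.one (ω := ω) (S := S) (x := (a, b)) (d := 0) he.1 (by simpa using he.2) h

section

variable {σ σ' : TC} {T T' : Set V} {p q : V}

theorem link_iff {a b : V} : Arm.link σ T a b ↔ ∃ t ∈ T,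
    (σ t = true ∧ (a = t ∧ b = t + (1, 1) ∨ b = t ∧ a = t + (1, 1))) ∨
    (σ t = false ∧ (a = t + (1, 0) ∧ b = t + (0, 1) ∨ b = t + (1, 0) ∧ a = t + (0, 1))) := by
  refine exists_congr fun t => and_congr_right fun _ => ?_
  obtain ⟨x, y⟩ := t
  cases h : σ (x, y) <;> simp [Arm.ends, h, eq_comm]

theorem tconn_mono (h : TConn σ T p q) (hT : ∀ t ∈ T, t ∈ T' ∧ σ t = σ' t) : TConn σ' T' p q := by
  induction h with
  | refl => exact .refl
  | tail _ h ih =>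
    obtain ⟨t, h1, h2⟩ := link_iff.1 h
    exact ih.tail (link_iff.2 ⟨t, (hT t h1).1, (hT t h1).2 ▸ h2⟩)

theorem tconn_shift (s : V) (h : TConn (fun t => σ (t + s)) T p q) :
    TConn σ {t | t - s ∈ T} (p + s) (q + s) := by
  induction h with
  | refl => exact .refl
  | tail _ h ih =>
    obtain ⟨t, h1, h2⟩ := link_iff.1 h
    exact ih.tail (link_iff.2 ⟨t + s, by simpa using h1, by
      simpa only [add_right_comm t s, add_left_inj] using h2⟩)

theorem tconn_par (h : TConn σ T p q) : (q.1 + q.2) % 2 = (p.1 + p.2) % 2 := by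
  induction h with
  | refl => rfl
  | tail _ h ih =>
    obtain ⟨t, -, ⟨-, ⟨rfl, rfl⟩ | ⟨rfl, rfl⟩⟩ | ⟨-, ⟨rfl, rfl⟩ | ⟨rfl, rfl⟩⟩⟩ := link_iff.1 h <;>
      simp only [Prod.fst_add, Prod.snd_add] at ih ⊢ <;> omega

/-- from tiles to open paths -/
theorem tconn_primal {ω ω' : Cfg} {S : Set V} (h : TConn (tl ω) T p q) (hp : (p.1 + p.2) % 2 = 0)
    (hT : ∀ t ∈ T, ω (te t) = true → ω' (te t) = true ∧ te t ∈ In S) :
    Conn ω' S (tv p) (tv q) := by
  induction h with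
  | refl => exact Conn.rfl'
  | tail h0 h ih =>
    have h1 := (tconn_par h0).trans hp
    obtain ⟨t, ht, h⟩ := link_iff.1 h
    have h2 := te_ends t
    have h3 : ω (te t) = true → Conn ω' S (te t).1 (hd (te t)) := fun h =>
      conn_edge (hT t ht h).2 (hT t ht h).1
    refine ih.trans' ?_
    by_cases h4 : (t.1 + t.2) % 2 = 0
    · rw [if_pos h4] at h2
      rw [tl_even h4] at h
      rw [h2.1, h2.2] at h3
      obtain ⟨h5, ⟨rfl, rfl⟩ | ⟨rfl, rfl⟩⟩ | ⟨-, ⟨rfl, rfl⟩ | ⟨rfl, rfl⟩⟩ := h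
      · exact h3 h5
      · exact (h3 h5).symm'
      all_goals simp only [Prod.fst_add, Prod.snd_add] at h1; omega
    · rw [if_neg h4] at h2
      rw [tl_odd h4] at h
      rw [h2.1, h2.2] at h3
      obtain ⟨-, ⟨rfl, rfl⟩ | ⟨rfl, rfl⟩⟩ | ⟨h5, ⟨rfl, rfl⟩ | ⟨rfl, rfl⟩⟩ := h
      · exact absurd h1 h4
      · simp only [Prod.fst_add, Prod.snd_add] at h1; omega
      · exact (h3 (by simpa using h5)).symm'
      · exact h3 (by simpa using h5)

/-- from tiles to dual open paths -/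
theorem tconn_dual {ω ω' : Cfg} {S : Set V} (h : TConn (tl ω) T p q) (hp : (p.1 + p.2) % 2 = 1)
    (hT : ∀ t ∈ T, ω (te t) = false → ω' (te t) = false ∧ td t ∈ In S) :
    Conn (du ω') S (tf p) (tf q) := by
  induction h with
  | refl => exact Conn.rfl'
  | tail h0 h ih =>
    have h1 := (tconn_par h0).trans hp
    obtain ⟨t, ht, h⟩ := link_iff.1 h
    have h2 := td_ends t
    have h3 : ω (te t) = false → Conn (du ω') S (td t).1 (hd (td t)) := fun h =>
      conn_edge (hT t ht h).2 (by rw [du, dl_td, (hT t ht h).1]; rfl)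
    refine ih.trans' ?_
    by_cases h4 : (t.1 + t.2) % 2 = 0
    · rw [if_pos h4] at h2
      rw [tl_even h4] at h
      rw [h2.1, h2.2] at h3
      obtain ⟨-, ⟨rfl, rfl⟩ | ⟨rfl, rfl⟩⟩ | ⟨h5, ⟨rfl, rfl⟩ | ⟨rfl, rfl⟩⟩ := h
      · omega
      · simp only [Prod.fst_add, Prod.snd_add] at h1; omega
      · exact (h3 h5).symm'
      · exact h3 h5
    · rw [if_neg h4] at h2
      rw [tl_odd h4] at h
      rw [h2.1, h2.2] at h3
      obtain ⟨h5, ⟨rfl, rfl⟩ | ⟨rfl, rfl⟩⟩ | ⟨-, ⟨rfl, rfl⟩ | ⟨rfl, rfl⟩⟩ := h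
      · exact h3 (by simpa using h5)
      · exact (h3 (by simpa using h5)).symm'
      all_goals simp only [Prod.fst_add, Prod.snd_add] at h1; omega

end

/-- the law of the tiles -/
theorem Q_tl (s : V) {A : Set TC} (hA : MP_6c8efb_pr.Loc A) :
    Q {ω | (fun t => tl ω (t + s)) ∈ A} = Arm.Pt A := by
  let g : V → Bool ≃ Bool := fun t =>
    if ((t + s).1 + (t + s).2) % 2 = 0 then Equiv.refl _ else Equiv.boolNot
  have hg : ∀ (ω : Cfg) t, tl ω (t + s) = g t (ω (te (t + s))) := fun ω t => by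
    by_cases h : ((t + s).1 + (t + s).2) % 2 = 0
    · rw [tl_even h]; simp only [g, if_pos h]; rfl
    · rw [tl_odd h]; simp only [g, if_neg h]; rfl
  have hB : MP_6c8efb_pr.Loc {σ : V → Bool | (fun t => g t (σ t)) ∈ A} :=
    let ⟨S, hS, h⟩ := hA; ⟨S, hS, fun _ _ hω => h fun i hi => congrArg (g i) (hω i hi)⟩
  rw [Arm.Pt, ← Pr_equiv g hA,
    ← Pr_comp_inj (fun _ : E => hf) (te_inj.comp (add_left_injective s)) hB]
  simp only [hg]
  rfl

theorem dep_tl (s : V) {A : Set TC} {S : Set V} (h : Dep A S) :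
    Dep {ω : Cfg | (fun t => tl ω (t + s)) ∈ A} ((fun t => te (t + s)) '' S) :=
  fun _ _ hω => h fun t ht => tl_congr (hω _ ⟨t, ht, rfl⟩)

theorem loc_tl (s : V) {A : Set TC} (hA : MP_6c8efb_pr.Loc A) :
    MP_6c8efb_pr.Loc {ω : Cfg | (fun t => tl ω (t + s)) ∈ A} :=
  let ⟨_, hS, h⟩ := hA; ⟨_, hS.image _, dep_tl s h⟩

theorem dep_Crs (P : Cardy.Dom) (κ : ℤ) (a a' b b' : ℕ) : Dep (P.Crs κ a a' b b') P.D :=
  fun _ _ h ⟨i, j, h1, h2, h3, h4, h5, h6⟩ =>
    ⟨i, j, h1, h2, h3, h4, h5, tconn_mono h6 fun t ht => ⟨ht, h t ht⟩⟩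

theorem loc_Crs (P : Cardy.Dom) (κ : ℤ) (a a' b b' : ℕ) : MP_6c8efb_pr.Loc (P.Crs κ a a' b b') :=
  (dep_Crs P κ a a' b b').loc P.D.finite_toSet

theorem cx_mem_sq {t x : V} :
    cx x ∈ sq 1 t ↔ t.1 ≤ x.1 ∧ x.1 ≤ t.1 + 1 ∧ t.2 ≤ x.2 ∧ x.2 ≤ t.2 + 1 := by
  simp only [sq, cx, one_mul, mem_ofPred_eq]
  norm_cast

theorem s_tile : S_TILE := by
  refine ⟨fun P κ a a' b b' s => Q_tl s (loc_Crs P κ a a' b b'), fun ω ω' T S s p p' h hT => ?_⟩
  have h' := tconn_shift s h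
  have hc : ∀ t x : V, t.1 ≤ x.1 → x.1 ≤ t.1 + 1 → t.2 ≤ x.2 → x.2 ≤ t.2 + 1 →
      cx (x - s) ∈ sq 1 (t - s) := fun t x h1 h2 h3 h4 => by
    rw [cx_mem_sq]
    simp only [Prod.fst_sub, Prod.snd_sub]
    omega
  refine ⟨fun hp hS => tconn_primal h' hp fun t ht h1 => ⟨?_, ?_⟩,
    fun hp hS => tconn_dual h' hp fun t ht h1 => ⟨?_, ?_⟩⟩
  · have h2 := hT _ ht
    rw [sub_add_cancel] at h2
    simp only [h2, h1, Bool.true_and, decide_eq_true_eq]
    exact ⟨_, ht, by simp⟩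
  · have h2 := te_ends t
    have h3 : ∀ x : V, t.1 ≤ x.1 → x.1 ≤ t.1 + 1 → t.2 ≤ x.2 → x.2 ≤ t.2 + 1 →
        (x.1 + x.2) % 2 = 0 → tv x ∈ S := fun x h4 h5 h6 h7 h8 => by
      simpa using hS _ ht _ (hc t x h4 h5 h6 h7) (by simpa using h8)
    refine ⟨?_, ?_⟩ <;> split_ifs at h2 <;> simp only [h2.1, h2.2] <;> apply h3 <;>
      first | omega | (simp only [Prod.fst_add, Prod.snd_add]; omega)
  · have h2 := hT _ ht
    rw [sub_add_cancel] at h2
    simp only [h2, h1, Bool.false_or, decide_eq_false_iff_not, not_not]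
    exact ⟨_, ht, by simp⟩
  · have h2 := td_ends t
    have h3 : ∀ x : V, t.1 ≤ x.1 → x.1 ≤ t.1 + 1 → t.2 ≤ x.2 → x.2 ≤ t.2 + 1 →
        (x.1 + x.2) % 2 = 1 → tf x ∈ S := fun x h4 h5 h6 h7 h8 => by
      simpa using hS _ ht _ (hc t x h4 h5 h6 h7) (by simpa using h8)
    refine ⟨?_, ?_⟩ <;> split_ifs at h2 <;> simp only [h2.1, h2.2] <;> apply h3 <;>
      first | omega | (simp only [Prod.fst_add, Prod.snd_add]; omega)

end Pool.Agent.P.MP_6c8efb_pr.SLE
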