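import Pool.Agent.P.MP_6c8efb_pr.SLE.UFam

/-! From a crossing of the inner polyomino to a path which reaches a crosscut. -/

open Set Filter Topology Metric Complex
open scoped NNReal

namespace Pool.Agent.P.MP_6c8efb_pr.SLE

theorem lipr (h2 : L.S_L2s) {K : Set ℂ} {g f : ℂ → ℂ} {a w r l : ℝ} (H : Small K g f a w r)
    (hr : 0 < r) (hl : 100 * r ≤ l) {U : Set ℂ} (hU : Convex ℝ U) (hU' : ∀ z ∈ U, l / 2 ≤ ‖z‖)
    {z z' : ℂ} (hz : z ∈ U) (hz' : z' ∈ U) : ‖(g z - z) - (g z' - z')‖ ≤ ‖z - z'‖ / 2 := by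
  have hK : K ⊆ closedBall ((0 : ℝ) : ℂ) r := by simpa using H.sub
  have sub : ∀ y ∈ U, closedBall y (l / 4) ⊆ L.Dsym K := fun y hy v hv => by
    refine L.mem_Dsym_of_lt hK ?_
    have := norm_sub_norm_le y v
    rw [mem_closedBall, dist_comm, dist_eq_norm] at hv
    simp only [ofReal_zero, sub_zero]
    linarith [hU' y hy]
  have hd : DifferentiableOn ℂ (fun y => g y - y) (L.Dsym K) := H.sym.dg.sub differentiableOn_id
  have l0 : 0 < l / 4 := by linarith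
  have := hU.norm_image_sub_le_of_norm_deriv_le (𝕜 := ℂ) (f := fun y => g y - y) (C := 1 / 2)
    (fun y hy => hd.differentiableAt ((L.isOpen_Dsym K).mem_nhds (sub y hy (mem_closedBall_self l0.le))))
    (fun y hy => by
      refine (norm_deriv_le_of_forall_mem_sphere_norm_le (C := 12 * r) l0
        (hd.mono ?_).diffContOnCl fun v hv => h2 K g f a H.hyd H.sym 0 r hr hK v
          (sub y hy (sphere_subset_closedBall hv))).trans ?_
      · rw [closure_ball y l0.ne']; exact sub y hy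
      · rw [div_le_iff₀ l0]; linarith) hz' hz
  linarith

/-- comparison of real parts on a half plane away from the hull -/
theorem lip_re (h2 : L.S_L2s) {K : Set ℂ} {g f : ℂ → ℂ} {a w r l : ℝ} (H : Small K g f a w r)
    (hr : 0 < r) (hl : 100 * r ≤ l) {z z' : ℂ}
    (hz : z.re ≤ -(l / 2) ∧ z'.re ≤ -(l / 2) ∨ l / 2 ≤ z.re ∧ l / 2 ≤ z'.re) {d : ℝ} (hd : 0 ≤ d)
    (h1 : z.re - z'.re ≤ d) (h3 : |z.im - z'.im| ≤ d) : (g z).re - (g z').re ≤ 2 * d := by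
  have key : ‖(g z - z) - (g z' - z')‖ ≤ ‖z - z'‖ / 2 := by
    rcases hz with hz | hz
    · exact lipr h2 H hr hl (convex_halfSpace_re_le (-(l / 2))) (fun y hy => by
        have := abs_le.1 (abs_re_le_norm y); have : y.re ≤ -(l / 2) := hy; linarith) hz.1 hz.2
    · exact lipr h2 H hr hl (convex_halfSpace_re_ge (l / 2)) (fun y hy =>
        le_trans hy (re_le_norm y)) hz.1 hz.2
  have e1 := (re_le_norm _).trans key
  have e2 := norm_le_abs_re_add_abs_im (z - z')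
  simp only [sub_re, sub_im] at e1 e2
  rcases abs_cases (z.re - z'.re) with e | e <;> linarith

theorem cx_plus (x y : V) : cx (x + y) = cx x + cx y := by
  apply Complex.ext <;> simp [cx]

theorem norm_cx_u (d : Fin 4) : ‖cx (u d)‖ = 1 := by
  rcases cases4 d with rfl | rfl | rfl | rfl <;> simp [cx, Complex.norm_eq_sqrt_sq_add_sq]

theorem walk_to {δ μ B s x : ℝ} {α β M : ℤ} {cl : V → V} (hδ : 0 < δ)
    (hcl : ∀ v, cl v = (2 * v.1 + α, 2 * v.2 + β)) (hα : |α| ≤ 1) (hβ : 1 ≤ β ∧ β ≤ 2)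
    {A K : Set ℂ} {Far : ℂ → Prop} {g : ℂ → ℂ} {Z : Set V} {σ σ' : Cfg}
    (hA : ∀ a ∈ A, ∀ y, ‖y - a‖ ≤ μ → y ∈ L.Dsym K ∧ ‖y‖ ≤ B ∧ (y.im ≤ μ → Far y)) (hμ : 3 * δ ≤ μ)
    (hM : B + 2 * δ ≤ δ * M) {x₀ y₀ : V}
    (h : Conn σ {v | ∃ a ∈ A, ‖cen (δ / 2) (cl v) - a‖ ≤ 2 * δ} x₀ y₀)
    (hx₀ : ∃ a ∈ A, ‖cen (δ / 2) (cl x₀) - a‖ ≤ 2 * δ) (hx : 0 < (cen (δ / 2) (cl x₀)).im)
    (hy : (cen (δ / 2) (cl y₀)).im < 0) (hs : ‖g (cen (δ / 2) (cl x₀)) - x‖ < s)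
    (hF : ∀ y, Far y → 0 < y.im → y.im ≤ 2 * δ → s ≤ ‖g y - x‖) (hg : ContinuousOn g (L.HH \ K))
    (hZ : ∀ (c : V) (y : ℂ), segment ℝ (cen (δ / 2) c) y ⊆ L.HH \ K →
      ‖y - cen (δ / 2) c‖ ≤ 2 * (δ / 2) → ‖g y - x‖ = s → c ∈ Z)
    (hσ : ∀ e : E, 0 ≤ e.1.2 → 0 < (hd e).2 → σ e = true → σ' e = true) :
    ∃ a b : V, b.2 = 0 ∧ Far (cen (δ / 2) (cl b)) ∧ cl a ∈ Z ∧ Conn σ' (Bx 0 M) b a := by
  set p : V → ℂ := fun v => cen (δ / 2) (cl v) with hp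
  set S := {v | ∃ a ∈ A, ‖p v - a‖ ≤ 2 * δ}
  have b1 : (1 : ℝ) ≤ β := by exact_mod_cast hβ.1
  have b2 : (β : ℝ) ≤ 2 := by exact_mod_cast hβ.2
  have pim : ∀ v, (p v).im = δ * (v.2 + (β + 1 / 2) / 2) := fun v => by
    simp only [hp, cen_im, hcl]; push_cast; ring
  have pre : ∀ v, (p v).re = δ * (v.1 + (α + 1 / 2) / 2) := fun v => by
    simp only [hp, cen_re, hcl]; push_cast; ring
  have pu : ∀ v d, p (v + u d) = p v + δ * cx (u d) := fun v d => by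
    apply Complex.ext <;> simp [pre, pim, cx] <;> ring
  have pos : ∀ v : V, 0 ≤ v.2 → 0 < (p v).im := fun v hv => by
    have : (0 : ℝ) ≤ v.2 := by exact_mod_cast hv
    rw [pim]; positivity
  have low : ∀ v : V, v.2 ≤ 0 → (p v).im ≤ 2 * δ := fun v hv => by
    have : (v.2 : ℝ) ≤ 0 := by exact_mod_cast hv
    rw [pim]; nlinarith
  have far : ∀ v ∈ S, v.2 ≤ 0 → Far (p v) := fun v ⟨a, h1, h2⟩ hv =>
    (hA a h1 _ (by linarith)).2.2 (by linarith [low v hv])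
  have box : ∀ v ∈ S, 0 ≤ v.2 → v ∈ Bx 0 M := fun v ⟨a, h1, h2⟩ hv => by
    have e := (hA a h1 _ (h2.trans (by linarith))).2.1
    have e1 := abs_le.1 ((abs_re_le_norm _).trans e)
    have e2 := abs_le.1 ((abs_im_le_norm _).trans e)
    have a1 : |(α : ℝ)| ≤ 1 := by exact_mod_cast hα
    rw [abs_le] at a1
    rw [pre] at e1
    rw [pim] at e2
    have k : ∀ n : ℤ, δ * n ≤ δ * M → n ≤ M := fun n hn => by
      exact_mod_cast le_of_mul_le_mul_left hn hδ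
    have k1 := k v.1 (by nlinarith)
    have k2 := k (-v.1) (by push_cast; nlinarith)
    have k3 := k v.2 (by nlinarith)
    refine ⟨nm_le_iff.2 ⟨?_, ?_⟩, hv⟩ <;> simp only [Prod.fst_zero, Prod.snd_zero, sub_zero, abs_le] <;>
      omega
  have x1 : 0 < x₀.2 := not_le.1 fun e => (hF _ (far _ hx₀ e) hx (low _ e)).not_gt hs
  have y1 : ¬ 0 < y₀.2 := fun e => (pos _ e.le).not_gt hy
  obtain ⟨a, d, h1, h2, h3, h4, h5, h6⟩ := h.exit (A := {v | 0 < v.2}) x1 y1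
  have b0 : (a + u d).2 = 0 := by
    have := abs_le.1 (lip_snd a d)
    simp only [mem_ofPred_eq] at h3 h5
    omega
  have sub : S ∩ {v | 0 < v.2} ⊆ S ∩ {v | 0 ≤ v.2} := fun v hv => ⟨hv.1, (le_of_lt hv.2 : 0 ≤ v.2)⟩
  have c1 : Conn σ' (S ∩ {v | 0 ≤ v.2}) x₀ (a + u d) := by
    refine Conn.snoc (h1.mono sub fun e he => hσ e (le_of_lt he.1.2) he.2.2) (sub ⟨h2, h3⟩)
      ⟨h4, b0.ge⟩ (hσ _ ?_ ?_ h6) <;>
    · simp only [mem_ofPred_eq] at h3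
      rcases cases4 d with rfl | rfl | rfl | rfl <;> simp at b0 ⊢ <;> omega
  obtain ⟨a', d', k1, k2, k3, k4, k5, -⟩ := c1.exit (A := {v | ‖g (p v) - x‖ < s}) hs
    (not_lt.2 (hF _ (far _ h4 b0.le) (pos _ b0.ge) (low _ b0.le)))
  have nr : ∀ y ∈ segment ℝ (p a') (p (a' + u d')), ‖y - p a'‖ ≤ δ := fun y hy => by
    have := segment_subset_closedBall_left _ _ hy
    rw [mem_closedBall, dist_eq_norm, dist_eq_norm, pu] at this
    simpa [norm_cx_u, abs_of_pos hδ] using this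
  have sD : segment ℝ (p a') (p (a' + u d')) ⊆ L.HH \ K := fun y hy => by
    obtain ⟨a₀, e1, e2⟩ := k2.1
    have e3 := norm_add_le (y - p a') (p a' - a₀)
    rw [sub_add_sub_cancel] at e3
    exact L.mem_D_of_Dsym (hA a₀ e1 y (by linarith [nr y hy])).1
      (L.convex_HH.segment_subset (pos _ k2.2) (pos _ k4.2) hy)
  obtain ⟨y, y2, y3⟩ := (convex_segment (p a') (p (a' + u d'))).isPreconnected.intermediate_value
    (left_mem_segment ℝ _ _) (right_mem_segment ℝ _ _) (f := fun y => ‖g y - x‖)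
    ((hg.mono sD).sub continuousOn_const).norm ⟨le_of_lt k3, not_lt.1 k5⟩
  refine ⟨a', a + u d, b0, far _ h4 b0.le, hZ _ y (Subset.trans ?_ sD) (by linarith [nr y y2]) y3,
    Conn.mono_set (c1.symm'.trans' (k1.mono_set inter_subset_left)) fun v hv => box v hv.1 hv.2⟩
  exact (convex_segment _ _).segment_subset (left_mem_segment ℝ _ _) y2

/-- the point of the plane where the point `p` of the lattice of tiles sits -/
noncomputable def tp (δ : ℝ) (p : V) : ℂ :=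
  ⟨δ * ((p.1 - p.2) / 2 - 1 / 4), δ * ((p.1 + p.2) / 2 + 3 / 4)⟩

theorem cen_tv (δ : ℝ) {p : V} (h : (p.1 + p.2) % 2 = 0) : cen (δ / 2) (cv (tv p)) = tp δ p := by
  have e1 : ((2 * ((p.1 - p.2) / 2) : ℤ) : ℝ) = (p.1 - p.2 : ℤ) := by congr 1; omega
  have e2 : ((2 * ((p.1 + p.2) / 2) : ℤ) : ℝ) = (p.1 + p.2 : ℤ) := by congr 1; omega
  apply Complex.ext
  · simp only [cen_re, cv, tv, tp, Int.cast_sub, e1]; push_cast; ring
  · simp only [cen_im, cv, tv, tp, Int.cast_add, e2]; push_cast; ring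

theorem cen_tf (δ : ℝ) {p : V} (h : (p.1 + p.2) % 2 = 1) : cen (δ / 2) (cf (tf p)) = tp δ p := by
  have e1 : ((2 * ((p.1 - p.2 - 1) / 2) : ℤ) : ℝ) = (p.1 - p.2 - 1 : ℤ) := by congr 1; omega
  have e2 : ((2 * ((p.1 + p.2 - 1) / 2) : ℤ) : ℝ) = (p.1 + p.2 - 1 : ℤ) := by congr 1; omega
  apply Complex.ext
  · simp only [cen_re, cf, tf, tp, e1]; push_cast; ring
  · simp only [cen_im, cf, tf, tp, Int.cast_add, e2]; push_cast; ring

theorem tp_near {δ : ℝ} (hδ : 0 < δ) {m : ℕ} (hm : 0 < m) (p : V) {κ : ℤ} (hκ : κ = 0 ∨ κ = 1) :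
    ‖tp δ (p + (κ, 0)) - (δ * m / 2 : ℝ) * (1 + I) * (cx p / m)‖ ≤ 2 * δ := by
  have m0 : (m : ℂ) ≠ 0 := by exact_mod_cast hm.ne'
  have e : ((δ * m / 2 : ℝ) : ℂ) * (1 + I) * (cx p / m) = (δ / 2 : ℝ) * (1 + I) * cx p := by
    push_cast; field_simp
  rw [e]
  refine (norm_le_abs_re_add_abs_im _).trans ?_
  have e1 : (tp δ (p + (κ, 0)) - (δ / 2 : ℝ) * (1 + I) * cx p).re = δ * (κ / 2 - 1 / 4) := by
    simp [tp, cx]; ring
  have e2 : (tp δ (p + (κ, 0)) - (δ / 2 : ℝ) * (1 + I) * cx p).im = δ * (κ / 2 + 3 / 4) := by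
    simp [tp, cx]; ring
  rw [e1, e2, abs_mul, abs_mul, abs_of_pos hδ]
  rcases hκ with rfl | rfl <;> norm_num <;> linarith

theorem expl_near {δ : ℝ} (hδ : 0 < δ) {ξ : Cfg} {k : ℕ} {t : V} (h : te t ∈ expl ξ k) :
    ∃ y ∈ L.hull (pc (δ / 2) (fp ξ)) (k + 1 : ℕ), ‖y - tp δ t‖ ≤ 4 * δ := by
  obtain ⟨j, hj, e⟩ := Finset.mem_image.1 h
  have hj' := Finset.mem_range.1 hj
  refine ⟨_, ⟨(j + 1 : ℕ), ⟨by positivity, by exact_mod_cast by omega⟩, rfl⟩, ?_⟩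
  have e0 : pc (δ / 2) (fp ξ) (j + 1 : ℕ) = (δ / 2 : ℝ) * cx (fv (path ξ j)) := by
    show interp (fun k => ((δ / 2 : ℝ) : ℂ) * cx (fp ξ k)) ((j + 1 : ℕ) : ℝ≥0) = _
    rw [interp_of_mem _ (j + 1) (by simp)]
    simp [fp]
  rw [e0]
  generalize path ξ j = c at e
  obtain ⟨⟨x, y⟩, d⟩ := c
  have k : |2 * (fv ((x, y), d)).1 - (2 * (t.1 - t.2) - 1)| ≤ 8 ∧
      |2 * (fv ((x, y), d)).2 - (2 * (t.1 + t.2) + 3)| ≤ 8 := by
    simp only [te, ed] at e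
    simp only [abs_le]
    rcases cases4 d with rfl | rfl | rfl | rfl <;> split_ifs at e <;> simp [fv] at e ⊢ <;> omega
  have k1 : |2 * ((fv ((x, y), d)).1 : ℝ) - (2 * (t.1 - t.2) - 1)| ≤ 8 := by exact_mod_cast k.1
  have k2 : |2 * ((fv ((x, y), d)).2 : ℝ) - (2 * (t.1 + t.2) + 3)| ≤ 8 := by exact_mod_cast k.2
  refine (norm_le_abs_re_add_abs_im _).trans ?_
  rw [abs_le] at k1 k2
  have r1 : |(((δ / 2 : ℝ) : ℂ) * cx (fv ((x, y), d)) - tp δ t).re| ≤ 2 * δ := by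
    simp only [sub_re, re_ofReal_mul, cx, tp, abs_le]; constructor <;> nlinarith
  have r2 : |(((δ / 2 : ℝ) : ℂ) * cx (fv ((x, y), d)) - tp δ t).im| ≤ 2 * δ := by
    simp only [sub_im, im_ofReal_mul, cx, tp, abs_le]; constructor <;> nlinarith
  linarith

end Pool.Agent.P.MP_6c8efb_pr.SLE
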