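import Pool.Agent.P.MP_6c8efb_pr.SLE.XCore
import Pool.Agent.P.MP_6c8efb_pr.SLE.TStop

/-! The gates described by cells. -/

namespace Pool.Agent.P.MP_6c8efb_pr.SLE.Ext

open Set Classical

/-- joined to `[-a, 0]` -/
def Bad (σ : Cfg) (a M : ℤ) (y : V) : Prop :=
  ∃ s : V, s.2 = 0 ∧ -a ≤ s.1 ∧ s.1 ≤ 0 ∧ Conn σ (Bx 0 M) s y

/-- the vertex of the block of four cells -/
def blk (c : V) : V := ((c.1 + 1) / 2, (c.2 - 1) / 2)

/-- a small set of cells close to the left side only -/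
structure Gt (Fz : Set E) (φ : Cfg) (a M r ρ : ℤ) (z : V) (Z R L : Set V) : Prop where
  hz : ∀ c ∈ Z, nm z c ≤ r ∧ c ∈ R ∧ ∃ c', Conn (fun _ => true) Z c c' ∧ (c' ∈ L ∨ c'.2 ≤ 1)
  st : ∀ c ∈ R, c ∉ L → ∀ d, nm z (c + u d) ≤ ρ → 1 ≤ (c + u d).2 → c + u d ∈ R
  hL : ∀ c ∈ L, 1 ≤ c.2 → (∃ y, c = cv y ∧ Bad (fz Fz φ fun _ => false) a M y) ∨
    ∃ e, c = ce e ∧ Bad (fz Fz φ fun _ => false) a M e.1 ∧
      Bad (fz Fz φ fun _ => false) a M (hd e) ∧ (Hi e → e ∈ Fz)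
  hR : ∀ e, ce e ∈ R → Hi e → e ∈ Fz → φ e = true
  ax : ∀ c ∈ R, c.2 = 1 → nm z c < ρ → -2 * a - 1 ≤ c.1 ∧ (c ∉ L → c.1 < 0)

/-- the vertices of the gate -/
def Xs (Fz : Set E) (φ : Cfg) (a M : ℤ) (Z : Set V) : Set V :=
  {y | 0 ≤ y.2 ∧ ¬ Bad (fz Fz φ fun _ => false) a M y ∧ ∃ c ∈ Z, blk c = y}

theorem ce_inj {e e' : E} (h : ce e = ce e') : e = e' := by
  obtain ⟨⟨x, y⟩, _ | _⟩ := e <;> obtain ⟨⟨x', y'⟩, _ | _⟩ := e' <;> simp [ce] at h ⊢ <;> omega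

namespace Gt

variable {Fz : Set E} {φ : Cfg} {a M r ρ : ℤ} {z : V} {Z R L : Set V}
  (H : Gt Fz φ a M r ρ z Z R L)
include H

theorem st' {c c' : V} (h1 : c ∈ R) (h2 : c ∉ L) (h3 : |c'.1 - c.1| + |c'.2 - c.2| = 1)
    (h4 : nm z c' ≤ ρ) (h5 : 1 ≤ c'.2) : c' ∈ R := by
  obtain ⟨d, rfl⟩ : ∃ d, c' = c + u d := by
    simp only [abs_eq_max_neg] at h3
    by_contra! h
    have := h 0
    have := h 1
    have := h 2
    have := h 3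
    simp [Prod.ext_iff] at *
    omega
  exact H.st c h1 h2 d h4 h5

theorem nf {f : V} (h : 0 ≤ f.2) : cf f ∉ L := fun b => by
  rcases H.hL _ b (by simp [cf]; omega) with ⟨y, h, -⟩ | ⟨⟨y, _ | _⟩, h, -⟩ <;>
    simp [cf, cv, ce] at h <;> omega

theorem nv {y : V} (h : 0 ≤ y.2) (h' : ¬ Bad (fz Fz φ fun _ => false) a M y) : cv y ∉ L :=
  fun b => by
  rcases H.hL _ b (by simp [cv]; omega) with ⟨y', e, h⟩ | ⟨⟨y, _ | _⟩, h, -⟩
  · obtain rfl : y = y' := by simp [cv, Prod.ext_iff] at e ⊢; omega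
    exact h' h
  all_goals simp [cv, ce] at h; omega

theorem ne {e : E} (h : 1 ≤ (ce e).2) (b : ce e ∈ L) : Bad (fz Fz φ fun _ => false) a M e.1 ∧
    Bad (fz Fz φ fun _ => false) a M (hd e) ∧ (Hi e → e ∈ Fz) := by
  rcases H.hL _ b h with ⟨y, h, -⟩ | ⟨e', h, h'⟩
  · obtain ⟨y, _ | _⟩ := e <;> simp [cv, ce] at h <;> omega
  · exact ce_inj h ▸ h'

omit H in
theorem nm_blk {c : V} (h : nm z c ≤ r) : nm (blk z) (blk c) ≤ r := by
  simp only [nm, blk, abs_eq_max_neg] at *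
  omega

theorem b1 (hr : 1 ≤ r) (hρ : 12 * r ≤ ρ) {y : V} (h : y ∈ Xs Fz φ a M Z) :
    cv y ∈ R ∧ nm z (cv y) ≤ r + 1 ∧ 0 < y.2 := by
  obtain ⟨h1, h2, c, h3, h4⟩ := h
  obtain ⟨z1, z2, -⟩ := H.hz c h3
  have n1 : ce (y, true) ∉ L := fun b => h2 (H.ne (by simp [ce]; omega) b).1
  have n2 : ce (y, false) ∉ L := fun b => h2 (H.ne (by simp [ce]; omega) b).1
  have n3 : nm z (cv y) ≤ r + 1 ∧ nm z (ce (y, false)) ≤ r + 1 := by
    simp only [nm, blk, cv, ce, hd_false, abs_eq_max_neg, Prod.ext_iff] at z1 h4 ⊢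
    omega
  have k : ce (y, false) ∈ R → cv y ∈ R := fun b =>
    H.st' b n2 (by simp [cv, ce, abs_eq_max_neg]; omega) (by omega) (by simp [cv]; omega)
  have : cv y ∈ R := by
    obtain rfl | rfl | rfl | rfl : c = cv y ∨ c = ce (y, true) ∨ c = ce (y, false) ∨ c = cf y := by
      simp only [blk, cv, ce, cf, hd_true, hd_false, Prod.ext_iff] at h4 ⊢
      omega
    · exact z2
    · exact H.st' z2 n1 (by simp [cv, ce, abs_eq_max_neg]; omega) (by omega) (by simp [cv]; omega)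
    · exact k z2
    · exact k (H.st' z2 (H.nf h1) (by simp [cf, ce, abs_eq_max_neg]; omega) (by omega)
        (by simp [ce]; omega))
  refine ⟨this, n3.1, h1.lt_of_ne fun e => h2 ⟨y, e.symm, ?_⟩⟩
  obtain ⟨a1, a2⟩ := H.ax _ this (by simp [cv, ← e]) (by omega)
  have := a2 (H.nv h1 h2)
  simp only [cv] at a1 this
  exact ⟨by omega, by omega, Conn.rfl'⟩

theorem b2 (hr : 1 ≤ r) (hρ : 12 * r ≤ ρ) {y : V} (h : y ∈ Xs Fz φ a M Z) (d : Fin 4) :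
    cf (fc y d) ∈ R ∧ nm (blk z) (fc y d) ≤ r + 1 := by
  obtain ⟨a1, a2, a3⟩ := H.b1 hr hρ h
  have a4 : 1 ≤ (ce (edge y d)).2 := by
    rcases cases4 d with rfl | rfl | rfl | rfl <;> simp [ce] <;> omega
  have a5 : ce (edge y d) ∉ L := fun b => by
    have := H.ne a4 b
    rcases cases4 d with rfl | rfl | rfl | rfl <;> simp at this <;>
      first | exact h.2.1 this.1 | exact h.2.1 this.2.1
  refine ⟨H.st' (H.st' a1 (H.nv h.1 h.2.1) ?_ ?_ a4) a5 ?_ ?_ ?_, ?_⟩ <;>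
    rcases cases4 d with rfl | rfl | rfl | rfl <;>
    simp [cv, ce, cf, blk, nm, abs_eq_max_neg] at a2 ⊢ <;> omega

theorem b3 {f : V} (h : cf f ∈ R) (h' : f ∈ Bx (blk z) ((ρ - 6) / 2)) (d : Fin 4) :
    ce (dl (edge f d)) ∈ R ∧ nm z (ce (dl (edge f d))) < ρ := by
  obtain ⟨h1, h2⟩ := h'
  refine ⟨H.st' h (H.nf h2) ?_ ?_ ?_, ?_⟩ <;> rcases cases4 d with rfl | rfl | rfl | rfl <;>
    simp [ce, cf, dl, blk, nm, abs_eq_max_neg] at h1 ⊢ <;> omega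

theorem dual (hr : 1 ≤ r) (hρ : 12 * r ≤ ρ) {x f : V} (h : x ∈ Xs Fz φ a M Z) {d : Fin 4}
    (h0 : 0 ≤ (fc x d).2)
    (hc : Conn (du (fz Fz φ fun _ => false)) (Bx (blk z) ((ρ - 6) / 2)) (fc x d) f) :
    (f.2 = 0 → -a ≤ f.1) ∧
      ∀ d', 0 ≤ (f + u d').2 → dl (edge f d') ∈ Fz → φ (dl (edge f d')) = true := by
  obtain ⟨a1, a2⟩ := H.b2 hr hρ h d
  have hi : ∀ (f : V) d, 0 ≤ f.2 → 0 ≤ (f + u d).2 → Hi (dl (edge f d)) := fun f d h1 h2 => by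
    rcases cases4 d with rfl | rfl | rfl | rfl <;> simp [Hi, dl] at h2 ⊢ <;> omega
  have m : f ∈ Bx (blk z) ((ρ - 6) / 2) := hc.mem ⟨by omega, h0⟩
  have k : cf f ∈ R := hc.ind (p := fun f => cf f ∈ R) a1 fun g d _ g1 g2 g3 g4 => by
    have b := (H.b3 g4 g1 d).1
    have b' := hi g d g1.2 g2.2
    have : dl (edge g d) ∉ Fz := fun hz => by simp [du, fz, hz, H.hR _ b b' hz] at g3
    have g5 := g1.2
    obtain ⟨g6, g7⟩ := g2
    refine H.st' b (fun hl => this ((H.ne ?_ hl).2.2 b')) ?_ ?_ ?_ <;>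
      rcases cases4 d with rfl | rfl | rfl | rfl <;>
      simp [ce, cf, dl, blk, nm, abs_eq_max_neg] at g6 g7 ⊢ <;> omega
  refine ⟨fun e => ?_, fun d' b => H.hR _ (H.b3 k m d').1 (hi f d' m.2 b)⟩
  have := (H.ax _ (H.b3 k m 3).1 (by simp [ce, dl, e]) (H.b3 k m 3).2).1
  simp [ce, dl] at this
  omega

theorem prim (hr : 1 ≤ r) (hρ : 12 * r ≤ ρ) (hM : nm 0 (blk z) + r ≤ M) {x : V}
    (h : x ∈ Xs Fz φ a M Z) : Bad (op (fz Fz φ fun _ => false) (Ue (Xs Fz φ a M Z))) a M x := by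
  have k : ∀ c ∈ Z, 1 ≤ c.2 → ¬ Bad (op (fz Fz φ fun _ => false) (Ue (Xs Fz φ a M Z))) a M (blk c) →
      blk c ∈ Xs Fz φ a M Z := fun c h1 h2 h3 => ⟨by simp only [blk]; omega,
    fun ⟨s, s1, s2, s3, s4⟩ => h3 ⟨s, s1, s2, s3, s4.mono subset_rfl fun e _ h =>
      op_true.2 (Or.inl h)⟩, c, h1, rfl⟩
  have bx : ∀ c ∈ Z, 1 ≤ c.2 → blk c ∈ Bx 0 M := fun c h1 h2 => by
    have := nm_blk (H.hz c h1).1
    refine ⟨?_, by simp only [blk]; omega⟩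
    simp only [nm, abs_eq_max_neg, Prod.fst_zero, Prod.snd_zero] at this hM ⊢
    omega
  obtain ⟨h1, -, c, h2, rfl⟩ := h
  obtain ⟨-, -, c', h3, h4⟩ := H.hz c h2
  refine h3.symm'.ind (p := fun c => 1 ≤ c.2 →
    Bad (op (fz Fz φ fun _ => false) (Ue (Xs Fz φ a M Z))) a M (blk c)) (fun h5 => ?_)
    (fun g d _ g1 g2 _ ih g3 => ?_) (by simp only [blk] at h1; omega)
  · by_contra hb
    have m := k c' (h3.mem h2) h5 hb
    have := (H.b1 hr hρ m).2.2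
    rcases H.hL c' (h4.resolve_right (by simp only [blk] at this; omega)) h5 with ⟨y, rfl, e⟩ |
      ⟨⟨y, _ | _⟩, rfl, e, -⟩ <;> refine m.2.1 (cast ?_ e) <;> congr 1 <;>
      simp [blk, cv, ce, Prod.ext_iff] <;> omega
  · by_contra hb
    have m := k _ g2 g3 hb
    have m' := (H.b1 hr hρ m).2.2
    have g4 : 1 ≤ g.2 := by
      rcases cases4 d with rfl | rfl | rfl | rfl <;> simp [blk] at m' <;> omega
    obtain ⟨s, s1, s2, s3, s4⟩ := ih g4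
    have : blk (g + u d) = blk g ∨ blk (g + u d) = blk g + u d := by
      rcases cases4 d with rfl | rfl | rfl | rfl <;> simp [blk] <;> omega
    refine hb ⟨s, s1, s2, s3, this.elim (fun e => e ▸ s4) fun e => ?_⟩
    have b := bx _ g2 g3
    have b' := bx g g1 g4
    rw [e] at b m m' ⊢
    refine s4.snoc b' b (op_true.2 (Or.inr ?_))
    have := b'.2
    generalize blk g = y at *
    rcases cases4 d with rfl | rfl | rfl | rfl <;>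
      simp [Ue, Hi, Prod.add_def, ← sub_eq_add_neg] at m m' ⊢ <;> exact ⟨by tauto, by omega⟩

end Gt

/-- a gate is reached but there is no crossing -/
def Ev (Fz : Set E) (φ : Cfg) (a b M M' : ℤ) (Z : Set V) : Set Cfg :=
  {ω | (∃ y x : V, (y.2 = 0 ∧ b ≤ y.1 ∧ cv x ∈ Z ∧ x ∈ Bx 0 M) ∧ Conn (fz Fz φ ω) (Bx 0 M) y x) ∧
    ¬ Cro (fz Fz φ ω) (Bx 0 M') a b}

theorem Bx_finite (M : ℤ) : (Bx 0 M).Finite := (Rc_finite (-M) M 0 M).subset fun x hx => by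
  simp [Bx, nm, mem_Rc, abs_le] at hx ⊢; omega

theorem loc_Ev (Fz : Set E) (φ : Cfg) (a b M M' : ℤ) (Z : Set V) :
    MP_6c8efb_pr.Loc (Ev Fz φ a b M M' Z) := by
  have := loc_pull ((loc_conn (Bx_finite M) fun y x => y.2 = 0 ∧ b ≤ y.1 ∧ cv x ∈ Z ∧
    x ∈ Bx 0 M).inter (loc_conn (Bx_finite M') fun x y => x.2 = 0 ∧ -a ≤ x.1 ∧ x.1 ≤ 0 ∧
      y.2 = 0 ∧ b ≤ y.1).compl) fun e t => if e ∈ Fz then φ e else t
  simp only [mem_inter_iff, mem_compl_iff, mem_ofPred, and_assoc] at this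
  simp only [Ev, Cro, and_assoc]
  exact this

theorem cell : ∃ C c : ℝ, 0 < c ∧ 0 ≤ C ∧ (∀ (A : Set Cfg) (r ρ : ℤ), 1 ≤ r → r ≤ ρ → ρ < 12 * r →
      Q A ≤ C * ((r : ℝ) / ρ) ^ c) ∧
    ∀ (Fz : Set E) (φ : Cfg) (a b M M' r ρ : ℤ) (ι : Type) (z : ι → V) (Z : ι → Set V),
      (∀ e, ¬ Hi e → e ∈ Fz ∧ φ e = false) → 0 ≤ a → 0 < b → 1 ≤ r → 12 * r ≤ ρ → M + ρ ≤ M' →
      (∀ i, ∃ R L, Gt Fz φ a M' r ρ (z i) (Z i) R L) →
      Q (Ev Fz φ a b M M' (⋃ i, Z i)) ≤ C * ((r : ℝ) / ρ) ^ c := by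
  obtain ⟨C, c, c0, C0, h⟩ := core
  refine ⟨(C + 1) * 15 ^ c, c, c0, by positivity, fun A r ρ hr hρ b => ?_,
    fun Fz φ a b M M' r ρ ι z Z hF ha hb hr hρ hM H => ?_⟩ <;>
    have r0 : (0 : ℝ) < r := by exact_mod_cast (by omega : 0 < r)
  all_goals
    have ρ0 : (0 : ℝ) < ρ := by exact_mod_cast (by omega : 0 < ρ)
    rw [mul_assoc, ← Real.mul_rpow (by norm_num) (by positivity)]
    have p0 : 0 ≤ (15 * ((r : ℝ) / ρ)) ^ c := by positivity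
  · have h1 : (1 : ℝ) ≤ (15 * ((r : ℝ) / ρ)) ^ c := by
      refine Real.one_le_rpow ?_ c0.le
      have : (ρ : ℝ) < 12 * r := by exact_mod_cast b
      rw [mul_div_assoc', le_div_iff₀ ρ0]
      linarith
    have := Pr_le_one (fun _ => hf) A
    simp only [Q]
    nlinarith
  choose R L H using H
  have h1 := h Fz φ a b _ M' (2 * r) ((ρ - 6) / 2) ι (fun i => blk (z i))
    (fun i => Xs Fz φ a M' (Z i)) hF ha hb (by omega) (by omega) rfl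
    (by
      rintro i _ ⟨-, -, c, h, rfl⟩
      exact (Gt.nm_blk ((H i).hz c h).1).trans_lt (by omega))
    (fun i x hx hw => (H i).prim hr hρ (by omega) hx) fun i x hx d f => (H i).dual hr hρ hx
  have h2 : ρ ≤ 5 * ((ρ - 6) / 2) := by omega
  have h3 : (ρ : ℝ) ≤ 5 * (((ρ - 6) / 2 : ℤ) : ℝ) := by exact_mod_cast h2
  have h4 : (((2 * r : ℤ) : ℝ) / (((ρ - 6) / 2 : ℤ) : ℝ)) ^ c ≤ (15 * ((r : ℝ) / ρ)) ^ c := by
    refine Real.rpow_le_rpow (div_nonneg (by push_cast; linarith) (by linarith)) ?_ c0.le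
    rw [mul_div_assoc', div_le_div_iff₀ (by linarith) ρ0]
    push_cast
    nlinarith
  refine ((Pr_mono ?_).trans h1).trans (by nlinarith [mul_le_mul_of_nonneg_left h4 C0.le])
  rintro ω ⟨⟨y, x, ⟨y1, y2, x1, x2⟩, hp⟩, hn⟩
  obtain ⟨i, x1⟩ := mem_iUnion.1 x1
  have sub : ∀ N, M ≤ N → Bx 0 M ⊆ Bx 0 N := fun N h x hx => ⟨hx.1.trans h, hx.2⟩
  refine ⟨⟨x, y, i, y1, y2, ⟨x2.2, ?_, _, x1, by simp [blk, cv]⟩, sub _ (by omega) x2,
    hp.mono_set (sub _ (by omega))⟩, hn⟩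
  rintro ⟨s, s1, s2, s3, s4⟩
  refine hn ⟨s, y, s1, s2, s3, y1, y2, (s4.mono subset_rfl fun e _ h => ?_).trans'
    (hp.symm'.mono_set (sub _ (by omega)))⟩
  by_cases hz : e ∈ Fz
  · simpa only [fz, if_pos hz] using h
  · simp [fz, hz] at h

end Pool.Agent.P.MP_6c8efb_pr.SLE.Ext
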