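import Pool.Agent.P.MP_6c8efb_pr.SLE.XTop
import Pool.Agent.P.MP_6c8efb_pr.SLE.Defs
import Pool.Agent.P.MP_6c8efb_pr.Ann

/-! An open path that reaches one of many small gates extends to a crossing. -/

namespace Pool.Agent.P.MP_6c8efb_pr.SLE.Ext

open Set Classical

/-- the configuration frozen on a set of edges -/
noncomputable def fz (Fz : Set E) (φ ω : Cfg) : Cfg := fun e => if e ∈ Fz then φ e else ω e

/-- the edges at a set of vertices -/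
def Ue (X : Set V) : Set E := {e | (e.1 ∈ X ∨ hd e ∈ X) ∧ Hi e}

/-- a set of edges is opened -/
noncomputable def op (σ : Cfg) (U : Set E) : Cfg := fun e => σ e || decide (e ∈ U)

/-- crossing from `[-a, 0]` to `[b, ∞)` -/
def Cro (σ : Cfg) (A : Set V) (a b : ℤ) : Prop :=
  ∃ x y : V, x.2 = 0 ∧ -a ≤ x.1 ∧ x.1 ≤ 0 ∧ y.2 = 0 ∧ b ≤ y.1 ∧ Conn σ A x y

/-- the dual cluster of `[0, b)` -/
def Fc (b : ℤ) (σ : Cfg) : Set V :=
  {g | ∃ f : V, f.2 = 0 ∧ 0 ≤ f.1 ∧ f.1 < b ∧ Conn (du σ) Up f g}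

/-- the boundary of a set of faces -/
noncomputable def bF (F : Set V) : Cfg := fun e => decide (Hi e ∧ (e.1 ∈ F ↔ ot e ∉ F))

theorem op_true {σ : Cfg} {U : Set E} {e : E} : op σ U e = true ↔ σ e = true ∨ e ∈ U := by
  simp [op]

theorem dl_faces (f : V) (d : Fin 4) :
    ((dl (edge f d)).1 = f ∧ ot (dl (edge f d)) = f + u d) ∨
      ((dl (edge f d)).1 = f + u d ∧ ot (dl (edge f d)) = f) := by
  rcases cases4 d with rfl | rfl | rfl | rfl <;> simp [dl, ot, Prod.ext_iff, sub_eq_add_neg]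

theorem Fc_step {b : ℤ} {σ : Cfg} {f : V} {d : Fin 4} (h : f ∈ Fc b σ) (h2 : f + u d ∈ Up)
    (h3 : σ (dl (edge f d)) = false) : f + u d ∈ Fc b σ :=
  let ⟨g, a, b, c, e⟩ := h
  ⟨g, a, b, c, e.snoc (e.mem a.ge) h2 (by simp [du, h3])⟩

theorem bF_le {b : ℤ} {σ : Cfg} {e : E} (h : bF (Fc b σ) e = true) : σ e = true := by
  obtain ⟨h1, h2⟩ := of_decide_eq_true h
  by_contra hc
  obtain ⟨⟨x, y⟩, o⟩ := e
  have k := @Fc_step b σ
  cases o <;> simp [Hi, ot] at h1 h2 hc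
  · have a := @k (x, y) 2
    have c := @k (x - 1, y) 0
    simp [dl, Up, hc, h1, ← sub_eq_add_neg] at a c
    tauto
  · have a := @k (x, y) 3
    have c := @k (x, y - 1) 1
    simp [dl, Up, hc, h1, ← sub_eq_add_neg, show 1 ≤ y by omega] at a c
    tauto

theorem Fc_bF (b : ℤ) (σ : Cfg) : Fc b (bF (Fc b σ)) ⊆ Fc b σ := by
  rintro g ⟨f, a1, a2, a3, h⟩
  refine h.ind ⟨f, a1, a2, a3, Conn.rfl'⟩ fun a d _ h1 h2 h3 h4 => ?_
  have : Hi (dl (edge a d)) := by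
    rcases cases4 d with rfl | rfl | rfl | rfl <;> simp [Hi, dl, Up] at h1 h2 ⊢ <;> omega
  rcases dl_faces a d with ⟨e1, e2⟩ | ⟨e1, e2⟩ <;> simp [du, bF, this, e1, e2, h4] at h3 <;> exact h3

theorem Fc_congr {b : ℤ} {σ σ' : Cfg} (h : ∀ e ∈ EF (Fc b σ), σ e = σ' e) : Fc b σ' = Fc b σ := by
  ext g
  constructor <;> rintro ⟨f, a1, a2, a3, h0⟩
  · refine h0.ind ⟨f, a1, a2, a3, Conn.rfl'⟩ fun a d _ h1 h2 h3 h4 => Fc_step h4 h2 ?_
    simpa [du, h _ (dl_mem_EF h4 d)] using h3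
  · refine h0.ind ⟨f, a1, a2, a3, Conn.rfl'⟩ fun a d h5 h1 h2 h3 h4 => Fc_step h4 h2 ?_
    have hm : a ∈ Fc b σ := ⟨f, a1, a2, a3, h5⟩
    simpa [du, h _ (dl_mem_EF hm d)] using h3

theorem index_Fc {σ : Cfg} (hσ : ∀ e, σ e = true → Hi e) {A : Set V} {a b : ℤ} (ha : 0 ≤ a)
    (hb : 0 < b) (h : Cro σ A a b) : ∃ J : V → ℤ,
    (∀ f d, f ∈ Up → f + u d ∈ Up → σ (dl (edge f d)) = false → J (f + u d) = J f) ∧
    (∀ g ∈ Fc b σ, J g = 1) ∧ ∀ g : V, g.2 = 0 → g.1 < -a → J g = 0 := by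
  obtain ⟨x, y, h1, h2, h3, h4, h5, h6⟩ := h
  obtain ⟨J, j1, j2⟩ := exists_index hσ h1 h4 (h6.mono_set (subset_univ _))
  refine ⟨J, j1, ?_, ?_⟩
  · rintro g ⟨⟨f, f'⟩, rfl, a2, a3, h⟩
    refine h.ind ?_ fun a d _ h1 h2 h3 h4 => (j1 a d h1 h2 (by simpa [du] using h3)).trans h4
    rw [j2, if_pos, if_neg, sub_zero] <;> simp at * <;> omega
  · rintro ⟨g, g'⟩ rfl h
    rw [j2, if_neg, if_neg, sub_zero] <;> simp at * <;> omega

theorem corner {X : Set V} {w : V} {d : Fin 4} (h : dl (edge w d) ∈ Ue X) :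
    ∃ x ∈ X, ∃ d', w + u d = fc x d' := by
  rcases h.1 with h | h <;> refine ⟨_, h, ?_⟩ <;> rcases cases4 d with rfl | rfl | rfl | rfl
  exacts [⟨1, by simp [dl, fc, Prod.ext_iff]⟩, ⟨1, by simp [dl, fc, Prod.ext_iff]⟩,
    ⟨2, by simp [dl, fc, Prod.ext_iff]; ring⟩, ⟨0, by simp [dl, fc, Prod.ext_iff]; ring⟩,
    ⟨0, by simp [dl, fc, Prod.ext_iff]⟩, ⟨2, by simp [dl, fc, Prod.ext_iff]⟩,
    ⟨3, by simp [dl, fc, Prod.ext_iff]; ring⟩, ⟨3, by simp [dl, fc, Prod.ext_iff]; ring⟩]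

theorem core : ∃ C c : ℝ, 0 < c ∧ 0 < C ∧ ∀ (Fz : Set E) (φ : Cfg) (a b M M' r ρ : ℤ) (ι : Type)
    (w : ι → V) (X : ι → Set V), (∀ e, ¬ Hi e → e ∈ Fz ∧ φ e = false) → 0 ≤ a → 0 < b → 1 ≤ r →
    r ≤ ρ → M' - r - ρ - 1 = M → (∀ i, ∀ x ∈ X i, nm (w i) x < r) →
    (∀ i, ∀ x ∈ X i, nm 0 (w i) ≤ M + r → ∃ s : V, s.2 = 0 ∧ -a ≤ s.1 ∧ s.1 ≤ 0 ∧
      Conn (op (fz Fz φ fun _ => false) (Ue (X i))) (Bx 0 M') s x) →
    (∀ i, ∀ x ∈ X i, ∀ d f, 0 ≤ (fc x d).2 →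
      Conn (du (fz Fz φ fun _ => false)) (Bx (w i) ρ) (fc x d) f → (f.2 = 0 → -a ≤ f.1) ∧
      ∀ d', 0 ≤ (f + u d').2 → dl (edge f d') ∈ Fz → φ (dl (edge f d')) = true) →
    Q {ω | (∃ (x y : V) (i : ι), y.2 = 0 ∧ b ≤ y.1 ∧ x ∈ X i ∧ x ∈ Bx 0 M ∧
      Conn (fz Fz φ ω) (Bx 0 M) y x) ∧ ¬ Cro (fz Fz φ ω) (Bx 0 M') a b} ≤
      C * ((r : ℝ) / ρ) ^ c := by
  obtain ⟨c, C, c0, C0, hC⟩ := ann_decay
  refine ⟨C, c, c0, C0, fun Fz φ a b M M' r ρ ι w X hF ha hb hr hρ hM hX h1 h2 => ?_⟩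
  have fin : (Bx 0 M').Finite := (Rc_finite (-M') M' 0 M').subset fun x hx => by
    simp [Bx, nm, mem_Rc, abs_le] at hx ⊢; omega
  let τ : Cfg → Cfg := fun ω => rs (Bx 0 M') (fz Fz φ ω)
  let U : Set E := ⋃ i, ⋃ (_ : nm 0 (w i) ≤ M + r), Ue (X i)
  let F : Cfg → Set V := fun ω => Fc b (op (τ ω) U)
  let G : Set V → ι → Prop := fun F i => nm 0 (w i) ≤ M + r ∧ ∃ x ∈ X i, ∃ y : V, y.2 = 0 ∧
    b ≤ y.1 ∧ Conn (op (fun e => bF F e && decide (e ∉ U)) (Ue (X i))) univ y x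
  let W : Set V → V := fun F => if h : ∃ i, G F i then w h.choose else 0
  let A : Set V → Set Cfg := fun F =>
    {ω | (fun e => du ω e && decide (dl e ∉ EF F)) ∈ Arm1 (W F) r ρ}
  have hτ : ∀ ω ω' e, ω e = ω' e → op (τ ω) U e = op (τ ω') U e := fun ω ω' e h => by
    simp [op, τ, rs, fz, h]
  have lF : LocF F := ⟨_, In_finite fin, fun ω ω' h => congrArg (Fc b) (funext fun e => by
    by_cases he : e ∈ In (Bx 0 M')
    · exact hτ _ _ _ (h e he)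
    · simp [op, τ, rs, he])⟩
  have key := Pr_cond_le (fun _ => hf) lF univ (A := A) (S := EF) (T := fun F => (EF F)ᶜ)
    (fun F _ => ⟨dl '' In (An (W F) r ρ), (In_finite (An_finite ..)).image _,
      fun ω ω' h h' => dep_Arm1 _ hρ (fun e he => by simp [du, h _ ⟨e, he, rfl⟩]) h'⟩)
    (fun F _ ω ω' h h' => by
      obtain rfl : Fc b (op (τ ω) U) = F := h'
      exact Fc_congr fun e he => hτ _ _ _ (h e he))
    (fun F _ ω ω' h h' => by
      have : (fun e => du ω' e && decide (dl e ∉ EF F)) = fun e => du ω e && decide (dl e ∉ EF F) :=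
        funext fun e => by
          by_cases he : dl e ∈ EF F
          · simp [he]
          · simp [he, du, h _ he]
      simpa only [A, mem_ofPred, this] using h')
    (fun F _ => disjoint_compl_right) (κ := C * ((r : ℝ) / ρ) ^ c) fun F _ => by
      have : Q (A F) ≤ Q {ω | du ω ∈ Arm1 (W F) r ρ} := Pr_mono fun ω (h : ω ∈ A F) =>
        up_Arm1 _ _ _ (show (fun e => du ω e && decide (dl e ∉ EF F)) ≤ du ω from fun e => by
          simp [Bool.le_iff_imp]; tauto) h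
      exact this.trans ((Q_du_Arm1 _ hρ).trans_le (hC _ _ _ hr (by omega)))
  refine (Pr_mono ?_).trans (key.trans (mul_le_of_le_one_right (by
    have : (0 : ℝ) < r := by exact_mod_cast (by omega : 0 < r)
    have : (0 : ℝ) < ρ := by exact_mod_cast (by omega : 0 < ρ)
    positivity) MeasureTheory.measureReal_le_one))
  rintro ω ⟨⟨x, y, i, y1, y2, x1, x2, hp⟩, hn⟩
  refine ⟨trivial, ?_⟩
  have τ1 : ∀ e, τ ω e = true → Hi e := fun e he => by
    by_contra h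
    simp [τ, rs, fz, hF e h] at he
  have o1 : ∀ i e, op (τ ω) (Ue (X i)) e = true → Hi e := fun i e he =>
    (op_true.1 he).elim (τ1 e) fun h => h.2
  have cr : ∀ i, ∀ x ∈ X i, nm 0 (w i) ≤ M + r → ∀ y : V, y.2 = 0 → b ≤ y.1 →
      Conn (op (τ ω) (Ue (X i))) univ y x → Cro (op (τ ω) (Ue (X i))) univ a b := by
    intro i x x1 hw y y1 y2 h
    obtain ⟨s, s1, s2, s3, s4⟩ := h1 i x x1 hw
    refine ⟨s, y, s1, s2, s3, y1, y2, (s4.mono (subset_univ _) fun e he h => ?_).trans' h.symm'⟩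
    refine op_true.2 ((op_true.1 h).imp_left fun h => ?_)
    by_cases hz : e ∈ Fz <;> simp_all [τ, rs, fz]
  have le : ∀ i, nm 0 (w i) ≤ M + r → Fc b (op (τ ω) U) ⊆ Fc b (op (τ ω) (Ue (X i))) := by
    rintro i hw g ⟨f, a1, a2, a3, h⟩
    refine ⟨f, a1, a2, a3, h.mono subset_rfl fun e _ he => ?_⟩
    simp only [du, Bool.not_eq_true', ← Bool.not_eq_true, op_true, not_or] at he ⊢
    exact ⟨he.1, fun h => he.2 (mem_iUnion₂.2 ⟨i, hw, h⟩)⟩
  have hw : nm 0 (w i) ≤ M + r := by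
    have := hX i x x1
    have := x2.1
    simp only [nm, abs_lt, abs_le, max_le_iff, max_lt_iff, Prod.fst_zero, Prod.snd_zero] at *
    omega
  have sub : Bx 0 M ⊆ Bx 0 M' := fun x hx => ⟨hx.1.trans (by omega), hx.2⟩
  obtain ⟨J, -, j2, j3⟩ := index_Fc (o1 i) ha hb (cr i x x1 hw y y1 y2 (hp.mono (subset_univ _)
    fun e he h => op_true.2 (Or.inl (by simp [τ, rs, h, show e ∈ In (Bx 0 M') from
      ⟨sub he.1, sub he.2⟩]))))
  have Ufin : ∀ e, op (τ ω) U e = true → e ∈ In (Rc (-M') M' (-M') M') := fun e he => by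
    rcases op_true.1 he with h | h
    · have := rs_mem e h
      simp only [In, Bx, nm, mem_Rc, abs_le, max_le_iff, mem_ofPred, Prod.fst_zero,
        Prod.snd_zero] at this ⊢
      omega
    · obtain ⟨i, hw, h | h, -⟩ := mem_iUnion₂.1 h <;> have := hX i _ h <;>
        obtain ⟨⟨x, y⟩, _ | _⟩ := e <;>
        simp only [In, nm, mem_Rc, abs_le, abs_lt, max_le_iff, max_lt_iff, mem_ofPred, hd,
          Prod.fst_zero, Prod.snd_zero, if_true, if_false, Bool.false_eq_true] at this hw ⊢ <;> omega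
  have gate : ∃ i, G (F ω) i := by
    rcases cross_or (σ := bF (F ω)) (fun e he => (of_decide_eq_true he).1) (Rc_finite ..)
      (fun e he => Ufin e (bF_le he)) (a := a) hb with ⟨s, t, s1, s2, s3, t1, t2, h⟩ |
      ⟨f, g, f1, f2, f3, g1, g2, h⟩
    · by_contra! hg
      refine hn ⟨s, t, s1, s2, s3, t1, t2, conn_rs.1 (Conn.symm' ?_)⟩
      refine (h.symm'.ind (p := fun z => Conn (fun e => bF (F ω) e && decide (e ∉ U)) univ t z ∧
        Conn (τ ω) (Bx 0 M') t z) ⟨Conn.rfl', Conn.rfl'⟩ fun z d _ _ _ h3 ⟨h4, h5⟩ => ?_).2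
      have hU : edge z d ∉ U := fun hU => by
        obtain ⟨i, hw, hU⟩ := mem_iUnion₂.1 hU
        have h6 : Conn (op (fun e => bF (F ω) e && decide (e ∉ U)) (Ue (X i))) univ t z :=
          h4.mono subset_rfl fun e _ h => op_true.2 (Or.inl h)
        have : z ∈ X i ∨ z + u d ∈ X i := by
          have := hU.1
          rcases cases4 d with rfl | rfl | rfl | rfl <;>
            simp [Prod.add_def, ← sub_eq_add_neg] at this ⊢ <;> tauto
        rcases this with h | h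
        · exact hg i ⟨hw, _, h, t, t1, t2, h6⟩
        · exact hg i ⟨hw, _, h, t, t1, t2, h6.snoc trivial trivial (op_true.2 (Or.inr hU))⟩
      have h7 := (op_true.1 (bF_le h3)).resolve_right hU
      have h8 := edge_mem_In.1 (rs_mem _ h7)
      exact ⟨h4.snoc trivial trivial (by simp [h3, hU]), h5.snoc h8.1 h8.2 h7⟩
    · exact absurd ((j2 g (le i hw (Fc_bF _ _ ⟨f, f1, f2, f3, h⟩))).symm.trans (j3 g g1 g2))
        one_ne_zero
  clear j2 j3 hp x1 x2 y1 y2 hw J x y i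
  obtain ⟨hw, x, x1, y, y1, y2, hp⟩ := gate.choose_spec
  have eW : W (F ω) = w gate.choose := dif_pos gate
  generalize gate.choose = i at *
  obtain ⟨J, j1, j2, j3⟩ := index_Fc (o1 i) ha hb (cr i x x1 hw y y1 y2 (hp.mono subset_rfl
    fun e _ h => op_true.2 ((op_true.1 h).imp_left fun h => by
      simp only [Bool.and_eq_true, decide_eq_true_eq] at h
      exact (op_true.1 (bF_le h.1)).resolve_right h.2)))
  obtain ⟨f, g, f1, f2, f3, g1, g2, h⟩ := (cross_or τ1 fin rs_mem (a := a) hb).resolve_left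
    fun ⟨s, t, s1, s2, s3, t1, t2, h⟩ => hn ⟨s, t, s1, s2, s3, t1, t2, conn_rs.1 h⟩
  obtain ⟨v, v1, v2, rfl | ⟨d, v3, v4, v5, v6⟩⟩ := last_touch (I := fun z => J z ≠ 0) h f1.ge
    (by rw [j2 f ⟨f, f1, f2, f3, Conn.rfl'⟩]; exact one_ne_zero)
  · exact absurd (j3 _ g1 g2) v1
  have : dl (edge v d) ∈ Ue (X i) := by
    by_contra hc
    refine v4 ((j1 v d v2 v3 ?_).symm ▸ v1)
    simpa [du, op, hc] using v5
  obtain ⟨x, x1, d', e⟩ := corner this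
  have x2 : nm (w i) (fc x d') ≤ r := by
    have := hX i x x1
    rcases cases4 d' with rfl | rfl | rfl | rfl <;>
      simp only [nm, fc, abs_le, abs_lt, max_le_iff, max_lt_iff] at this ⊢ <;> simp <;> omega
  rw [e] at v3 v6
  simp only [A, mem_ofPred, eW]
  by_contra hA
  refine absurd ((h2 i x x1 d' g v3 (v6.ind (p := fun z =>
    Conn (du (fz Fz φ fun _ => false)) (Bx (w i) ρ) (fc x d') z ∧
    Conn (fun e => du ω e && decide (dl e ∉ EF (F ω))) univ (fc x d') z) ⟨Conn.rfl', Conn.rfl'⟩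
    fun z k _ z1 z2 z3 ⟨z4, z5⟩ => ?_).1).1 g1) g2.not_ge
  have z6 : nm (w i) z < ρ := not_le.1 fun h => hA ⟨_, _, ⟨x2, h⟩, z5⟩
  have z7 : dl (edge z k) ∈ In (Bx 0 M') := by
    have a1 : 0 ≤ z.2 := z1.1
    have a2 : 0 ≤ (z + u k).2 := z2.1
    rcases cases4 k with rfl | rfl | rfl | rfl <;>
      simp [In, Bx, nm, dl, abs_le, abs_lt] at z6 hw a2 ⊢ <;> omega
  have z8 := (h2 i x x1 d' z v3 z4).2 k z2.1
  have z9 : dl (edge z k) ∉ Fz ∧ ω (dl (edge z k)) = false := by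
    by_cases hz : dl (edge z k) ∈ Fz <;> simp_all [du, τ, rs, fz]
  have nF : ∀ p, ¬ J p ≠ 0 → p ∉ F ω := fun p hp h => hp (by rw [j2 p (le i hw h)]; exact one_ne_zero)
  refine ⟨z4.snoc ⟨z6.le, z1.1⟩ ⟨(nm_lip _ _ _).trans z6, z2.1⟩ (by simp [du, fz, z9]),
    z5.snoc trivial trivial ?_⟩
  rcases dl_faces z k with ⟨e1, e2⟩ | ⟨e1, e2⟩ <;>
    simp [du, z9, EF, e1, e2, nF _ z1.2, nF _ z2.2]

end Pool.Agent.P.MP_6c8efb_pr.SLE.Ext
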