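import Pool.Agent.P.MP_6c8efb_pr.Path

/-! Planar duality in the upper half plane. -/

namespace Pool.Agent.P.MP_6c8efb_pr.SLE.Ext

open Set

/-- the upper half plane -/
def Up : Set V := {x | 0 ≤ x.2}

/-- the edges of the upper half plane that are not on the axis -/
def Hi (e : E) : Prop := 0 ≤ e.1.2 ∧ (e.1.2 = 0 → e.2 = false)

/-- the index function of a crossing -/
theorem exists_index {σ : Cfg} (hσ : ∀ e, σ e = true → Hi e) {s t : V} (hs : s.2 = 0)
    (ht : t.2 = 0) (h : Conn σ univ s t) : ∃ J : V → ℤ,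
    (∀ f d, f ∈ Up → f + u d ∈ Up → σ (dl (edge f d)) = false → J (f + u d) = J f) ∧
    ∀ i, J (i, 0) = (if s.1 ≤ i then 1 else 0) - if t.1 ≤ i then 1 else 0 := by
  obtain ⟨M, hM⟩ := h.finite
  obtain ⟨c, h1, h2⟩ := exists_chain hM
  obtain ⟨J, j1, j2, j3⟩ := exists_J c (min (-M) (min s.1 t.1)) fun e he =>
    (min_le_left _ _).trans (h1 e he).2.1.1
  have z : ∀ e, σ e = false → c e = 0 := fun e he => by
    by_contra h; simp [(h1 e h).1] at he
  have z' : ∀ e, ¬ Hi e → c e = 0 := fun e he => by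
    by_contra h; exact he (hσ e (h1 e h).1)
  have j4 : ∀ i j, 0 < j → J (i, j) - J (i, j - 1) + c ((i, j), true) = 0 := fun i j hj => by
    have : ∀ k, bd c (k, j) = 0 := fun k => by
      rw [h2, if_neg, if_neg, sub_self] <;> rintro rfl <;> simp_all
    simpa [this] using j3 j 0 (fun k _ => this k) i
  refine ⟨J, fun ⟨x, y⟩ d f1 f2 h => ?_, ind_right (min (-M) (min s.1 t.1)) (fun i hi => ?_)
    fun i hi => ?_⟩
  · have := z _ h
    simp only [Up, mem_ofPred] at f1 f2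
    rcases cases4 d with rfl | rfl | rfl | rfl <;> simp [dl] at this f2 ⊢
    · have := j2 (x + 1) y; simp_all; omega
    · have := j4 x (y + 1) (by omega); simp_all; omega
    · have := j2 x y; rw [← sub_eq_add_neg]; omega
    · have := j4 x y (by omega); rw [← sub_eq_add_neg]; omega
  · rw [j1 _ hi, if_neg, if_neg, sub_self] <;> omega
  · have e := h2 (i, 0)
    have := j2 i 0
    rw [bd, z' (edge _ 0) (by simp [Hi]), z' (edge _ 2) (by simp [Hi]),
      z' (edge _ 3) (by simp [Hi])] at e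
    simp only [edge1, Prod.ext_iff, hs, ht, and_true] at e
    split_ifs at e hi ⊢ <;> omega

/-- either an open crossing or a dual crossing -/
theorem cross_or {σ : Cfg} (hσ : ∀ e, σ e = true → Hi e) {A : Set V} (hA : A.Finite)
    (h : ∀ e, σ e = true → e ∈ In A) {a b : ℤ} (hb : 0 < b) :
    (∃ x y : V, x.2 = 0 ∧ -a ≤ x.1 ∧ x.1 ≤ 0 ∧ y.2 = 0 ∧ b ≤ y.1 ∧ Conn σ A x y) ∨
    ∃ f g : V, f.2 = 0 ∧ 0 ≤ f.1 ∧ f.1 < b ∧ g.2 = 0 ∧ g.1 < -a ∧ Conn (du σ) Up f g := by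
  rcases lt_or_ge a 0 with ha | ha
  · exact Or.inr ⟨0, 0, rfl, le_rfl, hb, rfl, by simp; omega, Conn.rfl'⟩
  by_contra! H
  let τ : Cfg := fun e => σ e || decide (e.1.2 = 0 ∧ e.2 = true ∧ -a ≤ e.1.1 ∧ e.1.1 < 0)
  obtain ⟨l, hl⟩ := exists_loop (ω := τ) (hA.union (Rc_finite (-a) 0 0 0)) (fun e he => by
    rcases Bool.or_eq_true _ _ ▸ he with he | he
    · exact ⟨Or.inl (h e he).1, Or.inl (h e he).2⟩
    · obtain ⟨⟨x, y⟩, o⟩ := e
      simp at he
      obtain ⟨rfl, rfl, h1, h2⟩ := he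
      constructor <;> right <;> simp [mem_Rc] <;> omega) ((0, 0), 0)
  obtain ⟨t, -, ht, -⟩ := hl.eq_cons
  have c0 : σ ((0, 0), true) = false := by
    by_contra h; simpa [Hi] using hσ _ (Bool.of_not_eq_false h)
  have key := (ht.ind (P := fun c : D => (∃ x : V, x.2 = 0 ∧ -a ≤ x.1 ∧ x.1 ≤ 0 ∧ Conn σ A x c.1) ∧
    0 ≤ c.1.2 ∧ ((fd c).2 < 0 → 0 < c.1.1) ∧
    (0 ≤ (fd c).2 → ∃ f : V, f.2 = 0 ∧ 0 ≤ f.1 ∧ f.1 < b ∧ Conn (du σ) Up f (fd c))) ?_ ?_).2
  · simpa [fd] using key.2.2.1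
  · rw [step_closed (by simp [τ, ed, c0])]
    exact ⟨⟨0, rfl, by simpa, le_rfl, Conn.rfl'⟩, le_rfl, by simp [fd, rot, fc],
      fun _ => ⟨0, rfl, le_rfl, hb, Conn.rfl'⟩⟩
  clear ht hl
  rintro ⟨⟨x, y⟩, d⟩ - ⟨⟨s, s1, s2, s3, s4⟩, p1, p2, p3⟩
  by_cases ho : τ (ed ((x, y), d)) = true
  · rw [step_open ho, fd_ro]
    rcases Bool.or_eq_true _ _ ▸ ho with ho | ho
    · have hi := hσ _ ho
      have hm := edge_mem_In.1 (h _ ho)
      refine ⟨⟨s, s1, s2, s3, s4.snoc hm.1 hm.2 ho⟩, ?_, fun h => ?_, p3⟩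
      · rcases cases4 d with rfl | rfl | rfl | rfl <;> simp [Hi, ed, rot, opp] at hi p1 ⊢ <;> omega
      · rcases cases4 d with rfl | rfl | rfl | rfl <;> simp [Hi, ed, fd, fc] at hi p1 h <;> omega
    · have ho := of_decide_eq_true ho
      have : (rot (opp ((x, y), d))).1.2 = 0 ∧ -a ≤ (rot (opp ((x, y), d))).1.1 ∧
          (rot (opp ((x, y), d))).1.1 ≤ 0 ∧ 0 ≤ (fd ((x, y), d)).2 := by
        rcases cases4 d with rfl | rfl | rfl | rfl <;> simp [ed, fd, fc, rot, opp] at ho p2 ⊢ <;>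
          omega
      exact ⟨⟨_, this.1, this.2.1, this.2.2.1, Conn.rfl'⟩, this.1.ge,
        fun h => absurd this.2.2.2 h.not_ge, p3⟩
  rw [step_closed ho]
  simp only [τ, Bool.or_eq_true, not_or, decide_eq_true_eq] at ho
  refine ⟨⟨s, s1, s2, s3, s4⟩, p1, fun h => ?_, fun h => ?_⟩
  · have ho := ho.2
    rcases cases4 d with rfl | rfl | rfl | rfl <;> simp [ed, fd, fc, rot] at h p1 p2 ho ⊢
    · omega
    · omega
    · obtain rfl : y = 0 := by omega
      by_contra hx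
      obtain ⟨f, f1, f2, f3, f4⟩ := p3 (by simp [fd, fc])
      exact H.2 f _ f1 f2 f3 (by simp [fd, fc]) (by simp [fd, fc]; omega) f4
    · omega
  · by_cases h' : 0 ≤ (fd ((x, y), d)).2
    · obtain ⟨f, f1, f2, f3, f4⟩ := p3 h'
      refine ⟨f, f1, f2, f3, ?_⟩
      have e : fd (rot ((x, y), d)) = fd ((x, y), d) + u (d + 1) := fc_succ _ _
      rw [e] at h ⊢
      refine f4.snoc h' h ?_
      have : dl (edge (fd ((x, y), d)) (d + 1)) = ed ((x, y), d) := by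
        rcases cases4 d with rfl | rfl | rfl | rfl <;> simp [ed, fd, fc, dl]
      simpa [du, this] using ho.1
    · have := H.1 s (x, y) s1 s2 s3
      simp only [s4, not_true, imp_false, not_le] at this
      have : (fd (rot ((x, y), d))).2 = 0 ∧ 0 ≤ (fd (rot ((x, y), d))).1 ∧
          (fd (rot ((x, y), d))).1 < b := by
        clear p3 ho H
        rcases cases4 d with rfl | rfl | rfl | rfl <;> simp [fd, fc, rot] at h h' p1 p2 ⊢ <;> omega
      exact ⟨_, this.1, this.2.1, this.2.2, Conn.rfl'⟩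

end Pool.Agent.P.MP_6c8efb_pr.SLE.Ext
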